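import Pool.Agent.helper31.A2.App
import Pool.Agent.helper31.EQB.Fin
import Pool.Agent.helper71.FJ.FarQ
import Pool.Agent.helper31.EQ.Full

/-!
# A2-F: everything from `e = 200` on, and the assembly of all ranges
-/

namespace Pool.Agent.helper31.A2

open Set Metric Pool.Agent.helper31.EQ
open Pool.Agent.helper31.EQB
open Pool.Agent.helper71.FJ (farQ farQ_Ω farQ_X)

/-- The traps for all `e ≥ 200` and all `κ` of the domain, without hypotheses. -/
theorem trap200 {e κ : ℝ} (he : 200 ≤ e) (hκ : 0 < κ)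
    (h : 2 * (Real.cosh κ - 1) / Real.cosh (e * κ / 2) ^ (2 / e) < 4 ^ (1 / e) - 1) :
    Nonempty (SeqTrap e (Real.exp κ)) := by
  have h100 : (100 : ℝ) ≤ e := by linarith
  have hk : Pool.Agent.helper12.RS.kfun e κ < 4 ^ (1 / e) - 1 := h
  rcases le_total e 500 with h5 | h5
  · rcases le_or_gt (bet e κ) 5 with hb | hb
    · exact trap_A2 he h5 hκ hb (farQ h100 hκ hk) (farQ_Ω h100 hκ hk) (farQ_X h100 hκ hk)
    · exact trap_reg he hκ (fun h6 => absurd hb (not_lt.2 h6)) h (farQ h100 hκ hk)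
        (farQ_Ω h100 hκ hk) (farQ_X h100 hκ hk)
  · exact trap_reg he hκ (fun _ => h5) h (farQ h100 hκ hk) (farQ_Ω h100 hκ hk)
      (farQ_X h100 hκ hk)

/-- The complete answer from `W` (`1 < e ≤ 4`) and the traps for `4 ≤ e ≤ 20`, `20 ≤ e ≤ 200`. -/
theorem full_of4
    (HW : ∀ e κ : ℝ, 1 < e → e ≤ 4 → 0 < κ →
      2 * (Real.cosh κ - 1) / Real.cosh (e * κ / 2) ^ (2 / e) < 4 ^ (1 / e) - 1 →
      Nonempty (WTrap e (Real.exp κ)))
    (H20 : ∀ e κ : ℝ, 4 ≤ e → e ≤ 20 → 0 < κ →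
      2 * (Real.cosh κ - 1) / Real.cosh (e * κ / 2) ^ (2 / e) < 4 ^ (1 / e) - 1 →
      Nonempty (SeqTrap e (Real.exp κ)))
    (HS : ∀ e κ : ℝ, 20 ≤ e → e ≤ 200 → 0 < κ →
      2 * (Real.cosh κ - 1) / Real.cosh (e * κ / 2) ^ (2 / e) < 4 ^ (1 / e) - 1 →
      Nonempty (SeqTrap e (Real.exp κ)))
    {n : ℕ} (hn : 2 ≤ n) {i : ℝ} (hi : i ≠ 1) :
    (∃ L : Set (EuclideanSpace ℝ (Fin n)), IsBody L ∧ ∃ p q, p ≠ q ∧
      IsEquichordalPoint i L p ∧ IsEquichordalPoint i L q) ↔ i < 1 := by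
  refine full_of HW ?_ hn hi
  intro e κ he hκ hb
  rcases le_total e 20 with h | h
  · exact H20 e κ he h hκ hb
  rcases le_total e 200 with h2 | h2
  · exact HS e κ h h2 hκ hb
  · exact trap200 h2 hκ hb

end Pool.Agent.helper31.A2
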