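import Pool.Agent.helper31.A2.Stm

/-!
# A2: geometry of the domains of the programs (helper99)

`750299 = ⌊2^24/√500⌋`, `1186329 = ⌈2^24/√200⌉`, `16777216 = 2^24`.
-/

namespace Pool.Agent.helper31.A2

open Pool.Agent.helper31.EQB

variable {e κ : ℝ}

theorem inv_sqrt_mem (he : 200 ≤ e) (he5 : e ≤ 500) :
    (750299 : ℝ) / 16777216 ≤ (√e)⁻¹ ∧ (√e)⁻¹ ≤ (1186329 : ℝ) / 16777216 := by
  have he0 : 0 < e := by linarith
  have hs : 0 < √e := Real.sqrt_pos.2 he0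
  have h2 : √e ^ 2 = e := Real.sq_sqrt he0.le
  constructor
  · have h : √e ≤ 16777216 / 750299 := by
      rw [Real.sqrt_le_left (by norm_num)]
      refine he5.trans ?_
      norm_num
    have h3 := inv_anti₀ hs h
    rwa [inv_div] at h3
  · have h : (16777216 : ℝ) / 1186329 ≤ √e := by
      apply Real.le_sqrt_of_sq_le
      refine le_trans ?_ he
      norm_num
    have h3 := inv_anti₀ (by norm_num) h
    rwa [inv_div] at h3

/-- the same in units `2^-40` (`49171595264 = 750299 · 2^16`, `77747257344 = 1186329 · 2^16`) -/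
theorem inv_sqrt_mem40 (he : 200 ≤ e) (he5 : e ≤ 500) :
    (49171595264 : ℝ) / 2 ^ 40 ≤ (√e)⁻¹ ∧ (√e)⁻¹ ≤ (77747257344 : ℝ) / 2 ^ 40 := by
  obtain ⟨h1, h2⟩ := inv_sqrt_mem he he5
  constructor
  · refine le_trans (le_of_eq ?_) h1
    norm_num
  · refine h2.trans (le_of_eq ?_)
    norm_num

theorem inv_sqrt_pos (he : 200 ≤ e) : 0 < (√e)⁻¹ :=
  inv_pos.2 (Real.sqrt_pos.2 (by linarith))

theorem inv_sqrt_sq (he : 200 ≤ e) : (√e)⁻¹ * (√e)⁻¹ = e⁻¹ := by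
  rw [← mul_inv, Real.mul_self_sqrt (by linarith)]

/-- `√(β² + v²)` between `max β v` and `β + v` -/
theorem hyp_bounds {b v : ℝ} (hb : 0 ≤ b) (hv : 0 ≤ v) :
    b ≤ √(b ^ 2 + v ^ 2) ∧ v ≤ √(b ^ 2 + v ^ 2) ∧ √(b ^ 2 + v ^ 2) ≤ b + v := by
  refine ⟨Real.le_sqrt_of_sq_le (by nlinarith [sq_nonneg v]),
    Real.le_sqrt_of_sq_le (by nlinarith [sq_nonneg b]), ?_⟩
  rw [Real.sqrt_le_left (by linarith)]
  nlinarith [mul_nonneg hb hv]

/-- upper bound of `√(β² + v²)` from bounds of `β`, `v` and of the root of the sum -/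
theorem hyp_le {b v B V R : ℝ} (hb : 0 ≤ b) (hv : 0 ≤ v) (hB : b ≤ B) (hV : v ≤ V) (hR : 0 ≤ R)
    (h : B ^ 2 + V ^ 2 ≤ R ^ 2) : √(b ^ 2 + v ^ 2) ≤ R := by
  rw [Real.sqrt_le_left hR]
  have h1 : b ^ 2 ≤ B ^ 2 := pow_le_pow_left₀ hb hB 2
  have h2 : v ^ 2 ≤ V ^ 2 := pow_le_pow_left₀ hv hV 2
  linarith

end Pool.Agent.helper31.A2
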