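import Pool.Agent.helper31.EQB.RowM

/-!
# A2-8: the bounds away from the resonance for `e ≥ 200`, `β ≤ 5`, `|y| ≤ 21/20`

As `EQB/RowM.lean` (`pick_row2`, `unif_row2`, `dn_row2` with `200` instead of `500`; `K ≤ b/200 ≤ 1/39`).
`px_rows_strong`: the values reached; `px_rows`: the values used.
-/

namespace Pool.Agent.helper31.A2

open Complex ComplexConjugate Set Filter Topology
open Pool.Agent.helper31.EQ.Y Pool.Agent.helper31.EQ.R
open Pool.Agent.helper12.EQL Pool.Agent.helper12.RP Pool.Agent.helper12.FF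
open Pool.Agent.helper31.EQB

variable {e κ x y0 M : ℝ}

/-- the angle -/
noncomputable def thq2 (b y0 M0 : ℝ) : ℝ := y0 + (b ^ 2 + y0 ^ 2 + 1) / 200 * M0

/-- upper bound of `1/lam` -/
noncomputable def liq2 (b X : ℝ) : ℝ := (1 + (2 * (b / 200) * X) ^ 2 / 3) / (X * (1 - (b / 200) ^ 2 / 6))

theorem liq2_ge {K b X : ℝ} (hK0 : 0 ≤ K) (hKb : K ≤ b / 200) (hb : b ≤ 5001 / 1000) (hX : 0 < X) :
    1 / lam K X ≤ liq2 b X := by
  have hb0 : 0 ≤ b / 200 := hK0.trans hKb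
  have hb1 : b / 200 ≤ 1 / 10 := by linarith
  have h1 : 0 < 1 - (b / 200) ^ 2 / 6 := by nlinarith
  have hKK : K ^ 2 ≤ (b / 200) ^ 2 := pow_le_pow_left₀ hK0 hKb 2
  have h2 : 1 - (b / 200) ^ 2 / 6 ≤ 1 - K ^ 2 / 6 := by linarith
  have h3 : K * (1 - K ^ 2 / 6) ≤ b / 200 := by
    have : K * (1 - K ^ 2 / 6) ≤ K * 1 := mul_le_mul_of_nonneg_left (by nlinarith) hK0
    linarith
  have h3' : 0 ≤ K * (1 - K ^ 2 / 6) := mul_nonneg hK0 (by linarith)
  have h4 : (2 * (K * (1 - K ^ 2 / 6)) * X) ^ 2 ≤ (2 * (b / 200) * X) ^ 2 := by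
    apply pow_le_pow_left₀ (by positivity)
    exact mul_le_mul_of_nonneg_right (by linarith) hX.le
  have h5 : (1 - (b / 200) ^ 2 / 6) * X / (1 + (2 * (b / 200) * X) ^ 2 / 3) ≤ lam K X := by
    unfold lam
    have a1 : (1 - (b / 200) ^ 2 / 6) * X / (1 + (2 * (b / 200) * X) ^ 2 / 3) ≤
        (1 - K ^ 2 / 6) * X / (1 + (2 * (K * (1 - K ^ 2 / 6)) * X) ^ 2 / 3) := by
      apply div_le_div₀
      · exact mul_nonneg (by linarith) hX.le
      · exact mul_le_mul_of_nonneg_right h2 hX.le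
      · positivity
      · linarith
    refine a1.trans ?_
    apply le_mul_of_one_le_right
    · apply div_nonneg (mul_nonneg (by linarith) hX.le)
      positivity
    · have := sq_nonneg (thf K X)
      linarith
  have h6 : 0 < (1 - (b / 200) ^ 2 / 6) * X / (1 + (2 * (b / 200) * X) ^ 2 / 3) := by positivity
  calc 1 / lam K X ≤ 1 / ((1 - (b / 200) ^ 2 / 6) * X / (1 + (2 * (b / 200) * X) ^ 2 / 3)) :=
        one_div_le_one_div_of_le h6 h5
    _ = liq2 b X := by unfold liq2; rw [one_div_div]; ring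

/-- numerical conditions of a step -/
structure PC2 (b y0 X M0 M : ℝ) : Prop where
  X0 : 0 < X
  M1 : 1 ≤ M
  m0 : 0 ≤ M0
  R : (b ^ 2 + y0 ^ 2 + 1) / 200 * (1 / 2 + M0) ≤ 19 / 10
  T : thq2 b y0 M0 ≤ 314 / 100
  N : 1 + (b / 200) ^ 2 / 2 + (1 / 2 + M0) * (liq2 b X + 1 / 200) ≤ nuq (thq2 b y0 M0) * M

theorem PC2.facts {b X M0 : ℝ} (he : 200 ≤ e) (hκ : 0 < κ) (hb : bet e κ ≤ b)
    (hb5 : b ≤ 5001 / 1000) (hy0 : 0 ≤ y0) (P : PC2 b y0 X M0 M) :
    Real.sinh κ ≤ 1 / 10 ∧ bet e κ ^ 2 + y0 ^ 2 ≤ b ^ 2 + y0 ^ 2 ∧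
    (b ^ 2 + y0 ^ 2 + 1) / e * (1 / 2 + M0) ≤ 19 / 10 ∧
    y0 + (b ^ 2 + y0 ^ 2 + 1) / e * M0 < Real.pi ∧
    nuq (thq2 b y0 M0) ≤ 2 * Real.cos ((y0 + (b ^ 2 + y0 ^ 2 + 1) / e * M0) / 2) ∧
    0 < nuq (thq2 b y0 M0) ∧
    1 + Real.sinh κ ^ 2 / 2 + (1 / 2 + M0) * (1 / lam (Real.sinh κ) X + 1 / e) ≤
      nuq (thq2 b y0 M0) * M := by
  have he0 : 0 < e := by linarith
  have hK0 : 0 < Real.sinh κ := Real.sinh_pos_iff.2 hκ
  have hb0 : 0 < bet e κ := bet_pos he0 hκ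
  have hKb : Real.sinh κ ≤ b / 200 := by
    rw [le_div_iff₀ (by norm_num)]
    unfold bet at hb
    nlinarith
  have hS : bet e κ ^ 2 ≤ b ^ 2 := pow_le_pow_left₀ hb0.le hb 2
  have hm0 := P.m0
  have hSe : (b ^ 2 + y0 ^ 2 + 1) / e ≤ (b ^ 2 + y0 ^ 2 + 1) / 200 :=
    div_le_div_of_nonneg_left (by positivity) (by norm_num) he
  have hSe0 : 0 ≤ (b ^ 2 + y0 ^ 2 + 1) / e := by positivity
  have hθ : y0 + (b ^ 2 + y0 ^ 2 + 1) / e * M0 ≤ thq2 b y0 M0 := by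
    unfold thq2
    have := mul_le_mul_of_nonneg_right hSe hm0
    linarith
  have hθ0 : 0 ≤ y0 + (b ^ 2 + y0 ^ 2 + 1) / e * M0 := by positivity
  have hπ := Real.pi_gt_d2
  have hN : 1 + Real.sinh κ ^ 2 / 2 + (1 / 2 + M0) * (1 / lam (Real.sinh κ) X + 1 / e) ≤
      nuq (thq2 b y0 M0) * M := by
    refine le_trans ?_ P.N
    have a1 := liq2_ge hK0.le hKb hb5 P.X0
    have a2 : 1 / e ≤ 1 / 200 := one_div_le_one_div_of_le (by norm_num) he
    have a3 : Real.sinh κ ^ 2 ≤ (b / 200) ^ 2 := pow_le_pow_left₀ hK0.le hKb 2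
    have a4 : (1 / 2 + M0) * (1 / lam (Real.sinh κ) X + 1 / e) ≤
        (1 / 2 + M0) * (liq2 b X + 1 / 200) :=
      mul_le_mul_of_nonneg_left (by linarith) (by linarith)
    linarith
  have hl := lam_pos2 hK0.le (by linarith : Real.sinh κ ≤ 1) P.X0
  refine ⟨by linarith, by linarith, ?_, ?_, ?_, ?_, hN⟩
  · exact (mul_le_mul_of_nonneg_right hSe (by linarith)).trans P.R
  · linarith [P.T]
  · refine (nuq_le (hθ0.trans hθ)).trans ?_
    have := Real.cos_le_cos_of_nonneg_of_le_pi (x := (y0 + (b ^ 2 + y0 ^ 2 + 1) / e * M0) / 2)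
      (y := thq2 b y0 M0 / 2) (by linarith) (by linarith [P.T]) (by linarith)
    linarith
  · have h1 : 0 < nuq (thq2 b y0 M0) * M := by
      refine lt_of_lt_of_le ?_ hN
      positivity
    exact (mul_pos_iff_of_pos_right (by linarith [P.M1])).1 h1

theorem pick_row2 {b X M0 : ℝ} (he : 200 ≤ e) (hκ : 0 < κ) (hb : bet e κ ≤ b)
    (hb5 : b ≤ 5001 / 1000) (hy0 : 0 ≤ y0) (P : PC2 b y0 X M0 M) (h : PX e κ X y0 M0) :
    PX e κ X y0 M := by
  obtain ⟨h1, h2, h3, h4, h5, h6, h7⟩ := P.facts he hκ hb hb5 hy0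
  exact PX_pick (by linarith) hκ h1 P.X0 le_rfl h2 P.m0 hy0 h h3 h4 h6 h5 P.M1 h7

theorem unif_row2 {b X : ℝ} (he : 200 ≤ e) (hκ : 0 < κ) (hb : bet e κ ≤ b)
    (hb5 : b ≤ 5001 / 1000) (hy0 : 0 ≤ y0) (P : PC2 b y0 X (1 + M) M) : PX e κ X y0 M := by
  obtain ⟨h1, h2, h3, h4, h5, h6, h7⟩ := P.facts he hκ hb hb5 hy0
  refine PX_unif (by linarith) hκ h1 P.X0 h2 hy0 ?_ h4 h6 h5 P.M1 ?_
  · rw [show (3:ℝ) / 2 + M = 1 / 2 + (1 + M) by ring]; exact h3
  · rw [show (3:ℝ) / 2 + M = 1 / 2 + (1 + M) by ring]; exact h7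

theorem dn_row2 {x' M' : ℝ} (he : 200 ≤ e) (hκ : 0 < κ) (hM : 0 ≤ M) (hx : x' + 1 = x)
    (hM' : 1 + M = M') (h : PX e κ x y0 M) : PX e κ x' y0 M' := by
  rw [← hM']
  exact PX_dn (by linarith) hκ hM (by rw [hx]; exact h)

private theorem pr0 (he : 200 ≤ e) (hκ : 0 < κ) (hb : bet e κ ≤ 5) :
    PX e κ (3 / 10) (21 / 20) (173 / 64) := by
  have hb5 : (5 : ℝ) ≤ 5001 / 1000 := by norm_num
  have hy0 : (0:ℝ) ≤ 21 / 20 := by norm_num
  have h0 : PX e κ (23 / 10) (21 / 20) (49 / 32) := unif_row2 he hκ hb hb5 hy0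
    (by constructor <;> norm_num [thq2, nuq, liq2])
  have h1 : PX e κ (23 / 10) (21 / 20) (19 / 16) := pick_row2 he hκ hb hb5 hy0
    (by constructor <;> norm_num [thq2, nuq, liq2]) h0
  have h2 : PX e κ (23 / 10) (21 / 20) (17 / 16) := pick_row2 he hκ hb hb5 hy0
    (by constructor <;> norm_num [thq2, nuq, liq2]) h1
  have h3 : PX e κ (23 / 10) (21 / 20) (33 / 32) := pick_row2 he hκ hb hb5 hy0
    (by constructor <;> norm_num [thq2, nuq, liq2]) h2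
  have h4 : PX e κ (23 / 10) (21 / 20) (65 / 64) := pick_row2 he hκ hb hb5 hy0
    (by constructor <;> norm_num [thq2, nuq, liq2]) h3
  have h5 : PX e κ (13 / 10) (21 / 20) (129 / 64) := dn_row2 he hκ (by norm_num) (by norm_num) (by norm_num) h4
  have h6 : PX e κ (13 / 10) (21 / 20) (15 / 8) := pick_row2 he hκ hb hb5 hy0
    (by constructor <;> norm_num [thq2, nuq, liq2]) h5
  have h7 : PX e κ (13 / 10) (21 / 20) (115 / 64) := pick_row2 he hκ hb hb5 hy0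
    (by constructor <;> norm_num [thq2, nuq, liq2]) h6
  have h8 : PX e κ (13 / 10) (21 / 20) (7 / 4) := pick_row2 he hκ hb hb5 hy0
    (by constructor <;> norm_num [thq2, nuq, liq2]) h7
  have h9 : PX e κ (13 / 10) (21 / 20) (55 / 32) := pick_row2 he hκ hb hb5 hy0
    (by constructor <;> norm_num [thq2, nuq, liq2]) h8
  have h10 : PX e κ (13 / 10) (21 / 20) (109 / 64) := pick_row2 he hκ hb hb5 hy0
    (by constructor <;> norm_num [thq2, nuq, liq2]) h9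
  have h11 : PX e κ (3 / 10) (21 / 20) (173 / 64) := dn_row2 he hκ (by norm_num) (by norm_num) (by norm_num) h10
  exact h11

private theorem pr1 (he : 200 ≤ e) (hκ : 0 < κ) (hb : bet e κ ≤ 5) :
    PX e κ 1 (21 / 20) (135 / 64) := by
  have hb5 : (5 : ℝ) ≤ 5001 / 1000 := by norm_num
  have hy0 : (0:ℝ) ≤ 21 / 20 := by norm_num
  have h0 : PX e κ 2 (21 / 20) (7 / 4) := unif_row2 he hκ hb hb5 hy0
    (by constructor <;> norm_num [thq2, nuq, liq2])
  have h1 : PX e κ 2 (21 / 20) (43 / 32) := pick_row2 he hκ hb hb5 hy0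
    (by constructor <;> norm_num [thq2, nuq, liq2]) h0
  have h2 : PX e κ 2 (21 / 20) (19 / 16) := pick_row2 he hκ hb hb5 hy0
    (by constructor <;> norm_num [thq2, nuq, liq2]) h1
  have h3 : PX e κ 2 (21 / 20) (73 / 64) := pick_row2 he hκ hb hb5 hy0
    (by constructor <;> norm_num [thq2, nuq, liq2]) h2
  have h4 : PX e κ 2 (21 / 20) (9 / 8) := pick_row2 he hκ hb hb5 hy0
    (by constructor <;> norm_num [thq2, nuq, liq2]) h3
  have h5 : PX e κ 2 (21 / 20) (71 / 64) := pick_row2 he hκ hb hb5 hy0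
    (by constructor <;> norm_num [thq2, nuq, liq2]) h4
  have h6 : PX e κ 1 (21 / 20) (135 / 64) := dn_row2 he hκ (by norm_num) (by norm_num) (by norm_num) h5
  exact h6

private theorem pr2 (he : 200 ≤ e) (hκ : 0 < κ) (hb : bet e κ ≤ 5) :
    PX e κ (13 / 10) (21 / 20) (109 / 64) := by
  have hb5 : (5 : ℝ) ≤ 5001 / 1000 := by norm_num
  have hy0 : (0:ℝ) ≤ 21 / 20 := by norm_num
  have h0 : PX e κ (23 / 10) (21 / 20) (49 / 32) := unif_row2 he hκ hb hb5 hy0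
    (by constructor <;> norm_num [thq2, nuq, liq2])
  have h1 : PX e κ (23 / 10) (21 / 20) (19 / 16) := pick_row2 he hκ hb hb5 hy0
    (by constructor <;> norm_num [thq2, nuq, liq2]) h0
  have h2 : PX e κ (23 / 10) (21 / 20) (17 / 16) := pick_row2 he hκ hb hb5 hy0
    (by constructor <;> norm_num [thq2, nuq, liq2]) h1
  have h3 : PX e κ (23 / 10) (21 / 20) (33 / 32) := pick_row2 he hκ hb hb5 hy0
    (by constructor <;> norm_num [thq2, nuq, liq2]) h2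
  have h4 : PX e κ (23 / 10) (21 / 20) (65 / 64) := pick_row2 he hκ hb hb5 hy0
    (by constructor <;> norm_num [thq2, nuq, liq2]) h3
  have h5 : PX e κ (13 / 10) (21 / 20) (129 / 64) := dn_row2 he hκ (by norm_num) (by norm_num) (by norm_num) h4
  have h6 : PX e κ (13 / 10) (21 / 20) (15 / 8) := pick_row2 he hκ hb hb5 hy0
    (by constructor <;> norm_num [thq2, nuq, liq2]) h5
  have h7 : PX e κ (13 / 10) (21 / 20) (115 / 64) := pick_row2 he hκ hb hb5 hy0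
    (by constructor <;> norm_num [thq2, nuq, liq2]) h6
  have h8 : PX e κ (13 / 10) (21 / 20) (7 / 4) := pick_row2 he hκ hb hb5 hy0
    (by constructor <;> norm_num [thq2, nuq, liq2]) h7
  have h9 : PX e κ (13 / 10) (21 / 20) (55 / 32) := pick_row2 he hκ hb hb5 hy0
    (by constructor <;> norm_num [thq2, nuq, liq2]) h8
  have h10 : PX e κ (13 / 10) (21 / 20) (109 / 64) := pick_row2 he hκ hb hb5 hy0
    (by constructor <;> norm_num [thq2, nuq, liq2]) h9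
  exact h10

private theorem pr3 (he : 200 ≤ e) (hκ : 0 < κ) (hb : bet e κ ≤ 5) :
    PX e κ (9 / 5) (21 / 20) (77 / 64) := by
  have hb5 : (5 : ℝ) ≤ 5001 / 1000 := by norm_num
  have hy0 : (0:ℝ) ≤ 21 / 20 := by norm_num
  have h0 : PX e κ (9 / 5) (21 / 20) (127 / 64) := unif_row2 he hκ hb hb5 hy0
    (by constructor <;> norm_num [thq2, nuq, liq2])
  have h1 : PX e κ (9 / 5) (21 / 20) (49 / 32) := pick_row2 he hκ hb hb5 hy0
    (by constructor <;> norm_num [thq2, nuq, liq2]) h0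
  have h2 : PX e κ (9 / 5) (21 / 20) (85 / 64) := pick_row2 he hκ hb hb5 hy0
    (by constructor <;> norm_num [thq2, nuq, liq2]) h1
  have h3 : PX e κ (9 / 5) (21 / 20) (5 / 4) := pick_row2 he hκ hb hb5 hy0
    (by constructor <;> norm_num [thq2, nuq, liq2]) h2
  have h4 : PX e κ (9 / 5) (21 / 20) (39 / 32) := pick_row2 he hκ hb hb5 hy0
    (by constructor <;> norm_num [thq2, nuq, liq2]) h3
  have h5 : PX e κ (9 / 5) (21 / 20) (77 / 64) := pick_row2 he hκ hb hb5 hy0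
    (by constructor <;> norm_num [thq2, nuq, liq2]) h4
  exact h5

private theorem pr4 (he : 200 ≤ e) (hκ : 0 < κ) (hb : bet e κ ≤ 5) :
    PX e κ (23 / 10) (21 / 20) (65 / 64) := by
  have hb5 : (5 : ℝ) ≤ 5001 / 1000 := by norm_num
  have hy0 : (0:ℝ) ≤ 21 / 20 := by norm_num
  have h0 : PX e κ (23 / 10) (21 / 20) (49 / 32) := unif_row2 he hκ hb hb5 hy0
    (by constructor <;> norm_num [thq2, nuq, liq2])
  have h1 : PX e κ (23 / 10) (21 / 20) (19 / 16) := pick_row2 he hκ hb hb5 hy0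
    (by constructor <;> norm_num [thq2, nuq, liq2]) h0
  have h2 : PX e κ (23 / 10) (21 / 20) (17 / 16) := pick_row2 he hκ hb hb5 hy0
    (by constructor <;> norm_num [thq2, nuq, liq2]) h1
  have h3 : PX e κ (23 / 10) (21 / 20) (33 / 32) := pick_row2 he hκ hb hb5 hy0
    (by constructor <;> norm_num [thq2, nuq, liq2]) h2
  have h4 : PX e κ (23 / 10) (21 / 20) (65 / 64) := pick_row2 he hκ hb hb5 hy0
    (by constructor <;> norm_num [thq2, nuq, liq2]) h3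
  exact h4

private theorem pr5 (he : 200 ≤ e) (hκ : 0 < κ) (hb : bet e κ ≤ 5) :
    PX e κ (13 / 5) (21 / 20) 1 := by
  have hb5 : (5 : ℝ) ≤ 5001 / 1000 := by norm_num
  have hy0 : (0:ℝ) ≤ 21 / 20 := by norm_num
  have h0 : PX e κ (13 / 5) (21 / 20) (11 / 8) := unif_row2 he hκ hb hb5 hy0
    (by constructor <;> norm_num [thq2, nuq, liq2])
  have h1 : PX e κ (13 / 5) (21 / 20) (69 / 64) := pick_row2 he hκ hb hb5 hy0
    (by constructor <;> norm_num [thq2, nuq, liq2]) h0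
  have h2 : PX e κ (13 / 5) (21 / 20) 1 := pick_row2 he hκ hb hb5 hy0
    (by constructor <;> norm_num [thq2, nuq, liq2]) h1
  exact h2

private theorem pr6 (he : 200 ≤ e) (hκ : 0 < κ) (hb : bet e κ ≤ 5) :
    PX e κ (33 / 10) (21 / 20) 1 := by
  have hb5 : (5 : ℝ) ≤ 5001 / 1000 := by norm_num
  have hy0 : (0:ℝ) ≤ 21 / 20 := by norm_num
  have h0 : PX e κ (33 / 10) (21 / 20) (75 / 64) := unif_row2 he hκ hb hb5 hy0
    (by constructor <;> norm_num [thq2, nuq, liq2])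
  have h1 : PX e κ (33 / 10) (21 / 20) 1 := pick_row2 he hκ hb hb5 hy0
    (by constructor <;> norm_num [thq2, nuq, liq2]) h0
  exact h1

private theorem pr7 (he : 200 ≤ e) (hκ : 0 < κ) (hb : bet e κ ≤ 5) :
    PX e κ (17 / 5) (21 / 20) 1 := by
  have hb5 : (5 : ℝ) ≤ 5001 / 1000 := by norm_num
  have hy0 : (0:ℝ) ≤ 21 / 20 := by norm_num
  have h0 : PX e κ (17 / 5) (21 / 20) (37 / 32) := unif_row2 he hκ hb hb5 hy0
    (by constructor <;> norm_num [thq2, nuq, liq2])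
  have h1 : PX e κ (17 / 5) (21 / 20) 1 := pick_row2 he hκ hb hb5 hy0
    (by constructor <;> norm_num [thq2, nuq, liq2]) h0
  exact h1

private theorem pr8 (he : 200 ≤ e) (hκ : 0 < κ) (hb : bet e κ ≤ 5) :
    PX e κ (43 / 10) (21 / 20) 1 := by
  have hb5 : (5 : ℝ) ≤ 5001 / 1000 := by norm_num
  have hy0 : (0:ℝ) ≤ 21 / 20 := by norm_num
  have h0 : PX e κ (43 / 10) (21 / 20) (33 / 32) := unif_row2 he hκ hb hb5 hy0
    (by constructor <;> norm_num [thq2, nuq, liq2])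
  have h1 : PX e κ (43 / 10) (21 / 20) 1 := pick_row2 he hκ hb hb5 hy0
    (by constructor <;> norm_num [thq2, nuq, liq2]) h0
  exact h1
/-- the values reached -/
theorem px_rows_strong {e κ : ℝ} (he : 200 ≤ e) (hκ : 0 < κ) (hb : bet e κ ≤ 5) :
    PX e κ (3 / 10) (21 / 20) (173 / 64) ∧
    PX e κ 1 (21 / 20) (135 / 64) ∧
    PX e κ (13 / 10) (21 / 20) (109 / 64) ∧
    PX e κ (9 / 5) (21 / 20) (77 / 64) ∧
    PX e κ (23 / 10) (21 / 20) (65 / 64) ∧
    PX e κ (13 / 5) (21 / 20) 1 ∧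
    PX e κ (33 / 10) (21 / 20) 1 ∧
    PX e κ (17 / 5) (21 / 20) 1 ∧
    PX e κ (43 / 10) (21 / 20) 1 :=
  ⟨pr0 he hκ hb, pr1 he hκ hb, pr2 he hκ hb, pr3 he hκ hb, pr4 he hκ hb, pr5 he hκ hb, pr6 he hκ hb, pr7 he hκ hb, pr8 he hκ hb⟩

theorem px_rows {e κ : ℝ} (he : 200 ≤ e) (hκ : 0 < κ) (hb : bet e κ ≤ 5) :
    PX e κ (3 / 10) (21 / 20) (310 / 100) ∧ PX e κ 1 (21 / 20) (252 / 100) ∧
    PX e κ (13 / 10) (21 / 20) (210 / 100) ∧ PX e κ (9 / 5) (21 / 20) (164 / 100) ∧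
    PX e κ (23 / 10) (21 / 20) (139 / 100) ∧ PX e κ (13 / 5) (21 / 20) (130 / 100) ∧
    PX e κ (33 / 10) (21 / 20) (114 / 100) ∧ PX e κ (17 / 5) (21 / 20) (113 / 100) ∧
    PX e κ (43 / 10) (21 / 20) (103 / 100) := by
  obtain ⟨h1, h2, h3, h4, h5, h6, h7, h8, h9⟩ := px_rows_strong he hκ hb
  have he0 : 0 < e := by linarith
  exact ⟨h1.mono he0 hκ (by norm_num), h2.mono he0 hκ (by norm_num), h3.mono he0 hκ (by norm_num),
    h4.mono he0 hκ (by norm_num), h5.mono he0 hκ (by norm_num), h6.mono he0 hκ (by norm_num),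
    h7.mono he0 hκ (by norm_num), h8.mono he0 hκ (by norm_num), h9.mono he0 hκ (by norm_num)⟩

end Pool.Agent.helper31.A2
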