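import Pool.Agent.helper31.A2.NFg
import Pool.Agent.helper31.A2.PXr

/-!
# A2-N5: the first node: the bounds of `M` from the program
-/

namespace Pool.Agent.helper31.A2

open Complex ComplexConjugate Set Filter Topology
open Pool.Agent.helper31.EQ.Y Pool.Agent.helper31.EQ.R
open Pool.Agent.helper12.EQL Pool.Agent.helper12.RP Pool.Agent.helper12.FF Pool.Agent.helper12.RS
open Pool.Agent.helper63.FF
open Pool.Agent.helper31.EQB

variable {e κ : ℝ}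

/-- the bound of a row at a point of `PtG` -/
private theorem nm_row (he0 : 0 < e) (hκ : 0 < κ) {j : ℕ} {ys wa wb o p M : ℝ}
    (R0 : RowR e κ j ys wa wb o p) {x y lo hi r l : ℝ} {z : ℂ} (h : PtG e κ x y lo hi r z)
    (hx : 3 / 10 + (j : ℝ) ≤ x) (hy : y ≤ ys) (hlo : wa * wa < lo) (hhi : hi ≤ wb ^ 2)
    (hwb : 0 ≤ wb) (hr : r ≤ 11 * lo) (hl : 0 < l) (hl2 : l ^ 2 ≤ lo) (hM : o / l + p ≤ M) :
    MB e κ M z := by
  have h1 := h.lo
  have h2 : wa < √(Sz e κ z / e) := by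
    apply Real.lt_sqrt_of_sq_lt
    rw [pow_two]
    exact hlo.trans_le h1
  have h3 : √(Sz e κ z / e) ≤ wb := Real.sqrt_le_iff.2 ⟨hwb, h.hi.trans hhi⟩
  have h4 : rz e κ z ≤ 11 * (Sz e κ z / e) := by linarith [h.r]
  have h5 := R0.h z h.re (om_mono hκ h.om hx) (h.y.trans hy) h2 h3 h4
  refine h5.mono he0 hκ (le_trans ?_ hM)
  have h6 : l ≤ √(Sz e κ z / e) := (Real.le_sqrt' hl).2 (hl2.trans h1)
  have h7 : o / √(Sz e κ z / e) ≤ o / l := div_le_div_of_nonneg_left R0.o0 hl h6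
  linarith

/-- `GB` from the geometry -/
private theorem nm_base (he : 200 ≤ e) (hκ : 0 < κ) (hb : bet e κ ≤ 5) {v : ℝ}
    (hv0 : 0 ≤ v) (hv1 : v ≤ Real.pi) {R kc vs GrS GtS G2S Ma Mb M1 : ℝ}
    (hR : R = √(bet e κ ^ 2 + v ^ 2)) (hk : kc * R = bet e κ) (hv : vs * R = v)
    (P : PF cF2 (√e)⁻¹ (bet e κ) v R kc vs GrS GtS G2S Ma Mb M1)
    (hG : GF e κ v (√e)⁻¹ P.lau GrS GtS G2S) (hMa : 0 ≤ Ma) (hMb : 0 ≤ Mb) (hM1 : 0 ≤ M1) :
    GB e (√e) (√e)⁻¹ (Real.sinh κ) (bet e κ) v R kc vs P := by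
  have he0 : 0 < e := by linarith
  have hs0 : 0 < √e := Real.sqrt_pos.2 he0
  have hss : √e * √e = e := Real.mul_self_sqrt he0.le
  have hK0 : 0 < Real.sinh κ := Real.sinh_pos_iff.2 hκ
  have hβ : 0 < bet e κ := mul_pos he0 hK0
  have hsg := inv_mul_cancel₀ hs0.ne'
  have hA : 0 < bet e κ ^ 2 + v ^ 2 := by positivity
  have hR0 : 0 < R := by rw [hR]; exact Real.sqrt_pos.2 hA
  have hR2 : R ^ 2 = bet e κ ^ 2 + v ^ 2 := by rw [hR]; exact Real.sq_sqrt hA.le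
  have hV : P.V = (bet e κ ^ 2 + v ^ 2) / e := by
    rw [← hR2, P.e_V, P.e_w]
    have : (√e)⁻¹ * R * ((√e)⁻¹ * R) = ((√e)⁻¹ * (√e)⁻¹) * R ^ 2 := by ring
    rw [this, ← mul_inv, hss, inv_mul_eq_div]
  have g1 := hG.gr
  have g2 := hG.gt
  have g3 := hG.g2
  rw [div_inv_eq_mul] at g1 g2 g3
  rw [div_inv_eq_mul] at g2 g3
  rw [← hV] at g1
  exact gb_base he hs0 hss hsg hK0 rfl hb hv0 hv1 hR0 hR2 hk hv hMa hMb hM1 P
    ⟨g1, hG.gt0, g2, hG.g20, g3⟩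

private theorem nm_half {x : ℝ} (hx : 0 ≤ x) : √x ≤ (1 / 2) * (x - 1) + 1 := by
  have h1 := Real.sq_sqrt hx
  nlinarith [sq_nonneg (√x - 1)]

/-- `1 ≤ c r²` for `r = (1/c + 1)/2` -/
private theorem nm_r5 {c r : ℝ} (hc : 0 < c) (hr : r = (1 / 2) * c⁻¹ + (1 / 2)) :
    1 ≤ c * r ^ 2 := by
  have h1 : c * c⁻¹ = 1 := mul_inv_cancel₀ hc.ne'
  have h2 : c * r ^ 2 = (1 / 4) * (c⁻¹ + 2 + c) := by
    rw [hr]
    linear_combination (1 / 4 * c⁻¹ + 1 / 2) * h1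
  have h3 : 0 ≤ (c⁻¹ - 1) ^ 2 * c := by positivity
  have h4 : (c⁻¹ - 1) ^ 2 * c = c⁻¹ - 2 + c := by
    linear_combination (c⁻¹ - 2) * h1
  linarith

/-- the sizes used by `MF_row`, `MF_c` -/
private structure NM (e v R be yc dz E w dzR ER s1 : ℝ) : Prop where
  a1 : √(be ^ 2 + v ^ 2) + dz ≤ R * (dzR + 1)
  a2 : √(be ^ 2 + yc ^ 2) + dz ≤ R * (s1 + dzR + ER)
  a3 : √(be ^ 2 + yc ^ 2) + E ≤ R * (s1 + dzR + ER)
  dz0 : 0 ≤ dz
  E0 : 0 ≤ E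

private theorem nm_all {v : ℝ} {R kc vs GrS GtS G2S Ma Mb M1 : ℝ}
    (hR : R = √(bet e κ ^ 2 + v ^ 2)) (hk : kc * R = bet e κ)
    (P : PF cF2 (√e)⁻¹ (bet e κ) v R kc vs GrS GtS G2S Ma Mb M1)
    (B : GB e (√e) (√e)⁻¹ (Real.sinh κ) (bet e κ) v R kc vs P) :
    NM e v R (bet e κ) P.yc P.dz P.E P.w P.dzR P.ER P.s1 := by
  have hR0 := B.hR
  have hE : P.E = R * P.ER := by
    rw [P.e_E, P.e_ER, ← B.hRwse]
    ring
  have hE0 := gb_E0 B
  have hER : 0 ≤ P.ER := by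
    rw [hE] at hE0
    exact nonneg_of_mul_nonneg_right hE0 hR0
  have hd0 := B.hdzR0
  have hkv0 : 0 ≤ P.kv := by
    rw [P.e_kv]
    have h1 := mul_self_nonneg kc
    have h2 := mul_self_nonneg P.ycR
    linarith
  have h1 : √(bet e κ ^ 2 + P.yc ^ 2) = R * √P.kv := by
    have h2 : bet e κ ^ 2 + P.yc ^ 2 = R ^ 2 * P.kv := by
      have e1 := P.e_kv
      have e2 := P.e_yc
      rw [e1, e2]
      linear_combination (-(kc * R) - bet e κ) * hk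
    rw [h2, Real.sqrt_mul (sq_nonneg R), Real.sqrt_sq hR0.le]
  have h2 : √P.kv ≤ P.s1 := by
    rw [P.e_s1]
    exact nm_half hkv0
  have h3 : R * √P.kv ≤ R * P.s1 := mul_le_mul_of_nonneg_left h2 hR0.le
  have h4 : 0 ≤ R * P.dzR := mul_nonneg hR0.le hd0
  have h5 : 0 ≤ R * P.ER := mul_nonneg hR0.le hER
  refine ⟨?_, ?_, ?_, B.hdz0, hE0⟩
  · rw [← hR, B.hdzR]
    exact le_of_eq (by ring)
  · rw [h1, B.hdzR]
    calc R * √P.kv + P.dzR * R ≤ R * P.s1 + R * P.dzR + R * P.ER := by linarith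
      _ = _ := by ring
  · rw [h1, hE]
    calc R * √P.kv + R * P.ER ≤ R * P.s1 + R * P.dzR + R * P.ER := by linarith
      _ = _ := by ring

/-- an upper end -/
private theorem nm_hi {s R w a q wb : ℝ} (hs0 : 0 < s) (hss : s * s = e)
    (hw : w * s = R) (ha0 : 0 ≤ a) (ha : a ≤ R * q) (hq : w * q ≤ wb) :
    a ^ 2 / e ≤ wb ^ 2 := by
  have he0 : 0 < e := by rw [← hss]; positivity
  rw [div_le_iff₀ he0]
  have h1 : a ≤ wb * s := by
    calc a ≤ R * q := ha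
      _ = (w * q) * s := by rw [← hw]; ring
      _ ≤ wb * s := mul_le_mul_of_nonneg_right hq hs0.le
  calc a ^ 2 ≤ (wb * s) ^ 2 := pow_le_pow_left₀ ha0 h1 2
    _ = wb ^ 2 * e := by rw [← hss]; ring

/-- rows: `w' ≥ w m √(1011/1024)`, resp. `w m √cc` -/
theorem MF_row (he : 200 ≤ e) (he5 : e ≤ 500) (hκ : 0 < κ) (hb : bet e κ ≤ 5) {v : ℝ}
    (hv0 : 0 ≤ v) (hv1 : v ≤ Real.pi) {se be R kc vs GrS GtS G2S Ma Mb M1 : ℝ}
    (g : GeoF e κ v se be R kc vs) (P : PF cF2 se be v R kc vs GrS GtS G2S Ma Mb M1)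
    (hG : GF e κ v se P.lau GrS GtS G2S) {r : CR}
    (Q : PFr r P) (R0 : RowR e κ 0 r.ys r.wa r.wb r.o0 r.p0)
    (R1 : RowR e κ 1 r.ys r.wa r.wb r.o1 r.p1) :
    MF e P.x1 P.d P.E (R ^ 2 * P.m2) P.yc P.dz v κ Ma Mb M1 := by
  have _ := he5
  obtain ⟨hse, hbe, hR, hk, hv⟩ := g
  subst hse
  subst hbe
  have he0 : 0 < e := by linarith
  have B := nm_base he hκ hb hv0 hv1 hR hk hv P hG Q.p_Ma0.le Q.p_Mb0.le Q.p_M10.le
  have N := nm_all hR hk P B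
  have hw0 := B.hw0
  have hm0 := P.p_m0
  have hV0 := B.hVp
  have hm2 := gb_m20 P
  have hc20 := gb_c20 P
  have hc21 := (gb_c2 B).2
  have hwR : P.w * √e = R := by
    rw [P.e_w]
    have h1 : (√e)⁻¹ * √e = 1 := B.hsg
    linear_combination R * h1
  have hcc0 : 0 < Q.cc := by rw [Q.e_cc]; positivity
  have hcc1 : Q.cc ≤ 1011 / 1024 := by rw [Q.e_cc]; linarith
  have hVm : 0 < P.V * P.m2 := mul_pos hV0 hm2
  have hWm : P.V * P.m2 = (P.w * P.m) ^ 2 := by rw [P.e_V, P.e_m2]; ring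
  have hwm : 0 < P.w * P.m := mul_pos hw0 hm0
  have hiw : Q.iw = (P.w * P.m)⁻¹ := by rw [Q.e_iw, P.e_im, mul_inv]
  -- `y`
  have hyE : P.yc + P.E < r.ys := by
    have h1 := Q.p_ys
    rw [P.e_yE] at h1
    linarith
  have hE0 := N.E0
  have hdz0 := N.dz0
  have hmax : max v P.yc ≤ r.ys := by
    have h1 := Q.p_ya0
    exact max_le (by linarith) (by linarith)
  -- positions
  have hx1 : 3 / 10 ≤ P.x1 := by
    have h1 := P.p_xa
    have h2 : cF2.xa = 314573 / 1048576 := rfl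
    rw [h2] at h1
    linarith
  have hxd := gb_xd P
  -- upper ends
  have hwb1 : P.w * (P.dzR + 1) ≤ r.wb := by have := Q.p_wb1; linarith
  have hwb2 : P.w * (P.s1 + P.dzR + P.ER) ≤ r.wb := by have := Q.p_wb; linarith
  have hwb0 : 0 ≤ r.wb := by have := Q.p_wb0; linarith
  have hhi1 : (√(bet e κ ^ 2 + (max v P.yc) ^ 2) + P.dz) ^ 2 / e ≤ r.wb ^ 2 := by
    rcases le_total v P.yc with h | h
    · rw [max_eq_right h]
      exact nm_hi B.hs0 B.hss hwR (by positivity) N.a2 hwb2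
    · rw [max_eq_left h]
      exact nm_hi B.hs0 B.hss hwR (by positivity) N.a1 hwb1
  have hhi2 : (√(bet e κ ^ 2 + P.yc ^ 2) + P.E) ^ 2 / e ≤ r.wb ^ 2 :=
    nm_hi B.hs0 B.hss hwR (by positivity) N.a3 hwb2
  -- lower ends
  have hpwa := Q.p_wa
  have hlo1 : r.wa * r.wa < R ^ 2 * P.m2 / e * (1011 / 1024) := by
    rw [gb_Sle B]
    have h1 := mul_le_mul_of_nonneg_left hcc1 hVm.le
    linarith
  have hlo2 : r.wa * r.wa <
      R ^ 2 * P.m2 / e * (1011 / 1024 - 2 * P.E / √(R ^ 2 * P.m2)) * (1011 / 1024) := by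
    rw [gb_lo B]
    have h1 : P.V * P.m2 * Q.cc = P.V * P.m2 * P.c2 * (1011 / 1024) := by rw [Q.e_cc]; ring
    linarith
  have hl1 : 0 < P.w * P.m * (65536 / 65957) := by positivity
  have hl1s : (P.w * P.m * (65536 / 65957)) ^ 2 ≤ R ^ 2 * P.m2 / e * (1011 / 1024) := by
    rw [gb_Sle B, hWm, mul_pow]
    exact mul_le_mul_of_nonneg_left (by norm_num) (sq_nonneg _)
  have hr5 := nm_r5 hcc0 Q.e_r5
  have hr50 : 0 < Q.r5 := by rw [Q.e_r5]; positivity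
  have hl2 : 0 < P.w * P.m / Q.r5 := by positivity
  have hl2s : (P.w * P.m / Q.r5) ^ 2 ≤
      R ^ 2 * P.m2 / e * (1011 / 1024 - 2 * P.E / √(R ^ 2 * P.m2)) * (1011 / 1024) := by
    rw [gb_lo B, div_pow, div_le_iff₀ (by positivity), ← hWm]
    have h1 : P.V * P.m2 * P.c2 * (1011 / 1024) * Q.r5 ^ 2 = P.V * P.m2 * (Q.cc * Q.r5 ^ 2) := by
      rw [Q.e_cc]; ring
    rw [h1]
    calc P.V * P.m2 = P.V * P.m2 * 1 := by ring
      _ ≤ _ := mul_le_mul_of_nonneg_left hr5 hVm.le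
  refine ⟨Q.p_Ma0.le, Q.p_Mb0.le, Q.p_M10.le, fun z hz => ?_, fun z hz => ?_, fun z hz => ?_⟩
  · refine nm_row he0 hκ R0 hz (by push_cast; linarith) hmax hlo1 hhi1 hwb0 le_rfl hl1 hl1s ?_
    refine le_of_eq (Eq.trans ?_ Q.e_Ma.symm)
    rw [hiw]
    field_simp
  · refine nm_row he0 hκ R1 hz (by push_cast; linarith) hmax hlo1 hhi1 hwb0 le_rfl hl1 hl1s ?_
    refine le_of_eq (Eq.trans ?_ Q.e_Mb.symm)
    rw [hiw]
    field_simp
  · refine nm_row he0 hκ R0 hz (by push_cast; linarith) hyE.le hlo2 hhi2 hwb0 le_rfl hl2 hl2s ?_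
    refine le_of_eq (Eq.trans ?_ Q.e_M1.symm)
    rw [hiw]
    field_simp

/-- constants: `px_rows_strong` -/
theorem MF_c (he : 200 ≤ e) (he5 : e ≤ 500) (hκ : 0 < κ) (hb : bet e κ ≤ 5) {v : ℝ}
    (hv0 : 0 ≤ v) (hv1 : v ≤ 33 / 32) {se be R kc vs GrS GtS G2S Ma Mb M1 : ℝ}
    (g : GeoF e κ v se be R kc vs) (P : PF cF2 se be v R kc vs GrS GtS G2S Ma Mb M1)
    (hG : GF e κ v se P.lau GrS GtS G2S)
    (Q : PFc mF2 P) : MF e P.x1 P.d P.E (R ^ 2 * P.m2) P.yc P.dz v κ Ma Mb M1 := by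
  have _ := he5
  obtain ⟨hse, hbe, hR, hk, hv⟩ := g
  subst hse
  subst hbe
  have hMa : Ma = 173 / 64 := Q.e_Ma
  have hMb : Mb = 109 / 64 := Q.e_Mb
  have hM1 : M1 = 135 / 64 := Q.e_M1
  have hpi := Real.pi_gt_three
  have B := nm_base he hκ hb hv0 (by linarith) hR hk hv P hG (by rw [hMa]; norm_num)
    (by rw [hMb]; norm_num) (by rw [hM1]; norm_num)
  have hE0 := gb_E0 B
  have hys : mF2.ys = 275251 / 262144 := rfl
  have hyE : P.yc + P.E ≤ 21 / 20 := by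
    have h1 := Q.p_ys
    rw [P.e_yE, hys] at h1
    linarith
  have hmax : max v P.yc ≤ 21 / 20 := by
    have h1 := Q.p_ya0
    rw [hys] at h1
    exact max_le (by linarith) (by linarith)
  have hx1 : 3 / 10 ≤ P.x1 := by
    have h1 := P.p_xa
    have h2 : cF2.xa = 314573 / 1048576 := rfl
    rw [h2] at h1
    linarith
  have hxd := gb_xd P
  obtain ⟨h1, h2, h3, -⟩ := px_rows_strong he hκ hb
  refine ⟨by rw [hMa]; norm_num, by rw [hMb]; norm_num, by rw [hM1]; norm_num,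
    fun z hz => ?_, fun z hz => ?_, fun z hz => ?_⟩
  · rw [hMa]
    exact h1 z hz.re (om_mono hκ hz.om hx1) (hz.y.trans hmax)
  · rw [hMb]
    exact h3 z hz.re (om_mono hκ hz.om (by linarith)) (hz.y.trans hmax)
  · rw [hM1]
    exact h2 z hz.re (om_mono hκ hz.om (by linarith)) (hz.y.trans hyE)

end Pool.Agent.helper31.A2
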