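import Pool.Agent.helper31.A2.NFg

/-!
# A2-N4, part H: the first node for `v ≤ 33/32`: `Gr = lau`
-/

namespace Pool.Agent.helper31.A2

open Complex ComplexConjugate Set Filter Topology
open Pool.Agent.helper31.EQ.Y Pool.Agent.helper31.EQ.R
open Pool.Agent.helper12.EQL Pool.Agent.helper12.RP Pool.Agent.helper12.FF Pool.Agent.helper12.RS
open Pool.Agent.helper63.FF
open Pool.Agent.helper31.EQB

variable {e κ : ℝ}

/-- `exp (1/2 log x) ^ 2 = x` -/
private theorem gh_sq {x : ℝ} (hx : 0 < x) : Real.exp ((1 / 2) * Real.log x) ^ 2 = x := by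
  rw [← Real.exp_nat_mul]
  have : ((2 : ℕ) : ℝ) * (1 / 2 * Real.log x) = Real.log x := by push_cast; ring
  rw [this, Real.exp_log hx]

/-- `log 2 ≤ b/2 + log (exp(-b) + 1)` -/
private theorem gh_lau (b : ℝ) : Real.log 2 ≤ (1 / 2) * b + Real.log (Real.exp (-b) + 1) := by
  have h1 : (1 / 2) * b = Real.log (Real.exp ((1 / 2) * b)) := (Real.log_exp _).symm
  have h2 : (2 : ℝ) ≤ Real.exp ((1 / 2) * b) * (Real.exp (-b) + 1) := by
    have h3 := Real.one_le_cosh ((1 / 2) * b)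
    rw [Real.cosh_eq] at h3
    have h4 : Real.exp ((1 / 2) * b) * Real.exp (-b) = Real.exp (-((1 / 2) * b)) := by
      rw [← Real.exp_add]; congr 1; ring
    rw [mul_add, h4]
    linarith
  have h5 : 0 < Real.exp (-b) + 1 := by positivity
  have h6 : (1 / 2) * b + Real.log (Real.exp (-b) + 1) =
      Real.log (Real.exp ((1 / 2) * b) * (Real.exp (-b) + 1)) := by
    rw [Real.log_mul (Real.exp_pos _).ne' h5.ne', Real.log_exp]
  rw [h6]
  exact Real.log_le_log (by norm_num) h2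

/-- `Gr = lau`, `|f| ≤ 1` for `v ≤ 33/32 ≤ π/3` -/
theorem GF_h (he : 200 ≤ e) (he5 : e ≤ 500) (hκ : 0 < κ) (hb : bet e κ ≤ 5) {v : ℝ}
    (hv0 : 0 ≤ v) (hv1 : v ≤ 33 / 32) {be R kc vs GrS GtS G2S Ma Mb M1 : ℝ}
    (g : GeoF e κ v (√e)⁻¹ be R kc vs)
    (P : PF cF2 (√e)⁻¹ be v R kc vs GrS GtS G2S Ma Mb M1) (Q : PFh P) :
    GF e κ v (√e)⁻¹ P.lau GrS GtS G2S := by
  have _ := he5
  have _ := g
  have he0 : 0 < e := by linarith
  have hK0 : 0 < Real.sinh κ := Real.sinh_pos_iff.2 hκ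
  have hβ : 0 < bet e κ := mul_pos he0 hK0
  have hs : 0 < √e := Real.sqrt_pos.2 he0
  have hlau : Real.log 2 ≤ P.lau := by
    rw [P.e_lau]
    exact gh_lau be
  have hl2 := Real.log_two_gt_d9
  have hG := Q.e_GrS
  have hG1 := Q.e_GtS
  have hG2 := Q.e_G2S
  generalize P.lau = lau at *
  clear Q P g
  have hlau0 : 0 < lau := by linarith
  have hGe : GrS / (√e)⁻¹ = lau := by
    rw [hG]
    field_simp
  have hGte : GtS / (√e)⁻¹ = Real.exp ((1 / 2) * Real.log (lau * lau + v * v)) := by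
    rw [hG1]
    field_simp
  have hG2e : G2S / (√e)⁻¹ = Real.exp ((1 / 2) * Real.log (lau * lau + (1 / 4) * (v * v))) := by
    rw [hG2]
    field_simp
  obtain ⟨s1, s2, s3, s4, s5⟩ := s0_pos he0 hκ hv0
  have hVv : 0 ≤ Vv e κ v / e := by unfold Vv; positivity
  have hπ := Real.pi_gt_d2
  have hy : |yz e κ (shf κ (t00 e κ v))| ≤ Real.pi / 3 := by
    rw [s4, abs_of_nonneg (by positivity)]
    refine (div_le_self hv0 (by linarith)).trans ?_
    norm_num at hπ
    linarith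
  have f1 := f_one he0 hκ s1 hy
  have f2 := f_one he0 hκ (shf_re hκ s1.le) ((yz_shf_le he0 hκ s1).trans hy)
  refine ⟨?_, ?_, ?_, ?_, ?_, ?_, ?_⟩
  · rw [hGe, sub_self]; exact Real.log_nonpos (norm_nonneg _) f1
  · rw [hGe, sub_self]; exact Real.log_nonpos (norm_nonneg _) f2
  · rw [hGe]
    have h1 : bet e κ ^ 2 ≤ 5 ^ 2 := pow_le_pow_left₀ hβ.le hb 2
    have h2 : v ^ 2 ≤ (33 / 32) ^ 2 := pow_le_pow_left₀ hv0 hv1 2
    have h3 : (bet e κ ^ 2 + v ^ 2) / e ≤ 27 / 200 := by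
      rw [div_le_div_iff₀ he0 (by norm_num)]
      nlinarith
    linarith
  · rw [hG1]; positivity
  · rw [hGe, hGte, gh_sq (by positivity)]
    exact le_of_eq (by ring)
  · rw [hG2]; positivity
  · rw [hGe, hG2e, gh_sq (by positivity)]
    exact le_of_eq (by ring)

end Pool.Agent.helper31.A2
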