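import Pool.Agent.helper31.A2.NFrG
import Pool.Agent.helper31.A2.NFrH

/-!
# A2-N4: the first node: the bounds of `log f` from the program (`GF_g`, `GF_h`)
-/
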