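import Pool.Agent.helper31.A2.NLg

/-!
# A2-N2: the link from its program: row case and constant case
-/

namespace Pool.Agent.helper31.A2

open Complex ComplexConjugate Set Filter Topology
open Pool.Agent.helper31.EQ.Y Pool.Agent.helper31.EQ.R
open Pool.Agent.helper12.EQL Pool.Agent.helper12.RP Pool.Agent.helper12.FF Pool.Agent.helper12.RS
open Pool.Agent.helper63.FF
open Pool.Agent.helper31.EQB

variable {e κ : ℝ}

private theorem cG_pos {n : ℕ} (hn : n < 5) :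
    0 ≤ (cG n).L1 ∧ (cG n).L1 ≤ (cG n).RW ∧ 0 < (cG n).a := by
  interval_cases n <;> norm_num [cG]

/-- the values `w`, `W` -/
private theorem PL_w {c : CL} {se be s k y2 wMo Moie yb ielf Mnie EM EMs yb1 : ℝ}
    (P : PL c se be s k y2 wMo Moie yb ielf Mnie EM EMs yb1) (hse : 0 < se) (hs : 0 < s) :
    0 < P.w ∧ 0 < P.ie ∧ 0 < P.W ∧ 0 < P.wse := by
  have hw : 0 < P.w := by rw [P.e_w]; positivity
  have hie : 0 < P.ie := by rw [P.e_ie]; positivity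
  have hW : 0 < P.W := by rw [P.e_W]; positivity
  have hwse : 0 < P.wse := by rw [P.e_wse]; positivity
  exact ⟨hw, hie, hW, hwse⟩

/-- `0 ≤ Q` -/
private theorem PL_Q0 {c : CL} (hL0 : 0 ≤ c.L1) (hLR : c.L1 ≤ c.RW) (ha : 0 < c.a)
    {se be s k y2 wMo Moie yb ielf Mnie EM EMs yb1 : ℝ}
    (P : PL c se be s k y2 wMo Moie yb ielf Mnie EM EMs yb1) (hse : 0 < se) (hbe : 0 ≤ be)
    (hs : 0 < s) (hk0 : 0 ≤ k) (hk1 : k ≤ 1) (hy2 : 0 ≤ y2) (hwMo : 0 ≤ wMo) (hMoie : 0 ≤ Moie)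
    (hielf : 0 ≤ ielf) : 0 ≤ P.Q := by
  obtain ⟨hw, hie, hW, hwse⟩ := PL_w P hse hs
  have hRW : 0 ≤ c.RW := hL0.trans hLR
  have hWie : P.Wie = P.wse * P.wse := by
    rw [P.e_Wie, P.e_W, P.e_ie, P.e_wse]; ring
  have hR2 : P.R2 = (c.RW * P.wse) ^ 2 := by rw [P.e_R2, hWie]; ring
  have hR20 : 0 ≤ P.R2 := by rw [hR2]; positivity
  have hV1 : 0 < P.V1 := by rw [P.e_V1]; positivity
  have hkw : k * P.wse ≤ P.wse := by nlinarith
  have hD2 : 0 ≤ P.D2 := by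
    rw [P.e_D2, P.e_V1, hR2]
    have : c.L1 * (k * P.wse) ≤ c.RW * P.wse := mul_le_mul hLR hkw (by positivity) hRW
    nlinarith [sq_nonneg (c.RW * P.wse - 1)]
  have hDP : 0 < P.DP := by rw [P.e_DP]; positivity
  have hXS : 0 < P.XS := by rw [P.e_XS]; positivity
  have hX : 0 < P.X := by rw [P.e_X]; positivity
  have hX1 := P.p_X1
  have hiX : 0 < P.iX := by rw [P.e_iX]; positivity
  have hG : 0 ≤ P.G := by
    rw [P.e_G]
    obtain ⟨q, hq⟩ : ∃ q, q = (1 / 4) * y2 := ⟨_, rfl⟩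
    have hq0 : 0 ≤ q := by rw [hq]; positivity
    have hy : y2 = 4 * q := by rw [hq]; ring
    rw [hy]
    have h1 : 0 ≤ (q - 13 / 5) ^ 2 * (q ^ 4 + 2 * (13 / 5) * q ^ 3 + 3 * (13 / 5) ^ 2 * q ^ 2 +
        4 * (13 / 5) ^ 3 * q + 5 * (13 / 5) ^ 4) := by positivity
    have h2 : 0 ≤ (q - 5 / 2) ^ 2 := sq_nonneg _
    nlinarith
  have hls : 0 ≤ P.ls := by rw [P.e_ls]; positivity
  have hn1 : 0 ≤ P.n1 := by
    rw [P.e_n1]
    have h1 : 0 ≤ P.ls + (314573 / 524288) * (P.W * P.V1) := by positivity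
    have h2 : 1 ≤ Real.exp (P.ls + (314573 / 524288) * (P.W * P.V1)) := Real.one_le_exp h1
    have h3 : 0 ≤ c.RW * P.W := by positivity
    linarith
  have hlspS : 0 ≤ P.lspS := by rw [P.e_lspS]; positivity
  have hlsp : 0 ≤ P.lsp := by rw [P.e_lsp]; positivity
  have hrl : 0 ≤ P.rl := by rw [P.e_rl]; positivity
  have hq2 : 0 < P.q2 := by
    have h := P.p_q20
    have : 0 ≤ 10 * ((3 * P.ie + 2 * Moie) * P.W) := by positivity
    linarith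
  have hu0 : 0 < P.u := by rw [P.e_u]; exact Real.exp_pos _
  have hu1 : P.u ≤ 1 := by
    rw [P.e_u, Real.exp_le_one_iff]
    have : 0 ≤ P.q2 * P.rl := by positivity
    linarith
  have huX : 0 ≤ P.uX := by rw [P.e_uX]; positivity
  have huX1 : 0 < 1 - P.uX := by
    rw [P.e_uX]
    nlinarith
  have hielfp : 0 ≤ P.ielfp := by rw [P.e_ielfp]; positivity
  have hzbS : 0 < P.zbS := by rw [P.e_zbS]; exact Real.exp_pos _
  have hzb : 0 < P.zb := by rw [P.e_zb]; positivity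
  have hfac : 0 < P.fac := by rw [P.e_fac]; positivity
  have hk2 : 0 ≤ P.k2 := by rw [P.e_k2]; positivity
  rw [P.e_Q]
  positivity

private theorem sqrt_e {e : ℝ} (he : 0 < e) : (√e)⁻¹ * (√e)⁻¹ = 1 / e := by
  rw [← mul_inv, Real.mul_self_sqrt he.le, one_div]

private theorem bet_pos (he : 0 < e) (hκ : 0 < κ) : 0 < bet e κ :=
  mul_pos he (Real.sinh_pos_iff.2 hκ)

private theorem Sz_pos3 (he : 0 < e) (hκ : 0 < κ) (s : ℂ) : 0 < Sz e κ s := by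
  have hb := bet_pos he hκ
  have : Sz e κ s = bet e κ ^ 2 + yz e κ s ^ 2 := rfl
  rw [this]
  positivity

private theorem GeoL_v (he : 0 < e) (hκ : 0 < κ) {τ : ℂ} {s k y2 js : ℝ}
    (V : PLv (bet e κ) |yz e κ (shf κ τ)| s k y2 js) :
    GeoL e κ τ (√e)⁻¹ (bet e κ) s k y2 ∧ js = s⁻¹ := by
  have hy2 : y2 = yz e κ (shf κ τ) ^ 2 := by rw [V.e_y2, ← pow_two, sq_abs]
  have hS : bet e κ * bet e κ + y2 = Sz e κ (shf κ τ) := by rw [hy2]; unfold Sz; ring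
  have hS0 : 0 < Sz e κ (shf κ τ) := Sz_pos3 he hκ _
  have hs : s = √(Sz e κ (shf κ τ)) := by
    rw [V.e_s, V.e_L, hS, Real.sqrt_eq_rpow, Real.rpow_def_of_pos hS0, mul_comm]
  have hs0 : 0 < s := by rw [hs]; exact Real.sqrt_pos.2 hS0
  have hjs : js = s⁻¹ := V.e_js.trans ((Real.exp_neg _).trans (congrArg _ V.e_s.symm))
  refine ⟨⟨rfl, rfl, hs, ?_, hy2⟩, hjs⟩
  rw [V.e_k, hjs, mul_assoc, inv_mul_cancel₀ hs0.ne', mul_one]

private theorem GeoL_t (he : 0 < e) (hκ : 0 < κ) {τ : ℂ} {be y2 : ℝ}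
    (V : PLt be √(Sz e κ (shf κ τ)) (bet e κ / √(Sz e κ (shf κ τ))) y2) :
    GeoL e κ τ (√e)⁻¹ be √(Sz e κ (shf κ τ)) (bet e κ / √(Sz e κ (shf κ τ))) y2 := by
  have hS0 : 0 < Sz e κ (shf κ τ) := Sz_pos3 he hκ _
  have hs : 0 < √(Sz e κ (shf κ τ)) := Real.sqrt_pos.2 hS0
  have hbe : be = bet e κ := by rw [V.e_be, div_mul_cancel₀ _ hs.ne']
  refine ⟨rfl, hbe, rfl, V.e_be.symm, ?_⟩
  rw [V.e_y2]
  have h1 : √(Sz e κ (shf κ τ)) * √(Sz e κ (shf κ τ)) = bet e κ ^ 2 + yz e κ (shf κ τ) ^ 2 :=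
    Real.mul_self_sqrt hS0.le
  have h2 : bet e κ / √(Sz e κ (shf κ τ)) * √(Sz e κ (shf κ τ)) = bet e κ :=
    div_mul_cancel₀ _ hs.ne'
  calc √(Sz e κ (shf κ τ)) * √(Sz e κ (shf κ τ)) *
        ((-(bet e κ / √(Sz e κ (shf κ τ)) * (bet e κ / √(Sz e κ (shf κ τ))))) + 1)
      = √(Sz e κ (shf κ τ)) * √(Sz e κ (shf κ τ)) -
        (bet e κ / √(Sz e κ (shf κ τ)) * √(Sz e κ (shf κ τ))) *
        (bet e κ / √(Sz e κ (shf κ τ)) * √(Sz e κ (shf κ τ))) := by ring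
    _ = yz e κ (shf κ τ) ^ 2 := by rw [h1, h2]; ring

/-- numbers of the geometry and of the program -/
private theorem geo_facts (he : 200 ≤ e) (hκ : 0 < κ) {n : ℕ} (hn : n < 5) {τ : ℂ}
    {be s k y2 wMo Moie yb ielf Mnie EM EMs yb1 : ℝ}
    (g : GeoL e κ τ (√e)⁻¹ be s k y2)
    (P : PL (cG n) (√e)⁻¹ be s k y2 wMo Moie yb ielf Mnie EM EMs yb1)
    (hwMo : 0 ≤ wMo) (hMoie : 0 ≤ Moie) (hielf : 0 ≤ ielf) :
    0 < s ∧ 0 < P.w ∧ 0 < P.W ∧ P.W = P.w ^ 2 ∧ P.W = Sz e κ (shf κ τ) / e ∧ 0 ≤ P.Q ∧ 0 ≤ P.E ∧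
      0 ≤ P.Qw ∧ P.E / √(Sz e κ (shf κ τ)) = P.Qw ∧ P.ie = 1 / e ∧
      (√(Sz e κ (shf κ τ)) + P.E) ^ 2 / e = (P.w * (P.Qw + 1)) ^ 2 := by
  have he0 : 0 < e := by linarith
  have hse : 0 < (√e)⁻¹ := inv_pos.2 (Real.sqrt_pos.2 he0)
  have hS0 : 0 < Sz e κ (shf κ τ) := Sz_pos3 he0 hκ _
  have hs : 0 < s := by rw [g.hs]; exact Real.sqrt_pos.2 hS0
  have hbe : 0 < be := by rw [g.hbe]; exact bet_pos he0 hκ
  have hk0 : 0 ≤ k := by
    have := g.hk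
    by_contra h
    push Not at h
    nlinarith
  have hss : s * s = Sz e κ (shf κ τ) := by rw [g.hs]; exact Real.mul_self_sqrt hS0.le
  have hk1 : k ≤ 1 := by
    have h1 := g.hk
    have h2 : be ≤ s := by
      have h3 : be * be ≤ s * s := by
        rw [hss, g.hbe]
        unfold Sz
        nlinarith [sq_nonneg (yz e κ (shf κ τ))]
      nlinarith
    by_contra h
    push Not at h
    nlinarith
  have hy2 : 0 ≤ y2 := by rw [g.hy2]; positivity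
  obtain ⟨hw, hie, hW, hwse⟩ := PL_w P hse hs
  obtain ⟨c1, c2, c3⟩ := cG_pos hn
  have hQ := PL_Q0 c1 c2 c3 P hse hbe.le hs hk0 hk1 hy2 hwMo hMoie hielf
  have hE : 0 ≤ P.E := by rw [P.e_E]; positivity
  have hQw : 0 ≤ P.Qw := by rw [P.e_Qw]; positivity
  have hEs : P.E = P.Qw * s := by rw [P.e_E, P.e_Qw, P.e_W, P.e_wse, P.e_w]; ring
  have hWw : P.W = P.w ^ 2 := by rw [P.e_W]; ring
  have hWS : P.W = Sz e κ (shf κ τ) / e := by
    rw [P.e_W, P.e_w, ← hss]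
    calc (√e)⁻¹ * s * ((√e)⁻¹ * s) = (√e)⁻¹ * (√e)⁻¹ * (s * s) := by ring
      _ = s * s / e := by rw [sqrt_e he0]; ring
  refine ⟨hs, hw, hW, hWw, hWS, hQ, hE, hQw, ?_, ?_, ?_⟩
  · rw [← g.hs, hEs, mul_div_cancel_right₀ _ hs.ne']
  · rw [P.e_ie, sqrt_e he0]
  · rw [← g.hs, hEs]
    calc (s + P.Qw * s) ^ 2 / e = s * s / e * (P.Qw + 1) ^ 2 := by ring
      _ = P.W * (P.Qw + 1) ^ 2 := by rw [hWS, hss]
      _ = _ := by rw [hWw]; ring

private theorem num_e (he : 200 ≤ e) : (79 / 80 : ℝ) ≤ 1 - 500 / e ^ 2 := by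
  have : 500 / e ^ 2 ≤ 1 / 80 := by
    rw [div_le_div_iff₀ (by positivity) (by norm_num)]
    nlinarith
  linarith

private theorem xG_fam {n : ℕ} (hn : n < 6) : (3 / 10 : ℝ) + famG n ≤ xG n + 1 := by
  interval_cases n <;> norm_num [xG, famG]

private theorem row_le {o p w c X : ℝ} (ho : 0 ≤ o) (hw : 0 < w) (hc : 0 < c)
    (hX : w ^ 2 ≤ c ^ 2 * X) : o / √X + p ≤ (c * o) / w + p := by
  have h1 : w / c ≤ √X := by
    apply Real.le_sqrt_of_sq_le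
    rw [div_pow, div_le_iff₀ (by positivity)]
    linarith
  have h2 : o / √X ≤ o / (w / c) := div_le_div_of_nonneg_left ho (by positivity) h1
  have h3 : o / (w / c) = (c * o) / w := by
    field_simp
  linarith

/-- a row applied at a point -/
private theorem row_pt (he : 0 < e) (hκ : 0 < κ) {j : ℕ} {ys wa wb o p : ℝ}
    (R : RowR e κ j ys wa wb o p) {z : ℂ} {w c L : ℝ} (hw : 0 < w) (hc : 0 < c)
    (h0 : 0 < z.re) (hom : om κ (3 / 10 + j) z) (hy : |yz e κ z| ≤ ys)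
    (hL : L ≤ Sz e κ z / e) (hwa : wa ^ 2 < L) (hwb : Sz e κ z / e ≤ wb ^ 2) (hwb0 : 0 ≤ wb)
    (hr : rz e κ z ≤ 11 * L) (hcL : w ^ 2 ≤ c ^ 2 * L) : MB e κ ((c * o) / w + p) z := by
  have h1 : wa < √(Sz e κ z / e) := by
    apply Real.lt_sqrt_of_sq_lt
    exact hwa.trans_le hL
  have h2 : √(Sz e κ z / e) ≤ wb := by
    rw [Real.sqrt_le_left hwb0]
    exact hwb
  refine (R.h z h0 hom hy h1 h2 (hr.trans (by linarith))).mono he hκ (row_le R.o0 hw hc ?_)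
  have : c ^ 2 * L ≤ c ^ 2 * (Sz e κ z / e) := mul_le_mul_of_nonneg_left hL (by positivity)
  linarith

/-- `y = |yz (shf τ)| ≥ 33/32`.  `Mo := o0/(w √(1011/1024)) + p0` (`√(1011/1024)⁻¹ ≤ 65957/65536`), `M1 := o1/(w √cc) + p1` (`√cc⁻¹ ≤ r5`);
`w ≥ 33/32/√500 ≥ 46/1000`, `lf_w`; positions: `xG n + 1 ≥ 3/10 + famG n`, `xG (n+1) + 1 ≥ 3/10 + famG (n+1)`. -/
theorem link_row (he : 200 ≤ e) (he5 : e ≤ 500) (hκ : 0 < κ) (hb : bet e κ ≤ 5) {n : ℕ}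
    (hn : n < 5) {τ : ℂ} (T : St e κ (xG n) (LamG n) (ynG n) τ)
    (hy : 33 / 32 ≤ |yz e κ (shf κ τ)|)
    {s k y2 js wMo Moie yb ielf Mnie EM EMs yb1 : ℝ}
    (V : PLv (bet e κ) |yz e κ (shf κ τ)| s k y2 js)
    (P : PL (cG n) (√e)⁻¹ (bet e κ) s k y2 wMo Moie yb ielf Mnie EM EMs yb1) {r : CR}
    (Q : PLr r |yz e κ (shf κ τ)| js P)
    (R0 : RowR e κ (famG n) r.ys r.wa r.wb r.o0 r.p0)
    (R1 : RowR e κ (famG (n + 1)) r.ys r.wa r.wb r.o1 r.p1) :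
    LinkOK e κ (aG n) (xG (n + 1)) (LamG (n + 1)) (ynG (n + 1)) (aG (n + 1)) τ := by
  have he0 : 0 < e := by linarith
  have hse : 0 < (√e)⁻¹ := inv_pos.2 (Real.sqrt_pos.2 he0)
  obtain ⟨g, hjs⟩ := GeoL_v he0 hκ V
  have hS0 : 0 < Sz e κ (shf κ τ) := Sz_pos3 he0 hκ _
  have hs0 : 0 < s := by rw [g.hs]; exact Real.sqrt_pos.2 hS0
  have hjs0 : 0 < js := by rw [hjs]; positivity
  have hwMo := Q.p_Mo0
  have hm1 := Q.p_m10
  obtain ⟨-, hie, -, -⟩ := PL_w P hse hs0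
  have hMoie : 0 ≤ Moie := by rw [Q.e_Moie]; positivity
  have hielf : 0 ≤ ielf := by rw [Q.e_ielf]; positivity
  obtain ⟨hs, hw, hW, hWw, hWS, hQ, hE, hQw, hEQw, hiee, hwb2⟩ :=
    geo_facts he hκ hn g P hwMo.le hMoie hielf
  have hc2 := P.p_c20
  have hc21 : P.c2 ≤ 1 := by rw [P.e_c2]; linarith
  have hcc0 : 0 < Q.cc := by rw [Q.e_cc]; positivity
  have hcc1 : Q.cc ≤ 1011 / 1024 := by rw [Q.e_cc]; linarith
  have hr5 : 0 < Q.r5 := by rw [Q.e_r5]; positivity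
  have hr52 : 1 ≤ Q.r5 ^ 2 * Q.cc := by
    rw [Q.e_r5]
    have h1 : ((1 / 2) * Q.cc⁻¹ + 1 / 2) ^ 2 * Q.cc = (1 + Q.cc) ^ 2 / (4 * Q.cc) := by
      field_simp
      ring
    rw [h1, le_div_iff₀ (by positivity)]
    nlinarith [sq_nonneg (1 - Q.cc)]
  have hya := Q.p_ya0
  have hwa0 := R0.wa0
  have hwa := Q.p_wa
  have hWcc : r.wa ^ 2 < P.W * Q.cc := by nlinarith
  have hwb0 := Q.p_wb0
  have hwb := Q.p_wb
  have hwbp : 0 ≤ r.wb := by linarith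
  have hM : ML e κ (xG n) (xG n + 1 - xG (n + 1)) P.E (Sz e κ (shf κ τ)) (wMo / P.w)
      (Q.m1 / P.w) |yz e κ (shf κ τ)| := by
    refine ⟨by positivity, by positivity, ?_, ?_⟩
    · intro z hz
      have h := row_pt (w := P.w) (c := 65957 / 65536) (L := P.W * (1011 / 1024)) he0 hκ R0
        hw (by norm_num) hz.re (om_mono hκ hz.om (xG_fam (by omega)))
        (hz.y.trans (by linarith)) (by
          refine le_trans ?_ hz.lo
          rw [← hWS]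
          refine mul_le_mul_of_nonneg_left ?_ hW.le
          have := num_e he
          linarith) (by
          refine hWcc.trans_le ?_
          exact mul_le_mul_of_nonneg_left hcc1 hW.le) (by
          refine hz.hi.trans ?_
          rw [← hWS, hWw]
          exact pow_le_pow_left₀ hw.le (by linarith) 2) hwbp (by
          refine hz.r.trans ?_
          rw [← hWS]
          linarith) (by
          rw [hWw]
          nlinarith [sq_nonneg P.w])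
      have h2 : wMo / P.w = 65957 / 65536 * r.o0 / P.w + r.p0 := by
        refine (congrArg (fun t => t / P.w) Q.e_wMo).trans ?_
        rw [add_div, mul_div_cancel_right₀ _ hw.ne']
      rw [h2]
      exact h
    · intro z hz
      have hx : xG n + 2 - (xG n + 1 - xG (n + 1)) = xG (n + 1) + 1 := by ring
      have hcc : Sz e κ (shf κ τ) / e * (1011 / 1024 - 2 * P.E / √(Sz e κ (shf κ τ))) *
          (1011 / 1024) = P.W * Q.cc := by
        rw [← hWS, Q.e_cc, P.e_c2, mul_div_assoc, hEQw]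
        ring
      have hom := hz.om
      have hlo := hz.lo
      have hr := hz.r
      have hhi := hz.hi
      have hyy := hz.y
      rw [hx] at hom
      rw [hcc] at hlo hr
      rw [hwb2] at hhi
      have hpy := Q.p_ys
      have h := row_pt (w := P.w) (c := Q.r5) (L := P.W * Q.cc) he0 hκ R1
        hw hr5 hz.re (om_mono hκ hom (xG_fam (by omega)))
        (hyy.trans (by linarith)) hlo hWcc (by
          refine hhi.trans ?_
          exact pow_le_pow_left₀ (by positivity) (by linarith) 2) hwbp hr (by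
          rw [hWw]
          nlinarith [sq_nonneg P.w])
      have h2 : Q.m1 / P.w = Q.r5 * r.o1 / P.w + r.p1 := by
        rw [Q.e_m1, add_div, mul_div_cancel_right₀ _ hw.ne', mul_comm r.o1]
      rw [h2]
      exact h
  have hyle : |yz e κ (shf κ τ)| ≤ 10 / 3 := by
    have := R0.ys1
    linarith
  have hyb : bet e κ ^ 2 / e + 2 * |yz e κ (shf κ τ)| = yb := by
    refine Eq.trans ?_ Q.e_yb.symm
    rw [P.e_bie, hiee]
    ring
  have hw_ie : P.ie / P.w = (√e)⁻¹ * js := by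
    rw [P.e_ie, P.e_w, hjs]
    field_simp
  refine link_gen he he5 hκ hb hn T g P hM ?_ ?_ hyb.le ?_ ?_ ?_ ?_ ?_
  · rw [mul_div_cancel₀ _ hw.ne']
  · refine le_trans (le_of_eq ?_) Q.e_Moie.ge
    have : wMo / P.w * P.ie = wMo * (P.ie / P.w) := by ring
    rw [this, hw_ie, ← mul_assoc]
  · have hyz2 : yz e κ (shf κ τ) ^ 2 = |yz e κ (shf κ τ)| ^ 2 := (sq_abs _).symm
    have hbe0 := bet_pos he0 hκ
    have hWe : P.w ^ 2 = (bet e κ ^ 2 + |yz e κ (shf κ τ)| ^ 2) / e := by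
      rw [← hWw, hWS, ← hyz2]
      rfl
    have hK : Real.sinh κ ≤ 1 / 10 := by
      have hb' : e * Real.sinh κ ≤ 5 := hb
      have hK0 : 0 < Real.sinh κ := Real.sinh_pos_iff.2 hκ
      nlinarith
    have h1 := lf_w (e := e) (κ := κ) he hκ hK (s := shf κ τ) (shf_re hκ T.re.le) (w := P.w) (by
      have h2 : (46 / 1000 : ℝ) ^ 2 ≤ P.w ^ 2 := by
        rw [hWe, le_div_iff₀ he0]
        have h3 : (33 / 32 : ℝ) ^ 2 ≤ |yz e κ (shf κ τ)| ^ 2 := pow_le_pow_left₀ (by norm_num) hy 2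
        nlinarith [sq_nonneg (bet e κ)]
      exact le_of_sq_le_sq h2 hw.le) (by
      have h2 : P.w ^ 2 ≤ (9 / 20 : ℝ) ^ 2 := by
        rw [hWe, div_le_iff₀ he0]
        have h3 : |yz e κ (shf κ τ)| ^ 2 ≤ (10 / 3 : ℝ) ^ 2 := pow_le_pow_left₀ (abs_nonneg _) hyle 2
        nlinarith
      exact le_of_sq_le_sq h2 (by norm_num)) (by rw [← hWw, hWS])
    refine le_trans ?_ Q.e_ielf.ge
    calc ‖log (fT e κ (shf κ τ)) - log (fT e κ 1)‖ * P.ie ≤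
        (258 / 100 + 1785 / 10000 / P.w) * P.ie := mul_le_mul_of_nonneg_right h1 hie.le
      _ = 258 / 100 * P.ie + 1785 / 10000 * (P.ie / P.w) := by ring
      _ = 258 / 100 * P.ie + 1785 / 10000 * ((√e)⁻¹ * js) := by rw [hw_ie]
      _ ≤ _ := by
        have h2 : 0 < (√e)⁻¹ * js := by positivity
        nlinarith
  · refine le_trans (le_of_eq ?_) Q.e_Mnie.ge
    have : Q.m1 / P.w * P.ie = Q.m1 * (P.ie / P.w) := by ring
    rw [this, hw_ie, ← mul_assoc]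
  · refine le_trans (le_of_eq ?_) Q.e_EM.ge
    rw [P.e_E, hWw]
    field_simp
  · refine le_trans (le_of_eq ?_) (mul_le_mul_of_nonneg_right Q.e_EMs.ge hs.le)
    rw [P.e_E, P.e_W, P.e_wse]
    have h1 : (P.w * (√e)⁻¹ + (√e)⁻¹ * Q.m1) * s = P.w * P.w + P.w * Q.m1 := by
      have h2 := P.e_w
      calc (P.w * (√e)⁻¹ + (√e)⁻¹ * Q.m1) * s = (P.w + Q.m1) * ((√e)⁻¹ * s) := by ring
        _ = _ := by rw [← h2]; ring
    calc P.Q * (P.w * P.w) * (1 + Q.m1 / P.w) = P.Q * (P.w * P.w + P.w * Q.m1) := by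
          field_simp
      _ = P.Q * ((P.w * (√e)⁻¹ + (√e)⁻¹ * Q.m1) * s) := by rw [h1]
      _ = _ := by ring
  · refine le_trans (le_of_eq ?_) Q.e_yb1.ge
    have h1 : yb + 2 * P.E = bet e κ ^ 2 / e + 2 * |yz e κ (shf κ τ)| + 2 * P.E :=
      congrArg (fun t => t + 2 * P.E) hyb.symm
    rw [h1]
    ring

private theorem mG_row (he : 200 ≤ e) (hκ : 0 < κ) (hb : bet e κ ≤ 5) {n : ℕ} (hn : n < 5) :
    PX e κ (xG n + 1) (21 / 20) (mG n).Mo ∧ PX e κ (xG (n + 1) + 1) (21 / 20) (mG n).M1 := by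
  obtain ⟨-, h2, h3, -, -, h6, h7, -, -⟩ := px_rows_strong he hκ hb
  interval_cases n
  · exact ⟨h2.mono_x hκ (by norm_num [xG]), h3.mono_x hκ (by norm_num [xG])⟩
  · exact ⟨h3.mono_x hκ (by norm_num [xG]), h6.mono_x hκ (by norm_num [xG])⟩
  · exact ⟨h6.mono_x hκ (by norm_num [xG]), h6.mono_x hκ (by norm_num [xG])⟩
  · exact ⟨h6.mono_x hκ (by norm_num [xG]), h6.mono_x hκ (by norm_num [xG])⟩
  · exact ⟨h6.mono_x hκ (by norm_num [xG]), h6.mono_x hκ (by norm_num [xG])⟩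

private theorem mG_c {n : ℕ} (hn : n < 5) : 0 < (mG n).Mo ∧ 0 < (mG n).M1 ∧
    (mG n).ys2 = 1101005 / 524288 ∧ (mG n).yE1 = 541065 / 524288 ∧
    (mG n).yE2 = 1116757 / 1048576 ∧ (mG n).Yc = 9437 / 524288 := by
  interval_cases n <;> norm_num [mG]

/-- the constant case -/
private theorem link_c (he : 200 ≤ e) (he5 : e ≤ 500) (hκ : 0 < κ) (hb : bet e κ ≤ 5) {n : ℕ}
    (hn : n < 5) {τ : ℂ} (T : St e κ (xG n) (LamG n) (ynG n) τ)
    {be s k y2 wMo Moie yb ielf Mnie EM EMs : ℝ}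
    (g : GeoL e κ τ (√e)⁻¹ be s k y2)
    (P : PL (cG n) (√e)⁻¹ be s k y2 wMo Moie yb ielf Mnie EM EMs yb)
    (Q : PLc (mG n) P) (hy : |yz e κ (shf κ τ)| ≤ 21 / 20 - 9437 / 524288) :
    LinkOK e κ (aG n) (xG (n + 1)) (LamG (n + 1)) (ynG (n + 1)) (aG (n + 1)) τ := by
  have he0 : 0 < e := by linarith
  have hse : 0 < (√e)⁻¹ := inv_pos.2 (Real.sqrt_pos.2 he0)
  have hS0 : 0 < Sz e κ (shf κ τ) := Sz_pos3 he0 hκ _
  have hs0 : 0 < s := by rw [g.hs]; exact Real.sqrt_pos.2 hS0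
  obtain ⟨m1, m2, m3, -, -, m6⟩ := mG_c hn
  obtain ⟨hw0, hie, -, -⟩ := PL_w P hse hs0
  have hwMo : 0 ≤ wMo := by
    refine le_trans ?_ Q.e_wMo.ge
    positivity
  have hMoie : 0 ≤ Moie := by
    refine le_trans ?_ Q.e_Moie.ge
    positivity
  have hielf : 0 ≤ ielf := by
    refine le_trans ?_ Q.e_ielf.ge
    positivity
  obtain ⟨hs, hw, hW, hWw, hWS, hQ, hE, hQw, hEQw, hiee, hwb2⟩ :=
    geo_facts he hκ hn g P hwMo hMoie hielf
  obtain ⟨r1, r2⟩ := mG_row he hκ hb hn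
  have hEc : P.E < 9437 / 524288 := by
    have := Q.p_Ec
    rw [m6] at this
    linarith
  have hM : ML e κ (xG n) (xG n + 1 - xG (n + 1)) P.E (Sz e κ (shf κ τ)) (mG n).Mo
      (mG n).M1 |yz e κ (shf κ τ)| := by
    refine ⟨m1.le, m2.le, ?_, ?_⟩
    · intro z hz
      exact r1 z hz.re hz.om (hz.y.trans (by linarith))
    · intro z hz
      have hx : xG n + 2 - (xG n + 1 - xG (n + 1)) = xG (n + 1) + 1 := by ring
      have hom := hz.om
      rw [hx] at hom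
      exact r2 z hz.re hom (hz.y.trans (by linarith))
  have hbb : bet e κ ^ 2 / e = be * P.bie := by
    rw [P.e_bie, hiee, g.hbe]
    ring
  refine link_gen he he5 hκ hb hn T g P hM ?_ ?_ ?_ ?_ ?_ ?_ ?_ ?_
  · exact (mul_comm _ _).trans_le Q.e_wMo.ge
  · exact Q.e_Moie.ge
  · refine le_trans ?_ Q.e_yb.ge
    rw [hbb, m3]
    linarith
  · refine le_trans ?_ Q.e_ielf.ge
    have h1 := lf_y (e := e) (κ := κ) he hκ (s := shf κ τ) (shf_re hκ T.re.le) (by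
      have := Real.pi_gt_d2
      linarith)
    refine mul_le_mul_of_nonneg_right (h1.trans (by norm_num)) hie.le
  · exact Q.e_Mnie.ge
  · refine le_trans (le_of_eq ?_) Q.e_EM.ge
    ring
  · refine le_trans (le_of_eq ?_) (mul_le_mul_of_nonneg_right Q.e_EMs.ge hs.le)
    have h1 : P.E = P.Qw * s := by rw [P.e_E, P.e_Qw, P.e_W, P.e_wse, P.e_w]; ring
    rw [h1]
    ring
  · refine le_trans ?_ Q.e_yb.ge
    rw [hbb, m3]
    linarith

/-- `|yz (shf τ)| ≤ 33/32`, variables `be`, `y`: `px_rows_strong` (`|y| + E ≤ 21/20`: `p_Ec`, `PLy1`), `lf_y` -/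
theorem link_cy (he : 200 ≤ e) (he5 : e ≤ 500) (hκ : 0 < κ) (hb : bet e κ ≤ 5) {n : ℕ}
    (hn : n < 5) {τ : ℂ} (T : St e κ (xG n) (LamG n) (ynG n) τ)
    {s k y2 js wMo Moie yb ielf Mnie EM EMs : ℝ}
    (V : PLv (bet e κ) |yz e κ (shf κ τ)| s k y2 js)
    (P : PL (cG n) (√e)⁻¹ (bet e κ) s k y2 wMo Moie yb ielf Mnie EM EMs yb)
    (Q : PLc (mG n) P) (hy : PLy1 (mG n) |yz e κ (shf κ τ)|) :
    LinkOK e κ (aG n) (xG (n + 1)) (LamG (n + 1)) (ynG (n + 1)) (aG (n + 1)) τ := by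
  have he0 : 0 < e := by linarith
  obtain ⟨g, -⟩ := GeoL_v he0 hκ V
  obtain ⟨-, -, -, m4, -, -⟩ := mG_c hn
  refine link_c he he5 hκ hb hn T g P Q ?_
  unfold PLy1 at hy
  rw [m4] at hy
  linarith

/-- the same, variables `s`, `k` -/
theorem link_cs (he : 200 ≤ e) (he5 : e ≤ 500) (hκ : 0 < κ) (hb : bet e κ ≤ 5) {n : ℕ}
    (hn : n < 5) {τ : ℂ} (T : St e κ (xG n) (LamG n) (ynG n) τ)
    {be y2 wMo Moie yb ielf Mnie EM EMs : ℝ}
    (V : PLt be √(Sz e κ (shf κ τ)) (bet e κ / √(Sz e κ (shf κ τ))) y2)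
    (P : PL (cG n) (√e)⁻¹ be √(Sz e κ (shf κ τ)) (bet e κ / √(Sz e κ (shf κ τ))) y2 wMo Moie yb
      ielf Mnie EM EMs yb)
    (Q : PLc (mG n) P) (hy : PLy2 (mG n) y2) :
    LinkOK e κ (aG n) (xG (n + 1)) (LamG (n + 1)) (ynG (n + 1)) (aG (n + 1)) τ := by
  have he0 : 0 < e := by linarith
  have g := GeoL_t he0 hκ V
  obtain ⟨-, -, -, -, m5, -⟩ := mG_c hn
  refine link_c he he5 hκ hb hn T g P Q ?_
  unfold PLy2 at hy
  rw [m5, g.hy2, ← sq_abs] at hy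
  have h1 : |yz e κ (shf κ τ)| ^ 2 ≤ (21 / 20 - 9437 / 524288) ^ 2 := by
    refine le_trans (by linarith : _ ≤ (1116757 / 1048576 : ℝ)) ?_
    norm_num
  exact le_of_sq_le_sq h1 (by norm_num)

end Pool.Agent.helper31.A2
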