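import Pool.Agent.helper31.A2.Prog
import Pool.Agent.helper31.A2.DomG

/-!
# A2: the geometry from the programs (helper99)

First node: `R = √(β² + v²)`, `t = v/(R + β)` (half angle): `β = R (1 - t²)/(1 + t²)`, `v = R 2t/(1 + t²)`.
`circ_*`: the identities; `geoF_t`, `geoF_v`: `GeoF` from `PFt` and `PFv`; `geoL_v`, `geoL_t`: `GeoL` from `PLv`
and `PLt`.
-/

namespace Pool.Agent.helper31.A2

open Complex
open Pool.Agent.helper31.EQ.Y Pool.Agent.helper31.EQ.R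
open Pool.Agent.helper12.EQL Pool.Agent.helper12.RP Pool.Agent.helper12.FF Pool.Agent.helper12.RS
open Pool.Agent.helper63.FF
open Pool.Agent.helper31.EQB

variable {e κ : ℝ}

section
variable {b v : ℝ}

theorem circ_R_pos (hb : 0 < b) : 0 < √(b ^ 2 + v ^ 2) :=
  Real.sqrt_pos.2 (by positivity)

theorem circ_t0 (hb : 0 < b) (hv : 0 ≤ v) : 0 ≤ v / (√(b ^ 2 + v ^ 2) + b) :=
  div_nonneg hv (add_pos (circ_R_pos hb) hb).le

theorem circ_t1 (hb : 0 < b) (hv : 0 ≤ v) : v / (√(b ^ 2 + v ^ 2) + b) ≤ 1 := by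
  have h := (hyp_bounds hb.le hv).2.1
  rw [div_le_one (add_pos (circ_R_pos hb) hb)]
  linarith

theorem circ_sq (hb : 0 < b) {R t : ℝ} (hR : R = √(b ^ 2 + v ^ 2)) (ht : t = v / (R + b)) :
    t * t = (R - b) / (R + b) := by
  have h0 : 0 < R := by rw [hR]; exact circ_R_pos hb
  have h2 : R ^ 2 = b ^ 2 + v ^ 2 := by
    rw [hR]
    exact Real.sq_sqrt (by positivity)
  have h3 : R + b ≠ 0 := by positivity
  rw [ht, div_mul_div_comm, div_eq_div_iff (mul_ne_zero h3 h3) h3]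
  have h4 : v * v = (R - b) * (R + b) := by linarith
  rw [h4]
  ring

theorem circ_b (hb : 0 < b) {R t : ℝ} (hR : R = √(b ^ 2 + v ^ 2)) (ht : t = v / (R + b)) :
    R * ((1 - t * t) * (t * t + 1)⁻¹) = b := by
  have h0 : 0 < R := by rw [hR]; exact circ_R_pos hb
  have h3 : 0 < R + b := by positivity
  rw [circ_sq hb hR ht]
  have h4 : (R - b) / (R + b) + 1 = 2 * R / (R + b) := by
    field_simp
    ring
  have h5 : 1 - (R - b) / (R + b) = 2 * b / (R + b) := by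
    field_simp
    ring
  rw [h4, h5]
  field_simp

theorem circ_v (hb : 0 < b) {R t : ℝ} (hR : R = √(b ^ 2 + v ^ 2)) (ht : t = v / (R + b)) :
    R * (2 * (t * (t * t + 1)⁻¹)) = v := by
  have h0 : 0 < R := by rw [hR]; exact circ_R_pos hb
  have h3 : 0 < R + b := by positivity
  rw [circ_sq hb hR ht]
  have h4 : (R - b) / (R + b) + 1 = 2 * R / (R + b) := by
    field_simp
    ring
  rw [h4, ht]
  field_simp

/-- the program `PFt` at `R = √(b² + v²)`, `t = v/(R + b)` -/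
theorem pft_eq (hb : 0 < b) {R t be v' kc vs : ℝ} (hR : R = √(b ^ 2 + v ^ 2))
    (ht : t = v / (R + b)) (P : PFt R t be v' kc vs) :
    be = b ∧ v' = v ∧ kc * R = b ∧ vs * R = v := by
  have h1 : kc = (1 - t * t) * (t * t + 1)⁻¹ := by rw [P.e_kc, P.e_it, P.e_t2]
  have h2 : vs = 2 * (t * (t * t + 1)⁻¹) := by rw [P.e_vs, P.e_it, P.e_t2]
  have h3 := circ_b hb hR ht
  have h4 := circ_v hb hR ht
  rw [← h1] at h3
  rw [← h2] at h4
  exact ⟨P.e_be.trans h3, P.e_v.trans h4, (mul_comm _ _).trans h3, (mul_comm _ _).trans h4⟩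

/-- `exp ((1/2) log x) = √x` -/
theorem exp_half_log {x : ℝ} (hx : 0 < x) : Real.exp ((1 / 2) * Real.log x) = √x := by
  rw [Real.sqrt_eq_rpow, Real.rpow_def_of_pos hx, mul_comm]

end

/-- `GeoF` from `PFt` -/
theorem geoF_t (he : 0 < e) (hκ : 0 < κ) {v R t be v' kc vs : ℝ}
    (hR : R = √(bet e κ ^ 2 + v ^ 2)) (ht : t = v / (R + bet e κ)) (P : PFt R t be v' kc vs) :
    be = bet e κ ∧ v' = v ∧ GeoF e κ v (√e)⁻¹ be R kc vs := by
  obtain ⟨h1, h2, h3, h4⟩ := pft_eq (bet_pos he hκ) hR ht P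
  exact ⟨h1, h2, ⟨rfl, h1, hR, h3.trans h1.symm, h4⟩⟩

/-- `GeoF` from `PFv` -/
theorem geoF_v (he : 0 < e) (hκ : 0 < κ) {v R kc vs iR : ℝ} (P : PFv (bet e κ) v R kc vs iR) :
    GeoF e κ v (√e)⁻¹ (bet e κ) R kc vs ∧ iR = R⁻¹ ∧ 0 < R := by
  have hb := bet_pos he hκ
  have h1 : 0 < bet e κ * bet e κ + v * v := by
    have := mul_pos hb hb
    have := mul_self_nonneg v
    linarith
  have hR : R = √(bet e κ ^ 2 + v ^ 2) := by
    rw [P.e_R, P.e_L, exp_half_log h1]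
    congr 1
    ring
  have hR0 : 0 < R := by rw [P.e_R]; exact Real.exp_pos _
  have hi : iR = R⁻¹ := by rw [P.e_iR, Real.exp_neg, ← P.e_R]
  refine ⟨⟨rfl, rfl, hR, ?_, ?_⟩, hi, hR0⟩
  · rw [P.e_kc, hi, mul_assoc, inv_mul_cancel₀ hR0.ne', mul_one]
  · rw [P.e_vs, hi, mul_assoc, inv_mul_cancel₀ hR0.ne', mul_one]

/-- `GeoL` from `PLv` at `y = |yz (shf τ)|` -/
theorem geoL_v (he : 0 < e) (hκ : 0 < κ) {τ : ℂ} {s k y2 js : ℝ}
    (P : PLv (bet e κ) |yz e κ (shf κ τ)| s k y2 js) :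
    GeoL e κ τ (√e)⁻¹ (bet e κ) s k y2 ∧ js = s⁻¹ ∧ 0 < s := by
  have hb := bet_pos he hκ
  have h2 : y2 = yz e κ (shf κ τ) ^ 2 := by
    rw [P.e_y2, abs_mul_abs_self, sq]
  have h1 : 0 < bet e κ * bet e κ + y2 := by
    have := mul_pos hb hb
    have := sq_nonneg (yz e κ (shf κ τ))
    rw [h2]
    linarith
  have hs : s = √(Sz e κ (shf κ τ)) := by
    rw [P.e_s, P.e_L, exp_half_log h1, h2, Sz]
    congr 1
    ring
  have hs0 : 0 < s := by rw [P.e_s]; exact Real.exp_pos _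
  have hi : js = s⁻¹ := by rw [P.e_js, Real.exp_neg, ← P.e_s]
  refine ⟨⟨rfl, rfl, hs, ?_, h2⟩, hi, hs0⟩
  rw [P.e_k, hi, mul_assoc, inv_mul_cancel₀ hs0.ne', mul_one]

/-- `GeoL` from `PLt` at `s = √S`, `k = β/s` -/
theorem geoL_t (he : 0 < e) (hκ : 0 < κ) {τ : ℂ} {be s k y2 : ℝ}
    (hs : s = √(Sz e κ (shf κ τ))) (hk : k = bet e κ / s) (P : PLt be s k y2) :
    be = bet e κ ∧ y2 = yz e κ (shf κ τ) ^ 2 ∧ GeoL e κ τ (√e)⁻¹ be s k y2 := by
  have hS := Sz_pos he hκ (shf κ τ)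
  have hs0 : 0 < s := by rw [hs]; exact Real.sqrt_pos.2 hS
  have hs2 : s * s = Sz e κ (shf κ τ) := by rw [hs]; exact Real.mul_self_sqrt hS.le
  have hks : k * s = bet e κ := by rw [hk, div_mul_cancel₀ _ hs0.ne']
  have h1 : be = bet e κ := P.e_be.trans hks
  have h2 : y2 = yz e κ (shf κ τ) ^ 2 := by
    have h3 : s * s * (-(k * k) + 1) = s * s - (k * s) ^ 2 := by ring
    rw [P.e_y2, h3, hks, hs2, Sz]
    ring
  exact ⟨h1, h2, ⟨rfl, h1, hs, hks.trans h1.symm, h2⟩⟩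

end Pool.Agent.helper31.A2
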