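import Pool.Agent.helper31.A2.CstG
import Pool.Agent.helper31.EQB.Ent

/-!
# A2-N6: entry into the far field
-/

namespace Pool.Agent.helper31.A2

open Complex ComplexConjugate Set Filter Topology
open Pool.Agent.helper31.EQ.Y Pool.Agent.helper31.EQ.R
open Pool.Agent.helper12.EQL Pool.Agent.helper12.RP Pool.Agent.helper12.FF Pool.Agent.helper12.RS
open Pool.Agent.helper63.FF
open Pool.Agent.helper31.EQB
open Pool.Agent.helper71.FG (RE C2f)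

variable {e κ : ℝ}

/-- the square of the norm -/
private theorem nrm_sq (e κ : ℝ) (τ : ℂ) :
    (e ^ 2 * Real.sinh κ ^ 2 * ‖τ ^ 2 - 1‖) ^ 2 =
      (rz e κ τ ^ 2 - yz e κ τ ^ 2 - bet e κ ^ 2) ^ 2 + 4 * rz e κ τ ^ 2 * yz e κ τ ^ 2 := by
  have h1 : ‖τ ^ 2 - 1‖ ^ 2 = (τ.re ^ 2 - τ.im ^ 2 - 1) ^ 2 + 4 * τ.re ^ 2 * τ.im ^ 2 := by
    rw [Complex.sq_norm, Complex.normSq_apply]
    have e1 : (τ ^ 2 - 1).re = τ.re ^ 2 - τ.im ^ 2 - 1 := by
      rw [sq, Complex.sub_re, Complex.mul_re, Complex.one_re]; ring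
    have e2 : (τ ^ 2 - 1).im = 2 * τ.re * τ.im := by
      rw [sq, Complex.sub_im, Complex.mul_im, Complex.one_im]; ring
    rw [e1, e2]; ring
  rw [mul_pow, h1]
  unfold rz yz bet
  ring

private theorem le_of_sq {a b : ℝ} (hb : 0 ≤ b) (h : a ^ 2 ≤ b ^ 2) : a ≤ b := by
  exact (le_abs_self a).trans (abs_le_of_sq_le_sq h hb)

/-- the norm is at most `r² + S` -/
private theorem nrm_A (e κ : ℝ) (τ : ℂ) :
    e ^ 2 * Real.sinh κ ^ 2 * ‖τ ^ 2 - 1‖ ≤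
      rz e κ τ ^ 2 + (bet e κ ^ 2 + yz e κ τ ^ 2) := by
  refine le_of_sq (by positivity) ?_
  rw [nrm_sq]
  have h : 0 ≤ 4 * rz e κ τ ^ 2 * bet e κ ^ 2 := by positivity
  nlinarith

/-- the position -/
private theorem pos_ent (hκ : 0 < κ) {x : ℝ} (hx : 39 / 10 < x) {τ : ℂ} (hτ : 0 < τ.re)
    (h : om κ x τ) :
    ‖τ - 1‖ < Real.exp (2 * κ) * Real.exp (-(2 * κ * (49 / 10))) * ‖τ + 1‖ := by
  unfold om at h
  refine lt_of_le_of_lt h ?_
  rw [← Real.exp_add]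
  have h1 : 0 < ‖τ + 1‖ := by
    rw [norm_pos_iff]
    intro h0
    have h2 := congrArg Complex.re h0
    rw [Complex.add_re, Complex.one_re, Complex.zero_re] at h2
    linarith
  refine mul_lt_mul_of_pos_right (Real.exp_lt_exp.2 ?_) h1
  nlinarith

/-- the radii -/
private theorem rad_ent (he : 0 < e) (hκ : 0 < κ) (τ : ℂ) :
    ‖Xr κ (2 * (e / (4 + e * Real.sinh κ)) * Real.sinh κ ^ 2) (Real.exp (-(2 * κ * (49 / 10)))) τ‖
      ≤ ‖Rx e κ (419 / 8192) τ‖ := by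
  have hK : 0 < Real.sinh κ := Real.sinh_pos_iff.2 hκ
  obtain ⟨h0, h1, h2⟩ := R0_fac hκ
  unfold Xr Rx
  rw [norm_mul, norm_mul, Complex.norm_real, Complex.norm_real]
  refine mul_le_mul_of_nonneg_right ?_ (norm_nonneg _)
  unfold bet
  rw [Real.norm_of_nonneg (by positivity), Real.norm_of_nonneg (by positivity)]
  have h3 : 2 * (e / (4 + e * Real.sinh κ)) * Real.sinh κ ^ 2 * Real.exp (-(2 * κ * (49 / 10))) /
      (1 - Real.exp (-(2 * κ * (49 / 10)))) = (2 * (e * Real.sinh κ) / (4 + e * Real.sinh κ)) *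
      (Real.sinh κ * (Real.exp (-(2 * κ * (49 / 10))) /
        (1 - Real.exp (-(2 * κ * (49 / 10)))))) := by ring
  have h4 : 419 / 8192 * (4 / (4 + e * Real.sinh κ)) * (e * Real.sinh κ) =
      (2 * (e * Real.sinh κ) / (4 + e * Real.sinh κ)) * (419 / 4096) := by ring
  rw [h3, h4]
  refine mul_le_mul_of_nonneg_left ?_ (by positivity)
  exact h2.trans (by norm_num)

/-- the region from a bound of the norm -/
private theorem reg_ent (hκ : 0 < κ) {τ : ℂ}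
    (h : e ^ 2 * Real.sinh κ ^ 2 * ‖τ ^ 2 - 1‖ < bet e κ ^ 2 + 39 / 2) :
    τ ∈ RE e κ (Real.exp (-(2 * κ * (49 / 10)))) := by
  obtain ⟨h0, h1, h2⟩ := R0_fac hκ
  unfold RE
  rw [Set.mem_ofPred_eq]
  refine lt_of_lt_of_le h ?_
  have h3 : C2f e κ = 13 / 10 * bet e κ ^ 2 + 25 := by unfold C2f bet; ring
  rw [h3]
  have h4 : 39 / 49 ≤ 1 - 2 * Real.sinh κ * (Real.exp (-(2 * κ * (49 / 10))) /
      (1 - Real.exp (-(2 * κ * (49 / 10))))) := by linarith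
  have h5 : 0 ≤ bet e κ ^ 2 := sq_nonneg _
  have h6 := mul_le_mul_of_nonneg_left h4 (by linarith : 0 ≤ 13 / 10 * bet e κ ^ 2 + 25)
  linarith

private theorem num_G {b y r e : ℝ} (he : 200 ≤ e) (hb : b ^ 2 ≤ 25) (hy : y ^ 2 ≤ 109 / 10)
    (hr0 : 0 ≤ r) (hr : r ≤ 8741 / 1024 * (b ^ 2 + y ^ 2) / e) :
    r ^ 2 + (b ^ 2 + y ^ 2) < b ^ 2 + 39 / 2 := by
  have h1 : 8741 / 1024 * (b ^ 2 + y ^ 2) / e ≤ 16 / 10 := by
    rw [div_le_iff₀ (by linarith)]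
    linarith
  have h2 : r ≤ 16 / 10 := hr.trans h1
  have h3 : r ^ 2 ≤ (16 / 10) ^ 2 := pow_le_pow_left₀ hr0 h2 2
  linarith

/-- `ent_A` of `EQB/Ent.lean` for `e ≥ 200` with the constants of `CstG` -/
theorem ent_G (he : 200 ≤ e) (hκ : 0 < κ) (hb : bet e κ ≤ 5) {τ : ℂ}
    (T : St e κ (xG 5) (LamG 5) (ynG 5) τ) :
    τ ∈ OmR κ (Real.exp (-(2 * κ * (49 / 10)))) (RE e κ (Real.exp (-(2 * κ * (49 / 10))))) ∧
    ‖Xr κ (2 * (e / (4 + e * Real.sinh κ)) * Real.sinh κ ^ 2)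
      (Real.exp (-(2 * κ * (49 / 10)))) τ‖ ≤ ‖Rx e κ (aG 5) τ‖ := by
  have he0 : 0 < e := by linarith
  have hK : 0 < Real.sinh κ := Real.sinh_pos_iff.2 hκ
  have hb0 : 0 < bet e κ := mul_pos he0 hK
  have c1 : xG 5 = 8501 / 2048 := rfl
  have c2 : LamG 5 = 8741 / 1024 := rfl
  have c3 : ynG 5 = 211 / 64 := rfl
  have c4 : aG 5 = 419 / 8192 := rfl
  have hre := T.re
  have hom := T.om
  have hy := T.y
  have hr := T.r
  rw [c1] at hom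
  rw [c3] at hy
  rw [c2] at hr
  unfold Sz at hr
  have hr0 : 0 ≤ rz e κ τ := by unfold rz; positivity
  have hy2 : yz e κ τ ^ 2 ≤ 109 / 10 := by
    have h1 := sq_le_sq' (abs_le.1 hy).1 (abs_le.1 hy).2
    linarith
  have hb2 : bet e κ ^ 2 ≤ 25 := by nlinarith
  refine ⟨⟨pos_ent hκ (by norm_num) hre hom, reg_ent hκ ?_⟩, ?_⟩
  · exact lt_of_le_of_lt (nrm_A e κ τ) (num_G he hb2 hy2 hr0 hr)
  · rw [c4]
    exact rad_ent he0 hκ τ

end Pool.Agent.helper31.A2
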