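import Pool.Agent.helper31.A2.Stm
import Pool.Agent.helper31.A2.Ent2
import Pool.Agent.helper31.EQB.Asm

/-!
# A2-N7: the trap for `200 ≤ e ≤ 500`, `β ≤ 5`, from the links, the first node and the test
-/

namespace Pool.Agent.helper31.A2

open Complex ComplexConjugate Set Filter Topology
open Pool.Agent.helper31.EQ.Y Pool.Agent.helper31.EQ.R
open Pool.Agent.helper12.EQL Pool.Agent.helper12.RP Pool.Agent.helper12.FF Pool.Agent.helper12.RS
open Pool.Agent.helper63.FF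
open Pool.Agent.helper31.EQB
open Pool.Agent.helper71.FG (RE)

variable {e κ : ℝ}

/-- as `trap_A` of `EQB/Reg.lean` -/
theorem trap_G (he : 200 ≤ e) (hκ : 0 < κ) (hb : bet e κ ≤ 5)
    (hL : ∀ n, n < 5 → ∀ τ : ℂ, St e κ (xG n) (LamG n) (ynG n) τ →
      LinkOK e κ (aG n) (xG (n + 1)) (LamG (n + 1)) (ynG (n + 1)) (aG (n + 1)) τ)
    (hF : ∀ v : ℝ, 0 ≤ v → v ≤ Real.pi → FirstOK e κ (CG e κ) (xG 0) (LamG 0) (ynG 0) (aG 0) v)
    (hT : TestOK e κ (CG e κ))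
    (far : FarN e κ (1 - Real.sinh κ / 1024))
    (hΩ : far.Ω 0 = OmR κ (Real.exp (-(2 * κ * (49 / 10))))
      (RE e κ (Real.exp (-(2 * κ * (49 / 10))))))
    (hX : far.X 0 = Xr κ (2 * (e / (4 + e * Real.sinh κ)) * Real.sinh κ ^ 2)
      (Real.exp (-(2 * κ * (49 / 10))))) :
    Nonempty (Pool.Agent.helper31.EQ.SeqTrap e (Real.exp κ)) := by
  have he0 : 0 < e := by linarith
  have hβ : 0 < bet e κ := bet_pos he0 hκ
  have hK : Real.sinh κ ≤ 1 / 10 := by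
    have h1 : e * Real.sinh κ ≤ 5 := hb
    have h2 : 0 < Real.sinh κ := Real.sinh_pos_iff.2 hκ
    nlinarith
  refine trap_of_all he hκ hK far (C := CG e κ) (x := xG) (Λ := LamG) (yn := ynG)
    (a := fun n => aG (min n 5)) ?_
  refine ⟨?_, ?_, ?_, ?_, ?_, ?_, ?_⟩
  · unfold CG
    have : 0 < cF2.aS := by norm_num [cF2]
    positivity
  · intro n
    have hn : min n 5 ≤ 5 := min_le_right _ _
    obtain ⟨m, hm⟩ : ∃ m, m = min n 5 := ⟨_, rfl⟩
    rw [← hm] at hn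
    show 0 < aG (min n 5)
    rw [← hm]
    interval_cases m <;> norm_num [aG]
  · intro v hv0 hv1
    have hv2 : v ≤ 32 / 10 := by
      have := Real.pi_lt_d2
      norm_num at this ⊢
      linarith
    have h1 : √(bet e κ ^ 2 + v ^ 2) ≤ bet e κ + v := by
      apply Real.sqrt_le_iff.2 ⟨by positivity, ?_⟩
      nlinarith
    have h2 : CG e κ * √(bet e κ ^ 2 + v ^ 2) / bet e κ =
        cF2.aS * 4 * √(bet e κ ^ 2 + v ^ 2) / (4 + bet e κ) := by
      unfold CG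
      field_simp
    rw [h2, div_lt_one (by positivity)]
    have h3 : cF2.aS ≤ 14 / 100 := by norm_num [cF2]
    have h4 : 0 ≤ √(bet e κ ^ 2 + v ^ 2) := Real.sqrt_nonneg _
    nlinarith
  · intro v hv0 hv1
    exact hF v hv0 hv1
  · exact hT
  · intro n hn τ T
    have h1 : min n 5 = n := min_eq_left (by omega)
    have h2 : min (n + 1) 5 = n + 1 := min_eq_left (by omega)
    show ‖Rx e κ (aG (min n 5)) τ‖ < 1 ∧ ∀ χ : ℂ, ‖χ‖ ≤ ‖Rx e κ (aG (min n 5)) τ‖ →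
      rd e κ τ χ ∈ slitPlane ∧
      St e κ (xG (n + 1)) (LamG (n + 1)) (ynG (n + 1)) (nxt e κ τ χ) ∧
      ∀ χ' : ℂ, ‖χ'‖ ≤ ‖Rx e κ (aG (min (n + 1) 5)) (nxt e κ τ χ)‖ → _
    rw [h1, h2]
    exact hL n hn τ T
  · intro τ T
    obtain ⟨h1, h2⟩ := ent_G he hκ hb T
    rw [hΩ, hX]
    exact ⟨h1, h2⟩

end Pool.Agent.helper31.A2
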