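import Pool.Agent.helper31.A2.Cov
import Pool.Agent.helper31.A2.NLr
import Pool.Agent.helper31.A2.NFr
import Pool.Agent.helper31.A2.NFm
import Pool.Agent.helper31.A2.DomG
import Pool.Agent.helper31.A2.PFc
import Pool.Agent.helper31.A2.Reg2

/-!
# A2-A: links, first node and test from the covers; the trap (helper99)
-/

namespace Pool.Agent.helper31.A2

open Complex ComplexConjugate Set Filter Topology
open Pool.Agent.helper31.EQ.Y Pool.Agent.helper31.EQ.R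
open Pool.Agent.helper12.EQL Pool.Agent.helper12.RP Pool.Agent.helper12.FF Pool.Agent.helper12.RS
open Pool.Agent.helper63.FF
open Pool.Agent.helper31.EQB
open Pool.Agent.helper71.FG (RE)

variable {e κ : ℝ}

/-- `|yz (shf τ)| ≥ 33/32`: `cov_LP`, `link_row` (`|yz (shf τ)| ≤ ynG n` from `St.y`); else, with `s = √S`: `s ≤ 3/4`: `cov_L1` (`k = β/s`), `link_cs`;
else `β ≥ 1/2` or `|y| ≥ 1/2` (`1/4 + 1/4 < 9/16`): `cov_L2`, `link_cy` -/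
theorem linkG_all (he : 200 ≤ e) (he5 : e ≤ 500) (hκ : 0 < κ) (hb : bet e κ ≤ 5) {n : ℕ}
    (hn : n < 5) {τ : ℂ} (T : St e κ (xG n) (LamG n) (ynG n) τ) :
    LinkOK e κ (aG n) (xG (n + 1)) (LamG (n + 1)) (ynG (n + 1)) (aG (n + 1)) τ := by
  have he0 : 0 < e := by linarith
  have hβ : 0 < bet e κ := bet_pos he0 hκ
  have hyn : |yz e κ (shf κ τ)| ≤ ynG n := (yz_shf_le he0 hκ T.re).trans T.y
  rcases le_or_gt (33 / 32) |yz e κ (shf κ τ)| with h | h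
  · obtain ⟨s, k, y2, js, wMo, Moie, yb, ielf, Mnie, EM, EMs, yb1, ⟨V⟩, P, r, ⟨Q⟩, R0, R1⟩ :=
      cov_LP he he5 hκ hb hn h hyn
    exact link_row he he5 hκ hb hn T h V P Q R0 R1
  have hS : 0 < Sz e κ (shf κ τ) := Sz_pos he0 hκ _
  have hs0 : 0 < √(Sz e κ (shf κ τ)) := Real.sqrt_pos.2 hS
  rcases le_or_gt √(Sz e κ (shf κ τ)) (3 / 4) with h1 | h1
  · have hk1 : bet e κ / √(Sz e κ (shf κ τ)) ≤ 1 := by
      rw [div_le_one hs0]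
      apply Real.le_sqrt_of_sq_le
      unfold Sz
      linarith [sq_nonneg (yz e κ (shf κ τ))]
    obtain ⟨be, y2, wMo, Moie, yb, ielf, Mnie, EM, EMs, ⟨V⟩, P, ⟨Q⟩, hy⟩ :=
      cov_L1 he he5 hn hs0.le h1 (by positivity : 0 ≤ bet e κ / √(Sz e κ (shf κ τ))) hk1
    exact link_cs he he5 hκ hb hn T V P Q hy
  · have h2 : 1 / 2 ≤ bet e κ ∨ 1 / 2 ≤ |yz e κ (shf κ τ)| := by
      by_contra h3
      push Not at h3
      obtain ⟨h3, h4⟩ := h3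
      have h5 : (3 / 4 : ℝ) ^ 2 < Sz e κ (shf κ τ) := by
        rw [← Real.lt_sqrt (by norm_num)]
        exact h1
      have h6 : Sz e κ (shf κ τ) = bet e κ ^ 2 + |yz e κ (shf κ τ)| ^ 2 := by
        rw [sq_abs]
        rfl
      have h7 : bet e κ ^ 2 ≤ (1 / 2) ^ 2 := pow_le_pow_left₀ hβ.le h3.le 2
      have h8 : |yz e κ (shf κ τ)| ^ 2 ≤ (1 / 2) ^ 2 := pow_le_pow_left₀ (abs_nonneg _) h4.le 2
      rw [h6] at h5
      norm_num at h5 h7 h8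
      linarith
    obtain ⟨s, k, y2, js, wMo, Moie, yb, ielf, Mnie, EM, EMs, ⟨V⟩, P, ⟨Q⟩, hy⟩ :=
      cov_L2 he he5 hn hβ.le hb (abs_nonneg _) h.le h2
    exact link_cy he he5 hκ hb hn T V P Q hy

/-- the same for the first node: `GF_g`, `MF_row`, resp. `GF_h`, `MF_c`; `first_gen` -/
theorem firstG_all (he : 200 ≤ e) (he5 : e ≤ 500) (hκ : 0 < κ) (hb : bet e κ ≤ 5) {v : ℝ}
    (hv0 : 0 ≤ v) (hv1 : v ≤ Real.pi) :
    FirstOK e κ (CG e κ) (xG 0) (LamG 0) (ynG 0) (aG 0) v := by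
  have he0 : 0 < e := by linarith
  have hβ : 0 < bet e κ := bet_pos he0 hκ
  rcases le_or_gt (33 / 32) v with h | h
  · obtain ⟨R, kc, vs, iR, GrS, GtS, G2S, Ma, Mb, M1, ⟨V⟩, P, ⟨Q⟩, r, ⟨Q1⟩, R0, R1⟩ :=
      cov_FP he he5 hκ hb h hv1
    obtain ⟨g, -, -⟩ := geoF_v he0 hκ V
    have hG := GF_g he he5 hκ hb h hv1 V P Q
    exact first_gen he he5 hκ hb hv0 hv1 g P hG (MF_row he he5 hκ hb hv0 hv1 g P hG Q1 R0 R1)
  rcases le_or_gt √(bet e κ ^ 2 + v ^ 2) (3 / 4) with h1 | h1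
  · obtain ⟨R, hR⟩ : ∃ R, R = √(bet e κ ^ 2 + v ^ 2) := ⟨_, rfl⟩
    obtain ⟨t, ht⟩ : ∃ t, t = v / (R + bet e κ) := ⟨_, rfl⟩
    rw [← hR] at h1
    have hR0 : 0 < R := by rw [hR]; exact circ_R_pos hβ
    have ht0 : 0 ≤ t := by rw [ht, hR]; exact circ_t0 hβ hv0
    have ht1 : t ≤ 1 := by rw [ht, hR]; exact circ_t1 hβ hv0
    obtain ⟨be, v', kc, vs, GrS, GtS, G2S, Ma, Mb, M1, ⟨V⟩, P, ⟨Q⟩, Q1⟩ :=
      cov_F1 he he5 hR0.le h1 ht0 ht1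
    obtain ⟨hbe, hv', g⟩ := geoF_t he0 hκ hR ht V
    subst hv'
    have hG := GF_h he he5 hκ hb hv0 h.le g P Q
    exact first_gen he he5 hκ hb hv0 hv1 g P hG (MF_c he he5 hκ hb hv0 h.le g P hG Q1)
  · have h2 : 1 / 2 ≤ bet e κ ∨ 1 / 2 ≤ v := by
      by_contra h3
      push Not at h3
      obtain ⟨h3, h4⟩ := h3
      have h5 : (3 / 4 : ℝ) ^ 2 < bet e κ ^ 2 + v ^ 2 := by
        rw [← Real.lt_sqrt (by norm_num)]
        exact h1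
      have h7 : bet e κ ^ 2 ≤ (1 / 2) ^ 2 := pow_le_pow_left₀ hβ.le h3.le 2
      have h8 : v ^ 2 ≤ (1 / 2) ^ 2 := pow_le_pow_left₀ hv0 h4.le 2
      norm_num at h5 h7 h8
      linarith
    obtain ⟨R, kc, vs, iR, GrS, GtS, G2S, Ma, Mb, M1, ⟨V⟩, P, ⟨Q⟩, Q1⟩ :=
      cov_F2 he he5 hβ.le hb hv0 h.le h2
    obtain ⟨g, -, -⟩ := geoF_v he0 hκ V
    have hG := GF_h he he5 hκ hb hv0 h.le g P Q
    exact first_gen he he5 hκ hb hv0 hv1 g P hG (MF_c he he5 hκ hb hv0 h.le g P hG Q1)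

theorem testG_all (he : 200 ≤ e) (he5 : e ≤ 500) (hκ : 0 < κ) (hb : bet e κ ≤ 5) :
    TestOK e κ (CG e κ) := by
  have he0 : 0 < e := by linarith
  have h : (33 / 32 : ℝ) ≤ Real.pi := by
    have := Real.pi_gt_d2
    norm_num at this ⊢
    linarith
  obtain ⟨R, kc, vs, iR, GrS, GtS, G2S, Ma, Mb, M1, ⟨V⟩, P, ⟨Q⟩, ⟨t⟩, r, ⟨Q1⟩, R0, R1⟩ :=
    cov_FT he he5 hκ hb
  obtain ⟨g, -, -⟩ := geoF_v he0 hκ V
  have hG := GF_g he he5 hκ hb h le_rfl V P Q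
  exact test_gen he he5 hκ hb g P hG
    (MF_row he he5 hκ hb Real.pi_pos.le le_rfl g P hG Q1 R0 R1) t

/-- `trap_G` of `Reg2.lean` -/
theorem trap_A2 (he : 200 ≤ e) (he5 : e ≤ 500) (hκ : 0 < κ) (hb : bet e κ ≤ 5)
    (far : FarN e κ (1 - Real.sinh κ / 1024))
    (hΩ : far.Ω 0 = OmR κ (Real.exp (-(2 * κ * (49 / 10))))
      (RE e κ (Real.exp (-(2 * κ * (49 / 10))))))
    (hX : far.X 0 = Xr κ (2 * (e / (4 + e * Real.sinh κ)) * Real.sinh κ ^ 2)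
      (Real.exp (-(2 * κ * (49 / 10))))) :
    Nonempty (Pool.Agent.helper31.EQ.SeqTrap e (Real.exp κ)) :=
  trap_G he hκ hb (fun _ hn _ T => linkG_all he he5 hκ hb hn T)
    (fun _ hv0 hv1 => firstG_all he he5 hκ hb hv0 hv1) (testG_all he he5 hκ hb) far hΩ hX

end Pool.Agent.helper31.A2
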