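import Pool.Agent.helper31.A2.Fix

/-!
# A2: the start value
-/

namespace Pool.Agent.helper31.A2

open Complex ComplexConjugate Set Filter Topology
open Pool.Agent.helper31.EQ.Y Pool.Agent.helper31.EQ.R
open Pool.Agent.helper12.EQL Pool.Agent.helper12.RP Pool.Agent.helper12.FF
open Pool.Agent.helper63.FF
open Pool.Agent.helper31.EQB

theorem st_mi {a b : ℤ} {A B ea eb CA CB : ℝ} (ha : |vi a - A| ≤ ea) (hb : |vi b - B| ≤ eb)
    (hA : |A| ≤ CA) (hB : |B| ≤ CB) :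
    |vi (mi a b) - A * B| ≤ ea * (CB + eb) + CA * eb + 1 / 2 ^ 28 := by
  have h := vi_mi a b
  have h1 : |vi (mi a b) - vi a * vi b| ≤ 1 / 2 ^ 28 := by
    rw [abs_le]; constructor <;> linarith [h.1, h.2]
  have h2 : |vi b| ≤ CB + eb := by
    have e : vi b = B + (vi b - B) := by ring
    rw [e]
    exact (abs_add_le _ _).trans (add_le_add hB hb)
  have h3 : |(vi a - A) * vi b| ≤ ea * (CB + eb) := by
    rw [abs_mul]
    exact mul_le_mul ha h2 (abs_nonneg _) ((abs_nonneg _).trans ha)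
  have h4 : |A * (vi b - B)| ≤ CA * eb := by
    rw [abs_mul]
    exact mul_le_mul hA hb (abs_nonneg _) ((abs_nonneg _).trans hA)
  have e : vi (mi a b) - A * B = (vi (mi a b) - vi a * vi b) + ((vi a - A) * vi b + A * (vi b - B)) := by
    ring
  rw [e]
  have h5 := abs_add_le (vi (mi a b) - vi a * vi b) ((vi a - A) * vi b + A * (vi b - B))
  have h6 := abs_add_le ((vi a - A) * vi b) (A * (vi b - B))
  linarith

theorem st_dv {a : ℤ} {A ea : ℝ} (k : ℕ) (hk : 0 < k) (ha : |vi a - A| ≤ ea) :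
    |vi (a / k) - A / k| ≤ ea / k + 1 / 2 ^ 28 := by
  have hk' : (0 : ℤ) < k := by exact_mod_cast hk
  have hkr : (0 : ℝ) < k := by exact_mod_cast hk
  have h1 : a / k * k ≤ a := Int.ediv_mul_le _ hk'.ne'
  have h2 : a < (a / k + 1) * k := Int.lt_ediv_add_one_mul_self _ hk'
  have h1' : ((a / k : ℤ) : ℝ) * k ≤ a := by exact_mod_cast h1
  have h2' : (a : ℝ) ≤ (((a / k : ℤ) : ℝ) + 1) * k := by exact_mod_cast h2.le
  have h3 : |vi (a / k) - vi a / k| ≤ 1 / 2 ^ 28 := by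
    unfold vi
    have e1 : ((a / k : ℤ) : ℝ) ≤ (a : ℝ) / k := by rw [le_div_iff₀ hkr]; exact h1'
    have e2 : (a : ℝ) / k ≤ ((a / k : ℤ) : ℝ) + 1 := by rw [div_le_iff₀ hkr]; exact h2'
    have e3 : ((a / k : ℤ) : ℝ) / 2 ^ 28 - (a : ℝ) / 2 ^ 28 / k =
        (((a / k : ℤ) : ℝ) - (a : ℝ) / k) / 2 ^ 28 := by ring
    rw [e3, abs_div, abs_of_nonneg (by positivity : (0 : ℝ) ≤ 2 ^ 28)]
    apply div_le_div_of_nonneg_right _ (by positivity)
    rw [abs_le]; constructor <;> linarith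
  have h4 : |vi a / k - A / k| ≤ ea / k := by
    rw [← sub_div, abs_div, abs_of_pos hkr]
    exact div_le_div_of_nonneg_right ha hkr.le
  have e : vi (a / k) - A / k = (vi (a / k) - vi a / k) + (vi a / k - A / k) := by ring
  rw [e]
  linarith [abs_add_le (vi (a / k) - vi a / k) (vi a / k - A / k)]

theorem st_one {a : ℤ} {A ea : ℝ} (ha : |vi a - A| ≤ ea) :
    |vi (268435456 - a) - (1 - A)| ≤ ea := by
  have e : vi (268435456 - a) - (1 - A) = -(vi a - A) := by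
    unfold vi; push_cast; ring
  rw [e, abs_neg]; exact ha

theorem st_sq {c s : ℤ} {w : ℂ} {δ : ℝ} (hw : ‖w‖ = 1) (h : ‖vc c s - w‖ ≤ δ) :
    ‖vc (mi c c - mi s s) (2 * mi c s) - w ^ 2‖ ≤ 2 * δ + δ ^ 2 + 3 / 2 ^ 28 := by
  have hδ : 0 ≤ δ := (norm_nonneg _).trans h
  have h1 := vi_mi c c
  have h2 := vi_mi s s
  have h3 := vi_mi c s
  have e1 : vc (mi c c - mi s s) (2 * mi c s) - w ^ 2 =
      (((vi (mi c c) - vi c * vi c - (vi (mi s s) - vi s * vi s) : ℝ) : ℂ) +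
        ((2 * (vi (mi c s) - vi c * vi s) : ℝ) : ℂ) * I) +
      (vc c s - w) * (vc c s - w + 2 * w) := by
    unfold vc
    have e2 : vi (mi c c - mi s s) = vi (mi c c) - vi (mi s s) := by unfold vi; push_cast; ring
    have e3 : vi (2 * mi c s) = 2 * vi (mi c s) := by unfold vi; push_cast; ring
    rw [e2, e3]
    push_cast
    linear_combination -(vi s : ℂ) ^ 2 * I_sq
  rw [e1]
  have h4 : ‖(vc c s - w) * (vc c s - w + 2 * w)‖ ≤ δ * (δ + 2) := by
    rw [norm_mul]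
    apply mul_le_mul h _ (norm_nonneg _) hδ
    refine (norm_add_le _ _).trans (add_le_add h ?_)
    rw [norm_mul, hw]
    norm_num
  have h5 : ‖(((vi (mi c c) - vi c * vi c - (vi (mi s s) - vi s * vi s) : ℝ) : ℂ) +
        ((2 * (vi (mi c s) - vi c * vi s) : ℝ) : ℂ) * I)‖ ≤ 3 / 2 ^ 28 := by
    refine (norm_add_le _ _).trans ?_
    rw [norm_mul, Complex.norm_I, mul_one, Complex.norm_real, Complex.norm_real, Real.norm_eq_abs,
      Real.norm_eq_abs]
    have a1 : |vi (mi c c) - vi c * vi c - (vi (mi s s) - vi s * vi s)| ≤ 1 / 2 ^ 28 := by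
      rw [abs_le]; constructor <;> linarith [h1.1, h1.2, h2.1, h2.2]
    have a2 : |2 * (vi (mi c s) - vi c * vi s)| ≤ 2 / 2 ^ 28 := by
      rw [abs_le]; constructor <;> linarith [h3.1, h3.2]
    linarith
  linarith [norm_add_le (((vi (mi c c) - vi c * vi c - (vi (mi s s) - vi s * vi s) : ℝ) : ℂ) +
        ((2 * (vi (mi c s) - vi c * vi s) : ℝ) : ℂ) * I) ((vc c s - w) * (vc c s - w + 2 * w))]

/-- Taylor polynomial of degree 7 -/
theorem st_taylor (X : ℝ) (hX : |X| ≤ 393 / 1000) :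
    ‖((1 - X ^ 2 * (1 - X ^ 2 * (1 - X ^ 2 / 30) / 12) / 2 : ℝ) : ℂ) +
      ((X * (1 - X ^ 2 * (1 - X ^ 2 / 20) / 6) : ℝ) : ℂ) * I - cexp (X * I)‖ ≤ 82 / 2 ^ 28 := by
  have hn : ‖(X : ℂ) * I‖ = |X| := by rw [norm_mul, Complex.norm_I, mul_one, Complex.norm_real, Real.norm_eq_abs]
  have h1 := Complex.exp_bound (x := (X : ℂ) * I) (by rw [hn]; linarith) (n := 8) (by norm_num)
  rw [hn] at h1
  have e1 : ∑ m ∈ Finset.range 8, ((X : ℂ) * I) ^ m / (m.factorial : ℂ) =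
      ((1 - X ^ 2 * (1 - X ^ 2 * (1 - X ^ 2 / 30) / 12) / 2 : ℝ) : ℂ) +
      ((X * (1 - X ^ 2 * (1 - X ^ 2 / 20) / 6) : ℝ) : ℂ) * I - ((X ^ 7 / 5040 : ℝ) : ℂ) * I := by
    simp only [Finset.sum_range_succ, Finset.sum_range_zero, Nat.factorial]
    have i2 : (I : ℂ) ^ 2 = -1 := I_sq
    have i3 : (I : ℂ) ^ 3 = -I := by rw [pow_succ, i2]; ring
    have i4 : (I : ℂ) ^ 4 = 1 := I_pow_four
    have i5 : (I : ℂ) ^ 5 = I := by rw [pow_succ, i4]; ring
    have i6 : (I : ℂ) ^ 6 = -1 := by rw [pow_succ, i5, ← sq, i2]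
    have i7 : (I : ℂ) ^ 7 = -I := by rw [pow_succ, i6]; ring
    simp only [mul_pow, i2, i3, i4, i5, i6, i7]
    push_cast
    ring
  rw [e1] at h1
  have h2 : |X| ^ 8 ≤ (393 / 1000) ^ 8 := pow_le_pow_left₀ (abs_nonneg _) hX 8
  have h3 : |X| ^ 7 ≤ (393 / 1000) ^ 7 := pow_le_pow_left₀ (abs_nonneg _) hX 7
  have h4 : ‖((X ^ 7 / 5040 : ℝ) : ℂ) * I‖ = |X| ^ 7 / 5040 := by
    rw [norm_mul, Complex.norm_I, mul_one, Complex.norm_real, Real.norm_eq_abs, abs_div, abs_pow,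
      abs_of_pos (by norm_num : (0 : ℝ) < 5040)]
  set P := ((1 - X ^ 2 * (1 - X ^ 2 * (1 - X ^ 2 / 30) / 12) / 2 : ℝ) : ℂ) +
      ((X * (1 - X ^ 2 * (1 - X ^ 2 / 20) / 6) : ℝ) : ℂ) * I with hP
  have e2 : P - cexp (X * I) = -(cexp (X * I) - (P - ((X ^ 7 / 5040 : ℝ) : ℂ) * I)) +
      ((X ^ 7 / 5040 : ℝ) : ℂ) * I := by ring
  rw [e2]
  refine (norm_add_le _ _).trans ?_
  rw [norm_neg, h4]
  refine (add_le_add h1 le_rfl).trans ?_
  norm_num [Nat.factorial] at h2 h3 ⊢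
  nlinarith

/-- the first approximation, at `X = vi x` -/
theorem st_base (x : ℤ) (hX : |vi x| ≤ 393 / 1000) :
    ‖vc (268435456 - (mi (mi x x) (268435456 - (mi (mi x x) (268435456 - (mi x x) / 30)) / 12)) / 2)
      (mi x (268435456 - (mi (mi x x) (268435456 - (mi x x) / 20)) / 6)) -
      cexp ((vi x : ℂ) * I)‖ ≤ 86 / 2 ^ 28 := by
  set X := vi x with hXd
  have hX2 : |X ^ 2| ≤ 16 / 100 := by
    rw [abs_pow]
    refine (pow_le_pow_left₀ (abs_nonneg _) hX 2).trans ?_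
    norm_num
  have hX2' : X ^ 2 ≤ 16 / 100 := (le_abs_self _).trans hX2
  have hX0 : 0 ≤ X ^ 2 := sq_nonneg _
  have h0 : |vi x - X| ≤ 0 := by rw [← hXd, sub_self, abs_zero]
  have hx2 : |vi (mi x x) - X ^ 2| ≤ 1 / 2 ^ 28 := by
    have := st_mi h0 h0 hX hX
    rw [sq]; linarith
  -- sine
  have s1 : |vi (mi x x / 20) - X ^ 2 / 20| ≤ (105 / 100) / 2 ^ 28 := by
    have := st_dv 20 (by norm_num) hx2
    push_cast at this
    refine this.trans ?_
    norm_num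
  have s2 := st_one s1
  have b2 : |1 - X ^ 2 / 20| ≤ 1 := by rw [abs_le]; constructor <;> linarith
  have s3 : |vi (mi (mi x x) (268435456 - mi x x / 20)) - X ^ 2 * (1 - X ^ 2 / 20)| ≤
      (22 / 10) / 2 ^ 28 := by
    refine (st_mi hx2 s2 hX2 b2).trans ?_
    norm_num
  have s4 : |vi (mi (mi x x) (268435456 - mi x x / 20) / 6) - X ^ 2 * (1 - X ^ 2 / 20) / 6| ≤
      (14 / 10) / 2 ^ 28 := by
    have := st_dv 6 (by norm_num) s3
    push_cast at this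
    refine this.trans ?_
    norm_num
  have s5 := st_one s4
  have b5 : |1 - X ^ 2 * (1 - X ^ 2 / 20) / 6| ≤ 1 := by
    have h1 : X ^ 2 * (1 - X ^ 2 / 20) ≤ 1 := by nlinarith
    have h2 : 0 ≤ X ^ 2 * (1 - X ^ 2 / 20) := mul_nonneg hX0 (by linarith)
    rw [abs_le]; constructor <;> linarith
  have s6 : |vi (mi x (268435456 - mi (mi x x) (268435456 - mi x x / 20) / 6)) -
      X * (1 - X ^ 2 * (1 - X ^ 2 / 20) / 6)| ≤ (16 / 10) / 2 ^ 28 := by
    refine (st_mi h0 s5 hX b5).trans ?_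
    norm_num
  -- cosine
  have c1 : |vi (mi x x / 30) - X ^ 2 / 30| ≤ (105 / 100) / 2 ^ 28 := by
    have := st_dv 30 (by norm_num) hx2
    push_cast at this
    refine this.trans ?_
    norm_num
  have c2 := st_one c1
  have d2 : |1 - X ^ 2 / 30| ≤ 1 := by rw [abs_le]; constructor <;> linarith
  have c3 : |vi (mi (mi x x) (268435456 - mi x x / 30)) - X ^ 2 * (1 - X ^ 2 / 30)| ≤
      (22 / 10) / 2 ^ 28 := by
    refine (st_mi hx2 c2 hX2 d2).trans ?_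
    norm_num
  have c4 : |vi (mi (mi x x) (268435456 - mi x x / 30) / 12) - X ^ 2 * (1 - X ^ 2 / 30) / 12| ≤
      (12 / 10) / 2 ^ 28 := by
    have := st_dv 12 (by norm_num) c3
    push_cast at this
    refine this.trans ?_
    norm_num
  have c5 := st_one c4
  have d5 : |1 - X ^ 2 * (1 - X ^ 2 / 30) / 12| ≤ 1 := by
    have h1 : X ^ 2 * (1 - X ^ 2 / 30) ≤ 1 := by nlinarith
    have h2 : 0 ≤ X ^ 2 * (1 - X ^ 2 / 30) := mul_nonneg hX0 (by linarith)
    rw [abs_le]; constructor <;> linarith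
  have c6 : |vi (mi (mi x x) (268435456 - mi (mi x x) (268435456 - mi x x / 30) / 12)) -
      X ^ 2 * (1 - X ^ 2 * (1 - X ^ 2 / 30) / 12)| ≤ (23 / 10) / 2 ^ 28 := by
    refine (st_mi hx2 c5 hX2 d5).trans ?_
    norm_num
  have c7 : |vi (mi (mi x x) (268435456 - mi (mi x x) (268435456 - mi x x / 30) / 12) / 2) -
      X ^ 2 * (1 - X ^ 2 * (1 - X ^ 2 / 30) / 12) / 2| ≤ (22 / 10) / 2 ^ 28 := by
    have := st_dv 2 (by norm_num) c6
    push_cast at this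
    refine this.trans ?_
    norm_num
  have c8 := st_one c7
  have ht := st_taylor X hX
  set cc := 268435456 - mi (mi x x) (268435456 - mi (mi x x) (268435456 - mi x x / 30) / 12) / 2
    with hcc
  set ss := mi x (268435456 - mi (mi x x) (268435456 - mi x x / 20) / 6) with hss
  set C := 1 - X ^ 2 * (1 - X ^ 2 * (1 - X ^ 2 / 30) / 12) / 2 with hC
  set S := X * (1 - X ^ 2 * (1 - X ^ 2 / 20) / 6) with hS
  have e : vc cc ss - cexp ((X : ℂ) * I) =
      (((vi cc - C : ℝ) : ℂ) + ((vi ss - S : ℝ) : ℂ) * I) + (((C : ℝ) : ℂ) + ((S : ℝ) : ℂ) * I - cexp (X * I)) := by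
    unfold vc; push_cast; ring
  rw [e]
  refine (norm_add_le _ _).trans ?_
  have h9 : ‖((vi cc - C : ℝ) : ℂ) + ((vi ss - S : ℝ) : ℂ) * I‖ ≤ (22 / 10) / 2 ^ 28 + (16 / 10) / 2 ^ 28 := by
    refine (norm_add_le _ _).trans ?_
    rw [norm_mul, Complex.norm_I, mul_one, Complex.norm_real, Complex.norm_real, Real.norm_eq_abs,
      Real.norm_eq_abs]
    exact add_le_add c8 s6
  refine (add_le_add h9 ht).trans ?_
  norm_num

/-- Taylor: `|x| ≤ π/8`, error `2.9e-7 + 1.4e-8`, times 8, plus rounding, `≤ 2000/2^28 = 7.45e-6`; `843314857 = ⌈π 2^28⌉` -/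
theorem start_sound {p : ℕ} (hp : vn p ≤ 4) :
    ‖vc (start p).1 (start p).2 - cexp (((Real.pi - vn p : ℝ) : ℂ) * I)‖ ≤ vn 2000 := by
  set x : ℤ := (843314857 - (p : ℤ)) / 8 with hx
  set θ : ℝ := (Real.pi - vn p) / 8 with hθ
  have hp0 : 0 ≤ vn p := by unfold vn; positivity
  have hpi1 := Real.pi_gt_d20
  have hpi2 := Real.pi_lt_d20
  have hv : |vi (843314857 - (p : ℤ)) - (Real.pi - vn p)| ≤ 1 / 2 ^ 28 := by
    have e : vi (843314857 - (p : ℤ)) - (Real.pi - vn p) = 843314857 / 2 ^ 28 - Real.pi := by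
      unfold vi vn; push_cast; ring
    rw [e, abs_le]
    constructor
    · norm_num; norm_num at hpi1 hpi2; linarith
    · norm_num; norm_num at hpi1 hpi2; linarith
  have hxθ : |vi x - θ| ≤ (1 / 2 ^ 28) / 8 + 1 / 2 ^ 28 := by
    have := st_dv 8 (by norm_num) hv
    push_cast at this
    exact this
  have hX : |vi x| ≤ 393 / 1000 := by
    have h1 := abs_le.mp hxθ
    rw [abs_le]
    norm_num at h1 hpi1 hpi2 ⊢
    constructor <;> linarith [h1.1, h1.2]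
  have hb := st_base x hX
  set c0 := 268435456 - (mi (mi x x) (268435456 - (mi (mi x x) (268435456 - (mi x x) / 30)) / 12)) / 2 with hc0
  set s0 := mi x (268435456 - (mi (mi x x) (268435456 - (mi x x) / 20)) / 6) with hs0
  set w : ℂ := cexp ((θ : ℂ) * I) with hw
  have hwn : ‖w‖ = 1 := Complex.norm_exp_ofReal_mul_I θ
  have hrot : ‖cexp ((vi x : ℂ) * I) - w‖ ≤ (1 / 2 ^ 28) / 8 + 1 / 2 ^ 28 := by
    have e : cexp ((vi x : ℂ) * I) - w = (cexp (I * ((vi x - θ : ℝ) : ℂ)) - 1) * w := by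
      rw [sub_mul, one_mul, hw, ← Complex.exp_add]
      congr 2
      push_cast; ring
    rw [e, norm_mul, hwn, mul_one]
    refine (Real.norm_exp_I_mul_ofReal_sub_one_le).trans ?_
    rw [Real.norm_eq_abs]
    exact hxθ
  have h0 : ‖vc c0 s0 - w‖ ≤ 88 / 2 ^ 28 := by
    have e : vc c0 s0 - w = (vc c0 s0 - cexp ((vi x : ℂ) * I)) + (cexp ((vi x : ℂ) * I) - w) := by ring
    rw [e]
    refine (norm_add_le _ _).trans ((add_le_add hb hrot).trans ?_)
    norm_num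
  have h1 := st_sq hwn h0
  have h1' : ‖vc (mi c0 c0 - mi s0 s0) (2 * mi c0 s0) - w ^ 2‖ ≤ 180 / 2 ^ 28 := by
    refine h1.trans ?_
    norm_num
  have hw2 : ‖w ^ 2‖ = 1 := by rw [norm_pow, hwn, one_pow]
  have h2 := st_sq hw2 h1'
  set c1 := mi c0 c0 - mi s0 s0 with hc1
  set s1 := 2 * mi c0 s0 with hs1
  have h2' : ‖vc (mi c1 c1 - mi s1 s1) (2 * mi c1 s1) - (w ^ 2) ^ 2‖ ≤ 370 / 2 ^ 28 := by
    refine h2.trans ?_
    norm_num
  have hw4 : ‖(w ^ 2) ^ 2‖ = 1 := by rw [norm_pow, hw2, one_pow]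
  have h3 := st_sq hw4 h2'
  set c2 := mi c1 c1 - mi s1 s1 with hc2
  set s2 := 2 * mi c1 s1 with hs2
  have hstart : start p = (mi c2 c2 - mi s2 s2, 2 * mi c2 s2) := rfl
  have hw8 : ((w ^ 2) ^ 2) ^ 2 = cexp (((Real.pi - vn p : ℝ) : ℂ) * I) := by
    rw [← pow_mul, ← pow_mul, hw, ← Complex.exp_nat_mul]
    congr 1
    rw [hθ]
    push_cast; ring
  rw [hstart, ← hw8]
  refine h3.trans ?_
  unfold vn
  norm_num

end Pool.Agent.helper31.A2
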