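import Pool.Agent.helper31.A2.LevS
import Pool.Agent.helper31.A2.Start

/-!
# A2: a cell
-/

namespace Pool.Agent.helper31.A2

open Complex ComplexConjugate Set Filter Topology
open Pool.Agent.helper31.EQ.Y Pool.Agent.helper31.EQ.R
open Pool.Agent.helper12.EQL Pool.Agent.helper12.RP Pool.Agent.helper12.FF
open Pool.Agent.helper63.FF
open Pool.Agent.helper31.EQB

/-- `fT (conj t) = conj (fT t)`, so `MB` is symmetric -/
theorem MB_conj {e κ M : ℝ} {t : ℂ} (he : 0 < e) (hκ : 0 < κ) (ht : 0 < t.re)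
    (h : MB e κ M (conj t)) : MB e κ M t := by
  have _ := he
  unfold MB at h ⊢
  have h1 : fT e κ =ᶠ[𝓝 t] (conj ∘ fT e κ ∘ conj) := by
    have ho : ∀ᶠ z : ℂ in 𝓝 t, 0 < z.re :=
      Complex.continuous_re.continuousAt.eventually (isOpen_Ioi.mem_nhds ht)
    filter_upwards [ho] with z hz
    rw [Function.comp_apply, Function.comp_apply, fT_conj hκ hz, conj_conj]
  have h2 : deriv (fT e κ) t = conj (deriv (fT e κ) (conj t)) := by
    rw [h1.deriv_eq, deriv_conj_conj]
    rfl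
  rw [h2, Complex.norm_conj]
  rwa [fT_conj hκ ht, Complex.norm_conj] at h

private theorem vn_nn (n : ℕ) : 0 ≤ vn n := by
  unfold vn
  positivity

private theorem vn_mono {a b : ℕ} (h : a ≤ b) : vn a ≤ vn b := by
  unfold vn
  have : (a : ℝ) ≤ b := by exact_mod_cast h
  gcongr

private theorem vn_add (a b : ℕ) : vn (a + b) = vn a + vn b := by
  unfold vn
  push_cast
  ring

private theorem vn_mul (a b : ℕ) : vn (a * b) = a * vn b := by
  unfold vn
  push_cast
  ring

private theorem div_lt' {a b : ℕ} (hb : 0 < b) : (a : ℝ) / b ≤ ((a / b + 1 : ℕ) : ℝ) := by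
  have h1 : a < b * (a / b + 1) := Nat.lt_mul_div_succ a hb
  have h2 : (a : ℝ) < (b : ℝ) * ((a / b + 1 : ℕ) : ℝ) := by exact_mod_cast h1
  have hb' : (0 : ℝ) < b := by exact_mod_cast hb
  rw [div_le_iff₀ hb', mul_comm]
  exact h2.le

private theorem vn_half (a : ℕ) : vn a / 2 ≤ vn (Nat.succ (Nat.shiftRight a 1)) := by
  have e1 : Nat.succ (Nat.shiftRight a 1) = a / 2 + 1 := rfl
  have h := div_lt' (a := a) (b := 2) (by norm_num)
  rw [e1]
  unfold vn
  push_cast at h ⊢
  linarith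

private theorem vn_third (a : ℕ) : vn a / 3 ≤ vn (Nat.succ (Nat.div a 3)) := by
  have e1 : Nat.succ (Nat.div a 3) = a / 3 + 1 := rfl
  have h := div_lt' (a := a) (b := 3) (by norm_num)
  rw [e1]
  unfold vn
  push_cast at h ⊢
  linarith

/-- the constants: `1/e ≤ 1/200`, `S/e ≤ Wb`, `y ≥ ya` gives `1/e ≤ Wb/ya²`; `1/e ≥ 1/500`, `1/e ≥ Wa/(25 + yb²)` (`S ≤ 25 + y²`);
`K² = β²/e² ≤ 25/e²`, `K² ≤ S/e² ≤ Wb/e`; if `ml ya ya = 0` the `min` is `1342178` -/
theorem mkC_ok {e κ : ℝ} {ya yb Wa Wb : ℕ} (he : 200 ≤ e) (he5 : e ≤ 500) (hκ : 0 < κ)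
    (hb : bet e κ ≤ 5) (hyb : vn yb ≤ 7 / 2) {t : ℂ} (h1 : vn ya ≤ |yz e κ t|)
    (h2 : |yz e κ t| ≤ vn yb) (h3 : vn Wa ≤ Sz e κ t / e) (h4 : Sz e κ t / e ≤ vn Wb) :
    CcOK e κ (mkC ya yb Wa Wb) := by
  have he0 : 0 < e := by linarith
  have hK0 : 0 < Real.sinh κ := Real.sinh_pos_iff.2 hκ
  have hβ : 0 < bet e κ := mul_pos he0 hK0
  have hbe : bet e κ = e * Real.sinh κ := rfl
  have hy2 : yz e κ t ^ 2 = |yz e κ t| ^ 2 := (sq_abs _).symm
  have hya0 := vn_nn ya
  have hyb0 := vn_nn yb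
  have hS : Sz e κ t = bet e κ ^ 2 + yz e κ t ^ 2 := rfl
  have hβ2 : bet e κ ^ 2 ≤ 25 := by nlinarith
  have hyl : vn ya ^ 2 ≤ yz e κ t ^ 2 := by rw [hy2]; exact pow_le_pow_left₀ hya0 h1 2
  have hyu : yz e κ t ^ 2 ≤ vn yb ^ 2 := by
    rw [hy2]; exact pow_le_pow_left₀ (abs_nonneg _) h2 2
  have hWb0 : 0 < vn Wb := by
    refine lt_of_lt_of_le ?_ h4
    rw [hS]; positivity
  have hWbn : 0 < Wb := by
    rcases Nat.eq_zero_or_pos Wb with h | h
    · rw [h] at hWb0; unfold vn at hWb0; norm_num at hWb0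
    · exact h
  -- E
  obtain ⟨E, hE⟩ : ∃ E, E = min 1342178 (Nat.succ (Nat.div (Nat.mul Wb 268435456)
    (max 1 (ml ya ya)))) := ⟨_, rfl⟩
  have hE1 : E ≤ 1342178 := by rw [hE]; exact min_le_left _ _
  have hinv : 1 / e ≤ vn E := by
    have c1 : 1 / e ≤ vn 1342178 := by
      have : 1 / e ≤ 1 / 200 := one_div_le_one_div_of_le (by norm_num) he
      refine this.trans ?_
      unfold vn; norm_num
    have c2 : 1 / e ≤ vn (Nat.succ (Nat.div (Nat.mul Wb 268435456) (max 1 (ml ya ya)))) := by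
      rcases Nat.eq_zero_or_pos (ml ya ya) with h | h
      · rw [h]
        have e1 : Nat.succ (Nat.div (Nat.mul Wb 268435456) (max 1 0)) = Wb * 268435456 / 1 + 1 := rfl
        rw [e1, Nat.div_one]
        refine c1.trans (vn_mono ?_)
        omega
      · have e1 : max 1 (ml ya ya) = ml ya ya := max_eq_right h
        rw [e1]
        have e2 : Nat.succ (Nat.div (Nat.mul Wb 268435456) (ml ya ya)) =
          Wb * 268435456 / ml ya ya + 1 := rfl
        rw [e2]
        have h5 := div_lt' (a := Wb * 268435456) h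
        have h6 : (0 : ℝ) < ml ya ya := by exact_mod_cast h
        have h7 : vn (ml ya ya) ≤ vn ya ^ 2 := by rw [pow_two]; exact vn_ml ya ya
        have h8 : vn (ml ya ya) / e ≤ vn Wb := by
          refine le_trans ?_ h4
          apply div_le_div_of_nonneg_right _ he0.le
          rw [hS]
          have := sq_nonneg (bet e κ)
          linarith
        have h9 : 0 < vn (ml ya ya) := by unfold vn; positivity
        have h10 : 1 / e ≤ vn Wb / vn (ml ya ya) := by
          rw [le_div_iff₀ h9]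
          calc 1 / e * vn (ml ya ya) = vn (ml ya ya) / e := by ring
            _ ≤ vn Wb := h8
        refine h10.trans ?_
        have h11 : vn Wb / vn (ml ya ya) = ((Wb * 268435456 : ℕ) : ℝ) / (ml ya ya : ℕ) / 2 ^ 28 := by
          unfold vn
          push_cast
          field_simp
          norm_num
        rw [h11]
        unfold vn
        exact div_le_div_of_nonneg_right h5 (by norm_num)
    rw [hE]
    rcases min_choice 1342178 (Nat.succ (Nat.div (Nat.mul Wb 268435456) (max 1 (ml ya ya)))) with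
      h | h
    · rw [h]; exact c1
    · rw [h]; exact c2
  have hEn := vn_nn E
  -- E'
  obtain ⟨E', hE'⟩ : ∃ E', E' = max 536870 (Nat.div (Nat.mul Wa 268435456)
    (Nat.add 6710886400 (mu yb yb))) := ⟨_, rfl⟩
  have hinv' : vn E' ≤ 1 / e := by
    have c1 : vn 536870 ≤ 1 / e := by
      have : 1 / 500 ≤ 1 / e := one_div_le_one_div_of_le he0 he5
      refine le_trans ?_ this
      unfold vn; norm_num
    have c2 : vn (Nat.div (Nat.mul Wa 268435456) (Nat.add 6710886400 (mu yb yb))) ≤ 1 / e := by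
      have e1 : Nat.div (Nat.mul Wa 268435456) (Nat.add 6710886400 (mu yb yb)) =
        Wa * 268435456 / (6710886400 + mu yb yb) := rfl
      rw [e1]
      have h5 : ((Wa * 268435456 / (6710886400 + mu yb yb) : ℕ) : ℝ) ≤
        ((Wa * 268435456 : ℕ) : ℝ) / ((6710886400 + mu yb yb : ℕ) : ℝ) := Nat.cast_div_le
      have h6 : (0 : ℝ) < ((6710886400 + mu yb yb : ℕ) : ℝ) := by positivity
      have h7 := vn_mu yb yb
      have h8 : Sz e κ t ≤ vn (6710886400 + mu yb yb) := by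
        rw [vn_add, hS]
        have : vn 6710886400 = 25 := by unfold vn; norm_num
        rw [this]
        nlinarith
      have h9 : vn Wa ≤ vn (6710886400 + mu yb yb) / e :=
        h3.trans (div_le_div_of_nonneg_right h8 he0.le)
      have h10 : 0 < vn (6710886400 + mu yb yb) := by
        rw [vn_add]
        have : vn 6710886400 = 25 := by unfold vn; norm_num
        rw [this]
        have := vn_nn (mu yb yb)
        linarith
      have h11 : vn Wa / vn (6710886400 + mu yb yb) ≤ 1 / e := by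
        rw [div_le_iff₀ h10]
        calc vn Wa ≤ vn (6710886400 + mu yb yb) / e := h9
          _ = _ := by ring
      refine le_trans ?_ h11
      have h12 : vn Wa / vn (6710886400 + mu yb yb) =
          ((Wa * 268435456 : ℕ) : ℝ) / ((6710886400 + mu yb yb : ℕ) : ℝ) / 2 ^ 28 := by
        unfold vn
        push_cast
        field_simp
        norm_num
      rw [h12]
      unfold vn
      exact div_le_div_of_nonneg_right h5 (by norm_num)
    rw [hE']
    rcases max_choice 536870 (Nat.div (Nat.mul Wa 268435456)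
      (Nat.add 6710886400 (mu yb yb))) with h | h
    · rw [h]; exact c1
    · rw [h]; exact c2
  -- k2
  obtain ⟨k2, hk2⟩ : ∃ k2, k2 = min (Nat.mul 25 (mu E E)) (mu Wb E) := ⟨_, rfl⟩
  have hKe : Real.sinh κ ^ 2 = bet e κ ^ 2 / e * (1 / e) := by
    rw [hbe]; field_simp
  have hK2 : Real.sinh κ ^ 2 ≤ vn k2 := by
    have c1 : Real.sinh κ ^ 2 ≤ vn (Nat.mul 25 (mu E E)) := by
      have e1 : Nat.mul 25 (mu E E) = 25 * mu E E := rfl
      rw [e1, vn_mul]
      have h5 := vn_mu E E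
      have h6 : Real.sinh κ ^ 2 = bet e κ ^ 2 * (1 / e * (1 / e)) := by rw [hKe]; ring
      rw [h6]
      have h7 : 1 / e * (1 / e) ≤ vn (mu E E) :=
        (mul_le_mul hinv hinv (by positivity) hEn).trans h5
      push_cast
      exact mul_le_mul hβ2 h7 (by positivity) (by norm_num)
    have c2 : Real.sinh κ ^ 2 ≤ vn (mu Wb E) := by
      refine le_trans ?_ (vn_mu Wb E)
      rw [hKe]
      apply mul_le_mul _ hinv (by positivity) hWb0.le
      refine le_trans ?_ h4
      apply div_le_div_of_nonneg_right _ he0.le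
      rw [hS]
      have := sq_nonneg (yz e κ t)
      linarith
    rw [hk2]
    rcases min_choice (Nat.mul 25 (mu E E)) (mu Wb E) with h | h
    · rw [h]; exact c1
    · rw [h]; exact c2
  have hk2u : k2 ≤ 500000 := by
    rw [hk2]
    refine (min_le_left _ _).trans ?_
    have e1 : Nat.mul 25 (mu E E) = 25 * (E * E / 2 ^ 28 + 1) := by
      have e2 : mu E E = E * E / 2 ^ 28 + 1 := by
        unfold mu
        rw [Nat.succ_eq_add_one]
        congr 1
        exact Nat.shiftRight_eq_div_pow _ _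
      rw [e2]; rfl
    rw [e1]
    have h5 : E * E ≤ 1342178 * 1342178 := Nat.mul_le_mul hE1 hE1
    have h6 : E * E / 2 ^ 28 ≤ 1342178 * 1342178 / 2 ^ 28 := Nat.div_le_div_right h5
    have h7 : 1342178 * 1342178 / 2 ^ 28 = 6710 := by norm_num
    omega
  have hmk : mkC ya yb Wa Wb = ⟨E, E', k2, Nat.add 268435456 (Nat.succ (Nat.shiftRight k2 1)),
      Nat.succ (Nat.shiftRight k2 1), yb, mu yb yb, mu (mu (mu yb yb) E) E,
      Nat.succ (Nat.div (mu yb (mu (mu (mu yb yb) E) E)) 3), Wb⟩ := by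
    rw [hk2, hE', hE]
    rfl
  rw [hmk]
  have hyy : vn yb ^ 2 * vn E ^ 2 ≤ vn (mu (mu (mu yb yb) E) E) := by
    have g1 := vn_mu yb yb
    have g2 := vn_mu (mu yb yb) E
    have g3 := vn_mu (mu (mu yb yb) E) E
    have g4 : vn yb * vn yb * vn E ≤ vn (mu (mu yb yb) E) :=
      (mul_le_mul_of_nonneg_right g1 hEn).trans g2
    have g5 := mul_le_mul_of_nonneg_right g4 hEn
    calc vn yb ^ 2 * vn E ^ 2 = vn yb * vn yb * vn E * vn E := by ring
      _ ≤ _ := g5.trans g3
  refine ⟨he, hκ, ?_, hinv, ?_, hinv', hK2, vn_half k2, ?_, ?_, hyb, ?_, hyy, ?_⟩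
  · have h5 : e * Real.sinh κ ≤ 5 := hb
    nlinarith
  · refine (vn_mono hE1).trans ?_
    unfold vn; norm_num
  · have e1 : Nat.succ (Nat.shiftRight k2 1) = k2 / 2 + 1 := rfl
    change vn (Nat.succ (Nat.shiftRight k2 1)) ≤ _
    rw [e1]
    refine (vn_mono (show k2 / 2 + 1 ≤ 250001 by omega)).trans ?_
    unfold vn; norm_num
  · change vn (268435456 + Nat.succ (Nat.shiftRight k2 1)) = _
    rw [vn_add]
    have : vn 268435456 = 1 := by unfold vn; norm_num
    rw [this]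
  · change vn yb ^ 2 ≤ _
    rw [pow_two]
    exact vn_mu yb yb
  · change vn yb ^ 3 * vn E ^ 2 / 3 ≤ _
    refine le_trans ?_ (vn_third _)
    have g1 := vn_mu yb (mu (mu (mu yb yb) E) E)
    have g2 := mul_le_mul_of_nonneg_left hyy hyb0
    have g3 : vn yb ^ 3 * vn E ^ 2 = vn yb * (vn yb ^ 2 * vn E ^ 2) := by ring
    rw [g3]
    linarith

/-- lower bound of `lam` -/
private theorem lamN_le {K : ℝ} {c : Cc} {X : ℕ} (hK0 : 0 < K) (hK : K ≤ 1 / 40)
    (hk : K ^ 2 ≤ vn c.k2) : vn (lamN c X) ≤ lam K (vn X) := by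
  have hX0 := vn_nn X
  have hl0 : 0 ≤ lam K (vn X) := lam_nonneg hK0.le (by linarith) hX0
  obtain ⟨w, hw⟩ : ∃ w, w = Nat.add 44739243 (Nat.succ (Nat.div (Nat.mul 4 (mu X X)) 3)) := ⟨_, rfl⟩
  have hw1 : 1 / 6 + 4 / 3 * vn X ^ 2 ≤ vn w := by
    have e1 : w = 44739243 + Nat.succ (Nat.div (Nat.mul 4 (mu X X)) 3) := hw
    rw [e1, vn_add]
    have h1 := vn_third (Nat.mul 4 (mu X X))
    have h2 : vn (Nat.mul 4 (mu X X)) = 4 * vn (mu X X) := by
      have := vn_mul 4 (mu X X)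
      push_cast at this
      exact this
    rw [h2] at h1
    have h3 := vn_mu X X
    have h4 : (1 : ℝ) / 6 ≤ vn 44739243 := by unfold vn; norm_num
    nlinarith
  have hb : vn X * (K ^ 2 * (1 / 6 + 4 / 3 * vn X ^ 2)) ≤ vn (mu X (mu c.k2 w)) := by
    have g1 := vn_mu c.k2 w
    have g2 := vn_mu X (mu c.k2 w)
    have g3 : K ^ 2 * (1 / 6 + 4 / 3 * vn X ^ 2) ≤ vn c.k2 * vn w :=
      mul_le_mul hk hw1 (by positivity) (vn_nn _)
    exact (mul_le_mul_of_nonneg_left (g3.trans g1) hX0).trans g2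
  have hlam : vn X - vn X * (K ^ 2 * (1 / 6 + 4 / 3 * vn X ^ 2)) ≤ lam K (vn X) := by
    obtain ⟨x, hx⟩ : ∃ x, x = vn X := ⟨_, rfl⟩
    rw [← hx] at hX0 ⊢
    unfold lam
    have hK2 : K ^ 2 ≤ (1 / 40) ^ 2 := pow_le_pow_left₀ hK0.le hK 2
    obtain ⟨f, hf⟩ : ∃ f, f = 1 - K ^ 2 / 6 := ⟨_, rfl⟩
    rw [← hf]
    have hf0 : 0 < f := by rw [hf]; nlinarith
    have hf1 : f ≤ 1 := by rw [hf]; nlinarith [sq_nonneg K]
    obtain ⟨u, hu⟩ : ∃ u, u = (2 * (K * f) * x) ^ 2 / 3 := ⟨_, rfl⟩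
    rw [← hu]
    have hu0 : 0 ≤ u := by rw [hu]; positivity
    have hu1 : u ≤ 4 / 3 * (K ^ 2 * x ^ 2) := by
      rw [hu]
      have g1 : (2 * (K * f) * x) ^ 2 / 3 = 4 / 3 * (K ^ 2 * x ^ 2) * f ^ 2 := by ring
      rw [g1]
      apply mul_le_of_le_one_right (by positivity)
      exact pow_le_one₀ hf0.le hf1
    have h1 : 1 - u ≤ 1 / (1 + u) := by
      rw [le_div_iff₀ (by linarith)]
      nlinarith
    have h2 : f * x * (1 - u) ≤ f * x / (1 + u) := by
      have := mul_le_mul_of_nonneg_left h1 (by positivity : 0 ≤ f * x)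
      calc f * x * (1 - u) ≤ f * x * (1 / (1 + u)) := this
        _ = _ := by ring
    have h3 : f * x / (1 + u) ≤ f * x / (1 + u) * (1 + thf K x ^ 2 / 4) := by
      apply le_mul_of_one_le_right (by positivity)
      have := sq_nonneg (thf K x)
      linarith
    have h4 : x - x * (K ^ 2 * (1 / 6 + 4 / 3 * x ^ 2)) ≤ f * x * (1 - u) := by
      have g2 : x * (1 - K ^ 2 / 6 - 4 / 3 * (K ^ 2 * x ^ 2)) ≤ x * (f * (1 - u)) := by
        apply mul_le_mul_of_nonneg_left _ hX0
        have g3 : f * u ≤ u := mul_le_of_le_one_left hu0 hf1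
        have g4 : f * (1 - u) = f - f * u := by ring
        rw [g4]
        linarith
      linarith
    linarith
  have e1 : lamN c X = X - mu X (mu c.k2 w) := by rw [hw]; rfl
  rw [e1]
  rcases le_total (mu X (mu c.k2 w)) X with h | h
  · have h5 : vn (X - mu X (mu c.k2 w)) = vn X - vn (mu X (mu c.k2 w)) := by
      unfold vn
      rw [Nat.cast_sub h]
      ring
    rw [h5]
    linarith
  · rw [Nat.sub_eq_zero_of_le h]
    have : vn 0 = 0 := by unfold vn; norm_num
    rw [this]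
    exact hl0

private theorem dd_ge (c : Cc) (rh : ℕ) : 268435456 ≤ ddf c rh := Nat.le_add_right _ _

private theorem nyl_le {dd yl : ℕ} (h : 268435456 ≤ dd) : nyl dd yl ≤ yl := by
  change yl * 268435456 / dd ≤ yl
  apply Nat.div_le_of_le_mul
  rw [mul_comm]
  exact Nat.mul_le_mul_right _ h

private theorem nwl_le {dd wl : ℕ} (h : 268435456 ≤ dd) : nwl dd wl ≤ wl :=
  (nyl_le (yl := nyl dd wl) h).trans (nyl_le h)

section

variable {e κ : ℝ} {c : Cc} {z : ℂ} {B : ℕ}

/-- some window contains the point -/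
private theorem win_claim (he : 0 < e) (hκ : 0 < κ) (hz : 0 < z.re) (hyh : yz e κ z ≤ vn c.yh)
    (hwh : Sz e κ z / e ≤ vn c.wh) : ∀ (n : ℕ) (ms : List ℕ) (rl rh yl wl : ℕ),
    LS e κ c ms rl rh yl wl → vn yl ≤ yz e κ z → vn wl ≤ Sz e κ z / e → vn rl ≤ rz e κ z →
    rz e κ z ≤ vn (rh + n * c.wh) → (∀ i, i ≤ n → ms.getD i 0 ≠ 0 ∧ ms.getD i 0 ≤ B) →
    MB e κ ((B : ℝ) / 1024) z := by
  intro n
  induction n with
  | zero =>
    intro ms rl rh yl wl hLS h1 h2 h3 h4 h5
    match ms, hLS, h5 with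
    | [], _, h5 => exact absurd rfl (h5 0 le_rfl).1
    | M :: t, hLS, h5 =>
      obtain ⟨hM, -, -⟩ := hLS
      obtain ⟨g1, g2⟩ := h5 0 le_rfl
      rw [zero_mul, add_zero] at h4
      refine (hM g1 z ⟨hz, h3, h4, h1, hyh, h2, hwh⟩).mono he hκ ?_
      have : (M : ℝ) ≤ B := by exact_mod_cast g2
      linarith
  | succ n ih =>
    intro ms rl rh yl wl hLS h1 h2 h3 h4 h5
    match ms, hLS, h5 with
    | [], _, h5 => exact absurd rfl (h5 0 (Nat.zero_le _)).1
    | M :: t, hLS, h5 =>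
      obtain ⟨hM, hn, hL⟩ := hLS
      rcases le_or_gt (rz e κ z) (vn rh) with h | h
      · obtain ⟨g1, g2⟩ := h5 0 (Nat.zero_le _)
        refine (hM g1 z ⟨hz, h3, h, h1, hyh, h2, hwh⟩).mono he hκ ?_
        have : (M : ℝ) ≤ B := by exact_mod_cast g2
        linarith
      · refine ih t _ _ _ _ hL ?_ ?_ ?_ ?_ ?_
        · exact (vn_mono (nyl_le (dd_ge c rh))).trans h1
        · exact (vn_mono (nwl_le (dd_ge c rh))).trans h2
        · exact (vn_mono hn).trans h.le
        · refine h4.trans (le_of_eq ?_)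
          congr 1
          ring
        · intro i hi
          exact h5 (i + 1) (by omega)

/-- the start window -/
private theorem pos_claim (he : 0 < e) (hκ : 0 < κ) (hz : 0 < z.re) (hyh : yz e κ z ≤ vn c.yh)
    (hwh : Sz e κ z / e ≤ vn c.wh) {Wa : ℕ} : ∀ (j n N : ℕ) (ms : List ℕ) (X rl rh yl wl : ℕ),
    j < n → j ≤ N → posOK c Wa n X rl rh yl wl = true →
    LS e κ c ms rl rh yl wl → vn yl ≤ yz e κ z → vn wl ≤ Sz e κ z / e →
    vn (ml (lamN c (X + j * 268435456)) Wa) ≤ rz e κ z →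
    rz e κ z ≤ vn (rh + N * c.wh) → (∀ i, j ≤ i → i ≤ N → ms.getD i 0 ≠ 0 ∧ ms.getD i 0 ≤ B) →
    MB e κ ((B : ℝ) / 1024) z := by
  intro j
  induction j with
  | zero =>
    intro n N ms X rl rh yl wl hn hN hp hLS h1 h2 h3 h4 h5
    obtain ⟨n, rfl⟩ : ∃ m, n = m + 1 := ⟨n - 1, by omega⟩
    have hp' : (Nat.ble rl (ml (lamN c X) Wa) && posOK c Wa n (X + 268435456)
      (nrl c rl wl (r2f c rl) (fcf c rl)) (rh + c.wh) (nyl (ddf c rh) yl)
      (nwl (ddf c rh) wl)) = true := hp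
    rw [Bool.and_eq_true] at hp'
    have hrl : rl ≤ ml (lamN c X) Wa := Nat.le_of_ble_eq_true hp'.1
    rw [zero_mul, add_zero] at h3
    exact win_claim he hκ hz hyh hwh N ms rl rh yl wl hLS h1 h2 ((vn_mono hrl).trans h3) h4
      (fun i hi => h5 i (Nat.zero_le _) hi)
  | succ j ih =>
    intro n N ms X rl rh yl wl hn hN hp hLS h1 h2 h3 h4 h5
    obtain ⟨n, rfl⟩ : ∃ m, n = m + 1 := ⟨n - 1, by omega⟩
    obtain ⟨N, rfl⟩ : ∃ m, N = m + 1 := ⟨N - 1, by omega⟩
    have hp' : (Nat.ble rl (ml (lamN c X) Wa) && posOK c Wa n (X + 268435456)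
      (nrl c rl wl (r2f c rl) (fcf c rl)) (rh + c.wh) (nyl (ddf c rh) yl)
      (nwl (ddf c rh) wl)) = true := hp
    rw [Bool.and_eq_true] at hp'
    match ms, hLS, h5 with
    | [], _, h5 => exact absurd rfl (h5 (j + 1) le_rfl hN).1
    | M :: t, hLS, h5 =>
      obtain ⟨-, -, hL⟩ := hLS
      refine ih n N t (X + 268435456) _ _ _ _ (by omega) (by omega) hp'.2 hL ?_ ?_ ?_ ?_ ?_
      · exact (vn_mono (nyl_le (dd_ge c rh))).trans h1
      · exact (vn_mono (nwl_le (dd_ge c rh))).trans h2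
      · have e1 : X + 268435456 + j * 268435456 = X + (j + 1) * 268435456 := by ring
        rw [e1]
        exact h3
      · refine h4.trans (le_of_eq ?_)
        congr 1
        ring
      · intro i h6 h7
        exact h5 (i + 1) (by omega) (by omega)

end

/-- **soundness of a cell**: the windows `j` and `j + 1` overlap (`nrl ≤ rh` in `LS`), `rh` of the window `10` is `≥ (13/10 + 10) Wb`; a point of
position `≥ 3/10 + j` has `r ≥ lam K (3/10 + j) S/e ≥ rl_j` (`om_rz`, `posOK`) -/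
theorem cell_sound {e κ : ℝ} {ya yb Wa Wb : ℕ} {ms : List ℕ} (he : 200 ≤ e) (he5 : e ≤ 500)
    (hκ : 0 < κ) (hb : bet e κ ≤ 5) (hyb : vn yb ≤ 7 / 2) (hab : ya ≤ yb) (hW : 0 < Wa)
    (h : cellOK ya yb Wa Wb ms = true) : CellP e κ ya yb Wa Wb ms := by
  have _ := hW
  have he0 : 0 < e := by linarith
  have hK0 : 0 < Real.sinh κ := Real.sinh_pos_iff.2 hκ
  -- the case `y ≥ 0`
  have key : ∀ j B : ℕ, j ≤ 4 → (∀ i, j ≤ i → i ≤ 10 → ms.getD i 0 ≠ 0 ∧ ms.getD i 0 ≤ B) →
      ∀ z : ℂ, 0 < z.re → om κ (3 / 10 + j) z → 0 ≤ yz e κ z → vn ya ≤ yz e κ z →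
      yz e κ z ≤ vn yb → vn Wa ≤ Sz e κ z / e → Sz e κ z / e ≤ vn Wb →
      rz e κ z ≤ 11 * (Sz e κ z / e) → MB e κ ((B : ℝ) / 1024) z := by
    intro j B hj hms z hz hom hy0 hya hyb' hWa hWb hr
    have C : CcOK e κ (mkC ya yb Wa Wb) := mkC_ok he he5 hκ hb hyb (t := z)
      (by rw [abs_of_nonneg hy0]; exact hya) (by rw [abs_of_nonneg hy0]; exact hyb') hWa hWb
    have h' : ((lev (mkC ya yb Wa Wb) ms (Nat.div (Nat.mul 28 Wa) 100)
        (Nat.succ (Nat.div (Nat.mul 13 Wb) 10)) ya Wa 0 (Nat.shiftRight (Nat.add ya yb) 1)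
        268435456 2000 (start (Nat.shiftRight (Nat.add ya yb) 1)).1
        (start (Nat.shiftRight (Nat.add ya yb) 1)).2).ok &&
      posOK (mkC ya yb Wa Wb) Wa 5 80530636 (Nat.div (Nat.mul 28 Wa) 100)
        (Nat.succ (Nat.div (Nat.mul 13 Wb) 10)) ya Wa) = true := h
    rw [Bool.and_eq_true] at h'
    obtain ⟨h1, h2⟩ := h'
    obtain ⟨p, hp⟩ : ∃ p, p = Nat.shiftRight (Nat.add ya yb) 1 := ⟨_, rfl⟩
    rw [← hp] at h1
    have hpb : p ≤ yb := by
      have : p = (ya + yb) / 2 := hp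
      omega
    have hp4 : vn p ≤ 4 := by linarith [vn_mono hpb]
    have hst := start_sound hp4
    have hv0 : vn 0 = 0 := by unfold vn; norm_num
    have hv1 : vn 268435456 = 1 := by unfold vn; norm_num
    obtain ⟨-, hLS⟩ := lev_sound C ms _ _ ya Wa 0 p 268435456 2000 _ _
      (by rw [hv0, hv1, neg_zero, Real.exp_zero]) (by norm_num) (by norm_num)
      (by rw [hv0, Complex.ofReal_zero, neg_zero, zero_add]; exact hst) h1
    obtain ⟨c, hc⟩ : ∃ c, c = mkC ya yb Wa Wb := ⟨_, rfl⟩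
    have hcy : c.yh = yb := by rw [hc]; rfl
    have hcw : c.wh = Wb := by rw [hc]; rfl
    rw [← hc] at hLS h2 C
    have hk2 : Real.sinh κ ^ 2 ≤ vn c.k2 := C.k2
    refine pos_claim he0 hκ hz (by rw [hcy]; exact hyb') (by rw [hcw]; exact hWb) j 5 10 ms 80530636
      _ _ ya Wa (by omega) (by omega) h2 hLS hya hWa ?_ ?_ hms
    · -- lower bound of `r`
      have g1 := vn_ml (lamN c (80530636 + j * 268435456)) Wa
      have g2 := lamN_le (X := 80530636 + j * 268435456) hK0 C.K1 hk2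
      have g3 : vn (80530636 + j * 268435456) ≤ 3 / 10 + j := by
        rw [vn_add, vn_mul, hv1]
        have : vn 80530636 ≤ 3 / 10 := by unfold vn; norm_num
        linarith
      have g4 : om κ (vn (80530636 + j * 268435456)) z := om_mono hκ hom g3
      have g5 := om_rz he0 hκ (by linarith [C.K1]) (vn_nn _) hz g4
      refine g1.trans (le_trans ?_ g5)
      rw [mul_div_assoc]
      have g6 : 0 ≤ lam (Real.sinh κ) (vn (80530636 + j * 268435456)) :=
        lam_nonneg hK0.le (by linarith [C.K1]) (vn_nn _)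
      exact mul_le_mul g2 hWa (vn_nn _) g6
    · refine hr.trans ?_
      rw [vn_add, hcw, vn_mul]
      have g1 : 13 / 10 * vn Wb ≤ vn (Nat.succ (Nat.div (Nat.mul 13 Wb) 10)) := by
        have e1 : Nat.succ (Nat.div (Nat.mul 13 Wb) 10) = 13 * Wb / 10 + 1 := rfl
        have g2 := div_lt' (a := 13 * Wb) (b := 10) (by norm_num)
        rw [e1]
        unfold vn
        push_cast at g2 ⊢
        linarith
      have g3 := vn_nn Wb
      push_cast
      linarith
  intro j B hj hms z hz hom hya hyb' hWa hWb hr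
  rcases le_total 0 (yz e κ z) with h0 | h0
  · rw [abs_of_nonneg h0] at hya hyb'
    exact key j B hj hms z hz hom h0 hya hyb' hWa hWb hr
  · rw [abs_of_nonpos h0] at hya hyb'
    have c1 : yz e κ (conj z) = -yz e κ z := by unfold yz; rw [conj_im]; ring
    have c2 : rz e κ (conj z) = rz e κ z := by unfold rz; rw [conj_re]
    have c3 : Sz e κ (conj z) = Sz e κ z := by unfold Sz; rw [c1]; ring
    have c4 : om κ (3 / 10 + j) (conj z) := by
      unfold om at hom ⊢
      have e1 : conj z - 1 = conj (z - 1) := by rw [map_sub, map_one]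
      have e2 : conj z + 1 = conj (z + 1) := by rw [map_add, map_one]
      rw [e1, e2, Complex.norm_conj, Complex.norm_conj]
      exact hom
    apply MB_conj he0 hκ hz
    refine key j B hj hms (conj z) (by rw [conj_re]; exact hz) c4 ?_ ?_ ?_ ?_ ?_ ?_
    · rw [c1]; linarith
    · rw [c1]; exact hya
    · rw [c1]; exact hyb'
    · rw [c3]; exact hWa
    · rw [c3]; exact hWb
    · rw [c2, c3]; exact hr

end Pool.Agent.helper31.A2
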