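import Pool.Agent.helper31.A2.Fix

/-!
# A2: the step of the centre
-/

namespace Pool.Agent.helper31.A2

open Complex ComplexConjugate Set Filter Topology
open Pool.Agent.helper31.EQ.Y Pool.Agent.helper31.EQ.R
open Pool.Agent.helper12.EQL Pool.Agent.helper12.RP Pool.Agent.helper12.FF
open Pool.Agent.helper63.FF
open Pool.Agent.helper31.EQB

private lemma ctr_vi_sub (a b : ℤ) : vi (a - b) = vi a - vi b := by
  unfold vi; push_cast; ring

private lemma ctr_vi_add (a b : ℤ) : vi (a + b) = vi a + vi b := by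
  unfold vi; push_cast; ring

private lemma ctr_vi_one (a : ℤ) : vi (268435456 + a) = 1 + vi a := by
  unfold vi; push_cast; ring

private lemma ctr_vn_add (a b : ℕ) : vn (a + b) = vn a + vn b := by
  unfold vn; push_cast; ring

private lemma ctr_L1 {z : ℂ} {a b : ℝ} (h1 : |z.re| ≤ a) (h2 : |z.im| ≤ b) : ‖z‖ ≤ a + b :=
  (Complex.norm_le_abs_re_add_abs_im z).trans (add_le_add h1 h2)

private lemma ctr_re (a b : ℤ) : (vc a b).re = vi a := by simp [vc]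

private lemma ctr_im (a b : ℤ) : (vc a b).im = vi b := by simp [vc]

private lemma ctr_mul (a b c d : ℤ) :
    ‖vc (mi a c - mi b d) (mi a d + mi b c) - vc a b * vc c d‖ ≤ 3 / 2 ^ 28 := by
  obtain ⟨h1, h1'⟩ := vi_mi a c
  obtain ⟨h2, h2'⟩ := vi_mi b d
  obtain ⟨h3, h3'⟩ := vi_mi a d
  obtain ⟨h4, h4'⟩ := vi_mi b c
  refine (ctr_L1 (a := 1 / 2 ^ 28) (b := 2 / 2 ^ 28) ?_ ?_).trans (by norm_num)
  · rw [Complex.sub_re, Complex.mul_re, ctr_re, ctr_re, ctr_re, ctr_im, ctr_im, ctr_vi_sub, abs_le]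
    constructor <;> linarith
  · rw [Complex.sub_im, Complex.mul_im, ctr_im, ctr_im, ctr_im, ctr_re, ctr_re, ctr_vi_add, abs_le]
    constructor <;> linarith

private lemma ctr_third (x : ℤ) : vi (x / 3) ≤ vi x / 3 ∧ vi x / 3 ≤ vi (x / 3) + 1 / 2 ^ 28 := by
  have h1 : x / 3 * 3 ≤ x := Int.ediv_mul_le _ (by norm_num)
  have h2 : x < (x / 3 + 1) * 3 := Int.lt_ediv_add_one_mul_self _ (by norm_num)
  have h1' : ((x / 3 : ℤ) : ℝ) * 3 ≤ x := by exact_mod_cast h1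
  have h2' : (x : ℝ) ≤ (((x / 3 : ℤ) : ℝ) + 1) * 3 := by exact_mod_cast h2.le
  unfold vi
  constructor
  · linarith
  · linarith

private lemma ctr_half (n : ℤ) : vi (Int.shiftRight n 1) ≤ vi n / 2 ∧
    vi n / 2 ≤ vi (Int.shiftRight n 1) + 1 / 2 / 2 ^ 28 := by
  have h0 : Int.shiftRight n 1 = n / 2 := by
    have h : Int.shiftRight n 1 = n >>> (1 : ℕ) := rfl
    rw [h, Int.shiftRight_eq_div_pow]
    norm_num
  rw [h0]
  have h1 : n / 2 * 2 ≤ n := Int.ediv_mul_le _ (by norm_num)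
  have h2 : n ≤ n / 2 * 2 + 1 := by omega
  have h1' : ((n / 2 : ℤ) : ℝ) * 2 ≤ n := by exact_mod_cast h1
  have h2' : (n : ℝ) ≤ ((n / 2 : ℤ) : ℝ) * 2 + 1 := by exact_mod_cast h2
  unfold vi
  constructor
  · linarith
  · linarith

private lemma ctr_tay (x y : ℤ) (hD : ‖vc x y‖ ≤ 71 / 100) :
    ‖vc (tay x y).1 (tay x y).2 - (1 + vc x y + vc x y ^ 2 / 2 + vc x y ^ 3 / 6)‖ ≤ 6 / 2 ^ 28 := by
  set a1 : ℤ := 268435456 + x / 3 with ha1
  set b1 : ℤ := y / 3 with hb1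
  set a2 : ℤ := 268435456 + Int.shiftRight (mi a1 x - mi b1 y) 1 with ha2
  set b2 : ℤ := Int.shiftRight (mi a1 y + mi b1 x) 1 with hb2
  have e1 : (tay x y).1 = 268435456 + (mi a2 x - mi b2 y) := rfl
  have e2 : (tay x y).2 = mi a2 y + mi b2 x := rfl
  rw [e1, e2]
  set D := vc x y with hDdef
  set A1 := vc a1 b1 with hA1
  set A2 := vc a2 b2 with hA2
  have hD0 : 0 ≤ ‖D‖ := norm_nonneg _
  have hE1 : ‖A1 - (1 + D / 3)‖ ≤ 2 / 2 ^ 28 := by
    obtain ⟨h1, h1'⟩ := ctr_third x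
    obtain ⟨h2, h2'⟩ := ctr_third y
    have hr : (1 + D / 3 : ℂ).re = 1 + vi x / 3 := by
      rw [Complex.add_re, Complex.one_re, hDdef, ← ctr_re x y]
      congr 1
      exact Complex.div_ofReal_re (vc x y) 3
    have hi : (1 + D / 3 : ℂ).im = vi y / 3 := by
      rw [Complex.add_im, Complex.one_im, hDdef, ← ctr_im x y, zero_add]
      exact Complex.div_ofReal_im (vc x y) 3
    refine (ctr_L1 (a := 1 / 2 ^ 28) (b := 1 / 2 ^ 28) ?_ ?_).trans (by norm_num)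
    · rw [Complex.sub_re, hr, hA1, ctr_re, ha1, ctr_vi_one, abs_le]
      constructor <;> linarith
    · rw [Complex.sub_im, hi, hA1, ctr_im, hb1, abs_le]
      constructor <;> linarith
  have hE2 : ‖A2 - (1 + A1 * D / 2)‖ ≤ 5 / 2 / 2 ^ 28 := by
    obtain ⟨h1, h1'⟩ := vi_mi a1 x
    obtain ⟨h2, h2'⟩ := vi_mi b1 y
    obtain ⟨h3, h3'⟩ := vi_mi a1 y
    obtain ⟨h4, h4'⟩ := vi_mi b1 x
    obtain ⟨h5, h5'⟩ := ctr_half (mi a1 x - mi b1 y)
    obtain ⟨h6, h6'⟩ := ctr_half (mi a1 y + mi b1 x)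
    rw [ctr_vi_sub] at h5 h5'
    rw [ctr_vi_add] at h6 h6'
    have hr : (1 + A1 * D / 2 : ℂ).re = 1 + (vi a1 * vi x - vi b1 * vi y) / 2 := by
      have h : (A1 * D / 2 : ℂ).re = (A1 * D).re / 2 := Complex.div_ofReal_re (A1 * D) 2
      rw [Complex.add_re, Complex.one_re, h, Complex.mul_re, hA1, hDdef, ctr_re, ctr_re, ctr_im,
        ctr_im]
    have hi : (1 + A1 * D / 2 : ℂ).im = (vi a1 * vi y + vi b1 * vi x) / 2 := by
      have h : (A1 * D / 2 : ℂ).im = (A1 * D).im / 2 := Complex.div_ofReal_im (A1 * D) 2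
      rw [Complex.add_im, Complex.one_im, h, Complex.mul_im, hA1, hDdef, ctr_re, ctr_re, ctr_im,
        ctr_im, zero_add]
    refine (ctr_L1 (a := 1 / 2 ^ 28) (b := 3 / 2 / 2 ^ 28) ?_ ?_).trans (by norm_num)
    · rw [Complex.sub_re, hr, hA2, ctr_re, ha2, ctr_vi_one, abs_le]
      constructor <;> linarith
    · rw [Complex.sub_im, hi, hA2, ctr_im, hb2, abs_le]
      constructor <;> linarith
  have hE3 : ‖vc (268435456 + (mi a2 x - mi b2 y)) (mi a2 y + mi b2 x) - (1 + A2 * D)‖ ≤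
      3 / 2 ^ 28 := by
    have h := ctr_mul a2 b2 x y
    have h2 : vc (268435456 + (mi a2 x - mi b2 y)) (mi a2 y + mi b2 x) =
        1 + vc (mi a2 x - mi b2 y) (mi a2 y + mi b2 x) := by
      unfold vc
      rw [ctr_vi_one]
      push_cast
      ring
    rw [h2, add_sub_add_left_eq_sub]
    exact h
  have key : vc (268435456 + (mi a2 x - mi b2 y)) (mi a2 y + mi b2 x) -
      (1 + D + D ^ 2 / 2 + D ^ 3 / 6) =
      (vc (268435456 + (mi a2 x - mi b2 y)) (mi a2 y + mi b2 x) - (1 + A2 * D)) +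
        D * ((A2 - (1 + A1 * D / 2)) + D / 2 * (A1 - (1 + D / 3))) := by ring
  rw [key]
  have h7 : ‖D / 2 * (A1 - (1 + D / 3))‖ ≤ 71 / 200 * (2 / 2 ^ 28) := by
    rw [norm_mul, norm_div]
    have h8 : ‖(2 : ℂ)‖ = 2 := by simp
    rw [h8]
    exact mul_le_mul (by linarith) hE1 (norm_nonneg _) (by norm_num)
  have h9 : ‖D * ((A2 - (1 + A1 * D / 2)) + D / 2 * (A1 - (1 + D / 3)))‖ ≤
      71 / 100 * (5 / 2 / 2 ^ 28 + 71 / 200 * (2 / 2 ^ 28)) := by
    rw [norm_mul]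
    exact mul_le_mul hD ((norm_add_le _ _).trans (add_le_add hE2 h7)) (norm_nonneg _) (by norm_num)
  refine (norm_add_le _ _).trans ((add_le_add hE3 h9).trans ?_)
  norm_num

private lemma ctr_exp4 {D : ℂ} (hD : ‖D‖ ≤ 1) :
    ‖(1 + D + D ^ 2 / 2 + D ^ 3 / 6) - cexp D‖ ≤ ‖D‖ ^ 4 / 19 := by
  have h := Complex.exp_bound hD (n := 4) (by norm_num)
  rw [norm_sub_rev]
  have h2 : ∑ m ∈ Finset.range 4, D ^ m / (m.factorial : ℂ) = 1 + D + D ^ 2 / 2 + D ^ 3 / 6 := by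
    simp [Finset.sum_range_succ, Nat.factorial]
  rw [h2] at h
  refine h.trans ?_
  have h3 : ((Nat.succ 4 : ℕ) : ℝ) * (((4 : ℕ).factorial : ℝ) * ((4 : ℕ) : ℝ))⁻¹ ≤ 1 / 19 := by
    norm_num [Nat.factorial]
  calc ‖D‖ ^ 4 * (((Nat.succ 4 : ℕ) : ℝ) * (((4 : ℕ).factorial : ℝ) * ((4 : ℕ) : ℝ))⁻¹)
      ≤ ‖D‖ ^ 4 * (1 / 19) := mul_le_mul_of_nonneg_left h3 (by positivity)
    _ = ‖D‖ ^ 4 / 19 := by ring

private lemma ctr_exp_neg {x : ℝ} (hx : 0 ≤ x) : Real.exp (-x) ≤ 1 - x + x ^ 2 / 2 := by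
  have h1 := Real.quadratic_le_exp_of_nonneg hx
  have h2 : 0 < Real.exp x := Real.exp_pos x
  rw [Real.exp_neg, inv_le_iff_one_le_mul₀ h2]
  have h3 : 0 ≤ 1 - x + x ^ 2 / 2 := by nlinarith [sq_nonneg (x - 1)]
  calc (1 : ℝ) ≤ (1 - x + x ^ 2 / 2) * (1 + x + x ^ 2 / 2) := by nlinarith [sq_nonneg (x ^ 2)]
    _ ≤ (1 - x + x ^ 2 / 2) * Real.exp x := mul_le_mul_of_nonneg_left h1 h3

/-- the step of the centre: `Δ = -la + i y`, `|Δ| ≤ 71/100`; Taylor with remainder `|Δ|⁴/19` (`Complex.exp_bound`, `n = 4`);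
`|e^Δ| ≤ 1`; rounding in units `2^-28`: `tay`: `4.4`, times `|B0| ≤ 11/10`, plus `2.3` for the last product: `≤ 12` -/
theorem centre_step {L0 L p0 p m0 eta0 : ℕ} {br0 bi0 : ℤ} (hL : L0 ≤ L) (hla : L - L0 ≤ 134217728)
    (hy : ((p0 : ℤ) - (p : ℤ)).natAbs ≤ 134217728) (hm0 : Real.exp (-vn L0) ≤ vn m0)
    (hm1 : m0 ≤ 268500000) (he0 : eta0 ≤ 26843546)
    (h0 : ‖vc br0 bi0 - cexp (-(vn L0 : ℂ) + ((Real.pi - vn p0 : ℝ) : ℂ) * I)‖ ≤ vn eta0) :
    let la := L - L0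
    let y : Int := (p0 : Int) - (p : Int)
    let tt := tay (-(la : Int)) y
    let d2 := mu la la + mu y.natAbs y.natAbs
    ‖vc (mi br0 tt.1 - mi bi0 tt.2) (mi br0 tt.2 + mi bi0 tt.1) -
      cexp (-(vn L : ℂ) + ((Real.pi - vn p : ℝ) : ℂ) * I)‖ ≤
        vn (eta0 + mu (m0 + eta0) (mu d2 d2 / 19 + 1) + 12) ∧
      Real.exp (-vn L) ≤ vn (mu m0 (268435456 - la + mu la la / 2 + 1)) := by
  intro la y tt d2
  have hLr : vn L = vn L0 + vn la := by
    rw [← ctr_vn_add]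
    congr 1
    omega
  have hla1 : vn la ≤ 1 / 2 := by
    unfold vn
    have h : (la : ℝ) ≤ 134217728 := by exact_mod_cast hla
    rw [div_le_iff₀ (by norm_num)]
    refine h.trans (by norm_num)
  have hla0 : 0 ≤ vn la := by unfold vn; positivity
  have hvx : vi (-(la : ℤ)) = -vn la := by
    unfold vi vn; push_cast; ring
  have hvy : vi y = vn p0 - vn p := by
    unfold vi vn; push_cast [y]; ring
  have hyn : |vi y| = vn y.natAbs := by
    unfold vi vn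
    rw [abs_div, abs_of_pos (by norm_num : (0 : ℝ) < 2 ^ 28)]
    congr 1
    rw [Nat.cast_natAbs, Int.cast_abs]
  have hy1 : vn y.natAbs ≤ 1 / 2 := by
    unfold vn
    have h : (y.natAbs : ℝ) ≤ ((134217728 : ℕ) : ℝ) := Nat.cast_le.mpr hy
    rw [div_le_iff₀ (by norm_num)]
    refine h.trans (by norm_num)
  have hy0 : 0 ≤ vn y.natAbs := by unfold vn; positivity
  set D := vc (-(la : ℤ)) y with hD
  have hD2 : ‖D‖ ^ 2 = vn la ^ 2 + vn y.natAbs ^ 2 := by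
    rw [Complex.sq_norm, Complex.normSq_apply, hD, ctr_re, ctr_im, hvx, ← hyn, sq_abs]
    ring
  have hDle : ‖D‖ ≤ 71 / 100 := by
    refine abs_le_of_sq_le_sq' ?_ (by norm_num) |>.2
    rw [hD2]
    nlinarith
  have hDd : ‖D‖ ^ 2 ≤ vn d2 := by
    have h1 := vn_mu la la
    have h2 := vn_mu y.natAbs y.natAbs
    have h3 : vn d2 = vn (mu la la) + vn (mu y.natAbs y.natAbs) := ctr_vn_add _ _
    rw [hD2, h3]
    nlinarith
  have hD4 : ‖D‖ ^ 4 / 19 ≤ vn (mu d2 d2 / 19 + 1) := by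
    have h1 := vn_mu d2 d2
    have h2 : ‖D‖ ^ 4 ≤ vn d2 * vn d2 := by
      have h3 : ‖D‖ ^ 4 = ‖D‖ ^ 2 * ‖D‖ ^ 2 := by ring
      rw [h3]
      exact mul_le_mul hDd hDd (by positivity) (by unfold vn; positivity)
    have h4 : vn (mu d2 d2) / 19 ≤ vn (mu d2 d2 / 19 + 1) := by
      have h5 : mu d2 d2 ≤ (mu d2 d2 / 19 + 1) * 19 := by omega
      have h6 : ((mu d2 d2 : ℕ) : ℝ) ≤ ((mu d2 d2 / 19 + 1 : ℕ) : ℝ) * 19 := by exact_mod_cast h5
      unfold vn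
      rw [div_div, div_le_div_iff₀ (by norm_num) (by norm_num)]
      nlinarith
    linarith
  have hexpD : cexp (-(vn L : ℂ) + ((Real.pi - vn p : ℝ) : ℂ) * I) =
      cexp (-(vn L0 : ℂ) + ((Real.pi - vn p0 : ℝ) : ℂ) * I) * cexp D := by
    rw [← Complex.exp_add]
    congr 1
    rw [hD, vc, hvx, hvy, hLr]
    push_cast
    ring
  have hnD : ‖cexp D‖ ≤ 1 := by
    rw [Complex.norm_exp, hD, ctr_re, hvx]
    exact Real.exp_le_one_iff.mpr (by linarith)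
  set b0 := cexp (-(vn L0 : ℂ) + ((Real.pi - vn p0 : ℝ) : ℂ) * I) with hb0
  have hnb0 : ‖b0‖ ≤ vn m0 := by
    refine le_trans (le_of_eq ?_) hm0
    rw [hb0, Complex.norm_exp]
    congr 1
    simp
  set B0 := vc br0 bi0 with hB0
  have hnB0 : ‖B0‖ ≤ vn (m0 + eta0) := by
    rw [ctr_vn_add]
    have h : B0 = b0 + (B0 - b0) := by ring
    rw [h]
    exact (norm_add_le _ _).trans (add_le_add hnb0 h0)
  have hmm : vn (m0 + eta0) ≤ 111 / 100 := by
    unfold vn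
    have h : ((m0 + eta0 : ℕ) : ℝ) ≤ 295343546 := by
      have h' : m0 + eta0 ≤ 295343546 := by omega
      exact_mod_cast h'
    rw [div_le_iff₀ (by norm_num)]
    refine h.trans (by norm_num)
  have hmm0 : 0 ≤ vn (m0 + eta0) := by unfold vn; positivity
  have hT : ‖vc tt.1 tt.2 - cexp D‖ ≤ 6 / 2 ^ 28 + vn (mu d2 d2 / 19 + 1) := by
    have h1 := ctr_tay (-(la : ℤ)) y hDle
    have h2 := ctr_exp4 (D := D) (hDle.trans (by norm_num))
    have h3 : vc tt.1 tt.2 - cexp D =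
      (vc tt.1 tt.2 - (1 + D + D ^ 2 / 2 + D ^ 3 / 6)) +
        ((1 + D + D ^ 2 / 2 + D ^ 3 / 6) - cexp D) := by ring
    rw [h3]
    exact (norm_add_le _ _).trans (add_le_add h1 (h2.trans hD4))
  constructor
  · rw [hexpD]
    have h1 := ctr_mul br0 bi0 tt.1 tt.2
    have h2 : vc (mi br0 tt.1 - mi bi0 tt.2) (mi br0 tt.2 + mi bi0 tt.1) - b0 * cexp D =
        (vc (mi br0 tt.1 - mi bi0 tt.2) (mi br0 tt.2 + mi bi0 tt.1) - B0 * vc tt.1 tt.2) +
        B0 * (vc tt.1 tt.2 - cexp D) + (B0 - b0) * cexp D := by ring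
    rw [h2]
    have h3 : ‖B0 * (vc tt.1 tt.2 - cexp D)‖ ≤
        vn (m0 + eta0) * (6 / 2 ^ 28 + vn (mu d2 d2 / 19 + 1)) := by
      rw [norm_mul]
      exact mul_le_mul hnB0 hT (norm_nonneg _) hmm0
    have h4 : ‖(B0 - b0) * cexp D‖ ≤ vn eta0 * 1 := by
      rw [norm_mul]
      exact mul_le_mul h0 hnD (norm_nonneg _) (by unfold vn; positivity)
    have h5 := vn_mu (m0 + eta0) (mu d2 d2 / 19 + 1)
    have h6 : vn 12 = 12 / 2 ^ 28 := by unfold vn; norm_num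
    rw [ctr_vn_add, ctr_vn_add, h6]
    have h7 : vn (m0 + eta0) * (6 / 2 ^ 28) ≤ 111 / 100 * (6 / 2 ^ 28) :=
      mul_le_mul_of_nonneg_right hmm (by norm_num)
    have h8 := norm_add₃_le (a := vc (mi br0 tt.1 - mi bi0 tt.2) (mi br0 tt.2 + mi bi0 tt.1) -
      B0 * vc tt.1 tt.2) (b := B0 * (vc tt.1 tt.2 - cexp D)) (c := (B0 - b0) * cexp D)
    rw [mul_add] at h3
    refine h8.trans ?_
    have h9 : (3 : ℝ) / 2 ^ 28 + 111 / 100 * (6 / 2 ^ 28) ≤ 12 / 2 ^ 28 := by norm_num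
    linarith
  · have h1 : Real.exp (-vn L) = Real.exp (-vn L0) * Real.exp (-vn la) := by
      rw [← Real.exp_add, hLr]
      congr 1
      ring
    rw [h1]
    have h2 := ctr_exp_neg hla0
    have h3 : 1 - vn la + vn la ^ 2 / 2 ≤ vn (268435456 - la + mu la la / 2 + 1) := by
      have h4 := vn_mu la la
      have h5 : vn (268435456 - la) = 1 - vn la := by
        have h6 : la ≤ 268435456 := le_trans hla (by norm_num)
        unfold vn
        rw [Nat.cast_sub h6]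
        push_cast
        ring
      have h7 : vn (mu la la) / 2 ≤ vn (mu la la / 2 + 1) := by
        have h8 : mu la la ≤ (mu la la / 2 + 1) * 2 := by omega
        have h9 : ((mu la la : ℕ) : ℝ) ≤ ((mu la la / 2 + 1 : ℕ) : ℝ) * 2 := by exact_mod_cast h8
        unfold vn
        rw [div_div, div_le_div_iff₀ (by norm_num) (by norm_num)]
        nlinarith
      rw [add_assoc, ctr_vn_add, h5]
      nlinarith
    refine le_trans ?_ (vn_mu _ _)
    exact mul_le_mul hm0 (h2.trans h3) (Real.exp_pos _).le (by unfold vn; positivity)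

end Pool.Agent.helper31.A2
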