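import Pool.Agent.helper31.A2.Fix

/-!
# A2: one level
-/

namespace Pool.Agent.helper31.A2

open Complex ComplexConjugate Set Filter Topology
open Pool.Agent.helper31.EQ.Y Pool.Agent.helper31.EQ.R
open Pool.Agent.helper12.EQL Pool.Agent.helper12.RP Pool.Agent.helper12.FF
open Pool.Agent.helper63.FF
open Pool.Agent.helper31.EQB

section

variable {e κ : ℝ} {c : Cc} {rl rh yl wl : ℕ} {t : ℂ}

private theorem vnn (n : ℕ) : 0 ≤ vn n := by unfold vn; positivity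

private theorem vn_add (a b : ℕ) : vn (Nat.add a b) = vn a + vn b := by
  unfold vn
  rw [Nat.add_eq, Nat.cast_add, add_div]

private theorem vn_two_mul (a : ℕ) : vn (Nat.mul 2 a) = 2 * vn a := by
  unfold vn
  rw [Nat.mul_eq, Nat.cast_mul]
  push_cast
  ring

private theorem vn_four : vn 4 = 4 / 2 ^ 28 := by
  unfold vn
  norm_num

private theorem vi_one : vi 268435456 = 1 := by
  unfold vi
  norm_num

private theorem vi_add (a b : ℤ) : vi (Int.add a b) = vi a + vi b := by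
  unfold vi
  have : Int.add a b = a + b := rfl
  rw [this, Int.cast_add, add_div]

private theorem vi_sub (a b : ℤ) : vi (Int.sub a b) = vi a - vi b := by
  unfold vi
  have : Int.sub a b = a - b := rfl
  rw [this, Int.cast_sub, sub_div]

private theorem norm_vc (a b : ℤ) : ‖vc a b‖ = √(vn a.natAbs ^ 2 + vn b.natAbs ^ 2) := by
  have h1 : ∀ x : ℤ, vn x.natAbs = |vi x| := fun x => by
    unfold vn vi
    rw [abs_div, abs_of_pos (by positivity : (0 : ℝ) < 2 ^ 28), Nat.cast_natAbs, Int.cast_abs]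
  rw [h1, h1, sq_abs, sq_abs]
  unfold vc
  rw [Complex.norm_add_mul_I]

private theorem norm_vc_le (a b : ℤ) : ‖vc a b‖ ≤ vn (nrm a.natAbs b.natAbs) := by
  rw [norm_vc]
  exact vn_nrm _ _

/-- rounding of a product -/
private theorem prod_round (a b x y : ℤ) :
    ‖vc (Int.sub (mi a x) (mi b y)) (Int.add (mi a y) (mi b x)) - vc a b * vc x y‖ ≤ 4 / 2 ^ 28 := by
  have h1 := vi_mi a x
  have h2 := vi_mi b y
  have h3 := vi_mi a y
  have h4 := vi_mi b x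
  obtain ⟨d1, hd1⟩ : ∃ d1, d1 = vi (mi a x) - vi (mi b y) - (vi a * vi x - vi b * vi y) := ⟨_, rfl⟩
  obtain ⟨d2, hd2⟩ : ∃ d2, d2 = vi (mi a y) + vi (mi b x) - (vi a * vi y + vi b * vi x) := ⟨_, rfl⟩
  have e1 : vc (Int.sub (mi a x) (mi b y)) (Int.add (mi a y) (mi b x)) - vc a b * vc x y =
      (d1 : ℂ) + (d2 : ℂ) * I := by
    unfold vc
    rw [vi_sub, vi_add, hd1, hd2]
    push_cast
    linear_combination (-(vi b : ℂ) * (vi y : ℂ)) * I_sq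
  rw [e1]
  have h5 : |d1| ≤ 1 / 2 ^ 28 := by
    rw [abs_le, hd1]
    constructor <;> linarith [h1.1, h1.2, h2.1, h2.2]
  have h6 : |d2| ≤ 2 / 2 ^ 28 := by
    rw [abs_le, hd2]
    constructor <;> linarith [h3.1, h3.2, h4.1, h4.2]
  calc ‖(d1 : ℂ) + (d2 : ℂ) * I‖ ≤ ‖(d1 : ℂ)‖ + ‖(d2 : ℂ) * I‖ := norm_add_le _ _
    _ = |d1| + |d2| := by
        rw [norm_mul, Complex.norm_I, mul_one, Complex.norm_real, Complex.norm_real,
          Real.norm_eq_abs, Real.norm_eq_abs]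
    _ ≤ 4 / 2 ^ 28 := by linarith

/-- error of a product -/
private theorem prod_err {B b F f : ℂ} {r m p P : ℝ} (h1 : ‖B - b‖ ≤ r) (h2 : ‖b‖ ≤ m)
    (h3 : ‖F - f‖ ≤ p) (h4 : ‖F‖ ≤ P) : ‖B * F - b * f‖ ≤ m * p + r * P := by
  have e1 : B * F - b * f = b * (F - f) + (B - b) * F := by ring
  rw [e1]
  refine (norm_add_le _ _).trans ?_
  rw [norm_mul, norm_mul]
  have hr : 0 ≤ r := (norm_nonneg _).trans h1
  have hm : 0 ≤ m := (norm_nonneg _).trans h2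
  exact add_le_add (mul_le_mul h2 h3 (norm_nonneg _) hm) (mul_le_mul h1 h4 (norm_nonneg _) hr)

/-- the radius of `b` -/
private theorem rb_le (m rho dL eta : ℕ) :
    vn m * (vn rho * (1 + vn dL / 2 + vn dL ^ 2 / 4)) + vn eta ≤
      vn (Nat.add (mu m (mu rho (Nat.add 268435458 (Nat.add (Nat.shiftRight dL 1)
        (Nat.shiftRight (mu dL dL) 2))))) eta) := by
  rw [vn_add]
  have h1 : 1 + vn dL / 2 + vn dL ^ 2 / 4 ≤ vn (Nat.add 268435458 (Nat.add (Nat.shiftRight dL 1)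
        (Nat.shiftRight (mu dL dL) 2))) := by
    have h2 := vn_mu dL dL
    rw [vn_add, vn_add]
    have e1 : Nat.shiftRight dL 1 = dL / 2 := rfl
    have e2 : Nat.shiftRight (mu dL dL) 2 = mu dL dL / 4 := by
      have : Nat.shiftRight (mu dL dL) 2 = mu dL dL >>> 2 := rfl
      rw [this, Nat.shiftRight_eq_div_pow]
    rw [e1, e2]
    have h3 : dL ≤ 2 * (dL / 2) + 1 := by omega
    have h4 : mu dL dL ≤ 4 * (mu dL dL / 4) + 3 := by omega
    have h3' : (dL : ℝ) ≤ 2 * ((dL / 2 : ℕ) : ℝ) + 1 := by exact_mod_cast h3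
    have h4' : ((mu dL dL : ℕ) : ℝ) ≤ 4 * ((mu dL dL / 4 : ℕ) : ℝ) + 3 := by exact_mod_cast h4
    have h5 : vn 268435458 = 1 + 2 / 2 ^ 28 := by unfold vn; norm_num
    rw [h5]
    have h6 : vn dL ≤ 2 * vn (dL / 2) + 1 / 2 ^ 28 := by
      unfold vn
      rw [← mul_div_assoc, ← add_div]
      gcongr
    have h7 : vn (mu dL dL) ≤ 4 * vn (mu dL dL / 4) + 3 / 2 ^ 28 := by
      unfold vn
      rw [← mul_div_assoc, ← add_div]
      gcongr
    rw [sq]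
    linarith
  have h2 := vn_mu rho (Nat.add 268435458 (Nat.add (Nat.shiftRight dL 1)
        (Nat.shiftRight (mu dL dL) 2)))
  have h3 := vn_mu m (mu rho (Nat.add 268435458 (Nat.add (Nat.shiftRight dL 1)
        (Nat.shiftRight (mu dL dL) 2))))
  have h4 := mul_le_mul_of_nonneg_left h1 (vnn rho)
  have h5 := mul_le_mul_of_nonneg_left (h4.trans h2) (vnn m)
  linarith

/-- `|1/Q - 1| ≤ kap` -/
private theorem kap_le (C : CcOK e κ c) (ht : 0 < t.re) (hr : rz e κ t ≤ vn rh)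
    (hy0 : 0 ≤ yz e κ t) (hy : yz e κ t ≤ vn c.yh) :
    ‖(Qk κ t)⁻¹ - 1‖ ≤ vn (Nat.add c.kh (mu c.E (nrm c.yh rh))) := by
  have he : 0 < e := by linarith [C.e200]
  have hK : 0 < Real.sinh κ := Real.sinh_pos_iff.2 C.κ0
  have hQ1 := one_le_Qk C.κ0 ht
  have hQ0 : Qk κ t ≠ 0 := Qk_ne C.κ0 ht
  have h1 : (Qk κ t)⁻¹ - 1 = (1 - Qk κ t) * (Qk κ t)⁻¹ := by
    field_simp
  rw [h1, norm_mul, norm_inv]
  have h2 : (‖Qk κ t‖)⁻¹ ≤ 1 := inv_le_one_of_one_le₀ hQ1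
  have h3 : ‖1 - Qk κ t‖ ≤ vn (Nat.add c.kh (mu c.E (nrm c.yh rh))) := by
    have e1 : 1 - Qk κ t = ((1 - Real.cosh κ : ℝ) : ℂ) + (-(Real.sinh κ : ℂ)) * t := by
      unfold Qk
      push_cast
      ring
    rw [e1]
    refine (norm_add_le _ _).trans ?_
    rw [Complex.norm_real, Real.norm_eq_abs, norm_mul, norm_neg, Complex.norm_real,
      Real.norm_of_nonneg hK.le, vn_add]
    have h4 : |1 - Real.cosh κ| ≤ vn c.kh := by
      have h5 := Real.one_le_cosh κ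
      rw [abs_sub_comm, abs_of_nonneg (by linarith)]
      have h6 := cosh_le' κ
      linarith [C.k2, C.kh]
    have h7 : Real.sinh κ * ‖t‖ ≤ vn (mu c.E (nrm c.yh rh)) := by
      have h8 : Real.sinh κ * ‖t‖ = (1 / e) * √(yz e κ t ^ 2 + rz e κ t ^ 2) := by
        have h9 : yz e κ t ^ 2 + rz e κ t ^ 2 = (e * Real.sinh κ * ‖t‖) ^ 2 := by
          have h10 : ‖t‖ ^ 2 = t.re ^ 2 + t.im ^ 2 := by
            rw [Complex.sq_norm, Complex.normSq_apply]; ring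
          have h11 : (e * Real.sinh κ * ‖t‖) ^ 2 = (e * Real.sinh κ) ^ 2 * ‖t‖ ^ 2 := by ring
          rw [h11, h10]
          unfold yz rz bet
          ring
        rw [h9, Real.sqrt_sq (by positivity)]
        field_simp
      rw [h8]
      have hr0 : 0 ≤ rz e κ t := (rz_pos he C.κ0 ht).le
      have h12 : √(yz e κ t ^ 2 + rz e κ t ^ 2) ≤ vn (nrm c.yh rh) := by
        refine le_trans ?_ (vn_nrm _ _)
        apply Real.sqrt_le_sqrt
        exact add_le_add (pow_le_pow_left₀ hy0 hy 2) (pow_le_pow_left₀ hr0 hr 2)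
      exact (mul_le_mul C.E h12 (Real.sqrt_nonneg _) (vnn _)).trans (vn_mu _ _)
    linarith
  calc ‖1 - Qk κ t‖ * (‖Qk κ t‖)⁻¹ ≤ ‖1 - Qk κ t‖ * 1 := mul_le_mul_of_nonneg_left h2 (norm_nonneg _)
    _ = ‖1 - Qk κ t‖ := mul_one _
    _ ≤ _ := h3

/-- recursion of `f` -/
private theorem f_rec (he : 0 < e) (hκ : 0 < κ) (ht : 0 < t.re) :
    fT e κ t = 1 + -cexp (-((e : ℂ) * log (Qk κ t))) * fT e κ (shf κ t) := by
  have h5 := one_sub_fT he hκ ht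
  rw [cpow_def_of_ne_zero (Qk_ne hκ ht)] at h5
  have h3 : log (Qk κ t) * -(e : ℂ) = -((e : ℂ) * log (Qk κ t)) := by ring
  rw [h3] at h5
  linear_combination -h5

/-- recursion of `H` -/
private theorem H_rec (he : 0 < e) (hκ : 0 < κ) (ht : 0 < t.re) :
    Hh e κ t = -cexp (-((e : ℂ) * log (Qk κ t))) * fT e κ (shf κ t) * (Qk κ t)⁻¹ +
      -cexp (-((e : ℂ) * log (Qk κ t))) * Hh e κ (shf κ t) * ((Qk κ t)⁻¹) ^ 2 := by
  have hK : 0 < Real.sinh κ := Real.sinh_pos_iff.2 hκ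
  have h1 := deriv_rec he hκ ht
  have h2 := f_rec he hκ ht
  have hQ := Qk_ne hκ ht
  have hf := fT_ne he hκ (shf_re hκ ht.le)
  have hk : ((e * Real.sinh κ : ℝ) : ℂ) ≠ 0 := by exact_mod_cast (mul_pos he hK).ne'
  have he' : (e : ℂ) ≠ 0 := by exact_mod_cast he.ne'
  have hK' : (Real.sinh κ : ℂ) ≠ 0 := by exact_mod_cast hK.ne'
  unfold Hh
  rw [h1]
  have h3 : 1 - fT e κ t = cexp (-((e : ℂ) * log (Qk κ t))) * fT e κ (shf κ t) := by
    linear_combination -h2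
  rw [h3]
  generalize cexp (-((e : ℂ) * log (Qk κ t))) = E
  generalize deriv (fT e κ) (shf κ t) = D
  generalize fT e κ (shf κ t) = X at hf ⊢
  generalize Qk κ t = Q at hQ ⊢
  rw [show ((e * Real.sinh κ : ℝ) : ℂ) = (e : ℂ) * (Real.sinh κ : ℂ) by push_cast; rfl] at hk ⊢
  generalize (Real.sinh κ : ℂ) = S at hK' hk ⊢
  field_simp
  ring

/-- **one level**: `b = -Q^(-e)`, `f(t) = 1 + b f(shf t)`, `H(t) = (b/Q)(f(shf t) + H(shf t)/Q)` (`deriv_rec`, `one_sub_fT`),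
`|1/Q - 1| ≤ kap`, `|1/Q² - 1| ≤ 2 kap` -/
theorem comb_sound (C : CcOK e κ c) (ht : 0 < t.re) (hr : rz e κ t ≤ vn rh)
    (hy0 : 0 ≤ yz e κ t) (hy : yz e κ t ≤ vn c.yh) {rho dL m eta Mj : ℕ} {br bi : ℤ} {R : Rs}
    (hb : ‖-cexp (-((e : ℂ) * log (Qk κ t))) - vc br bi‖ ≤
      vn m * (vn rho * (1 + vn dL / 2 + vn dL ^ 2 / 4)) + vn eta)
    (hm : ‖vc br bi‖ ≤ vn m + vn eta) (hR : DiscOK e κ R (shf κ t)) :
    DiscOK e κ (comb c rh rho dL m eta br bi Mj R) t ∧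
      ((comb c rh rho dL m eta br bi Mj R).ok = true →
        R.ok = true ∧ (Mj ≠ 0 → MB e κ ((Mj : ℝ) / 1024) t)) := by
  have he : 0 < e := by linarith [C.e200]
  have hκ := C.κ0
  have hK : 0 < Real.sinh κ := Real.sinh_pos_iff.2 hκ
  have hQ1 := one_le_Qk hκ ht
  have hQi : ‖(Qk κ t)⁻¹‖ ≤ 1 := by rw [norm_inv]; exact inv_le_one_of_one_le₀ hQ1
  obtain ⟨Rb, hRb⟩ : ∃ x, x = Nat.add (mu m (mu rho (Nat.add 268435458 (Nat.add (Nat.shiftRight dL 1)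
    (Nat.shiftRight (mu dL dL) 2))))) eta := ⟨_, rfl⟩
  obtain ⟨mm, hmm⟩ : ∃ x, x = Nat.add m eta := ⟨_, rfl⟩
  obtain ⟨kap, hkap⟩ : ∃ x, x = Nat.add c.kh (mu c.E (nrm c.yh rh)) := ⟨_, rfl⟩
  obtain ⟨ur, hur⟩ : ∃ x, x = Int.sub (mi br R.fr) (mi bi R.fi) := ⟨_, rfl⟩
  obtain ⟨ui, hui⟩ : ∃ x, x = Int.add (mi br R.fi) (mi bi R.fr) := ⟨_, rfl⟩
  obtain ⟨vr, hvr⟩ : ∃ x, x = Int.sub (mi br R.hr) (mi bi R.hi) := ⟨_, rfl⟩
  obtain ⟨vj, hvj⟩ : ∃ x, x = Int.add (mi br R.hi) (mi bi R.hr) := ⟨_, rfl⟩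
  obtain ⟨P, hP⟩ : ∃ x, x = Nat.add (Nat.add (mu mm R.P) (mu Rb R.Fu)) 4 := ⟨_, rfl⟩
  obtain ⟨T, hT⟩ : ∃ x, x = Nat.add (Nat.add (Nat.add P (mu mm R.T)) (mu Rb R.Hu))
    (Nat.add (mu (mu (Nat.add mm Rb) kap) (Nat.add R.Fu (Nat.mul 2 R.Hu))) 4) := ⟨_, rfl⟩
  obtain ⟨fr, hfr⟩ : ∃ x, x = Int.add 268435456 ur := ⟨_, rfl⟩
  obtain ⟨hr', hhr⟩ : ∃ x, x = Int.add ur vr := ⟨_, rfl⟩
  obtain ⟨hi', hhi⟩ : ∃ x, x = Int.add ui vj := ⟨_, rfl⟩
  obtain ⟨fn, hfn⟩ : ∃ x, x = nrm fr.natAbs ui.natAbs := ⟨_, rfl⟩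
  obtain ⟨Hu, hHu⟩ : ∃ x, x = Nat.add (nrm hr'.natAbs hi'.natAbs) T := ⟨_, rfl⟩
  obtain ⟨flo, hflo⟩ : ∃ x, x = Nat.div (Nat.add (Nat.mul fr.natAbs fr.natAbs)
    (Nat.mul ui.natAbs ui.natAbs)) fn := ⟨_, rfl⟩
  have hcomb : comb c rh rho dL m eta br bi Mj R =
      ⟨and R.ok (or (Nat.beq Mj 0) (and (Nat.ble P flo)
        (Nat.ble (Nat.mul 1024 Hu) (Nat.mul Mj (Nat.sub flo P))))), fr, ui, P, hr', hi', T,
        Nat.add fn P, Hu⟩ := by
    subst hflo hHu hfn hhi hhr hfr hT hP hvj hvr hui hur hkap hmm hRb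
    rfl
  rw [hcomb]
  obtain ⟨B, hB⟩ : ∃ B, B = -cexp (-((e : ℂ) * log (Qk κ t))) := ⟨_, rfl⟩
  have hf := f_rec he hκ ht
  have hH := H_rec he hκ ht
  rw [← hB] at hb hf hH
  have hb1 : ‖B - vc br bi‖ ≤ vn Rb := by rw [hRb]; exact hb.trans (rb_le _ _ _ _)
  have hm1 : ‖vc br bi‖ ≤ vn mm := by rw [hmm, vn_add]; exact hm
  have hBn : ‖B‖ ≤ vn (Nat.add mm Rb) := by
    rw [vn_add]
    calc ‖B‖ = ‖vc br bi + (B - vc br bi)‖ := by congr 1; ring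
      _ ≤ _ := norm_add_le _ _
      _ ≤ _ := add_le_add hm1 hb1
  have hk1 : ‖(Qk κ t)⁻¹ - 1‖ ≤ vn kap := by rw [hkap]; exact kap_le C ht hr hy0 hy
  have hk2 : ‖(Qk κ t)⁻¹ ^ 2 - 1‖ ≤ 2 * vn kap := by
    have e1 : (Qk κ t)⁻¹ ^ 2 - 1 = ((Qk κ t)⁻¹ + 1) * ((Qk κ t)⁻¹ - 1) := by ring
    rw [e1, norm_mul]
    have h1 : ‖(Qk κ t)⁻¹ + 1‖ ≤ 2 := by
      refine (norm_add_le _ _).trans ?_
      rw [norm_one]; linarith
    exact mul_le_mul h1 hk1 (norm_nonneg _) (by norm_num)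
  -- the products
  have hu1 := prod_err hb1 hm1 hR.f hR.Fu
  have hu2 := prod_round br bi R.fr R.fi
  rw [← hur, ← hui] at hu2
  have hu : ‖B * fT e κ (shf κ t) - vc ur ui‖ ≤ vn P := by
    have e1 : B * fT e κ (shf κ t) - vc ur ui = (B * fT e κ (shf κ t) - vc br bi * vc R.fr R.fi) -
      (vc ur ui - vc br bi * vc R.fr R.fi) := by ring
    rw [e1]
    refine (norm_sub_le _ _).trans ?_
    rw [hP, vn_add, vn_add, vn_four]
    exact add_le_add (hu1.trans (add_le_add (vn_mu _ _) (vn_mu _ _))) hu2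
  have hv1 := prod_err hb1 hm1 hR.H hR.Hu
  have hv2 := prod_round br bi R.hr R.hi
  rw [← hvr, ← hvj] at hv2
  have hv : ‖B * Hh e κ (shf κ t) - vc vr vj‖ ≤ vn (mu mm R.T) + vn (mu Rb R.Hu) + 4 / 2 ^ 28 := by
    have e1 : B * Hh e κ (shf κ t) - vc vr vj = (B * Hh e κ (shf κ t) - vc br bi * vc R.hr R.hi) -
      (vc vr vj - vc br bi * vc R.hr R.hi) := by ring
    rw [e1]
    refine (norm_sub_le _ _).trans ?_
    exact add_le_add (hv1.trans (add_le_add (vn_mu _ _) (vn_mu _ _))) hv2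
  have e_fr : vc fr ui = 1 + vc ur ui := by
    unfold vc
    rw [hfr, vi_add, vi_one]
    push_cast
    ring
  have e_h : vc hr' hi' = vc ur ui + vc vr vj := by
    unfold vc
    rw [hhr, hhi, vi_add, vi_add]
    push_cast
    ring
  have Df : ‖fT e κ t - vc fr ui‖ ≤ vn P := by
    rw [e_fr, hf]
    have e1 : 1 + B * fT e κ (shf κ t) - (1 + vc ur ui) = B * fT e κ (shf κ t) - vc ur ui := by ring
    rw [e1]
    exact hu
  have DH : ‖Hh e κ t - vc hr' hi'‖ ≤ vn T := by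
    rw [e_h, hH]
    have e1 : B * fT e κ (shf κ t) * (Qk κ t)⁻¹ + B * Hh e κ (shf κ t) * ((Qk κ t)⁻¹) ^ 2 -
        (vc ur ui + vc vr vj) = (B * fT e κ (shf κ t) - vc ur ui) +
        (B * Hh e κ (shf κ t) - vc vr vj) +
        (B * (fT e κ (shf κ t) * ((Qk κ t)⁻¹ - 1) + Hh e κ (shf κ t) * ((Qk κ t)⁻¹ ^ 2 - 1))) := by ring
    rw [e1]
    refine (norm_add_le _ _).trans ?_
    refine (add_le_add (norm_add_le _ _) le_rfl).trans ?_
    have h1 : ‖B * (fT e κ (shf κ t) * ((Qk κ t)⁻¹ - 1) +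
        Hh e κ (shf κ t) * ((Qk κ t)⁻¹ ^ 2 - 1))‖ ≤
        vn (mu (mu (Nat.add mm Rb) kap) (Nat.add R.Fu (Nat.mul 2 R.Hu))) := by
      refine le_trans ?_ (vn_mu _ _)
      rw [norm_mul, vn_add, vn_two_mul]
      have h2 : ‖fT e κ (shf κ t) * ((Qk κ t)⁻¹ - 1) + Hh e κ (shf κ t) * ((Qk κ t)⁻¹ ^ 2 - 1)‖ ≤
          vn kap * (vn R.Fu + 2 * vn R.Hu) := by
        refine (norm_add_le _ _).trans ?_
        rw [norm_mul, norm_mul]
        have h3 := mul_le_mul hR.Fu hk1 (norm_nonneg _) (vnn _)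
        have h4 := mul_le_mul hR.Hu hk2 (norm_nonneg _) (vnn _)
        linarith
      have h5 := mul_le_mul hBn h2 (norm_nonneg _) (vnn _)
      have h6 := mul_le_mul_of_nonneg_right (vn_mu (Nat.add mm Rb) kap)
        (add_nonneg (vnn R.Fu) (mul_nonneg zero_le_two (vnn R.Hu)))
      linarith
    rw [hT, vn_add, vn_add, vn_add, vn_add, vn_four]
    linarith
  have hcf : ‖vc fr ui‖ ≤ vn fn := by rw [hfn]; exact norm_vc_le _ _
  have DFu : ‖fT e κ t‖ ≤ vn (Nat.add fn P) := by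
    rw [vn_add]
    calc ‖fT e κ t‖ = ‖vc fr ui + (fT e κ t - vc fr ui)‖ := by congr 1; ring
      _ ≤ _ := norm_add_le _ _
      _ ≤ _ := add_le_add hcf Df
  have DHu : ‖Hh e κ t‖ ≤ vn Hu := by
    rw [hHu, vn_add]
    calc ‖Hh e κ t‖ = ‖vc hr' hi' + (Hh e κ t - vc hr' hi')‖ := by congr 1; ring
      _ ≤ _ := norm_add_le _ _
      _ ≤ _ := add_le_add (norm_vc_le _ _) DH
  refine ⟨⟨Df, DH, DFu, DHu⟩, fun hok => ?_⟩
  change (R.ok && ((Nat.beq Mj 0) || ((Nat.ble P flo) &&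
        (Nat.ble (Nat.mul 1024 Hu) (Nat.mul Mj (Nat.sub flo P)))))) = true at hok
  rw [Bool.and_eq_true, Bool.or_eq_true, Bool.and_eq_true] at hok
  refine ⟨hok.1, fun hMj => ?_⟩
  have hok2 : P ≤ flo ∧ 1024 * Hu ≤ Mj * (flo - P) := by
    rcases hok.2 with h | h
    · exact absurd (Nat.eq_of_beq_eq_true h) hMj
    · exact ⟨Nat.le_of_ble_eq_true h.1, Nat.le_of_ble_eq_true h.2⟩
  -- `flo ≤ |c|`
  have hfl : vn flo ≤ ‖vc fr ui‖ := by
    have hfn0 : 0 < fn := by rw [hfn]; exact Nat.succ_pos _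
    have hfn0' : (0 : ℝ) < fn := by exact_mod_cast hfn0
    have h1 : (flo : ℝ) ≤ ((fr.natAbs * fr.natAbs + ui.natAbs * ui.natAbs : ℕ) : ℝ) / fn := by
      rw [hflo]
      exact Nat.cast_div_le
    have h2 : ((fr.natAbs * fr.natAbs + ui.natAbs * ui.natAbs : ℕ) : ℝ) =
        (‖vc fr ui‖ * 2 ^ 28) ^ 2 := by
      rw [norm_vc, mul_pow, Real.sq_sqrt (by positivity)]
      unfold vn
      push_cast
      ring
    have h3 : ‖vc fr ui‖ * 2 ^ 28 ≤ fn := by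
      have := hcf
      unfold vn at this
      rw [le_div_iff₀ (by positivity)] at this
      exact this
    rw [h2] at h1
    have h4 : (‖vc fr ui‖ * 2 ^ 28) ^ 2 / (fn : ℝ) ≤ ‖vc fr ui‖ * 2 ^ 28 := by
      rw [div_le_iff₀ hfn0', sq]
      exact mul_le_mul_of_nonneg_left h3 (by positivity)
    unfold vn
    rw [div_le_iff₀ (by positivity)]
    exact h1.trans h4
  have hlow : vn flo - vn P ≤ ‖fT e κ t‖ := by
    have h1 : ‖vc fr ui‖ ≤ ‖fT e κ t‖ + ‖fT e κ t - vc fr ui‖ := by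
      calc ‖vc fr ui‖ = ‖fT e κ t - (fT e κ t - vc fr ui)‖ := by congr 1; ring
        _ ≤ _ := norm_sub_le _ _
    linarith
  have hHM : vn Hu ≤ (Mj : ℝ) / 1024 * (vn flo - vn P) := by
    have h1 : (1024 : ℝ) * Hu ≤ Mj * ((flo : ℝ) - P) := by
      have := hok2.2
      have h2 : ((1024 * Hu : ℕ) : ℝ) ≤ ((Mj * (flo - P) : ℕ) : ℝ) := by exact_mod_cast this
      rw [Nat.cast_mul, Nat.cast_mul, Nat.cast_sub hok2.1] at h2
      exact_mod_cast h2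
    unfold vn
    rw [div_sub_div_same, ← mul_div_assoc]
    apply div_le_div_of_nonneg_right _ (by positivity)
    linarith
  have hder : ‖deriv (fT e κ) t‖ = e * Real.sinh κ * ‖Hh e κ t‖ := by
    have hk : 0 < e * Real.sinh κ := mul_pos he hK
    unfold Hh
    rw [norm_div, norm_neg, Complex.norm_real, Real.norm_of_nonneg hk.le]
    field_simp
  unfold MB
  rw [hder]
  have h1 : vn Hu ≤ (Mj : ℝ) / 1024 * ‖fT e κ t‖ :=
    hHM.trans (mul_le_mul_of_nonneg_left hlow (by positivity))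
  calc e * Real.sinh κ * ‖Hh e κ t‖ ≤ e * Real.sinh κ * ((Mj : ℝ) / 1024 * ‖fT e κ t‖) :=
        mul_le_mul_of_nonneg_left (DHu.trans h1) (by positivity)
    _ = _ := by ring

end

end Pool.Agent.helper31.A2
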