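import Pool.Agent.helper31.A2.Cov1
import Pool.Agent.helper31.A2.DomG

/-!
# A2-C: the covers in real form
-/

namespace Pool.Agent.helper31.A2

open Complex ComplexConjugate Set Filter Topology
open Pool.Agent.helper31.EQ.Y Pool.Agent.helper31.EQ.R
open Pool.Agent.helper12.EQL Pool.Agent.helper12.RP Pool.Agent.helper12.FF Pool.Agent.helper12.RS
open Pool.Agent.helper63.FF
open Pool.Agent.helper31.EQB
open Pool.Agent.helper71.FF (RAs zv)
open Pool.Agent.helper31.IA (Z Op InBox)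
open Pool.Agent.helper31.IC (CovD)
open Pool.Agent.helper14.RW

variable {e κ : ℝ}

private theorem absb {x c h : ℝ} (h0 : c - h ≤ x) (h1 : x ≤ c + h) : |x - c| ≤ h :=
  abs_le.2 ⟨by linarith, by linarith⟩

theorem inBox3 {c0 h0 c1 h1 c2 h2 : ℕ} {x y z : ℝ}
    (hx0 : ((c0 : ℝ) - h0) / 2 ^ 40 ≤ x) (hx1 : x ≤ ((c0 : ℝ) + h0) / 2 ^ 40)
    (hy0 : ((c1 : ℝ) - h1) / 2 ^ 40 ≤ y) (hy1 : y ≤ ((c1 : ℝ) + h1) / 2 ^ 40)
    (hz0 : ((c2 : ℝ) - h2) / 2 ^ 40 ≤ z) (hz1 : z ≤ ((c2 : ℝ) + h2) / 2 ^ 40) :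
    InBox [(c0, h0), (c1, h1), (c2, h2)] [x, y, z] := by
  rw [sub_div] at hx0 hy0 hz0
  rw [add_div] at hx1 hy1 hz1
  exact List.Forall₂.cons (absb hx0 hx1) (List.Forall₂.cons (absb hy0 hy1)
    (List.Forall₂.cons (absb hz0 hz1) List.Forall₂.nil))

theorem se_lo (he : 200 ≤ e) (he5 : e ≤ 500) :
    (((63459426304 : ℕ) : ℝ) - ((14287831040 : ℕ) : ℝ)) / 2 ^ 40 ≤ (√e)⁻¹ := by
  refine le_trans (le_of_eq ?_) (inv_sqrt_mem40 he he5).1
  norm_num

theorem se_hi (he : 200 ≤ e) (he5 : e ≤ 500) :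
    (√e)⁻¹ ≤ (((63459426304 : ℕ) : ℝ) + ((14287831040 : ℕ) : ℝ)) / 2 ^ 40 := by
  refine (inv_sqrt_mem40 he he5).2.trans (le_of_eq ?_)
  norm_num

private theorem and3 {a b c : Bool} (h : and a (and b c) = true) : a = true ∧ b = true ∧ c = true := by
  rw [Bool.and_eq_true, Bool.and_eq_true] at h
  exact h

/-- the claim of `cov_LP` -/
def ClLP (e κ : ℝ) (n : ℕ) (y : ℝ) : Prop :=
  ∃ s k y2 js wMo Moie yb ielf Mnie EM EMs yb1 : ℝ, Nonempty (PLv (bet e κ) y s k y2 js) ∧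
    ∃ P : PL (cG n) (√e)⁻¹ (bet e κ) s k y2 wMo Moie yb ielf Mnie EM EMs yb1, ∃ r : CR,
      Nonempty (PLr r y js P) ∧ RowR e κ (famG n) r.ys r.wa r.wb r.o0 r.p0 ∧
      RowR e κ (famG (n + 1)) r.ys r.wa r.wb r.o1 r.p1

private theorem lp_of {T : BT Cert.LPP.Row} {box : List (Nat × Nat)}
    (hT : CovD 0 (progs Cert.LPP.common T) box) {chk : Cert.LPP.Row → Bool} {n j : ℕ}
    (hj : famG n = j) {k : ℕ} (hk : famG (n + 1) = k)
    (hc : ∀ {r : Cert.LPP.Row}, chk r = true → XLP.cO r = cG n)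
    {C D : List (Nat × Nat × List RowD)}
    (hC : ∀ c ∈ C, ∀ r ∈ c.2.2, r.ys ≤ yTop → 0 < r.ys → RowP e κ j r)
    (hD : ∀ c ∈ D, ∀ r ∈ c.2.2, r.ys ≤ yTop → 0 < r.ys → RowP e κ k r)
    (ht : T.all (fun r => and (chk r) (and (mt C r.ys r.wa r.wb r.o0 r.p0 r.p0_m)
      (mt D r.ys r.wa r.wb r.o1 r.p1 r.p1_m))) = true) {y : ℝ}
    (hu : InBox box [(√e)⁻¹, bet e κ, y]) : ClLP e κ n y := by
  obtain ⟨r, hr, hA⟩ := ras_rows Cert.LPP.common_real hT hu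
  obtain ⟨h1, h2, h3⟩ := and3 (BT.all_rows ht r hr)
  obtain ⟨s, k', y2, js, wMo, Moie, yb, ielf, Mnie, EM, EMs, yb1, V, P, Q⟩ := XLP.ex hA
  have hcr := hc h1
  have R0 := rowR_of hC h2
  have R1 := rowR_of hD h3
  subst hj hk
  generalize XLP.cO r = c at P Q hcr
  subst hcr
  exact ⟨s, k', y2, js, wMo, Moie, yb, ielf, Mnie, EM, EMs, yb1, V, P, XLP.rO r, Q, R0, R1⟩

private theorem bp (he : 200 ≤ e) (hκ : 0 < κ) : 0 ≤ bet e κ :=
  (mul_pos (by linarith) (Real.sinh_pos_iff.2 hκ)).le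

/-- links, `33/32 ≤ y` -/
theorem cov_LP (he : 200 ≤ e) (he5 : e ≤ 500) (hκ : 0 < κ) (hb : bet e κ ≤ 5) {n : ℕ}
    (hn : n < 5) {y : ℝ} (hy0 : 33 / 32 ≤ y) (hy1 : y ≤ ynG n) :
    ∃ s k y2 js wMo Moie yb ielf Mnie EM EMs yb1 : ℝ, Nonempty (PLv (bet e κ) y s k y2 js) ∧
    ∃ P : PL (cG n) (√e)⁻¹ (bet e κ) s k y2 wMo Moie yb ielf Mnie EM EMs yb1, ∃ r : CR,
      Nonempty (PLr r y js P) ∧ RowR e κ (famG n) r.ys r.wa r.wb r.o0 r.p0 ∧
      RowR e κ (famG (n + 1)) r.ys r.wa r.wb r.o1 r.p1 := by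
  have b0 := bp he hκ
  have key : ClLP e κ n y := by
    interval_cases n
    · have h : y ≤ 3251 / 1024 := hy1
      exact lp_of Cert.LP0.all_0 (n := 0) (by norm_num [famG]) (by norm_num [famG]) eqLP0
        (row0 he he5 hκ hb) (row1 he he5 hκ hb) tLP0 (inBox3 (se_lo he he5) (se_hi he he5)
        (by norm_num; linarith) (by norm_num; linarith) (by norm_num; linarith)
        (by norm_num; linarith))
    · have h : y ≤ 13121 / 4096 := hy1
      exact lp_of Cert.LP1.all_0 (n := 1) (by norm_num [famG]) (by norm_num [famG]) eqLP1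
        (row1 he he5 hκ hb) (row2 he he5 hκ hb) tLP1 (inBox3 (se_lo he he5) (se_hi he he5)
        (by norm_num; linarith) (by norm_num; linarith) (by norm_num; linarith)
        (by norm_num; linarith))
    · have h : y ≤ 13223 / 4096 := hy1
      exact lp_of Cert.LP2.all_0 (n := 2) (by norm_num [famG]) (by norm_num [famG]) eqLP2
        (row2 he he5 hκ hb) (row3 he he5 hκ hb) tLP2 (inBox3 (se_lo he he5) (se_hi he he5)
        (by norm_num; linarith) (by norm_num; linarith) (by norm_num; linarith)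
        (by norm_num; linarith))
    · have h : y ≤ 1665 / 512 := hy1
      exact lp_of Cert.LP3.all_0 (n := 3) (by norm_num [famG]) (by norm_num [famG]) eqLP3
        (row3 he he5 hκ hb) (row4 he he5 hκ hb) tLP3 (inBox3 (se_lo he he5) (se_hi he he5)
        (by norm_num; linarith) (by norm_num; linarith) (by norm_num; linarith)
        (by norm_num; linarith))
    · have h : y ≤ 3353 / 1024 := hy1
      exact lp_of Cert.LP4.all_0 (n := 4) (by norm_num [famG]) (by norm_num [famG]) eqLP4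
        (row4 he he5 hκ hb) (row4 he he5 hκ hb) tLP4 (inBox3 (se_lo he he5) (se_hi he he5)
        (by norm_num; linarith) (by norm_num; linarith) (by norm_num; linarith)
        (by norm_num; linarith))
  exact key

/-- the claim of `cov_L1` -/
def ClL1 (e : ℝ) (n : ℕ) (s k : ℝ) : Prop :=
  ∃ be y2 wMo Moie yb ielf Mnie EM EMs : ℝ, Nonempty (PLt be s k y2) ∧
    ∃ P : PL (cG n) (√e)⁻¹ be s k y2 wMo Moie yb ielf Mnie EM EMs yb,
      Nonempty (PLc (mG n) P) ∧ PLy2 (mG n) y2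

private theorem l1_of {T : BT Cert.L1P.Row} {box : List (Nat × Nat)}
    (hT : CovD 0 (progs Cert.L1P.common T) box) {chk : Cert.L1P.Row → Bool} {n : ℕ}
    (hc : ∀ {r : Cert.L1P.Row}, chk r = true → XL1.cO r = cG n ∧ XL1.mO r = mG n)
    (ht : T.all (fun r => chk r) = true) {s k : ℝ}
    (hu : InBox box [(√e)⁻¹, s, k]) : ClL1 e n s k := by
  obtain ⟨r, hr, hA⟩ := ras_rows Cert.L1P.common_real hT hu
  obtain ⟨be, y2, wMo, Moie, yb, ielf, Mnie, EM, EMs, V, P, Q, h⟩ := XL1.ex hA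
  obtain ⟨h1, h2⟩ := hc (BT.all_rows ht r hr)
  generalize XL1.cO r = c at P Q h1
  generalize XL1.mO r = m at Q h h2
  subst h1 h2
  exact ⟨be, y2, wMo, Moie, yb, ielf, Mnie, EM, EMs, V, P, Q, h⟩

/-- links, `s ≤ 3/4` -/
theorem cov_L1 (he : 200 ≤ e) (he5 : e ≤ 500) {n : ℕ} (hn : n < 5) {s k : ℝ} (hs0 : 0 ≤ s)
    (hs1 : s ≤ 3 / 4) (hk0 : 0 ≤ k) (hk1 : k ≤ 1) :
    ∃ be y2 wMo Moie yb ielf Mnie EM EMs : ℝ, Nonempty (PLt be s k y2) ∧
    ∃ P : PL (cG n) (√e)⁻¹ be s k y2 wMo Moie yb ielf Mnie EM EMs yb,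
      Nonempty (PLc (mG n) P) ∧ PLy2 (mG n) y2 := by
  have hu : InBox [(63459426304, 14287831040), (412316860416, 412316860416),
      (549755813888, 549755813888)] [(√e)⁻¹, s, k] :=
    inBox3 (se_lo he he5) (se_hi he he5) (by norm_num; linarith) (by norm_num; linarith)
      (by norm_num; linarith) (by norm_num; linarith)
  have key : ClL1 e n s k := by
    interval_cases n
    · exact l1_of Cert.L10.all_0 eqL10 tL10 hu
    · exact l1_of Cert.L11.all_0 eqL11 tL11 hu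
    · exact l1_of Cert.L12.all_0 eqL12 tL12 hu
    · exact l1_of Cert.L13.all_0 eqL13 tL13 hu
    · exact l1_of Cert.L14.all_0 eqL14 tL14 hu
  exact key

/-- the claim of `cov_L2` -/
def ClL2 (e : ℝ) (n : ℕ) (be y : ℝ) : Prop :=
  ∃ s k y2 js wMo Moie yb ielf Mnie EM EMs : ℝ, Nonempty (PLv be y s k y2 js) ∧
    ∃ P : PL (cG n) (√e)⁻¹ be s k y2 wMo Moie yb ielf Mnie EM EMs yb,
      Nonempty (PLc (mG n) P) ∧ PLy1 (mG n) y

private theorem l2_of {T : BT Cert.L2P.Row} {box : List (Nat × Nat)}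
    (hT : CovD 0 (progs Cert.L2P.common T) box) {chk : Cert.L2P.Row → Bool} {n : ℕ}
    (hc : ∀ {r : Cert.L2P.Row}, chk r = true → XL2.cO r = cG n ∧ XL2.mO r = mG n)
    (ht : T.all (fun r => chk r) = true) {be y : ℝ}
    (hu : InBox box [(√e)⁻¹, be, y]) : ClL2 e n be y := by
  obtain ⟨r, hr, hA⟩ := ras_rows Cert.L2P.common_real hT hu
  obtain ⟨s, k, y2, js, wMo, Moie, yb, ielf, Mnie, EM, EMs, V, P, Q, h⟩ := XL2.ex hA
  obtain ⟨h1, h2⟩ := hc (BT.all_rows ht r hr)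
  generalize XL2.cO r = c at P Q h1
  generalize XL2.mO r = m at Q h h2
  subst h1 h2
  exact ⟨s, k, y2, js, wMo, Moie, yb, ielf, Mnie, EM, EMs, V, P, Q, h⟩

private theorem boxB {e be y : ℝ} (he : 200 ≤ e) (he5 : e ≤ 500) (hb0 : 1 / 2 ≤ be)
    (hb1 : be ≤ 5) (hy0 : 0 ≤ y) (hy1 : y ≤ 33 / 32) :
    InBox [(63459426304, 14287831040), (3023656976384, 2473901162496),
      (566935683072, 566935683072)] [(√e)⁻¹, be, y] :=
  inBox3 (se_lo he he5) (se_hi he he5) (by norm_num; linarith) (by norm_num; linarith)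
    (by norm_num; linarith) (by norm_num; linarith)

private theorem boxC {e be y : ℝ} (he : 200 ≤ e) (he5 : e ≤ 500) (hb0 : 0 ≤ be)
    (hb1 : be ≤ 1 / 2) (hy0 : 1 / 2 ≤ y) (hy1 : y ≤ 33 / 32) :
    InBox [(63459426304, 14287831040), (274877906944, 274877906944),
      (841813590016, 292057776128)] [(√e)⁻¹, be, y] :=
  inBox3 (se_lo he he5) (se_hi he he5) (by norm_num; linarith) (by norm_num; linarith)
    (by norm_num; linarith) (by norm_num; linarith)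

/-- links, `y ≤ 33/32`, `1/2 ≤ β` or `1/2 ≤ y` -/
theorem cov_L2 (he : 200 ≤ e) (he5 : e ≤ 500) {n : ℕ} (hn : n < 5) {be y : ℝ} (hb0 : 0 ≤ be)
    (hb1 : be ≤ 5) (hy0 : 0 ≤ y) (hy1 : y ≤ 33 / 32) (h : 1 / 2 ≤ be ∨ 1 / 2 ≤ y) :
    ∃ s k y2 js wMo Moie yb ielf Mnie EM EMs : ℝ, Nonempty (PLv be y s k y2 js) ∧
    ∃ P : PL (cG n) (√e)⁻¹ be s k y2 wMo Moie yb ielf Mnie EM EMs yb,
      Nonempty (PLc (mG n) P) ∧ PLy1 (mG n) y := by
  have hB : 1 / 2 ≤ be → ClL2 e n be y := fun h1 => by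
    have hu := boxB he he5 h1 hb1 hy0 hy1
    interval_cases n
    · exact l2_of Cert.L20.all_0 eqL20 tL20 hu
    · exact l2_of Cert.L21.all_0 eqL21 tL21 hu
    · exact l2_of Cert.L22.all_0 eqL22 tL22 hu
    · exact l2_of Cert.L23.all_0 eqL23 tL23 hu
    · exact l2_of Cert.L24.all_0 eqL24 tL24 hu
  have key : ClL2 e n be y := by
    rcases h with h | h
    · exact hB h
    · rcases le_total (1 / 2) be with h1 | h1
      · exact hB h1
      · have hu := boxC he he5 hb0 h1 h hy1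
        interval_cases n
        · exact l2_of Cert.L20.all_1 eqL20 tL20 hu
        · exact l2_of Cert.L21.all_1 eqL21 tL21 hu
        · exact l2_of Cert.L22.all_1 eqL22 tL22 hu
        · exact l2_of Cert.L23.all_1 eqL23 tL23 hu
        · exact l2_of Cert.L24.all_1 eqL24 tL24 hu
  exact key

/-- first node, `33/32 ≤ v` -/
theorem cov_FP (he : 200 ≤ e) (he5 : e ≤ 500) (hκ : 0 < κ) (hb : bet e κ ≤ 5) {v : ℝ}
    (hv0 : 33 / 32 ≤ v) (hv1 : v ≤ Real.pi) :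
    ∃ R kc vs iR GrS GtS G2S Ma Mb M1 : ℝ, Nonempty (PFv (bet e κ) v R kc vs iR) ∧
    ∃ P : PF cF2 (√e)⁻¹ (bet e κ) v R kc vs GrS GtS G2S Ma Mb M1, Nonempty (PFg iR P) ∧
    ∃ r : CR, Nonempty (PFr r P) ∧ RowR e κ 0 r.ys r.wa r.wb r.o0 r.p0 ∧
      RowR e κ 1 r.ys r.wa r.wb r.o1 r.p1 := by
  have b0 := bp he hκ
  have hpi : v ≤ 3.14159266 := hv1.trans (by linarith [Real.pi_lt_d20])
  have hu : InBox [(63459426304, 14287831040), (2748779069440, 2748779069440),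
      (2294044557312, 1160173191168)] [(√e)⁻¹, bet e κ, v] :=
    inBox3 (se_lo he he5) (se_hi he he5) (by norm_num; linarith) (by norm_num; linarith)
      (by norm_num; linarith) (hpi.trans (by norm_num))
  obtain ⟨r, hr, hA⟩ := ras_rows Cert.FPP.common_real Cert.FPQ.all_0 hu
  obtain ⟨h1, h2, h3⟩ := and3 (BT.all_rows tFP r hr)
  obtain ⟨R, kc, vs, iR, GrS, GtS, G2S, Ma, Mb, M1, V, P, Q, S⟩ := XFP.ex hA
  have hcr := eqFP h1
  have R0 := rowR_of (row0 he he5 hκ hb) h2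
  have R1 := rowR_of (row1 he he5 hκ hb) h3
  generalize XFP.cO r = c at P Q S hcr
  subst hcr
  exact ⟨R, kc, vs, iR, GrS, GtS, G2S, Ma, Mb, M1, V, P, Q, XFP.rO r, S, R0, R1⟩

/-- test -/
theorem cov_FT (he : 200 ≤ e) (he5 : e ≤ 500) (hκ : 0 < κ) (hb : bet e κ ≤ 5) :
    ∃ R kc vs iR GrS GtS G2S Ma Mb M1 : ℝ, Nonempty (PFv (bet e κ) Real.pi R kc vs iR) ∧
    ∃ P : PF cF2 (√e)⁻¹ (bet e κ) Real.pi R kc vs GrS GtS G2S Ma Mb M1, Nonempty (PFg iR P) ∧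
    Nonempty (PFT P) ∧ ∃ r : CR, Nonempty (PFr r P) ∧ RowR e κ 0 r.ys r.wa r.wb r.o0 r.p0 ∧
      RowR e κ 1 r.ys r.wa r.wb r.o1 r.p1 := by
  have b0 := bp he hκ
  have p0 : (3.141592653 : ℝ) ≤ Real.pi := by linarith [Real.pi_gt_d20]
  have p1 : Real.pi ≤ 3.141592654 := by linarith [Real.pi_lt_d20]
  have hu : InBox [(63459426304, 14287831040), (2748779069440, 2748779069440),
      (3454217682944, 65536)] [(√e)⁻¹, bet e κ, Real.pi] :=
    inBox3 (se_lo he he5) (se_hi he he5) (by norm_num; linarith) (by norm_num; linarith)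
      (le_trans (by norm_num) p0) (p1.trans (by norm_num))
  obtain ⟨r, hr, hA⟩ := ras_rows Cert.FTP.common_real Cert.FTQ.all_0 hu
  obtain ⟨h1, h2, h3⟩ := and3 (BT.all_rows tFT r hr)
  obtain ⟨R, kc, vs, iR, GrS, GtS, G2S, Ma, Mb, M1, V, P, Q, S, t⟩ := XFT.ex hA
  have hcr := eqFT h1
  have R0 := rowR_of (row0 he he5 hκ hb) h2
  have R1 := rowR_of (row1 he he5 hκ hb) h3
  generalize XFT.cO r = c at P Q S t hcr
  subst hcr
  exact ⟨R, kc, vs, iR, GrS, GtS, G2S, Ma, Mb, M1, V, P, Q, t, XFT.rO r, S, R0, R1⟩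

/-- first node, `R ≤ 3/4` -/
theorem cov_F1 (he : 200 ≤ e) (he5 : e ≤ 500) {R t : ℝ} (hR0 : 0 ≤ R) (hR1 : R ≤ 3 / 4)
    (ht0 : 0 ≤ t) (ht1 : t ≤ 1) :
    ∃ be v kc vs GrS GtS G2S Ma Mb M1 : ℝ, Nonempty (PFt R t be v kc vs) ∧
    ∃ P : PF cF2 (√e)⁻¹ be v R kc vs GrS GtS G2S Ma Mb M1, Nonempty (PFh P) ∧ PFc mF2 P := by
  have hu : InBox [(63459426304, 14287831040), (412316860416, 412316860416),
      (549755813888, 549755813888)] [(√e)⁻¹, R, t] :=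
    inBox3 (se_lo he he5) (se_hi he he5) (by norm_num; linarith) (by norm_num; linarith)
      (by norm_num; linarith) (by norm_num; linarith)
  obtain ⟨r, hr, hA⟩ := ras_rows Cert.F1P.common_real Cert.F1Q.all_0 hu
  obtain ⟨be, v, kc, vs, GrS, GtS, G2S, Ma, Mb, M1, V, P, Q, S⟩ := XF1.ex hA
  obtain ⟨h1, h2⟩ := eqF1 (BT.all_rows tF1 r hr)
  generalize XF1.cO r = c at P Q S h1
  generalize XF1.mO r = m at S h2
  subst h1 h2
  exact ⟨be, v, kc, vs, GrS, GtS, G2S, Ma, Mb, M1, V, P, Q, S⟩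

/-- first node, `v ≤ 33/32`, `1/2 ≤ β` or `1/2 ≤ v` -/
theorem cov_F2 (he : 200 ≤ e) (he5 : e ≤ 500) {be v : ℝ} (hb0 : 0 ≤ be) (hb1 : be ≤ 5)
    (hv0 : 0 ≤ v) (hv1 : v ≤ 33 / 32) (h : 1 / 2 ≤ be ∨ 1 / 2 ≤ v) :
    ∃ R kc vs iR GrS GtS G2S Ma Mb M1 : ℝ, Nonempty (PFv be v R kc vs iR) ∧
    ∃ P : PF cF2 (√e)⁻¹ be v R kc vs GrS GtS G2S Ma Mb M1, Nonempty (PFh P) ∧ PFc mF2 P := by
  have key : ∀ {box : List (Nat × Nat)}, CovD 0 (progs Cert.F2P.common Cert.F2Q.T) box →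
      InBox box [(√e)⁻¹, be, v] →
      ∃ R kc vs iR GrS GtS G2S Ma Mb M1 : ℝ, Nonempty (PFv be v R kc vs iR) ∧
      ∃ P : PF cF2 (√e)⁻¹ be v R kc vs GrS GtS G2S Ma Mb M1, Nonempty (PFh P) ∧ PFc mF2 P := by
    intro box hc hu
    obtain ⟨r, hr, hA⟩ := ras_rows Cert.F2P.common_real hc hu
    obtain ⟨R, kc, vs, iR, GrS, GtS, G2S, Ma, Mb, M1, V, P, Q, S⟩ := XF2.ex hA
    obtain ⟨h1, h2⟩ := eqF2 (BT.all_rows tF2 r hr)
    generalize XF2.cO r = c at P Q S h1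
    generalize XF2.mO r = m at S h2
    subst h1 h2
    exact ⟨R, kc, vs, iR, GrS, GtS, G2S, Ma, Mb, M1, V, P, Q, S⟩
  rcases le_total (1 / 2) be with h1 | h1
  · exact key Cert.F2Q.all_0 (boxB he he5 h1 hb1 hv0 hv1)
  · rcases h with h | h
    · exact key Cert.F2Q.all_0 (boxB he he5 h hb1 hv0 hv1)
    · exact key Cert.F2Q.all_1 (boxC he he5 hb0 h1 h hv1)

end Pool.Agent.helper31.A2
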