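import Pool.Agent.helper31.A2.RowD
import Pool.Agent.helper31.A2.PXr

/-!
# A2: the table of the bounds `PX` for small `w`

`PxP e κ q`: `|y| ≤ vn q.yb`, `√(S/e) ≤ vn q.w`: then `β²/e ≤ S/e ≤ B := (vn q.w)²`, so `PX_pick`, `PX_unif` with `S0 = B e + y0²`
(`(S0 + 1)/e ≤ B + (y0² + 1)/200`).  Entries: `y0 = 1.05, 1.35, 1.6, 1.8, 2.0` with `B = 0.02`; `1.05` with `B = 0.04`; `1.35` with `B = 0.03`; `1.6` with
`B = 0.025`.
-/

namespace Pool.Agent.helper31.A2

open Complex ComplexConjugate Set Filter Topology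
open Pool.Agent.helper31.EQ.Y Pool.Agent.helper31.EQ.R
open Pool.Agent.helper12.EQL Pool.Agent.helper12.RP Pool.Agent.helper12.FF
open Pool.Agent.helper31.EQB

/-- the table of the bounds used -/
def pxTab : List PxD := [
  ⟨281857229, 37962506, [2918, 1894, 1280, 1069, 1024]⟩,
  ⟨362387866, 37962506, [3254, 2230, 1477, 1209, 1078]⟩,
  ⟨429496730, 37962506, [3738, 2714, 1753, 1416, 1249]⟩,
  ⟨483183821, 37962506, [4162, 3138, 2114, 1680, 1467]⟩,
  ⟨536870912, 37962506, [4791, 3767, 2743, 2121, 1823]⟩,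
  ⟨281857229, 53687091, [2957, 1933, 1302, 1084, 1024]⟩,
  ⟨362387866, 46494384, [3289, 2265, 1496, 1223, 1088]⟩,
  ⟨429496730, 42443372, [3770, 2746, 1770, 1428, 1258]⟩]

/-- the table of the bounds reached -/
def pxTabS : List PxD := [
  ⟨281857229, 37962506, [2576, 1552, 1024, 1024, 1024]⟩,
  ⟨362387866, 37962506, [2960, 1936, 1152, 1024, 1024]⟩,
  ⟨429496730, 37962506, [3424, 2400, 1376, 1136, 1024]⟩,
  ⟨483183821, 37962506, [3728, 2704, 1680, 1344, 1200]⟩,
  ⟨536870912, 37962506, [4320, 3296, 2272, 1680, 1472]⟩,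
  ⟨281857229, 53687091, [2592, 1568, 1024, 1024, 1024]⟩,
  ⟨362387866, 46494384, [2992, 1968, 1168, 1024, 1024]⟩,
  ⟨429496730, 42443372, [3440, 2416, 1392, 1136, 1024]⟩]

variable {e κ x y0 M B : ℝ}

/-- the angle -/
noncomputable def thq3 (B y0 M0 : ℝ) : ℝ := y0 + (B + (y0 ^ 2 + 1) / 200) * M0

/-- upper bound of `1/lam` if `K² ≤ B/200` -/
noncomputable def liq3 (B X : ℝ) : ℝ := (1 + 4 * (B / 200) * X ^ 2 / 3) / (X * (1 - B / 200 / 6))

theorem liq3_ge {K X : ℝ} (hK0 : 0 ≤ K) (hKb : K ^ 2 ≤ B / 200) (hB0 : 0 ≤ B) (hB : B ≤ 1 / 20)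
    (hX : 0 < X) : 1 / lam K X ≤ liq3 B X := by
  have h1 : 0 < 1 - B / 200 / 6 := by linarith
  have h2 : 1 - B / 200 / 6 ≤ 1 - K ^ 2 / 6 := by linarith
  have h3' : 0 ≤ K * (1 - K ^ 2 / 6) := mul_nonneg hK0 (by linarith)
  have h3 : K * (1 - K ^ 2 / 6) ≤ K := by
    have : K * (1 - K ^ 2 / 6) ≤ K * 1 := mul_le_mul_of_nonneg_left (by nlinarith [sq_nonneg K]) hK0
    linarith
  have h4 : (2 * (K * (1 - K ^ 2 / 6)) * X) ^ 2 ≤ 4 * (B / 200) * X ^ 2 := by
    have a1 : (K * (1 - K ^ 2 / 6)) ^ 2 ≤ K ^ 2 := pow_le_pow_left₀ h3' h3 2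
    have a2 : (2 * (K * (1 - K ^ 2 / 6)) * X) ^ 2 = 4 * (K * (1 - K ^ 2 / 6)) ^ 2 * X ^ 2 := by ring
    rw [a2]
    apply mul_le_mul_of_nonneg_right _ (by positivity)
    linarith
  have h5 : (1 - B / 200 / 6) * X / (1 + 4 * (B / 200) * X ^ 2 / 3) ≤ lam K X := by
    unfold lam
    have a1 : (1 - B / 200 / 6) * X / (1 + 4 * (B / 200) * X ^ 2 / 3) ≤
        (1 - K ^ 2 / 6) * X / (1 + (2 * (K * (1 - K ^ 2 / 6)) * X) ^ 2 / 3) := by
      apply div_le_div₀
      · exact mul_nonneg (by linarith) hX.le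
      · exact mul_le_mul_of_nonneg_right h2 hX.le
      · positivity
      · linarith
    refine a1.trans ?_
    apply le_mul_of_one_le_right
    · apply div_nonneg (mul_nonneg (by linarith) hX.le)
      positivity
    · have := sq_nonneg (thf K X)
      linarith
  have h6 : 0 < (1 - B / 200 / 6) * X / (1 + 4 * (B / 200) * X ^ 2 / 3) := by positivity
  calc 1 / lam K X ≤ 1 / ((1 - B / 200 / 6) * X / (1 + 4 * (B / 200) * X ^ 2 / 3)) :=
        one_div_le_one_div_of_le h6 h5
    _ = liq3 B X := by unfold liq3; rw [one_div_div]; ring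

/-- numerical conditions of a step -/
structure PC3 (B y0 X M0 M : ℝ) : Prop where
  X0 : 0 < X
  M1 : 1 ≤ M
  m0 : 0 ≤ M0
  R : (B + (y0 ^ 2 + 1) / 200) * (1 / 2 + M0) ≤ 19 / 10
  T : thq3 B y0 M0 ≤ 314 / 100
  N : 1 + B / 200 / 2 + (1 / 2 + M0) * (liq3 B X + 1 / 200) ≤ nuq (thq3 B y0 M0) * M

/-- the numbers `B`, `y0` and the bound of `β` -/
structure PB3 (e κ B y0 : ℝ) : Prop where
  he : 200 ≤ e
  hκ : 0 < κ
  B0 : 0 ≤ B
  B1 : B ≤ 1 / 20
  y00 : 0 ≤ y0
  hb : bet e κ ^ 2 ≤ B * e

theorem PC3.facts {X M0 : ℝ} (H : PB3 e κ B y0) (P : PC3 B y0 X M0 M) :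
    Real.sinh κ ≤ 1 / 10 ∧ bet e κ ^ 2 + y0 ^ 2 ≤ B * e + y0 ^ 2 ∧
    (B * e + y0 ^ 2 + 1) / e * (1 / 2 + M0) ≤ 19 / 10 ∧
    y0 + (B * e + y0 ^ 2 + 1) / e * M0 < Real.pi ∧
    nuq (thq3 B y0 M0) ≤ 2 * Real.cos ((y0 + (B * e + y0 ^ 2 + 1) / e * M0) / 2) ∧
    0 < nuq (thq3 B y0 M0) ∧
    1 + Real.sinh κ ^ 2 / 2 + (1 / 2 + M0) * (1 / lam (Real.sinh κ) X + 1 / e) ≤
      nuq (thq3 B y0 M0) * M := by
  have he := H.he
  have hκ := H.hκ
  have hy0 := H.y00
  have hB0 := H.B0
  have hB1 := H.B1
  have he0 : 0 < e := by linarith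
  have hK0 : 0 < Real.sinh κ := Real.sinh_pos_iff.2 hκ
  have hKK : Real.sinh κ ^ 2 ≤ B / 200 := by
    have h1 := H.hb
    unfold bet at h1
    have h2 : e * Real.sinh κ ^ 2 ≤ B := by
      have h3 : e * (e * Real.sinh κ ^ 2) ≤ e * B := by
        calc e * (e * Real.sinh κ ^ 2) = (e * Real.sinh κ) ^ 2 := by ring
          _ ≤ B * e := h1
          _ = e * B := by ring
      exact le_of_mul_le_mul_left h3 he0
    have h4 : 200 * Real.sinh κ ^ 2 ≤ e * Real.sinh κ ^ 2 :=
      mul_le_mul_of_nonneg_right he (sq_nonneg _)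
    linarith
  have hK1 : Real.sinh κ ≤ 1 / 10 := by
    by_contra hc
    push Not at hc
    nlinarith
  have hm0 := P.m0
  have hSd : (B * e + y0 ^ 2 + 1) / e = B + (y0 ^ 2 + 1) / e := by
    field_simp
    ring
  have hSe : (B * e + y0 ^ 2 + 1) / e ≤ B + (y0 ^ 2 + 1) / 200 := by
    rw [hSd]
    have : (y0 ^ 2 + 1) / e ≤ (y0 ^ 2 + 1) / 200 :=
      div_le_div_of_nonneg_left (by positivity) (by norm_num) he
    linarith
  have hSe0 : 0 ≤ (B * e + y0 ^ 2 + 1) / e := by positivity
  have hθ : y0 + (B * e + y0 ^ 2 + 1) / e * M0 ≤ thq3 B y0 M0 := by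
    unfold thq3
    have := mul_le_mul_of_nonneg_right hSe hm0
    linarith
  have hθ0 : 0 ≤ y0 + (B * e + y0 ^ 2 + 1) / e * M0 := by positivity
  have hπ := Real.pi_gt_d2
  have hN : 1 + Real.sinh κ ^ 2 / 2 + (1 / 2 + M0) * (1 / lam (Real.sinh κ) X + 1 / e) ≤
      nuq (thq3 B y0 M0) * M := by
    refine le_trans ?_ P.N
    have a1 := liq3_ge hK0.le hKK hB0 hB1 P.X0
    have a2 : 1 / e ≤ 1 / 200 := one_div_le_one_div_of_le (by norm_num) he
    have a4 : (1 / 2 + M0) * (1 / lam (Real.sinh κ) X + 1 / e) ≤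
        (1 / 2 + M0) * (liq3 B X + 1 / 200) :=
      mul_le_mul_of_nonneg_left (by linarith) (by linarith)
    linarith
  have hl := lam_pos2 hK0.le (by linarith : Real.sinh κ ≤ 1) P.X0
  refine ⟨hK1, by linarith [H.hb], ?_, ?_, ?_, ?_, hN⟩
  · exact (mul_le_mul_of_nonneg_right hSe (by linarith)).trans P.R
  · linarith [P.T]
  · refine (nuq_le (hθ0.trans hθ)).trans ?_
    have := Real.cos_le_cos_of_nonneg_of_le_pi (x := (y0 + (B * e + y0 ^ 2 + 1) / e * M0) / 2)
      (y := thq3 B y0 M0 / 2) (by linarith) (by linarith [P.T]) (by linarith)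
    linarith
  · have h1 : 0 < nuq (thq3 B y0 M0) * M := by
      refine lt_of_lt_of_le ?_ hN
      positivity
    exact (mul_pos_iff_of_pos_right (by linarith [P.M1])).1 h1

theorem pick_row3 {X M0 : ℝ} (H : PB3 e κ B y0) (P : PC3 B y0 X M0 M) (h : PX e κ X y0 M0) :
    PX e κ X y0 M := by
  obtain ⟨h1, h2, h3, h4, h5, h6, h7⟩ := P.facts H
  exact PX_pick H.he H.hκ h1 P.X0 le_rfl h2 P.m0 H.y00 h h3 h4 h6 h5 P.M1 h7

theorem unif_row3 {X : ℝ} (H : PB3 e κ B y0) (P : PC3 B y0 X (1 + M) M) : PX e κ X y0 M := by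
  obtain ⟨h1, h2, h3, h4, h5, h6, h7⟩ := P.facts H
  refine PX_unif H.he H.hκ h1 P.X0 h2 H.y00 ?_ h4 h6 h5 P.M1 ?_
  · rw [show (3:ℝ) / 2 + M = 1 / 2 + (1 + M) by ring]; exact h3
  · rw [show (3:ℝ) / 2 + M = 1 / 2 + (1 + M) by ring]; exact h7

theorem dn_row3 {x' M' : ℝ} (H : PB3 e κ B y0) (hM : 0 ≤ M) (hx : x' + 1 = x)
    (hM' : 1 + M = M') (h : PX e κ x y0 M) : PX e κ x' y0 M' := by
  rw [← hM']
  exact PX_dn (by linarith [H.he]) H.hκ hM (by rw [hx]; exact h)

theorem pxp_of {q : PxD} {y1 B1 : ℝ} (he : 200 ≤ e) (hκ : 0 < κ) (hy : vn q.yb ≤ y1) (hw : vn q.w ^ 2 ≤ B1)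
    (hB1 : B1 ≤ 1 / 20)
    (h : PB3 e κ B1 y1 → ∀ j : ℕ, j ≤ 4 → PX e κ (3 / 10 + j) y1 ((q.m.getD j 0 : ℝ) / 1024)) : PxP e κ q := by
  intro j hj z hz ho hyz hS
  have he0 : 0 < e := by linarith
  have hSp := Sz_pos he0 hκ z
  have hy0 : 0 ≤ vn q.yb := by unfold vn; positivity
  have hSe : Sz e κ z / e ≤ B1 := by
    have h1 : √(Sz e κ z / e) ^ 2 ≤ vn q.w ^ 2 := pow_le_pow_left₀ (Real.sqrt_nonneg _) hS 2
    rw [Real.sq_sqrt (by positivity)] at h1
    exact h1.trans hw
  have hB0 : 0 ≤ B1 := le_trans (by positivity) hSe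
  rw [div_le_iff₀ he0] at hSe
  have hb : bet e κ ^ 2 ≤ B1 * e := by
    refine le_trans ?_ hSe
    unfold Sz
    nlinarith [sq_nonneg (yz e κ z)]
  exact h ⟨he, hκ, hB0, hB1, hy0.trans hy, hb⟩ j hj z hz ho (hyz.trans hy)

private theorem pr0_0 (H : PB3 e κ (1 / 50) (1050001 / 1000000)) :
    PX e κ (3 / 10) (1050001 / 1000000) (161 / 64) := by
  have h0 : PX e κ (13 / 10) (1050001 / 1000000) (77 / 32) := unif_row3 H
    (by constructor <;> norm_num [thq3, nuq, liq3])
  have h1 : PX e κ (13 / 10) (1050001 / 1000000) (123 / 64) := pick_row3 H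
    (by constructor <;> norm_num [thq3, nuq, liq3]) h0
  have h2 : PX e κ (13 / 10) (1050001 / 1000000) (109 / 64) := pick_row3 H
    (by constructor <;> norm_num [thq3, nuq, liq3]) h1
  have h3 : PX e κ (13 / 10) (1050001 / 1000000) (51 / 32) := pick_row3 H
    (by constructor <;> norm_num [thq3, nuq, liq3]) h2
  have h4 : PX e κ (13 / 10) (1050001 / 1000000) (99 / 64) := pick_row3 H
    (by constructor <;> norm_num [thq3, nuq, liq3]) h3
  have h5 : PX e κ (13 / 10) (1050001 / 1000000) (97 / 64) := pick_row3 H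
    (by constructor <;> norm_num [thq3, nuq, liq3]) h4
  have h6 : PX e κ (3 / 10) (1050001 / 1000000) (161 / 64) := dn_row3 H (by norm_num) (by norm_num) (by norm_num) h5
  exact h6

private theorem pr0_1 (H : PB3 e κ (1 / 50) (1050001 / 1000000)) :
    PX e κ (13 / 10) (1050001 / 1000000) (97 / 64) := by
  have h0 : PX e κ (13 / 10) (1050001 / 1000000) (77 / 32) := unif_row3 H
    (by constructor <;> norm_num [thq3, nuq, liq3])
  have h1 : PX e κ (13 / 10) (1050001 / 1000000) (123 / 64) := pick_row3 H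
    (by constructor <;> norm_num [thq3, nuq, liq3]) h0
  have h2 : PX e κ (13 / 10) (1050001 / 1000000) (109 / 64) := pick_row3 H
    (by constructor <;> norm_num [thq3, nuq, liq3]) h1
  have h3 : PX e κ (13 / 10) (1050001 / 1000000) (51 / 32) := pick_row3 H
    (by constructor <;> norm_num [thq3, nuq, liq3]) h2
  have h4 : PX e κ (13 / 10) (1050001 / 1000000) (99 / 64) := pick_row3 H
    (by constructor <;> norm_num [thq3, nuq, liq3]) h3
  have h5 : PX e κ (13 / 10) (1050001 / 1000000) (97 / 64) := pick_row3 H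
    (by constructor <;> norm_num [thq3, nuq, liq3]) h4
  exact h5

private theorem pr0_2 (H : PB3 e κ (1 / 50) (1050001 / 1000000)) :
    PX e κ (23 / 10) (1050001 / 1000000) 1 := by
  have h0 : PX e κ (23 / 10) (1050001 / 1000000) (85 / 64) := unif_row3 H
    (by constructor <;> norm_num [thq3, nuq, liq3])
  have h1 : PX e κ (23 / 10) (1050001 / 1000000) (17 / 16) := pick_row3 H
    (by constructor <;> norm_num [thq3, nuq, liq3]) h0
  have h2 : PX e κ (23 / 10) (1050001 / 1000000) 1 := pick_row3 H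
    (by constructor <;> norm_num [thq3, nuq, liq3]) h1
  exact h2

private theorem pr0_3 (H : PB3 e κ (1 / 50) (1050001 / 1000000)) :
    PX e κ (33 / 10) (1050001 / 1000000) 1 := by
  have h0 : PX e κ (33 / 10) (1050001 / 1000000) (17 / 16) := unif_row3 H
    (by constructor <;> norm_num [thq3, nuq, liq3])
  have h1 : PX e κ (33 / 10) (1050001 / 1000000) 1 := pick_row3 H
    (by constructor <;> norm_num [thq3, nuq, liq3]) h0
  exact h1

private theorem pr0_4 (H : PB3 e κ (1 / 50) (1050001 / 1000000)) :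
    PX e κ (43 / 10) (1050001 / 1000000) 1 := by
  have h0 : PX e κ (43 / 10) (1050001 / 1000000) 1 := unif_row3 H
    (by constructor <;> norm_num [thq3, nuq, liq3])
  exact h0

private theorem pr1_0 (H : PB3 e κ (1 / 50) (1350001 / 1000000)) :
    PX e κ (3 / 10) (1350001 / 1000000) (185 / 64) := by
  have h0 : PX e κ (13 / 10) (1350001 / 1000000) (199 / 64) := unif_row3 H
    (by constructor <;> norm_num [thq3, nuq, liq3])
  have h1 : PX e κ (13 / 10) (1350001 / 1000000) (163 / 64) := pick_row3 H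
    (by constructor <;> norm_num [thq3, nuq, liq3]) h0
  have h2 : PX e κ (13 / 10) (1350001 / 1000000) (143 / 64) := pick_row3 H
    (by constructor <;> norm_num [thq3, nuq, liq3]) h1
  have h3 : PX e κ (13 / 10) (1350001 / 1000000) (33 / 16) := pick_row3 H
    (by constructor <;> norm_num [thq3, nuq, liq3]) h2
  have h4 : PX e κ (13 / 10) (1350001 / 1000000) (63 / 32) := pick_row3 H
    (by constructor <;> norm_num [thq3, nuq, liq3]) h3
  have h5 : PX e κ (13 / 10) (1350001 / 1000000) (123 / 64) := pick_row3 H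
    (by constructor <;> norm_num [thq3, nuq, liq3]) h4
  have h6 : PX e κ (13 / 10) (1350001 / 1000000) (61 / 32) := pick_row3 H
    (by constructor <;> norm_num [thq3, nuq, liq3]) h5
  have h7 : PX e κ (13 / 10) (1350001 / 1000000) (121 / 64) := pick_row3 H
    (by constructor <;> norm_num [thq3, nuq, liq3]) h6
  have h8 : PX e κ (3 / 10) (1350001 / 1000000) (185 / 64) := dn_row3 H (by norm_num) (by norm_num) (by norm_num) h7
  exact h8

private theorem pr1_1 (H : PB3 e κ (1 / 50) (1350001 / 1000000)) :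
    PX e κ (13 / 10) (1350001 / 1000000) (121 / 64) := by
  have h0 : PX e κ (13 / 10) (1350001 / 1000000) (199 / 64) := unif_row3 H
    (by constructor <;> norm_num [thq3, nuq, liq3])
  have h1 : PX e κ (13 / 10) (1350001 / 1000000) (163 / 64) := pick_row3 H
    (by constructor <;> norm_num [thq3, nuq, liq3]) h0
  have h2 : PX e κ (13 / 10) (1350001 / 1000000) (143 / 64) := pick_row3 H
    (by constructor <;> norm_num [thq3, nuq, liq3]) h1
  have h3 : PX e κ (13 / 10) (1350001 / 1000000) (33 / 16) := pick_row3 H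
    (by constructor <;> norm_num [thq3, nuq, liq3]) h2
  have h4 : PX e κ (13 / 10) (1350001 / 1000000) (63 / 32) := pick_row3 H
    (by constructor <;> norm_num [thq3, nuq, liq3]) h3
  have h5 : PX e κ (13 / 10) (1350001 / 1000000) (123 / 64) := pick_row3 H
    (by constructor <;> norm_num [thq3, nuq, liq3]) h4
  have h6 : PX e κ (13 / 10) (1350001 / 1000000) (61 / 32) := pick_row3 H
    (by constructor <;> norm_num [thq3, nuq, liq3]) h5
  have h7 : PX e κ (13 / 10) (1350001 / 1000000) (121 / 64) := pick_row3 H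
    (by constructor <;> norm_num [thq3, nuq, liq3]) h6
  exact h7

private theorem pr1_2 (H : PB3 e κ (1 / 50) (1350001 / 1000000)) :
    PX e κ (23 / 10) (1350001 / 1000000) (9 / 8) := by
  have h0 : PX e κ (23 / 10) (1350001 / 1000000) (25 / 16) := unif_row3 H
    (by constructor <;> norm_num [thq3, nuq, liq3])
  have h1 : PX e κ (23 / 10) (1350001 / 1000000) (5 / 4) := pick_row3 H
    (by constructor <;> norm_num [thq3, nuq, liq3]) h0
  have h2 : PX e κ (23 / 10) (1350001 / 1000000) (37 / 32) := pick_row3 H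
    (by constructor <;> norm_num [thq3, nuq, liq3]) h1
  have h3 : PX e κ (23 / 10) (1350001 / 1000000) (73 / 64) := pick_row3 H
    (by constructor <;> norm_num [thq3, nuq, liq3]) h2
  have h4 : PX e κ (23 / 10) (1350001 / 1000000) (9 / 8) := pick_row3 H
    (by constructor <;> norm_num [thq3, nuq, liq3]) h3
  exact h4

private theorem pr1_3 (H : PB3 e κ (1 / 50) (1350001 / 1000000)) :
    PX e κ (33 / 10) (1350001 / 1000000) 1 := by
  have h0 : PX e κ (33 / 10) (1350001 / 1000000) (39 / 32) := unif_row3 H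
    (by constructor <;> norm_num [thq3, nuq, liq3])
  have h1 : PX e κ (33 / 10) (1350001 / 1000000) 1 := pick_row3 H
    (by constructor <;> norm_num [thq3, nuq, liq3]) h0
  exact h1

private theorem pr1_4 (H : PB3 e κ (1 / 50) (1350001 / 1000000)) :
    PX e κ (43 / 10) (1350001 / 1000000) 1 := by
  have h0 : PX e κ (43 / 10) (1350001 / 1000000) (17 / 16) := unif_row3 H
    (by constructor <;> norm_num [thq3, nuq, liq3])
  have h1 : PX e κ (43 / 10) (1350001 / 1000000) 1 := pick_row3 H
    (by constructor <;> norm_num [thq3, nuq, liq3]) h0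
  exact h1

private theorem pr2_0 (H : PB3 e κ (1 / 50) (1600001 / 1000000)) :
    PX e κ (3 / 10) (1600001 / 1000000) (107 / 32) := by
  have h0 : PX e κ (23 / 10) (1600001 / 1000000) (61 / 32) := unif_row3 H
    (by constructor <;> norm_num [thq3, nuq, liq3])
  have h1 : PX e κ (23 / 10) (1600001 / 1000000) (99 / 64) := pick_row3 H
    (by constructor <;> norm_num [thq3, nuq, liq3]) h0
  have h2 : PX e κ (23 / 10) (1600001 / 1000000) (91 / 64) := pick_row3 H
    (by constructor <;> norm_num [thq3, nuq, liq3]) h1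
  have h3 : PX e κ (23 / 10) (1600001 / 1000000) (11 / 8) := pick_row3 H
    (by constructor <;> norm_num [thq3, nuq, liq3]) h2
  have h4 : PX e κ (23 / 10) (1600001 / 1000000) (87 / 64) := pick_row3 H
    (by constructor <;> norm_num [thq3, nuq, liq3]) h3
  have h5 : PX e κ (23 / 10) (1600001 / 1000000) (43 / 32) := pick_row3 H
    (by constructor <;> norm_num [thq3, nuq, liq3]) h4
  have h6 : PX e κ (13 / 10) (1600001 / 1000000) (75 / 32) := dn_row3 H (by norm_num) (by norm_num) (by norm_num) h5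
  have h7 : PX e κ (3 / 10) (1600001 / 1000000) (107 / 32) := dn_row3 H (by norm_num) (by norm_num) (by norm_num) h6
  exact h7

private theorem pr2_1 (H : PB3 e κ (1 / 50) (1600001 / 1000000)) :
    PX e κ (13 / 10) (1600001 / 1000000) (75 / 32) := by
  have h0 : PX e κ (23 / 10) (1600001 / 1000000) (61 / 32) := unif_row3 H
    (by constructor <;> norm_num [thq3, nuq, liq3])
  have h1 : PX e κ (23 / 10) (1600001 / 1000000) (99 / 64) := pick_row3 H
    (by constructor <;> norm_num [thq3, nuq, liq3]) h0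
  have h2 : PX e κ (23 / 10) (1600001 / 1000000) (91 / 64) := pick_row3 H
    (by constructor <;> norm_num [thq3, nuq, liq3]) h1
  have h3 : PX e κ (23 / 10) (1600001 / 1000000) (11 / 8) := pick_row3 H
    (by constructor <;> norm_num [thq3, nuq, liq3]) h2
  have h4 : PX e κ (23 / 10) (1600001 / 1000000) (87 / 64) := pick_row3 H
    (by constructor <;> norm_num [thq3, nuq, liq3]) h3
  have h5 : PX e κ (23 / 10) (1600001 / 1000000) (43 / 32) := pick_row3 H
    (by constructor <;> norm_num [thq3, nuq, liq3]) h4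
  have h6 : PX e κ (13 / 10) (1600001 / 1000000) (75 / 32) := dn_row3 H (by norm_num) (by norm_num) (by norm_num) h5
  exact h6

private theorem pr2_2 (H : PB3 e κ (1 / 50) (1600001 / 1000000)) :
    PX e κ (23 / 10) (1600001 / 1000000) (43 / 32) := by
  have h0 : PX e κ (23 / 10) (1600001 / 1000000) (61 / 32) := unif_row3 H
    (by constructor <;> norm_num [thq3, nuq, liq3])
  have h1 : PX e κ (23 / 10) (1600001 / 1000000) (99 / 64) := pick_row3 H
    (by constructor <;> norm_num [thq3, nuq, liq3]) h0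
  have h2 : PX e κ (23 / 10) (1600001 / 1000000) (91 / 64) := pick_row3 H
    (by constructor <;> norm_num [thq3, nuq, liq3]) h1
  have h3 : PX e κ (23 / 10) (1600001 / 1000000) (11 / 8) := pick_row3 H
    (by constructor <;> norm_num [thq3, nuq, liq3]) h2
  have h4 : PX e κ (23 / 10) (1600001 / 1000000) (87 / 64) := pick_row3 H
    (by constructor <;> norm_num [thq3, nuq, liq3]) h3
  have h5 : PX e κ (23 / 10) (1600001 / 1000000) (43 / 32) := pick_row3 H
    (by constructor <;> norm_num [thq3, nuq, liq3]) h4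
  exact h5

private theorem pr2_3 (H : PB3 e κ (1 / 50) (1600001 / 1000000)) :
    PX e κ (33 / 10) (1600001 / 1000000) (71 / 64) := by
  have h0 : PX e κ (33 / 10) (1600001 / 1000000) (93 / 64) := unif_row3 H
    (by constructor <;> norm_num [thq3, nuq, liq3])
  have h1 : PX e κ (33 / 10) (1600001 / 1000000) (19 / 16) := pick_row3 H
    (by constructor <;> norm_num [thq3, nuq, liq3]) h0
  have h2 : PX e κ (33 / 10) (1600001 / 1000000) (9 / 8) := pick_row3 H
    (by constructor <;> norm_num [thq3, nuq, liq3]) h1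
  have h3 : PX e κ (33 / 10) (1600001 / 1000000) (71 / 64) := pick_row3 H
    (by constructor <;> norm_num [thq3, nuq, liq3]) h2
  exact h3

private theorem pr2_4 (H : PB3 e κ (1 / 50) (1600001 / 1000000)) :
    PX e κ (43 / 10) (1600001 / 1000000) 1 := by
  have h0 : PX e κ (43 / 10) (1600001 / 1000000) (5 / 4) := unif_row3 H
    (by constructor <;> norm_num [thq3, nuq, liq3])
  have h1 : PX e κ (43 / 10) (1600001 / 1000000) (67 / 64) := pick_row3 H
    (by constructor <;> norm_num [thq3, nuq, liq3]) h0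
  have h2 : PX e κ (43 / 10) (1600001 / 1000000) (65 / 64) := pick_row3 H
    (by constructor <;> norm_num [thq3, nuq, liq3]) h1
  have h3 : PX e κ (43 / 10) (1600001 / 1000000) 1 := pick_row3 H
    (by constructor <;> norm_num [thq3, nuq, liq3]) h2
  exact h3

private theorem pr3_0 (H : PB3 e κ (1 / 50) (1800001 / 1000000)) :
    PX e κ (3 / 10) (1800001 / 1000000) (233 / 64) := by
  have h0 : PX e κ (23 / 10) (1800001 / 1000000) (77 / 32) := unif_row3 H
    (by constructor <;> norm_num [thq3, nuq, liq3])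
  have h1 : PX e κ (23 / 10) (1800001 / 1000000) (63 / 32) := pick_row3 H
    (by constructor <;> norm_num [thq3, nuq, liq3]) h0
  have h2 : PX e κ (23 / 10) (1800001 / 1000000) (57 / 32) := pick_row3 H
    (by constructor <;> norm_num [thq3, nuq, liq3]) h1
  have h3 : PX e κ (23 / 10) (1800001 / 1000000) (109 / 64) := pick_row3 H
    (by constructor <;> norm_num [thq3, nuq, liq3]) h2
  have h4 : PX e κ (23 / 10) (1800001 / 1000000) (107 / 64) := pick_row3 H
    (by constructor <;> norm_num [thq3, nuq, liq3]) h3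
  have h5 : PX e κ (23 / 10) (1800001 / 1000000) (53 / 32) := pick_row3 H
    (by constructor <;> norm_num [thq3, nuq, liq3]) h4
  have h6 : PX e κ (23 / 10) (1800001 / 1000000) (105 / 64) := pick_row3 H
    (by constructor <;> norm_num [thq3, nuq, liq3]) h5
  have h7 : PX e κ (13 / 10) (1800001 / 1000000) (169 / 64) := dn_row3 H (by norm_num) (by norm_num) (by norm_num) h6
  have h8 : PX e κ (3 / 10) (1800001 / 1000000) (233 / 64) := dn_row3 H (by norm_num) (by norm_num) (by norm_num) h7
  exact h8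

private theorem pr3_1 (H : PB3 e κ (1 / 50) (1800001 / 1000000)) :
    PX e κ (13 / 10) (1800001 / 1000000) (169 / 64) := by
  have h0 : PX e κ (23 / 10) (1800001 / 1000000) (77 / 32) := unif_row3 H
    (by constructor <;> norm_num [thq3, nuq, liq3])
  have h1 : PX e κ (23 / 10) (1800001 / 1000000) (63 / 32) := pick_row3 H
    (by constructor <;> norm_num [thq3, nuq, liq3]) h0
  have h2 : PX e κ (23 / 10) (1800001 / 1000000) (57 / 32) := pick_row3 H
    (by constructor <;> norm_num [thq3, nuq, liq3]) h1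
  have h3 : PX e κ (23 / 10) (1800001 / 1000000) (109 / 64) := pick_row3 H
    (by constructor <;> norm_num [thq3, nuq, liq3]) h2
  have h4 : PX e κ (23 / 10) (1800001 / 1000000) (107 / 64) := pick_row3 H
    (by constructor <;> norm_num [thq3, nuq, liq3]) h3
  have h5 : PX e κ (23 / 10) (1800001 / 1000000) (53 / 32) := pick_row3 H
    (by constructor <;> norm_num [thq3, nuq, liq3]) h4
  have h6 : PX e κ (23 / 10) (1800001 / 1000000) (105 / 64) := pick_row3 H
    (by constructor <;> norm_num [thq3, nuq, liq3]) h5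
  have h7 : PX e κ (13 / 10) (1800001 / 1000000) (169 / 64) := dn_row3 H (by norm_num) (by norm_num) (by norm_num) h6
  exact h7

private theorem pr3_2 (H : PB3 e κ (1 / 50) (1800001 / 1000000)) :
    PX e κ (23 / 10) (1800001 / 1000000) (105 / 64) := by
  have h0 : PX e κ (23 / 10) (1800001 / 1000000) (77 / 32) := unif_row3 H
    (by constructor <;> norm_num [thq3, nuq, liq3])
  have h1 : PX e κ (23 / 10) (1800001 / 1000000) (63 / 32) := pick_row3 H
    (by constructor <;> norm_num [thq3, nuq, liq3]) h0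
  have h2 : PX e κ (23 / 10) (1800001 / 1000000) (57 / 32) := pick_row3 H
    (by constructor <;> norm_num [thq3, nuq, liq3]) h1
  have h3 : PX e κ (23 / 10) (1800001 / 1000000) (109 / 64) := pick_row3 H
    (by constructor <;> norm_num [thq3, nuq, liq3]) h2
  have h4 : PX e κ (23 / 10) (1800001 / 1000000) (107 / 64) := pick_row3 H
    (by constructor <;> norm_num [thq3, nuq, liq3]) h3
  have h5 : PX e κ (23 / 10) (1800001 / 1000000) (53 / 32) := pick_row3 H
    (by constructor <;> norm_num [thq3, nuq, liq3]) h4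
  have h6 : PX e κ (23 / 10) (1800001 / 1000000) (105 / 64) := pick_row3 H
    (by constructor <;> norm_num [thq3, nuq, liq3]) h5
  exact h6

private theorem pr3_3 (H : PB3 e κ (1 / 50) (1800001 / 1000000)) :
    PX e κ (33 / 10) (1800001 / 1000000) (21 / 16) := by
  have h0 : PX e κ (33 / 10) (1800001 / 1000000) (111 / 64) := unif_row3 H
    (by constructor <;> norm_num [thq3, nuq, liq3])
  have h1 : PX e κ (33 / 10) (1800001 / 1000000) (23 / 16) := pick_row3 H
    (by constructor <;> norm_num [thq3, nuq, liq3]) h0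
  have h2 : PX e κ (33 / 10) (1800001 / 1000000) (43 / 32) := pick_row3 H
    (by constructor <;> norm_num [thq3, nuq, liq3]) h1
  have h3 : PX e κ (33 / 10) (1800001 / 1000000) (21 / 16) := pick_row3 H
    (by constructor <;> norm_num [thq3, nuq, liq3]) h2
  exact h3

private theorem pr3_4 (H : PB3 e κ (1 / 50) (1800001 / 1000000)) :
    PX e κ (43 / 10) (1800001 / 1000000) (75 / 64) := by
  have h0 : PX e κ (43 / 10) (1800001 / 1000000) (95 / 64) := unif_row3 H
    (by constructor <;> norm_num [thq3, nuq, liq3])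
  have h1 : PX e κ (43 / 10) (1800001 / 1000000) (79 / 64) := pick_row3 H
    (by constructor <;> norm_num [thq3, nuq, liq3]) h0
  have h2 : PX e κ (43 / 10) (1800001 / 1000000) (19 / 16) := pick_row3 H
    (by constructor <;> norm_num [thq3, nuq, liq3]) h1
  have h3 : PX e κ (43 / 10) (1800001 / 1000000) (75 / 64) := pick_row3 H
    (by constructor <;> norm_num [thq3, nuq, liq3]) h2
  exact h3

private theorem pr4_0 (H : PB3 e κ (1 / 50) 2) :
    PX e κ (3 / 10) 2 (135 / 32) := by
  have h0 : PX e κ (23 / 10) 2 (231 / 64) := unif_row3 H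
    (by constructor <;> norm_num [thq3, nuq, liq3])
  have h1 : PX e κ (23 / 10) 2 3 := pick_row3 H
    (by constructor <;> norm_num [thq3, nuq, liq3]) h0
  have h2 : PX e κ (23 / 10) 2 (169 / 64) := pick_row3 H
    (by constructor <;> norm_num [thq3, nuq, liq3]) h1
  have h3 : PX e κ (23 / 10) 2 (39 / 16) := pick_row3 H
    (by constructor <;> norm_num [thq3, nuq, liq3]) h2
  have h4 : PX e κ (23 / 10) 2 (149 / 64) := pick_row3 H
    (by constructor <;> norm_num [thq3, nuq, liq3]) h3
  have h5 : PX e κ (23 / 10) 2 (145 / 64) := pick_row3 H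
    (by constructor <;> norm_num [thq3, nuq, liq3]) h4
  have h6 : PX e κ (23 / 10) 2 (143 / 64) := pick_row3 H
    (by constructor <;> norm_num [thq3, nuq, liq3]) h5
  have h7 : PX e κ (23 / 10) 2 (71 / 32) := pick_row3 H
    (by constructor <;> norm_num [thq3, nuq, liq3]) h6
  have h8 : PX e κ (13 / 10) 2 (103 / 32) := dn_row3 H (by norm_num) (by norm_num) (by norm_num) h7
  have h9 : PX e κ (3 / 10) 2 (135 / 32) := dn_row3 H (by norm_num) (by norm_num) (by norm_num) h8
  exact h9

private theorem pr4_1 (H : PB3 e κ (1 / 50) 2) :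
    PX e κ (13 / 10) 2 (103 / 32) := by
  have h0 : PX e κ (23 / 10) 2 (231 / 64) := unif_row3 H
    (by constructor <;> norm_num [thq3, nuq, liq3])
  have h1 : PX e κ (23 / 10) 2 3 := pick_row3 H
    (by constructor <;> norm_num [thq3, nuq, liq3]) h0
  have h2 : PX e κ (23 / 10) 2 (169 / 64) := pick_row3 H
    (by constructor <;> norm_num [thq3, nuq, liq3]) h1
  have h3 : PX e κ (23 / 10) 2 (39 / 16) := pick_row3 H
    (by constructor <;> norm_num [thq3, nuq, liq3]) h2
  have h4 : PX e κ (23 / 10) 2 (149 / 64) := pick_row3 H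
    (by constructor <;> norm_num [thq3, nuq, liq3]) h3
  have h5 : PX e κ (23 / 10) 2 (145 / 64) := pick_row3 H
    (by constructor <;> norm_num [thq3, nuq, liq3]) h4
  have h6 : PX e κ (23 / 10) 2 (143 / 64) := pick_row3 H
    (by constructor <;> norm_num [thq3, nuq, liq3]) h5
  have h7 : PX e κ (23 / 10) 2 (71 / 32) := pick_row3 H
    (by constructor <;> norm_num [thq3, nuq, liq3]) h6
  have h8 : PX e κ (13 / 10) 2 (103 / 32) := dn_row3 H (by norm_num) (by norm_num) (by norm_num) h7
  exact h8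

private theorem pr4_2 (H : PB3 e κ (1 / 50) 2) :
    PX e κ (23 / 10) 2 (71 / 32) := by
  have h0 : PX e κ (23 / 10) 2 (231 / 64) := unif_row3 H
    (by constructor <;> norm_num [thq3, nuq, liq3])
  have h1 : PX e κ (23 / 10) 2 3 := pick_row3 H
    (by constructor <;> norm_num [thq3, nuq, liq3]) h0
  have h2 : PX e κ (23 / 10) 2 (169 / 64) := pick_row3 H
    (by constructor <;> norm_num [thq3, nuq, liq3]) h1
  have h3 : PX e κ (23 / 10) 2 (39 / 16) := pick_row3 H
    (by constructor <;> norm_num [thq3, nuq, liq3]) h2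
  have h4 : PX e κ (23 / 10) 2 (149 / 64) := pick_row3 H
    (by constructor <;> norm_num [thq3, nuq, liq3]) h3
  have h5 : PX e κ (23 / 10) 2 (145 / 64) := pick_row3 H
    (by constructor <;> norm_num [thq3, nuq, liq3]) h4
  have h6 : PX e κ (23 / 10) 2 (143 / 64) := pick_row3 H
    (by constructor <;> norm_num [thq3, nuq, liq3]) h5
  have h7 : PX e κ (23 / 10) 2 (71 / 32) := pick_row3 H
    (by constructor <;> norm_num [thq3, nuq, liq3]) h6
  exact h7

private theorem pr4_3 (H : PB3 e κ (1 / 50) 2) :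
    PX e κ (33 / 10) 2 (105 / 64) := by
  have h0 : PX e κ (33 / 10) 2 (73 / 32) := unif_row3 H
    (by constructor <;> norm_num [thq3, nuq, liq3])
  have h1 : PX e κ (33 / 10) 2 (15 / 8) := pick_row3 H
    (by constructor <;> norm_num [thq3, nuq, liq3]) h0
  have h2 : PX e κ (33 / 10) 2 (55 / 32) := pick_row3 H
    (by constructor <;> norm_num [thq3, nuq, liq3]) h1
  have h3 : PX e κ (33 / 10) 2 (107 / 64) := pick_row3 H
    (by constructor <;> norm_num [thq3, nuq, liq3]) h2
  have h4 : PX e κ (33 / 10) 2 (53 / 32) := pick_row3 H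
    (by constructor <;> norm_num [thq3, nuq, liq3]) h3
  have h5 : PX e κ (33 / 10) 2 (105 / 64) := pick_row3 H
    (by constructor <;> norm_num [thq3, nuq, liq3]) h4
  exact h5

private theorem pr4_4 (H : PB3 e κ (1 / 50) 2) :
    PX e κ (43 / 10) 2 (23 / 16) := by
  have h0 : PX e κ (43 / 10) 2 (119 / 64) := unif_row3 H
    (by constructor <;> norm_num [thq3, nuq, liq3])
  have h1 : PX e κ (43 / 10) 2 (25 / 16) := pick_row3 H
    (by constructor <;> norm_num [thq3, nuq, liq3]) h0
  have h2 : PX e κ (43 / 10) 2 (47 / 32) := pick_row3 H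
    (by constructor <;> norm_num [thq3, nuq, liq3]) h1
  have h3 : PX e κ (43 / 10) 2 (23 / 16) := pick_row3 H
    (by constructor <;> norm_num [thq3, nuq, liq3]) h2
  exact h3

private theorem pr5_0 (H : PB3 e κ (1 / 25) (1050001 / 1000000)) :
    PX e κ (3 / 10) (1050001 / 1000000) (81 / 32) := by
  have h0 : PX e κ (13 / 10) (1050001 / 1000000) (161 / 64) := unif_row3 H
    (by constructor <;> norm_num [thq3, nuq, liq3])
  have h1 : PX e κ (13 / 10) (1050001 / 1000000) (129 / 64) := pick_row3 H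
    (by constructor <;> norm_num [thq3, nuq, liq3]) h0
  have h2 : PX e κ (13 / 10) (1050001 / 1000000) (113 / 64) := pick_row3 H
    (by constructor <;> norm_num [thq3, nuq, liq3]) h1
  have h3 : PX e κ (13 / 10) (1050001 / 1000000) (105 / 64) := pick_row3 H
    (by constructor <;> norm_num [thq3, nuq, liq3]) h2
  have h4 : PX e κ (13 / 10) (1050001 / 1000000) (101 / 64) := pick_row3 H
    (by constructor <;> norm_num [thq3, nuq, liq3]) h3
  have h5 : PX e κ (13 / 10) (1050001 / 1000000) (99 / 64) := pick_row3 H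
    (by constructor <;> norm_num [thq3, nuq, liq3]) h4
  have h6 : PX e κ (13 / 10) (1050001 / 1000000) (49 / 32) := pick_row3 H
    (by constructor <;> norm_num [thq3, nuq, liq3]) h5
  have h7 : PX e κ (3 / 10) (1050001 / 1000000) (81 / 32) := dn_row3 H (by norm_num) (by norm_num) (by norm_num) h6
  exact h7

private theorem pr5_1 (H : PB3 e κ (1 / 25) (1050001 / 1000000)) :
    PX e κ (13 / 10) (1050001 / 1000000) (49 / 32) := by
  have h0 : PX e κ (13 / 10) (1050001 / 1000000) (161 / 64) := unif_row3 H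
    (by constructor <;> norm_num [thq3, nuq, liq3])
  have h1 : PX e κ (13 / 10) (1050001 / 1000000) (129 / 64) := pick_row3 H
    (by constructor <;> norm_num [thq3, nuq, liq3]) h0
  have h2 : PX e κ (13 / 10) (1050001 / 1000000) (113 / 64) := pick_row3 H
    (by constructor <;> norm_num [thq3, nuq, liq3]) h1
  have h3 : PX e κ (13 / 10) (1050001 / 1000000) (105 / 64) := pick_row3 H
    (by constructor <;> norm_num [thq3, nuq, liq3]) h2
  have h4 : PX e κ (13 / 10) (1050001 / 1000000) (101 / 64) := pick_row3 H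
    (by constructor <;> norm_num [thq3, nuq, liq3]) h3
  have h5 : PX e κ (13 / 10) (1050001 / 1000000) (99 / 64) := pick_row3 H
    (by constructor <;> norm_num [thq3, nuq, liq3]) h4
  have h6 : PX e κ (13 / 10) (1050001 / 1000000) (49 / 32) := pick_row3 H
    (by constructor <;> norm_num [thq3, nuq, liq3]) h5
  exact h6

private theorem pr5_2 (H : PB3 e κ (1 / 25) (1050001 / 1000000)) :
    PX e κ (23 / 10) (1050001 / 1000000) 1 := by
  have h0 : PX e κ (23 / 10) (1050001 / 1000000) (87 / 64) := unif_row3 H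
    (by constructor <;> norm_num [thq3, nuq, liq3])
  have h1 : PX e κ (23 / 10) (1050001 / 1000000) (69 / 64) := pick_row3 H
    (by constructor <;> norm_num [thq3, nuq, liq3]) h0
  have h2 : PX e κ (23 / 10) (1050001 / 1000000) 1 := pick_row3 H
    (by constructor <;> norm_num [thq3, nuq, liq3]) h1
  exact h2

private theorem pr5_3 (H : PB3 e κ (1 / 25) (1050001 / 1000000)) :
    PX e κ (33 / 10) (1050001 / 1000000) 1 := by
  have h0 : PX e κ (33 / 10) (1050001 / 1000000) (69 / 64) := unif_row3 H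
    (by constructor <;> norm_num [thq3, nuq, liq3])
  have h1 : PX e κ (33 / 10) (1050001 / 1000000) 1 := pick_row3 H
    (by constructor <;> norm_num [thq3, nuq, liq3]) h0
  exact h1

private theorem pr5_4 (H : PB3 e κ (1 / 25) (1050001 / 1000000)) :
    PX e κ (43 / 10) (1050001 / 1000000) 1 := by
  have h0 : PX e κ (43 / 10) (1050001 / 1000000) 1 := unif_row3 H
    (by constructor <;> norm_num [thq3, nuq, liq3])
  exact h0

private theorem pr6_0 (H : PB3 e κ (3 / 100) (1350001 / 1000000)) :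
    PX e κ (3 / 10) (1350001 / 1000000) (187 / 64) := by
  have h0 : PX e κ (13 / 10) (1350001 / 1000000) (209 / 64) := unif_row3 H
    (by constructor <;> norm_num [thq3, nuq, liq3])
  have h1 : PX e κ (13 / 10) (1350001 / 1000000) (171 / 64) := pick_row3 H
    (by constructor <;> norm_num [thq3, nuq, liq3]) h0
  have h2 : PX e κ (13 / 10) (1350001 / 1000000) (149 / 64) := pick_row3 H
    (by constructor <;> norm_num [thq3, nuq, liq3]) h1
  have h3 : PX e κ (13 / 10) (1350001 / 1000000) (137 / 64) := pick_row3 H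
    (by constructor <;> norm_num [thq3, nuq, liq3]) h2
  have h4 : PX e κ (13 / 10) (1350001 / 1000000) (65 / 32) := pick_row3 H
    (by constructor <;> norm_num [thq3, nuq, liq3]) h3
  have h5 : PX e κ (13 / 10) (1350001 / 1000000) (63 / 32) := pick_row3 H
    (by constructor <;> norm_num [thq3, nuq, liq3]) h4
  have h6 : PX e κ (13 / 10) (1350001 / 1000000) (31 / 16) := pick_row3 H
    (by constructor <;> norm_num [thq3, nuq, liq3]) h5
  have h7 : PX e κ (13 / 10) (1350001 / 1000000) (123 / 64) := pick_row3 H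
    (by constructor <;> norm_num [thq3, nuq, liq3]) h6
  have h8 : PX e κ (3 / 10) (1350001 / 1000000) (187 / 64) := dn_row3 H (by norm_num) (by norm_num) (by norm_num) h7
  exact h8

private theorem pr6_1 (H : PB3 e κ (3 / 100) (1350001 / 1000000)) :
    PX e κ (13 / 10) (1350001 / 1000000) (123 / 64) := by
  have h0 : PX e κ (13 / 10) (1350001 / 1000000) (209 / 64) := unif_row3 H
    (by constructor <;> norm_num [thq3, nuq, liq3])
  have h1 : PX e κ (13 / 10) (1350001 / 1000000) (171 / 64) := pick_row3 H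
    (by constructor <;> norm_num [thq3, nuq, liq3]) h0
  have h2 : PX e κ (13 / 10) (1350001 / 1000000) (149 / 64) := pick_row3 H
    (by constructor <;> norm_num [thq3, nuq, liq3]) h1
  have h3 : PX e κ (13 / 10) (1350001 / 1000000) (137 / 64) := pick_row3 H
    (by constructor <;> norm_num [thq3, nuq, liq3]) h2
  have h4 : PX e κ (13 / 10) (1350001 / 1000000) (65 / 32) := pick_row3 H
    (by constructor <;> norm_num [thq3, nuq, liq3]) h3
  have h5 : PX e κ (13 / 10) (1350001 / 1000000) (63 / 32) := pick_row3 H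
    (by constructor <;> norm_num [thq3, nuq, liq3]) h4
  have h6 : PX e κ (13 / 10) (1350001 / 1000000) (31 / 16) := pick_row3 H
    (by constructor <;> norm_num [thq3, nuq, liq3]) h5
  have h7 : PX e κ (13 / 10) (1350001 / 1000000) (123 / 64) := pick_row3 H
    (by constructor <;> norm_num [thq3, nuq, liq3]) h6
  exact h7

private theorem pr6_2 (H : PB3 e κ (3 / 100) (1350001 / 1000000)) :
    PX e κ (23 / 10) (1350001 / 1000000) (73 / 64) := by
  have h0 : PX e κ (23 / 10) (1350001 / 1000000) (51 / 32) := unif_row3 H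
    (by constructor <;> norm_num [thq3, nuq, liq3])
  have h1 : PX e κ (23 / 10) (1350001 / 1000000) (41 / 32) := pick_row3 H
    (by constructor <;> norm_num [thq3, nuq, liq3]) h0
  have h2 : PX e κ (23 / 10) (1350001 / 1000000) (75 / 64) := pick_row3 H
    (by constructor <;> norm_num [thq3, nuq, liq3]) h1
  have h3 : PX e κ (23 / 10) (1350001 / 1000000) (73 / 64) := pick_row3 H
    (by constructor <;> norm_num [thq3, nuq, liq3]) h2
  exact h3

private theorem pr6_3 (H : PB3 e κ (3 / 100) (1350001 / 1000000)) :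
    PX e κ (33 / 10) (1350001 / 1000000) 1 := by
  have h0 : PX e κ (33 / 10) (1350001 / 1000000) (79 / 64) := unif_row3 H
    (by constructor <;> norm_num [thq3, nuq, liq3])
  have h1 : PX e κ (33 / 10) (1350001 / 1000000) (65 / 64) := pick_row3 H
    (by constructor <;> norm_num [thq3, nuq, liq3]) h0
  have h2 : PX e κ (33 / 10) (1350001 / 1000000) 1 := pick_row3 H
    (by constructor <;> norm_num [thq3, nuq, liq3]) h1
  exact h2

private theorem pr6_4 (H : PB3 e κ (3 / 100) (1350001 / 1000000)) :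
    PX e κ (43 / 10) (1350001 / 1000000) 1 := by
  have h0 : PX e κ (43 / 10) (1350001 / 1000000) (69 / 64) := unif_row3 H
    (by constructor <;> norm_num [thq3, nuq, liq3])
  have h1 : PX e κ (43 / 10) (1350001 / 1000000) 1 := pick_row3 H
    (by constructor <;> norm_num [thq3, nuq, liq3]) h0
  exact h1

private theorem pr7_0 (H : PB3 e κ (1 / 40) (1600001 / 1000000)) :
    PX e κ (3 / 10) (1600001 / 1000000) (215 / 64) := by
  have h0 : PX e κ (23 / 10) (1600001 / 1000000) (31 / 16) := unif_row3 H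
    (by constructor <;> norm_num [thq3, nuq, liq3])
  have h1 : PX e κ (23 / 10) (1600001 / 1000000) (25 / 16) := pick_row3 H
    (by constructor <;> norm_num [thq3, nuq, liq3]) h0
  have h2 : PX e κ (23 / 10) (1600001 / 1000000) (91 / 64) := pick_row3 H
    (by constructor <;> norm_num [thq3, nuq, liq3]) h1
  have h3 : PX e κ (23 / 10) (1600001 / 1000000) (11 / 8) := pick_row3 H
    (by constructor <;> norm_num [thq3, nuq, liq3]) h2
  have h4 : PX e κ (23 / 10) (1600001 / 1000000) (87 / 64) := pick_row3 H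
    (by constructor <;> norm_num [thq3, nuq, liq3]) h3
  have h5 : PX e κ (13 / 10) (1600001 / 1000000) (151 / 64) := dn_row3 H (by norm_num) (by norm_num) (by norm_num) h4
  have h6 : PX e κ (3 / 10) (1600001 / 1000000) (215 / 64) := dn_row3 H (by norm_num) (by norm_num) (by norm_num) h5
  exact h6

private theorem pr7_1 (H : PB3 e κ (1 / 40) (1600001 / 1000000)) :
    PX e κ (13 / 10) (1600001 / 1000000) (151 / 64) := by
  have h0 : PX e κ (23 / 10) (1600001 / 1000000) (31 / 16) := unif_row3 H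
    (by constructor <;> norm_num [thq3, nuq, liq3])
  have h1 : PX e κ (23 / 10) (1600001 / 1000000) (25 / 16) := pick_row3 H
    (by constructor <;> norm_num [thq3, nuq, liq3]) h0
  have h2 : PX e κ (23 / 10) (1600001 / 1000000) (91 / 64) := pick_row3 H
    (by constructor <;> norm_num [thq3, nuq, liq3]) h1
  have h3 : PX e κ (23 / 10) (1600001 / 1000000) (11 / 8) := pick_row3 H
    (by constructor <;> norm_num [thq3, nuq, liq3]) h2
  have h4 : PX e κ (23 / 10) (1600001 / 1000000) (87 / 64) := pick_row3 H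
    (by constructor <;> norm_num [thq3, nuq, liq3]) h3
  have h5 : PX e κ (13 / 10) (1600001 / 1000000) (151 / 64) := dn_row3 H (by norm_num) (by norm_num) (by norm_num) h4
  exact h5

private theorem pr7_2 (H : PB3 e κ (1 / 40) (1600001 / 1000000)) :
    PX e κ (23 / 10) (1600001 / 1000000) (87 / 64) := by
  have h0 : PX e κ (23 / 10) (1600001 / 1000000) (31 / 16) := unif_row3 H
    (by constructor <;> norm_num [thq3, nuq, liq3])
  have h1 : PX e κ (23 / 10) (1600001 / 1000000) (25 / 16) := pick_row3 H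
    (by constructor <;> norm_num [thq3, nuq, liq3]) h0
  have h2 : PX e κ (23 / 10) (1600001 / 1000000) (91 / 64) := pick_row3 H
    (by constructor <;> norm_num [thq3, nuq, liq3]) h1
  have h3 : PX e κ (23 / 10) (1600001 / 1000000) (11 / 8) := pick_row3 H
    (by constructor <;> norm_num [thq3, nuq, liq3]) h2
  have h4 : PX e κ (23 / 10) (1600001 / 1000000) (87 / 64) := pick_row3 H
    (by constructor <;> norm_num [thq3, nuq, liq3]) h3
  exact h4

private theorem pr7_3 (H : PB3 e κ (1 / 40) (1600001 / 1000000)) :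
    PX e κ (33 / 10) (1600001 / 1000000) (71 / 64) := by
  have h0 : PX e κ (33 / 10) (1600001 / 1000000) (93 / 64) := unif_row3 H
    (by constructor <;> norm_num [thq3, nuq, liq3])
  have h1 : PX e κ (33 / 10) (1600001 / 1000000) (77 / 64) := pick_row3 H
    (by constructor <;> norm_num [thq3, nuq, liq3]) h0
  have h2 : PX e κ (33 / 10) (1600001 / 1000000) (73 / 64) := pick_row3 H
    (by constructor <;> norm_num [thq3, nuq, liq3]) h1
  have h3 : PX e κ (33 / 10) (1600001 / 1000000) (71 / 64) := pick_row3 H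
    (by constructor <;> norm_num [thq3, nuq, liq3]) h2
  exact h3

private theorem pr7_4 (H : PB3 e κ (1 / 40) (1600001 / 1000000)) :
    PX e κ (43 / 10) (1600001 / 1000000) 1 := by
  have h0 : PX e κ (43 / 10) (1600001 / 1000000) (81 / 64) := unif_row3 H
    (by constructor <;> norm_num [thq3, nuq, liq3])
  have h1 : PX e κ (43 / 10) (1600001 / 1000000) (17 / 16) := pick_row3 H
    (by constructor <;> norm_num [thq3, nuq, liq3]) h0
  have h2 : PX e κ (43 / 10) (1600001 / 1000000) (65 / 64) := pick_row3 H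
    (by constructor <;> norm_num [thq3, nuq, liq3]) h1
  have h3 : PX e κ (43 / 10) (1600001 / 1000000) 1 := pick_row3 H
    (by constructor <;> norm_num [thq3, nuq, liq3]) h2
  exact h3

theorem PxP.mono {q q' : PxD} (he : 200 ≤ e) (hκ : 0 < κ) (hy : q'.yb = q.yb) (hw : q'.w = q.w)
    (hm : ∀ j : ℕ, j ≤ 4 → q.m.getD j 0 ≤ q'.m.getD j 0) (h : PxP e κ q) : PxP e κ q' := by
  intro j hj z hz ho hyz hS
  rw [hy] at hyz
  rw [hw] at hS
  refine (h j hj z hz ho hyz hS).mono (by linarith) hκ ?_
  have : (q.m.getD j 0 : ℝ) ≤ (q'.m.getD j 0 : ℝ) := by exact_mod_cast hm j hj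
  linarith

private theorem ps0 (he : 200 ≤ e) (hκ : 0 < κ) :
    PxP e κ ⟨281857229, 37962506, [2576, 1552, 1024, 1024, 1024]⟩ := by
  refine pxp_of (y1 := (1050001 / 1000000)) (B1 := (1 / 50)) he hκ (by norm_num [vn]) (by norm_num [vn]) (by norm_num) ?_
  intro H j hj
  interval_cases j
  · have h := pr0_0 H
    norm_num [List.getD] at h ⊢
    exact h
  · have h := pr0_1 H
    norm_num [List.getD] at h ⊢
    exact h
  · have h := pr0_2 H
    norm_num [List.getD] at h ⊢
    exact h
  · have h := pr0_3 H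
    norm_num [List.getD] at h ⊢
    exact h
  · have h := pr0_4 H
    norm_num [List.getD] at h ⊢
    exact h

private theorem ps1 (he : 200 ≤ e) (hκ : 0 < κ) :
    PxP e κ ⟨362387866, 37962506, [2960, 1936, 1152, 1024, 1024]⟩ := by
  refine pxp_of (y1 := (1350001 / 1000000)) (B1 := (1 / 50)) he hκ (by norm_num [vn]) (by norm_num [vn]) (by norm_num) ?_
  intro H j hj
  interval_cases j
  · have h := pr1_0 H
    norm_num [List.getD] at h ⊢
    exact h
  · have h := pr1_1 H
    norm_num [List.getD] at h ⊢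
    exact h
  · have h := pr1_2 H
    norm_num [List.getD] at h ⊢
    exact h
  · have h := pr1_3 H
    norm_num [List.getD] at h ⊢
    exact h
  · have h := pr1_4 H
    norm_num [List.getD] at h ⊢
    exact h

private theorem ps2 (he : 200 ≤ e) (hκ : 0 < κ) :
    PxP e κ ⟨429496730, 37962506, [3424, 2400, 1376, 1136, 1024]⟩ := by
  refine pxp_of (y1 := (1600001 / 1000000)) (B1 := (1 / 50)) he hκ (by norm_num [vn]) (by norm_num [vn]) (by norm_num) ?_
  intro H j hj
  interval_cases j
  · have h := pr2_0 H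
    norm_num [List.getD] at h ⊢
    exact h
  · have h := pr2_1 H
    norm_num [List.getD] at h ⊢
    exact h
  · have h := pr2_2 H
    norm_num [List.getD] at h ⊢
    exact h
  · have h := pr2_3 H
    norm_num [List.getD] at h ⊢
    exact h
  · have h := pr2_4 H
    norm_num [List.getD] at h ⊢
    exact h

private theorem ps3 (he : 200 ≤ e) (hκ : 0 < κ) :
    PxP e κ ⟨483183821, 37962506, [3728, 2704, 1680, 1344, 1200]⟩ := by
  refine pxp_of (y1 := (1800001 / 1000000)) (B1 := (1 / 50)) he hκ (by norm_num [vn]) (by norm_num [vn]) (by norm_num) ?_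
  intro H j hj
  interval_cases j
  · have h := pr3_0 H
    norm_num [List.getD] at h ⊢
    exact h
  · have h := pr3_1 H
    norm_num [List.getD] at h ⊢
    exact h
  · have h := pr3_2 H
    norm_num [List.getD] at h ⊢
    exact h
  · have h := pr3_3 H
    norm_num [List.getD] at h ⊢
    exact h
  · have h := pr3_4 H
    norm_num [List.getD] at h ⊢
    exact h

private theorem ps4 (he : 200 ≤ e) (hκ : 0 < κ) :
    PxP e κ ⟨536870912, 37962506, [4320, 3296, 2272, 1680, 1472]⟩ := by
  refine pxp_of (y1 := 2) (B1 := (1 / 50)) he hκ (by norm_num [vn]) (by norm_num [vn]) (by norm_num) ?_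
  intro H j hj
  interval_cases j
  · have h := pr4_0 H
    norm_num [List.getD] at h ⊢
    exact h
  · have h := pr4_1 H
    norm_num [List.getD] at h ⊢
    exact h
  · have h := pr4_2 H
    norm_num [List.getD] at h ⊢
    exact h
  · have h := pr4_3 H
    norm_num [List.getD] at h ⊢
    exact h
  · have h := pr4_4 H
    norm_num [List.getD] at h ⊢
    exact h

private theorem ps5 (he : 200 ≤ e) (hκ : 0 < κ) :
    PxP e κ ⟨281857229, 53687091, [2592, 1568, 1024, 1024, 1024]⟩ := by
  refine pxp_of (y1 := (1050001 / 1000000)) (B1 := (1 / 25)) he hκ (by norm_num [vn]) (by norm_num [vn]) (by norm_num) ?_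
  intro H j hj
  interval_cases j
  · have h := pr5_0 H
    norm_num [List.getD] at h ⊢
    exact h
  · have h := pr5_1 H
    norm_num [List.getD] at h ⊢
    exact h
  · have h := pr5_2 H
    norm_num [List.getD] at h ⊢
    exact h
  · have h := pr5_3 H
    norm_num [List.getD] at h ⊢
    exact h
  · have h := pr5_4 H
    norm_num [List.getD] at h ⊢
    exact h

private theorem ps6 (he : 200 ≤ e) (hκ : 0 < κ) :
    PxP e κ ⟨362387866, 46494384, [2992, 1968, 1168, 1024, 1024]⟩ := by
  refine pxp_of (y1 := (1350001 / 1000000)) (B1 := (3 / 100)) he hκ (by norm_num [vn]) (by norm_num [vn]) (by norm_num) ?_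
  intro H j hj
  interval_cases j
  · have h := pr6_0 H
    norm_num [List.getD] at h ⊢
    exact h
  · have h := pr6_1 H
    norm_num [List.getD] at h ⊢
    exact h
  · have h := pr6_2 H
    norm_num [List.getD] at h ⊢
    exact h
  · have h := pr6_3 H
    norm_num [List.getD] at h ⊢
    exact h
  · have h := pr6_4 H
    norm_num [List.getD] at h ⊢
    exact h

private theorem ps7 (he : 200 ≤ e) (hκ : 0 < κ) :
    PxP e κ ⟨429496730, 42443372, [3440, 2416, 1392, 1136, 1024]⟩ := by
  refine pxp_of (y1 := (1600001 / 1000000)) (B1 := (1 / 40)) he hκ (by norm_num [vn]) (by norm_num [vn]) (by norm_num) ?_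
  intro H j hj
  interval_cases j
  · have h := pr7_0 H
    norm_num [List.getD] at h ⊢
    exact h
  · have h := pr7_1 H
    norm_num [List.getD] at h ⊢
    exact h
  · have h := pr7_2 H
    norm_num [List.getD] at h ⊢
    exact h
  · have h := pr7_3 H
    norm_num [List.getD] at h ⊢
    exact h
  · have h := pr7_4 H
    norm_num [List.getD] at h ⊢
    exact h

theorem pxTabS_ok (he : 200 ≤ e) (hκ : 0 < κ) : ∀ q ∈ pxTabS, PxP e κ q := by
  intro q hq
  simp only [pxTabS, List.mem_cons, List.not_mem_nil, or_false] at hq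
  rcases hq with rfl | rfl | rfl | rfl | rfl | rfl | rfl | rfl
  · exact ps0 he hκ
  · exact ps1 he hκ
  · exact ps2 he hκ
  · exact ps3 he hκ
  · exact ps4 he hκ
  · exact ps5 he hκ
  · exact ps6 he hκ
  · exact ps7 he hκ

theorem pxTab_ok {e κ : ℝ} (he : 200 ≤ e) (hκ : 0 < κ) (hb : bet e κ ≤ 5) :
    ∀ q ∈ pxTab, PxP e κ q := by
  intro q hq
  simp only [pxTab, List.mem_cons, List.not_mem_nil, or_false] at hq
  rcases hq with rfl | rfl | rfl | rfl | rfl | rfl | rfl | rfl
  · refine PxP.mono he hκ ?_ ?_ ?_ (ps0 he hκ)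
    · rfl
    · rfl
    · decide
  · refine PxP.mono he hκ ?_ ?_ ?_ (ps1 he hκ)
    · rfl
    · rfl
    · decide
  · refine PxP.mono he hκ ?_ ?_ ?_ (ps2 he hκ)
    · rfl
    · rfl
    · decide
  · refine PxP.mono he hκ ?_ ?_ ?_ (ps3 he hκ)
    · rfl
    · rfl
    · decide
  · refine PxP.mono he hκ ?_ ?_ ?_ (ps4 he hκ)
    · rfl
    · rfl
    · decide
  · refine PxP.mono he hκ ?_ ?_ ?_ (ps5 he hκ)
    · rfl
    · rfl
    · decide
  · refine PxP.mono he hκ ?_ ?_ ?_ (ps6 he hκ)
    · rfl
    · rfl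
    · decide
  · refine PxP.mono he hκ ?_ ?_ ?_ (ps7 he hκ)
    · rfl
    · rfl
    · decide

end Pool.Agent.helper31.A2
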