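import Pool.Agent.helper31.A2.RowD
import Pool.Agent.helper31.A2.Cell

/-!
# A2: rows of the table: soundness

The windows of the pieces and of the rows are half-open in `w`: `wa < w ≤ wb` (`winF` filters with strict inequalities); in `y` a piece
found has `ya < |y|` or `ya = 0` (`eat` consumes the pieces with `ya < ys`).
-/

namespace Pool.Agent.helper31.A2

open Complex ComplexConjugate Set Filter Topology
open Pool.Agent.helper31.EQ.Y Pool.Agent.helper31.EQ.R
open Pool.Agent.helper12.EQL Pool.Agent.helper12.RP Pool.Agent.helper12.FF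
open Pool.Agent.helper63.FF
open Pool.Agent.helper31.EQB

private theorem vn_nn (n : ℕ) : 0 ≤ vn n := by
  unfold vn
  positivity

private theorem vn_mono {a b : ℕ} (h : a ≤ b) : vn a ≤ vn b := by
  unfold vn
  have : (a : ℝ) ≤ b := by exact_mod_cast h
  gcongr

private theorem lt_of_vn {a b : ℕ} (h : vn a < vn b) : a < b := by
  by_contra hc
  exact absurd (vn_mono (not_lt.1 hc)) (not_le.2 h)

private theorem ms_getD (c : CellD) : ∀ i : ℕ, i ≤ 10 → c.ms.getD i 0 = c.bd i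
  | 0, _ => rfl
  | 1, _ => rfl
  | 2, _ => rfl
  | 3, _ => rfl
  | 4, _ => rfl
  | 5, _ => rfl
  | 6, _ => rfl
  | 7, _ => rfl
  | 8, _ => rfl
  | 9, _ => rfl
  | 10, _ => rfl
  | n + 11, h => absurd h (by omega)

private theorem bd_le (c : CellD) (h0 : 0 < c.b4) (h1 : c.b4 ≤ c.b3) (h2 : c.b3 ≤ c.b2)
    (h3 : c.b2 ≤ c.b1) (h4 : c.b1 ≤ c.b0) {i j : ℕ} (hij : j ≤ i) (hi : i ≤ 10) :
    c.bd i ≠ 0 ∧ c.bd i ≤ c.bd j := by
  interval_cases i <;> interval_cases j <;> simp only [CellD.bd] <;> omega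

section

variable {e κ : ℝ}

private theorem cells_piece (he : 200 ≤ e) (he5 : e ≤ 500) (hκ : 0 < κ) (hb : bet e κ ≤ 5)
    {ya yb : ℕ} (hyb : vn yb ≤ 7 / 2) (hab : ya ≤ yb) {j : ℕ} (hj : j ≤ 4) {z : ℂ}
    (hz : 0 < z.re) (hom : om κ (3 / 10 + j) z) (h1 : vn ya ≤ |yz e κ z|)
    (h2 : |yz e κ z| ≤ vn yb) (hr : rz e κ z ≤ 11 * (Sz e κ z / e)) :
    ∀ (cs : List CellD) (wa : ℕ), cellsOK ya yb wa cs = true → vn wa < √(Sz e κ z / e) →
      √(Sz e κ z / e) ≤ vn (lastW wa cs) →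
      ∃ q ∈ pcCells j ya wa cs, q.ya = ya ∧ vn q.wa < √(Sz e κ z / e) ∧
        √(Sz e κ z / e) ≤ vn q.wb ∧ MB e κ ((q.m : ℝ) / 1024) z
  | [], wa, _, h3, h4 => absurd h4 (not_le.2 h3)
  | c :: t, wa, hc, h3, h4 => by
    have he0 : 0 < e := by linarith
    have hS : 0 ≤ Sz e κ z / e := by
      unfold Sz; positivity
    have hw2 : √(Sz e κ z / e) * √(Sz e κ z / e) = Sz e κ z / e := Real.mul_self_sqrt hS
    simp only [cellsOK, Bool.and_eq_true, Nat.blt_eq, Nat.ble_eq] at hc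
    obtain ⟨⟨⟨⟨k1, k2⟩, k3⟩, k4, k5, k6⟩, k7, k8, k9⟩ := hc
    rcases le_or_gt (√(Sz e κ z / e)) (vn c.wb) with h5 | h5
    · refine ⟨⟨ya, wa, c.wb, c.bd j⟩, List.mem_cons_self, rfl, h3, h5, ?_⟩
      refine cell_sound he he5 hκ hb hyb hab k2 k7 j (c.bd j) hj ?_ z hz hom h1 h2 ?_ ?_ hr
      · intro i hi1 hi2
        rw [ms_getD c i hi2]
        exact bd_le c k1 k3 k4 k5 k6 hi1 hi2
      · refine (vn_ml wa wa).trans ?_
        rw [← hw2]
        exact mul_le_mul h3.le h3.le (vn_nn _) (Real.sqrt_nonneg _)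
      · refine le_trans ?_ (vn_mu c.wb c.wb)
        rw [← hw2]
        exact mul_le_mul h5 h5 (Real.sqrt_nonneg _) (vn_nn _)
    · obtain ⟨q, hq, r1, r2, r3, r4⟩ := cells_piece he he5 hκ hb hyb hab hj hz hom h1 h2 hr t c.wb
        k9 h5 h4
      exact ⟨q, List.mem_cons_of_mem _ hq, r1, r2, r3, r4⟩

private theorem covY_mem {lo hi : ℕ} {w y : ℝ} (hw0 : 0 < w) (hwhi : w ≤ vn hi)
    (hyT : y ≤ vn yTop) (hyw : y ^ 2 / 500 < w ^ 2) (hy0 : 0 ≤ y) :
    ∀ (ss : List StripD) (y0 : ℕ), covY lo hi y0 ss = true → (vn y0 < y ∨ y0 = 0) →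
      ∃ s ∈ ss, (vn s.ya < y ∨ s.ya = 0) ∧ y ≤ vn s.yb ∧ covW lo hi s = true
  | [], y0, h, h0 => by
    exfalso
    simp only [covY, Bool.or_eq_true, Nat.ble_eq, Nat.mul_eq] at h
    rcases h with h | h
    · rcases h0 with h0 | h0
      · exact absurd (hyT.trans (vn_mono h)) (not_le.2 h0)
      · rw [h0] at h
        exact absurd h (by decide)
    · have h' : 500 * ((hi : ℝ) * hi) ≤ (y0 : ℝ) * y0 := by exact_mod_cast h
      have h1 : 500 * vn hi ^ 2 ≤ vn y0 ^ 2 := by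
        have e1 : 500 * vn hi ^ 2 = 500 * ((hi : ℝ) * hi) / 2 ^ 56 := by
          unfold vn; ring
        have e2 : vn y0 ^ 2 = (y0 : ℝ) * y0 / 2 ^ 56 := by
          unfold vn; ring
        rw [e1, e2]
        gcongr
      have h2 : w ^ 2 ≤ vn hi ^ 2 := pow_le_pow_left₀ hw0.le hwhi 2
      have h3 : 0 < w ^ 2 := by positivity
      rcases h0 with h0 | h0
      · have h4 : vn y0 ^ 2 ≤ y ^ 2 := pow_le_pow_left₀ (vn_nn _) h0.le 2
        linarith
      · rw [h0] at h1
        have : vn 0 = 0 := by unfold vn; norm_num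
        rw [this] at h1
        linarith
  | s :: t, y0, h, h0 => by
    simp only [covY, Bool.and_eq_true, Nat.ble_eq] at h
    obtain ⟨k1, k2, k3⟩ := h
    rcases le_or_gt y (vn s.yb) with h5 | h5
    · refine ⟨s, List.mem_cons_self, ?_, h5, k2⟩
      rcases h0 with h0 | h0
      · left
        exact lt_of_le_of_lt (vn_mono k1) h0
      · right
        omega
    · obtain ⟨q, hq, r⟩ := covY_mem hw0 hwhi hyT hyw hy0 t s.yb k3 (Or.inl h5)
      exact ⟨q, List.mem_cons_of_mem _ hq, r⟩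

private theorem covG_mem {w : ℝ} (hw : w < vn 120048002) :
    ∀ (G : List GrpD) (a : ℕ), covG a G = true → vn a < w →
      ∃ g ∈ G, vn g.lo < w ∧ w ≤ vn g.hi ∧ covY g.lo g.hi 0 g.strips = true
  | [], a, h, h0 => by
    exfalso
    simp only [covG, Nat.ble_eq] at h
    exact absurd (vn_mono h) (not_le.2 (h0.trans hw))
  | g :: t, a, h, h0 => by
    simp only [covG, Bool.and_eq_true, Nat.ble_eq] at h
    obtain ⟨k1, k2, k3⟩ := h
    rcases le_or_gt w (vn g.hi) with h5 | h5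
    · exact ⟨g, List.mem_cons_self, lt_of_le_of_lt (vn_mono k1) h0, h5, k2⟩
    · obtain ⟨q, hq, r⟩ := covG_mem hw t g.hi k3 h5
      exact ⟨q, List.mem_cons_of_mem _ hq, r⟩

/-- **Cover.** Every point of the domain is in a piece.  `vn yTop ≤ 7/2`; `w = √(S/e)`, `S = β² + y²`, so `y²/500 < w² ≤ (25 + y²)/200`;
in a cell: `cell_sound` with `Wa = ml wa wa ≤ w² ≤ mu wb wb = Wb`. -/
theorem piece_of {e κ : ℝ} (he : 200 ≤ e) (he5 : e ≤ 500) (hκ : 0 < κ) (hb : bet e κ ≤ 5)
    {T : List PxD} (hT : ∀ q ∈ T, PxP e κ q) {G : List GrpD} {ss : List StripD}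
    (hok : ∀ s ∈ ss, s.ok = true) (hpx : ∀ s ∈ ss, pxUse T s = true) (hG : covG 0 G = true)
    (hsub : ∀ g ∈ G, ∀ s ∈ g.strips, s ∈ ss) {j : ℕ} (hj : j ≤ 4) {z : ℂ} (hz : 0 < z.re)
    (hom : om κ (3 / 10 + j) z) (hy : |yz e κ z| ≤ vn yTop)
    (hr : rz e κ z ≤ 11 * (Sz e κ z / e)) :
    ∃ q ∈ pcs j ss, (vn q.ya < |yz e κ z| ∨ q.ya = 0) ∧ vn q.wa < √(Sz e κ z / e) ∧
      √(Sz e κ z / e) ≤ vn q.wb ∧ MB e κ ((q.m : ℝ) / 1024) z := by
  have he0 : 0 < e := by linarith
  have hK0 : 0 < Real.sinh κ := Real.sinh_pos_iff.2 hκ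
  have hβ : 0 < bet e κ := mul_pos he0 hK0
  have hS : Sz e κ z = bet e κ ^ 2 + |yz e κ z| ^ 2 := by rw [sq_abs]; rfl
  have hS0 : 0 < Sz e κ z := by rw [hS]; positivity
  have hSe : 0 < Sz e κ z / e := div_pos hS0 he0
  obtain ⟨w, hw⟩ : ∃ w, w = √(Sz e κ z / e) := ⟨_, rfl⟩
  have hw0 : 0 < w := by rw [hw]; exact Real.sqrt_pos.2 hSe
  have hw2 : w ^ 2 = Sz e κ z / e := by rw [hw]; exact Real.sq_sqrt hSe.le
  obtain ⟨y, hyd⟩ : ∃ y, y = |yz e κ z| := ⟨_, rfl⟩
  have hy0 : 0 ≤ y := by rw [hyd]; exact abs_nonneg _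
  rw [← hyd] at hy hS
  have hβ2 : bet e κ ^ 2 ≤ 25 := by nlinarith
  have hyw : y ^ 2 / 500 < w ^ 2 := by
    rw [hw2, hS]
    have e1 : y ^ 2 / 500 ≤ y ^ 2 / e := div_le_div_of_nonneg_left (sq_nonneg y) he0 he5
    have e2 : y ^ 2 / e < (bet e κ ^ 2 + y ^ 2) / e := by
      apply div_lt_div_of_pos_right _ he0
      have : 0 < bet e κ ^ 2 := by positivity
      linarith
    linarith
  have hwy : w ^ 2 ≤ (25 + y ^ 2) / 200 := by
    rw [hw2, hS]
    calc (bet e κ ^ 2 + y ^ 2) / e ≤ (25 + y ^ 2) / e := by gcongr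
      _ ≤ (25 + y ^ 2) / 200 := by
        apply div_le_div_of_nonneg_left (by positivity) (by norm_num) he
  have hyT : vn yTop = 885837005 / 2 ^ 28 := by unfold vn yTop; norm_num
  have hwT : w < vn 120048002 := by
    apply lt_of_pow_lt_pow_left₀ 2 (vn_nn _)
    have e1 : y ^ 2 ≤ (885837005 / 2 ^ 28) ^ 2 := by
      rw [← hyT]; exact pow_le_pow_left₀ hy0 hy 2
    have e2 : vn 120048002 ^ 2 = (120048002 / 2 ^ 28) ^ 2 := by unfold vn; norm_num
    rw [e2]
    have e3 : (25 + (885837005 / 2 ^ 28 : ℝ) ^ 2) / 200 < (120048002 / 2 ^ 28) ^ 2 := by norm_num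
    linarith
  obtain ⟨g, hg, g1, g2, g3⟩ := covG_mem hwT G 0 hG (by
    have : vn 0 = 0 := by unfold vn; norm_num
    rw [this]; exact hw0)
  obtain ⟨s, hs, s1, s2, s3⟩ := covY_mem hw0 g2 hy hyw hy0 g.strips 0 g3 (Or.inr rfl)
  have hss := hsub g hg s hs
  have hsok := hok s hss
  have hsp := hpx s hss
  simp only [StripD.ok, Bool.and_eq_true, Nat.blt_eq, Nat.ble_eq] at hsok
  obtain ⟨⟨o1, o2⟩, o3, o4⟩ := hsok
  have s1' : vn s.ya ≤ y := by
    rcases s1 with h | h
    · exact h.le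
    · rw [h]
      have : vn 0 = 0 := by unfold vn; norm_num
      rw [this]; exact hy0
  simp only [covW, Bool.and_eq_true, Bool.or_eq_true, Nat.ble_eq, Nat.mul_eq, Nat.add_eq,
    Bool.not_eq_true'] at s3
  obtain ⟨c1, c2⟩ := s3
  -- the cells
  have hcell : vn s.w0 < w → ∃ q ∈ pcCells j s.ya s.w0 s.cells, q.ya = s.ya ∧ vn q.wa < w ∧
      w ≤ vn q.wb ∧ MB e κ ((q.m : ℝ) / 1024) z := by
    intro h0
    have hlast : w ≤ vn (lastW s.w0 s.cells) := by
      rcases c2 with ⟨d1, d2⟩ | d2 | d2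
      · exact absurd (g2.trans (vn_mono d2)) (not_le.2 h0)
      · exact g2.trans (vn_mono d2)
      · apply le_of_sq_le_sq _ (vn_nn _)
        have d3 : 25 * 72057594037927936 + (s.yb : ℝ) * s.yb ≤
            200 * ((lastW s.w0 s.cells : ℝ) * lastW s.w0 s.cells) := by exact_mod_cast d2
        have e1 : (25 + vn s.yb ^ 2) / 200 ≤ vn (lastW s.w0 s.cells) ^ 2 := by
          have f1 : (25 + vn s.yb ^ 2) / 200 =
            (25 * 72057594037927936 + (s.yb : ℝ) * s.yb) / (200 * 2 ^ 56) := by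
            unfold vn; ring
          have f2 : vn (lastW s.w0 s.cells) ^ 2 =
            200 * ((lastW s.w0 s.cells : ℝ) * lastW s.w0 s.cells) / (200 * 2 ^ 56) := by
            unfold vn; ring
          rw [f1, f2]
          gcongr
        have e2 : y ^ 2 ≤ vn s.yb ^ 2 := pow_le_pow_left₀ hy0 s2 2
        linarith
    have hyb : vn s.yb ≤ 7 / 2 := by
      refine (vn_mono o2).trans ?_
      unfold vn; norm_num
    have := cells_piece he he5 hκ hb hyb o3.le hj hz hom (by rw [← hyd]; exact s1')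
      (by rw [← hyd]; exact s2) hr s.cells s.w0 o4 (by rw [← hw]; exact h0)
      (by rw [← hw]; exact hlast)
    rw [← hw] at this
    exact this
  rw [← hyd, ← hw]
  have hmem : ∀ q ∈ pcStrip j s, q ∈ pcs j ss := fun q hq => by
    unfold pcs
    exact List.mem_flatMap.2 ⟨s, hss, hq⟩
  rcases hpe : s.px.isEmpty with _ | _
  · -- there is a px bound
    rcases le_or_gt w (vn s.w0) with h5 | h5
    · refine ⟨⟨s.ya, 0, s.w0, s.px.getD j 0⟩, hmem _ ?_, s1, ?_, h5, ?_⟩
      · unfold pcStrip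
        rw [hpe]
        exact List.mem_cons_self
      · have : vn 0 = 0 := by unfold vn; norm_num
        simp only [this]
        exact hw0
      · unfold pxUse at hsp
        rw [hpe, Bool.false_or, List.any_eq_true] at hsp
        obtain ⟨q, hq, hq2⟩ := hsp
        simp only [Bool.and_eq_true, Nat.ble_eq, beq_iff_eq] at hq2
        obtain ⟨p1, p2, p3⟩ := hq2
        have hP := hT q hq j hj z hz hom
          (by rw [← hyd]; exact s2.trans (vn_mono p1)) (by rw [← hw]; exact h5.trans (vn_mono p2))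
        rw [p3] at hP
        exact hP
    · obtain ⟨q, hq, r1, r2, r3, r4⟩ := hcell h5
      refine ⟨q, hmem _ ?_, by rw [r1]; exact s1, r2, r3, r4⟩
      unfold pcStrip
      rw [hpe]
      exact List.mem_cons_of_mem _ hq
  · have h5 : vn s.w0 < w := by
      rcases c1 with d | d | d
      · exact lt_of_le_of_lt (vn_mono d) g1
      · have d' : 500 * ((s.w0 : ℝ) * s.w0) ≤ (s.ya : ℝ) * s.ya := by exact_mod_cast d
        apply lt_of_pow_lt_pow_left₀ 2 hw0.le
        have e1 : vn s.w0 ^ 2 ≤ vn s.ya ^ 2 / 500 := by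
          have f1 : vn s.w0 ^ 2 = 500 * ((s.w0 : ℝ) * s.w0) / (500 * 2 ^ 56) := by
            unfold vn; ring
          have f2 : vn s.ya ^ 2 / 500 = (s.ya : ℝ) * s.ya / (500 * 2 ^ 56) := by
            unfold vn; ring
          rw [f1, f2]
          gcongr
        have e2 : vn s.ya ^ 2 ≤ y ^ 2 := pow_le_pow_left₀ (vn_nn _) s1' 2
        linarith
      · rw [hpe] at d
        exact absurd d (by decide)
    obtain ⟨q, hq, r1, r2, r3, r4⟩ := hcell h5
    refine ⟨q, hmem _ ?_, by rw [r1]; exact s1, r2, r3, r4⟩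
    unfold pcStrip
    rw [hpe]
    exact hq

end

/-! ### rows -/

private theorem dom_lin {o o' : ℕ} {p p' : ℤ} {wa wb : ℕ} {w : ℝ}
    (ha : (o : ℤ) * 268435456 + p * wa ≤ (o' : ℤ) * 268435456 + p' * wa)
    (hb : (o : ℤ) * 268435456 + p * wb ≤ (o' : ℤ) * 268435456 + p' * wb)
    (h1 : vn wa ≤ w) (h2 : w ≤ vn wb) : (o : ℝ) + p * w ≤ o' + p' * w := by
  have ha' : (o : ℝ) * 268435456 + p * wa ≤ (o' : ℝ) * 268435456 + p' * wa := by exact_mod_cast ha
  have hb' : (o : ℝ) * 268435456 + p * wb ≤ (o' : ℝ) * 268435456 + p' * wb := by exact_mod_cast hb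
  have ea : (wa : ℝ) = vn wa * 268435456 := by unfold vn; norm_num
  have eb : (wb : ℝ) = vn wb * 268435456 := by unfold vn; norm_num
  rw [ea] at ha'
  rw [eb] at hb'
  have ha2 : (o : ℝ) + p * vn wa ≤ o' + p' * vn wa := by linarith
  have hb2 : (o : ℝ) + p * vn wb ≤ o' + p' * vn wb := by linarith
  rcases le_or_gt (p : ℝ) p' with h | h
  · have : (p' - p : ℝ) * vn wa ≤ (p' - p) * w := mul_le_mul_of_nonneg_left h1 (by linarith)
    linarith
  · have : (p - p' : ℝ) * w ≤ (p - p') * vn wb := mul_le_mul_of_nonneg_left h2 (by linarith)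
    linarith

/-- the bound of the piece `q` is below `(o, p)` on the window -/
private def Good (wa wb : ℕ) (q : Pc) (o : ℕ) (p : ℤ) : Prop :=
  ∀ w : ℝ, 0 < w → vn wa ≤ w → w ≤ vn wb → w ≤ vn q.wb → 4 * (q.m : ℝ) * w ≤ o + p * w

private theorem good_of_pcOK {wa wb : ℕ} {q : Pc} {o : ℕ} {p : ℤ} (h : pcOK wb o p q = true) :
    Good wa wb q o p := by
  intro w hw0 _ h2 h3
  have key : ∃ W : ℕ, w ≤ vn W ∧ 4 * (q.m : ℤ) * W ≤ (o : ℤ) * 268435456 + p * W := by
    unfold pcOK at h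
    rcases hb : Nat.ble q.wb wb with _ | _
    · rw [hb] at h
      refine ⟨wb, h2, ?_⟩
      have h' := of_decide_eq_true h
      simp only [Nat.mul_eq, Nat.cast_mul, cond_false] at h'
      exact h'
    · rw [hb] at h
      refine ⟨q.wb, h3, ?_⟩
      have h' := of_decide_eq_true h
      simp only [Nat.mul_eq, Nat.cast_mul, cond_true] at h'
      exact h'
  obtain ⟨W, hW, h4⟩ := key
  have h4' : 4 * (q.m : ℝ) * W ≤ (o : ℝ) * 268435456 + p * W := by exact_mod_cast h4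
  have eW : (W : ℝ) = vn W * 268435456 := by unfold vn; norm_num
  rw [eW] at h4'
  have h5 : 4 * (q.m : ℝ) * vn W ≤ (o : ℝ) + p * vn W := by linarith
  rcases le_or_gt (p : ℝ) (4 * q.m) with h | h
  · have : (4 * q.m - p : ℝ) * w ≤ (4 * q.m - p) * vn W := mul_le_mul_of_nonneg_left hW (by linarith)
    linarith
  · have h6 : 0 ≤ (p - 4 * q.m : ℝ) * w := mul_nonneg (by linarith) hw0.le
    have h7 : (0 : ℝ) ≤ o := Nat.cast_nonneg _
    linarith

private theorem sorted_mono {y y' : ℕ} (h : y' ≤ y) : ∀ {l : List Pc}, sortedY y l = true →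
    sortedY y' l = true
  | [], _ => rfl
  | q :: t, hl => by
    simp only [sortedY, Bool.and_eq_true, Nat.ble_eq] at hl ⊢
    exact ⟨h.trans hl.1, hl.2⟩

private theorem sorted_ge : ∀ {l : List Pc} {y : ℕ}, sortedY y l = true → ∀ q ∈ l, y ≤ q.ya
  | [], _, _, _, hq => absurd hq List.not_mem_nil
  | r :: t, y, hl, q, hq => by
    simp only [sortedY, Bool.and_eq_true, Nat.ble_eq] at hl
    rcases List.mem_cons.1 hq with h | h
    · rw [h]; exact hl.1
    · exact hl.1.trans (sorted_ge hl.2 q h)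

private theorem sorted_filter (f : Pc → Bool) : ∀ {l : List Pc} {y : ℕ}, sortedY y l = true →
    sortedY y (l.filter f) = true
  | [], _, _ => rfl
  | r :: t, y, hl => by
    simp only [sortedY, Bool.and_eq_true, Nat.ble_eq] at hl
    rw [List.filter_cons]
    split
    · simp only [sortedY, Bool.and_eq_true, Nat.ble_eq]
      exact ⟨hl.1, sorted_filter f hl.2⟩
    · exact sorted_mono hl.1 (sorted_filter f hl.2)

private theorem eat_ok {wb ys o : ℕ} {p : ℤ} : ∀ {l l' : List Pc} {y : ℕ}, sortedY y l = true →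
    eat wb ys o p l = some l' → (∀ q ∈ l, q.ya < ys → pcOK wb o p q = true) ∧
      (∀ q ∈ l, q ∈ l' ∨ pcOK wb o p q = true) ∧ ∃ y', sortedY y' l' = true
  | [], l', y, _, h => by
    simp only [eat, Option.some.injEq] at h
    rw [← h]
    exact ⟨fun q hq => absurd hq List.not_mem_nil, fun q hq => absurd hq List.not_mem_nil, 0, rfl⟩
  | r :: t, l', y, hl, h => by
    have hl0 := hl
    simp only [sortedY, Bool.and_eq_true, Nat.ble_eq] at hl
    unfold eat at h
    rcases hb : Nat.blt r.ya ys with _ | _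
    · rw [hb] at h
      simp only [cond_false, Option.some.injEq] at h
      rw [← h]
      have hr : ys ≤ r.ya := by
        by_contra hc
        have : Nat.blt r.ya ys = true := by rw [Nat.blt_eq]; omega
        rw [hb] at this
        exact absurd this (by decide)
      refine ⟨?_, fun q hq => Or.inl hq, y, hl0⟩
      intro q hq hlt
      exfalso
      rcases List.mem_cons.1 hq with h2 | h2
      · rw [h2] at hlt; omega
      · have := sorted_ge hl.2 q h2
        omega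
    · rw [hb] at h
      simp only [cond_true] at h
      rcases hp : pcOK wb o p r with _ | _
      · rw [hp] at h
        simp at h
      · rw [hp] at h
        simp only [cond_true] at h
        obtain ⟨a1, a2, a3⟩ := eat_ok hl.2 h
        refine ⟨?_, ?_, a3⟩
        · intro q hq hlt
          rcases List.mem_cons.1 hq with h2 | h2
          · rw [h2]; exact hp
          · exact a1 q h2 hlt
        · intro q hq
          rcases List.mem_cons.1 hq with h2 | h2
          · right; rw [h2]; exact hp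
          · exact a2 q h2

private theorem col_ok {wa wb : ℕ} : ∀ (rs : List RowD) (ys o : ℕ) (p : ℤ) (l : List Pc) (y : ℕ),
    sortedY y l = true → colOK wa wb rs ys o p l = true → ∀ r ∈ rs, r.wa = wa ∧ r.wb = wb ∧
      ∀ q : Pc, ((q ∈ l ∧ q.ya < r.ys) ∨ Good wa wb q o p) → Good wa wb q r.o r.p
  | [], _, _, _, _, _, _, _, _, hr => absurd hr List.not_mem_nil
  | r0 :: t, ys, o, p, l, y, hs, h, r, hr => by
    unfold colOK at h
    rcases he : eat wb r0.ys r0.o r0.p l with _ | l1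
    · rw [he] at h
      simp at h
    rw [he] at h
    simp only [Bool.and_eq_true, Nat.beq_eq, Nat.ble_eq, decide_eq_true_eq, Nat.mul_eq,
      Nat.cast_mul] at h
    obtain ⟨⟨e1, e2⟩, e3, ⟨e4, e5⟩, e6⟩ := h
    obtain ⟨a1, a2, y', a3⟩ := eat_ok hs he
    have hdom : ∀ q : Pc, Good wa wb q o p → Good wa wb q r0.o r0.p := by
      intro q hq w hw0 h1 h2 h3
      refine (hq w hw0 h1 h2 h3).trans ?_
      exact dom_lin e4 e5 h1 h2
    rcases List.mem_cons.1 hr with h2 | h2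
    · rw [h2]
      refine ⟨e1, e2, ?_⟩
      intro q hq
      rcases hq with ⟨q1, q2⟩ | q1
      · exact good_of_pcOK (a1 q q1 q2)
      · exact hdom q q1
    · obtain ⟨i1, i2, i3⟩ := col_ok t r0.ys r0.o r0.p l1 y' a3 e6 r h2
      refine ⟨i1, i2, ?_⟩
      intro q hq
      apply i3
      rcases hq with ⟨q1, q2⟩ | q1
      · rcases a2 q q1 with h3 | h3
        · exact Or.inl ⟨h3, q2⟩
        · exact Or.inr (good_of_pcOK h3)
      · exact Or.inr (hdom q q1)

/-- a column is right (pure arithmetic) -/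
theorem colOK_sound {l : List Pc} {C : List (Nat × Nat × List RowD)} (hs : sortedY 0 l = true)
    (hc : colsOK l C = true) {c : Nat × Nat × List RowD} (hcC : c ∈ C) {r : RowD} (hr : r ∈ c.2.2)
    {q : Pc} (hq : q ∈ l) (hy : q.ya < r.ys) {w : ℝ} (h1 : vn r.wa < w) (h2 : w ≤ vn r.wb)
    (h3 : vn q.wa < w) (h4 : w ≤ vn q.wb) (hw : 0 < w) :
    (q.m : ℝ) / 1024 ≤ (r.o : ℝ) / 4096 / w + (r.p : ℝ) / 4096 := by
  have key : 0 < c.1 ∧ colOK c.1 c.2.1 c.2.2 0 0 0 (winF c.1 c.2.1 l) = true := by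
    induction C with
    | nil => exact absurd hcC List.not_mem_nil
    | cons d t ih =>
      obtain ⟨da, db, dr⟩ := d
      simp only [colsOK, Bool.and_eq_true, Nat.blt_eq] at hc
      rcases List.mem_cons.1 hcC with h | h
      · rw [h]; exact hc.1
      · exact ih hc.2 h
  obtain ⟨-, hcol⟩ := key
  have hsf : sortedY 0 (winF c.1 c.2.1 l) = true := sorted_filter _ hs
  obtain ⟨i1, i2, i3⟩ := col_ok c.2.2 0 0 0 (winF c.1 c.2.1 l) 0 hsf hcol r hr
  have hmem : q ∈ winF c.1 c.2.1 l := by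
    unfold winF
    rw [List.mem_filter]
    refine ⟨hq, ?_⟩
    simp only [Bool.and_eq_true, Nat.blt_eq]
    rw [← i1, ← i2]
    exact ⟨lt_of_vn (h3.trans_le h2), lt_of_vn (h1.trans_le h4)⟩
  have hG := i3 q (Or.inl ⟨hmem, hy⟩) w hw (by rw [← i1]; exact h1.le) (by rw [← i2]; exact h2) h4
  have e1 : (r.o : ℝ) / 4096 / w + (r.p : ℝ) / 4096 = (r.o + r.p * w) / (4096 * w) := by
    field_simp
  rw [e1, div_le_div_iff₀ (by norm_num) (by positivity)]
  linarith

/-- **Rows.** -/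
theorem rowP_of {e κ : ℝ} (he : 200 ≤ e) (he5 : e ≤ 500) (hκ : 0 < κ) (hb : bet e κ ≤ 5)
    {T : List PxD} (hT : ∀ q ∈ T, PxP e κ q) {G : List GrpD} {ss : List StripD}
    (hok : ∀ s ∈ ss, s.ok = true) (hpx : ∀ s ∈ ss, pxUse T s = true) (hG : covG 0 G = true)
    (hsub : ∀ g ∈ G, ∀ s ∈ g.strips, s ∈ ss) {j : ℕ} (hj : j ≤ 4)
    (hs : sortedY 0 (pcs j ss) = true) {C : List (Nat × Nat × List RowD)}
    (hc : colsOK (pcs j ss) C = true) {c : Nat × Nat × List RowD} (hcC : c ∈ C) {r : RowD}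
    (hr : r ∈ c.2.2) (hys : r.ys ≤ yTop) (hy0 : 0 < r.ys) : RowP e κ j r := by
  intro z hz hom hy h1 h2 hrz
  have he0 : 0 < e := by linarith
  have hκ' := hκ
  obtain ⟨q, hq, q1, q2, q3, q4⟩ := piece_of he he5 hκ hb hT hok hpx hG hsub hj hz hom
    (hy.trans (vn_mono hys)) hrz
  have hlt : q.ya < r.ys := by
    rcases q1 with h | h
    · exact lt_of_vn (h.trans_le hy)
    · rw [h]; exact hy0
  have hw0 : 0 < √(Sz e κ z / e) := lt_of_le_of_lt (vn_nn _) q2
  exact q4.mono he0 hκ' (colOK_sound hs hc hcC hr hq hlt h1 h2 q2 q3 hw0)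

end Pool.Agent.helper31.A2
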