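import Pool.Agent.helper31.A2.Stm
import Pool.Agent.helper31.A2.RowS
import Pool.Agent.helper31.A2.PxT
import Pool.Agent.helper31.A2.Tab.C0
import Pool.Agent.helper31.A2.Tab.C1
import Pool.Agent.helper31.A2.Tab.C2
import Pool.Agent.helper31.A2.Tab.C3
import Pool.Agent.helper31.A2.Tab.C4
import Pool.Agent.helper71.FF.Real

/-!
# A2-C0: the rows used by the programs
-/

namespace Pool.Agent.helper31.A2

open Complex ComplexConjugate Set Filter Topology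
open Pool.Agent.helper31.EQ.Y Pool.Agent.helper31.EQ.R
open Pool.Agent.helper12.EQL Pool.Agent.helper12.RP Pool.Agent.helper12.FF Pool.Agent.helper12.RS
open Pool.Agent.helper63.FF
open Pool.Agent.helper31.EQB
open Pool.Agent.helper71.FF (zv)

/-- the row of a program (`2^-40`) is a row of the table (`2^-28`, `1/4096`) -/
def mt (C : List (Nat × Nat × List RowD)) (ys wa wb o p pm : Nat) : Bool :=
  and (Nat.blt 0 wa) (C.any (fun c => c.2.2.any (fun r =>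
    and (and (Nat.blt 0 r.ys) (Nat.ble r.ys yTop)) (and (and (Nat.beq (Nat.mul 4096 r.ys) ys)
      (Nat.beq (Nat.mul 4096 r.wa) wa)) (and (and (Nat.beq (Nat.mul 4096 r.wb) wb)
      (Nat.beq (Nat.mul 268435456 r.o) o))
      (decide (Int.add (Int.mul r.p 268435456) (pm : Int) = (p : Int))))))))

theorem zv_vn (n : ℕ) : zv (Nat.mul 4096 n) 0 = vn n := by
  unfold zv vn
  rw [Nat.mul_eq]
  push_cast
  ring

variable {e κ : ℝ}

theorem rowR_of {j : ℕ} {C : List (Nat × Nat × List RowD)}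
    (h : ∀ c ∈ C, ∀ r ∈ c.2.2, r.ys ≤ yTop → 0 < r.ys → RowP e κ j r) {ys wa wb o p pm : ℕ}
    (hm : mt C ys wa wb o p pm = true) :
    RowR e κ j (zv ys 0) (zv wa 0) (zv wb 0) (zv o 0) (zv p pm) := by
  simp only [mt, Bool.and_eq_true, List.any_eq_true, Nat.blt_eq, Nat.ble_eq, Nat.beq_eq,
    decide_eq_true_eq] at hm
  obtain ⟨hwa, c, hc, r, hr, ⟨h0, h1⟩, ⟨h2, h3⟩, ⟨h4, h5⟩, h6⟩ := hm
  have hR := h c hc r hr h1 h0
  have eo : zv o 0 = (r.o : ℝ) / 4096 := by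
    rw [← h5, Nat.mul_eq]; unfold zv; push_cast; ring
  have ep : zv p pm = (r.p : ℝ) / 4096 := by
    have h7 : (p : ℝ) - pm = (r.p : ℝ) * 268435456 := by
      have : ((Int.add (Int.mul r.p 268435456) (pm : Int) : ℤ) : ℝ) = ((p : Int) : ℝ) := by rw [h6]
      have e1 : Int.add (Int.mul r.p 268435456) (pm : Int) = r.p * 268435456 + (pm : Int) := rfl
      rw [e1] at this
      push_cast at this
      linarith
    unfold zv
    rw [h7]
    ring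
  refine ⟨?_, ?_, ?_, ?_⟩
  · rw [eo]; positivity
  · unfold zv
    have : (0 : ℝ) < wa := by exact_mod_cast hwa
    simp only [Nat.cast_zero, sub_zero]
    positivity
  · rw [← h2, zv_vn]
    have h8 : (r.ys : ℝ) ≤ (885837005 : ℕ) := by exact_mod_cast h1
    have : vn r.ys ≤ vn 885837005 := by
      unfold vn
      exact div_le_div_of_nonneg_right h8 (by positivity)
    refine this.trans ?_
    unfold vn
    norm_num
  · rw [eo, ep, ← h2, ← h3, ← h4, zv_vn, zv_vn, zv_vn]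
    intro z z1 z2 z3 z4 z5 z6
    exact hR z z1 z2 z3 z4 z5 z6

theorem px_use : ∀ s ∈ Tab.ss, pxUse pxTab s = true := by
  have h : Tab.ss.all (pxUse pxTab) = true := by decide +kernel
  exact List.all_eq_true.1 h

theorem row0 (he : 200 ≤ e) (he5 : e ≤ 500) (hκ : 0 < κ) (hb : bet e κ ≤ 5) :
    ∀ c ∈ Tab.C0, ∀ r ∈ c.2.2, r.ys ≤ yTop → 0 < r.ys → RowP e κ 0 r := fun _ hc _ hr h1 h2 =>
  rowP_of he he5 hκ hb (pxTab_ok he hκ hb) Tab.ss_ok px_use Tab.G_cov Tab.G_sub (by norm_num)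
    Tab.sorted0 Tab.cols0 hc hr h1 h2

theorem row1 (he : 200 ≤ e) (he5 : e ≤ 500) (hκ : 0 < κ) (hb : bet e κ ≤ 5) :
    ∀ c ∈ Tab.C1, ∀ r ∈ c.2.2, r.ys ≤ yTop → 0 < r.ys → RowP e κ 1 r := fun _ hc _ hr h1 h2 =>
  rowP_of he he5 hκ hb (pxTab_ok he hκ hb) Tab.ss_ok px_use Tab.G_cov Tab.G_sub (by norm_num)
    Tab.sorted1 Tab.cols1 hc hr h1 h2

theorem row2 (he : 200 ≤ e) (he5 : e ≤ 500) (hκ : 0 < κ) (hb : bet e κ ≤ 5) :
    ∀ c ∈ Tab.C2, ∀ r ∈ c.2.2, r.ys ≤ yTop → 0 < r.ys → RowP e κ 2 r := fun _ hc _ hr h1 h2 =>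
  rowP_of he he5 hκ hb (pxTab_ok he hκ hb) Tab.ss_ok px_use Tab.G_cov Tab.G_sub (by norm_num)
    Tab.sorted2 Tab.cols2 hc hr h1 h2

theorem row3 (he : 200 ≤ e) (he5 : e ≤ 500) (hκ : 0 < κ) (hb : bet e κ ≤ 5) :
    ∀ c ∈ Tab.C3, ∀ r ∈ c.2.2, r.ys ≤ yTop → 0 < r.ys → RowP e κ 3 r := fun _ hc _ hr h1 h2 =>
  rowP_of he he5 hκ hb (pxTab_ok he hκ hb) Tab.ss_ok px_use Tab.G_cov Tab.G_sub (by norm_num)
    Tab.sorted3 Tab.cols3 hc hr h1 h2

theorem row4 (he : 200 ≤ e) (he5 : e ≤ 500) (hκ : 0 < κ) (hb : bet e κ ≤ 5) :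
    ∀ c ∈ Tab.C4, ∀ r ∈ c.2.2, r.ys ≤ yTop → 0 < r.ys → RowP e κ 4 r := fun _ hc _ hr h1 h2 =>
  rowP_of he he5 hκ hb (pxTab_ok he hκ hb) Tab.ss_ok px_use Tab.G_cov Tab.G_sub (by norm_num)
    Tab.sorted4 Tab.cols4 hc hr h1 h2

end Pool.Agent.helper31.A2
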