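import Pool.Agent.helper31.A2.Stm
import Pool.Agent.helper31.A2.Cert.F1P
import Pool.Agent.helper71.FF.Real

/-!
Generated: meaning of a program.
-/

namespace Pool.Agent.helper31.A2.XF1

open Pool.Agent.helper71.FF (RAs zv)
open Pool.Agent.helper31.IA (Z Op)
open Pool.Agent.helper31.A2.Cert.F1P

set_option maxRecDepth 100000

private theorem zc_61083746304_0 : (29127 / 524288 : ℝ) = zv 61083746304 0 := by unfold zv; norm_num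

private theorem zc_137438953472_0 : (1 / 8 : ℝ) = zv 137438953472 0 := by unfold zv; norm_num

private theorem zc_157073539072_0 : (149797 / 1048576 : ℝ) = zv 157073539072 0 := by unfold zv; norm_num

private theorem zc_274877906944_0 : (1 / 4 : ℝ) = zv 274877906944 0 := by unfold zv; norm_num

private theorem zc_366504574976_0 : (174763 / 524288 : ℝ) = zv 366504574976 0 := by unfold zv; norm_num

private theorem zc_549755813888_0 : (1 / 2 : ℝ) = zv 549755813888 0 := by unfold zv; norm_num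

private theorem zc_824633720832_0 : (3 / 4 : ℝ) = zv 824633720832 0 := by unfold zv; norm_num

private theorem zc_989560045568_0 : (471859 / 524288 : ℝ) = zv 989560045568 0 := by unfold zv; norm_num

private theorem zc_1085552984064_0 : (1011 / 1024 : ℝ) = zv 1085552984064 0 := by unfold zv; norm_num

private theorem zc_1090049277952_0 : (16243 / 16384 : ℝ) = zv 1090049277952 0 := by unfold zv; norm_num

private theorem zc_1098437885952_0 : (1023 / 1024 : ℝ) = zv 1098437885952 0 := by unfold zv; norm_num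

private theorem zc_1099511627776_0 : (1 : ℝ) = zv 1099511627776 0 := by unfold zv; norm_num

private theorem zc_1121502363648_0 : (267387 / 262144 : ℝ) = zv 1121502363648 0 := by unfold zv; norm_num

private theorem zc_1165482786816_0 : (1111491 / 1048576 : ℝ) = zv 1165482786816 0 := by unfold zv; norm_num

private theorem zc_1282763915264_0 : (1223339 / 1048576 : ℝ) = zv 1282763915264 0 := by unfold zv; norm_num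

private theorem zc_1649267441664_0 : (3 / 2 : ℝ) = zv 1649267441664 0 := by unfold zv; norm_num

private theorem zc_1759219023872_0 : (838861 / 524288 : ℝ) = zv 1759219023872 0 := by unfold zv; norm_num

private theorem zc_2199023255552_0 : (2 : ℝ) = zv 2199023255552 0 := by unfold zv; norm_num

private theorem zc_2748779069440_0 : (5 / 2 : ℝ) = zv 2748779069440 0 := by unfold zv; norm_num

private theorem zc_3298534883328_0 : (3 : ℝ) = zv 3298534883328 0 := by unfold zv; norm_num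

private theorem zc_4398046511104_0 : (4 : ℝ) = zv 4398046511104 0 := by unfold zv; norm_num

private theorem zc_10995116277760_0 : (10 : ℝ) = zv 10995116277760 0 := by unfold zv; norm_num

private theorem zc_11941082824704_0 : (11121 / 1024 : ℝ) = zv 11941082824704 0 := by unfold zv; norm_num

private theorem zc_12094627905536_0 : (11 : ℝ) = zv 12094627905536 0 := by unfold zv; norm_num

private theorem zc_35184372088832_0 : (32 : ℝ) = zv 35184372088832 0 := by unfold zv; norm_num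

/-- the constants of the row -/
noncomputable def cO (r : Row) : CF where
  cD := zv r.cD 0
  RH := zv r.RH 0
  RH1 := zv r.RH1 0
  RHq := zv r.RHq 0
  x0 := zv r.x0 0
  xa := zv r.xa 0
  xb := zv r.xb 0
  Lam0 := zv r.Lam0 0
  Y0 := zv r.Y0 0
  exK := zv r.exK 0
  a0 := zv r.a0 0
  tha := zv r.tha 0
  aS := zv r.aS 0
  lc0 := 1644419 / 1048576
  lc1 := 140999 / 1048576

/-- the constants of the row -/
noncomputable def mO (r : Row) : CN where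
  Ma := zv r.Ma 0
  Mb := zv r.Mb 0
  M1 := zv r.M1 0
  ys := zv r.ys 0

theorem ex {r : Row} {se R t : ℝ} (h : RAs (common r) [se, R, t]) :
    ∃ be v kc vs GrS GtS G2S Ma Mb M1 : ℝ, Nonempty (PFt R t be v kc vs) ∧
    ∃ P : PF (cO r) se be v R kc vs GrS GtS G2S Ma Mb M1, Nonempty (PFh P) ∧ PFc (mO r) P := by
  obtain ⟨ie, e_ie⟩ : ∃ zz : ℝ, zz = se * se := ⟨_, rfl⟩
  obtain ⟨t2, e_t2⟩ : ∃ zz : ℝ, zz = t * t := ⟨_, rfl⟩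
  obtain ⟨it, e_it⟩ : ∃ zz : ℝ, zz = (t2 + (1 : ℝ))⁻¹ := ⟨_, rfl⟩
  obtain ⟨kc, e_kc⟩ : ∃ zz : ℝ, zz = ((1 : ℝ) - t2) * it := ⟨_, rfl⟩
  obtain ⟨vs, e_vs⟩ : ∃ zz : ℝ, zz = 2 * (t * it) := ⟨_, rfl⟩
  obtain ⟨be, e_be⟩ : ∃ zz : ℝ, zz = R * kc := ⟨_, rfl⟩
  obtain ⟨v, e_v⟩ : ∃ zz : ℝ, zz = R * vs := ⟨_, rfl⟩
  obtain ⟨w, e_w⟩ : ∃ zz : ℝ, zz = se * R := ⟨_, rfl⟩
  obtain ⟨V, e_V⟩ : ∃ zz : ℝ, zz = w * w := ⟨_, rfl⟩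
  obtain ⟨wse, e_wse⟩ : ∃ zz : ℝ, zz = w * se := ⟨_, rfl⟩
  obtain ⟨K, e_K⟩ : ∃ zz : ℝ, zz = be * ie := ⟨_, rfl⟩
  obtain ⟨K2, e_K2⟩ : ∃ zz : ℝ, zz = K * K := ⟨_, rfl⟩
  obtain ⟨K2se, e_K2se⟩ : ∃ zz : ℝ, zz = K * be * se := ⟨_, rfl⟩
  obtain ⟨lau, e_lau⟩ : ∃ zz : ℝ, zz = (1 / 2) * be + Real.log (Real.exp (-be) + (1 : ℝ)) := ⟨_, rfl⟩
  obtain ⟨GrS, e_GrS⟩ : ∃ zz : ℝ, zz = se * lau := ⟨_, rfl⟩
  obtain ⟨GtS, e_GtS⟩ : ∃ zz : ℝ, zz = se * Real.exp ((1 / 2) * Real.log (lau * lau + v * v)) := ⟨_, rfl⟩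
  obtain ⟨G2S, e_G2S⟩ : ∃ zz : ℝ, zz = se * Real.exp ((1 / 2) * Real.log (lau * lau + (1 / 4) * (v * v))) := ⟨_, rfl⟩
  obtain ⟨i4, e_i4⟩ : ∃ zz : ℝ, zz = (be + (4 : ℝ))⁻¹ := ⟨_, rfl⟩
  obtain ⟨XS, e_XS⟩ : ∃ zz : ℝ, zz = 4 * ((cO r).aS * i4) := ⟨_, rfl⟩
  obtain ⟨X, e_X⟩ : ∃ zz : ℝ, zz = R * XS := ⟨_, rfl⟩
  obtain ⟨Vie, e_Vie⟩ : ∃ zz : ℝ, zz = V * ie := ⟨_, rfl⟩
  obtain ⟨a, e_a⟩ : ∃ zz : ℝ, zz = se * GtS + (cO r).cD * ie := ⟨_, rfl⟩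
  obtain ⟨ea, e_ea⟩ : ∃ zz : ℝ, zz = Real.exp a := ⟨_, rfl⟩
  obtain ⟨e2a, e_e2a⟩ : ∃ zz : ℝ, zz = ea * ea := ⟨_, rfl⟩
  obtain ⟨er, e_er⟩ : ∃ zz : ℝ, zz = ((838861 / 524288) * V + (5 / 2) * v) * ie := ⟨_, rfl⟩
  obtain ⟨h4, e_h4⟩ : ∃ zz : ℝ, zz = (1 : ℝ) - (1 / 4) * K2 := ⟨_, rfl⟩
  obtain ⟨dzS, e_dzS⟩ : ∃ zz : ℝ, zz = vs * (G2S + ea * ((1 / 2) * (se * GtS * GtS) + (149797 / 1048576) * K2se)) + w * ((3 / 2) * e2a - (3 / 2 : ℝ) + (3 / 4) * K2 + v * ie + er) + K2se * ((1 / 8) * (v * vs * ie)) := ⟨_, rfl⟩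
  obtain ⟨dzR, e_dzR⟩ : ∃ zz : ℝ, zz = dzS * se := ⟨_, rfl⟩
  obtain ⟨r1V, e_r1V⟩ : ∃ zz : ℝ, zz = h4 * ((3 : ℝ) - (3 / 2) * e2a) - (1 / 2) * (kc * kc) - vs * vs * ea - er := ⟨_, rfl⟩
  obtain ⟨r2V, e_r2V⟩ : ∃ zz : ℝ, zz = (3 / 2) * e2a - h4 * ((1 / 2) * (kc * kc)) + er := ⟨_, rfl⟩
  obtain ⟨glf, e_glf⟩ : ∃ zz : ℝ, zz = (1 : ℝ) + (267387 / 262144) * ((838861 / 524288) * V * ie) := ⟨_, rfl⟩
  obtain ⟨ycR, e_ycR⟩ : ∃ zz : ℝ, zz = vs * (glf + 2 * (Vie * e2a)) + wse * er := ⟨_, rfl⟩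
  obtain ⟨r1w, e_r1w⟩ : ∃ zz : ℝ, zz = r1V * wse := ⟨_, rfl⟩
  obtain ⟨kv, e_kv⟩ : ∃ zz : ℝ, zz = kc * kc + ycR * ycR := ⟨_, rfl⟩
  obtain ⟨x1, e_x1⟩ : ∃ zz : ℝ, zz = (1023 / 1024) * r1V * (kv + r1w * r1w)⁻¹ := ⟨_, rfl⟩
  obtain ⟨z, e_z⟩ : ∃ zz : ℝ, zz = 2 * (vs * vs * Vie) := ⟨_, rfl⟩
  obtain ⟨sR0, e_sR0⟩ : ∃ zz : ℝ, zz = (1 : ℝ) - z := ⟨_, rfl⟩
  obtain ⟨m, e_m⟩ : ∃ zz : ℝ, zz = sR0 - dzR - dzR * dzR := ⟨_, rfl⟩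
  obtain ⟨m2, e_m2⟩ : ∃ zz : ℝ, zz = m * m := ⟨_, rfl⟩
  obtain ⟨im, e_im⟩ : ∃ zz : ℝ, zz = m⁻¹ := ⟨_, rfl⟩
  obtain ⟨bb, e_bb⟩ : ∃ zz : ℝ, zz = be * be * ie := ⟨_, rfl⟩
  obtain ⟨yc, e_yc⟩ : ∃ zz : ℝ, zz = ycR * R := ⟨_, rfl⟩
  obtain ⟨cK, e_cK⟩ : ∃ zz : ℝ, zz = (1223339 / 1048576) * K2 + 32 * (ie * ie) := ⟨_, rfl⟩
  obtain ⟨L1, e_L1⟩ : ∃ zz : ℝ, zz = (16243 / 16384) * x1 := ⟨_, rfl⟩
  obtain ⟨lv, e_lv⟩ : ∃ zz : ℝ, zz = L1 * V * m2 := ⟨_, rfl⟩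
  obtain ⟨yb, e_yb⟩ : ∃ zz : ℝ, zz = bb + 2 * yc := ⟨_, rfl⟩
  obtain ⟨qa, e_qa⟩ : ∃ zz : ℝ, zz = (1 : ℝ) - cK - yb * (mO r).Ma * ie - (3 * ie + 2 * (ie * (mO r).Ma)) * lv := ⟨_, rfl⟩
  obtain ⟨u, e_u⟩ : ∃ zz : ℝ, zz = Real.exp (-(qa * lv)) := ⟨_, rfl⟩
  obtain ⟨iX, e_iX⟩ : ∃ zz : ℝ, zz = ((1 : ℝ) - X)⁻¹ := ⟨_, rfl⟩
  obtain ⟨LX, e_LX⟩ : ∃ zz : ℝ, zz = (1 : ℝ) + (1 / 2) * X + (174763 / 524288) * (X * X * iX) := ⟨_, rfl⟩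
  obtain ⟨uX, e_uX⟩ : ∃ zz : ℝ, zz = u * X := ⟨_, rfl⟩
  obtain ⟨LU, e_LU⟩ : ∃ zz : ℝ, zz = (1 : ℝ) + (1 / 2) * uX + (174763 / 524288) * (uX * uX * ((1 : ℝ) - uX)⁻¹) := ⟨_, rfl⟩
  obtain ⟨dz, e_dz⟩ : ∃ zz : ℝ, zz = dzS * w := ⟨_, rfl⟩
  obtain ⟨DG, e_DG⟩ : ∃ zz : ℝ, zz = dz + dz * (mO r).Mb + X * LX := ⟨_, rfl⟩
  obtain ⟨DF, e_DF⟩ : ∃ zz : ℝ, zz = dz * (mO r).Ma + uX * LU := ⟨_, rfl⟩
  obtain ⟨vDG, e_vDG⟩ : ∃ zz : ℝ, zz = vs * (dzR * (mO r).Mb + dzR + XS * LX) := ⟨_, rfl⟩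
  obtain ⟨EQ, e_EQ⟩ : ∃ zz : ℝ, zz = (1111491 / 1048576) * e2a * (vDG + ie * (2 * DG + DF)) := ⟨_, rfl⟩
  obtain ⟨ER, e_ER⟩ : ∃ zz : ℝ, zz = EQ * wse := ⟨_, rfl⟩
  obtain ⟨Qw, e_Qw⟩ : ∃ zz : ℝ, zz = ER * im := ⟨_, rfl⟩
  obtain ⟨c2, e_c2⟩ : ∃ zz : ℝ, zz = (-(2 * Qw)) + (1011 / 1024 : ℝ) := ⟨_, rfl⟩
  obtain ⟨s1, e_s1⟩ : ∃ zz : ℝ, zz = (1 / 2) * (kv - (1 : ℝ)) + (1 : ℝ) := ⟨_, rfl⟩
  obtain ⟨s3, e_s3⟩ : ∃ zz : ℝ, zz = (s1 + dzR + ER) * (s1 + dzR + ER) := ⟨_, rfl⟩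
  obtain ⟨d, e_d⟩ : ∃ zz : ℝ, zz = (cO r).exK * (EQ * (m2 * ((1 : ℝ) - Qw))⁻¹) := ⟨_, rfl⟩
  obtain ⟨E, e_E⟩ : ∃ zz : ℝ, zz = EQ * V := ⟨_, rfl⟩
  obtain ⟨yE, e_yE⟩ : ∃ zz : ℝ, zz = yc + E := ⟨_, rfl⟩
  obtain ⟨x2, e_x2⟩ : ∃ zz : ℝ, zz = x1 - d + (1 : ℝ) := ⟨_, rfl⟩
  obtain ⟨L4, e_L4⟩ : ∃ zz : ℝ, zz = (16243 / 16384) * x2 := ⟨_, rfl⟩
  obtain ⟨rn, e_rn⟩ : ∃ zz : ℝ, zz = L4 * V * m2 * c2 := ⟨_, rfl⟩
  obtain ⟨qb, e_qb⟩ : ∃ zz : ℝ, zz = (1 : ℝ) - cK - (yb + 2 * E) * (mO r).M1 * ie - (3 * ie + 2 * (ie * (mO r).M1)) * rn := ⟨_, rfl⟩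
  obtain ⟨u1, e_u1⟩ : ∃ zz : ℝ, zz = Real.exp (-(qb * rn)) := ⟨_, rfl⟩
  obtain ⟨EM, e_EM⟩ : ∃ zz : ℝ, zz = E * (mO r).M1 + E := ⟨_, rfl⟩
  obtain ⟨EMr, e_EMr⟩ : ∃ zz : ℝ, zz = (ER * (mO r).M1 + ER) * ((1 / 4) * be + (1 : ℝ)) := ⟨_, rfl⟩
  obtain ⟨i2, e_i2⟩ : ∃ zz : ℝ, zz = ((1 : ℝ) - (1 / 2) * EM)⁻¹ := ⟨_, rfl⟩
  obtain ⟨eta, e_eta⟩ : ∃ zz : ℝ, zz = ((1 / 2) * EM + (1 : ℝ)) * i2 := ⟨_, rfl⟩
  obtain ⟨r2w, e_r2w⟩ : ∃ zz : ℝ, zz = r2V * wse := ⟨_, rfl⟩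
  obtain ⟨DPx, e_DPx⟩ : ∃ zz : ℝ, zz = kv + r2w * (r2w + 2 * kc) := ⟨_, rfl⟩
  obtain ⟨VcR, e_VcR⟩ : ∃ zz : ℝ, zz = wse * (kv + r2w * r2w) := ⟨_, rfl⟩
  obtain ⟨DPR, e_DPR⟩ : ∃ zz : ℝ, zz = (1 / 2) * (DPx - (1 : ℝ)) + (1 : ℝ) := ⟨_, rfl⟩
  obtain ⟨p_a1, ch0⟩ := (((((h
    (1 : ℝ) zc_1099511627776_0
    ie e_ie
    t2 e_t2
    (t2 + (1 : ℝ)) rfl).2
    it e_it
    ((1 : ℝ) - t2) rfl
    kc e_kc
    (t * it) rfl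
    vs (e_vs.trans (congrArg (fun zz : ℝ => zz * (t * it)) zc_2199023255552_0))
    be e_be
    v e_v
    w e_w
    V e_V
    wse e_wse
    K e_K
    K2 e_K2
    (K * be) rfl
    K2se e_K2se
    ((1 / 2) * be) (congrArg (fun zz : ℝ => zz * be) zc_549755813888_0)
    (-be) rfl
    (Real.exp (-be)) rfl
    (Real.exp (-be) + (1 : ℝ)) rfl).2
    (Real.log (Real.exp (-be) + (1 : ℝ))) rfl
    lau e_lau
    GrS e_GrS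
    (lau * lau) rfl
    (v * v) rfl
    (lau * lau + v * v) rfl).2
    (Real.log (lau * lau + v * v)) rfl
    ((1 / 2) * Real.log (lau * lau + v * v)) (congrArg (fun zz : ℝ => zz * Real.log (lau * lau + v * v)) zc_549755813888_0)
    (Real.exp ((1 / 2) * Real.log (lau * lau + v * v))) rfl
    GtS e_GtS
    ((1 / 4) * (v * v)) (congrArg (fun zz : ℝ => zz * (v * v)) zc_274877906944_0)
    (lau * lau + (1 / 4) * (v * v)) rfl).2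
    (Real.log (lau * lau + (1 / 4) * (v * v))) rfl
    ((1 / 2) * Real.log (lau * lau + (1 / 4) * (v * v))) (congrArg (fun zz : ℝ => zz * Real.log (lau * lau + (1 / 4) * (v * v))) zc_549755813888_0)
    (Real.exp ((1 / 2) * Real.log (lau * lau + (1 / 4) * (v * v)))) rfl
    G2S e_G2S
    (4 : ℝ) zc_4398046511104_0
    (be + (4 : ℝ)) rfl).2
    i4 e_i4
    ((cO r).aS * i4) rfl
    XS (e_XS.trans (congrArg (fun zz : ℝ => zz * ((cO r).aS * i4)) zc_4398046511104_0))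
    X e_X
    Vie e_Vie
    (se * GtS) rfl
    ((cO r).cD * ie) rfl
    a e_a
    ea e_ea
    e2a e_e2a
    (-a) rfl
    (29127 / 524288 : ℝ) zc_61083746304_0
    ((-a) + (29127 / 524288 : ℝ)) rfl
  change 0 < (-a) + (29127 / 524288 : ℝ) at p_a1
  obtain ⟨p_x11, ch1⟩ := (ch0
    ((838861 / 524288) * V) (congrArg (fun zz : ℝ => zz * V) zc_1759219023872_0)
    ((5 / 2) * v) (congrArg (fun zz : ℝ => zz * v) zc_2748779069440_0)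
    ((838861 / 524288) * V + (5 / 2) * v) rfl
    er e_er
    ((1 / 4) * K2) (congrArg (fun zz : ℝ => zz * K2) zc_274877906944_0)
    h4 e_h4
    (se * GtS * GtS) rfl
    ((1 / 2) * (se * GtS * GtS)) (congrArg (fun zz : ℝ => zz * (se * GtS * GtS)) zc_549755813888_0)
    ((149797 / 1048576) * K2se) (congrArg (fun zz : ℝ => zz * K2se) zc_157073539072_0)
    ((1 / 2) * (se * GtS * GtS) + (149797 / 1048576) * K2se) rfl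
    (ea * ((1 / 2) * (se * GtS * GtS) + (149797 / 1048576) * K2se)) rfl
    (G2S + ea * ((1 / 2) * (se * GtS * GtS) + (149797 / 1048576) * K2se)) rfl
    (vs * (G2S + ea * ((1 / 2) * (se * GtS * GtS) + (149797 / 1048576) * K2se))) rfl
    ((3 / 2) * e2a) (congrArg (fun zz : ℝ => zz * e2a) zc_1649267441664_0)
    (3 / 2 : ℝ) zc_1649267441664_0
    ((3 / 2) * e2a - (3 / 2 : ℝ)) rfl
    ((3 / 4) * K2) (congrArg (fun zz : ℝ => zz * K2) zc_824633720832_0)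
    ((3 / 2) * e2a - (3 / 2 : ℝ) + (3 / 4) * K2) rfl
    (v * ie) rfl
    ((3 / 2) * e2a - (3 / 2 : ℝ) + (3 / 4) * K2 + v * ie) rfl
    ((3 / 2) * e2a - (3 / 2 : ℝ) + (3 / 4) * K2 + v * ie + er) rfl
    (w * ((3 / 2) * e2a - (3 / 2 : ℝ) + (3 / 4) * K2 + v * ie + er)) rfl
    (vs * (G2S + ea * ((1 / 2) * (se * GtS * GtS) + (149797 / 1048576) * K2se)) + w * ((3 / 2) * e2a - (3 / 2 : ℝ) + (3 / 4) * K2 + v * ie + er)) rfl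
    (v * vs) rfl
    (v * vs * ie) rfl
    ((1 / 8) * (v * vs * ie)) (congrArg (fun zz : ℝ => zz * (v * vs * ie)) zc_137438953472_0)
    (K2se * ((1 / 8) * (v * vs * ie))) rfl
    dzS e_dzS
    dzR e_dzR
    (3 : ℝ) zc_3298534883328_0
    ((3 : ℝ) - (3 / 2) * e2a) rfl
    (h4 * ((3 : ℝ) - (3 / 2) * e2a)) rfl
    (kc * kc) rfl
    ((1 / 2) * (kc * kc)) (congrArg (fun zz : ℝ => zz * (kc * kc)) zc_549755813888_0)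
    (h4 * ((3 : ℝ) - (3 / 2) * e2a) - (1 / 2) * (kc * kc)) rfl
    (vs * vs) rfl
    (vs * vs * ea) rfl
    (h4 * ((3 : ℝ) - (3 / 2) * e2a) - (1 / 2) * (kc * kc) - vs * vs * ea) rfl
    r1V e_r1V
    (h4 * ((1 / 2) * (kc * kc))) rfl
    ((3 / 2) * e2a - h4 * ((1 / 2) * (kc * kc))) rfl
    r2V e_r2V
    ((838861 / 524288) * V * ie) rfl
    ((267387 / 262144) * ((838861 / 524288) * V * ie)) (congrArg (fun zz : ℝ => zz * ((838861 / 524288) * V * ie)) zc_1121502363648_0)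
    glf e_glf
    (Vie * e2a) rfl
    (2 * (Vie * e2a)) (congrArg (fun zz : ℝ => zz * (Vie * e2a)) zc_2199023255552_0)
    (glf + 2 * (Vie * e2a)) rfl
    (vs * (glf + 2 * (Vie * e2a))) rfl
    (wse * er) rfl
    ycR e_ycR
    r1w e_r1w
    (ycR * ycR) rfl
    kv e_kv
    ((1023 / 1024) * r1V) (congrArg (fun zz : ℝ => zz * r1V) zc_1098437885952_0)
    (r1w * r1w) rfl
    (kv + r1w * r1w) rfl).2
    ((kv + r1w * r1w)⁻¹) rfl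
    x1 e_x1
    (-x1) rfl
    ((-x1) + (1 : ℝ)) rfl
  change 0 < (-x1) + (1 : ℝ) at p_x11
  obtain ⟨p_m0, ch2⟩ := ch1
    (vs * vs * Vie) rfl
    z (e_z.trans (congrArg (fun zz : ℝ => zz * (vs * vs * Vie)) zc_2199023255552_0))
    sR0 e_sR0
    (sR0 - dzR) rfl
    (dzR * dzR) rfl
    m e_m
    m2 e_m2
  change 0 < m at p_m0
  obtain ⟨p_qa, ch3⟩ := (ch2).2
    im e_im
    (be * be) rfl
    bb e_bb
    yc e_yc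
    ((1223339 / 1048576) * K2) (congrArg (fun zz : ℝ => zz * K2) zc_1282763915264_0)
    (ie * ie) rfl
    (32 * (ie * ie)) (congrArg (fun zz : ℝ => zz * (ie * ie)) zc_35184372088832_0)
    cK e_cK
    (mO r).Ma rfl
    (mO r).Mb rfl
    L1 (e_L1.trans (congrArg (fun zz : ℝ => zz * x1) zc_1090049277952_0))
    (L1 * V) rfl
    lv e_lv
    (2 * yc) (congrArg (fun zz : ℝ => zz * yc) zc_2199023255552_0)
    yb e_yb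
    ((1 : ℝ) - cK) rfl
    (yb * (mO r).Ma) rfl
    (yb * (mO r).Ma * ie) rfl
    ((1 : ℝ) - cK - yb * (mO r).Ma * ie) rfl
    (3 * ie) (congrArg (fun zz : ℝ => zz * ie) zc_3298534883328_0)
    (ie * (mO r).Ma) rfl
    (2 * (ie * (mO r).Ma)) (congrArg (fun zz : ℝ => zz * (ie * (mO r).Ma)) zc_2199023255552_0)
    (3 * ie + 2 * (ie * (mO r).Ma)) rfl
    ((3 * ie + 2 * (ie * (mO r).Ma)) * lv) rfl
    qa e_qa
    ((3 * ie + 2 * (ie * (mO r).Ma)) * V) rfl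
    (10 * ((3 * ie + 2 * (ie * (mO r).Ma)) * V)) (congrArg (fun zz : ℝ => zz * ((3 * ie + 2 * (ie * (mO r).Ma)) * V)) zc_10995116277760_0)
    (qa - 10 * ((3 * ie + 2 * (ie * (mO r).Ma)) * V)) rfl
  change 0 < qa - 10 * ((3 * ie + 2 * (ie * (mO r).Ma)) * V) at p_qa
  obtain ⟨p_X1, ch4⟩ := ch3
    (qa * lv) rfl
    (-(qa * lv)) rfl
    u e_u
    ((1 : ℝ) - X) rfl
  change 0 < (1 : ℝ) - X at p_X1
  obtain ⟨p_cG, ch5⟩ := ((ch4).2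
    iX e_iX
    ((1 / 2) * X) (congrArg (fun zz : ℝ => zz * X) zc_549755813888_0)
    ((1 : ℝ) + (1 / 2) * X) rfl
    (X * X) rfl
    (X * X * iX) rfl
    ((174763 / 524288) * (X * X * iX)) (congrArg (fun zz : ℝ => zz * (X * X * iX)) zc_366504574976_0)
    LX e_LX
    uX e_uX
    ((1 / 2) * uX) (congrArg (fun zz : ℝ => zz * uX) zc_549755813888_0)
    ((1 : ℝ) + (1 / 2) * uX) rfl
    (uX * uX) rfl
    ((1 : ℝ) - uX) rfl).2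
    (((1 : ℝ) - uX)⁻¹) rfl
    (uX * uX * ((1 : ℝ) - uX)⁻¹) rfl
    ((174763 / 524288) * (uX * uX * ((1 : ℝ) - uX)⁻¹)) (congrArg (fun zz : ℝ => zz * (uX * uX * ((1 : ℝ) - uX)⁻¹)) zc_366504574976_0)
    LU e_LU
    dz e_dz
    (dz * (mO r).Mb) rfl
    (dz + dz * (mO r).Mb) rfl
    (X * LX) rfl
    DG e_DG
    (dz * (mO r).Ma) rfl
    (uX * LU) rfl
    DF e_DF
    (dzR * (mO r).Mb) rfl
    (dzR * (mO r).Mb + dzR) rfl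
    (XS * LX) rfl
    (dzR * (mO r).Mb + dzR + XS * LX) rfl
    vDG e_vDG
    (-DG) rfl
    (cO r).cD rfl
    ((-DG) + (cO r).cD) rfl
  change 0 < (-DG) + (cO r).cD at p_cG
  obtain ⟨p_cF, ch6⟩ := ch5
    (-DF) rfl
    ((-DF) + (cO r).cD) rfl
  change 0 < (-DF) + (cO r).cD at p_cF
  obtain ⟨p_Es, ch7⟩ := ch6
    ((1111491 / 1048576) * e2a) (congrArg (fun zz : ℝ => zz * e2a) zc_1165482786816_0)
    (2 * DG) (congrArg (fun zz : ℝ => zz * DG) zc_2199023255552_0)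
    (2 * DG + DF) rfl
    (ie * (2 * DG + DF)) rfl
    (vDG + ie * (2 * DG + DF)) rfl
    EQ e_EQ
    ER e_ER
    Qw e_Qw
    ((1 : ℝ) - Qw) rfl
  change 0 < (1 : ℝ) - Qw at p_Es
  obtain ⟨p_R1, ch8⟩ := ch7
    (2 * Qw) (congrArg (fun zz : ℝ => zz * Qw) zc_2199023255552_0)
    (-(2 * Qw)) rfl
    (1011 / 1024 : ℝ) zc_1085552984064_0
    c2 e_c2
    (kv - (1 : ℝ)) rfl
    ((1 / 2) * (kv - (1 : ℝ))) (congrArg (fun zz : ℝ => zz * (kv - (1 : ℝ))) zc_549755813888_0)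
    s1 e_s1
    (s1 + dzR) rfl
    (s1 + dzR + ER) rfl
    s3 e_s3
    (cO r).RH1 rfl
    (dzR + (1 : ℝ)) rfl
    ((dzR + (1 : ℝ)) * (dzR + (1 : ℝ))) rfl
    ((cO r).RH1 - (dzR + (1 : ℝ)) * (dzR + (1 : ℝ))) rfl
  change 0 < (cO r).RH1 - (dzR + (1 : ℝ)) * (dzR + (1 : ℝ)) at p_R1
  obtain ⟨p_R2, ch9⟩ := ch8
    (cO r).RH rfl
    ((cO r).RH - r2V) rfl
    ((cO r).RH - r2V - EQ) rfl
    ((cO r).RH - r2V - EQ - s3) rfl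
  change 0 < (cO r).RH - r2V - EQ - s3 at p_R2
  obtain ⟨p_h9, ch10⟩ := ch9
    (m2 * c2) rfl
    (10 * (m2 * c2)) (congrArg (fun zz : ℝ => zz * (m2 * c2)) zc_10995116277760_0)
    (10 * (m2 * c2) - (cO r).RH) rfl
  change 0 < 10 * (m2 * c2) - (cO r).RH at p_h9
  obtain ⟨p_h2, ch11⟩ := ch10
    ((471859 / 524288) * (m2 * c2)) (congrArg (fun zz : ℝ => zz * (m2 * c2)) zc_989560045568_0)
    ((cO r).RHq * Vie) rfl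
    ((471859 / 524288) * (m2 * c2) - (cO r).RHq * Vie) rfl
  change 0 < (471859 / 524288) * (m2 * c2) - (cO r).RHq * Vie at p_h2
  obtain ⟨p_rr, ch12⟩ := ch11
    ((11121 / 1024) * (m2 * c2)) (congrArg (fun zz : ℝ => zz * (m2 * c2)) zc_11941082824704_0)
    ((11121 / 1024) * (m2 * c2) - (cO r).RH) rfl
    ((11121 / 1024) * (m2 * c2) - (cO r).RH - s3) rfl
  change 0 < (11121 / 1024) * (m2 * c2) - (cO r).RH - s3 at p_rr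
  obtain ⟨p_dzS0, ch13⟩ := ch12
  change 0 < sR0 - dzR at p_dzS0
  obtain ⟨p_x0, ch14⟩ := (ch13
    (m2 * ((1 : ℝ) - Qw)) rfl).2
    ((m2 * ((1 : ℝ) - Qw))⁻¹) rfl
    (EQ * (m2 * ((1 : ℝ) - Qw))⁻¹) rfl
    d e_d
    (x1 - d) rfl
    (cO r).x0 rfl
    (x1 - d - (cO r).x0) rfl
  change 0 < x1 - d - (cO r).x0 at p_x0
  obtain ⟨p_xa, ch15⟩ := ch14
    (cO r).xa rfl
    (x1 - (cO r).xa) rfl
  change 0 < x1 - (cO r).xa at p_xa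
  obtain ⟨p_xb, ch16⟩ := ch15
    (cO r).xb rfl
    (x1 - d - (cO r).xb) rfl
  change 0 < x1 - d - (cO r).xb at p_xb
  obtain ⟨p_Er, ch17⟩ := ch16
    (r1V - EQ) rfl
  change 0 < r1V - EQ at p_Er
  obtain ⟨p_La, ch18⟩ := ch17
    ((1 : ℝ) - 2 * Qw) rfl
    (m2 * ((1 : ℝ) - 2 * Qw)) rfl
    ((cO r).Lam0 * (m2 * ((1 : ℝ) - 2 * Qw))) rfl
    ((cO r).Lam0 * (m2 * ((1 : ℝ) - 2 * Qw)) - r2V) rfl
    ((cO r).Lam0 * (m2 * ((1 : ℝ) - 2 * Qw)) - r2V - EQ) rfl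
  change 0 < (cO r).Lam0 * (m2 * ((1 : ℝ) - 2 * Qw)) - r2V - EQ at p_La
  obtain ⟨p_y0, ch19⟩ := ch18
    E e_E
    yE e_yE
    (-yE) rfl
    (cO r).Y0 rfl
    ((-yE) + (cO r).Y0) rfl
  change 0 < (-yE) + (cO r).Y0 at p_y0
  obtain ⟨p_ys, ch20⟩ := ch19
    x2 e_x2
    L4 (e_L4.trans (congrArg (fun zz : ℝ => zz * x2) zc_1090049277952_0))
    (L4 * V) rfl
    (L4 * V * m2) rfl
    rn e_rn
    (mO r).M1 rfl
    (mO r).ys rfl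
    ((mO r).ys - yE) rfl
  change 0 < (mO r).ys - yE at p_ys
  obtain ⟨p_ya0, ch21⟩ := ch20
    ((mO r).ys - v) rfl
  change 0 < (mO r).ys - v at p_ya0
  obtain ⟨p_qb, ch22⟩ := ch21
    (2 * E) (congrArg (fun zz : ℝ => zz * E) zc_2199023255552_0)
    (yb + 2 * E) rfl
    ((yb + 2 * E) * (mO r).M1) rfl
    ((yb + 2 * E) * (mO r).M1 * ie) rfl
    ((1 : ℝ) - cK - (yb + 2 * E) * (mO r).M1 * ie) rfl
    (ie * (mO r).M1) rfl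
    (2 * (ie * (mO r).M1)) (congrArg (fun zz : ℝ => zz * (ie * (mO r).M1)) zc_2199023255552_0)
    (3 * ie + 2 * (ie * (mO r).M1)) rfl
    ((3 * ie + 2 * (ie * (mO r).M1)) * rn) rfl
    qb e_qb
    ((3 * ie + 2 * (ie * (mO r).M1)) * V) rfl
    (11 * ((3 * ie + 2 * (ie * (mO r).M1)) * V)) (congrArg (fun zz : ℝ => zz * ((3 * ie + 2 * (ie * (mO r).M1)) * V)) zc_12094627905536_0)
    (qb - 11 * ((3 * ie + 2 * (ie * (mO r).M1)) * V)) rfl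
  change 0 < qb - 11 * ((3 * ie + 2 * (ie * (mO r).M1)) * V) at p_qb
  obtain ⟨p_EM2, ch23⟩ := ch22
    (qb * rn) rfl
    (-(qb * rn)) rfl
    u1 e_u1
    (E * (mO r).M1) rfl
    EM e_EM
    (ER * (mO r).M1) rfl
    (ER * (mO r).M1 + ER) rfl
    ((1 / 4) * be) (congrArg (fun zz : ℝ => zz * be) zc_274877906944_0)
    ((1 / 4) * be + (1 : ℝ)) rfl
    EMr e_EMr
    ((1 / 2) * EM) (congrArg (fun zz : ℝ => zz * EM) zc_549755813888_0)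
    ((1 : ℝ) - (1 / 2) * EM) rfl
  change 0 < (1 : ℝ) - (1 / 2) * EM at p_EM2
  obtain ⟨p_cl, ch24⟩ := (ch23).2
    i2 e_i2
    ((1 / 2) * EM + (1 : ℝ)) rfl
    eta e_eta
    r2w e_r2w
    (2 * kc) (congrArg (fun zz : ℝ => zz * kc) zc_2199023255552_0)
    (r2w + 2 * kc) rfl
    (r2w * (r2w + 2 * kc)) rfl
    DPx e_DPx
    (r2w * r2w) rfl
    (kv + r2w * r2w) rfl
    VcR e_VcR
    (DPx - (1 : ℝ)) rfl
    ((1 / 2) * (DPx - (1 : ℝ))) (congrArg (fun zz : ℝ => zz * (DPx - (1 : ℝ))) zc_549755813888_0)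
    DPR e_DPR
    (EMr * i2) rfl
    (eta * u1) rfl
    ((cO r).a0 * (eta * u1)) rfl
    (DPR + VcR) rfl
    (DPR + VcR + ER) rfl
    ((cO r).a0 * (eta * u1) * (DPR + VcR + ER)) rfl
    (EMr * i2 + (cO r).a0 * (eta * u1) * (DPR + VcR + ER)) rfl
    (-(EMr * i2 + (cO r).a0 * (eta * u1) * (DPR + VcR + ER))) rfl
    (cO r).tha rfl
    ((-(EMr * i2 + (cO r).a0 * (eta * u1) * (DPR + VcR + ER))) + (cO r).tha) rfl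
  change 0 < (-(EMr * i2 + (cO r).a0 * (eta * u1) * (DPR + VcR + ER))) + (cO r).tha at p_cl
  exact ⟨be, v, kc, vs, GrS, GtS, G2S, (mO r).Ma, (mO r).Mb, (mO r).M1,
    ⟨⟨t2, it, e_t2, e_it, e_kc, e_vs, e_be, e_v⟩⟩,
    ⟨ie, w, V, wse, K, K2, K2se, lau, i4, XS, X, Vie, a, ea, e2a, er, h4, dzS, dzR, r1V, r2V,
    glf, ycR, r1w, kv, x1, z, sR0, m, m2, im, bb, yc, cK, L1, lv, yb, qa, u, iX, LX, uX, LU, dz,
    DG, DF, vDG, EQ, ER, Qw, c2, s1, s3, d, E, yE, x2, L4, rn, qb, u1, EM, EMr, i2, eta, r2w,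
    DPx, VcR, DPR, e_ie, e_w, e_V, e_wse, e_K, e_K2, e_K2se, e_lau, e_i4, e_XS, e_X, e_Vie, e_a,
    e_ea, e_e2a, e_er, e_h4, e_dzS, e_dzR, e_r1V, e_r2V, e_glf, e_ycR, e_r1w, e_kv, e_x1, e_z,
    e_sR0, e_m, e_m2, e_im, e_bb, e_yc, e_cK, e_L1, e_lv, e_yb, e_qa, e_u, e_iX, e_LX, e_uX,
    e_LU, e_dz, e_DG, e_DF, e_vDG, e_EQ, e_ER, e_Qw, e_c2, e_s1, e_s3, e_d, e_E, e_yE, e_x2,
    e_L4, e_rn, e_qb, e_u1, e_EM, e_EMr, e_i2, e_eta, e_r2w, e_DPx, e_VcR, e_DPR, p_a1, p_x11,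
    p_m0, p_qa, p_X1, p_cG, p_cF, p_Es, p_R1, p_R2, p_h9, p_h2, p_rr, p_dzS0, p_x0, p_xa, p_xb,
    p_Er, p_La, p_y0, p_qb, p_EM2, p_cl⟩,
    ⟨⟨e_GrS, e_GtS, e_G2S⟩⟩, ⟨rfl, rfl, rfl, p_ys, p_ya0⟩⟩

end Pool.Agent.helper31.A2.XF1
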