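import Pool.Agent.helper31.A2.Stm
import Pool.Agent.helper31.A2.Cert.LPP
import Pool.Agent.helper71.FF.Real

/-!
Generated: meaning of a program.
-/

namespace Pool.Agent.helper31.A2.XLP

open Pool.Agent.helper71.FF (RAs zv)
open Pool.Agent.helper31.IA (Z Op)
open Pool.Agent.helper31.A2.Cert.LPP

set_option maxRecDepth 100000

private theorem zc_900726784_0 : (859 / 1048576 : ℝ) = zv 900726784 0 := by unfold zv; norm_num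

private theorem zc_5496635392_0 : (2621 / 524288 : ℝ) = zv 5496635392 0 := by unfold zv; norm_num

private theorem zc_5727322112_0 : (2731 / 524288 : ℝ) = zv 5727322112 0 := by unfold zv; norm_num

private theorem zc_10994319360_0 : (10485 / 1048576 : ℝ) = zv 10994319360 0 := by unfold zv; norm_num

private theorem zc_13744734208_0 : (3277 / 262144 : ℝ) = zv 13744734208 0 := by unfold zv; norm_num

private theorem zc_21989687296_0 : (20971 / 1048576 : ℝ) = zv 21989687296 0 := by unfold zv; norm_num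

private theorem zc_36649828352_0 : (4369 / 131072 : ℝ) = zv 36649828352 0 := by unfold zv; norm_num

private theorem zc_196263018496_0 : (187171 / 1048576 : ℝ) = zv 196263018496 0 := by unfold zv; norm_num

private theorem zc_274877906944_0 : (1 / 4 : ℝ) = zv 274877906944 0 := by unfold zv; norm_num

private theorem zc_549755813888_0 : (1 / 2 : ℝ) = zv 549755813888 0 := by unfold zv; norm_num

private theorem zc_659707396096_0 : (314573 / 524288 : ℝ) = zv 659707396096 0 := by unfold zv; norm_num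

private theorem zc_989560045568_0 : (471859 / 524288 : ℝ) = zv 989560045568 0 := by unfold zv; norm_num

private theorem zc_1085552984064_0 : (1011 / 1024 : ℝ) = zv 1085552984064 0 := by unfold zv; norm_num

private theorem zc_1099511627776_0 : (1 : ℝ) = zv 1099511627776 0 := by unfold zv; norm_num

private theorem zc_1106574835712_0 : (65957 / 65536 : ℝ) = zv 1106574835712 0 := by unfold zv; norm_num

private theorem zc_1108101562368_0 : (129 / 128 : ℝ) = zv 1108101562368 0 := by unfold zv; norm_num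

private theorem zc_1116004679680_0 : (1064305 / 1048576 : ℝ) = zv 1116004679680 0 := by unfold zv; norm_num

private theorem zc_1282763915264_0 : (1223339 / 1048576 : ℝ) = zv 1282763915264 0 := by unfold zv; norm_num

private theorem zc_1869170606080_0 : (445645 / 262144 : ℝ) = zv 1869170606080 0 := by unfold zv; norm_num

private theorem zc_2199023255552_0 : (2 : ℝ) = zv 2199023255552 0 := by unfold zv; norm_num

private theorem zc_2253999046656_0 : (2149581 / 1048576 : ℝ) = zv 2253999046656 0 := by unfold zv; norm_num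

private theorem zc_2418926419968_0 : (576717 / 262144 : ℝ) = zv 2418926419968 0 := by unfold zv; norm_num

private theorem zc_2836740964352_0 : (2705327 / 1048576 : ℝ) = zv 2836740964352 0 := by unfold zv; norm_num

private theorem zc_3298534883328_0 : (3 : ℝ) = zv 3298534883328 0 := by unfold zv; norm_num

private theorem zc_4398046511104_0 : (4 : ℝ) = zv 4398046511104 0 := by unfold zv; norm_num

private theorem zc_10995116277760_0 : (10 : ℝ) = zv 10995116277760 0 := by unfold zv; norm_num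

private theorem zc_11941082824704_0 : (11121 / 1024 : ℝ) = zv 11941082824704 0 := by unfold zv; norm_num

private theorem zc_12094627905536_0 : (11 : ℝ) = zv 12094627905536 0 := by unfold zv; norm_num

private theorem zc_35184372088832_0 : (32 : ℝ) = zv 35184372088832 0 := by unfold zv; norm_num

/-- the constants of the row -/
noncomputable def cO (r : Row) : CL where
  RW := zv r.RW 0
  L1 := zv r.L1 0
  Ld := zv r.Ld 0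
  ex0 := zv r.ex0 0
  RH := zv r.RH 0
  RHq := zv r.RHq 0
  a := zv r.a 0
  La1 := zv r.La1 0
  dq := zv r.dq 0
  a1 := zv r.a1 0
  tha := zv r.tha 0
  Yd := zv r.Yd 0

/-- the constants of the row -/
noncomputable def rO (r : Row) : CR where
  ys := zv r.ys 0
  wa := zv r.wa 0
  wb := zv r.wb 0
  o0 := zv r.o0 0
  p0 := zv r.p0 r.p0_m
  o1 := zv r.o1 0
  p1 := zv r.p1 r.p1_m

theorem ex {r : Row} {se be y : ℝ} (h : RAs (common r) [se, be, y]) :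
    ∃ s k y2 js wMo Moie yb ielf Mnie EM EMs yb1 : ℝ, Nonempty (PLv be y s k y2 js) ∧
    ∃ P : PL (cO r) se be s k y2 wMo Moie yb ielf Mnie EM EMs yb1, Nonempty (PLr (rO r) y js P) := by
  obtain ⟨ie, e_ie⟩ : ∃ zz : ℝ, zz = se * se := ⟨_, rfl⟩
  obtain ⟨y2, e_y2⟩ : ∃ zz : ℝ, zz = y * y := ⟨_, rfl⟩
  obtain ⟨L, e_L⟩ : ∃ zz : ℝ, zz = (1 / 2) * Real.log (be * be + y2) := ⟨_, rfl⟩
  obtain ⟨s, e_s⟩ : ∃ zz : ℝ, zz = Real.exp L := ⟨_, rfl⟩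
  obtain ⟨js, e_js⟩ : ∃ zz : ℝ, zz = Real.exp (-L) := ⟨_, rfl⟩
  obtain ⟨k, e_k⟩ : ∃ zz : ℝ, zz = be * js := ⟨_, rfl⟩
  obtain ⟨k2, e_k2⟩ : ∃ zz : ℝ, zz = k * k := ⟨_, rfl⟩
  obtain ⟨w, e_w⟩ : ∃ zz : ℝ, zz = se * s := ⟨_, rfl⟩
  obtain ⟨W, e_W⟩ : ∃ zz : ℝ, zz = w * w := ⟨_, rfl⟩
  obtain ⟨wse, e_wse⟩ : ∃ zz : ℝ, zz = w * se := ⟨_, rfl⟩
  obtain ⟨Wie, e_Wie⟩ : ∃ zz : ℝ, zz = W * ie := ⟨_, rfl⟩
  obtain ⟨bie, e_bie⟩ : ∃ zz : ℝ, zz = be * ie := ⟨_, rfl⟩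
  obtain ⟨cK, e_cK⟩ : ∃ zz : ℝ, zz = (1223339 / 1048576) * (bie * bie) + 32 * (ie * ie) := ⟨_, rfl⟩
  obtain ⟨R2, e_R2⟩ : ∃ zz : ℝ, zz = (cO r).RW * ((cO r).RW * Wie) := ⟨_, rfl⟩
  obtain ⟨V1, e_V1⟩ : ∃ zz : ℝ, zz = R2 + (1 : ℝ) := ⟨_, rfl⟩
  obtain ⟨wMo, e_wMo⟩ : ∃ zz : ℝ, zz = (65957 / 65536) * (rO r).o0 + (rO r).p0 * w := ⟨_, rfl⟩
  obtain ⟨Moie, e_Moie⟩ : ∃ zz : ℝ, zz = wMo * se * js := ⟨_, rfl⟩
  obtain ⟨yb, e_yb⟩ : ∃ zz : ℝ, zz = be * bie + 2 * y := ⟨_, rfl⟩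
  obtain ⟨ielf, e_ielf⟩ : ∃ zz : ℝ, zz = (2705327 / 1048576) * ie + (187171 / 1048576) * (se * js) := ⟨_, rfl⟩
  obtain ⟨rl, e_rl⟩ : ∃ zz : ℝ, zz = (cO r).L1 * W := ⟨_, rfl⟩
  obtain ⟨q2, e_q2⟩ : ∃ zz : ℝ, zz = (1 : ℝ) - cK - yb * Moie - (3 * ie + 2 * Moie) * rl := ⟨_, rfl⟩
  obtain ⟨u, e_u⟩ : ∃ zz : ℝ, zz = Real.exp (-(q2 * rl)) := ⟨_, rfl⟩
  obtain ⟨ls, e_ls⟩ : ∃ zz : ℝ, zz = w * V1 * wMo := ⟨_, rfl⟩
  obtain ⟨D2, e_D2⟩ : ∃ zz : ℝ, zz = V1 - 2 * ((cO r).L1 * (k * wse)) := ⟨_, rfl⟩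
  obtain ⟨DP, e_DP⟩ : ∃ zz : ℝ, zz = (1 : ℝ) + (1 / 2) * (R2 + 2 * ((cO r).RW * (k * wse))) := ⟨_, rfl⟩
  obtain ⟨XS, e_XS⟩ : ∃ zz : ℝ, zz = 4 * ((cO r).a * (DP * (be + (4 : ℝ))⁻¹)) := ⟨_, rfl⟩
  obtain ⟨X, e_X⟩ : ∃ zz : ℝ, zz = XS * s := ⟨_, rfl⟩
  obtain ⟨iX, e_iX⟩ : ∃ zz : ℝ, zz = ((1 : ℝ) - X)⁻¹ := ⟨_, rfl⟩
  obtain ⟨G, e_G⟩ : ∃ zz : ℝ, zz = (2 : ℝ) - (1 / 4) * y2 + (2731 / 524288) * (y2 * y2) + (859 / 1048576) * ((1 / 4) * y2 * ((1 / 4) * y2) * ((1 / 4) * y2) * ((1 / 4) * y2 * ((1 / 4) * y2) * ((1 / 4) * y2))) := ⟨_, rfl⟩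
  obtain ⟨n1, e_n1⟩ : ∃ zz : ℝ, zz = G + (cO r).RW * W + Real.exp (ls + (314573 / 524288) * (W * V1)) - (1 : ℝ) := ⟨_, rfl⟩
  obtain ⟨lspS, e_lspS⟩ : ∃ zz : ℝ, zz = se * V1 * wMo + n1 * (XS * iX) := ⟨_, rfl⟩
  obtain ⟨lsp, e_lsp⟩ : ∃ zz : ℝ, zz = lspS * s := ⟨_, rfl⟩
  obtain ⟨uX, e_uX⟩ : ∃ zz : ℝ, zz = u * X := ⟨_, rfl⟩
  obtain ⟨ielfp, e_ielfp⟩ : ∃ zz : ℝ, zz = ielf + ie * (uX * ((1 : ℝ) - uX)⁻¹) := ⟨_, rfl⟩
  obtain ⟨zbS, e_zbS⟩ : ∃ zz : ℝ, zz = Real.exp ((1 / 2) * Real.log (R2 - k2 + (129 / 128 : ℝ))) := ⟨_, rfl⟩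
  obtain ⟨zb, e_zb⟩ : ∃ zz : ℝ, zz = zbS * s := ⟨_, rfl⟩
  obtain ⟨fac, e_fac⟩ : ∃ zz : ℝ, zz = (1 / 2) * (zb * ie) + (1064305 / 1048576 : ℝ) := ⟨_, rfl⟩
  obtain ⟨Q, e_Q⟩ : ∃ zz : ℝ, zz = fac * ((1 / 2) * wse * D2 * (zbS + (2149581 / 1048576) * k) + (zbS + (3277 / 262144) * k) * lspS + k2 * ((445645 / 262144) * (ie * lsp) + (576717 / 262144) * ielfp)) := ⟨_, rfl⟩
  obtain ⟨E, e_E⟩ : ∃ zz : ℝ, zz = Q * W := ⟨_, rfl⟩
  obtain ⟨Qw, e_Qw⟩ : ∃ zz : ℝ, zz = Q * wse := ⟨_, rfl⟩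
  obtain ⟨c2, e_c2⟩ : ∃ zz : ℝ, zz = (1011 / 1024 : ℝ) - 2 * Qw := ⟨_, rfl⟩
  obtain ⟨s2, e_s2⟩ : ∃ zz : ℝ, zz = (Qw + (1 : ℝ)) * (Qw + (1 : ℝ)) := ⟨_, rfl⟩
  obtain ⟨rn, e_rn⟩ : ∃ zz : ℝ, zz = (cO r).Ld * (W * c2) := ⟨_, rfl⟩
  obtain ⟨cc, e_cc⟩ : ∃ zz : ℝ, zz = (1011 / 1024) * c2 := ⟨_, rfl⟩
  obtain ⟨r5, e_r5⟩ : ∃ zz : ℝ, zz = (1 / 2) * cc⁻¹ + (1 / 2 : ℝ) := ⟨_, rfl⟩
  obtain ⟨m1, e_m1⟩ : ∃ zz : ℝ, zz = (rO r).o1 * r5 + (rO r).p1 * w := ⟨_, rfl⟩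
  obtain ⟨Mnie, e_Mnie⟩ : ∃ zz : ℝ, zz = m1 * se * js := ⟨_, rfl⟩
  obtain ⟨EM, e_EM⟩ : ∃ zz : ℝ, zz = Q * (W + w * m1) := ⟨_, rfl⟩
  obtain ⟨EMs, e_EMs⟩ : ∃ zz : ℝ, zz = Q * (wse + se * m1) := ⟨_, rfl⟩
  obtain ⟨yb1, e_yb1⟩ : ∃ zz : ℝ, zz = yb + 2 * E := ⟨_, rfl⟩
  obtain ⟨q3, e_q3⟩ : ∃ zz : ℝ, zz = (1 : ℝ) - cK - yb1 * Mnie - (3 * ie + 2 * Mnie) * rn := ⟨_, rfl⟩
  obtain ⟨u1, e_u1⟩ : ∃ zz : ℝ, zz = Real.exp (-(q3 * rn)) := ⟨_, rfl⟩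
  obtain ⟨i2, e_i2⟩ : ∃ zz : ℝ, zz = ((1 : ℝ) - (1 / 2) * EM)⁻¹ := ⟨_, rfl⟩
  obtain ⟨eta, e_eta⟩ : ∃ zz : ℝ, zz = ((1 / 2) * EM + (1 : ℝ)) * i2 := ⟨_, rfl⟩
  obtain ⟨t1, e_t1⟩ : ∃ zz : ℝ, zz = EMs * i2 * ((1 / 4) * be + (1 : ℝ)) := ⟨_, rfl⟩
  obtain ⟨p_ya0, ch0⟩ := (h
    (1 : ℝ) zc_1099511627776_0
    ie e_ie
    y2 e_y2
    (be * be) rfl
    (be * be + y2) rfl).2
    (Real.log (be * be + y2)) rfl
    L (e_L.trans (congrArg (fun zz : ℝ => zz * Real.log (be * be + y2)) zc_549755813888_0))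
    s e_s
    (-L) rfl
    js e_js
    k e_k
    k2 e_k2
    w e_w
    (rO r).ys rfl
    ((rO r).ys - y) rfl
  change 0 < (rO r).ys - y at p_ya0
  obtain ⟨p_wa0, ch1⟩ := ch0
    (rO r).wa rfl
    (w - (rO r).wa) rfl
  change 0 < w - (rO r).wa at p_wa0
  obtain ⟨p_wb0, ch2⟩ := ch1
    (rO r).wb rfl
    ((rO r).wb - w) rfl
  change 0 < (rO r).wb - w at p_wb0
  obtain ⟨p_Mo0, ch3⟩ := ch2
    W e_W
    wse e_wse
    Wie e_Wie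
    bie e_bie
    (bie * bie) rfl
    ((1223339 / 1048576) * (bie * bie)) (congrArg (fun zz : ℝ => zz * (bie * bie)) zc_1282763915264_0)
    (ie * ie) rfl
    (32 * (ie * ie)) (congrArg (fun zz : ℝ => zz * (ie * ie)) zc_35184372088832_0)
    cK e_cK
    ((cO r).RW * Wie) rfl
    R2 e_R2
    V1 e_V1
    (rO r).o0 rfl
    ((65957 / 65536) * (rO r).o0) (congrArg (fun zz : ℝ => zz * (rO r).o0) zc_1106574835712_0)
    ((rO r).p0 * w) rfl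
    wMo e_wMo
  change 0 < wMo at p_Mo0
  obtain ⟨p_q20, ch4⟩ := ch3
    (wMo * se) rfl
    Moie e_Moie
    (be * bie) rfl
    (2 * y) (congrArg (fun zz : ℝ => zz * y) zc_2199023255552_0)
    yb e_yb
    ((2705327 / 1048576) * ie) (congrArg (fun zz : ℝ => zz * ie) zc_2836740964352_0)
    (se * js) rfl
    ((187171 / 1048576) * (se * js)) (congrArg (fun zz : ℝ => zz * (se * js)) zc_196263018496_0)
    ielf e_ielf
    rl e_rl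
    ((1 : ℝ) - cK) rfl
    (yb * Moie) rfl
    ((1 : ℝ) - cK - yb * Moie) rfl
    (3 * ie) (congrArg (fun zz : ℝ => zz * ie) zc_3298534883328_0)
    (2 * Moie) (congrArg (fun zz : ℝ => zz * Moie) zc_2199023255552_0)
    (3 * ie + 2 * Moie) rfl
    ((3 * ie + 2 * Moie) * rl) rfl
    q2 e_q2
    ((3 * ie + 2 * Moie) * W) rfl
    (10 * ((3 * ie + 2 * Moie) * W)) (congrArg (fun zz : ℝ => zz * ((3 * ie + 2 * Moie) * W)) zc_10995116277760_0)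
    (q2 - 10 * ((3 * ie + 2 * Moie) * W)) rfl
  change 0 < q2 - 10 * ((3 * ie + 2 * Moie) * W) at p_q20
  obtain ⟨p_X1, ch5⟩ := (ch4
    (q2 * rl) rfl
    (-(q2 * rl)) rfl
    u e_u
    (w * V1) rfl
    ls e_ls
    (k * wse) rfl
    ((cO r).L1 * (k * wse)) rfl
    (2 * ((cO r).L1 * (k * wse))) (congrArg (fun zz : ℝ => zz * ((cO r).L1 * (k * wse))) zc_2199023255552_0)
    D2 e_D2
    ((cO r).RW * (k * wse)) rfl
    (2 * ((cO r).RW * (k * wse))) (congrArg (fun zz : ℝ => zz * ((cO r).RW * (k * wse))) zc_2199023255552_0)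
    (R2 + 2 * ((cO r).RW * (k * wse))) rfl
    ((1 / 2) * (R2 + 2 * ((cO r).RW * (k * wse)))) (congrArg (fun zz : ℝ => zz * (R2 + 2 * ((cO r).RW * (k * wse)))) zc_549755813888_0)
    DP e_DP
    (4 : ℝ) zc_4398046511104_0
    (be + (4 : ℝ)) rfl).2
    ((be + (4 : ℝ))⁻¹) rfl
    (DP * (be + (4 : ℝ))⁻¹) rfl
    ((cO r).a * (DP * (be + (4 : ℝ))⁻¹)) rfl
    XS (e_XS.trans (congrArg (fun zz : ℝ => zz * ((cO r).a * (DP * (be + (4 : ℝ))⁻¹))) zc_4398046511104_0))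
    X e_X
    ((1 : ℝ) - X) rfl
  change 0 < (1 : ℝ) - X at p_X1
  obtain ⟨p_Es, ch6⟩ := (((ch5).2
    iX e_iX
    (2 : ℝ) zc_2199023255552_0
    ((1 / 4) * y2) (congrArg (fun zz : ℝ => zz * y2) zc_274877906944_0)
    ((2 : ℝ) - (1 / 4) * y2) rfl
    (y2 * y2) rfl
    ((2731 / 524288) * (y2 * y2)) (congrArg (fun zz : ℝ => zz * (y2 * y2)) zc_5727322112_0)
    ((2 : ℝ) - (1 / 4) * y2 + (2731 / 524288) * (y2 * y2)) rfl
    ((1 / 4) * y2 * ((1 / 4) * y2)) rfl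
    ((1 / 4) * y2 * ((1 / 4) * y2) * ((1 / 4) * y2)) rfl
    ((1 / 4) * y2 * ((1 / 4) * y2) * ((1 / 4) * y2) * ((1 / 4) * y2 * ((1 / 4) * y2) * ((1 / 4) * y2))) rfl
    ((859 / 1048576) * ((1 / 4) * y2 * ((1 / 4) * y2) * ((1 / 4) * y2) * ((1 / 4) * y2 * ((1 / 4) * y2) * ((1 / 4) * y2)))) (congrArg (fun zz : ℝ => zz * ((1 / 4) * y2 * ((1 / 4) * y2) * ((1 / 4) * y2) * ((1 / 4) * y2 * ((1 / 4) * y2) * ((1 / 4) * y2)))) zc_900726784_0)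
    G e_G
    ((cO r).RW * W) rfl
    (G + (cO r).RW * W) rfl
    (W * V1) rfl
    ((314573 / 524288) * (W * V1)) (congrArg (fun zz : ℝ => zz * (W * V1)) zc_659707396096_0)
    (ls + (314573 / 524288) * (W * V1)) rfl
    (Real.exp (ls + (314573 / 524288) * (W * V1))) rfl
    (G + (cO r).RW * W + Real.exp (ls + (314573 / 524288) * (W * V1))) rfl
    n1 e_n1
    (se * V1) rfl
    (se * V1 * wMo) rfl
    (XS * iX) rfl
    (n1 * (XS * iX)) rfl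
    lspS e_lspS
    lsp e_lsp
    uX e_uX
    ((1 : ℝ) - uX) rfl).2
    (((1 : ℝ) - uX)⁻¹) rfl
    (uX * ((1 : ℝ) - uX)⁻¹) rfl
    (ie * (uX * ((1 : ℝ) - uX)⁻¹)) rfl
    ielfp e_ielfp
    (R2 - k2) rfl
    (129 / 128 : ℝ) zc_1108101562368_0
    (R2 - k2 + (129 / 128 : ℝ)) rfl).2
    (Real.log (R2 - k2 + (129 / 128 : ℝ))) rfl
    ((1 / 2) * Real.log (R2 - k2 + (129 / 128 : ℝ))) (congrArg (fun zz : ℝ => zz * Real.log (R2 - k2 + (129 / 128 : ℝ))) zc_549755813888_0)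
    zbS e_zbS
    zb e_zb
    (zb * ie) rfl
    ((1 / 2) * (zb * ie)) (congrArg (fun zz : ℝ => zz * (zb * ie)) zc_549755813888_0)
    (1064305 / 1048576 : ℝ) zc_1116004679680_0
    fac e_fac
    ((1 / 2) * wse) (congrArg (fun zz : ℝ => zz * wse) zc_549755813888_0)
    ((1 / 2) * wse * D2) rfl
    ((2149581 / 1048576) * k) (congrArg (fun zz : ℝ => zz * k) zc_2253999046656_0)
    (zbS + (2149581 / 1048576) * k) rfl
    ((1 / 2) * wse * D2 * (zbS + (2149581 / 1048576) * k)) rfl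
    ((3277 / 262144) * k) (congrArg (fun zz : ℝ => zz * k) zc_13744734208_0)
    (zbS + (3277 / 262144) * k) rfl
    ((zbS + (3277 / 262144) * k) * lspS) rfl
    ((1 / 2) * wse * D2 * (zbS + (2149581 / 1048576) * k) + (zbS + (3277 / 262144) * k) * lspS) rfl
    (ie * lsp) rfl
    ((445645 / 262144) * (ie * lsp)) (congrArg (fun zz : ℝ => zz * (ie * lsp)) zc_1869170606080_0)
    ((576717 / 262144) * ielfp) (congrArg (fun zz : ℝ => zz * ielfp) zc_2418926419968_0)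
    ((445645 / 262144) * (ie * lsp) + (576717 / 262144) * ielfp) rfl
    (k2 * ((445645 / 262144) * (ie * lsp) + (576717 / 262144) * ielfp)) rfl
    ((1 / 2) * wse * D2 * (zbS + (2149581 / 1048576) * k) + (zbS + (3277 / 262144) * k) * lspS + k2 * ((445645 / 262144) * (ie * lsp) + (576717 / 262144) * ielfp)) rfl
    Q e_Q
    E e_E
    Qw e_Qw
    (1011 / 1024 : ℝ) zc_1085552984064_0
    (2 * Qw) (congrArg (fun zz : ℝ => zz * Qw) zc_2199023255552_0)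
    c2 e_c2
    ((1 : ℝ) - Qw) rfl
  change 0 < (1 : ℝ) - Qw at p_Es
  obtain ⟨p_c20, ch7⟩ := ch6
  change 0 < c2 at p_c20
  obtain ⟨p_RH, ch8⟩ := ch7
    (Qw + (1 : ℝ)) rfl
    s2 e_s2
    (cO r).RH rfl
    (cO r).RW rfl
    ((cO r).RH - (cO r).RW) rfl
    ((cO r).RH - (cO r).RW - Q) rfl
    ((cO r).RH - (cO r).RW - Q - s2) rfl
  change 0 < (cO r).RH - (cO r).RW - Q - s2 at p_RH
  obtain ⟨p_h9, ch9⟩ := ch8
    (10 * c2) (congrArg (fun zz : ℝ => zz * c2) zc_10995116277760_0)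
    (10 * c2 - (cO r).RH) rfl
  change 0 < 10 * c2 - (cO r).RH at p_h9
  obtain ⟨p_h2, ch10⟩ := ch9
    ((471859 / 524288) * c2) (congrArg (fun zz : ℝ => zz * c2) zc_989560045568_0)
    ((cO r).RHq * Wie) rfl
    ((471859 / 524288) * c2 - (cO r).RHq * Wie) rfl
  change 0 < (471859 / 524288) * c2 - (cO r).RHq * Wie at p_h2
  obtain ⟨p_rr, ch11⟩ := ch10
    ((11121 / 1024) * c2) (congrArg (fun zz : ℝ => zz * c2) zc_11941082824704_0)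
    ((11121 / 1024) * c2 - (cO r).RH) rfl
    ((11121 / 1024) * c2 - (cO r).RH - s2) rfl
  change 0 < (11121 / 1024) * c2 - (cO r).RH - s2 at p_rr
  obtain ⟨p_Er, ch12⟩ := ch11
    (cO r).L1 rfl
    ((cO r).L1 - Q) rfl
  change 0 < (cO r).L1 - Q at p_Er
  obtain ⟨p_dr, ch13⟩ := ch12
    ((cO r).dq * ((1 : ℝ) - Qw)) rfl
    ((cO r).ex0 * Q) rfl
    ((cO r).dq * ((1 : ℝ) - Qw) - (cO r).ex0 * Q) rfl
  change 0 < (cO r).dq * ((1 : ℝ) - Qw) - (cO r).ex0 * Q at p_dr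
  obtain ⟨p_La, ch14⟩ := ch13
    ((1 : ℝ) - 2 * Qw) rfl
    ((cO r).La1 * ((1 : ℝ) - 2 * Qw)) rfl
    ((cO r).La1 * ((1 : ℝ) - 2 * Qw) - (cO r).RW) rfl
    ((cO r).La1 * ((1 : ℝ) - 2 * Qw) - (cO r).RW - Q) rfl
  change 0 < (cO r).La1 * ((1 : ℝ) - 2 * Qw) - (cO r).RW - Q at p_La
  obtain ⟨p_l1, ch15⟩ := ch14
    (-(ie * lsp)) rfl
    (10485 / 1048576 : ℝ) zc_10994319360_0
    ((-(ie * lsp)) + (10485 / 1048576 : ℝ)) rfl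
  change 0 < (-(ie * lsp)) + (10485 / 1048576 : ℝ) at p_l1
  obtain ⟨p_l2, ch16⟩ := ch15
    (-ielfp) rfl
    (4369 / 131072 : ℝ) zc_36649828352_0
    ((-ielfp) + (4369 / 131072 : ℝ)) rfl
  change 0 < (-ielfp) + (4369 / 131072 : ℝ) at p_l2
  obtain ⟨p_z1, ch17⟩ := ch16
    (-(zb * ie)) rfl
    (20971 / 1048576 : ℝ) zc_21989687296_0
    ((-(zb * ie)) + (20971 / 1048576 : ℝ)) rfl
  change 0 < (-(zb * ie)) + (20971 / 1048576 : ℝ) at p_z1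
  obtain ⟨p_E1, ch18⟩ := ch17
    (E * ie) rfl
    (-(E * ie)) rfl
    (2621 / 524288 : ℝ) zc_5496635392_0
    ((-(E * ie)) + (2621 / 524288 : ℝ)) rfl
  change 0 < (-(E * ie)) + (2621 / 524288 : ℝ) at p_E1
  obtain ⟨p_y, ch19⟩ := ch18
    (-E) rfl
    (cO r).Yd rfl
    ((-E) + (cO r).Yd) rfl
  change 0 < (-E) + (cO r).Yd at p_y
  obtain ⟨p_wa, ch20⟩ := ch19
    (W * c2) rfl
    rn e_rn
    cc (e_cc.trans (congrArg (fun zz : ℝ => zz * c2) zc_1085552984064_0))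
    (W * cc) rfl
    ((rO r).wa * (rO r).wa) rfl
    (W * cc - (rO r).wa * (rO r).wa) rfl
  change 0 < W * cc - (rO r).wa * (rO r).wa at p_wa
  obtain ⟨p_wb, ch21⟩ := ch20
    (w * (Qw + (1 : ℝ))) rfl
    ((rO r).wb - w * (Qw + (1 : ℝ))) rfl
  change 0 < (rO r).wb - w * (Qw + (1 : ℝ)) at p_wb
  obtain ⟨p_ys, ch22⟩ := ch21
    ((rO r).ys - y - E) rfl
  change 0 < (rO r).ys - y - E at p_ys
  obtain ⟨p_m10, ch23⟩ := (ch22).2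
    (cc⁻¹) rfl
    ((1 / 2) * cc⁻¹) (congrArg (fun zz : ℝ => zz * cc⁻¹) zc_549755813888_0)
    (1 / 2 : ℝ) zc_549755813888_0
    r5 e_r5
    ((rO r).o1 * r5) rfl
    ((rO r).p1 * w) rfl
    m1 e_m1
  change 0 < m1 at p_m10
  obtain ⟨p_q30, ch24⟩ := ch23
    (m1 * se) rfl
    Mnie e_Mnie
    (w * m1) rfl
    (W + w * m1) rfl
    EM e_EM
    (se * m1) rfl
    (wse + se * m1) rfl
    EMs e_EMs
    (2 * E) (congrArg (fun zz : ℝ => zz * E) zc_2199023255552_0)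
    yb1 e_yb1
    (yb1 * Mnie) rfl
    ((1 : ℝ) - cK - yb1 * Mnie) rfl
    (2 * Mnie) (congrArg (fun zz : ℝ => zz * Mnie) zc_2199023255552_0)
    (3 * ie + 2 * Mnie) rfl
    ((3 * ie + 2 * Mnie) * rn) rfl
    q3 e_q3
    ((3 * ie + 2 * Mnie) * W) rfl
    (11 * ((3 * ie + 2 * Mnie) * W)) (congrArg (fun zz : ℝ => zz * ((3 * ie + 2 * Mnie) * W)) zc_12094627905536_0)
    (q3 - 11 * ((3 * ie + 2 * Mnie) * W)) rfl
  change 0 < q3 - 11 * ((3 * ie + 2 * Mnie) * W) at p_q30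
  obtain ⟨p_EM2, ch25⟩ := ch24
    (q3 * rn) rfl
    (-(q3 * rn)) rfl
    u1 e_u1
    ((1 / 2) * EM) (congrArg (fun zz : ℝ => zz * EM) zc_549755813888_0)
    ((1 : ℝ) - (1 / 2) * EM) rfl
  change 0 < (1 : ℝ) - (1 / 2) * EM at p_EM2
  obtain ⟨p_cl, ch26⟩ := (ch25).2
    i2 e_i2
    ((1 / 2) * EM + (1 : ℝ)) rfl
    eta e_eta
    (EMs * i2) rfl
    ((1 / 4) * be) (congrArg (fun zz : ℝ => zz * be) zc_274877906944_0)
    ((1 / 4) * be + (1 : ℝ)) rfl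
    t1 e_t1
    ((cO r).a1 * u1) rfl
    (eta * ((cO r).a1 * u1)) rfl
    (V1 + Q) rfl
    (wse * (V1 + Q)) rfl
    (wse * (V1 + Q) + (1 : ℝ)) rfl
    (eta * ((cO r).a1 * u1) * (wse * (V1 + Q) + (1 : ℝ))) rfl
    (t1 + eta * ((cO r).a1 * u1) * (wse * (V1 + Q) + (1 : ℝ))) rfl
    (-(t1 + eta * ((cO r).a1 * u1) * (wse * (V1 + Q) + (1 : ℝ)))) rfl
    (cO r).tha rfl
    ((-(t1 + eta * ((cO r).a1 * u1) * (wse * (V1 + Q) + (1 : ℝ)))) + (cO r).tha) rfl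
  change 0 < (-(t1 + eta * ((cO r).a1 * u1) * (wse * (V1 + Q) + (1 : ℝ)))) + (cO r).tha at p_cl
  exact ⟨s, k, y2, js, wMo, Moie, yb, ielf, Mnie, EM, EMs, yb1,
    ⟨⟨L, e_y2, e_L, e_s, e_js, e_k⟩⟩,
    ⟨ie, k2, w, W, wse, Wie, bie, cK, R2, V1, rl, q2, u, ls, D2, DP, XS, X, iX, G, n1, lspS, lsp,
    uX, ielfp, zbS, zb, fac, Q, E, Qw, c2, s2, rn, q3, u1, i2, eta, t1, e_ie, e_k2, e_w, e_W,
    e_wse, e_Wie, e_bie, e_cK, e_R2, e_V1, e_rl, e_q2, e_u, e_ls, e_D2, e_DP, e_XS, e_X, e_iX,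
    e_G, e_n1, e_lspS, e_lsp, e_uX, e_ielfp, e_zbS, e_zb, e_fac, e_Q, e_E, e_Qw, e_c2, e_s2,
    e_rn, e_q3, e_u1, e_i2, e_eta, e_t1, p_q20, p_X1, p_Es, p_c20, p_RH, p_h9, p_h2, p_rr, p_Er,
    p_dr, p_La, p_l1, p_l2, p_z1, p_E1, p_y, p_q30, p_EM2, p_cl⟩,
    ⟨⟨cc, r5, m1, e_cc, e_r5, e_m1, e_wMo, e_Moie, e_yb, e_ielf, e_Mnie, e_EM, e_EMs, e_yb1,
    p_ya0, p_wa0, p_wb0, p_Mo0, p_wa, p_wb, p_ys, p_m10⟩⟩⟩

end Pool.Agent.helper31.A2.XLP
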