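import Pool.Agent.helper31.A2.Cov0
import Pool.Agent.helper31.A2.XLP
import Pool.Agent.helper31.A2.XL1
import Pool.Agent.helper31.A2.XL2
import Pool.Agent.helper31.A2.XFP
import Pool.Agent.helper31.A2.XFT
import Pool.Agent.helper31.A2.XF1
import Pool.Agent.helper31.A2.XF2
import Pool.Agent.helper31.A2.Cert.LP0All
import Pool.Agent.helper31.A2.Cert.LP1All
import Pool.Agent.helper31.A2.Cert.LP2All
import Pool.Agent.helper31.A2.Cert.LP3All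
import Pool.Agent.helper31.A2.Cert.LP4All
import Pool.Agent.helper31.A2.Cert.L10All
import Pool.Agent.helper31.A2.Cert.L20All
import Pool.Agent.helper31.A2.Cert.L11All
import Pool.Agent.helper31.A2.Cert.L21All
import Pool.Agent.helper31.A2.Cert.L12All
import Pool.Agent.helper31.A2.Cert.L22All
import Pool.Agent.helper31.A2.Cert.L13All
import Pool.Agent.helper31.A2.Cert.L23All
import Pool.Agent.helper31.A2.Cert.L14All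
import Pool.Agent.helper31.A2.Cert.L24All
import Pool.Agent.helper31.A2.Cert.FPQAll
import Pool.Agent.helper31.A2.Cert.FTQAll
import Pool.Agent.helper31.A2.Cert.F1QAll
import Pool.Agent.helper31.A2.Cert.F2QAll

/-!
Generated: the rows of the tables have the right constants.
-/

namespace Pool.Agent.helper31.A2

open Complex ComplexConjugate Set Filter Topology
open Pool.Agent.helper31.EQ.Y Pool.Agent.helper31.EQ.R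
open Pool.Agent.helper12.EQL Pool.Agent.helper12.RP Pool.Agent.helper12.FF Pool.Agent.helper12.RS
open Pool.Agent.helper63.FF
open Pool.Agent.helper31.EQB
open Pool.Agent.helper71.FF (RAs zv)
open Pool.Agent.helper31.IA (Z Op InBox)
open Pool.Agent.helper31.IC (CovD)
open Pool.Agent.helper14.RW

set_option maxRecDepth 100000

/-- the constants of the rows -/
def chkLP0 (r : Cert.LPP.Row) : Bool :=
  and (and (and (Nat.beq r.RW 3568580952064) (and (Nat.beq r.L1 1098437885952) (Nat.beq r.a 98515812352))) (and (Nat.beq r.RH 4900557684736) (and (Nat.beq r.RHq 21842056183808) (Nat.beq r.dq 232699985920)))) (and (and (Nat.beq r.ex0 1156151508992) (and (Nat.beq r.La1 3807488507904) (Nat.beq r.Yd 31406948352))) (and (Nat.beq r.Ld 1960853897216) (and (Nat.beq r.a1 79725330432) (Nat.beq r.tha 98512666624))))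

theorem eqLP0 {r : Cert.LPP.Row} (h : chkLP0 r = true) : XLP.cO r = cG 0 := by
  simp only [chkLP0, Bool.and_eq_true, Nat.beq_eq] at h
  obtain ⟨⟨⟨h_RW, ⟨h_L1, h_a⟩⟩, ⟨h_RH, ⟨h_RHq, h_dq⟩⟩⟩, ⟨⟨h_ex0, ⟨h_La1, h_Yd⟩⟩, ⟨h_Ld, ⟨h_a1, h_tha⟩⟩⟩⟩ := h
  simp only [XLP.cO, cG, CL.mk.injEq, h_RW, h_L1, h_a, h_RH, h_RHq, h_dq, h_ex0, h_La1, h_Yd, h_Ld, h_a1, h_tha]
  refine ⟨?_, ?_, ?_, ?_, ?_, ?_, ?_, ?_, ?_, ?_, ?_, ?_⟩ <;> norm_num [zv]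

theorem tLP0 : Cert.LP0.T.all (fun r => and (chkLP0 r) (and (mt Tab.C0 r.ys r.wa r.wb r.o0 r.p0 r.p0_m) (mt Tab.C1 r.ys r.wa r.wb r.o1 r.p1 r.p1_m))) = true := by decide +kernel

/-- the constants of the rows -/
def chkLP1 (r : Cert.LPP.Row) : Bool :=
  and (and (and (Nat.beq r.RW 4976524918784) (and (Nat.beq r.L1 1960853897216) (Nat.beq r.a 79725330432))) (and (Nat.beq r.RH 6256693608448) (and (Nat.beq r.RHq 35603399835648) (Nat.beq r.dq 191897796608)))) (and (and (Nat.beq r.ex0 1202590842880) (and (Nat.beq r.La1 5167919398912) (Nat.beq r.Yd 27380416512))) (and (Nat.beq r.Ld 2857294102528) (and (Nat.beq r.a1 69055021056) (Nat.beq r.tha 79723233280))))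

theorem eqLP1 {r : Cert.LPP.Row} (h : chkLP1 r = true) : XLP.cO r = cG 1 := by
  simp only [chkLP1, Bool.and_eq_true, Nat.beq_eq] at h
  obtain ⟨⟨⟨h_RW, ⟨h_L1, h_a⟩⟩, ⟨h_RH, ⟨h_RHq, h_dq⟩⟩⟩, ⟨⟨h_ex0, ⟨h_La1, h_Yd⟩⟩, ⟨h_Ld, ⟨h_a1, h_tha⟩⟩⟩⟩ := h
  simp only [XLP.cO, cG, CL.mk.injEq, h_RW, h_L1, h_a, h_RH, h_RHq, h_dq, h_ex0, h_La1, h_Yd, h_Ld, h_a1, h_tha]
  refine ⟨?_, ?_, ?_, ?_, ?_, ?_, ?_, ?_, ?_, ?_, ?_, ?_⟩ <;> norm_num [zv]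

theorem tLP1 : Cert.LP1.T.all (fun r => and (chkLP1 r) (and (mt Tab.C1 r.ys r.wa r.wb r.o0 r.p0 r.p0_m) (mt Tab.C2 r.ys r.wa r.wb r.o1 r.p1 r.p1_m))) = true := by decide +kernel

/-- the constants of the rows -/
def chkLP2 (r : Cert.LPP.Row) : Bool :=
  and (and (and (Nat.beq r.RW 6356283162624) (and (Nat.beq r.L1 2857294102528) (Nat.beq r.a 69055021056))) (and (Nat.beq r.RH 7614977015808) (and (Nat.beq r.RHq 52739782475776) (Nat.beq r.dq 174181056512)))) (and (and (Nat.beq r.ex0 1253056708608) (and (Nat.beq r.La1 6546603900928) (Nat.beq r.Yd 26038239232))) (and (Nat.beq r.Ld 3761317609472) (and (Nat.beq r.a1 62679678976) (Nat.beq r.tha 69052923904))))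

theorem eqLP2 {r : Cert.LPP.Row} (h : chkLP2 r = true) : XLP.cO r = cG 2 := by
  simp only [chkLP2, Bool.and_eq_true, Nat.beq_eq] at h
  obtain ⟨⟨⟨h_RW, ⟨h_L1, h_a⟩⟩, ⟨h_RH, ⟨h_RHq, h_dq⟩⟩⟩, ⟨⟨h_ex0, ⟨h_La1, h_Yd⟩⟩, ⟨h_Ld, ⟨h_a1, h_tha⟩⟩⟩⟩ := h
  simp only [XLP.cO, cG, CL.mk.injEq, h_RW, h_L1, h_a, h_RH, h_RHq, h_dq, h_ex0, h_La1, h_Yd, h_Ld, h_a1, h_tha]
  refine ⟨?_, ?_, ?_, ?_, ?_, ?_, ?_, ?_, ?_, ?_, ?_, ?_⟩ <;> norm_num [zv]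

theorem tLP2 : Cert.LP2.T.all (fun r => and (chkLP2 r) (and (mt Tab.C2 r.ys r.wa r.wb r.o0 r.p0 r.p0_m) (mt Tab.C3 r.ys r.wa r.wb r.o1 r.p1 r.p1_m))) = true := by decide +kernel

/-- the constants of the rows -/
def chkLP3 (r : Cert.LPP.Row) : Bool :=
  and (and (and (Nat.beq r.RW 7754563452928) (and (Nat.beq r.L1 3761317609472) (Nat.beq r.a 62679678976))) (and (Nat.beq r.RH 8999030226944) (and (Nat.beq r.RHq 73653320417280) (Nat.beq r.dq 166396428288)))) (and (and (Nat.beq r.ex0 1307012235264) (and (Nat.beq r.La1 7951058206720) (Nat.beq r.Yd 24696061952))) (and (Nat.beq r.Ld 4659838189568) (and (Nat.beq r.a1 58988691456) (Nat.beq r.tha 62677581824))))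

theorem eqLP3 {r : Cert.LPP.Row} (h : chkLP3 r = true) : XLP.cO r = cG 3 := by
  simp only [chkLP3, Bool.and_eq_true, Nat.beq_eq] at h
  obtain ⟨⟨⟨h_RW, ⟨h_L1, h_a⟩⟩, ⟨h_RH, ⟨h_RHq, h_dq⟩⟩⟩, ⟨⟨h_ex0, ⟨h_La1, h_Yd⟩⟩, ⟨h_Ld, ⟨h_a1, h_tha⟩⟩⟩⟩ := h
  simp only [XLP.cO, cG, CL.mk.injEq, h_RW, h_L1, h_a, h_RH, h_RHq, h_dq, h_ex0, h_La1, h_Yd, h_Ld, h_a1, h_tha]
  refine ⟨?_, ?_, ?_, ?_, ?_, ?_, ?_, ?_, ?_, ?_, ?_, ?_⟩ <;> norm_num [zv]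

theorem tLP3 : Cert.LP3.T.all (fun r => and (chkLP3 r) (and (mt Tab.C3 r.ys r.wa r.wb r.o0 r.p0 r.p0_m) (mt Tab.C4 r.ys r.wa r.wb r.o1 r.p1 r.p1_m))) = true := by decide +kernel

/-- the constants of the rows -/
def chkLP4 (r : Cert.LPP.Row) : Bool :=
  and (and (and (Nat.beq r.RW 9178881982464) (and (Nat.beq r.L1 4659838189568) (Nat.beq r.a 58988691456))) (and (Nat.beq r.RH 10424959369216) (and (Nat.beq r.RHq 98843840479232) (Nat.beq r.dq 168275476480)))) (and (and (Nat.beq r.ex0 1363652116480) (and (Nat.beq r.La1 9385577283584) (Nat.beq r.Yd 24696061952))) (and (Nat.beq r.Ld 5540373594112) (and (Nat.beq r.a1 56237228032) (Nat.beq r.tha 58986594304))))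

theorem eqLP4 {r : Cert.LPP.Row} (h : chkLP4 r = true) : XLP.cO r = cG 4 := by
  simp only [chkLP4, Bool.and_eq_true, Nat.beq_eq] at h
  obtain ⟨⟨⟨h_RW, ⟨h_L1, h_a⟩⟩, ⟨h_RH, ⟨h_RHq, h_dq⟩⟩⟩, ⟨⟨h_ex0, ⟨h_La1, h_Yd⟩⟩, ⟨h_Ld, ⟨h_a1, h_tha⟩⟩⟩⟩ := h
  simp only [XLP.cO, cG, CL.mk.injEq, h_RW, h_L1, h_a, h_RH, h_RHq, h_dq, h_ex0, h_La1, h_Yd, h_Ld, h_a1, h_tha]
  refine ⟨?_, ?_, ?_, ?_, ?_, ?_, ?_, ?_, ?_, ?_, ?_, ?_⟩ <;> norm_num [zv]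

theorem tLP4 : Cert.LP4.T.all (fun r => and (chkLP4 r) (and (mt Tab.C4 r.ys r.wa r.wb r.o0 r.p0 r.p0_m) (mt Tab.C4 r.ys r.wa r.wb r.o1 r.p1 r.p1_m))) = true := by decide +kernel

/-- the constants of the rows -/
def chkL10 (r : Cert.L1P.Row) : Bool :=
  and (and (and (and (Nat.beq r.RW 3568580952064) (Nat.beq r.Mo 2319282339840)) (and (Nat.beq r.ys2 2308974837760) (Nat.beq r.L1 1098437885952))) (and (and (Nat.beq r.a 98515812352) (Nat.beq r.RH 4900557684736)) (and (Nat.beq r.RHq 21842056183808) (Nat.beq r.dq 232699985920)))) (and (and (and (Nat.beq r.ex0 1156151508992) (Nat.beq r.La1 3807488507904)) (and (Nat.beq r.Yd 31406948352) (Nat.beq r.Ld 1960853897216))) (and (and (Nat.beq r.M1 1872605741056) (Nat.beq r.yE2 1171004588032)) (and (Nat.beq r.Yc 19790823424) (and (Nat.beq r.a1 79725330432) (Nat.beq r.tha 98512666624)))))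

theorem eqL10 {r : Cert.L1P.Row} (h : chkL10 r = true) : XL1.cO r = cG 0 ∧ XL1.mO r = mG 0 := by
  simp only [chkL10, Bool.and_eq_true, Nat.beq_eq] at h
  obtain ⟨⟨⟨⟨h_RW, h_Mo⟩, ⟨h_ys2, h_L1⟩⟩, ⟨⟨h_a, h_RH⟩, ⟨h_RHq, h_dq⟩⟩⟩, ⟨⟨⟨h_ex0, h_La1⟩, ⟨h_Yd, h_Ld⟩⟩, ⟨⟨h_M1, h_yE2⟩, ⟨h_Yc, ⟨h_a1, h_tha⟩⟩⟩⟩⟩ := h
  constructor
  · simp only [XL1.cO, cG, CL.mk.injEq, h_RW, h_L1, h_a, h_RH, h_RHq, h_dq, h_ex0, h_La1, h_Yd, h_Ld, h_a1, h_tha]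
    refine ⟨?_, ?_, ?_, ?_, ?_, ?_, ?_, ?_, ?_, ?_, ?_, ?_⟩ <;> norm_num [zv]
  · simp only [XL1.mO, mG, CM.mk.injEq, h_Mo, h_ys2, h_M1, h_yE2, h_Yc]
    refine ⟨?_, ?_, ?_, ?_, ?_, ?_⟩ <;> norm_num [zv]

theorem tL10 : Cert.L10.T.all (fun r => chkL10 r) = true := by decide +kernel

/-- the constants of the rows -/
def chkL11 (r : Cert.L1P.Row) : Bool :=
  and (and (and (and (Nat.beq r.RW 4976524918784) (Nat.beq r.Mo 1872605741056)) (and (Nat.beq r.ys2 2308974837760) (Nat.beq r.L1 1960853897216))) (and (and (Nat.beq r.a 79725330432) (Nat.beq r.RH 6256693608448)) (and (Nat.beq r.RHq 35603399835648) (Nat.beq r.dq 191897796608)))) (and (and (and (Nat.beq r.ex0 1202590842880) (Nat.beq r.La1 5167919398912)) (and (Nat.beq r.Yd 27380416512) (Nat.beq r.Ld 2857294102528))) (and (and (Nat.beq r.M1 1099511627776) (Nat.beq r.yE2 1171004588032))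 (and (Nat.beq r.Yc 19790823424) (and (Nat.beq r.a1 69055021056) (Nat.beq r.tha 79723233280)))))

theorem eqL11 {r : Cert.L1P.Row} (h : chkL11 r = true) : XL1.cO r = cG 1 ∧ XL1.mO r = mG 1 := by
  simp only [chkL11, Bool.and_eq_true, Nat.beq_eq] at h
  obtain ⟨⟨⟨⟨h_RW, h_Mo⟩, ⟨h_ys2, h_L1⟩⟩, ⟨⟨h_a, h_RH⟩, ⟨h_RHq, h_dq⟩⟩⟩, ⟨⟨⟨h_ex0, h_La1⟩, ⟨h_Yd, h_Ld⟩⟩, ⟨⟨h_M1, h_yE2⟩, ⟨h_Yc, ⟨h_a1, h_tha⟩⟩⟩⟩⟩ := h
  constructor
  · simp only [XL1.cO, cG, CL.mk.injEq, h_RW, h_L1, h_a, h_RH, h_RHq, h_dq, h_ex0, h_La1, h_Yd, h_Ld, h_a1, h_tha]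
    refine ⟨?_, ?_, ?_, ?_, ?_, ?_, ?_, ?_, ?_, ?_, ?_, ?_⟩ <;> norm_num [zv]
  · simp only [XL1.mO, mG, CM.mk.injEq, h_Mo, h_ys2, h_M1, h_yE2, h_Yc]
    refine ⟨?_, ?_, ?_, ?_, ?_, ?_⟩ <;> norm_num [zv]

theorem tL11 : Cert.L11.T.all (fun r => chkL11 r) = true := by decide +kernel

/-- the constants of the rows -/
def chkL12 (r : Cert.L1P.Row) : Bool :=
  and (and (and (and (Nat.beq r.RW 6356283162624) (Nat.beq r.Mo 1099511627776)) (and (Nat.beq r.ys2 2308974837760) (Nat.beq r.L1 2857294102528))) (and (and (Nat.beq r.a 69055021056) (Nat.beq r.RH 7614977015808)) (and (Nat.beq r.RHq 52739782475776) (Nat.beq r.dq 174181056512)))) (and (and (and (Nat.beq r.ex0 1253056708608) (Nat.beq r.La1 6546603900928)) (and (Nat.beq r.Yd 26038239232) (Nat.beq r.Ld 3761317609472))) (and (and (Nat.beq r.M1 1099511627776) (Nat.beq r.yE2 1171004588032))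 (and (Nat.beq r.Yc 19790823424) (and (Nat.beq r.a1 62679678976) (Nat.beq r.tha 69052923904)))))

theorem eqL12 {r : Cert.L1P.Row} (h : chkL12 r = true) : XL1.cO r = cG 2 ∧ XL1.mO r = mG 2 := by
  simp only [chkL12, Bool.and_eq_true, Nat.beq_eq] at h
  obtain ⟨⟨⟨⟨h_RW, h_Mo⟩, ⟨h_ys2, h_L1⟩⟩, ⟨⟨h_a, h_RH⟩, ⟨h_RHq, h_dq⟩⟩⟩, ⟨⟨⟨h_ex0, h_La1⟩, ⟨h_Yd, h_Ld⟩⟩, ⟨⟨h_M1, h_yE2⟩, ⟨h_Yc, ⟨h_a1, h_tha⟩⟩⟩⟩⟩ := h
  constructor
  · simp only [XL1.cO, cG, CL.mk.injEq, h_RW, h_L1, h_a, h_RH, h_RHq, h_dq, h_ex0, h_La1, h_Yd, h_Ld, h_a1, h_tha]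
    refine ⟨?_, ?_, ?_, ?_, ?_, ?_, ?_, ?_, ?_, ?_, ?_, ?_⟩ <;> norm_num [zv]
  · simp only [XL1.mO, mG, CM.mk.injEq, h_Mo, h_ys2, h_M1, h_yE2, h_Yc]
    refine ⟨?_, ?_, ?_, ?_, ?_, ?_⟩ <;> norm_num [zv]

theorem tL12 : Cert.L12.T.all (fun r => chkL12 r) = true := by decide +kernel

/-- the constants of the rows -/
def chkL13 (r : Cert.L1P.Row) : Bool :=
  and (and (and (and (Nat.beq r.RW 7754563452928) (Nat.beq r.Mo 1099511627776)) (and (Nat.beq r.ys2 2308974837760) (Nat.beq r.L1 3761317609472))) (and (and (Nat.beq r.a 62679678976) (Nat.beq r.RH 8999030226944)) (and (Nat.beq r.RHq 73653320417280) (Nat.beq r.dq 166396428288)))) (and (and (and (Nat.beq r.ex0 1307012235264) (Nat.beq r.La1 7951058206720)) (and (Nat.beq r.Yd 24696061952) (Nat.beq r.Ld 4659838189568))) (and (and (Nat.beq r.M1 1099511627776) (Nat.beq r.yE2 1171004588032))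 (and (Nat.beq r.Yc 19790823424) (and (Nat.beq r.a1 58988691456) (Nat.beq r.tha 62677581824)))))

theorem eqL13 {r : Cert.L1P.Row} (h : chkL13 r = true) : XL1.cO r = cG 3 ∧ XL1.mO r = mG 3 := by
  simp only [chkL13, Bool.and_eq_true, Nat.beq_eq] at h
  obtain ⟨⟨⟨⟨h_RW, h_Mo⟩, ⟨h_ys2, h_L1⟩⟩, ⟨⟨h_a, h_RH⟩, ⟨h_RHq, h_dq⟩⟩⟩, ⟨⟨⟨h_ex0, h_La1⟩, ⟨h_Yd, h_Ld⟩⟩, ⟨⟨h_M1, h_yE2⟩, ⟨h_Yc, ⟨h_a1, h_tha⟩⟩⟩⟩⟩ := h
  constructor
  · simp only [XL1.cO, cG, CL.mk.injEq, h_RW, h_L1, h_a, h_RH, h_RHq, h_dq, h_ex0, h_La1, h_Yd, h_Ld, h_a1, h_tha]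
    refine ⟨?_, ?_, ?_, ?_, ?_, ?_, ?_, ?_, ?_, ?_, ?_, ?_⟩ <;> norm_num [zv]
  · simp only [XL1.mO, mG, CM.mk.injEq, h_Mo, h_ys2, h_M1, h_yE2, h_Yc]
    refine ⟨?_, ?_, ?_, ?_, ?_, ?_⟩ <;> norm_num [zv]

theorem tL13 : Cert.L13.T.all (fun r => chkL13 r) = true := by decide +kernel

/-- the constants of the rows -/
def chkL14 (r : Cert.L1P.Row) : Bool :=
  and (and (and (and (Nat.beq r.RW 9178881982464) (Nat.beq r.Mo 1099511627776)) (and (Nat.beq r.ys2 2308974837760) (Nat.beq r.L1 4659838189568))) (and (and (Nat.beq r.a 58988691456) (Nat.beq r.RH 10424959369216)) (and (Nat.beq r.RHq 98843840479232) (Nat.beq r.dq 168275476480)))) (and (and (and (Nat.beq r.ex0 1363652116480) (Nat.beq r.La1 9385577283584)) (and (Nat.beq r.Yd 24696061952) (Nat.beq r.Ld 5540373594112))) (and (and (Nat.beq r.M1 1099511627776) (Nat.beq r.yE2 1171004588032))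 (and (Nat.beq r.Yc 19790823424) (and (Nat.beq r.a1 56237228032) (Nat.beq r.tha 58986594304)))))

theorem eqL14 {r : Cert.L1P.Row} (h : chkL14 r = true) : XL1.cO r = cG 4 ∧ XL1.mO r = mG 4 := by
  simp only [chkL14, Bool.and_eq_true, Nat.beq_eq] at h
  obtain ⟨⟨⟨⟨h_RW, h_Mo⟩, ⟨h_ys2, h_L1⟩⟩, ⟨⟨h_a, h_RH⟩, ⟨h_RHq, h_dq⟩⟩⟩, ⟨⟨⟨h_ex0, h_La1⟩, ⟨h_Yd, h_Ld⟩⟩, ⟨⟨h_M1, h_yE2⟩, ⟨h_Yc, ⟨h_a1, h_tha⟩⟩⟩⟩⟩ := h
  constructor
  · simp only [XL1.cO, cG, CL.mk.injEq, h_RW, h_L1, h_a, h_RH, h_RHq, h_dq, h_ex0, h_La1, h_Yd, h_Ld, h_a1, h_tha]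
    refine ⟨?_, ?_, ?_, ?_, ?_, ?_, ?_, ?_, ?_, ?_, ?_, ?_⟩ <;> norm_num [zv]
  · simp only [XL1.mO, mG, CM.mk.injEq, h_Mo, h_ys2, h_M1, h_yE2, h_Yc]
    refine ⟨?_, ?_, ?_, ?_, ?_, ?_⟩ <;> norm_num [zv]

theorem tL14 : Cert.L14.T.all (fun r => chkL14 r) = true := by decide +kernel

/-- the constants of the rows -/
def chkL20 (r : Cert.L2P.Row) : Bool :=
  and (and (and (and (Nat.beq r.RW 3568580952064) (Nat.beq r.Mo 2319282339840)) (and (Nat.beq r.ys2 2308974837760) (Nat.beq r.L1 1098437885952))) (and (and (Nat.beq r.a 98515812352) (Nat.beq r.RH 4900557684736)) (and (Nat.beq r.RHq 21842056183808) (Nat.beq r.dq 232699985920)))) (and (and (and (Nat.beq r.ex0 1156151508992) (Nat.beq r.La1 3807488507904)) (and (Nat.beq r.Yd 31406948352) (Nat.beq r.Ld 1960853897216))) (and (and (Nat.beq r.M1 1872605741056) (Nat.beq r.yE1 1134695546880))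 (and (Nat.beq r.Yc 19790823424) (and (Nat.beq r.a1 79725330432) (Nat.beq r.tha 98512666624)))))

theorem eqL20 {r : Cert.L2P.Row} (h : chkL20 r = true) : XL2.cO r = cG 0 ∧ XL2.mO r = mG 0 := by
  simp only [chkL20, Bool.and_eq_true, Nat.beq_eq] at h
  obtain ⟨⟨⟨⟨h_RW, h_Mo⟩, ⟨h_ys2, h_L1⟩⟩, ⟨⟨h_a, h_RH⟩, ⟨h_RHq, h_dq⟩⟩⟩, ⟨⟨⟨h_ex0, h_La1⟩, ⟨h_Yd, h_Ld⟩⟩, ⟨⟨h_M1, h_yE1⟩, ⟨h_Yc, ⟨h_a1, h_tha⟩⟩⟩⟩⟩ := h
  constructor
  · simp only [XL2.cO, cG, CL.mk.injEq, h_RW, h_L1, h_a, h_RH, h_RHq, h_dq, h_ex0, h_La1, h_Yd, h_Ld, h_a1, h_tha]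
    refine ⟨?_, ?_, ?_, ?_, ?_, ?_, ?_, ?_, ?_, ?_, ?_, ?_⟩ <;> norm_num [zv]
  · simp only [XL2.mO, mG, CM.mk.injEq, h_Mo, h_ys2, h_M1, h_yE1, h_Yc]
    refine ⟨?_, ?_, ?_, ?_, ?_, ?_⟩ <;> norm_num [zv]

theorem tL20 : Cert.L20.T.all (fun r => chkL20 r) = true := by decide +kernel

/-- the constants of the rows -/
def chkL21 (r : Cert.L2P.Row) : Bool :=
  and (and (and (and (Nat.beq r.RW 4976524918784) (Nat.beq r.Mo 1872605741056)) (and (Nat.beq r.ys2 2308974837760) (Nat.beq r.L1 1960853897216))) (and (and (Nat.beq r.a 79725330432) (Nat.beq r.RH 6256693608448)) (and (Nat.beq r.RHq 35603399835648) (Nat.beq r.dq 191897796608)))) (and (and (and (Nat.beq r.ex0 1202590842880) (Nat.beq r.La1 5167919398912)) (and (Nat.beq r.Yd 27380416512) (Nat.beq r.Ld 2857294102528))) (and (and (Nat.beq r.M1 1099511627776) (Nat.beq r.yE1 1134695546880))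 (and (Nat.beq r.Yc 19790823424) (and (Nat.beq r.a1 69055021056) (Nat.beq r.tha 79723233280)))))

theorem eqL21 {r : Cert.L2P.Row} (h : chkL21 r = true) : XL2.cO r = cG 1 ∧ XL2.mO r = mG 1 := by
  simp only [chkL21, Bool.and_eq_true, Nat.beq_eq] at h
  obtain ⟨⟨⟨⟨h_RW, h_Mo⟩, ⟨h_ys2, h_L1⟩⟩, ⟨⟨h_a, h_RH⟩, ⟨h_RHq, h_dq⟩⟩⟩, ⟨⟨⟨h_ex0, h_La1⟩, ⟨h_Yd, h_Ld⟩⟩, ⟨⟨h_M1, h_yE1⟩, ⟨h_Yc, ⟨h_a1, h_tha⟩⟩⟩⟩⟩ := h
  constructor
  · simp only [XL2.cO, cG, CL.mk.injEq, h_RW, h_L1, h_a, h_RH, h_RHq, h_dq, h_ex0, h_La1, h_Yd, h_Ld, h_a1, h_tha]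
    refine ⟨?_, ?_, ?_, ?_, ?_, ?_, ?_, ?_, ?_, ?_, ?_, ?_⟩ <;> norm_num [zv]
  · simp only [XL2.mO, mG, CM.mk.injEq, h_Mo, h_ys2, h_M1, h_yE1, h_Yc]
    refine ⟨?_, ?_, ?_, ?_, ?_, ?_⟩ <;> norm_num [zv]

theorem tL21 : Cert.L21.T.all (fun r => chkL21 r) = true := by decide +kernel

/-- the constants of the rows -/
def chkL22 (r : Cert.L2P.Row) : Bool :=
  and (and (and (and (Nat.beq r.RW 6356283162624) (Nat.beq r.Mo 1099511627776)) (and (Nat.beq r.ys2 2308974837760) (Nat.beq r.L1 2857294102528))) (and (and (Nat.beq r.a 69055021056) (Nat.beq r.RH 7614977015808)) (and (Nat.beq r.RHq 52739782475776) (Nat.beq r.dq 174181056512)))) (and (and (and (Nat.beq r.ex0 1253056708608) (Nat.beq r.La1 6546603900928)) (and (Nat.beq r.Yd 26038239232) (Nat.beq r.Ld 3761317609472))) (and (and (Nat.beq r.M1 1099511627776) (Nat.beq r.yE1 1134695546880))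 (and (Nat.beq r.Yc 19790823424) (and (Nat.beq r.a1 62679678976) (Nat.beq r.tha 69052923904)))))

theorem eqL22 {r : Cert.L2P.Row} (h : chkL22 r = true) : XL2.cO r = cG 2 ∧ XL2.mO r = mG 2 := by
  simp only [chkL22, Bool.and_eq_true, Nat.beq_eq] at h
  obtain ⟨⟨⟨⟨h_RW, h_Mo⟩, ⟨h_ys2, h_L1⟩⟩, ⟨⟨h_a, h_RH⟩, ⟨h_RHq, h_dq⟩⟩⟩, ⟨⟨⟨h_ex0, h_La1⟩, ⟨h_Yd, h_Ld⟩⟩, ⟨⟨h_M1, h_yE1⟩, ⟨h_Yc, ⟨h_a1, h_tha⟩⟩⟩⟩⟩ := h
  constructor
  · simp only [XL2.cO, cG, CL.mk.injEq, h_RW, h_L1, h_a, h_RH, h_RHq, h_dq, h_ex0, h_La1, h_Yd, h_Ld, h_a1, h_tha]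
    refine ⟨?_, ?_, ?_, ?_, ?_, ?_, ?_, ?_, ?_, ?_, ?_, ?_⟩ <;> norm_num [zv]
  · simp only [XL2.mO, mG, CM.mk.injEq, h_Mo, h_ys2, h_M1, h_yE1, h_Yc]
    refine ⟨?_, ?_, ?_, ?_, ?_, ?_⟩ <;> norm_num [zv]

theorem tL22 : Cert.L22.T.all (fun r => chkL22 r) = true := by decide +kernel

/-- the constants of the rows -/
def chkL23 (r : Cert.L2P.Row) : Bool :=
  and (and (and (and (Nat.beq r.RW 7754563452928) (Nat.beq r.Mo 1099511627776)) (and (Nat.beq r.ys2 2308974837760) (Nat.beq r.L1 3761317609472))) (and (and (Nat.beq r.a 62679678976) (Nat.beq r.RH 8999030226944)) (and (Nat.beq r.RHq 73653320417280) (Nat.beq r.dq 166396428288)))) (and (and (and (Nat.beq r.ex0 1307012235264) (Nat.beq r.La1 7951058206720)) (and (Nat.beq r.Yd 24696061952) (Nat.beq r.Ld 4659838189568))) (and (and (Nat.beq r.M1 1099511627776) (Nat.beq r.yE1 1134695546880))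 (and (Nat.beq r.Yc 19790823424) (and (Nat.beq r.a1 58988691456) (Nat.beq r.tha 62677581824)))))

theorem eqL23 {r : Cert.L2P.Row} (h : chkL23 r = true) : XL2.cO r = cG 3 ∧ XL2.mO r = mG 3 := by
  simp only [chkL23, Bool.and_eq_true, Nat.beq_eq] at h
  obtain ⟨⟨⟨⟨h_RW, h_Mo⟩, ⟨h_ys2, h_L1⟩⟩, ⟨⟨h_a, h_RH⟩, ⟨h_RHq, h_dq⟩⟩⟩, ⟨⟨⟨h_ex0, h_La1⟩, ⟨h_Yd, h_Ld⟩⟩, ⟨⟨h_M1, h_yE1⟩, ⟨h_Yc, ⟨h_a1, h_tha⟩⟩⟩⟩⟩ := h
  constructor
  · simp only [XL2.cO, cG, CL.mk.injEq, h_RW, h_L1, h_a, h_RH, h_RHq, h_dq, h_ex0, h_La1, h_Yd, h_Ld, h_a1, h_tha]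
    refine ⟨?_, ?_, ?_, ?_, ?_, ?_, ?_, ?_, ?_, ?_, ?_, ?_⟩ <;> norm_num [zv]
  · simp only [XL2.mO, mG, CM.mk.injEq, h_Mo, h_ys2, h_M1, h_yE1, h_Yc]
    refine ⟨?_, ?_, ?_, ?_, ?_, ?_⟩ <;> norm_num [zv]

theorem tL23 : Cert.L23.T.all (fun r => chkL23 r) = true := by decide +kernel

/-- the constants of the rows -/
def chkL24 (r : Cert.L2P.Row) : Bool :=
  and (and (and (and (Nat.beq r.RW 9178881982464) (Nat.beq r.Mo 1099511627776)) (and (Nat.beq r.ys2 2308974837760) (Nat.beq r.L1 4659838189568))) (and (and (Nat.beq r.a 58988691456) (Nat.beq r.RH 10424959369216)) (and (Nat.beq r.RHq 98843840479232) (Nat.beq r.dq 168275476480)))) (and (and (and (Nat.beq r.ex0 1363652116480) (Nat.beq r.La1 9385577283584)) (and (Nat.beq r.Yd 24696061952) (Nat.beq r.Ld 5540373594112))) (and (and (Nat.beq r.M1 1099511627776) (Nat.beq r.yE1 1134695546880))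 (and (Nat.beq r.Yc 19790823424) (and (Nat.beq r.a1 56237228032) (Nat.beq r.tha 58986594304)))))

theorem eqL24 {r : Cert.L2P.Row} (h : chkL24 r = true) : XL2.cO r = cG 4 ∧ XL2.mO r = mG 4 := by
  simp only [chkL24, Bool.and_eq_true, Nat.beq_eq] at h
  obtain ⟨⟨⟨⟨h_RW, h_Mo⟩, ⟨h_ys2, h_L1⟩⟩, ⟨⟨h_a, h_RH⟩, ⟨h_RHq, h_dq⟩⟩⟩, ⟨⟨⟨h_ex0, h_La1⟩, ⟨h_Yd, h_Ld⟩⟩, ⟨⟨h_M1, h_yE1⟩, ⟨h_Yc, ⟨h_a1, h_tha⟩⟩⟩⟩⟩ := h
  constructor
  · simp only [XL2.cO, cG, CL.mk.injEq, h_RW, h_L1, h_a, h_RH, h_RHq, h_dq, h_ex0, h_La1, h_Yd, h_Ld, h_a1, h_tha]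
    refine ⟨?_, ?_, ?_, ?_, ?_, ?_, ?_, ?_, ?_, ?_, ?_, ?_⟩ <;> norm_num [zv]
  · simp only [XL2.mO, mG, CM.mk.injEq, h_Mo, h_ys2, h_M1, h_yE1, h_Yc]
    refine ⟨?_, ?_, ?_, ?_, ?_, ?_⟩ <;> norm_num [zv]

theorem tL24 : Cert.L24.T.all (fun r => chkL24 r) = true := by decide +kernel

/-- the constants of the rows -/
def chkFP (r : Cert.FPP.Row) : Bool :=
  and (and (and (Nat.beq r.lc0 1724298297344) (and (Nat.beq r.lc1 147848167424) (Nat.beq r.aS 144082731008))) (and (and (Nat.beq r.cD 1099511627776) (Nat.beq r.RH1 2303981518848)) (and (Nat.beq r.RH 3409130291200) (Nat.beq r.RHq 10570451386368)))) (and (and (and (Nat.beq r.exK 1156017291264) (Nat.beq r.x0 0)) (and (Nat.beq r.xa 329853698048) (Nat.beq r.xb 0))) (and (and (Nat.beq r.Lam0 2419140329472) (Nat.beq r.Y0 3490734669824)) (and (Nat.beq r.a0 98515812352) (Nat.beq r.tha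 144078536704))))

theorem eqFP {r : Cert.FPP.Row} (h : chkFP r = true) : XFP.cO r = cF2 := by
  simp only [chkFP, Bool.and_eq_true, Nat.beq_eq] at h
  obtain ⟨⟨⟨h_lc0, ⟨h_lc1, h_aS⟩⟩, ⟨⟨h_cD, h_RH1⟩, ⟨h_RH, h_RHq⟩⟩⟩, ⟨⟨⟨h_exK, h_x0⟩, ⟨h_xa, h_xb⟩⟩, ⟨⟨h_Lam0, h_Y0⟩, ⟨h_a0, h_tha⟩⟩⟩⟩ := h
  simp only [XFP.cO, cF2, CF.mk.injEq, h_lc0, h_lc1, h_aS, h_cD, h_RH1, h_RH, h_RHq, h_exK, h_x0, h_xa, h_xb, h_Lam0, h_Y0, h_a0, h_tha]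
  refine ⟨?_, ?_, ?_, ?_, ?_, ?_, ?_, ?_, ?_, ?_, ?_, ?_, ?_, ?_, ?_⟩ <;> norm_num [zv]

theorem tFP : Cert.FPQ.T.all (fun r => and (chkFP r) (and (mt Tab.C0 r.ys r.wa r.wb r.o0 r.p0 r.p0_m) (mt Tab.C1 r.ys r.wa r.wb r.o1 r.p1 r.p1_m))) = true := by decide +kernel

/-- the constants of the rows -/
def chkFT (r : Cert.FTP.Row) : Bool :=
  and (and (and (Nat.beq r.lc0 1724298297344) (and (Nat.beq r.lc1 147848167424) (Nat.beq r.aS 144082731008))) (and (and (Nat.beq r.cD 1099511627776) (Nat.beq r.RH1 2303981518848)) (and (Nat.beq r.RH 3409130291200) (Nat.beq r.RHq 10570451386368)))) (and (and (and (Nat.beq r.exK 1156017291264) (Nat.beq r.x0 0)) (and (Nat.beq r.xa 329853698048) (Nat.beq r.xb 0))) (and (and (Nat.beq r.Lam0 2419140329472) (Nat.beq r.Y0 3490734669824)) (and (Nat.beq r.a0 98515812352) (Nat.beq r.tha 144078536704))))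

theorem eqFT {r : Cert.FTP.Row} (h : chkFT r = true) : XFT.cO r = cF2 := by
  simp only [chkFT, Bool.and_eq_true, Nat.beq_eq] at h
  obtain ⟨⟨⟨h_lc0, ⟨h_lc1, h_aS⟩⟩, ⟨⟨h_cD, h_RH1⟩, ⟨h_RH, h_RHq⟩⟩⟩, ⟨⟨⟨h_exK, h_x0⟩, ⟨h_xa, h_xb⟩⟩, ⟨⟨h_Lam0, h_Y0⟩, ⟨h_a0, h_tha⟩⟩⟩⟩ := h
  simp only [XFT.cO, cF2, CF.mk.injEq, h_lc0, h_lc1, h_aS, h_cD, h_RH1, h_RH, h_RHq, h_exK, h_x0, h_xa, h_xb, h_Lam0, h_Y0, h_a0, h_tha]
  refine ⟨?_, ?_, ?_, ?_, ?_, ?_, ?_, ?_, ?_, ?_, ?_, ?_, ?_, ?_, ?_⟩ <;> norm_num [zv]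

theorem tFT : Cert.FTQ.T.all (fun r => and (chkFT r) (and (mt Tab.C0 r.ys r.wa r.wb r.o0 r.p0 r.p0_m) (mt Tab.C1 r.ys r.wa r.wb r.o1 r.p1 r.p1_m))) = true := by decide +kernel

/-- the constants of the rows -/
def chkF1 (r : Cert.F1P.Row) : Bool :=
  and (and (and (and (Nat.beq r.aS 144082731008) (Nat.beq r.cD 1099511627776)) (and (Nat.beq r.Ma 2972117368832) (Nat.beq r.Mb 1872605741056))) (and (and (Nat.beq r.RH1 2303981518848) (Nat.beq r.RH 3409130291200)) (and (Nat.beq r.RHq 10570451386368) (Nat.beq r.exK 1156017291264)))) (and (and (and (Nat.beq r.x0 0) (Nat.beq r.xa 329853698048)) (and (Nat.beq r.xb 0) (Nat.beq r.Lam0 2419140329472))) (and (and (Nat.beq r.Y0 3490734669824) (Nat.beq r.M1 2319282339840)) (and (Nat.beq r.ys 1154486370304) (and (Nat.beq r.a0 98515812352) (Nat.beq r.tha 144078536704)))))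

theorem eqF1 {r : Cert.F1P.Row} (h : chkF1 r = true) : XF1.cO r = cF2 ∧ XF1.mO r = mF2 := by
  simp only [chkF1, Bool.and_eq_true, Nat.beq_eq] at h
  obtain ⟨⟨⟨⟨h_aS, h_cD⟩, ⟨h_Ma, h_Mb⟩⟩, ⟨⟨h_RH1, h_RH⟩, ⟨h_RHq, h_exK⟩⟩⟩, ⟨⟨⟨h_x0, h_xa⟩, ⟨h_xb, h_Lam0⟩⟩, ⟨⟨h_Y0, h_M1⟩, ⟨h_ys, ⟨h_a0, h_tha⟩⟩⟩⟩⟩ := h
  constructor
  · simp only [XF1.cO, cF2, CF.mk.injEq, h_aS, h_cD, h_RH1, h_RH, h_RHq, h_exK, h_x0, h_xa, h_xb, h_Lam0, h_Y0, h_a0, h_tha]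
    refine ⟨?_, ?_, ?_, ?_, ?_, ?_, ?_, ?_, ?_, ?_, ?_, ?_, ?_, ?_, ?_⟩ <;> norm_num [zv]
  · simp only [XF1.mO, mF2, CN.mk.injEq, h_Ma, h_Mb, h_M1, h_ys]
    refine ⟨?_, ?_, ?_, ?_⟩ <;> norm_num [zv]

theorem tF1 : Cert.F1Q.T.all (fun r => chkF1 r) = true := by decide +kernel

/-- the constants of the rows -/
def chkF2 (r : Cert.F2P.Row) : Bool :=
  and (and (and (and (Nat.beq r.aS 144082731008) (Nat.beq r.cD 1099511627776)) (and (Nat.beq r.Ma 2972117368832) (Nat.beq r.Mb 1872605741056))) (and (and (Nat.beq r.RH1 2303981518848) (Nat.beq r.RH 3409130291200)) (and (Nat.beq r.RHq 10570451386368) (Nat.beq r.exK 1156017291264)))) (and (and (and (Nat.beq r.x0 0) (Nat.beq r.xa 329853698048)) (and (Nat.beq r.xb 0) (Nat.beq r.Lam0 2419140329472))) (and (and (Nat.beq r.Y0 3490734669824) (Nat.beq r.M1 2319282339840)) (and (Nat.beq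 r.ys 1154486370304) (and (Nat.beq r.a0 98515812352) (Nat.beq r.tha 144078536704)))))

theorem eqF2 {r : Cert.F2P.Row} (h : chkF2 r = true) : XF2.cO r = cF2 ∧ XF2.mO r = mF2 := by
  simp only [chkF2, Bool.and_eq_true, Nat.beq_eq] at h
  obtain ⟨⟨⟨⟨h_aS, h_cD⟩, ⟨h_Ma, h_Mb⟩⟩, ⟨⟨h_RH1, h_RH⟩, ⟨h_RHq, h_exK⟩⟩⟩, ⟨⟨⟨h_x0, h_xa⟩, ⟨h_xb, h_Lam0⟩⟩, ⟨⟨h_Y0, h_M1⟩, ⟨h_ys, ⟨h_a0, h_tha⟩⟩⟩⟩⟩ := h
  constructor
  · simp only [XF2.cO, cF2, CF.mk.injEq, h_aS, h_cD, h_RH1, h_RH, h_RHq, h_exK, h_x0, h_xa, h_xb, h_Lam0, h_Y0, h_a0, h_tha]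
    refine ⟨?_, ?_, ?_, ?_, ?_, ?_, ?_, ?_, ?_, ?_, ?_, ?_, ?_, ?_, ?_⟩ <;> norm_num [zv]
  · simp only [XF2.mO, mF2, CN.mk.injEq, h_Ma, h_Mb, h_M1, h_ys]
    refine ⟨?_, ?_, ?_, ?_⟩ <;> norm_num [zv]

theorem tF2 : Cert.F2Q.T.all (fun r => chkF2 r) = true := by decide +kernel

end Pool.Agent.helper31.A2
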