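import Pool.Agent.helper31.A2.Prog
import Pool.Agent.helper31.EQB.Cst

/-!
# A2: the constants of the nodes (generated)
-/

namespace Pool.Agent.helper31.A2

/-- positions -/
noncomputable def xG : ℕ → ℝ
  | 0 => 0
  | 1 => 3229 / 4096
  | 2 => 3305 / 2048
  | 3 => 10057 / 4096
  | 4 => 13533 / 4096
  | 5 => 8501 / 2048
  | _ => 0

/-- `Λ` -/
noncomputable def LamG : ℕ → ℝ
  | 0 => 2253 / 1024
  | 1 => 1773 / 512
  | 2 => 4813 / 1024
  | 3 => 6097 / 1024
  | 4 => 7405 / 1024
  | 5 => 8741 / 1024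
  | _ => 0

/-- bounds of `|y|` -/
noncomputable def ynG : ℕ → ℝ
  | 0 => 3251 / 1024
  | 1 => 13121 / 4096
  | 2 => 13223 / 4096
  | 3 => 1665 / 512
  | 4 => 3353 / 1024
  | 5 => 211 / 64
  | _ => 0

/-- radii -/
noncomputable def aG : ℕ → ℝ
  | 0 => 367 / 4096
  | 1 => 297 / 4096
  | 2 => 1029 / 16384
  | 3 => 467 / 8192
  | 4 => 879 / 16384
  | 5 => 419 / 8192
  | _ => 0

/-- families of the rows: positions `≥ 3/10 + famG n` hold at `x_n + 1` -/
def famG (n : ℕ) : ℕ := min n 4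

/-- constants of the links -/
noncomputable def cG : ℕ → CL
  | 0 => {
    RW := 6647 / 2048, L1 := 1023 / 1024, Ld := 29219 / 16384, ex0 := 4307 / 4096,
    RH := 1141 / 256, RHq := 10171 / 512, a := 367 / 4096, La1 := 1773 / 512, dq := 6935 / 32768,
    a1 := 297 / 4096, tha := 93949 / 1048576, Yd := 117 / 4096 }
  | 1 => {
    RW := 18539 / 4096, L1 := 29219 / 16384, Ld := 42577 / 16384, ex0 := 35 / 32,
    RH := 5827 / 1024, RHq := 132633 / 4096, a := 297 / 4096, La1 := 4813 / 1024,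
    dq := 5719 / 32768, a1 := 1029 / 16384, tha := 38015 / 524288, Yd := 51 / 2048 }
  | 2 => {
    RW := 23679 / 4096, L1 := 42577 / 16384, Ld := 3503 / 1024, ex0 := 1167 / 1024,
    RH := 1773 / 256, RHq := 196471 / 4096, a := 1029 / 16384, La1 := 6097 / 1024,
    dq := 5191 / 32768, a1 := 467 / 8192, tha := 32927 / 524288, Yd := 97 / 4096 }
  | 3 => {
    RW := 3611 / 512, L1 := 3503 / 1024, Ld := 69437 / 16384, ex0 := 4869 / 4096,
    RH := 8381 / 1024, RHq := 68595 / 1024, a := 467 / 8192, La1 := 7405 / 1024,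
    dq := 4959 / 32768, a1 := 879 / 16384, tha := 29887 / 524288, Yd := 23 / 1024 }
  | 4 => {
    RW := 17097 / 2048, L1 := 69437 / 16384, Ld := 41279 / 8192, ex0 := 635 / 512,
    RH := 9709 / 1024, RHq := 184111 / 2048, a := 879 / 16384, La1 := 8741 / 1024,
    dq := 5015 / 32768, a1 := 419 / 8192, tha := 28127 / 524288, Yd := 23 / 1024 }
  | _ => {
    RW := 0, L1 := 0, Ld := 0, ex0 := 0, RH := 0, RHq := 0, a := 0, La1 := 0, dq := 0, a1 := 0,
    tha := 0, Yd := 0 }

/-- constants of the links for `|y| ≤ 33/32` -/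
noncomputable def mG : ℕ → CM
  | 0 => {
    Mo := 135 / 64, M1 := 109 / 64, ys2 := 1101005 / 524288, yE1 := 541065 / 524288,
    yE2 := 1116757 / 1048576, Yc := 9437 / 524288 }
  | 1 => {
    Mo := 109 / 64, M1 := 1, ys2 := 1101005 / 524288, yE1 := 541065 / 524288,
    yE2 := 1116757 / 1048576, Yc := 9437 / 524288 }
  | 2 => {
    Mo := 1, M1 := 1, ys2 := 1101005 / 524288, yE1 := 541065 / 524288, yE2 := 1116757 / 1048576,
    Yc := 9437 / 524288 }
  | 3 => {
    Mo := 1, M1 := 1, ys2 := 1101005 / 524288, yE1 := 541065 / 524288, yE2 := 1116757 / 1048576,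
    Yc := 9437 / 524288 }
  | 4 => {
    Mo := 1, M1 := 1, ys2 := 1101005 / 524288, yE1 := 541065 / 524288, yE2 := 1116757 / 1048576,
    Yc := 9437 / 524288 }
  | _ => {
    Mo := 0, M1 := 0, ys2 := 0, yE1 := 0, yE2 := 0, Yc := 0 }

/-- constants of the first node -/
noncomputable def cF2 : CF := {
    cD := 1, RH := 3175 / 1024, RH1 := 8583 / 4096, RHq := 19689 / 2048, x0 := 0,
    xa := 314573 / 1048576, xb := 0, Lam0 := 2253 / 1024, Y0 := 3251 / 1024, exK := 8613 / 8192,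
    a0 := 367 / 4096, tha := 34351 / 262144, aS := 2147 / 16384, lc0 := 1644419 / 1048576,
    lc1 := 140999 / 1048576 }

/-- constants of the first node for `v ≤ 33/32` -/
noncomputable def mF2 : CN := {
    Ma := 173 / 64, Mb := 109 / 64, M1 := 135 / 64, ys := 275251 / 262144 }

end Pool.Agent.helper31.A2
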