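import Pool.Agent.helper31.A2.LinkG1

/-!
# A2-1: the rigid link for arbitrary bounds of the logarithmic derivative

Copy of `EQB/LinkRad.lean` + `EQB/LinkStep.lean` without `MC`, `Mq`, `q2`, `hu`, `hρ`: the bounds `‖qq s‖ ≤ u`, `‖qq (shf τ')‖ ≤ u1` and the `MB`
on the segments are hypotheses.  Changed numbers: `K ≤ 1/40`, `|y| ≤ 10/3`, `Λ ≤ 9`, `RH ≤ 10 W`, `lfp ≤ e/30`, `zb ≤ e/50`
(`1.00503 (1 + K²/4 + v/2)/(1 - F) ≤ 1 + v/2 + 3/200` for `v ≤ 1/50`; `e^x - 1 ≤ 1.046 x` for `x ≤ 87/1000`, so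
`qn (e^(2l+2m) - 1) + (e^(l+2m) - 1) ≤ 2 (17/10 l + 11/5 m)` for `l ≤ 1/100`, `m ≤ 1/30`, `qn ≤ 1.0204`).

Structures and numbers: `LinkG0.lean`; radius and displacement: `LinkG1.lean`.
-/

namespace Pool.Agent.helper31.A2

open Complex ComplexConjugate Set Filter Topology
open Pool.Agent.helper31.EQ.Y Pool.Agent.helper31.EQ.R
open Pool.Agent.helper12.EQL Pool.Agent.helper12.RP Pool.Agent.helper12.FF
open Pool.Agent.helper63.FF
open Pool.Agent.helper31.EQB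

variable {e κ : ℝ}

section

variable {x Λ yn a lf S rl rh zb Dm2 DP Vs Mo ls u n1 X lsp lfp E RH : ℝ} {τ χ : ℂ}
variable {d Λ1 a1 M1 u1 η yn1 : ℝ}

/-- `0 ≤ E` from the number hypotheses -/
theorem g_E0n (he : 200 ≤ e) (hS : S = Sz e κ (shf κ τ))
    (N : LG e (Real.sinh κ) x Λ a lf S rl rh zb Dm2 DP Vs Mo ls u n1 X lsp lfp E RH) : 0 ≤ E := by
  have he0 : 0 < e := by linarith
  have hK0 := N.K0
  have hX0 : 0 ≤ X := by
    refine le_trans ?_ N.hX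
    have := N.a0
    have := N.DP0
    positivity
  have hX1 := N.X1
  have hu0 := N.u0
  have hu1 := N.u1
  have hD1 : 0 < 1 - X := by linarith
  have huX : u * X < 1 := by
    have : u * X ≤ 1 * X := mul_le_mul_of_nonneg_right hu1 hX0
    linarith
  have hD2 : 0 < 1 - u * X := by linarith
  have hlf0 := N.lf0
  have hlfp0 : 0 ≤ lfp := by
    refine le_trans ?_ N.hlfp
    have : 0 ≤ u * X / (1 - u * X) := by positivity
    linarith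
  have hS0 := N.S0
  have hVs0 : 0 ≤ Vs := le_trans (by positivity) N.hVs
  have hls0 : 0 ≤ ls := (mul_nonneg hVs0 N.Mo0).trans N.hls
  have hlsp0 : 0 ≤ lsp := by
    refine le_trans ?_ N.hlsp
    have := N.n10
    have : 0 ≤ n1 * (X / (1 - X)) := by positivity
    linarith
  have hDm0 : 0 ≤ Dm2 := by
    have hb := N.hDl
    have hSb : (e * Real.sinh κ) ^ 2 ≤ S := by
      rw [hS]; unfold Sz bet; nlinarith [sq_nonneg (yz e κ (shf κ τ))]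
    have hd : (rl - e * Real.sinh κ) ^ 2 ≤ Dm2 := by nlinarith
    exact (sq_nonneg _).trans hd
  have hzb0 := N.zb0
  refine le_trans ?_ N.hE
  positivity

/-- the next point -/
theorem g_step (he : 200 ≤ e) (hκ : 0 < κ) (hK : Real.sinh κ ≤ 1 / 40) (hyn : yn ≤ 10 / 3)
    (T : St e κ x Λ yn τ) (hS : S = Sz e κ (shf κ τ))
    (N : LG e (Real.sinh κ) x Λ a lf S rl rh zb Dm2 DP Vs Mo ls u n1 X lsp lfp E RH)
    (N2 : LG2 e (Real.sinh κ) x Λ a S rl rh Vs E d Λ1 a1 M1 u1 η)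
    (hyn1 : yn + E ≤ yn1)
    (hMo : ∀ z ∈ segment ℝ (shf κ τ) (shf κ (shf κ τ)), MB e κ Mo z)
    (hlf : ‖log (fT e κ (shf κ τ)) - log (fT e κ 1)‖ ≤ lf)
    (hu : ‖qq e κ (shf κ τ)‖ ≤ u)
    (hn1 : ‖1 + qq e κ (shf κ τ)‖ ≤ n1)
    (hχ : ‖χ‖ ≤ ‖Rx e κ a τ‖) :
    St e κ (x + 1 - d) Λ1 yn1 (nxt e κ τ χ) := by
  have he0 : 0 < e := by linarith
  have hK0 := N.K0
  obtain ⟨hs, hom, hrl, hrh, hy, h3, hS0⟩ := g_base he hκ hK hyn T hS N
  obtain ⟨⟨-, hE⟩, hE0, -, -⟩ := g_rad he hκ hK hyn T hS N hMo hlf hu hn1 hχ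
  have hβ : 0 < bet e κ := mul_pos he0 hK0
  obtain ⟨t, ht⟩ : ∃ t, t = nxt e κ τ χ := ⟨_, rfl⟩
  rw [← ht] at hE ⊢
  have hre : 0 < t.re := by
    have h4 : |rz e κ t - rz e κ (shf κ τ)| ≤ E := by
      have h5 : rz e κ t - rz e κ (shf κ τ) = bet e κ * (t - shf κ τ).re := by
        unfold rz; rw [Complex.sub_re]; ring
      rw [h5, abs_mul, abs_of_pos hβ]
      exact (mul_le_mul_of_nonneg_left (Complex.abs_re_le_norm _) hβ.le).trans hE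
    have h5 := (abs_le.1 h4).1
    have h6 : 0 < rz e κ t := by linarith [N2.Er]
    exact (mul_pos_iff_of_pos_left hβ).1 h6
  obtain ⟨d1, d2, d3, d4⟩ := disp_z he0 hκ hE
  rw [← hS] at d3 d4
  have hsS : 0 < √S := Real.sqrt_pos.2 hS0
  refine ⟨hre, ?_, by linarith, ?_⟩
  · have h5 := sqrtS_le (e := e) he0 hκ hs
    rw [← hS] at h5
    exact om_disp he0 hκ (by linarith) hs hre hom hE h5 N.Es N2.d0 (by linarith [N.x0]) N2.hd
  · have h5 : rz e κ t ≤ rh + E := by linarith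
    refine h5.trans (N2.hΛ.trans ?_)
    have h6 : 0 < S / e * (1 - 2 * E / √S) := by
      have h7 := N.h9
      have h8 : 0 < RH := by
        have := N.hRH
        have h9 : 0 < rh := lt_of_lt_of_le N.rl0 (hrl.trans hrh)
        have h10 : 0 ≤ (√S + E) ^ 2 / e := by positivity
        linarith
      have h11 : 0 ≤ S / e * (500 / e ^ 2) := by positivity
      have h12 : 10 * (S / e * (1 - 2 * E / √S - 500 / e ^ 2)) =
        10 * (S / e * (1 - 2 * E / √S)) - 10 * (S / e * (500 / e ^ 2)) := by ring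
      rw [h12] at h7
      linarith
    have h7 : 0 ≤ Λ1 := by
      by_contra hneg
      push Not at hneg
      have h8 := N2.hΛ
      have h9 : 0 < rh := lt_of_lt_of_le N.rl0 (hrl.trans hrh)
      nlinarith
    have h8 : Λ1 * Sz e κ t / e = Λ1 * (Sz e κ t / e) := by ring
    rw [h8]
    apply mul_le_mul_of_nonneg_left _ h7
    have h9 : S / e * (1 - 2 * E / √S) = S * (1 - 2 * E / √S) / e := by ring
    rw [h9]
    exact div_le_div_of_nonneg_right d3 he0.le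

/-- facts of a point near `s` -/
theorem g_near (he : 200 ≤ e) (hκ : 0 < κ) (hK : Real.sinh κ ≤ 1 / 40) (hyn : yn + E ≤ 10 / 3)
    (T : St e κ x Λ yn τ) (hS : S = Sz e κ (shf κ τ))
    (N : LG e (Real.sinh κ) x Λ a lf S rl rh zb Dm2 DP Vs Mo ls u n1 X lsp lfp E RH)
    (hE0 : 0 ≤ E) {z : ℂ} (hz0 : 0 < z.re) (hzE : bet e κ * ‖z - shf κ τ‖ ≤ E)
    (hzo : om κ (x + 1 - d) z) :
    PtG e κ (x + 2 - d) (|yz e κ (shf κ τ)| + E) (S / e * (1 - 2 * E / √S - 500 / e ^ 2))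
      ((√S + E) ^ 2 / e) RH (shf κ z) ∧ PtD e κ RH (shf κ z) := by
  have he0 : 0 < e := by linarith
  have hK0 := N.K0
  obtain ⟨hs, hom, hrl, hrh, hy, h3, hS0⟩ := g_base he hκ hK (by linarith) T hS N
  obtain ⟨d1, d2, d3, d4⟩ := disp_z he0 hκ hzE
  rw [← hS] at d3 d4
  have hsS : 0 < √S := Real.sqrt_pos.2 hS0
  have hRH1 : rh + E + (√S + E) ^ 2 / e ≤ RH := N.hRH
  have hrz : rz e κ z ≤ RH := by
    have : 0 ≤ (√S + E) ^ 2 / e := by positivity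
    linarith
  have hSz0 : 0 ≤ Sz e κ z := by unfold Sz; positivity
  have h450 : 0 ≤ 500 / e ^ 2 := by positivity
  have hlow : S * (1 - 2 * E / √S - 500 / e ^ 2) ≤ Sz e κ z := by
    have : S * (1 - 2 * E / √S - 500 / e ^ 2) = S * (1 - 2 * E / √S) - S * (500 / e ^ 2) := by ring
    rw [this]
    have := mul_nonneg hS0.le h450
    linarith
  have hyz : |yz e κ z| ≤ 10 / 3 := by linarith
  have P := g_pt he N hz0 hyz hrz hlow
  obtain ⟨g1, -⟩ := Sz_shf_ge2 he hκ hK hz0 P.yY P.r9 P.r2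
  have hlow2 : S * (1 - 2 * E / √S - 500 / e ^ 2) ≤ Sz e κ (shf κ z) := by
    refine le_trans ?_ g1
    have h5 : 0 ≤ 1 - 500 / e ^ 2 := by
      have : 500 / e ^ 2 ≤ 1 := by
        rw [div_le_one (by positivity)]; nlinarith
      linarith
    have h6 := mul_le_mul_of_nonneg_left d3 h5
    have h7 : (1 - 500 / e ^ 2) * (S * (1 - 2 * E / √S)) =
      S * (1 - 2 * E / √S - 500 / e ^ 2) + S * (500 / e ^ 2 * (2 * E / √S)) := by ring
    have h8 : 0 ≤ S * (500 / e ^ 2 * (2 * E / √S)) := by positivity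
    linarith
  have h6 : Sz e κ z ≤ (√S + E) ^ 2 := by
    have h7 : Sz e κ z = √(Sz e κ z) ^ 2 := (Real.sq_sqrt hSz0).symm
    rw [h7]
    exact pow_le_pow_left₀ (Real.sqrt_nonneg _) d4 2
  have hrs : rz e κ (shf κ z) ≤ RH := by
    have h5 := rz_shf_le (e := e) he0 hκ hz0
    have h6' : Sz e κ z / e ≤ (√S + E) ^ 2 / e := div_le_div_of_nonneg_right h6 he0.le
    linarith
  have hsz := shf_re hκ hz0.le
  have hys := yz_shf_le (e := e) he0 hκ hz0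
  refine ⟨⟨hsz, ?_, hys.trans d1, ?_, ?_, hrs⟩,
    g_pt he N hsz (hys.trans hyz) hrs hlow2⟩
  · have h5 := om_shf hκ hz0 hzo
    have h6 : x + 1 - d + 1 = x + 2 - d := by ring
    rwa [h6] at h5
  · have h7 : S / e * (1 - 2 * E / √S - 500 / e ^ 2) = S * (1 - 2 * E / √S - 500 / e ^ 2) / e := by
      ring
    rw [h7]
    exact div_le_div_of_nonneg_right hlow2 he0.le
  · exact div_le_div_of_nonneg_right ((Sz_shf_le he0 hκ hz0).trans h6) he0.le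

/-- the points of the segment `[s, τ']` -/
theorem g_segp (he : 200 ≤ e) (hκ : 0 < κ) (hK : Real.sinh κ ≤ 1 / 40) (hyn : yn + E ≤ 10 / 3)
    (T : St e κ x Λ yn τ) (hS : S = Sz e κ (shf κ τ))
    (N : LG e (Real.sinh κ) x Λ a lf S rl rh zb Dm2 DP Vs Mo ls u n1 X lsp lfp E RH)
    (N2 : LG2 e (Real.sinh κ) x Λ a S rl rh Vs E d Λ1 a1 M1 u1 η)
    (hMo : ∀ z ∈ segment ℝ (shf κ τ) (shf κ (shf κ τ)), MB e κ Mo z)
    (hlf : ‖log (fT e κ (shf κ τ)) - log (fT e κ 1)‖ ≤ lf)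
    (hu : ‖qq e κ (shf κ τ)‖ ≤ u)
    (hn1 : ‖1 + qq e κ (shf κ τ)‖ ≤ n1)
    (hχ : ‖χ‖ ≤ ‖Rx e κ a τ‖) {z : ℂ} (hz : z ∈ segment ℝ (shf κ τ) (nxt e κ τ χ)) :
    PtG e κ (x + 2 - d) (|yz e κ (shf κ τ)| + E) (S / e * (1 - 2 * E / √S - 500 / e ^ 2))
      ((√S + E) ^ 2 / e) RH (shf κ z) ∧ PtD e κ RH (shf κ z) := by
  have he0 : 0 < e := by linarith
  have hK0 := N.K0
  have hβ : 0 < bet e κ := mul_pos he0 hK0
  have hynY : yn ≤ 10 / 3 := by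
    have := g_E0n he hS N
    linarith
  obtain ⟨hs, hom, hrl, hrh, hy, h3, hS0⟩ := g_base he hκ hK hynY T hS N
  obtain ⟨⟨-, hE⟩, hE0, -, -⟩ := g_rad he hκ hK hynY T hS N hMo hlf hu hn1 hχ
  have hst := g_step he hκ hK hynY T hS N N2 (le_refl _) hMo hlf hu hn1 hχ
  have hz0 := re_segment hs hst.re hz
  have hzE : bet e κ * ‖z - shf κ τ‖ ≤ E := by
    refine le_trans (mul_le_mul_of_nonneg_left ?_ hβ.le) hE
    exact norm_sub_le_of_mem_segment hz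
  have hzo : om κ (x + 1 - d) z :=
    om_seg hκ (by linarith [N.x0, N2.d1]) hs hst.re (om_mono hκ hom (by linarith [N2.d0])) hst.om hz
  exact g_near he hκ hK hyn T hS N hE0 hz0 hzE hzo

/-- the data of the points `shf z`, `z ∈ [s, τ']` -/
theorem g_seg2 (he : 200 ≤ e) (hκ : 0 < κ) (hK : Real.sinh κ ≤ 1 / 40) (hyn : yn + E ≤ 10 / 3)
    (T : St e κ x Λ yn τ) (hS : S = Sz e κ (shf κ τ))
    (N : LG e (Real.sinh κ) x Λ a lf S rl rh zb Dm2 DP Vs Mo ls u n1 X lsp lfp E RH)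
    (N2 : LG2 e (Real.sinh κ) x Λ a S rl rh Vs E d Λ1 a1 M1 u1 η)
    (hMo : ∀ z ∈ segment ℝ (shf κ τ) (shf κ (shf κ τ)), MB e κ Mo z)
    (hlf : ‖log (fT e κ (shf κ τ)) - log (fT e κ 1)‖ ≤ lf)
    (hu : ‖qq e κ (shf κ τ)‖ ≤ u)
    (hn1 : ‖1 + qq e κ (shf κ τ)‖ ≤ n1)
    (hχ : ‖χ‖ ≤ ‖Rx e κ a τ‖) {z : ℂ} (hz : z ∈ segment ℝ (shf κ τ) (nxt e κ τ χ)) :
    PtG e κ (x + 2 - d) (|yz e κ (shf κ τ)| + E) (S / e * (1 - 2 * E / √S - 500 / e ^ 2))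
      ((√S + E) ^ 2 / e) RH (shf κ z) :=
  (g_segp he hκ hK hyn T hS N N2 hMo hlf hu hn1 hχ hz).1

/-- the data of the points of `[shf τ', shf (shf τ')]` -/
theorem g_seg3 (he : 200 ≤ e) (hκ : 0 < κ) (hK : Real.sinh κ ≤ 1 / 40) (hyn : yn + E ≤ 10 / 3)
    (T : St e κ x Λ yn τ) (hS : S = Sz e κ (shf κ τ))
    (N : LG e (Real.sinh κ) x Λ a lf S rl rh zb Dm2 DP Vs Mo ls u n1 X lsp lfp E RH)
    (N2 : LG2 e (Real.sinh κ) x Λ a S rl rh Vs E d Λ1 a1 M1 u1 η)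
    (hMo : ∀ z ∈ segment ℝ (shf κ τ) (shf κ (shf κ τ)), MB e κ Mo z)
    (hlf : ‖log (fT e κ (shf κ τ)) - log (fT e κ 1)‖ ≤ lf)
    (hu : ‖qq e κ (shf κ τ)‖ ≤ u)
    (hn1 : ‖1 + qq e κ (shf κ τ)‖ ≤ n1)
    (hχ : ‖χ‖ ≤ ‖Rx e κ a τ‖) {z : ℂ}
    (hz : z ∈ segment ℝ (shf κ (nxt e κ τ χ)) (shf κ (shf κ (nxt e κ τ χ)))) :
    PtG e κ (x + 2 - d) (|yz e κ (shf κ τ)| + E)
      (S / e * (1 - 2 * E / √S - 500 / e ^ 2) * (1 - 500 / e ^ 2))
      ((√S + E) ^ 2 / e) (RH + (√S + E) ^ 2 / e) z := by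
  obtain ⟨G, P⟩ := g_segp he hκ hK hyn T hS N N2 hMo hlf hu hn1 hχ (right_mem_segment ℝ _ _)
  have hx : 0 ≤ x + 2 - d := by linarith [N.x0, N2.d1]
  have G2 := g_segs he hκ hK hx P.re G.om P.yY P.r9 P.r2 hz
  have h450 : 0 ≤ 1 - 500 / e ^ 2 := by
    have := num_450 he
    linarith
  refine ⟨G2.re, G2.om, G2.y.trans G.y, (mul_le_mul_of_nonneg_right G.lo h450).trans G2.lo,
    G2.hi.trans G.hi, G2.r.trans ?_⟩
  have := G.r
  have := G.hi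
  linarith

/-- closing of the node -/
theorem g_close (he : 200 ≤ e) (hκ : 0 < κ) (hK : Real.sinh κ ≤ 1 / 40) (hyn : yn ≤ 10 / 3)
    (T : St e κ x Λ yn τ) (hS : S = Sz e κ (shf κ τ))
    (N : LG e (Real.sinh κ) x Λ a lf S rl rh zb Dm2 DP Vs Mo ls u n1 X lsp lfp E RH)
    (N2 : LG2 e (Real.sinh κ) x Λ a S rl rh Vs E d Λ1 a1 M1 u1 η)
    (hMo : ∀ z ∈ segment ℝ (shf κ τ) (shf κ (shf κ τ)), MB e κ Mo z)
    (hlf : ‖log (fT e κ (shf κ τ)) - log (fT e κ 1)‖ ≤ lf)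
    (hu : ‖qq e κ (shf κ τ)‖ ≤ u)
    (hn1 : ‖1 + qq e κ (shf κ τ)‖ ≤ n1)
    (hχ : ‖χ‖ ≤ ‖Rx e κ a τ‖)
    (hM1 : ∀ z ∈ segment ℝ (shf κ τ) (nxt e κ τ χ), MB e κ M1 (shf κ z))
    (hu1 : ‖qq e κ (shf κ (nxt e κ τ χ))‖ ≤ u1) {χ' : ℂ}
    (hχ' : ‖χ'‖ ≤ a1 * (4 / (4 + bet e κ)) * (bet e κ * ‖shf κ (nxt e κ τ χ) + 1‖)) :
    ‖1 - R1 e κ τ (nxt e κ τ χ) * (1 + qq e κ (shf κ (nxt e κ τ χ)) * χ')‖ <
      (1 - Real.sinh κ / 1024) * ‖Rx e κ a τ‖ := by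
  have he0 : 0 < e := by linarith
  have hK0 := N.K0
  have hβ : 0 < bet e κ := mul_pos he0 hK0
  obtain ⟨hs, hom, hrl, hrh, hy, h3, hS0⟩ := g_base he hκ hK hyn T hS N
  obtain ⟨⟨-, hE⟩, hE0, -, -⟩ := g_rad he hκ hK hyn T hS N hMo hlf hu hn1 hχ
  have hst := g_step he hκ hK hyn T hS N N2 (le_refl _) hMo hlf hu hn1 hχ
  obtain ⟨t, ht⟩ : ∃ t, t = nxt e κ τ χ := ⟨_, rfl⟩
  rw [← ht] at hE hst hχ' hM1 hu1 ⊢
  have hsS : 0 < √S := Real.sqrt_pos.2 hS0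
  have hη0 : Real.sinh κ * ‖t - shf κ τ‖ ≤ E / e := by
    rw [le_div_iff₀ he0]
    have : Real.sinh κ * ‖t - shf κ τ‖ * e = bet e κ * ‖t - shf κ τ‖ := by unfold bet; ring
    linarith
  have hlg := lg_disp he0 hκ hs hst.re hη0 N2.M10 hM1
  have hlg' : ‖lg e κ t - lg e κ (shf κ τ)‖ ≤ E * (1 + M1) := by
    refine hlg.trans (le_of_eq ?_)
    field_simp
  have hcl := close_key he0 hκ hs hst.re hlg' hu1 hχ'
  have hη := N2.hη
  have hη1 : 1 ≤ η := by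
    refine le_trans ?_ hη
    apply Real.one_le_exp
    have hM10 := N2.M10
    positivity
  have hu10 : 0 ≤ u1 := (norm_nonneg _).trans hu1
  -- `‖Rx‖`
  obtain ⟨g, hg⟩ : ∃ g, g = 4 / (4 + bet e κ) := ⟨_, rfl⟩
  have hg0 : 0 < g := by rw [hg]; positivity
  obtain ⟨D, hD⟩ : ∃ D, D = bet e κ * ‖shf κ τ + 1‖ := ⟨_, rfl⟩
  have hDS : √S ≤ D := by
    rw [hD, hS]; exact sqrtS_le he0 hκ hs
  have hD0 : 0 < D := lt_of_lt_of_le hsS hDS
  have hRx : ‖Rx e κ a τ‖ = a * g * D := by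
    unfold Rx
    rw [norm_mul, Complex.norm_real, ← hg, hD, Real.norm_of_nonneg (by have := N.a0; positivity)]
    ring
  have hR1 : R1 e κ τ t = (1 - fT e κ t) / (1 - fT e κ (shf κ τ)) := rfl
  rw [hR1, hRx]
  -- the next radius
  have hD1 : bet e κ * ‖shf κ t + 1‖ ≤ D + (Vs + E) := by
    have h4 : shf κ t + 1 = (shf κ τ + 1) + (shf κ (shf κ τ) - shf κ τ) +
      (shf κ t - shf κ (shf κ τ)) := by ring
    have h5 : ‖shf κ t + 1‖ ≤ ‖shf κ τ + 1‖ + ‖shf κ (shf κ τ) - shf κ τ‖ +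
        ‖shf κ t - shf κ (shf κ τ)‖ := by
      rw [h4]; exact norm_add₃_le
    have h6 := Pool.Agent.helper31.EQB.shf_disp (e := e) he0 hκ hs hst.re
    have h7 := shf_sub_le (e := e) he0 hκ hs
    have h8 : (Sz e κ (shf κ τ) + rz e κ (shf κ τ) ^ 2) / e ≤ Vs := by
      refine le_trans ?_ N.hVs
      apply div_le_div_of_nonneg_right _ he0.le
      rw [← hS]
      have : rz e κ (shf κ τ) ^ 2 ≤ rh ^ 2 := pow_le_pow_left₀ (by linarith [N.rl0]) hrh 2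
      linarith
    have h9 := mul_le_mul_of_nonneg_left h5 hβ.le
    have h10 : bet e κ * ‖shf κ t - shf κ (shf κ τ)‖ ≤ E :=
      (mul_le_mul_of_nonneg_left h6 hβ.le).trans hE
    rw [mul_add, mul_add, ← hD] at h9
    linarith
  rw [← hg] at hcl
  have hfin : (Real.exp (E * (1 + M1)) - 1) + Real.exp (E * (1 + M1)) *
      (u1 * (a1 * g * (bet e κ * ‖shf κ t + 1‖))) ≤
      (η - 1) + η * (u1 * (a1 * g * (D + (Vs + E)))) := by
    have h4 : u1 * (a1 * g * (bet e κ * ‖shf κ t + 1‖)) ≤ u1 * (a1 * g * (D + (Vs + E))) := by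
      apply mul_le_mul_of_nonneg_left _ hu10
      apply mul_le_mul_of_nonneg_left hD1
      exact mul_nonneg N2.a10 hg0.le
    have h5 : 0 ≤ u1 * (a1 * g * (bet e κ * ‖shf κ t + 1‖)) := by
      have := N2.a10
      positivity
    have h6 := mul_le_mul hη h4 h5 (by linarith : 0 ≤ η)
    linarith
  refine lt_of_le_of_lt (hcl.trans hfin) ?_
  have hcl2 := N2.hcl
  -- multiply by g D
  have h4 : (η - 1) * (4 + e * Real.sinh κ) / (4 * √S) * (g * D) ≥ η - 1 := by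
    have h5 : (η - 1) * (4 + e * Real.sinh κ) / (4 * √S) * (g * D) = (η - 1) * (D / √S) := by
      have : 4 + bet e κ ≠ 0 := by positivity
      rw [hg]
      unfold bet at this ⊢
      field_simp
    rw [h5]
    have h6 : 1 ≤ D / √S := by rwa [one_le_div hsS]
    nlinarith
  have h5 : η * (u1 * a1) * (1 + (Vs + E) / √S) * (g * D) ≥ η * (u1 * (a1 * g * (D + (Vs + E)))) := by
    have h6 : η * (u1 * a1) * (1 + (Vs + E) / √S) * (g * D) =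
      η * (u1 * (a1 * g * (D + (Vs + E) * (D / √S)))) := by field_simp
    rw [h6]
    have h7 : 1 ≤ D / √S := by rwa [one_le_div hsS]
    have hVs0 : 0 ≤ Vs := le_trans (by have := N.S0; positivity) N.hVs
    have h8 : Vs + E ≤ (Vs + E) * (D / √S) := le_mul_of_one_le_right (by positivity) h7
    have h9 := N2.a10
    have h10 : 0 ≤ η := by linarith
    gcongr
  have h6 := mul_lt_mul_of_pos_right hcl2 (mul_pos hg0 hD0)
  rw [add_mul] at h6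
  calc (η - 1) + η * (u1 * (a1 * g * (D + (Vs + E)))) ≤ _ := by linarith
    _ < (1 - Real.sinh κ / 1024) * a * (g * D) := h6
    _ = _ := by ring

/-- **The link.** -/
theorem link_all_g (he : 200 ≤ e) (hκ : 0 < κ) (hK : Real.sinh κ ≤ 1 / 40) (hyn : yn + E ≤ 10 / 3)
    (T : St e κ x Λ yn τ) (hS : S = Sz e κ (shf κ τ))
    (N : LG e (Real.sinh κ) x Λ a lf S rl rh zb Dm2 DP Vs Mo ls u n1 X lsp lfp E RH)
    (N2 : LG2 e (Real.sinh κ) x Λ a S rl rh Vs E d Λ1 a1 M1 u1 η)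
    (hyn1 : yn + E ≤ yn1)
    (hMo : ∀ z ∈ segment ℝ (shf κ τ) (shf κ (shf κ τ)), MB e κ Mo z)
    (hlf : ‖log (fT e κ (shf κ τ)) - log (fT e κ 1)‖ ≤ lf)
    (hu : ‖qq e κ (shf κ τ)‖ ≤ u)
    (hn1 : ‖1 + qq e κ (shf κ τ)‖ ≤ n1)
    (hχ : ‖χ‖ ≤ ‖Rx e κ a τ‖)
    (hM1 : ∀ z ∈ segment ℝ (shf κ τ) (nxt e κ τ χ), MB e κ M1 (shf κ z))
    (hu1 : ‖qq e κ (shf κ (nxt e κ τ χ))‖ ≤ u1) :
    ‖Rx e κ a τ‖ < 1 ∧ St e κ (x + 1 - d) Λ1 yn1 (nxt e κ τ χ) ∧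
      ∀ χ' : ℂ, ‖χ'‖ ≤ a1 * (4 / (4 + bet e κ)) * (bet e κ * ‖shf κ (nxt e κ τ χ) + 1‖) →
        ‖1 - R1 e κ τ (nxt e κ τ χ) * (1 + qq e κ (shf κ (nxt e κ τ χ)) * χ')‖ <
          (1 - Real.sinh κ / 1024) * ‖Rx e κ a τ‖ := by
  have hynY : yn ≤ 10 / 3 := by
    have := g_E0n he hS N
    linarith
  exact ⟨(g_X he hκ hK hynY T hS N).2.trans_lt N.X1,
    g_step he hκ hK hynY T hS N N2 hyn1 hMo hlf hu hn1 hχ,
    fun χ' hχ' => g_close he hκ hK hynY T hS N N2 hMo hlf hu hn1 hχ hM1 hu1 hχ'⟩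

end

end Pool.Agent.helper31.A2
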