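import Pool.Agent.helper31.EQB.FirstC4
import Pool.Agent.helper31.A2.LinkG

/-!
# A2-4: the first node for arbitrary bounds of the logarithmic derivative

Copy of `EQB/FirstC.lean` .. `FirstC4.lean` without `MC`, `Mq`, `q2`, `hu`, `hu1`, `hρ`, `W2`: the bounds `‖qq c‖ ≤ u`, `‖qq (shf τ1)‖ ≤ u1` and the
`MB` on the segments are hypotheses.  Changed numbers: `K ≤ 1/40`, `|y| ≤ 10/3`, `RH ≤ 10 W` (`Sz_shf_ge2`).
-/

namespace Pool.Agent.helper31.A2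

open Complex ComplexConjugate Set Filter Topology
open Pool.Agent.helper31.EQ.Y Pool.Agent.helper31.EQ.R
open Pool.Agent.helper12.EQL Pool.Agent.helper12.RP Pool.Agent.helper12.FF Pool.Agent.helper12.RS
open Pool.Agent.helper63.FF
open Pool.Agent.helper31.EQB

/-- Number hypotheses of the first node, first part. -/
structure FG (e K v V a lf0 lf1 lau lal gl F Gr G2 gt ft err dz r1 r2 yc x1 S0l Sl Ma Mb
    X u lx lu ΔG ΔF E RH : ℝ) : Prop where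
  K0 : 0 < K
  v0 : 0 ≤ v
  vπ : v ≤ Real.pi
  hV : V = ((e * K) ^ 2 + v ^ 2) / e
  V1 : V ≤ e / 100
  a0 : 0 ≤ a
  a1 : a ≤ 1 / 18
  hlau : e * K / 2 + Real.log (1 + Real.exp (-(e * K))) ≤ lau
  hlal : lal ≤ Real.log 2 ∨ lal ≤ e * K * (1 - K ^ 2 / 6) / 2
  hgl : Real.log 2 + 8 / 5 * V - lal ≤ gl
  hF : lau + lf0 ≤ F
  F0 : 0 ≤ F
  hGr : lau + lf1 ≤ Gr
  hGr2 : gl ≤ Gr
  G20 : 0 ≤ G2
  hG2 : Gr ^ 2 + v ^ 2 / 4 ≤ G2 ^ 2
  gt0 : 0 ≤ gt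
  hgt : Gr ^ 2 + v ^ 2 ≤ (gt * e) ^ 2
  ft0 : 0 ≤ ft
  hft : F ^ 2 + v ^ 2 ≤ ft ^ 2
  herr : err = V * (8 / 5 * V + 5 / 2 * v) / e
  hdz : v / e * G2 + v * Real.exp a * (gt ^ 2 / 2 + K ^ 2 / 7) + K ^ 2 * v ^ 2 / (8 * e) +
    V * (3 / 2 * (Real.exp (2 * a) - 1) + 3 / 4 * K ^ 2 + v / e) + err ≤ dz
  r10 : 0 < r1
  hr1 : r1 ≤ (1 - K ^ 2 / 4) * V * (3 - 3 / 2 * Real.exp (2 * a)) - (e * K) ^ 2 / e / 2 -
    v ^ 2 / e * Real.exp a - err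
  hr2 : V * (3 / 2 * Real.exp (2 * a)) - (1 - K ^ 2 / 4) * ((e * K) ^ 2 / e) / 2 + err ≤ r2
  hyc : v * Real.exp (gl / e) + 2 * V * v * Real.exp (2 * a) / e + err ≤ yc
  x10 : 0 ≤ x1
  x11 : x1 ≤ 1
  hx1 : x1 * ((e * K) ^ 2 + yc ^ 2 + r1 ^ 2) / e ≤ r1
  r2e : r2 ≤ e / 2
  hS0l : S0l ≤ (e * K) ^ 2 + (v / (1 + V / e)) ^ 2
  dzS : dz ≤ √S0l
  hSl : Sl ≤ S0l * (1 - 2 * dz / √S0l)
  Sl0 : 0 < Sl
  Ma0 : 0 ≤ Ma
  Mb0 : 0 ≤ Mb
  X0 : 0 < X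
  X1 : X < 1
  u0 : 0 ≤ u
  u1 : u ≤ 1
  hlx : -Real.log (1 - X) ≤ lx
  hlu : -Real.log (1 - u * X) ≤ lu
  hΔG : dz * (1 + Mb) + lx ≤ ΔG
  hΔF : dz * Ma + lu ≤ ΔF
  haG : gt * e + ΔG ≤ a * e
  haF : ft + ΔF ≤ a * e
  hE : 53 / 50 * Real.exp (2 * a) * (v * ΔG + V * (2 * ΔG + ΔF)) / e ≤ E
  Es : E < √Sl
  hRH1 : 201 / 200 * V + (√((e * K) ^ 2 + v ^ 2) + dz) ^ 2 / e ≤ RH
  hRH2 : r2 + E + (√((e * K) ^ 2 + yc ^ 2) + dz + E) ^ 2 / e ≤ RH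
  h9 : RH ≤ 10 * (Sl / e * (1 - 2 * E / √Sl - 500 / e ^ 2))
  h2 : RH ^ 2 ≤ 9 / 10 * (Sl * (1 - 2 * E / √Sl - 500 / e ^ 2))

/-- Number hypotheses of the first node, second part. -/
structure FG2 (e K V r1 r2 yc x1 Sl X E d Λ0 y0 M1 u1 η a0 DP Vc : ℝ) : Prop where
  d0 : 0 ≤ d
  d1 : d ≤ x1
  a00 : 0 ≤ a0
  Er : E < r1
  hd : e * E * Real.exp (2 * K * x1) ≤ (1 - K ^ 2 / 6) * d * (√Sl * (√Sl - E))
  hΛ : r2 + E ≤ Λ0 * (Sl / e * (1 - 2 * E / √Sl))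
  Λ00 : 0 ≤ Λ0
  hy0 : yc + E ≤ y0
  M10 : 0 ≤ M1
  hη : Real.exp (E * (1 + M1)) ≤ η
  DP0 : 0 ≤ DP
  hDP : (e * K) ^ 2 + yc ^ 2 + r2 ^ 2 + 2 * (e * K) * r2 ≤ DP ^ 2
  hVc : ((e * K) ^ 2 + yc ^ 2 + r2 ^ 2) / e ≤ Vc
  hcl : (η - 1) + η * (u1 * (a0 * (4 / (4 + e * K)))) * (DP + Vc + E) < (1 - K / 1024) * X

private theorem fg_log_sub {χ : ℂ} {X lx : ℝ} (hχ : ‖χ‖ ≤ X) (hX : X < 1)
    (h : -Real.log (1 - X) ≤ lx) : ‖log (1 - χ)‖ ≤ lx := by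
  have h1 : ‖-χ‖ < 1 := by rw [norm_neg]; linarith
  have h2 := norm_log_le h1
  rw [norm_neg, ← sub_eq_add_neg] at h2
  have h3 := Real.log_le_log (by linarith : 0 < 1 - X) (by linarith : 1 - X ≤ 1 - ‖χ‖)
  linarith

private theorem fg_log_add {z : ℂ} {X lx : ℝ} (hχ : ‖z‖ ≤ X) (hX : X < 1)
    (h : -Real.log (1 - X) ≤ lx) : ‖log (1 + z)‖ ≤ lx := by
  have h2 := norm_log_le (hχ.trans_lt hX)
  have h3 := Real.log_le_log (by linarith : 0 < 1 - X) (by linarith : 1 - X ≤ 1 - ‖z‖)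
  linarith

/-- the segment `[t, shf t]` -/
private theorem fg_seg_shf {e κ x : ℝ} (he : 200 ≤ e) (hκ : 0 < κ) (hK : Real.sinh κ ≤ 1 / 40) {t : ℂ}
    (ht : 0 < t.re) (hy : |yz e κ t| ≤ 10 / 3) (hr : rz e κ t ≤ 10 * Sz e κ t / e)
    (hr2 : rz e κ t ^ 2 ≤ 9 / 10 * Sz e κ t) (hx : 0 ≤ x) (hom : om κ x t) {z : ℂ}
    (hz : z ∈ segment ℝ t (shf κ t)) :
    0 < z.re ∧ om κ x z ∧ |yz e κ z| ≤ |yz e κ t| ∧ (1 - 500 / e ^ 2) * Sz e κ t ≤ Sz e κ z ∧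
      Sz e κ z ≤ Sz e κ t ∧ rz e κ z ≤ rz e κ t + Sz e κ t / e := by
  have he0 : 0 < e := by linarith
  have hs2 : 0 < (shf κ t).re := shf_re hκ ht.le
  have hom2 : om κ x (shf κ t) := om_mono hκ (om_shf hκ ht hom) (by linarith)
  have hSsh := (Sz_shf_ge2 he hκ hK ht hy hr hr2).1
  have hz0 := re_segment ht hs2 hz
  have hzo := om_seg hκ hx ht hs2 hom hom2 hz
  obtain ⟨a', b', ha', hb', hab, rfl⟩ := hz
  have hre : (a' • t + b' • shf κ t).re = a' * t.re + b' * (shf κ t).re := by simp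
  have him : (a' • t + b' • shf κ t).im = a' * t.im + b' * (shf κ t).im := by simp
  have hyz' : yz e κ (a' • t + b' • shf κ t) = a' * yz e κ t + b' * yz e κ (shf κ t) := by
    unfold yz; rw [him]; ring
  have hrz' : rz e κ (a' • t + b' • shf κ t) = a' * rz e κ t + b' * rz e κ (shf κ t) := by
    unfold rz; rw [hre]; ring
  have hQ1 : 1 ≤ ‖Qk κ t‖ ^ 2 := one_le_pow₀ (one_le_Qk hκ ht)
  have hQ0 : 0 < ‖Qk κ t‖ ^ 2 := by linarith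
  have hysh := yz_shf (e := e) he0 hκ ht
  obtain ⟨n, hn⟩ : ∃ n : ℝ, n = (‖Qk κ t‖ ^ 2)⁻¹ := ⟨_, rfl⟩
  have hn0 : 0 < n := by rw [hn]; positivity
  have hn1 : n ≤ 1 := by rw [hn]; exact inv_le_one_of_one_le₀ hQ1
  have hysh' : yz e κ (shf κ t) = n * yz e κ t := by
    rw [hysh, hn]; field_simp
  have hyz2 : yz e κ (a' • t + b' • shf κ t) = (a' + b' * n) * yz e κ t := by
    rw [hyz', hysh']; ring
  have hf1 : a' + b' * n ≤ 1 := by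
    have := mul_le_mul_of_nonneg_left hn1 hb'
    linarith
  have hf0 : n ≤ a' + b' * n := by
    have g1 : a' * n ≤ a' := mul_le_of_le_one_right ha' hn1
    have g2 : n = a' * n + b' * n := by rw [← add_mul, hab, one_mul]
    linarith
  have hf00 : 0 ≤ a' + b' * n := by linarith
  have hzy1 : |yz e κ (a' • t + b' • shf κ t)| ≤ |yz e κ t| := by
    rw [hyz2, abs_mul, abs_of_nonneg hf00]
    exact mul_le_of_le_one_left (abs_nonneg _) hf1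
  have hSz : Sz e κ (shf κ t) ≤ Sz e κ (a' • t + b' • shf κ t) := by
    unfold Sz
    rw [hysh', hyz2, mul_pow, mul_pow]
    have g1 : n ^ 2 ≤ (a' + b' * n) ^ 2 := pow_le_pow_left₀ hn0.le hf0 2
    have g2 := mul_le_mul_of_nonneg_right g1 (sq_nonneg (yz e κ t))
    linarith
  have hSz3 : Sz e κ (a' • t + b' • shf κ t) ≤ Sz e κ t := by
    unfold Sz
    have := sq_le_sq.2 hzy1
    linarith
  refine ⟨hz0, hzo, hzy1, hSsh.trans hSz, hSz3, ?_⟩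
  have g1 := rz_shf_le (e := e) he0 hκ ht
  have hS0 : 0 ≤ Sz e κ t / e := by unfold Sz; positivity
  rw [hrz']
  obtain ⟨R, hR⟩ : ∃ R, R = rz e κ t + Sz e κ t / e := ⟨_, rfl⟩
  rw [← hR] at g1 ⊢
  have g2 : a' * rz e κ t ≤ a' * R := mul_le_mul_of_nonneg_left (by linarith) ha'
  have g3 : b' * rz e κ (shf κ t) ≤ b' * R := mul_le_mul_of_nonneg_left g1 hb'
  have g4 : a' * R + b' * R = R := by rw [← add_mul, hab, one_mul]
  linarith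

section

variable {e κ v V a lf0 lf1 lau lal gl F Gr G2 gt ft err dz r1 r2 yc x1 S0l Sl Ma Mb X u lx lu ΔG ΔF
  E RH : ℝ} {pp : ℂ}

/-- sizes at `(s0, 0)` -/
private theorem fg_FH (he2 : 200 ≤ e) (hκ : 0 < κ) (hK : Real.sinh κ ≤ 1 / 40)
    (N : FG e (Real.sinh κ) v V a lf0 lf1 lau lal gl F Gr G2 gt ft err dz r1 r2 yc x1 S0l Sl
      Ma Mb X u lx lu ΔG ΔF E RH)
    (h0 : Real.log ‖fT e κ (shf κ (t00 e κ v))‖ ≤ lf0)
    (h1 : Real.log ‖fT e κ (shf κ (shf κ (t00 e κ v)))‖ ≤ lf1) :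
    Vv e κ v = V ∧ 0 ≤ V ∧ 0 ≤ err ∧ 0 ≤ dz ∧ 0 ≤ ΔG ∧ 0 ≤ ΔF ∧
    FH e κ v a (shf κ (t00 e κ v)) 0 ∧
    -gl ≤ (EQB.LG e κ (shf κ (t00 e κ v)) 0).re ∧
    |(EQB.LG e κ (shf κ (t00 e κ v)) 0).re| ≤ Gr ∧
    ‖EQB.LG e κ (shf κ (t00 e κ v)) 0‖ ≤ gt * e ∧ ‖EQB.LF e κ (shf κ (t00 e κ v)) 0‖ ≤ ft := by
  have he : 0 < e := by linarith
  have hK1 : Real.sinh κ ≤ 1 / 10 := by linarith
  have hK0 := N.K0
  obtain ⟨s1, s2, s3, s4, s5⟩ := s0_pos he hκ N.v0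
  have hVV : Vv e κ v = V := by
    rw [N.hV]; rfl
  have hV0 : 0 ≤ V := by
    rw [N.hV]; positivity
  have hv0 := N.v0
  have herr0 : 0 ≤ err := by
    rw [N.herr]; positivity
  have hexp1 : 1 ≤ Real.exp (2 * a) := Real.one_le_exp (by linarith [N.a0])
  have hdz0 : 0 ≤ dz := by
    refine le_trans ?_ N.hdz
    have := N.G20
    have h2 : 0 ≤ 3 / 2 * (Real.exp (2 * a) - 1) + 3 / 4 * Real.sinh κ ^ 2 + v / e := by
      have : 0 ≤ v / e := by positivity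
      have h3 : 0 ≤ 3 / 4 * Real.sinh κ ^ 2 := by positivity
      linarith
    positivity
  have hW1 : 0 ≤ Sl / e := (div_pos N.Sl0 he).le
  have h500 := fc_500 he2
  have hMa : 0 ≤ Ma := N.Ma0
  have hMb : 0 ≤ Mb := N.Mb0
  have hlx : 0 ≤ lx := by
    refine le_trans ?_ N.hlx
    have := Real.log_nonpos (by linarith [N.X1] : (0 : ℝ) ≤ 1 - X) (by linarith [N.X0])
    linarith
  have hu0 : 0 ≤ u := N.u0
  have hlu : 0 ≤ lu := by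
    refine le_trans ?_ N.hlu
    have h2 : u * X ≤ 1 * 1 := mul_le_mul N.u1 N.X1.le N.X0.le (by norm_num)
    have h3 : 0 ≤ u * X := mul_nonneg hu0 N.X0.le
    have := Real.log_nonpos (by linarith : (0 : ℝ) ≤ 1 - u * X) (by linarith)
    linarith
  have hΔG : 0 ≤ ΔG := by
    refine le_trans ?_ N.hΔG
    positivity
  have hΔF : 0 ≤ ΔF := by
    refine le_trans ?_ N.hΔF
    positivity
  obtain ⟨i1, i2, i3, i4⟩ := L_im (κ := κ) he2 hκ N.v0 N.vπ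
  obtain ⟨j1, j2, j3, j4⟩ := L_re he2 hκ hK1 N.v0 (by rw [hVV]; exact N.V1) h0 h1
  rw [hVV] at j1
  obtain ⟨k1, k2, k3⟩ := LA_facts (e := e) he hκ hK1
  have hbet : bet e κ = e * Real.sinh κ := rfl
  rw [hbet] at k2 k3
  have hlau : EQB.LA e κ ≤ lau := k3.trans N.hlau
  have hlal : lal ≤ EQB.LA e κ := by
    rcases N.hlal with h | h
    · exact h.trans k1
    · exact h.trans k2
  have hgl : -gl ≤ (EQB.LG e κ (shf κ (t00 e κ v)) 0).re := by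
    have := N.hgl
    linarith
  have hGr : |(EQB.LG e κ (shf κ (t00 e κ v)) 0).re| ≤ Gr := by
    rw [abs_le]
    constructor
    · linarith [N.hGr2]
    · linarith [N.hGr]
  have hGi : |(EQB.LG e κ (shf κ (t00 e κ v)) 0).im| ≤ v := by
    rw [abs_le]; constructor <;> linarith
  have hFr : |(EQB.LF e κ (shf κ (t00 e κ v)) 0).re| ≤ F := by
    rw [abs_le]
    constructor
    · linarith [N.F0]
    · linarith [N.hF]
  have hFi : |(EQB.LF e κ (shf κ (t00 e κ v)) 0).im| ≤ v := by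
    rw [abs_le]; constructor <;> linarith
  have hLG : ‖EQB.LG e κ (shf κ (t00 e κ v)) 0‖ ≤ gt * e :=
    fc_norm hGr hGi N.hgt (mul_nonneg N.gt0 he.le)
  have hLF : ‖EQB.LF e κ (shf κ (t00 e κ v)) 0‖ ≤ ft := fc_norm hFr hFi N.hft N.ft0
  have hpi : v ≤ e / 60 := by
    have h2 := Real.pi_lt_d2
    have h3 := N.vπ
    norm_num at h2
    linarith
  refine ⟨hVV, hV0, herr0, hdz0, hΔG, hΔF, ⟨he2, hκ, hK1, N.v0, hpi, by rw [hVV]; exact N.V1, N.a0,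
    N.a1, s1, by rw [norm_zero]; norm_num, ?_, ?_⟩, hgl, hGr, hLG, hLF⟩
  · linarith [N.haG]
  · linarith [N.haF]

/-- `0 ≤ E` -/
private theorem fg_E0 (he2 : 200 ≤ e) (hκ : 0 < κ) (hK : Real.sinh κ ≤ 1 / 40)
    (N : FG e (Real.sinh κ) v V a lf0 lf1 lau lal gl F Gr G2 gt ft err dz r1 r2 yc x1 S0l Sl
      Ma Mb X u lx lu ΔG ΔF E RH)
    (h0 : Real.log ‖fT e κ (shf κ (t00 e κ v))‖ ≤ lf0)
    (h1 : Real.log ‖fT e κ (shf κ (shf κ (t00 e κ v)))‖ ≤ lf1) : 0 ≤ E := by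
  have he : 0 < e := by linarith
  obtain ⟨hVV, hV0, herr0, hdz0, hΔG0, hΔF0, -⟩ := fg_FH he2 hκ hK N h0 h1
  have hv0 := N.v0
  refine le_trans ?_ N.hE
  positivity

/-- **The centre.** -/
private theorem fg_cen (he2 : 200 ≤ e) (hκ : 0 < κ) (hK : Real.sinh κ ≤ 1 / 40)
    (hT : tanh (κ * pp) = t00 e κ v)
    (N : FG e (Real.sinh κ) v V a lf0 lf1 lau lal gl F Gr G2 gt ft err dz r1 r2 yc x1 S0l Sl
      Ma Mb X u lx lu ΔG ΔF E RH)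
    (h0 : Real.log ‖fT e κ (shf κ (t00 e κ v))‖ ≤ lf0)
    (h1 : Real.log ‖fT e κ (shf κ (shf κ (t00 e κ v)))‖ ≤ lf1) :
    FH e κ v a (shf κ (t00 e κ v)) 0 ∧
    0 < (nxc e κ pp (shf κ (t00 e κ v)) 0).re ∧
    r1 ≤ rz e κ (nxc e κ pp (shf κ (t00 e κ v)) 0) ∧
    rz e κ (nxc e κ pp (shf κ (t00 e κ v)) 0) ≤ r2 ∧
    |yz e κ (nxc e κ pp (shf κ (t00 e κ v)) 0)| ≤ yc ∧
    bet e κ * ‖nxc e κ pp (shf κ (t00 e κ v)) 0 - shf κ (t00 e κ v)‖ ≤ dz ∧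
    om κ x1 (nxc e κ pp (shf κ (t00 e κ v)) 0) ∧
    ∀ z ∈ segment ℝ (shf κ (t00 e κ v)) (nxc e κ pp (shf κ (t00 e κ v)) 0),
      0 < z.re ∧ om κ x1 z ∧ Sl ≤ Sz e κ z ∧ |yz e κ z| ≤ max v yc ∧
      rz e κ z ≤ max r2 (201 / 200 * V) := by
  have he : 0 < e := by linarith
  have hK1 : Real.sinh κ ≤ 1 / 10 := by linarith
  have hK0 := N.K0
  have hβ : 0 < bet e κ := mul_pos he hK0
  obtain ⟨hVV, hV0, herr0, hdz0, hΔG, hΔF, H, hgl, hGr, hLG, hLF⟩ := fg_FH he2 hκ hK N h0 h1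
  obtain ⟨s1, s2, s3, s4, s5⟩ := s0_pos he hκ N.v0
  obtain ⟨c1, c2, c3, c4⟩ := cen_z (err := err) H hT N.vπ hgl hGr N.hG2 N.G20 hLG (by rw [hVV]; exact N.herr)
  obtain ⟨_, hh0, hh1, hh2, _, _, _⟩ := hh_facts hκ
  rw [hVV] at c1 c2 c3 c4 s3 s4
  have hbet : bet e κ = e * Real.sinh κ := rfl
  obtain ⟨s, hs⟩ : ∃ s, s = shf κ (t00 e κ v) := ⟨_, rfl⟩
  rw [← hs] at c1 c2 c3 c4 H s1 s2 s3 s4 s5 ⊢
  obtain ⟨c, hc⟩ : ∃ c, c = nxc e κ pp s 0 := ⟨_, rfl⟩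
  rw [← hc] at c1 c2 c3 c4 ⊢
  have hexp2 : Real.exp (2 * a) ≤ 1.12 := by
    have h2 := fh_exp N.a1
    have h3 : Real.exp (2 * a) = Real.exp a * Real.exp a := by rw [← Real.exp_add]; ring_nf
    rw [h3]
    calc Real.exp a * Real.exp a ≤ 1.0572 * 1.0572 :=
          mul_le_mul h2 h2 (Real.exp_pos _).le (by norm_num)
      _ ≤ 1.12 := by norm_num
  have hB0 : 0 ≤ bet e κ ^ 2 / e := by positivity
  have hr1 : r1 ≤ rz e κ c := by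
    refine le_trans N.hr1 (le_trans ?_ c1)
    have h2 : (1 - Real.sinh κ ^ 2 / 4) * V * (3 - 3 / 2 * Real.exp (2 * a)) ≤
        hh κ * V * (3 - 3 / 2 * Real.exp (2 * a)) :=
      mul_le_mul_of_nonneg_right (mul_le_mul_of_nonneg_right hh2 hV0) (by linarith)
    have h3 : hh κ * (bet e κ ^ 2 / e) ≤ 1 * (bet e κ ^ 2 / e) :=
      mul_le_mul_of_nonneg_right hh1 hB0
    rw [hbet] at h3 ⊢
    linarith
  have hr2 : rz e κ c ≤ r2 := by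
    refine le_trans c2 (le_trans ?_ N.hr2)
    have h2 : hh κ * V * (3 / 2 * Real.exp (2 * a)) ≤ 1 * V * (3 / 2 * Real.exp (2 * a)) :=
      mul_le_mul_of_nonneg_right (mul_le_mul_of_nonneg_right hh1 hV0) (by positivity)
    have h3 : (1 - Real.sinh κ ^ 2 / 4) * (bet e κ ^ 2 / e) ≤ hh κ * (bet e κ ^ 2 / e) :=
      mul_le_mul_of_nonneg_right hh2 hB0
    rw [hbet] at h3 ⊢
    linarith
  have hyc2 : |yz e κ c| ≤ yc := c3.trans N.hyc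
  have hdz : bet e κ * ‖c - s‖ ≤ dz := c4.trans N.hdz
  have hr10 := N.r10
  have hcre : 0 < c.re := by
    have h2 : 0 < bet e κ * c.re := lt_of_lt_of_le hr10 hr1
    exact (pos_iff_pos_of_mul_pos h2).1 hβ
  have hx10 := N.x10
  have hx11 := N.x11
  -- position of c
  have homc : om κ x1 c := by
    apply om_of_rz he hκ hx10 hcre
    have h2 : Sz e κ c ≤ (e * Real.sinh κ) ^ 2 + yc ^ 2 := by
      unfold Sz
      rw [hbet, ← sq_abs (yz e κ c)]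
      have := pow_le_pow_left₀ (abs_nonneg _) hyc2 2
      linarith
    have h3 := N.hx1
    rw [div_le_iff₀ he] at h3 ⊢
    have h4 : x1 * (Sz e κ c + rz e κ c ^ 2) ≤
        x1 * ((e * Real.sinh κ) ^ 2 + yc ^ 2 + rz e κ c ^ 2) :=
      mul_le_mul_of_nonneg_left (by linarith) hx10
    have h5 : x1 * (rz e κ c + r1) ≤ 1 * e := by
      refine mul_le_mul hx11 ?_ (by linarith) (by norm_num)
      linarith [N.r2e]
    have h6 : 0 ≤ (rz e κ c - r1) * (e - x1 * (rz e κ c + r1)) :=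
      mul_nonneg (by linarith) (by linarith)
    have h7 : (rz e κ c - r1) * (e - x1 * (rz e κ c + r1)) =
        rz e κ c * e - x1 * rz e κ c ^ 2 - (r1 * e - x1 * r1 ^ 2) := by ring
    have h8 : x1 * ((e * Real.sinh κ) ^ 2 + yc ^ 2 + rz e κ c ^ 2) =
        x1 * ((e * Real.sinh κ) ^ 2 + yc ^ 2 + r1 ^ 2) + x1 * rz e κ c ^ 2 - x1 * r1 ^ 2 := by ring
    linarith
  have homs : om κ x1 s := om_mono hκ s5 hx11
  -- `S`
  have hSs : S0l ≤ Sz e κ s := by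
    refine N.hS0l.trans (le_of_eq ?_)
    unfold Sz
    rw [hbet, s4]
  have hS0 : 0 < S0l := by
    by_contra h
    push Not at h
    have h2 := N.hSl
    rw [Real.sqrt_eq_zero_of_nonpos h, div_zero, sub_zero, mul_one] at h2
    linarith [N.Sl0]
  have hsq0 : 0 < √S0l := Real.sqrt_pos.2 hS0
  have hS1 : Sl ≤ Sz e κ s * (1 - 2 * dz / √(Sz e κ s)) := by
    have hpos : 0 < Sz e κ s := lt_of_lt_of_le hS0 hSs
    have hsq1 : 0 < √(Sz e κ s) := Real.sqrt_pos.2 hpos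
    have h2 : √S0l ≤ √(Sz e κ s) := Real.sqrt_le_sqrt hSs
    have h3 : √S0l * √S0l = S0l := Real.mul_self_sqrt hS0.le
    have h4 : √(Sz e κ s) * √(Sz e κ s) = Sz e κ s := Real.mul_self_sqrt hpos.le
    have h5 : S0l * (1 - 2 * dz / √S0l) = √S0l * √S0l - 2 * dz * √S0l := by
      have : S0l * (1 - 2 * dz / √S0l) = (√S0l * √S0l) * (1 - 2 * dz / √S0l) := by rw [h3]
      rw [this]; field_simp
    have h6 : Sz e κ s * (1 - 2 * dz / √(Sz e κ s)) =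
        √(Sz e κ s) * √(Sz e κ s) - 2 * dz * √(Sz e κ s) := by
      have : Sz e κ s * (1 - 2 * dz / √(Sz e κ s)) =
        (√(Sz e κ s) * √(Sz e κ s)) * (1 - 2 * dz / √(Sz e κ s)) := by rw [h4]
      rw [this]; field_simp
    have h7 := N.hSl
    rw [h5] at h7
    rw [h6]
    have h8 := N.dzS
    have h9 : 0 ≤ (√(Sz e κ s) - √S0l) * (√(Sz e κ s) + √S0l - 2 * dz) :=
      mul_nonneg (by linarith) (by linarith)
    have h10 : (√(Sz e κ s) - √S0l) * (√(Sz e κ s) + √S0l - 2 * dz) =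
        √(Sz e κ s) * √(Sz e κ s) - 2 * dz * √(Sz e κ s) - (√S0l * √S0l - 2 * dz * √S0l) := by
      ring
    linarith
  refine ⟨H, hcre, hr1, hr2, hyc2, hdz, homc, fun z hz => ?_⟩
  obtain ⟨z1, l, m, hl, hm, hlm, hre, him⟩ := fc_seg hz
  have hz0 : 0 < z.re := re_segment s1 hcre hz
  have hE : bet e κ * ‖z - s‖ ≤ dz := (mul_le_mul_of_nonneg_left z1 hβ.le).trans hdz
  have hd := disp_z he hκ hE
  refine ⟨hz0, om_seg hκ hx10 s1 hcre homs homc hz, hS1.trans hd.2.2.1, ?_, ?_⟩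
  · have h2 : yz e κ z = l * yz e κ s + m * yz e κ c := by unfold yz; rw [him]; ring
    have hv0 := N.v0
    have hVe : 0 ≤ V / e := div_nonneg hV0 he.le
    have h3 : |yz e κ s| ≤ max v yc := by
      rw [s4, abs_of_nonneg (by positivity)]
      exact (div_le_self hv0 (by linarith)).trans (le_max_left _ _)
    have h4 : |yz e κ c| ≤ max v yc := hyc2.trans (le_max_right _ _)
    rw [h2]
    calc |l * yz e κ s + m * yz e κ c| ≤ |l * yz e κ s| + |m * yz e κ c| := abs_add_le _ _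
      _ = l * |yz e κ s| + m * |yz e κ c| := by
          rw [abs_mul, abs_mul, abs_of_nonneg hl, abs_of_nonneg hm]
      _ ≤ l * max v yc + m * max v yc := by gcongr
      _ = max v yc := by rw [← add_mul, hlm, one_mul]
  · have h2 : rz e κ z = l * rz e κ s + m * rz e κ c := by unfold rz; rw [hre]; ring
    have hVe : 0 ≤ V / e := div_nonneg hV0 he.le
    have hch : Real.cosh κ ≤ 201 / 200 := fc_cosh hκ hK1
    have h3 : rz e κ s ≤ 201 / 200 * V := by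
      rw [s3]
      refine (div_le_self (mul_nonneg (Real.cosh_pos _).le hV0) (by linarith)).trans ?_
      exact mul_le_mul_of_nonneg_right hch hV0
    have h4 : rz e κ s ≤ max r2 (201 / 200 * V) := h3.trans (le_max_right _ _)
    have h5 : rz e κ c ≤ max r2 (201 / 200 * V) := hr2.trans (le_max_left _ _)
    rw [h2]
    calc l * rz e κ s + m * rz e κ c ≤ l * max r2 (201 / 200 * V) + m * max r2 (201 / 200 * V) := by
          gcongr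
      _ = max r2 (201 / 200 * V) := by rw [← add_mul, hlm, one_mul]

/-- numbers -/
private theorem fg_num (he2 : 200 ≤ e)
    (N : FG e (Real.sinh κ) v V a lf0 lf1 lau lal gl F Gr G2 gt ft err dz r1 r2 yc x1 S0l Sl
      Ma Mb X u lx lu ΔG ΔF E RH)
    {S R : ℝ} (hR0 : 0 ≤ R) (hR : R ≤ RH)
    (hS : Sl * (1 - 2 * E / √Sl - 500 / e ^ 2) ≤ S) :
    R ≤ 10 * S / e ∧ R ^ 2 ≤ 9 / 10 * S := by
  have he : 0 < e := by linarith
  constructor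
  · refine hR.trans (N.h9.trans ?_)
    have h3 : 10 * (Sl / e * (1 - 2 * E / √Sl - 500 / e ^ 2)) =
      10 * (Sl * (1 - 2 * E / √Sl - 500 / e ^ 2)) / e := by ring
    rw [h3]
    apply div_le_div_of_nonneg_right _ he.le
    linarith
  · have h4 : R ^ 2 ≤ RH ^ 2 := pow_le_pow_left₀ hR0 hR 2
    linarith [N.h2]

/-- the segment `[s0, c]` and its image -/
theorem f_segA (he : 200 ≤ e) (hκ : 0 < κ) (hK : Real.sinh κ ≤ 1 / 40) (hyc : yc ≤ 10 / 3)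
    (hT : tanh (κ * pp) = t00 e κ v)
    (N : FG e (Real.sinh κ) v V a lf0 lf1 lau lal gl F Gr G2 gt ft err dz r1 r2 yc x1 S0l Sl
      Ma Mb X u lx lu ΔG ΔF E RH)
    (h0 : Real.log ‖fT e κ (shf κ (t00 e κ v))‖ ≤ lf0)
    (h1 : Real.log ‖fT e κ (shf κ (shf κ (t00 e κ v)))‖ ≤ lf1) :
    ∀ z ∈ segment ℝ (shf κ (t00 e κ v)) (nxc e κ pp (shf κ (t00 e κ v)) 0),
      PtG e κ x1 (max v yc) (Sl / e) ((√((e * Real.sinh κ) ^ 2 + v ^ 2) + dz) ^ 2 / e) RH z ∧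
      PtG e κ (x1 + 1) (max v yc) (Sl / e * (1 - 500 / e ^ 2))
        ((√((e * Real.sinh κ) ^ 2 + v ^ 2) + dz) ^ 2 / e) RH (shf κ z) := by
  have he2 := he
  obtain ⟨hFH0, hcre, hr1, hr2, hyc', hdz, hom, hseg⟩ := fg_cen he2 hκ hK hT N h0 h1
  obtain ⟨hVV, hV0, herr0, hdz0, hΔG0, hΔF0, -⟩ := fg_FH he2 hκ hK N h0 h1
  have hE0 := fg_E0 he2 hκ hK N h0 h1
  have he : 0 < e := by linarith
  have hK0 : 0 < Real.sinh κ := Real.sinh_pos_iff.2 hκ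
  have hβ : 0 < bet e κ := mul_pos he hK0
  have hVv : V = Vv e κ v := hVV.symm
  have hs0 := hFH0.hs
  obtain ⟨s, hsd⟩ : ∃ s, s = shf κ (t00 e κ v) := ⟨_, rfl⟩
  obtain ⟨g1, g2, g3, g4, -⟩ := s0_pos he hκ N.v0
  rw [← hsd] at hFH0 hcre hr1 hr2 hyc' hdz hom hseg hs0 h0 h1 g1 g2 g3 g4 ⊢
  obtain ⟨c, hcd⟩ : ∃ c, c = nxc e κ pp s 0 := ⟨_, rfl⟩
  rw [← hcd] at hcre hr1 hr2 hyc' hdz hom hseg ⊢
  have h500 := fc_500 he2
  have h500' : 0 ≤ 500 / e ^ 2 := by positivity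
  have hSl0 := N.Sl0
  have hSle : 0 < Sl / e := by positivity
  have hv0 := N.v0
  have hvp : v ≤ 10 / 3 := by
    have h2 := Real.pi_lt_d2
    have h3 := N.vπ
    norm_num at h2
    linarith
  have hmx : max v yc ≤ 10 / 3 := max_le hvp hyc
  have hRHr2 : r2 ≤ RH := by
    have h2 := N.hRH2
    have h3 : 0 ≤ (√((e * Real.sinh κ) ^ 2 + yc ^ 2) + dz + E) ^ 2 / e := by positivity
    linarith
  have hRHV : 201 / 200 * V ≤ RH := by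
    have h2 := N.hRH1
    have h3 : 0 ≤ (√((e * Real.sinh κ) ^ 2 + v ^ 2) + dz) ^ 2 / e := by positivity
    linarith
  have hEs : 0 ≤ 2 * E / √Sl := by positivity
  have hle1 : Sl * (1 - 500 / e ^ 2) ≤ Sl := by
    have : 0 ≤ Sl * (500 / e ^ 2) := by positivity
    nlinarith
  have hlow : Sl * (1 - 2 * E / √Sl - 500 / e ^ 2) ≤ Sl * (1 - 500 / e ^ 2) := by
    apply mul_le_mul_of_nonneg_left _ hSl0.le
    linarith
  intro z hz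
  obtain ⟨z1, z2, z3, z4, z5⟩ := hseg z hz
  have hrz : 0 ≤ rz e κ z := by unfold rz; positivity
  have hzRH : rz e κ z ≤ RH := z5.trans (max_le hRHr2 hRHV)
  obtain ⟨n1, n2⟩ := fg_num he2 N hrz hzRH (S := Sz e κ z) (by linarith)
  have hSs := (Sz_shf_ge2 he2 hκ hK z1 (z4.trans hmx) n1 n2).1
  have hSs2 : Sl * (1 - 500 / e ^ 2) ≤ Sz e κ (shf κ z) := by
    refine le_trans ?_ hSs
    have h4 := mul_le_mul_of_nonneg_left z3 h500.le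
    linarith
  -- distances
  have hds : bet e κ * ‖z - s‖ ≤ dz := by
    refine le_trans ?_ hdz
    apply mul_le_mul_of_nonneg_left _ hβ.le
    exact norm_sub_le_of_mem_segment hz
  have hdc : bet e κ * ‖z - c‖ ≤ dz := by
    refine le_trans ?_ hdz
    apply mul_le_mul_of_nonneg_left _ hβ.le
    rw [← norm_neg (c - s), neg_sub]
    rw [segment_symm] at hz
    exact norm_sub_le_of_mem_segment hz
  have d1 := (disp_z he hκ hds).2.2.2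
  have d2 := (disp_z he hκ hdc).2.2.2
  have hSz0 : 0 ≤ Sz e κ z := by unfold Sz; positivity
  have hsq := Real.sq_sqrt hSz0
  have hs1 : √(Sz e κ s) ≤ √((e * Real.sinh κ) ^ 2 + v ^ 2) := by
    apply Real.sqrt_le_sqrt
    unfold Sz
    have h5 : yz e κ s ≤ v := by
      rw [g4]
      apply div_le_self hv0
      have : 0 ≤ Vv e κ v / e := by rw [← hVv]; positivity
      linarith
    have h6 : 0 ≤ yz e κ s := by unfold yz; positivity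
    have h7 : yz e κ s ^ 2 ≤ v ^ 2 := pow_le_pow_left₀ h6 h5 2
    unfold bet
    linarith
  have hc1 : √(Sz e κ c) ≤ √((e * Real.sinh κ) ^ 2 + yc ^ 2) := by
    apply Real.sqrt_le_sqrt
    unfold Sz
    have h7 : yz e κ c ^ 2 ≤ yc ^ 2 := by
      rw [← sq_abs (yz e κ c)]
      exact pow_le_pow_left₀ (abs_nonneg _) hyc' 2
    unfold bet at h7 ⊢
    linarith
  have hi1 : Sz e κ z / e ≤ (√((e * Real.sinh κ) ^ 2 + v ^ 2) + dz) ^ 2 / e := by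
    have h5 : √(Sz e κ z) ≤ √((e * Real.sinh κ) ^ 2 + v ^ 2) + dz := by linarith
    have h6 : Sz e κ z ≤ (√((e * Real.sinh κ) ^ 2 + v ^ 2) + dz) ^ 2 := by
      rw [← hsq]
      exact pow_le_pow_left₀ (Real.sqrt_nonneg _) h5 2
    gcongr
  have hrs : rz e κ (shf κ z) ≤ RH := by
    have h4 := rz_shf_le he hκ z1
    rcases le_total r2 (201 / 200 * V) with h | h
    · rw [max_eq_right h] at z5
      linarith [N.hRH1]
    · rw [max_eq_left h] at z5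
      have h5 : √(Sz e κ z) ≤ √((e * Real.sinh κ) ^ 2 + yc ^ 2) + dz + E := by linarith
      have h6 : Sz e κ z ≤ (√((e * Real.sinh κ) ^ 2 + yc ^ 2) + dz + E) ^ 2 := by
        rw [← hsq]
        exact pow_le_pow_left₀ (Real.sqrt_nonneg _) h5 2
      have h7 : Sz e κ z / e ≤ (√((e * Real.sinh κ) ^ 2 + yc ^ 2) + dz + E) ^ 2 / e := by
        gcongr
      linarith [N.hRH2]
  have hs1 := shf_re hκ z1.le
  refine ⟨⟨z1, z2, z4, div_le_div_of_nonneg_right z3 he.le, hi1, hzRH⟩,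
    ⟨hs1, om_shf hκ z1 z2, (yz_shf_le he hκ z1).trans z4, ?_, ?_, hrs⟩⟩
  · have h5 : Sl / e * (1 - 500 / e ^ 2) = Sl * (1 - 500 / e ^ 2) / e := by ring
    rw [h5]
    exact div_le_div_of_nonneg_right hSs2 he.le
  · exact (div_le_div_of_nonneg_right (Sz_shf_le he hκ z1) he.le).trans hi1

/-- the segment `[c, shf c]` -/
theorem f_segC (he : 200 ≤ e) (hκ : 0 < κ) (hK : Real.sinh κ ≤ 1 / 40) (hyc : yc ≤ 10 / 3)
    (hT : tanh (κ * pp) = t00 e κ v)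
    (N : FG e (Real.sinh κ) v V a lf0 lf1 lau lal gl F Gr G2 gt ft err dz r1 r2 yc x1 S0l Sl
      Ma Mb X u lx lu ΔG ΔF E RH)
    (h0 : Real.log ‖fT e κ (shf κ (t00 e κ v))‖ ≤ lf0)
    (h1 : Real.log ‖fT e κ (shf κ (shf κ (t00 e κ v)))‖ ≤ lf1) :
    ∀ z ∈ segment ℝ (nxc e κ pp (shf κ (t00 e κ v)) 0)
      (shf κ (nxc e κ pp (shf κ (t00 e κ v)) 0)),
      PtG e κ x1 yc (Sl / e * (1 - 500 / e ^ 2)) (((e * Real.sinh κ) ^ 2 + yc ^ 2) / e) RH z := by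
  have he2 := he
  obtain ⟨hFH0, hcre, hr1, hr2, hyc', hdz, hom, hseg⟩ := fg_cen he2 hκ hK hT N h0 h1
  obtain ⟨hVV, hV0, herr0, hdz0, hΔG0, hΔF0, -⟩ := fg_FH he2 hκ hK N h0 h1
  have hE0 := fg_E0 he2 hκ hK N h0 h1
  have hcS := (hseg _ (right_mem_segment ℝ _ _)).2.2.1
  have he : 0 < e := by linarith
  have hK0 : 0 < Real.sinh κ := Real.sinh_pos_iff.2 hκ
  have hβ : 0 < bet e κ := mul_pos he hK0
  obtain ⟨c, hcd⟩ : ∃ c, c = nxc e κ pp (shf κ (t00 e κ v)) 0 := ⟨_, rfl⟩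
  rw [← hcd] at hcre hr1 hr2 hyc' hom hcS ⊢
  have h500 := fc_500 he2
  have h500' : 0 ≤ 500 / e ^ 2 := by positivity
  have hSl0 := N.Sl0
  have hEs : 0 ≤ 2 * E / √Sl := by positivity
  have hle1 : Sl * (1 - 500 / e ^ 2) ≤ Sl := by
    have : 0 ≤ Sl * (500 / e ^ 2) := by positivity
    nlinarith
  have hlow : Sl * (1 - 2 * E / √Sl - 500 / e ^ 2) ≤ Sl * (1 - 500 / e ^ 2) := by
    apply mul_le_mul_of_nonneg_left _ hSl0.le
    linarith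
  have hcc : Sz e κ c ≤ (e * Real.sinh κ) ^ 2 + yc ^ 2 := by
    unfold Sz
    have h7 : yz e κ c ^ 2 ≤ yc ^ 2 := by
      rw [← sq_abs (yz e κ c)]
      exact pow_le_pow_left₀ (abs_nonneg _) hyc' 2
    unfold bet at h7 ⊢
    linarith
  have hrz : 0 ≤ rz e κ c := by unfold rz; positivity
  have hsum : r2 + ((e * Real.sinh κ) ^ 2 + yc ^ 2) / e ≤ RH := by
    refine le_trans ?_ N.hRH2
    have h0 : 0 ≤ (e * Real.sinh κ) ^ 2 + yc ^ 2 := by positivity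
    have h3 : (e * Real.sinh κ) ^ 2 + yc ^ 2 ≤
        (√((e * Real.sinh κ) ^ 2 + yc ^ 2) + dz + E) ^ 2 := by
      calc (e * Real.sinh κ) ^ 2 + yc ^ 2 = √((e * Real.sinh κ) ^ 2 + yc ^ 2) ^ 2 :=
            (Real.sq_sqrt h0).symm
        _ ≤ _ := pow_le_pow_left₀ (Real.sqrt_nonneg _) (by linarith) 2
    have h4 := div_le_div_of_nonneg_right h3 he.le
    linarith
  have hce : 0 ≤ ((e * Real.sinh κ) ^ 2 + yc ^ 2) / e := by positivity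
  have hcRH : rz e κ c ≤ RH := by linarith
  obtain ⟨n1, n2⟩ := fg_num he2 N hrz hcRH (S := Sz e κ c) (by linarith)
  intro z hz
  obtain ⟨a1, a2, a3, a4, a5, a6⟩ := fg_seg_shf he2 hκ hK hcre (hyc'.trans hyc) n1 n2 N.x10 hom hz
  refine ⟨a1, a2, a3.trans hyc', ?_, ?_, ?_⟩
  · have h5 : Sl / e * (1 - 500 / e ^ 2) = (1 - 500 / e ^ 2) * Sl / e := by ring
    rw [h5]
    exact div_le_div_of_nonneg_right ((mul_le_mul_of_nonneg_left hcS h500.le).trans a4) he.le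
  · exact div_le_div_of_nonneg_right (a5.trans hcc) he.le
  · have h5 := div_le_div_of_nonneg_right hcc he.le
    linarith

/-- **The displacement.** -/
private theorem fg_d (he2 : 200 ≤ e) (hκ : 0 < κ) (hK : Real.sinh κ ≤ 1 / 40)
    (hT : tanh (κ * pp) = t00 e κ v)
    (N : FG e (Real.sinh κ) v V a lf0 lf1 lau lal gl F Gr G2 gt ft err dz r1 r2 yc x1 S0l Sl
      Ma Mb X u lx lu ΔG ΔF E RH)
    (h0 : Real.log ‖fT e κ (shf κ (t00 e κ v))‖ ≤ lf0)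
    (h1 : Real.log ‖fT e κ (shf κ (shf κ (t00 e κ v)))‖ ≤ lf1)
    (hMa : ∀ z ∈ segment ℝ (shf κ (t00 e κ v)) (nxc e κ pp (shf κ (t00 e κ v)) 0), MB e κ Ma z)
    (hMb : ∀ z ∈ segment ℝ (shf κ (t00 e κ v)) (nxc e κ pp (shf κ (t00 e κ v)) 0),
      MB e κ Mb (shf κ z))
    (hqc : ‖qq e κ (nxc e κ pp (shf κ (t00 e κ v)) 0)‖ ≤ u)
    {χ : ℂ} (hχ : ‖χ‖ ≤ X) :
    FH e κ v a (nxc e κ pp (shf κ (t00 e κ v)) 0) χ ∧
    ‖EQB.LF e κ (nxc e κ pp (shf κ (t00 e κ v)) 0) χ - EQB.LF e κ (shf κ (t00 e κ v)) 0‖ ≤ ΔF ∧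
    bet e κ * ‖nxc e κ pp (nxc e κ pp (shf κ (t00 e κ v)) 0) χ -
      nxc e κ pp (shf κ (t00 e κ v)) 0‖ ≤ E := by
  obtain ⟨hFH0, hcre, hr1, hr2, hyc', hdz, hom, hseg⟩ := fg_cen he2 hκ hK hT N h0 h1
  obtain ⟨hVV, hV0, herr0, hdz0, hΔG0, hΔF0, -, hgl, hGr, hLGn, hLFn⟩ := fg_FH he2 hκ hK N h0 h1
  have he : 0 < e := by linarith
  have hK1 : Real.sinh κ ≤ 1 / 10 := by linarith
  have hK0 : 0 < Real.sinh κ := Real.sinh_pos_iff.2 hκ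
  have hβ : 0 < bet e κ := mul_pos he hK0
  have hVv : V = Vv e κ v := hVV.symm
  have hs0 := hFH0.hs
  obtain ⟨s, hsd⟩ : ∃ s, s = shf κ (t00 e κ v) := ⟨_, rfl⟩
  rw [← hsd] at hFH0 hcre hr1 hr2 hyc' hdz hom hseg hs0 hMa hMb hLGn hLFn hqc ⊢
  obtain ⟨c, hcd⟩ : ∃ c, c = nxc e κ pp s 0 := ⟨_, rfl⟩
  rw [← hcd] at hcre hr1 hr2 hyc' hdz hom hseg hMa hMb hqc ⊢
  have hSl0 := N.Sl0
  have hSle : 0 < Sl / e := by positivity
  have hMa0 := N.Ma0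
  have hMb0 := N.Mb0
  have hu0 : 0 ≤ u := N.u0
  have hX0 := N.X0
  have hX1 := N.X1
  have huX : u * X ≤ X := mul_le_of_le_one_left hX0.le N.u1
  have hv0 := N.v0
  -- the differences
  have hlg := lg_sub he hκ hs0 hcre hMb
  have hlf := lf_sub he hκ hs0 hcre hMa
  have hlg' : ‖lg e κ c - lg e κ s‖ ≤ dz * (1 + Mb) := by
    refine hlg.trans ?_
    calc e * Real.sinh κ * (1 + Mb) * ‖c - s‖ = (1 + Mb) * (bet e κ * ‖c - s‖) := by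
          unfold bet; ring
      _ ≤ (1 + Mb) * dz := by gcongr
      _ = _ := by ring
  have hlf' : ‖log (fT e κ c) - log (fT e κ s)‖ ≤ dz * Ma := by
    refine hlf.trans ?_
    calc e * Real.sinh κ * Ma * ‖c - s‖ = Ma * (bet e κ * ‖c - s‖) := by
          unfold bet; ring
      _ ≤ Ma * dz := by gcongr
      _ = _ := by ring
  have hDG : ‖EQB.LG e κ c χ - EQB.LG e κ s 0‖ ≤ ΔG := by
    have e1 : EQB.LG e κ c χ - EQB.LG e κ s 0 = (lg e κ c - lg e κ s) + log (1 - χ) := by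
      unfold EQB.LG
      rw [sub_zero, log_one]
      ring
    rw [e1]
    exact ((norm_add_le _ _).trans (add_le_add hlg' (fg_log_sub hχ hX1 N.hlx))).trans N.hΔG
  have hqχ : ‖qq e κ c * χ‖ ≤ u * X := by
    rw [norm_mul]
    exact mul_le_mul hqc hχ (norm_nonneg _) hu0
  have hDF : ‖EQB.LF e κ c χ - EQB.LF e κ s 0‖ ≤ ΔF := by
    have e1 : EQB.LF e κ c χ - EQB.LF e κ s 0 =
        (log (fT e κ c) - log (fT e κ s)) + log (1 + qq e κ c * χ) := by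
      unfold EQB.LF
      rw [mul_zero, add_zero, log_one]
      ring
    rw [e1]
    exact ((norm_add_le _ _).trans (add_le_add hlf'
      (fg_log_add hqχ (by linarith) N.hlu))).trans N.hΔF
  have hFH : FH e κ v a c χ := by
    refine ⟨he2, hκ, hK1, hv0, hFH0.v1, hFH0.V1, N.a0, N.a1, hcre, hχ.trans_lt hX1, ?_, ?_⟩
    · have h2 : EQB.LG e κ c χ = EQB.LG e κ s 0 + (EQB.LG e κ c χ - EQB.LG e κ s 0) := by ring
      rw [h2]
      exact ((norm_add_le _ _).trans (add_le_add hLGn hDG)).trans N.haG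
    · have h2 : EQB.LF e κ c χ = EQB.LF e κ s 0 + (EQB.LF e κ c χ - EQB.LF e κ s 0) := by ring
      rw [h2]
      exact ((norm_add_le _ _).trans (add_le_add hLFn hDF)).trans N.haF
  refine ⟨hFH, hDF, ?_⟩
  have hT' : tanh (κ * pp) = ((v / bet e κ : ℝ) : ℂ) * I := hT
  have h2 := first_diff hFH0 hFH hT' hDG hDF
  rw [← hcd] at h2
  refine h2.trans ?_
  rw [← hVv]
  exact N.hE

end

/-- data of a displacement from `c` to `t` -/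
private structure DG (e κ Y r1 r2 yc x1 Sl E : ℝ) (c t : ℂ) : Prop where
  cre : 0 < c.re
  hr1 : r1 ≤ rz e κ c
  hr2 : rz e κ c ≤ r2
  hyc : |yz e κ c| ≤ yc
  hom : om κ x1 c
  hS : Sl ≤ Sz e κ c
  Sl0 : 0 < Sl
  hE : bet e κ * ‖t - c‖ ≤ E
  Er : E < r1
  Es : E < √Sl
  yE : yc + E ≤ Y

section

variable {e κ Y r1 r2 yc x1 Sl E RH d Λ0 y0 M1 u1 η a0 DP Vc : ℝ} {c t : ℂ}

private theorem DG.facts (he2 : 200 ≤ e) (hκ : 0 < κ) (D : DG e κ Y r1 r2 yc x1 Sl E c t) :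
    0 ≤ E ∧ 0 < t.re ∧ rz e κ t ≤ r2 + E ∧ |yz e κ t| ≤ yc + E ∧
      Sl * (1 - 2 * E / √Sl) ≤ Sz e κ t := by
  have he : 0 < e := by linarith
  have hK0 : 0 < Real.sinh κ := Real.sinh_pos_iff.2 hκ
  have hβ : 0 < bet e κ := mul_pos he hK0
  have hE := D.hE
  have hE0 : 0 ≤ E := le_trans (by positivity) hE
  obtain ⟨d1, d2, d3, d4⟩ := disp_z he hκ hE
  have h4 : |rz e κ t - rz e κ c| ≤ E := by
    have h5 : rz e κ t - rz e κ c = bet e κ * (t - c).re := by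
      unfold rz; rw [Complex.sub_re]; ring
    rw [h5, abs_mul, abs_of_pos hβ]
    exact (mul_le_mul_of_nonneg_left (Complex.abs_re_le_norm _) hβ.le).trans hE
  have h5 := (abs_le.1 h4).1
  have h6 : 0 < rz e κ t := by linarith [D.Er, D.hr1]
  refine ⟨hE0, (mul_pos_iff_of_pos_left hβ).1 h6, by linarith [D.hr2], by linarith [D.hyc], ?_⟩
  exact (S_mono D.Sl0 D.hS D.Es.le).trans d3

private theorem DG.step (he2 : 200 ≤ e) (hκ : 0 < κ) (hK : Real.sinh κ ≤ 1 / 40)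
    (D : DG e κ Y r1 r2 yc x1 Sl E c t)
    (d0 : 0 ≤ d) (d1 : d ≤ x1)
    (hd : e * E * Real.exp (2 * Real.sinh κ * x1) ≤
      (1 - Real.sinh κ ^ 2 / 6) * d * (√Sl * (√Sl - E)))
    (hΛ : r2 + E ≤ Λ0 * (Sl / e * (1 - 2 * E / √Sl))) (Λ00 : 0 ≤ Λ0) (hy0 : yc + E ≤ y0) :
    St e κ (x1 - d) Λ0 y0 t := by
  have he : 0 < e := by linarith
  obtain ⟨hE0, hre, hr, hy, hS⟩ := D.facts he2 hκ
  have hDp : √Sl ≤ bet e κ * ‖c + 1‖ :=
    (Real.sqrt_le_sqrt D.hS).trans (sqrtS_le (e := e) he hκ D.cre)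
  refine ⟨hre, ?_, by linarith, ?_⟩
  · exact om_disp he hκ (by linarith) D.cre hre D.hom D.hE hDp D.Es d0 (d0.trans d1) hd
  · refine hr.trans (hΛ.trans ?_)
    have h8 : Λ0 * Sz e κ t / e = Λ0 * (Sz e κ t / e) := by ring
    rw [h8]
    apply mul_le_mul_of_nonneg_left _ Λ00
    have h9 : Sl / e * (1 - 2 * E / √Sl) = Sl * (1 - 2 * E / √Sl) / e := by ring
    rw [h9]
    exact div_le_div_of_nonneg_right hS he.le

/-- the points of the segment -/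
private theorem DG.seg (he2 : 200 ≤ e) (hκ : 0 < κ) (hK : Real.sinh κ ≤ 1 / 40)
    (hY : Y ≤ 10 / 3) (D : DG e κ Y r1 r2 yc x1 Sl E c t)
    (hRH : r2 + E + (√((e * Real.sinh κ) ^ 2 + yc ^ 2) + E) ^ 2 / e ≤ RH)
    (h9 : RH ≤ 10 * (Sl / e * (1 - 2 * E / √Sl - 500 / e ^ 2)))
    (h2 : RH ^ 2 ≤ 9 / 10 * (Sl * (1 - 2 * E / √Sl - 500 / e ^ 2)))
    (hx : 0 ≤ x1 - d) (d0 : 0 ≤ d) (ht : om κ (x1 - d) t) {z : ℂ} (hz : z ∈ segment ℝ c t) :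
    PtG e κ (x1 + 1 - d) (yc + E) (Sl / e * (1 - 2 * E / √Sl - 500 / e ^ 2))
        ((√((e * Real.sinh κ) ^ 2 + yc ^ 2) + E) ^ 2 / e) RH (shf κ z) ∧
      rz e κ (shf κ z) ≤ 10 * Sz e κ (shf κ z) / e ∧
      rz e κ (shf κ z) ^ 2 ≤ 9 / 10 * Sz e κ (shf κ z) := by
  have he0 : 0 < e := by linarith
  have hK0 : 0 < Real.sinh κ := Real.sinh_pos_iff.2 hκ
  have hβ : 0 < bet e κ := mul_pos he0 hK0
  obtain ⟨hE0, hre, hr, hy, hS⟩ := D.facts he2 hκ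
  have hSl := D.Sl0
  have hsS : 0 < √Sl := Real.sqrt_pos.2 hSl
  have hz0 : 0 < z.re := re_segment D.cre hre hz
  have hzE : bet e κ * ‖z - c‖ ≤ E := by
    refine le_trans (mul_le_mul_of_nonneg_left ?_ hβ.le) D.hE
    exact norm_sub_le_of_mem_segment hz
  have hzo : om κ (x1 - d) z :=
    om_seg hκ hx D.cre hre (om_mono hκ D.hom (by linarith)) ht hz
  obtain ⟨d1, d2, d3, d4⟩ := disp_z he0 hκ hzE
  have d3' : Sl * (1 - 2 * E / √Sl) ≤ Sz e κ z := (S_mono hSl D.hS D.Es.le).trans d3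
  have hSc : √(Sz e κ c) ≤ √((e * Real.sinh κ) ^ 2 + yc ^ 2) := by
    apply Real.sqrt_le_sqrt
    unfold Sz
    have h3 : yz e κ c ^ 2 ≤ yc ^ 2 := by
      rw [← sq_abs (yz e κ c)]
      exact pow_le_pow_left₀ (abs_nonneg _) D.hyc 2
    have h4 : bet e κ = e * Real.sinh κ := rfl
    rw [h4]
    linarith
  have d4' : √(Sz e κ z) ≤ √((e * Real.sinh κ) ^ 2 + yc ^ 2) + E := by linarith
  obtain ⟨R, hR⟩ : ∃ R, R = √((e * Real.sinh κ) ^ 2 + yc ^ 2) := ⟨_, rfl⟩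
  rw [← hR] at d4' hRH hSc ⊢
  have hR0 : 0 ≤ (R + E) ^ 2 / e := by positivity
  have hrz : rz e κ z ≤ RH := by linarith [D.hr2]
  have hrz0 : 0 ≤ rz e κ z := by unfold rz; positivity
  have hSz0 : 0 ≤ Sz e κ z := by unfold Sz; positivity
  have h450 : 0 ≤ 500 / e ^ 2 := by positivity
  have hlow : Sl * (1 - 2 * E / √Sl - 500 / e ^ 2) ≤ Sz e κ z := by
    have h3 : Sl * (1 - 2 * E / √Sl - 500 / e ^ 2) =
      Sl * (1 - 2 * E / √Sl) - Sl * (500 / e ^ 2) := by ring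
    rw [h3]
    have := mul_nonneg hSl.le h450
    linarith
  have hyz : |yz e κ z| ≤ yc + E := by linarith [D.hyc]
  have h9' : ∀ {W : ℝ}, Sl * (1 - 2 * E / √Sl - 500 / e ^ 2) ≤ W → RH ≤ 10 * W / e := by
    intro W hW
    refine h9.trans ?_
    have h3 : 10 * (Sl / e * (1 - 2 * E / √Sl - 500 / e ^ 2)) =
      10 * (Sl * (1 - 2 * E / √Sl - 500 / e ^ 2)) / e := by ring
    rw [h3]
    apply div_le_div_of_nonneg_right _ he0.le
    linarith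
  have h2' : rz e κ z ^ 2 ≤ 9 / 10 * Sz e κ z := by
    have h4 : rz e κ z ^ 2 ≤ RH ^ 2 := pow_le_pow_left₀ hrz0 hrz 2
    linarith
  obtain ⟨g1, -⟩ := Sz_shf_ge2 he2 hκ hK hz0 ((hyz.trans D.yE).trans hY)
    (hrz.trans (h9' hlow)) h2'
  have hlow2 : Sl * (1 - 2 * E / √Sl - 500 / e ^ 2) ≤ Sz e κ (shf κ z) := by
    refine le_trans ?_ g1
    have h5 : 0 ≤ 1 - 500 / e ^ 2 := (fc_500 he2).le
    have h6 := mul_le_mul_of_nonneg_left d3' h5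
    have h7 : (1 - 500 / e ^ 2) * (Sl * (1 - 2 * E / √Sl)) =
      Sl * (1 - 2 * E / √Sl - 500 / e ^ 2) + Sl * (500 / e ^ 2 * (2 * E / √Sl)) := by ring
    have h8 : 0 ≤ Sl * (500 / e ^ 2 * (2 * E / √Sl)) := by positivity
    linarith
  have h6 : Sz e κ z / e ≤ (R + E) ^ 2 / e := by
    apply div_le_div_of_nonneg_right _ he0.le
    have h7 : Sz e κ z = √(Sz e κ z) ^ 2 := (Real.sq_sqrt hSz0).symm
    rw [h7]
    exact pow_le_pow_left₀ (Real.sqrt_nonneg _) d4' 2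
  have hrs : rz e κ (shf κ z) ≤ RH := by
    have h5 := rz_shf_le (e := e) he0 hκ hz0
    linarith [D.hr2]
  have hsz := shf_re hκ hz0.le
  have hrs0 : 0 ≤ rz e κ (shf κ z) := by unfold rz; positivity
  refine ⟨⟨hsz, ?_, (yz_shf_le he0 hκ hz0).trans hyz, ?_, ?_, hrs⟩, hrs.trans (h9' hlow2), ?_⟩
  · have h5 := om_shf hκ hz0 hzo
    have h6 : x1 - d + 1 = x1 + 1 - d := by ring
    rwa [h6] at h5
  · have h5 : Sl / e * (1 - 2 * E / √Sl - 500 / e ^ 2) =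
      Sl * (1 - 2 * E / √Sl - 500 / e ^ 2) / e := by ring
    rw [h5]
    exact div_le_div_of_nonneg_right hlow2 he0.le
  · exact (div_le_div_of_nonneg_right (Sz_shf_le he0 hκ hz0) he0.le).trans h6
  · have h4 : rz e κ (shf κ z) ^ 2 ≤ RH ^ 2 := pow_le_pow_left₀ hrs0 hrs 2
    linarith

/-- closing, from the bounds on the segment -/
private theorem DG.close (he2 : 200 ≤ e) (hκ : 0 < κ) (D : DG e κ Y r1 r2 yc x1 Sl E c t)
    (hM10 : 0 ≤ M1) (hMB : ∀ z ∈ segment ℝ c t, MB e κ M1 (shf κ z))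
    (hqq : ‖qq e κ (shf κ t)‖ ≤ u1) (hη : Real.exp (E * (1 + M1)) ≤ η) (a00 : 0 ≤ a0)
    (DP0 : 0 ≤ DP)
    (hDP : (e * Real.sinh κ) ^ 2 + yc ^ 2 + r2 ^ 2 + 2 * (e * Real.sinh κ) * r2 ≤ DP ^ 2)
    (hVc : ((e * Real.sinh κ) ^ 2 + yc ^ 2 + r2 ^ 2) / e ≤ Vc) (r10 : 0 < r1) {X : ℝ}
    (hcl : (η - 1) + η * (u1 * (a0 * (4 / (4 + e * Real.sinh κ)))) * (DP + Vc + E) <
      (1 - Real.sinh κ / 1024) * X) {χ' : ℂ}
    (hχ' : ‖χ'‖ ≤ a0 * (4 / (4 + bet e κ)) * (bet e κ * ‖shf κ t + 1‖)) :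
    ‖1 - (1 - fT e κ t) / (1 - fT e κ c) * (1 + qq e κ (shf κ t) * χ')‖ <
      (1 - Real.sinh κ / 1024) * X := by
  have he0 : 0 < e := by linarith
  have hK0 : 0 < Real.sinh κ := Real.sinh_pos_iff.2 hκ
  have hβ : 0 < bet e κ := mul_pos he0 hK0
  have hbe : bet e κ = e * Real.sinh κ := rfl
  obtain ⟨hE0, hre, hr, hy, hS⟩ := D.facts he2 hκ
  have hc := D.cre
  have hη0 : Real.sinh κ * ‖t - c‖ ≤ E / e := by
    rw [le_div_iff₀ he0]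
    have : Real.sinh κ * ‖t - c‖ * e = bet e κ * ‖t - c‖ := by unfold bet; ring
    linarith [D.hE]
  have hlg := lg_disp he0 hκ hc hre hη0 hM10 hMB
  have hlg' : ‖lg e κ t - lg e κ c‖ ≤ E * (1 + M1) := by
    refine hlg.trans (le_of_eq ?_)
    field_simp
  have hcl' := close_key he0 hκ hc hre hlg' hqq hχ'
  have hη1 : 1 ≤ η := by
    refine le_trans ?_ hη
    apply Real.one_le_exp
    positivity
  have hu10 : 0 ≤ u1 := (norm_nonneg _).trans hqq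
  obtain ⟨g, hg⟩ : ∃ g, g = 4 / (4 + bet e κ) := ⟨_, rfl⟩
  have hg0 : 0 < g := by rw [hg]; positivity
  have hrc0 : 0 ≤ rz e κ c := r10.le.trans D.hr1
  have h6 : rz e κ c ^ 2 ≤ r2 ^ 2 := pow_le_pow_left₀ hrc0 D.hr2 2
  have h7 : yz e κ c ^ 2 ≤ yc ^ 2 := by
    rw [← sq_abs (yz e κ c)]
    exact pow_le_pow_left₀ (abs_nonneg _) D.hyc 2
  have hScc : Sz e κ c ≤ (e * Real.sinh κ) ^ 2 + yc ^ 2 := by
    unfold Sz
    rw [hbe]
    linarith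
  have hc1 : bet e κ * ‖c + 1‖ ≤ DP := by
    apply le_of_sq_le_sq _ DP0
    rw [(bs_sq e κ c).2.1]
    refine le_trans ?_ hDP
    have h8 : bet e κ * rz e κ c ≤ bet e κ * r2 := mul_le_mul_of_nonneg_left D.hr2 hβ.le
    rw [hbe] at h8 ⊢
    linarith
  have hD1 : bet e κ * ‖shf κ t + 1‖ ≤ DP + Vc + E := by
    have h4 : shf κ t + 1 = (c + 1) + (shf κ c - c) + (shf κ t - shf κ c) := by ring
    have h5 : ‖shf κ t + 1‖ ≤ ‖c + 1‖ + ‖shf κ c - c‖ + ‖shf κ t - shf κ c‖ := by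
      rw [h4]; exact norm_add₃_le
    have h8 := shf_disp (e := e) he0 hκ hc hre
    have h9 : bet e κ * ‖shf κ c - c‖ ≤ Vc := by
      refine (shf_sub_le he0 hκ hc).trans (le_trans ?_ hVc)
      apply div_le_div_of_nonneg_right _ he0.le
      linarith
    have h10 := mul_le_mul_of_nonneg_left h5 hβ.le
    have h11 : bet e κ * ‖shf κ t - shf κ c‖ ≤ E :=
      (mul_le_mul_of_nonneg_left h8 hβ.le).trans D.hE
    rw [mul_add, mul_add] at h10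
    linarith
  rw [← hg] at hcl'
  rw [← hbe, ← hg] at hcl
  refine lt_of_le_of_lt (hcl'.trans ?_) hcl
  have h4 : u1 * (a0 * g * (bet e κ * ‖shf κ t + 1‖)) ≤ u1 * (a0 * g) * (DP + Vc + E) := by
    rw [mul_assoc u1]
    apply mul_le_mul_of_nonneg_left _ hu10
    exact mul_le_mul_of_nonneg_left hD1 (mul_nonneg a00 hg0.le)
  have h5 : 0 ≤ u1 * (a0 * g * (bet e κ * ‖shf κ t + 1‖)) := by positivity
  have h8 := mul_le_mul hη h4 h5 (by linarith : 0 ≤ η)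
  have h9 : η * (u1 * (a0 * g)) * (DP + Vc + E) = η * (u1 * (a0 * g) * (DP + Vc + E)) := by ring
  rw [h9]
  linarith

end

section

variable {e κ v V a lf0 lf1 lau lal gl F Gr G2 gt ft err dz r1 r2 yc x1 S0l Sl Ma Mb X u lx lu ΔG ΔF
  E RH : ℝ} {pp : ℂ}

variable {d Λ0 y0 M1 u1 η a0 DP Vc : ℝ}

private theorem fg_DG (he2 : 200 ≤ e) (hκ : 0 < κ) (hK : Real.sinh κ ≤ 1 / 40)
    (hyE : yc + E ≤ 10 / 3) (hT : tanh (κ * pp) = t00 e κ v)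
    (N : FG e (Real.sinh κ) v V a lf0 lf1 lau lal gl F Gr G2 gt ft err dz r1 r2 yc x1 S0l Sl
      Ma Mb X u lx lu ΔG ΔF E RH)
    (Er : E < r1)
    (h0 : Real.log ‖fT e κ (shf κ (t00 e κ v))‖ ≤ lf0)
    (h1 : Real.log ‖fT e κ (shf κ (shf κ (t00 e κ v)))‖ ≤ lf1)
    (hMa : ∀ z ∈ segment ℝ (shf κ (t00 e κ v)) (nxc e κ pp (shf κ (t00 e κ v)) 0), MB e κ Ma z)
    (hMb : ∀ z ∈ segment ℝ (shf κ (t00 e κ v)) (nxc e κ pp (shf κ (t00 e κ v)) 0),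
      MB e κ Mb (shf κ z))
    (hqc : ‖qq e κ (nxc e κ pp (shf κ (t00 e κ v)) 0)‖ ≤ u)
    {χ : ℂ} (hχ : ‖χ‖ ≤ X) :
    DG e κ (10 / 3) r1 r2 yc x1 Sl E (nxc e κ pp (shf κ (t00 e κ v)) 0)
      (nxc e κ pp (nxc e κ pp (shf κ (t00 e κ v)) 0) χ) := by
  obtain ⟨hFH0, hcre, hr1, hr2, hyc', hdz, hom, hseg⟩ := fg_cen he2 hκ hK hT N h0 h1
  obtain ⟨-, -, hE⟩ := fg_d he2 hκ hK hT N h0 h1 hMa hMb hqc hχ
  exact ⟨hcre, hr1, hr2, hyc', hom, (hseg _ (right_mem_segment ℝ _ _)).2.2.1, N.Sl0, hE, Er, N.Es,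
    hyE⟩

/-- the points `shf z`, `z ∈ [c, τ1]`, and the segment `[shf τ1, shf (shf τ1)]` -/
theorem f_segD (he : 200 ≤ e) (hκ : 0 < κ) (hK : Real.sinh κ ≤ 1 / 40) (hyc : yc + E ≤ 10 / 3)
    (hT : tanh (κ * pp) = t00 e κ v)
    (N : FG e (Real.sinh κ) v V a lf0 lf1 lau lal gl F Gr G2 gt ft err dz r1 r2 yc x1 S0l Sl
      Ma Mb X u lx lu ΔG ΔF E RH)
    (N2 : FG2 e (Real.sinh κ) V r1 r2 yc x1 Sl X E d Λ0 y0 M1 u1 η a0 DP Vc)
    (h0 : Real.log ‖fT e κ (shf κ (t00 e κ v))‖ ≤ lf0)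
    (h1 : Real.log ‖fT e κ (shf κ (shf κ (t00 e κ v)))‖ ≤ lf1)
    (hMa : ∀ z ∈ segment ℝ (shf κ (t00 e κ v)) (nxc e κ pp (shf κ (t00 e κ v)) 0), MB e κ Ma z)
    (hMb : ∀ z ∈ segment ℝ (shf κ (t00 e κ v)) (nxc e κ pp (shf κ (t00 e κ v)) 0),
      MB e κ Mb (shf κ z))
    (hu : ‖qq e κ (nxc e κ pp (shf κ (t00 e κ v)) 0)‖ ≤ u) {χ : ℂ} (hχ : ‖χ‖ ≤ X) :
    (∀ z ∈ segment ℝ (nxc e κ pp (shf κ (t00 e κ v)) 0)
        (nxc e κ pp (nxc e κ pp (shf κ (t00 e κ v)) 0) χ),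
      PtG e κ (x1 + 1 - d) (yc + E) (Sl / e * (1 - 2 * E / √Sl - 500 / e ^ 2))
        ((√((e * Real.sinh κ) ^ 2 + yc ^ 2) + E) ^ 2 / e) RH (shf κ z)) ∧
    ∀ z ∈ segment ℝ (shf κ (nxc e κ pp (nxc e κ pp (shf κ (t00 e κ v)) 0) χ))
        (shf κ (shf κ (nxc e κ pp (nxc e κ pp (shf κ (t00 e κ v)) 0) χ))),
      PtG e κ (x1 + 1 - d) (yc + E) (Sl / e * (1 - 2 * E / √Sl - 500 / e ^ 2) * (1 - 500 / e ^ 2))
        ((√((e * Real.sinh κ) ^ 2 + yc ^ 2) + E) ^ 2 / e)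
        (RH + (√((e * Real.sinh κ) ^ 2 + yc ^ 2) + E) ^ 2 / e) z := by
  have D := fg_DG he hκ hK hyc hT N N2.Er h0 h1 hMa hMb hu hχ
  have hst := D.step he hκ hK N2.d0 N2.d1 N2.hd N2.hΛ N2.Λ00 N2.hy0
  have he0 : 0 < e := by linarith
  obtain ⟨-, -, -, hdz0, -⟩ := fg_FH he hκ hK N h0 h1
  obtain ⟨hE0, hre, -⟩ := D.facts he hκ
  have hRH : r2 + E + (√((e * Real.sinh κ) ^ 2 + yc ^ 2) + E) ^ 2 / e ≤ RH := by
    refine le_trans ?_ N.hRH2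
    have h3 : (√((e * Real.sinh κ) ^ 2 + yc ^ 2) + E) ^ 2 ≤
        (√((e * Real.sinh κ) ^ 2 + yc ^ 2) + dz + E) ^ 2 :=
      pow_le_pow_left₀ (by positivity) (by linarith) 2
    have h4 := div_le_div_of_nonneg_right h3 he0.le
    linarith
  have hx : 0 ≤ x1 - d := by linarith [N2.d1]
  have hx1 : 0 ≤ x1 + 1 - d := by linarith [N2.d1]
  have hsg := fun {z : ℂ} hz => D.seg he hκ hK le_rfl hRH N.h9 N.h2 hx N2.d0 hst.om (z := z) hz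
  refine ⟨fun z hz => (hsg hz).1, fun z hz => ?_⟩
  obtain ⟨P, q1, q2⟩ := hsg (right_mem_segment ℝ _ _)
  obtain ⟨a1, a2, a3, a4, a5, a6⟩ := fg_seg_shf he hκ hK P.re (P.y.trans hyc) q1 q2 hx1 P.om hz
  have h500 := fc_500 he
  refine ⟨a1, a2, a3.trans P.y, ?_, ?_, ?_⟩
  · have h5 := mul_le_mul_of_nonneg_left P.lo h500.le
    have h6 := div_le_div_of_nonneg_right a4 he0.le
    rw [mul_div_assoc] at h6
    linarith
  · exact (div_le_div_of_nonneg_right a5 he0.le).trans P.hi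
  · exact a6.trans (add_le_add P.r P.hi)

/-- **The first node.** -/
theorem first_all_g (he : 200 ≤ e) (hκ : 0 < κ) (hK : Real.sinh κ ≤ 1 / 40) (hyc : yc + E ≤ 10 / 3)
    (hT : tanh (κ * pp) = t00 e κ v)
    (N : FG e (Real.sinh κ) v V a lf0 lf1 lau lal gl F Gr G2 gt ft err dz r1 r2 yc x1 S0l Sl
      Ma Mb X u lx lu ΔG ΔF E RH)
    (N2 : FG2 e (Real.sinh κ) V r1 r2 yc x1 Sl X E d Λ0 y0 M1 u1 η a0 DP Vc)
    (h0 : Real.log ‖fT e κ (shf κ (t00 e κ v))‖ ≤ lf0)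
    (h1 : Real.log ‖fT e κ (shf κ (shf κ (t00 e κ v)))‖ ≤ lf1)
    (hMa : ∀ z ∈ segment ℝ (shf κ (t00 e κ v)) (nxc e κ pp (shf κ (t00 e κ v)) 0), MB e κ Ma z)
    (hMb : ∀ z ∈ segment ℝ (shf κ (t00 e κ v)) (nxc e κ pp (shf κ (t00 e κ v)) 0),
      MB e κ Mb (shf κ z))
    (hu : ‖qq e κ (nxc e κ pp (shf κ (t00 e κ v)) 0)‖ ≤ u)
    (hM1 : ∀ χ : ℂ, ‖χ‖ ≤ X → ∀ z ∈ segment ℝ (nxc e κ pp (shf κ (t00 e κ v)) 0)
      (nxc e κ pp (nxc e κ pp (shf κ (t00 e κ v)) 0) χ), MB e κ M1 (shf κ z))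
    (hu1 : ∀ χ : ℂ, ‖χ‖ ≤ X →
      ‖qq e κ (shf κ (nxc e κ pp (nxc e κ pp (shf κ (t00 e κ v)) 0) χ))‖ ≤ u1) :
    0 < (nxc e κ pp (shf κ (t00 e κ v)) 0).re ∧ om κ x1 (nxc e κ pp (shf κ (t00 e κ v)) 0) ∧
    ∀ χ : ℂ, ‖χ‖ ≤ X →
      FH e κ v a (nxc e κ pp (shf κ (t00 e κ v)) 0) χ ∧
      ‖EQB.LF e κ (nxc e κ pp (shf κ (t00 e κ v)) 0) χ - EQB.LF e κ (shf κ (t00 e κ v)) 0‖ ≤ ΔF ∧
      St e κ (x1 - d) Λ0 y0 (nxc e κ pp (nxc e κ pp (shf κ (t00 e κ v)) 0) χ) ∧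
      ∀ χ' : ℂ, ‖χ'‖ ≤ a0 * (4 / (4 + bet e κ)) *
          (bet e κ * ‖shf κ (nxc e κ pp (nxc e κ pp (shf κ (t00 e κ v)) 0) χ) + 1‖) →
        ‖1 - (1 - fT e κ (nxc e κ pp (nxc e κ pp (shf κ (t00 e κ v)) 0) χ)) /
            (1 - fT e κ (nxc e κ pp (shf κ (t00 e κ v)) 0)) *
          (1 + qq e κ (shf κ (nxc e κ pp (nxc e κ pp (shf κ (t00 e κ v)) 0) χ)) * χ')‖ <
          (1 - Real.sinh κ / 1024) * X := by
  obtain ⟨-, hcre, -, -, -, -, hom, -⟩ := fg_cen he hκ hK hT N h0 h1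
  refine ⟨hcre, hom, fun χ hχ => ?_⟩
  obtain ⟨hF, hL, -⟩ := fg_d he hκ hK hT N h0 h1 hMa hMb hu hχ
  have D := fg_DG he hκ hK hyc hT N N2.Er h0 h1 hMa hMb hu hχ
  refine ⟨hF, hL, D.step he hκ hK N2.d0 N2.d1 N2.hd N2.hΛ N2.Λ00 N2.hy0, fun χ' hχ' => ?_⟩
  exact D.close he hκ N2.M10 (hM1 χ hχ) (hu1 χ hχ) N2.hη N2.a00 N2.DP0 N2.hDP N2.hVc N.r10
    N2.hcl hχ'

end

end Pool.Agent.helper31.A2
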