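import Pool.Agent.helper31.A2.T2D

/-!
# A2: fixed point numbers, `exp_disc`
-/

namespace Pool.Agent.helper31.A2

open Complex ComplexConjugate Set Filter Topology
open Pool.Agent.helper31.EQ.Y Pool.Agent.helper31.EQ.R
open Pool.Agent.helper12.EQL Pool.Agent.helper12.RP Pool.Agent.helper12.FF
open Pool.Agent.helper63.FF
open Pool.Agent.helper31.EQB

theorem ml_eq (a b : ℕ) : ml a b = a * b / 2 ^ 28 := Nat.shiftRight_eq_div_pow _ _
theorem mu_eq (a b : ℕ) : mu a b = a * b / 2 ^ 28 + 1 := by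
  change Nat.succ ((a * b) >>> 28) = _
  rw [Nat.shiftRight_eq_div_pow]
theorem mi_eq (a b : ℤ) : mi a b = a * b / 2 ^ 28 := by
  have h : mi a b = (a * b) >>> (28 : ℕ) := rfl
  rw [h, Int.shiftRight_eq_div_pow]
  norm_num

theorem vn_mu (a b : ℕ) : vn a * vn b ≤ vn (mu a b) := by
  rw [mu_eq]
  unfold vn
  have h : a * b < 2 ^ 28 * (a * b / 2 ^ 28 + 1) := Nat.lt_mul_div_succ _ (by norm_num)
  have h' : (a : ℝ) * b ≤ 2 ^ 28 * ((a * b / 2 ^ 28 + 1 : ℕ) : ℝ) := by exact_mod_cast h.le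
  rw [div_mul_div_comm, div_le_div_iff₀ (by positivity) (by positivity)]
  nlinarith

theorem vn_ml (a b : ℕ) : vn (ml a b) ≤ vn a * vn b := by
  rw [ml_eq]
  unfold vn
  have h : a * b / 2 ^ 28 * 2 ^ 28 ≤ a * b := Nat.div_mul_le_self _ _
  have h' : ((a * b / 2 ^ 28 : ℕ) : ℝ) * 2 ^ 28 ≤ a * b := by exact_mod_cast h
  rw [div_mul_div_comm, div_le_div_iff₀ (by positivity) (by positivity)]
  nlinarith

theorem vi_mi (a b : ℤ) : vi (mi a b) ≤ vi a * vi b ∧ vi a * vi b ≤ vi (mi a b) + 1 / 2 ^ 28 := by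
  rw [mi_eq]
  unfold vi
  have h1 : a * b / 2 ^ 28 * 2 ^ 28 ≤ a * b := Int.ediv_mul_le _ (by norm_num)
  have h2 : a * b < (a * b / 2 ^ 28 + 1) * 2 ^ 28 := Int.lt_ediv_add_one_mul_self _ (by norm_num)
  have h1' : ((a * b / 2 ^ 28 : ℤ) : ℝ) * 2 ^ 28 ≤ a * b := by exact_mod_cast h1
  have h2' : (a : ℝ) * b ≤ (((a * b / 2 ^ 28 : ℤ) : ℝ) + 1) * 2 ^ 28 := by exact_mod_cast h2.le
  constructor
  · rw [div_mul_div_comm, div_le_div_iff₀ (by positivity) (by positivity)]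
    nlinarith
  · rw [div_mul_div_comm, ← add_div, div_le_div_iff₀ (by positivity) (by positivity)]
    nlinarith

theorem nrm_ge (a b g : ℕ) (hg : 0 < g) :
    √((a : ℝ) ^ 2 + (b : ℝ) ^ 2) ≤ ((g + (a * a + b * b) / g) / 2 + 1 : ℕ) := by
  set S := a * a + b * b with hS
  set q := S / g with hq
  set r := (g + q) / 2 with hr
  have h1 : S < g * (q + 1) := Nat.lt_mul_div_succ _ hg
  have h2 : g + q < 2 * (r + 1) := Nat.lt_mul_div_succ _ (by norm_num)
  have h1' : (a : ℝ) ^ 2 + (b : ℝ) ^ 2 ≤ g * (q + 1) := by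
    have : (S : ℝ) ≤ (g * (q + 1) : ℕ) := by exact_mod_cast h1.le
    rw [hS] at this
    push_cast at this
    nlinarith
  have h2' : (g : ℝ) + q + 1 ≤ 2 * (r + 1) := by exact_mod_cast h2
  have hg' : (0 : ℝ) < g := by exact_mod_cast hg
  have hq' : (0 : ℝ) ≤ q := by positivity
  apply Real.sqrt_le_iff.mpr
  constructor
  · positivity
  · push_cast
    have : (g : ℝ) * (q + 1) ≤ ((g + (q + 1)) / 2) ^ 2 := by nlinarith [sq_nonneg ((g : ℝ) - (q + 1))]
    have h3 : ((g : ℝ) + (q + 1)) / 2 ≤ (r : ℝ) + 1 := by linarith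
    have h4 : (((g : ℝ) + (q + 1)) / 2) ^ 2 ≤ ((r : ℝ) + 1) ^ 2 := by
      apply pow_le_pow_left₀ (by positivity) h3
    linarith

theorem vn_nrm (a b : ℕ) : √(vn a ^ 2 + vn b ^ 2) ≤ vn (nrm a b) := by
  have key : √((a : ℝ) ^ 2 + (b : ℝ) ^ 2) ≤ (nrm a b : ℕ) := by
    unfold nrm
    set g := Nat.succ (Nat.shiftRight (bif Nat.ble a b then Nat.add (Nat.mul 123 b) (Nat.mul 51 a)
      else Nat.add (Nat.mul 123 a) (Nat.mul 51 b)) 7) with hg
    have h := nrm_ge a b g (Nat.succ_pos _)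
    refine h.trans (le_of_eq ?_)
    congr 1
  unfold vn
  rw [div_pow, div_pow, ← add_div, Real.sqrt_div' _ (by positivity),
    Real.sqrt_sq (by positivity)]
  gcongr

theorem exp_disc {x y dL dp rho : ℝ} (hx : |x| ≤ dL) (hL : dL ≤ 1 / 2) (hy : |y| ≤ dp)
    (hr : √(dL ^ 2 + dp ^ 2) ≤ rho) :
    ‖cexp (x + y * I) - 1‖ ≤ rho * (1 + dL / 2 + dL ^ 2 / 4) := by
  have hdL : 0 ≤ dL := (abs_nonneg x).trans hx
  have hdp : 0 ≤ dp := (abs_nonneg y).trans hy
  have hrho : 0 ≤ rho := (Real.sqrt_nonneg _).trans hr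
  have hrho2 : dL ^ 2 + dp ^ 2 ≤ rho ^ 2 := by
    have := Real.sqrt_le_left hrho |>.mp hr
    exact this
  set A := 1 + dL / 2 + dL ^ 2 / 4 with hA
  have hA0 : 0 ≤ A := by rw [hA]; positivity
  have hnorm : ‖cexp (x + y * I) - 1‖ ^ 2 =
      (Real.exp x - 1) ^ 2 + 2 * Real.exp x * (1 - Real.cos y) := by
    rw [Complex.sq_norm, Complex.normSq_apply]
    have hre : (cexp (x + y * I) - 1).re = Real.exp x * Real.cos y - 1 := by
      simp [Complex.exp_re]
    have him : (cexp (x + y * I) - 1).im = Real.exp x * Real.sin y := by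
      simp [Complex.exp_im]
    rw [hre, him]
    have := Real.sin_sq_add_cos_sq y
    linear_combination (Real.exp x ^ 2) * this
  have hx2 : x ≤ dL := (le_abs_self x).trans hx
  have hx3 : -x ≤ dL := (neg_le_abs x).trans hx
  -- exp x ≤ A ^ 2
  have hexp2 : Real.exp (dL / 2) ≤ A := by
    have h := Real.abs_exp_sub_one_sub_id_le (x := dL / 2) (by rw [abs_of_nonneg (by positivity)]; linarith)
    have h2 := (abs_le.mp h).2
    rw [hA]; nlinarith
  have hexp : Real.exp x ≤ A ^ 2 := by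
    have h : Real.exp x ≤ Real.exp (dL / 2) ^ 2 := by
      rw [← Real.exp_nat_mul]
      exact Real.exp_le_exp.mpr (by push_cast; linarith)
    exact h.trans (pow_le_pow_left₀ (Real.exp_pos _).le hexp2 2)
  have h1 : |Real.exp x - 1| ≤ dL * A := by
    rw [abs_le]
    constructor
    · have := Real.add_one_le_exp x
      have h3 : dL * 1 ≤ dL * A := mul_le_mul_of_nonneg_left (by rw [hA]; nlinarith) hdL
      linarith
    · have h3 : Real.exp x ≤ Real.exp dL := Real.exp_le_exp.mpr hx2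
      have h4 := Real.exp_bound' hdL (by linarith : dL ≤ 1) (n := 3) (by norm_num)
      simp only [Finset.sum_range_succ, Finset.sum_range_zero, Nat.factorial] at h4
      norm_num at h4
      rw [hA]
      nlinarith [pow_nonneg hdL 3]
  have h2 : 2 * (1 - Real.cos y) ≤ dp ^ 2 := by
    have h3 := Real.one_sub_sq_div_two_le_cos (x := y)
    have h4 : y ^ 2 ≤ dp ^ 2 := by
      rw [← sq_abs]; exact pow_le_pow_left₀ (abs_nonneg _) hy 2
    linarith
  have h5 : (Real.exp x - 1) ^ 2 ≤ (dL * A) ^ 2 := by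
    rw [← sq_abs]; exact pow_le_pow_left₀ (abs_nonneg _) h1 2
  have h6 : 2 * Real.exp x * (1 - Real.cos y) ≤ A ^ 2 * dp ^ 2 := by
    have h7 : 0 ≤ 2 * (1 - Real.cos y) := by linarith [Real.cos_le_one y]
    calc 2 * Real.exp x * (1 - Real.cos y) = Real.exp x * (2 * (1 - Real.cos y)) := by ring
      _ ≤ A ^ 2 * dp ^ 2 := mul_le_mul hexp h2 h7 (by positivity)
  have h8 : ‖cexp (x + y * I) - 1‖ ^ 2 ≤ (rho * A) ^ 2 := by
    rw [hnorm]
    have : A ^ 2 * (dL ^ 2 + dp ^ 2) ≤ A ^ 2 * rho ^ 2 := mul_le_mul_of_nonneg_left hrho2 (by positivity)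
    nlinarith
  exact le_of_sq_le_sq h8 (by positivity)

end Pool.Agent.helper31.A2
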