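import Pool.Agent.helper31.A2.T2D
import Pool.Agent.helper31.A2.Fix

/-!
# A2: bounds of `L` and `ψ`
-/

namespace Pool.Agent.helper31.A2

open Complex ComplexConjugate Set Filter Topology
open Pool.Agent.helper31.EQ.Y Pool.Agent.helper31.EQ.R
open Pool.Agent.helper12.EQL Pool.Agent.helper12.RP Pool.Agent.helper12.FF
open Pool.Agent.helper63.FF
open Pool.Agent.helper31.EQB

/-! ### fixed point numbers -/

private theorem lp_add (a b : ℕ) : vn (a + b) = vn a + vn b := by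
  unfold vn; push_cast; ring

private theorem lp_nonneg (a : ℕ) : 0 ≤ vn a := by
  unfold vn; positivity

private theorem lp_sub_ge (a b : ℕ) : vn a - vn b ≤ vn (a - b) := by
  rcases le_total b a with h | h
  · have h1 : vn a = vn (a - b) + vn b := by rw [← lp_add, Nat.sub_add_cancel h]
    linarith
  · have h1 : vn a ≤ vn b := by
      unfold vn
      have : (a : ℝ) ≤ b := by exact_mod_cast h
      gcongr
    have := lp_nonneg (a - b)
    linarith

private theorem lp_sub_le {a b : ℕ} {x : ℝ} (h0 : 0 ≤ x) (h : vn a - vn b ≤ x) :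
    vn (a - b) ≤ x := by
  rcases le_total b a with h1 | h1
  · have h2 : vn a = vn (a - b) + vn b := by rw [← lp_add, Nat.sub_add_cancel h1]
    linarith
  · rw [Nat.sub_eq_zero_of_le h1]
    have : vn 0 = 0 := by unfold vn; simp
    rw [this]; exact h0

private theorem lp_half_le (a : ℕ) : vn (a / 2) ≤ vn a / 2 := by
  unfold vn
  have h : ((a / 2 : ℕ) : ℝ) ≤ (a : ℝ) / 2 := by
    have := @Nat.cast_div_le ℝ _ _ _ a 2
    simpa using this
  have h2 : ((a / 2 : ℕ) : ℝ) / 2 ^ 28 ≤ ((a : ℝ) / 2) / 2 ^ 28 := by gcongr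
  calc ((a / 2 : ℕ) : ℝ) / 2 ^ 28 ≤ ((a : ℝ) / 2) / 2 ^ 28 := h2
    _ = (a : ℝ) / 2 ^ 28 / 2 := by ring

private theorem lp_half_ge (a : ℕ) : vn a / 2 ≤ vn (a / 2 + 1) := by
  have h1 : a ≤ 2 * (a / 2 + 1) := by omega
  have h2 : (a : ℝ) ≤ 2 * ((a / 2 + 1 : ℕ) : ℝ) := by exact_mod_cast h1
  unfold vn
  have h3 : (a : ℝ) / 2 ≤ ((a / 2 + 1 : ℕ) : ℝ) := by linarith
  calc (a : ℝ) / 2 ^ 28 / 2 = ((a : ℝ) / 2) / 2 ^ 28 := by ring
    _ ≤ ((a / 2 + 1 : ℕ) : ℝ) / 2 ^ 28 := by gcongr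

private theorem lp_half2 (a b : ℕ) : vn a / 2 + vn b / 2 ≤ vn (a / 2 + (b / 2 + 1)) := by
  have h1 : a + b ≤ 2 * (a / 2 + (b / 2 + 1)) := by omega
  have h2 : (a : ℝ) + b ≤ 2 * ((a / 2 + (b / 2 + 1) : ℕ) : ℝ) := by exact_mod_cast h1
  unfold vn
  have h3 : ((a : ℝ) + b) / 2 ≤ ((a / 2 + (b / 2 + 1) : ℕ) : ℝ) := by linarith
  calc (a : ℝ) / 2 ^ 28 / 2 + (b : ℝ) / 2 ^ 28 / 2 = (((a : ℝ) + b) / 2) / 2 ^ 28 := by ring
    _ ≤ ((a / 2 + (b / 2 + 1) : ℕ) : ℝ) / 2 ^ 28 := by gcongr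

private theorem lp_div_le (a b : ℕ) (hb : 0 < b) : vn (a * 268435456 / b) ≤ vn a / vn b := by
  have hbR : (0 : ℝ) < b := by exact_mod_cast hb
  have h : ((a * 268435456 / b : ℕ) : ℝ) ≤ ((a * 268435456 : ℕ) : ℝ) / (b : ℝ) := Nat.cast_div_le
  unfold vn
  have e : (a : ℝ) / 2 ^ 28 / ((b : ℝ) / 2 ^ 28) = ((a * 268435456 : ℕ) : ℝ) / (b : ℝ) / 2 ^ 28 := by
    push_cast
    field_simp
    norm_num
  rw [e]
  gcongr

private theorem lp_div_ge (a b : ℕ) (hb : 0 < b) : vn a / vn b ≤ vn (a * 268435456 / b + 1) := by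
  have hbR : (0 : ℝ) < b := by exact_mod_cast hb
  have h1 : a * 268435456 < b * (a * 268435456 / b + 1) := Nat.lt_mul_div_succ _ hb
  have h : ((a * 268435456 : ℕ) : ℝ) / (b : ℝ) ≤ ((a * 268435456 / b + 1 : ℕ) : ℝ) := by
    rw [div_le_iff₀ hbR]
    have h2 : ((a * 268435456 : ℕ) : ℝ) ≤ ((b * (a * 268435456 / b + 1) : ℕ) : ℝ) := by
      exact_mod_cast h1.le
    calc ((a * 268435456 : ℕ) : ℝ) ≤ ((b * (a * 268435456 / b + 1) : ℕ) : ℝ) := h2
      _ = ((a * 268435456 / b + 1 : ℕ) : ℝ) * b := by push_cast; ring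
  unfold vn
  have e : (a : ℝ) / 2 ^ 28 / ((b : ℝ) / 2 ^ 28) = ((a * 268435456 : ℕ) : ℝ) / (b : ℝ) / 2 ^ 28 := by
    push_cast
    field_simp
    norm_num
  rw [e]
  gcongr

private theorem lp_one : vn 268435456 = 1 := by unfold vn; norm_num

/-! ### elementary inequalities -/

private theorem lp_mono {f f' : ℝ → ℝ} (hf : ∀ x, 0 ≤ x → HasDerivAt f (f' x) x) (h0 : f 0 = 0)
    (hd : ∀ x, 0 ≤ x → 0 ≤ f' x) {x : ℝ} (hx : 0 ≤ x) : 0 ≤ f x := by
  have hm : MonotoneOn f (Set.Ici 0) := by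
    apply monotoneOn_of_deriv_nonneg (convex_Ici 0)
    · exact fun x hx => (hf x hx).continuousAt.continuousWithinAt
    · intro x hx
      rw [interior_Ici] at hx
      exact (hf x (le_of_lt hx)).differentiableAt.differentiableWithinAt
    · intro x hx
      rw [interior_Ici] at hx
      rw [(hf x (le_of_lt hx)).deriv]
      exact hd x (le_of_lt hx)
  have h1 : f 0 ≤ f x := hm Set.self_mem_Ici hx hx
  linarith

private theorem lp_atan_le {x : ℝ} (hx : 0 ≤ x) : Real.arctan x ≤ x := by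
  have h := lp_mono (f := fun x => x - Real.arctan x) (f' := fun x => 1 - 1 / (1 + x ^ 2))
    (fun x _ => (hasDerivAt_id x).sub (Real.hasDerivAt_arctan x)) (by simp)
    (fun x _ => by
      have h1 : 1 / (1 + x ^ 2) ≤ 1 := by
        rw [div_le_one (by positivity)]
        nlinarith [sq_nonneg x]
      show 0 ≤ 1 - 1 / (1 + x ^ 2)
      linarith) hx
  linarith

private theorem lp_atan_ge {x : ℝ} (hx : 0 ≤ x) : x - x ^ 3 / 3 ≤ Real.arctan x := by
  have h := lp_mono (f := fun x => Real.arctan x - x + x ^ 3 / 3)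
    (f' := fun x => 1 / (1 + x ^ 2) - 1 + x ^ 2)
    (fun x _ => by
      have h3 : HasDerivAt (fun x : ℝ => x ^ 3 / 3) (x ^ 2) x := by
        have := (hasDerivAt_pow 3 x).div_const 3
        refine this.congr_deriv ?_
        norm_num
      exact ((Real.hasDerivAt_arctan x).sub (hasDerivAt_id x)).add h3) (by simp)
    (fun x _ => by
      have h1 : 1 - x ^ 2 ≤ 1 / (1 + x ^ 2) := by
        rw [le_div_iff₀ (by positivity)]
        nlinarith [sq_nonneg (x ^ 2)]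
      show 0 ≤ 1 / (1 + x ^ 2) - 1 + x ^ 2
      linarith) hx
  linarith

private theorem lp_log_deriv {x : ℝ} (hx : 0 ≤ x) :
    HasDerivAt (fun x : ℝ => Real.log (1 + x)) (1 / (1 + x)) x := by
  have h1 : HasDerivAt (fun x : ℝ => 1 + x) 1 x := by
    simpa using (hasDerivAt_id x).const_add 1
  exact h1.log (by positivity)

private theorem lp_log_ge {x : ℝ} (hx : 0 ≤ x) : x - x ^ 2 / 2 ≤ Real.log (1 + x) := by
  have h := lp_mono (f := fun x => Real.log (1 + x) - x + x ^ 2 / 2)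
    (f' := fun x => 1 / (1 + x) - 1 + x)
    (fun x hx => by
      have h3 : HasDerivAt (fun x : ℝ => x ^ 2 / 2) x x := by
        have := (hasDerivAt_pow 2 x).div_const 2
        refine this.congr_deriv ?_
        norm_num
      exact ((lp_log_deriv hx).sub (hasDerivAt_id x)).add h3) (by simp)
    (fun x hx => by
      have h1 : 1 - x ≤ 1 / (1 + x) := by
        rw [le_div_iff₀ (by positivity)]
        nlinarith [sq_nonneg x]
      show 0 ≤ 1 / (1 + x) - 1 + x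
      linarith) hx
  linarith

private theorem lp_log_le {x : ℝ} (hx : 0 ≤ x) :
    Real.log (1 + x) ≤ x - x ^ 2 / 2 + x ^ 3 / 3 := by
  have h := lp_mono (f := fun x => x - x ^ 2 / 2 + x ^ 3 / 3 - Real.log (1 + x))
    (f' := fun x => 1 - x + x ^ 2 - 1 / (1 + x))
    (fun x hx => by
      have h2 : HasDerivAt (fun x : ℝ => x ^ 2 / 2) x x := by
        have := (hasDerivAt_pow 2 x).div_const 2
        refine this.congr_deriv ?_
        norm_num
      have h3 : HasDerivAt (fun x : ℝ => x ^ 3 / 3) (x ^ 2) x := by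
        have := (hasDerivAt_pow 3 x).div_const 3
        refine this.congr_deriv ?_
        norm_num
      exact (((hasDerivAt_id x).sub h2).add h3).sub (lp_log_deriv hx)) (by simp)
    (fun x hx => by
      have h1 : 1 / (1 + x) ≤ 1 - x + x ^ 2 := by
        rw [div_le_iff₀ (by positivity)]
        have : 0 ≤ x ^ 3 := by positivity
        nlinarith
      show 0 ≤ 1 - x + x ^ 2 - 1 / (1 + x)
      linarith) hx
  linarith

private theorem lp_arg {z : ℂ} (hz : 0 < z.re) : arg z = Real.arctan (z.im / z.re) := by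
  have h1 : |arg z| < Real.pi / 2 := by
    rw [Complex.abs_arg_lt_pi_div_two_iff]
    exact Or.inl hz
  obtain ⟨h2, h3⟩ := abs_lt.mp h1
  rw [← Complex.tan_arg, Real.arctan_tan h2 h3]

private theorem lp_cosh_le (κ : ℝ) : Real.cosh κ ≤ 1 + Real.sinh κ ^ 2 / 2 := by
  have h1 := Real.cosh_sq κ
  have h2 := Real.cosh_pos κ
  nlinarith [sq_nonneg (Real.sinh κ ^ 2), sq_nonneg (Real.sinh κ)]

section

variable {e κ : ℝ} {c : Cc} {rl rh yl wl : ℕ} {t : ℂ}

private theorem lp_re (C : CcOK e κ c) : (Qk κ t).re = Real.cosh κ + rz e κ t / e := by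
  have he : 0 < e := lt_of_lt_of_le (by norm_num) C.e200
  have h1 : (Qk κ t).re = Real.cosh κ + Real.sinh κ * t.re := by
    rw [Qk, Complex.add_re, Complex.re_ofReal_mul, Complex.ofReal_re]
  rw [h1, rz, bet]
  field_simp

private theorem lp_im (C : CcOK e κ c) : (Qk κ t).im = yz e κ t / e := by
  have he : 0 < e := lt_of_lt_of_le (by norm_num) C.e200
  have h1 : (Qk κ t).im = Real.sinh κ * t.im := by
    rw [Qk, Complex.add_im, Complex.im_ofReal_mul, Complex.ofReal_im, zero_add]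
  rw [h1, yz, bet]
  field_simp

private theorem lp_log (C : CcOK e κ c) :
    e * Real.log ‖Qk κ t‖ = e / 2 * Real.log (1 + 2 / e * (Sz e κ t / e / 2 +
      Real.cosh κ * rz e κ t + rz e κ t ^ 2 / (2 * e))) := by
  have he : 0 < e := lt_of_lt_of_le (by norm_num) C.e200
  have h1 : ‖Qk κ t‖ ^ 2 = 1 + 2 / e * (Sz e κ t / e / 2 +
      Real.cosh κ * rz e κ t + rz e κ t ^ 2 / (2 * e)) := by
    rw [Complex.sq_norm, Complex.normSq_apply, lp_re C, lp_im C, Sz, bet]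
    have h2 := Real.cosh_sq κ
    have h3 : (Real.cosh κ + rz e κ t / e) * (Real.cosh κ + rz e κ t / e) +
        yz e κ t / e * (yz e κ t / e) = Real.cosh κ ^ 2 + 2 * Real.cosh κ * (rz e κ t / e) +
        (rz e κ t / e) ^ 2 + (yz e κ t / e) ^ 2 := by ring
    rw [h3, h2]
    field_simp
    ring
  rw [← h1, Real.log_pow]
  push_cast
  ring

/-- `L = e log |Q| = (e/2) log (1 + 2 A'/e)`, `A' = S/(2e) + c r + r²/(2e)`; `log (1 + δ) ≥ δ - δ²/2`, so `L ≥ A' - A'²/e`, increasing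
in `A'`; `A' ≥ A + rl²/(2e)`, `A = rl + wl/2`: `L ≥ A - ((A + rl²/(2e))² - rl²/2)/e`. -/
theorem L_lo (C : CcOK e κ c) (h : Win e κ c rl rh yl wl t) :
    vn (Llo c rl wl (r2f c rl)) ≤ e * Real.log ‖Qk κ t‖ := by
  have he : 0 < e := lt_of_lt_of_le (by norm_num) C.e200
  have hc1 := Real.one_le_cosh κ
  have ha := lp_nonneg rl
  have hw := lp_nonneg wl
  have hr : 0 ≤ rz e κ t := ha.trans h.rl
  rw [lp_log C]
  -- the real number `A2 = A + rl² / (2 e)`
  obtain ⟨a, hda⟩ : ∃ a, a = vn rl := ⟨_, rfl⟩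
  obtain ⟨w, hdw⟩ : ∃ w, w = vn wl := ⟨_, rfl⟩
  have hrl := h.rl
  have hwl := h.wl
  rw [← hda] at ha hrl
  rw [← hdw] at hw hwl
  obtain ⟨A2, hA2⟩ : ∃ A2, A2 = a + w / 2 + a ^ 2 / (2 * e) := ⟨_, rfl⟩
  have hA20 : 0 ≤ A2 := by rw [hA2]; positivity
  have hA : A2 ≤ Sz e κ t / e / 2 + Real.cosh κ * rz e κ t + rz e κ t ^ 2 / (2 * e) := by
    have h1 : a ≤ Real.cosh κ * rz e κ t := by nlinarith
    have h2 : a ^ 2 / (2 * e) ≤ rz e κ t ^ 2 / (2 * e) := by gcongr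
    rw [hA2]; linarith
  have h1 : e / 2 * Real.log (1 + 2 / e * A2) ≤ e / 2 * Real.log (1 + 2 / e *
      (Sz e κ t / e / 2 + Real.cosh κ * rz e κ t + rz e κ t ^ 2 / (2 * e))) := by
    have h2 : 0 < 1 + 2 / e * A2 := by positivity
    gcongr
  refine le_trans ?_ h1
  have hpos : 0 ≤ e / 2 * Real.log (1 + 2 / e * A2) := by
    have : 0 ≤ Real.log (1 + 2 / e * A2) := Real.log_nonneg (by
      have : 0 ≤ 2 / e * A2 := by positivity
      linarith)
    positivity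
  have h3 : A2 - A2 ^ 2 / e ≤ e / 2 * Real.log (1 + 2 / e * A2) := by
    have h4 := lp_log_ge (x := 2 / e * A2) (by positivity)
    calc A2 - A2 ^ 2 / e = e / 2 * (2 / e * A2 - (2 / e * A2) ^ 2 / 2) := by
          field_simp
      _ ≤ _ := by gcongr
  -- the fixed point numbers
  obtain ⟨r2, hr2⟩ : ∃ r2, r2 = r2f c rl := ⟨_, rfl⟩
  have hr2v : a ^ 2 / e ≤ vn r2 := by
    rw [hr2, hda]
    have h5 := vn_mu rl rl
    have h6 := vn_mu (mu rl rl) c.E
    have h7 := C.E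
    calc vn rl ^ 2 / e = (vn rl * vn rl) * (1 / e) := by ring
      _ ≤ vn (mu rl rl) * vn c.E := by
          have := lp_nonneg (mu rl rl)
          have h8 : 0 ≤ 1 / e := by positivity
          exact mul_le_mul h5 h7 h8 this
      _ ≤ _ := h6
  have hL : Llo c rl wl r2 = (rl + wl / 2) - mu c.E (mu (rl + wl / 2 + (r2 / 2 + 1))
      (rl + wl / 2 + (r2 / 2 + 1)) - (ml rl rl) / 2) := by
    have e1 : ∀ n : ℕ, Nat.shiftRight n 1 = n / 2 := fun n => by
      show n >>> 1 = n / 2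
      rw [Nat.shiftRight_eq_div_pow, pow_one]
    simp only [Llo, e1]
    rfl
  rw [← hr2, hL]
  obtain ⟨A0, hA0⟩ : ∃ A0, A0 = rl + wl / 2 + (r2 / 2 + 1) := ⟨_, rfl⟩
  have hA0v : A2 ≤ vn A0 := by
    have h5 := lp_half2 wl r2
    have h6 : vn A0 = vn rl + vn (wl / 2 + (r2 / 2 + 1)) := by
      rw [hA0, ← lp_add, add_assoc]
    have h7 : a ^ 2 / (2 * e) = a ^ 2 / e / 2 := by
      field_simp
    rw [hA2, h6, ← hda, h7]
    rw [← hdw] at h5
    linarith
  have hD : A2 ^ 2 - a ^ 2 / 2 ≤ vn (mu A0 A0 - (ml rl rl) / 2) := by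
    have h5 := lp_sub_ge (mu A0 A0) ((ml rl rl) / 2)
    have h6 := vn_mu A0 A0
    have h7 := lp_half_le (ml rl rl)
    have h8 := vn_ml rl rl
    rw [← hda] at h8
    have h9 : A2 ^ 2 ≤ vn A0 * vn A0 := by nlinarith
    nlinarith
  have hD0 : 0 ≤ A2 ^ 2 - a ^ 2 / 2 := by
    have h5 : a ≤ A2 := by
      rw [hA2]
      have : 0 ≤ a ^ 2 / (2 * e) := by positivity
      linarith
    nlinarith
  have hX : (A2 ^ 2 - a ^ 2 / 2) / e ≤ vn (mu c.E (mu A0 A0 - (ml rl rl) / 2)) := by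
    have h5 := vn_mu c.E (mu A0 A0 - (ml rl rl) / 2)
    calc (A2 ^ 2 - a ^ 2 / 2) / e = (1 / e) * (A2 ^ 2 - a ^ 2 / 2) := by ring
      _ ≤ vn c.E * vn (mu A0 A0 - (ml rl rl) / 2) :=
          mul_le_mul C.E hD hD0 (lp_nonneg _)
      _ ≤ _ := h5
  rw [← hA0]
  apply lp_sub_le hpos
  have h5 : vn (rl + wl / 2) ≤ a + w / 2 := by
    rw [lp_add, ← hda]
    have := lp_half_le wl
    rw [← hdw] at this
    linarith
  have h6 : a + w / 2 - (A2 ^ 2 - a ^ 2 / 2) / e = A2 - A2 ^ 2 / e := by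
    rw [hA2]
    field_simp
    ring
  linarith

/-- `L` is increasing in `r`; at `r = rh`: `log (1 + δ) ≤ δ - δ²/2 + δ³/3`, so `L ≤ A' - A'²/e + (4/3) A'³/e²`
`≤ S/(2e) + c rh - rh²/(2e) + (4/3) l³ E²`. -/
theorem L_hi (C : CcOK e κ c) (h : Win e κ c rl rh yl wl t) :
    e * Real.log ‖Qk κ t‖ ≤ vn (Lhi c rh) := by
  have he : 0 < e := lt_of_lt_of_le (by norm_num) C.e200
  have hc1 := Real.one_le_cosh κ
  have hr : 0 ≤ rz e κ t := (lp_nonneg rl).trans h.rl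
  rw [lp_log C]
  obtain ⟨b, hdb⟩ : ∃ b, b = vn rh := ⟨_, rfl⟩
  obtain ⟨w, hdw⟩ : ∃ w, w = vn c.wh := ⟨_, rfl⟩
  have hrh := h.rh
  have hwh := h.wh
  rw [← hdb] at hrh
  rw [← hdw] at hwh
  have hb : 0 ≤ b := hr.trans hrh
  have hw : 0 ≤ w := by rw [hdw]; exact lp_nonneg _
  obtain ⟨g, hg⟩ : ∃ g, g = w / 2 + Real.cosh κ * b := ⟨_, rfl⟩
  obtain ⟨A1, hA1⟩ : ∃ A1, A1 = g + b ^ 2 / (2 * e) := ⟨_, rfl⟩
  have hg0 : b ≤ g := by rw [hg]; nlinarith
  have hA10 : b ≤ A1 := by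
    rw [hA1]
    have : 0 ≤ b ^ 2 / (2 * e) := by positivity
    linarith
  have hS : 0 ≤ Sz e κ t / e := by
    unfold Sz
    positivity
  have hA : Sz e κ t / e / 2 + Real.cosh κ * rz e κ t + rz e κ t ^ 2 / (2 * e) ≤ A1 := by
    have h1 : Real.cosh κ * rz e κ t ≤ Real.cosh κ * b := by gcongr
    have h2 : rz e κ t ^ 2 / (2 * e) ≤ b ^ 2 / (2 * e) := by gcongr
    rw [hA1, hg]; linarith
  have hA00 : 0 ≤ Sz e κ t / e / 2 + Real.cosh κ * rz e κ t + rz e κ t ^ 2 / (2 * e) := by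
    have h1 : 0 ≤ Real.cosh κ * rz e κ t := by positivity
    have h2 : 0 ≤ rz e κ t ^ 2 / (2 * e) := by positivity
    linarith
  have h1 : e / 2 * Real.log (1 + 2 / e * (Sz e κ t / e / 2 + Real.cosh κ * rz e κ t +
      rz e κ t ^ 2 / (2 * e))) ≤ e / 2 * Real.log (1 + 2 / e * A1) := by
    have h2 : 0 < 1 + 2 / e * (Sz e κ t / e / 2 + Real.cosh κ * rz e κ t +
      rz e κ t ^ 2 / (2 * e)) := by positivity
    gcongr
  refine h1.trans ?_
  have hA1p : 0 ≤ A1 := hb.trans hA10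
  have h3 : e / 2 * Real.log (1 + 2 / e * A1) ≤ A1 - A1 ^ 2 / e + 4 / 3 * A1 ^ 3 * (1 / e) ^ 2 := by
    have h4 := lp_log_le (x := 2 / e * A1) (by positivity)
    calc e / 2 * Real.log (1 + 2 / e * A1) ≤ e / 2 * (2 / e * A1 - (2 / e * A1) ^ 2 / 2 +
          (2 / e * A1) ^ 3 / 3) := by gcongr
      _ = _ := by
          field_simp
          ring
  have h4 : A1 - A1 ^ 2 / e ≤ g - b ^ 2 / (2 * e) := by
    have h5 : b ^ 2 / e ≤ A1 ^ 2 / e := by gcongr
    have h6 : b ^ 2 / e = b ^ 2 / (2 * e) + b ^ 2 / (2 * e) := by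
      field_simp
      ring
    rw [hA1] at h5 ⊢
    linarith
  -- the fixed point numbers
  obtain ⟨h0, hh0⟩ : ∃ h0, h0 = mu rh c.kk + (c.wh / 2 + 1) := ⟨_, rfl⟩
  obtain ⟨l, hl⟩ : ∃ l, l = h0 + ((mu (mu rh rh) c.E) / 2 + 1) := ⟨_, rfl⟩
  obtain ⟨q, hq⟩ : ∃ q, q = 4 * mu (mu l l) l / 3 + 1 := ⟨_, rfl⟩
  have hL : Lhi c rh = (h0 + mu (mu q c.E) c.E) - (ml (ml rh rh) c.E') / 2 := by
    have e1 : ∀ n : ℕ, Nat.shiftRight n 1 = n / 2 := fun n => by
      show n >>> 1 = n / 2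
      rw [Nat.shiftRight_eq_div_pow, pow_one]
    rw [hq, hl, hh0]
    simp only [Lhi, e1]
    rfl
  have hkk : Real.cosh κ ≤ vn c.kk := by
    have h5 := lp_cosh_le κ
    have h6 := C.k2
    have h7 := C.kh
    rw [C.kk]
    linarith
  have hh0v : g ≤ vn h0 := by
    have h5 := vn_mu rh c.kk
    have h6 := lp_half_ge c.wh
    rw [hh0, lp_add, hg]
    rw [← hdb] at h5
    rw [← hdw] at h6
    have h7 : Real.cosh κ * b ≤ b * vn c.kk := by nlinarith
    linarith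
  have hbe : b ^ 2 / e ≤ vn (mu (mu rh rh) c.E) := by
    have h5 := vn_mu rh rh
    have h6 := vn_mu (mu rh rh) c.E
    rw [← hdb] at h5
    calc b ^ 2 / e = (b * b) * (1 / e) := by ring
      _ ≤ vn (mu rh rh) * vn c.E := by
          have h8 : 0 ≤ 1 / e := by positivity
          exact mul_le_mul h5 C.E h8 (lp_nonneg _)
      _ ≤ _ := h6
  have hlv : A1 ≤ vn l := by
    have h5 := lp_half_ge (mu (mu rh rh) c.E)
    rw [hl, lp_add, hA1]
    have h6 : b ^ 2 / (2 * e) = b ^ 2 / e / 2 := by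
      field_simp
    rw [h6]
    linarith
  have hl3 : A1 ^ 3 ≤ vn (mu (mu l l) l) := by
    have h5 := vn_mu l l
    have h6 := vn_mu (mu l l) l
    have h7 : A1 * A1 ≤ vn l * vn l := mul_le_mul hlv hlv hA1p (lp_nonneg l)
    calc A1 ^ 3 = (A1 * A1) * A1 := by ring
      _ ≤ vn (mu l l) * vn l := mul_le_mul (h7.trans h5) hlv hA1p (lp_nonneg _)
      _ ≤ _ := h6
  have hqv : 4 / 3 * A1 ^ 3 ≤ vn q := by
    have h5 : 4 * mu (mu l l) l ≤ 3 * q := by rw [hq]; omega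
    have h6 : (4 : ℝ) * (mu (mu l l) l : ℕ) ≤ 3 * (q : ℕ) := by exact_mod_cast h5
    have h7 : 4 * vn (mu (mu l l) l) ≤ 3 * vn q := by
      unfold vn
      calc 4 * (((mu (mu l l) l : ℕ) : ℝ) / 2 ^ 28) = (4 * ((mu (mu l l) l : ℕ) : ℝ)) / 2 ^ 28 := by
            ring
        _ ≤ (3 * ((q : ℕ) : ℝ)) / 2 ^ 28 := by gcongr
        _ = _ := by ring
    linarith
  have hqE : 4 / 3 * A1 ^ 3 * (1 / e) ^ 2 ≤ vn (mu (mu q c.E) c.E) := by
    have h5 := vn_mu q c.E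
    have h6 := vn_mu (mu q c.E) c.E
    have h8 : 0 ≤ 1 / e := by positivity
    have h9 : 4 / 3 * A1 ^ 3 * (1 / e) ≤ vn q * vn c.E := mul_le_mul hqv C.E h8 (lp_nonneg _)
    calc 4 / 3 * A1 ^ 3 * (1 / e) ^ 2 = (4 / 3 * A1 ^ 3 * (1 / e)) * (1 / e) := by ring
      _ ≤ vn (mu q c.E) * vn c.E := mul_le_mul (h9.trans h5) C.E h8 (lp_nonneg _)
      _ ≤ _ := h6
  have hE' : vn ((ml (ml rh rh) c.E') / 2) ≤ b ^ 2 / (2 * e) := by
    have h5 := lp_half_le (ml (ml rh rh) c.E')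
    have h6 := vn_ml (ml rh rh) c.E'
    have h7 := vn_ml rh rh
    rw [← hdb] at h7
    have h8 : vn (ml rh rh) * vn c.E' ≤ (b * b) * (1 / e) :=
      mul_le_mul h7 C.E' (lp_nonneg _) (by positivity)
    have h9 : b ^ 2 / (2 * e) = (b * b) * (1 / e) / 2 := by
      field_simp
    rw [h9]
    linarith
  rw [hL]
  have h5 := lp_sub_ge (h0 + mu (mu q c.E) c.E) ((ml (ml rh rh) c.E') / 2)
  rw [lp_add] at h5
  linarith

/-- `arg Q = arctan (η/(c + x)) ≥ u - u³/3`, `u = η/(c+x) ≤ y/e` -/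
theorem psi_lo (C : CcOK e κ c) (h : Win e κ c rl rh yl wl t) :
    vn (p1f c rh yl) ≤ e * arg (Qk κ t) := by
  have he : 0 < e := lt_of_lt_of_le (by norm_num) C.e200
  have hc1 := Real.one_le_cosh κ
  have hr : 0 ≤ rz e κ t := (lp_nonneg rl).trans h.rl
  have hy : 0 ≤ yz e κ t := (lp_nonneg yl).trans h.yl
  have hre : 0 < (Qk κ t).re := by
    rw [lp_re C]
    have : 0 ≤ rz e κ t / e := by positivity
    linarith
  rw [lp_arg hre, lp_re C, lp_im C]
  obtain ⟨u, hu⟩ : ∃ u, u = yz e κ t / e / (Real.cosh κ + rz e κ t / e) := ⟨_, rfl⟩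
  have hden : 1 ≤ Real.cosh κ + rz e κ t / e := by
    have : 0 ≤ rz e κ t / e := by positivity
    linarith
  have hu0 : 0 ≤ u := by rw [hu]; positivity
  rw [← hu]
  have hat := lp_atan_ge hu0
  have hat0 : 0 ≤ e * Real.arctan u := by
    have : 0 ≤ Real.arctan u := Real.arctan_nonneg.mpr hu0
    positivity
  have h1 : e * (u - u ^ 3 / 3) ≤ e * Real.arctan u := by gcongr
  have hkk : Real.cosh κ ≤ vn c.kk := by
    have h5 := lp_cosh_le κ
    have h6 := C.k2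
    have h7 := C.kh
    rw [C.kk]
    linarith
  -- `e u = y / (c + x)`
  have heu : e * u = yz e κ t / (Real.cosh κ + rz e κ t / e) := by
    rw [hu]
    field_simp
  have hue : u ≤ yz e κ t / e := by
    rw [hu]
    exact div_le_self (by positivity) hden
  have hcub : e * (u ^ 3 / 3) ≤ vn c.y3 := by
    have h2 : u ^ 3 ≤ (yz e κ t / e) ^ 3 := by gcongr
    have h3 : e * (u ^ 3 / 3) ≤ e * ((yz e κ t / e) ^ 3 / 3) := by gcongr
    have h4 : e * ((yz e κ t / e) ^ 3 / 3) = yz e κ t ^ 3 * (1 / e) ^ 2 / 3 := by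
      field_simp
    have h5 : yz e κ t ^ 3 ≤ vn c.yh ^ 3 := by
      have := h.yh
      gcongr
    have h6 : (1 / e) ^ 2 ≤ vn c.E ^ 2 := by
      have := C.E
      have h7 : 0 ≤ 1 / e := by positivity
      gcongr
    have h8 : yz e κ t ^ 3 * (1 / e) ^ 2 ≤ vn c.yh ^ 3 * vn c.E ^ 2 :=
      mul_le_mul h5 h6 (by positivity) (by have := lp_nonneg c.yh; positivity)
    have h9 := C.y3
    linarith
  have hp : p1f c rh yl = yl * 268435456 / (c.kk + mu rh c.E) - c.y3 := rfl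
  rw [hp]
  apply lp_sub_le hat0
  have hkpos : 0 < c.kk + mu rh c.E := by
    have h2 : mu rh c.E ≠ 0 := Nat.succ_ne_zero _
    omega
  have h2 := lp_div_le yl (c.kk + mu rh c.E) hkpos
  have h3 : Real.cosh κ + rz e κ t / e ≤ vn (c.kk + mu rh c.E) := by
    rw [lp_add]
    have h4 := vn_mu rh c.E
    have h5 : rz e κ t / e ≤ vn rh * vn c.E := by
      calc rz e κ t / e = rz e κ t * (1 / e) := by ring
        _ ≤ vn rh * vn c.E := mul_le_mul h.rh C.E (by positivity) (lp_nonneg _)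
    linarith
  have h4 : vn yl / vn (c.kk + mu rh c.E) ≤ yz e κ t / (Real.cosh κ + rz e κ t / e) :=
    div_le_div₀ hy h.yl (by linarith) h3
  rw [mul_sub, heu] at h1
  linarith

theorem psi_hi (C : CcOK e κ c) (h : Win e κ c rl rh yl wl t) :
    e * arg (Qk κ t) ≤ vn (p2f c rl) := by
  have he : 0 < e := lt_of_lt_of_le (by norm_num) C.e200
  have hc1 := Real.one_le_cosh κ
  have hr : 0 ≤ rz e κ t := (lp_nonneg rl).trans h.rl
  have hy : 0 ≤ yz e κ t := (lp_nonneg yl).trans h.yl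
  have hre : 0 < (Qk κ t).re := by
    rw [lp_re C]
    have : 0 ≤ rz e κ t / e := by positivity
    linarith
  rw [lp_arg hre, lp_re C, lp_im C]
  obtain ⟨u, hu⟩ : ∃ u, u = yz e κ t / e / (Real.cosh κ + rz e κ t / e) := ⟨_, rfl⟩
  have hden : 1 ≤ Real.cosh κ + rz e κ t / e := by
    have : 0 ≤ rz e κ t / e := by positivity
    linarith
  have hu0 : 0 ≤ u := by rw [hu]; positivity
  rw [← hu]
  have h1 : e * Real.arctan u ≤ e * u := by
    have := lp_atan_le hu0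
    gcongr
  have heu : e * u = yz e κ t / (Real.cosh κ + rz e κ t / e) := by
    rw [hu]
    field_simp
  have hp : p2f c rl = c.yh * 268435456 / (268435456 + ml rl c.E') + 1 := rfl
  rw [hp]
  have h2 := lp_div_ge c.yh (268435456 + ml rl c.E') (by omega)
  have h3 : vn (268435456 + ml rl c.E') ≤ Real.cosh κ + rz e κ t / e := by
    rw [lp_add, lp_one]
    have h4 := vn_ml rl c.E'
    have h5 : vn rl * vn c.E' ≤ rz e κ t / e := by
      calc vn rl * vn c.E' ≤ rz e κ t * (1 / e) := mul_le_mul h.rl C.E' (lp_nonneg _) hr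
        _ = _ := by ring
    linarith
  have h5 : 0 < vn (268435456 + ml rl c.E') := by
    rw [lp_add, lp_one]
    have := lp_nonneg (ml rl c.E')
    linarith
  have h4 : yz e κ t / (Real.cosh κ + rz e κ t / e) ≤ vn c.yh / vn (268435456 + ml rl c.E') :=
    div_le_div₀ (lp_nonneg _) h.yh h5 h3
  linarith

end

end Pool.Agent.helper31.A2
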