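import Pool.Agent.helper31.A2.Fix

/-!
# A2: the terminal level
-/

namespace Pool.Agent.helper31.A2

open Complex ComplexConjugate Set Filter Topology
open Pool.Agent.helper31.EQ.Y Pool.Agent.helper31.EQ.R
open Pool.Agent.helper12.EQL Pool.Agent.helper12.RP Pool.Agent.helper12.FF
open Pool.Agent.helper63.FF
open Pool.Agent.helper31.EQB

/-! ### fixed point numbers -/

private lemma vn_nonneg (n : ℕ) : 0 ≤ vn n := by unfold vn; positivity

private lemma vn_add (a b : ℕ) : vn (a + b) = vn a + vn b := by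
  unfold vn; push_cast; ring

private lemma vn_mono {a b : ℕ} (h : a ≤ b) : vn a ≤ vn b := by
  unfold vn
  have : (a : ℝ) ≤ b := by exact_mod_cast h
  exact div_le_div_of_nonneg_right this (by positivity)

private lemma vn_one : vn 268435456 = 1 := by unfold vn; norm_num

/-- `2^28 a ≤ (2^28 a / b + 1) b` -/
private lemma vn_div {a b : ℕ} (hb : 0 < b) :
    vn a ≤ vn (Nat.succ (Nat.div (Nat.mul 268435456 a) b)) * vn b := by
  have h1 : 268435456 * a < (268435456 * a / b + 1) * b := by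
    have := Nat.lt_div_mul_add (a := 268435456 * a) hb
    rw [add_mul, one_mul]
    exact this
  have h2 : (268435456 * a : ℝ) ≤ ((268435456 * a / b + 1 : ℕ) : ℝ) * b := by
    exact_mod_cast h1.le
  have e1 : Nat.succ (Nat.div (Nat.mul 268435456 a) b) = 268435456 * a / b + 1 := rfl
  rw [e1]
  unfold vn
  have e2 : (2 : ℝ) ^ 28 = 268435456 := by norm_num
  rw [e2, div_mul_div_comm, div_le_div_iff₀ (by norm_num) (by norm_num)]
  nlinarith

/-! ### real estimates -/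

private lemma core_real {e ρ r w : ℝ} (he : 200 ≤ e) (hρ : 0 < ρ) (hr : ρ ≤ r) (hr3 : r ≤ 3)
    (hw : w + ρ ^ 2 / e + ρ ^ 3 / e ≤ ρ ^ 2 / 5) :
    4 / 5 * ρ ≤ r - r ^ 2 / (2 * e) - (w + r ^ 2 / e) / r := by
  have he0 : 0 < e := by linarith
  have hr0 : 0 < r := by linarith
  obtain ⟨i, hi⟩ : ∃ i, i = 1 / e := ⟨_, rfl⟩
  have hi0 : 0 < i := by rw [hi]; positivity
  have hi1 : i ≤ 1 / 200 := by
    rw [hi]
    exact one_div_le_one_div_of_le (by norm_num) he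
  have hw' : w + ρ ^ 2 * i + ρ ^ 3 * i ≤ ρ ^ 2 / 5 := by
    have e1 : w + ρ ^ 2 * i + ρ ^ 3 * i = w + ρ ^ 2 / e + ρ ^ 3 / e := by rw [hi]; ring
    rw [e1]; exact hw
  have e2 : r - r ^ 2 / (2 * e) - (w + r ^ 2 / e) / r =
      (r ^ 2 - r ^ 3 * i / 2 - w - r ^ 2 * i) / r := by
    rw [hi]; field_simp; ring
  rw [e2, le_div_iff₀ hr0]
  have h0 : 0 ≤ r - ρ := by linarith
  have h1 : r ^ 3 / 2 - ρ ^ 3 ≤ (r - ρ) * (9 / 2 * r) := by
    have h2 : r ^ 2 + r * ρ + ρ ^ 2 ≤ 9 * r := by nlinarith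
    have h3 := mul_le_mul_of_nonneg_left h2 h0
    have h4 : 0 ≤ ρ ^ 3 := by positivity
    nlinarith
  have h5 := mul_le_mul_of_nonneg_right h1 hi0.le
  have h6 : (r - ρ) * ((r + ρ) * i) ≤ (r - ρ) * (2 * r * i) := by
    refine mul_le_mul_of_nonneg_left ?_ h0
    nlinarith
  have h7 : (r - ρ) * (r * i) ≤ (r - ρ) * (r * (1 / 200)) := by
    refine mul_le_mul_of_nonneg_left ?_ h0
    nlinarith
  have h8 : 0 ≤ (r - ρ) * r := mul_nonneg h0 hr0.le
  have h9 : 0 ≤ (r - ρ) * ρ := mul_nonneg h0 hρ.le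
  nlinarith

private lemma log_ge {s : ℝ} (hs : 0 ≤ s) : s - s ^ 2 / 2 ≤ Real.log (1 + s) := by
  refine le_trans ?_ (Real.le_log_one_add_of_nonneg hs)
  rw [le_div_iff₀ (by linarith)]
  nlinarith [pow_nonneg hs 3]

/-- the data of the terminal level -/
private lemma term_nat {c : Cc} {rl rh wl : ℕ} (hok : (term c rl rh wl).ok = true) :
    ∃ x den u P Fu Hu r2 : ℕ, (∃ b, term c rl rh wl = ⟨b, 268435456, 0, P, 0, 0, Hu, Fu, Hu⟩) ∧
      0 < vn rl ∧ vn x ≤ 4 / 5 * vn rl ∧ 0 < vn den ∧ vn den ≤ 1 + vn x + vn x ^ 2 / 2 ∧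
      1 ≤ vn u * vn den ∧ vn u < 1 ∧ vn u ≤ vn P * (1 - vn u) ∧ vn Fu = 1 + vn P ∧
      vn Fu ≤ vn Hu * vn rl ∧ vn rl * vn rl * vn c.E ≤ vn r2 ∧
      2 * (vn rh * vn rh * vn c.E) ≤ vn wl ∧
      vn r2 + vn c.wh + vn r2 * vn rl ≤ vn rl ^ 2 / 5 ∧ vn rh ≤ 3 := by
  obtain ⟨x, hx⟩ : ∃ x, x = Nat.div (Nat.mul rl 4) 5 := ⟨_, rfl⟩
  obtain ⟨den, hden⟩ : ∃ den, den = Nat.add (Nat.add 268435456 x) (Nat.shiftRight (ml x x) 1) :=
    ⟨_, rfl⟩
  obtain ⟨u, hu⟩ : ∃ u, u = Nat.succ (Nat.div 72057594037927936 den) := ⟨_, rfl⟩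
  obtain ⟨P, hP⟩ : ∃ P, P = Nat.succ (Nat.div (Nat.mul 268435456 u) (Nat.sub 268435456 u)) :=
    ⟨_, rfl⟩
  obtain ⟨Fu, hFu⟩ : ∃ Fu, Fu = Nat.add 268435456 P := ⟨_, rfl⟩
  obtain ⟨Hu, hHu⟩ : ∃ Hu, Hu = Nat.succ (Nat.div (Nat.mul 268435456 Fu) rl) := ⟨_, rfl⟩
  obtain ⟨r2, hr2⟩ : ∃ r2, r2 = mu (mu rl rl) c.E := ⟨_, rfl⟩
  have hterm : term c rl rh wl =
      ⟨and (and (Nat.ble u 268435455) (Nat.ble rh 805306368))
        (and (Nat.ble (Nat.mul 2 (mu (mu rh rh) c.E)) wl)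
          (Nat.ble (Nat.add (Nat.add r2 c.wh) (mu r2 rl)) (ml rl (Nat.div rl 5)))),
        268435456, 0, P, 0, 0, Hu, Fu, Hu⟩ := by
    subst hr2 hHu hFu hP hu hden hx
    rfl
  rw [hterm] at hok
  simp only [Bool.and_eq_true, Nat.ble_eq] at hok
  obtain ⟨⟨ok1, ok2⟩, ok3, ok4⟩ := hok
  have ok3 : 2 * mu (mu rh rh) c.E ≤ wl := ok3
  have ok4 : r2 + c.wh + mu r2 rl ≤ ml rl (rl / 5) := ok4
  -- natural numbers
  have hden0 : 0 < den := by
    rw [hden]
    exact Nat.lt_of_lt_of_le (by norm_num : 0 < 268435456 + 0)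
      (Nat.add_le_add (Nat.le_add_right _ _) (Nat.zero_le _))
  have hrl0 : 0 < rl := by
    by_contra h0
    have h1 : rl = 0 := by omega
    subst h1
    have h2 : x = 0 := hx
    subst h2
    have h3 : den = 268435456 := by rw [hden]; rfl
    rw [h3] at hu
    have h4 : u = 268435457 := by rw [hu]
    omega
  have hu28 : 0 < 268435456 - u := by omega
  have hpos : ∀ n : ℕ, 0 < n → 0 < vn n := by
    intro n hn
    unfold vn
    have : (0 : ℝ) < n := by exact_mod_cast hn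
    positivity
  have hrl := hpos rl hrl0
  have hEn := vn_nonneg c.E
  refine ⟨x, den, u, P, Fu, Hu, r2, ⟨_, hterm⟩, hrl, ?_, hpos den hden0, ?_, ?_, ?_, ?_, ?_, ?_,
    ?_, ?_, ?_, ?_⟩
  · have h1 : 5 * x ≤ 4 * rl := by
      have : x = rl * 4 / 5 := hx
      omega
    have h2 : (5 * x : ℝ) ≤ 4 * rl := by exact_mod_cast h1
    unfold vn
    linarith
  · have h1 : den = 268435456 + x + (ml x x) / 2 := by
      rw [hden]
      change 268435456 + x + (ml x x) >>> 1 = _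
      rw [Nat.shiftRight_eq_div_pow]
    have h2 : vn (ml x x / 2) ≤ vn (ml x x) / 2 := by
      have h3 : 2 * (ml x x / 2) ≤ ml x x := by omega
      have h4 : (2 * ((ml x x / 2 : ℕ) : ℝ)) ≤ (ml x x : ℝ) := by exact_mod_cast h3
      unfold vn
      linarith
    have h5 := vn_ml x x
    rw [h1, vn_add, vn_add, vn_one]
    have h6 : vn x ^ 2 = vn x * vn x := sq _
    linarith
  · have h1 := vn_div (a := 268435456) hden0
    rw [vn_one] at h1
    rw [hu]
    exact h1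
  · have h1 : (u : ℝ) < 268435456 := by exact_mod_cast (by omega : u < 268435456)
    unfold vn
    rw [div_lt_one (by positivity)]
    linarith [(by norm_num : (2 : ℝ) ^ 28 = 268435456)]
  · have h1 := vn_div (a := u) hu28
    have h2 : vn (268435456 - u) = 1 - vn u := by
      have h3 : vn (268435456 - u) + vn u = 1 := by
        rw [← vn_add, ← vn_one]
        congr 1
        omega
      linarith
    rw [h2] at h1
    rw [hP]
    exact h1
  · rw [hFu]
    change vn (268435456 + P) = _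
    rw [vn_add, vn_one]
  · rw [hHu]
    exact vn_div hrl0
  · have h1 := vn_mu rl rl
    have h2 := vn_mu (mu rl rl) c.E
    rw [hr2]
    exact (mul_le_mul_of_nonneg_right h1 hEn).trans h2
  · have h1 := vn_mu rh rh
    have h2 := vn_mu (mu rh rh) c.E
    have h4 := (mul_le_mul_of_nonneg_right h1 hEn).trans h2
    have h5 := vn_mono ok3
    rw [two_mul, vn_add] at h5
    linarith
  · have h1 := vn_mono ok4
    rw [vn_add, vn_add] at h1
    have h2 := vn_mu r2 rl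
    have h3 := vn_ml rl (rl / 5)
    have h4 : vn (rl / 5) ≤ vn rl / 5 := by
      have h5 : 5 * (rl / 5) ≤ rl := by omega
      have h6 : (5 * ((rl / 5 : ℕ) : ℝ)) ≤ (rl : ℝ) := by exact_mod_cast h5
      unfold vn
      linarith
    have h7 : vn rl * vn (rl / 5) ≤ vn rl * (vn rl / 5) := mul_le_mul_of_nonneg_left h4 hrl.le
    have h8 : vn rl ^ 2 / 5 = vn rl * (vn rl / 5) := by ring
    rw [h8]
    linarith
  · have h1 : (rh : ℝ) ≤ 805306368 := by exact_mod_cast ok2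
    unfold vn
    rw [div_le_iff₀ (by positivity)]
    linarith [(by norm_num : (2 : ℝ) ^ 28 = 268435456)]

section

variable {e κ : ℝ} {c : Cc} {rl rh yl wl : ℕ} {t : ℂ}

private lemma incr (he : 200 ≤ e) (hκ : 0 < κ) (ht : 0 < t.re) (hr3 : rz e κ t ≤ 3)
    (h2r : 2 * rz e κ t ^ 2 ≤ Sz e κ t) : rz e κ t ≤ rz e κ (shf κ t) := by
  have he0 : 0 < e := by linarith
  have hc1 := Real.one_le_cosh κ
  obtain ⟨r, hrd⟩ : ∃ r, r = rz e κ t := ⟨_, rfl⟩
  obtain ⟨S, hSd⟩ : ∃ S, S = Sz e κ t := ⟨_, rfl⟩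
  have hr0 : 0 < r := by rw [hrd]; exact rz_pos he0 hκ ht
  have hS0 : 0 < S := by rw [hSd]; exact Sz_pos he0 hκ t
  have h1 := rz_shf_sub he0 hκ ht
  have hQ0 : 0 < ‖Qk κ t‖ := norm_pos_iff.2 (Qk_ne hκ ht)
  rw [← hrd] at hr3 h2r
  rw [← hSd] at h2r
  have h2 : 0 ≤ (Sz e κ t - rz e κ t ^ 2) * (Real.cosh κ + rz e κ t / e) -
      2 * rz e κ t * yz e κ t ^ 2 / e := by
    rw [← hrd, ← hSd]
    have h3 : yz e κ t ^ 2 ≤ S := by
      rw [hSd]; unfold Sz; linarith [sq_nonneg (bet e κ)]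
    have h4 : 2 * r * yz e κ t ^ 2 / e ≤ S / 2 := by
      rw [div_le_iff₀ he0]
      have h5 : 2 * r * yz e κ t ^ 2 ≤ 6 * S := by
        calc 2 * r * yz e κ t ^ 2 ≤ 2 * 3 * S := by gcongr
          _ = 6 * S := by ring
      have h7 : S / 2 * 200 ≤ S / 2 * e := mul_le_mul_of_nonneg_left he (by linarith)
      linarith
    have h5 : S / 2 ≤ (S - r ^ 2) * (Real.cosh κ + r / e) := by
      have h6 : S / 2 ≤ S - r ^ 2 := by linarith
      have h7 : 1 ≤ Real.cosh κ + r / e := by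
        have : 0 ≤ r / e := by positivity
        linarith
      have h8 : (S - r ^ 2) * 1 ≤ (S - r ^ 2) * (Real.cosh κ + r / e) :=
        mul_le_mul_of_nonneg_left h7 (by linarith)
      linarith
    linarith
  have h3 : 0 ≤ rz e κ (shf κ t) - rz e κ t := by
    rw [h1]
    exact div_nonneg h2 (by positivity)
  linarith

private lemma ls_bound (he : 200 ≤ e) (hκ : 0 < κ) (ht : 0 < t.re) (hr3 : rz e κ t ≤ 3)
    (h2r : 2 * rz e κ t ^ 2 ≤ Sz e κ t) :
    ‖log (fT e κ t) - log (fT e κ (shf κ t))‖ ≤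
      (Sz e κ t / e + rz e κ t ^ 2 / e) / rz e κ t := by
  have he0 : 0 < e := by linarith
  have hinc := incr he hκ ht hr3 h2r
  have hs := shf_re hκ ht.le
  have hr0 : 0 < rz e κ t := rz_pos he0 hκ ht
  have hseg : ∀ z ∈ segment ℝ t (shf κ t), MB e κ (1 / rz e κ t) z := by
    intro z hz
    have hzr := re_segment ht hs hz
    refine MB_harn he0 hκ hzr ?_
    have h1 : e * Real.sinh κ * (1 / rz e κ t) * z.re = rz e κ z / rz e κ t := by
      have : rz e κ z = e * Real.sinh κ * z.re := rfl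
      rw [this]; ring
    rw [h1, le_div_iff₀ hr0, one_mul]
    obtain ⟨a, b, ha, hb, hab, rfl⟩ := hz
    have h2 : rz e κ (a • t + b • shf κ t) = a * rz e κ t + b * rz e κ (shf κ t) := by
      unfold rz
      rw [Complex.add_re, Complex.smul_re, Complex.smul_re, smul_eq_mul, smul_eq_mul]; ring
    rw [h2]
    have h3 := mul_le_mul_of_nonneg_left hinc hb
    have h4 : a * rz e κ t + b * rz e κ t = rz e κ t := by rw [← add_mul, hab, one_mul]
    linarith
  have hls := lf_sub he0 hκ ht hs hseg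
  have hV := (z_diff he0 hκ ht).trans (Vz_le he0 hκ t)
  rw [norm_sub_rev]
  calc _ ≤ e * Real.sinh κ * (1 / rz e κ t) * ‖shf κ t - t‖ := hls
    _ = (e * Real.sinh κ * ‖shf κ t - t‖) / rz e κ t := by ring
    _ ≤ (Sz e κ t + rz e κ t ^ 2) / e / rz e κ t := div_le_div_of_nonneg_right hV hr0.le
    _ = _ := by rw [add_div]

private lemma re_Pl {ρ : ℝ} (he : 200 ≤ e) (hκ : 0 < κ) (ht : 0 < t.re) (hr3 : rz e κ t ≤ 3)
    (h2r : 2 * rz e κ t ^ 2 ≤ Sz e κ t) (hρ : 0 < ρ) (hρr : ρ ≤ rz e κ t)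
    (hw : Sz e κ t / e + ρ ^ 2 / e + ρ ^ 3 / e ≤ ρ ^ 2 / 5) :
    4 / 5 * ρ ≤ (Pl e κ t).re := by
  have he0 : 0 < e := by linarith
  have hcore := core_real he hρ hρr hr3 hw
  have hPl := Pl_sub t (ls_bound he hκ ht hr3 h2r)
  have hr0 : 0 < rz e κ t := rz_pos he0 hκ ht
  have hc1 := Real.one_le_cosh κ
  obtain ⟨r, hrd⟩ : ∃ r, r = rz e κ t := ⟨_, rfl⟩
  rw [← hrd] at hcore hPl hr0
  have hre : ((e : ℂ) * log (Qk κ t)).re = e * Real.log ‖Qk κ t‖ := by
    rw [Complex.re_ofReal_mul, Complex.log_re]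
  have hlog : r - r ^ 2 / (2 * e) ≤ e * Real.log ‖Qk κ t‖ := by
    have h1 : 1 + r / e ≤ ‖Qk κ t‖ := by
      have h2 := Complex.re_le_norm (Qk κ t)
      rw [Q_re he0, ← hrd] at h2
      linarith
    have h3 : 0 ≤ r / e := by positivity
    have h4 := (log_ge h3).trans (Real.log_le_log (by linarith) h1)
    have h5 := mul_le_mul_of_nonneg_left h4 he0.le
    have h6 : e * (r / e - (r / e) ^ 2 / 2) = r - r ^ 2 / (2 * e) := by field_simp
    rw [h6] at h5
    exact h5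
  have h1 := (Complex.abs_re_le_norm _).trans hPl
  rw [Complex.sub_re, hre] at h1
  have h2 := (abs_le.1 h1).1
  linarith

/-- **the terminal level**: on `[t, shf t]` `MB (1/r)` (`MB_harn`; `r` increases), `lf_sub`: `‖log f(shf t) - log f(t)‖ ≤ (S/e + r²/e)/r`,
`|qq t| = exp (-Re Pl)`, `Re Pl ≥ e log |Q| - (S/e + r²/e)/r`, `e log |Q| ≥ e log (1 + r/e) ≥ r - r²/(2e)`, so `|qq| ≤ e^(-4r/5) ≤ u`,
`f = 1/(1 + qq)`; `|H| ≤ |f|/r` (`deriv_harn`) -/
theorem term_sound (C : CcOK e κ c) (h : Win e κ c rl rh yl wl t) (hok : (term c rl rh wl).ok = true) :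
    DiscOK e κ (term c rl rh wl) t := by
  obtain ⟨x, den, u, P, Fu, Hu, r2, ⟨bb, hterm⟩, hrl, A1, hd0, A2, A3, A4, A5, A6, A7, A8, A9, A10,
    A11⟩ := term_nat hok
  rw [hterm]
  have he0 : 0 < e := by linarith [C.e200]
  have hκ := C.κ0
  have hi := C.E
  have ht := h.re
  have hr0 : 0 < rz e κ t := rz_pos he0 hκ ht
  have hr3 : rz e κ t ≤ 3 := h.rh.trans A11
  have h2r : 2 * rz e κ t ^ 2 ≤ Sz e κ t := by
    have h1 : rz e κ t ^ 2 / e ≤ vn rh * vn rh * vn c.E := by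
      have h2 : rz e κ t ^ 2 ≤ vn rh * vn rh := by
        rw [sq]
        exact mul_le_mul h.rh h.rh hr0.le (vn_nonneg _)
      calc rz e κ t ^ 2 / e = rz e κ t ^ 2 * (1 / e) := by ring
        _ ≤ vn rh * vn rh * vn c.E := mul_le_mul h2 hi (by positivity)
          (mul_nonneg (vn_nonneg _) (vn_nonneg _))
    have h2 : 2 * rz e κ t ^ 2 / e ≤ Sz e κ t / e := by
      have h3 : 2 * rz e κ t ^ 2 / e = 2 * (rz e κ t ^ 2 / e) := by ring
      rw [h3]
      linarith [h.wl]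
    exact (div_le_div_iff_of_pos_right he0).1 h2
  have hρ2 : vn rl ^ 2 / e ≤ vn r2 := by
    calc vn rl ^ 2 / e = vn rl * vn rl * (1 / e) := by ring
      _ ≤ vn rl * vn rl * vn c.E := mul_le_mul_of_nonneg_left hi (by positivity)
      _ ≤ _ := A8
  have hρ3 : vn rl ^ 3 / e ≤ vn r2 * vn rl := by
    have h2 := mul_le_mul_of_nonneg_right hρ2 hrl.le
    have h3 : vn rl ^ 2 / e * vn rl = vn rl ^ 3 / e := by ring
    rwa [h3] at h2
  have hRe := re_Pl C.e200 hκ ht hr3 h2r hrl h.rl (by linarith [h.wh])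
  -- `qq`
  have hq : ‖qq e κ t‖ ≤ vn u := by
    rw [qq_exp he0 hκ ht, norm_exp, neg_re]
    have hx0 := vn_nonneg x
    have h1 : Real.exp (-(Pl e κ t).re) ≤ Real.exp (-vn x) := by
      apply Real.exp_le_exp.2
      linarith
    refine h1.trans ?_
    rw [Real.exp_neg]
    have h2 := Real.quadratic_le_exp_of_nonneg hx0
    have h3 : vn den ≤ Real.exp (vn x) := A2.trans h2
    calc (Real.exp (vn x))⁻¹ ≤ (vn den)⁻¹ := inv_anti₀ hd0 h3
      _ ≤ vn u := by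
        rw [inv_le_iff_one_le_mul₀ hd0]
        exact A3
  have hf0 := fT_norm_pos he0 hκ ht
  have hf2 : ‖fT e κ t‖ ≤ ‖fT e κ t - 1‖ + 1 := by
    have := norm_add_le (fT e κ t - 1) 1
    rw [sub_add_cancel, norm_one] at this
    exact this
  have hf1 : ‖fT e κ t - 1‖ ≤ vn P := by
    have h1 : ‖fT e κ t - 1‖ = ‖qq e κ t‖ * ‖fT e κ t‖ := by
      rw [norm_sub_rev]
      unfold qq
      rw [norm_div, div_mul_cancel₀ _ hf0.ne']
    have h3 : ‖fT e κ t - 1‖ ≤ vn u * (‖fT e κ t - 1‖ + 1) := by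
      calc ‖fT e κ t - 1‖ = ‖qq e κ t‖ * ‖fT e κ t‖ := h1
        _ ≤ vn u * (‖fT e κ t - 1‖ + 1) :=
          mul_le_mul hq hf2 (norm_nonneg _) (vn_nonneg _)
    have h4 : ‖fT e κ t - 1‖ * (1 - vn u) ≤ vn P * (1 - vn u) := by
      refine le_trans ?_ A5
      linarith
    exact le_of_mul_le_mul_right h4 (by linarith)
  have hf3 : ‖fT e κ t‖ ≤ vn Fu := by
    rw [A6]
    linarith
  have hH : ‖Hh e κ t‖ ≤ vn Hu := by
    have hK : 0 < Real.sinh κ := Real.sinh_pos_iff.2 hκ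
    have h1 := deriv_harn he0 hκ ht
    have h2 := gR_lt_norm (e := e) (κ := κ) t
    have h3 : ‖Hh e κ t‖ = ‖deriv (fT e κ) t‖ / (e * Real.sinh κ) := by
      unfold Hh
      rw [norm_div, norm_neg, Complex.norm_real, Real.norm_of_nonneg (by positivity)]
    have h4 : ‖Hh e κ t‖ * rz e κ t = ‖deriv (fT e κ) t‖ * t.re := by
      rw [h3]
      unfold rz bet
      field_simp
    have h5 : ‖Hh e κ t‖ * rz e κ t ≤ vn Hu * rz e κ t := by
      rw [h4]
      calc ‖deriv (fT e κ) t‖ * t.re ≤ ‖fT e κ t‖ := by linarith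
        _ ≤ vn Fu := hf3
        _ ≤ vn Hu * vn rl := A7
        _ ≤ vn Hu * rz e κ t := mul_le_mul_of_nonneg_left h.rl (vn_nonneg _)
    exact le_of_mul_le_mul_right h5 hr0
  have hv1 : vc 268435456 0 = 1 := by
    unfold vc vi
    push_cast
    norm_num
  have hv0 : vc 0 0 = 0 := by
    unfold vc vi
    push_cast
    norm_num
  refine ⟨?_, ?_, hf3, hH⟩
  · change ‖fT e κ t - vc 268435456 0‖ ≤ vn P
    rw [hv1]
    exact hf1
  · change ‖Hh e κ t - vc 0 0‖ ≤ vn Hu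
    rw [hv0, sub_zero]
    exact hH

end

end Pool.Agent.helper31.A2
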