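import Pool.Agent.helper31.A2.WinStep
import Pool.Agent.helper31.A2.LPsi
import Pool.Agent.helper31.A2.Centre
import Pool.Agent.helper31.A2.Comb
import Pool.Agent.helper31.A2.Term

/-!
# A2: the chain
-/

namespace Pool.Agent.helper31.A2

open Complex ComplexConjugate Set Filter Topology
open Pool.Agent.helper31.EQ.Y Pool.Agent.helper31.EQ.R
open Pool.Agent.helper12.EQL Pool.Agent.helper12.RP Pool.Agent.helper12.FF
open Pool.Agent.helper63.FF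
open Pool.Agent.helper31.EQB

section

variable {e κ : ℝ} {c : Cc} {rl rh yl wl : ℕ} {t : ℂ}

private theorem vn_nonneg (n : ℕ) : 0 ≤ vn n := by
  unfold vn
  positivity

private theorem vn_le {a b : ℕ} (h : a ≤ b) : vn a ≤ vn b := by
  unfold vn
  have : (a : ℝ) ≤ b := by exact_mod_cast h
  gcongr

/-- the middle of an interval -/
private theorem mid {La Lb x0 : ℕ} {Λ : ℝ} (hab : La ≤ Lb) (h1 : vn La ≤ Λ) (h2 : Λ ≤ vn Lb)
    (hx0 : x0 = Nat.shiftRight (Nat.add La Lb) 1) :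
    |vn x0 - Λ| ≤ vn (Nat.succ (Nat.shiftRight (Nat.sub Lb La) 1)) := by
  have e1 : x0 = (La + Lb) / 2 := hx0
  have e2 : Nat.succ (Nat.shiftRight (Nat.sub Lb La) 1) = (Lb - La) / 2 + 1 := rfl
  rw [e2]
  have h3 : x0 ≤ La + ((Lb - La) / 2 + 1) := by omega
  have h4 : Lb ≤ x0 + ((Lb - La) / 2 + 1) := by omega
  have h5 : (x0 : ℝ) ≤ La + (((Lb - La) / 2 + 1 : ℕ) : ℝ) := by exact_mod_cast h3
  have h6 : (Lb : ℝ) ≤ x0 + (((Lb - La) / 2 + 1 : ℕ) : ℝ) := by exact_mod_cast h4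
  unfold vn at *
  rw [abs_le]
  constructor
  · have h7 : (Lb : ℝ) / 2 ^ 28 ≤ (x0 : ℝ) / 2 ^ 28 + (((Lb - La) / 2 + 1 : ℕ) : ℝ) / 2 ^ 28 := by
      rw [← add_div]
      gcongr
    linarith
  · have h7 : (x0 : ℝ) / 2 ^ 28 ≤ (La : ℝ) / 2 ^ 28 + (((Lb - La) / 2 + 1 : ℕ) : ℝ) / 2 ^ 28 := by
      rw [← add_div]
      gcongr
    linarith

/-- the disc of `b` -/
private theorem disc_b (C : CcOK e κ c) (h : Win e κ c rl rh yl wl t)
    {L dL p rho m eta : ℕ} {br bi : ℤ}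
    (hLab : Llo c rl wl (r2f c rl) ≤ Lhi c rh) (hpab : p1f c rh yl ≤ p2f c rl)
    (hL : L = Nat.shiftRight (Nat.add (Llo c rl wl (r2f c rl)) (Lhi c rh)) 1)
    (hdL : dL = Nat.succ (Nat.shiftRight (Nat.sub (Lhi c rh) (Llo c rl wl (r2f c rl))) 1))
    (hp : p = Nat.shiftRight (Nat.add (p1f c rh yl) (p2f c rl)) 1)
    (hrho : rho = nrm dL (Nat.succ (Nat.succ (Nat.shiftRight (Nat.sub (p2f c rl) (p1f c rh yl)) 1))))
    (hrho1 : rho ≤ 134217728) (hm : Real.exp (-vn L) ≤ vn m)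
    (hB : ‖vc br bi - cexp (-(vn L : ℂ) + ((Real.pi - vn p : ℝ) : ℂ) * I)‖ ≤ vn eta) :
    ‖-cexp (-((e : ℂ) * log (Qk κ t))) - vc br bi‖ ≤
      vn m * (vn rho * (1 + vn dL / 2 + vn dL ^ 2 / 4)) + vn eta ∧
    ‖vc br bi‖ ≤ vn m + vn eta := by
  obtain ⟨Λ, hΛ⟩ : ∃ Λ : ℝ, Λ = e * Real.log ‖Qk κ t‖ := ⟨_, rfl⟩
  obtain ⟨ψ, hψ⟩ : ∃ ψ : ℝ, ψ = e * arg (Qk κ t) := ⟨_, rfl⟩
  have h1 := L_lo C h
  have h2 := L_hi C h
  have h3 := psi_lo C h
  have h4 := psi_hi C h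
  rw [← hΛ] at h1 h2
  rw [← hψ] at h3 h4
  have hx := mid hLab h1 h2 hL
  rw [← hdL] at hx
  have hy := mid hpab h3 h4 hp
  obtain ⟨dp, hdp⟩ : ∃ dp, dp = Nat.succ (Nat.succ (Nat.shiftRight (Nat.sub (p2f c rl)
    (p1f c rh yl)) 1)) := ⟨_, rfl⟩
  rw [← hdp] at hrho
  have hy' : |vn p - ψ| ≤ vn dp := by
    refine hy.trans (vn_le ?_)
    rw [hdp]
    exact Nat.le_succ _
  have hn := vn_nrm dL dp
  rw [← hrho] at hn
  have hdL0 := vn_nonneg dL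
  have hdL1 : vn dL ≤ vn rho := by
    refine le_trans ?_ hn
    apply Real.le_sqrt_of_sq_le
    nlinarith [sq_nonneg (vn dp)]
  have hrho2 : vn rho ≤ 1 / 2 := by
    have := vn_le hrho1
    refine this.trans (le_of_eq ?_)
    unfold vn
    norm_num
  have hexp := exp_disc hx (hdL1.trans hrho2) hy' hn
  obtain ⟨B, hBdef⟩ : ∃ B : ℂ, B = cexp (-(vn L : ℂ) + ((Real.pi - vn p : ℝ) : ℂ) * I) := ⟨_, rfl⟩
  rw [← hBdef] at hB
  have hBn : ‖B‖ = Real.exp (-vn L) := by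
    rw [hBdef, Complex.norm_exp]
    congr 1
    simp
  have hb : -cexp (-((e : ℂ) * log (Qk κ t))) =
      B * cexp (((vn L - Λ : ℝ) : ℂ) + ((vn p - ψ : ℝ) : ℂ) * I) := by
    have e1 : (e : ℂ) * log (Qk κ t) = (Λ : ℂ) + (ψ : ℂ) * I := by
      rw [hΛ, hψ, Complex.log]
      push_cast
      ring
    have e2 : -cexp (-((e : ℂ) * log (Qk κ t))) =
        cexp ((Real.pi : ℂ) * I) * cexp (-((e : ℂ) * log (Qk κ t))) := by
      rw [Complex.exp_pi_mul_I]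
      ring
    rw [e2, e1, hBdef, ← Complex.exp_add, ← Complex.exp_add]
    congr 1
    push_cast
    ring
  constructor
  · have e3 : -cexp (-((e : ℂ) * log (Qk κ t))) - vc br bi =
        B * (cexp (((vn L - Λ : ℝ) : ℂ) + ((vn p - ψ : ℝ) : ℂ) * I) - 1) - (vc br bi - B) := by
      rw [hb]
      ring
    rw [e3]
    refine (norm_sub_le _ _).trans (add_le_add ?_ hB)
    rw [norm_mul, hBn]
    exact mul_le_mul hm hexp (norm_nonneg _) (vn_nonneg m)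
  · have e4 : vc br bi = B + (vc br bi - B) := by ring
    rw [e4]
    refine (norm_add_le _ _).trans (add_le_add ?_ hB)
    rw [hBn]
    exact hm

/-- **soundness of `lev`** -/
theorem lev_sound (C : CcOK e κ c) : ∀ (ms : List ℕ) (rl rh yl wl L0 p0 m0 eta0 : ℕ) (br0 bi0 : ℤ),
    Real.exp (-vn L0) ≤ vn m0 → m0 ≤ 268500000 → eta0 ≤ 26843546 →
    ‖vc br0 bi0 - cexp (-(vn L0 : ℂ) + ((Real.pi - vn p0 : ℝ) : ℂ) * I)‖ ≤ vn eta0 →
    (lev c ms rl rh yl wl L0 p0 m0 eta0 br0 bi0).ok = true →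
    (∀ t, Win e κ c rl rh yl wl t → DiscOK e κ (lev c ms rl rh yl wl L0 p0 m0 eta0 br0 bi0) t) ∧
      LS e κ c ms rl rh yl wl := by
  intro ms
  induction ms with
  | nil =>
    intro rl rh yl wl L0 p0 m0 eta0 br0 bi0 _ _ _ _ hok
    exact ⟨fun t ht => term_sound C ht hok, trivial⟩
  | cons M ms ih =>
    intro rl rh yl wl L0 p0 m0 eta0 br0 bi0 hm0 hm1 he0 h0 hok
    obtain ⟨La, hLa⟩ : ∃ x, x = Llo c rl wl (r2f c rl) := ⟨_, rfl⟩
    obtain ⟨Lb, hLb⟩ : ∃ x, x = Lhi c rh := ⟨_, rfl⟩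
    obtain ⟨pa, hpa⟩ : ∃ x, x = p1f c rh yl := ⟨_, rfl⟩
    obtain ⟨pb, hpb⟩ : ∃ x, x = p2f c rl := ⟨_, rfl⟩
    obtain ⟨L, hL⟩ : ∃ x, x = Nat.shiftRight (Nat.add La Lb) 1 := ⟨_, rfl⟩
    obtain ⟨dL, hdL⟩ : ∃ x, x = Nat.succ (Nat.shiftRight (Nat.sub Lb La) 1) := ⟨_, rfl⟩
    obtain ⟨p, hp⟩ : ∃ x, x = Nat.shiftRight (Nat.add pa pb) 1 := ⟨_, rfl⟩
    obtain ⟨rho, hrho⟩ : ∃ x, x = nrm dL (Nat.succ (Nat.succ (Nat.shiftRight (Nat.sub pb pa) 1))) :=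
      ⟨_, rfl⟩
    obtain ⟨rl', hrl'⟩ : ∃ x, x = nrl c rl wl (r2f c rl) (fcf c rl) := ⟨_, rfl⟩
    obtain ⟨la, hla⟩ : ∃ x, x = L - L0 := ⟨_, rfl⟩
    obtain ⟨y, hy⟩ : ∃ x : ℤ, x = (p0 : ℤ) - (p : ℤ) := ⟨_, rfl⟩
    obtain ⟨tt, htt⟩ : ∃ x, x = tay (-(la : ℤ)) y := ⟨_, rfl⟩
    obtain ⟨br, hbr⟩ : ∃ x, x = mi br0 tt.1 - mi bi0 tt.2 := ⟨_, rfl⟩
    obtain ⟨bi, hbi⟩ : ∃ x, x = mi br0 tt.2 + mi bi0 tt.1 := ⟨_, rfl⟩
    obtain ⟨d2, hd2⟩ : ∃ x, x = mu la la + mu y.natAbs y.natAbs := ⟨_, rfl⟩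
    obtain ⟨eta, heta⟩ : ∃ x, x = eta0 + mu (m0 + eta0) (mu d2 d2 / 19 + 1) + 12 := ⟨_, rfl⟩
    obtain ⟨m, hm⟩ : ∃ x, x = mu m0 (268435456 - la + mu la la / 2 + 1) := ⟨_, rfl⟩
    obtain ⟨R, hR⟩ : ∃ x, x = lev c ms rl' (rh + c.wh) (nyl (ddf c rh) yl) (nwl (ddf c rh) wl)
      L p m eta br bi := ⟨_, rfl⟩
    have hlev : lev c (M :: ms) rl rh yl wl L0 p0 m0 eta0 br0 bi0 =
        bif and (and (and (Nat.ble (r2f c rl) wl) (Nat.ble (fcf c rl) 268435456))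
            (and (Nat.ble La Lb) (Nat.ble pa pb)))
          (and (and (and (Nat.ble L0 L) (Nat.ble rho 134217728))
            (and (Nat.ble la 134217728) (Nat.ble rl' rh)))
            (and (Nat.ble m 268500000) (and (Nat.ble eta 26843546) (Nat.ble y.natAbs 134217728))))
        then comb c rh rho dL m eta br bi M R
        else ⟨false, 0, 0, 0, 0, 0, 0, 0, 0⟩ := by
      rw [hR, hm, heta, hd2, hbi, hbr, htt, hy, hla, hrl', hrho, hp, hdL, hL, hpb, hpa, hLb, hLa]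
      rfl
    rw [hlev] at hok ⊢
    clear hlev
    generalize hcnd : (and (and (and (Nat.ble (r2f c rl) wl) (Nat.ble (fcf c rl) 268435456))
            (and (Nat.ble La Lb) (Nat.ble pa pb)))
          (and (and (and (Nat.ble L0 L) (Nat.ble rho 134217728))
            (and (Nat.ble la 134217728) (Nat.ble rl' rh)))
            (and (Nat.ble m 268500000) (and (Nat.ble eta 26843546)
              (Nat.ble y.natAbs 134217728))))) = cnd at hok ⊢
    cases cnd with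
    | false => exact absurd hok (by simp)
    | true =>
      rw [cond_true] at hok ⊢
      simp only [Bool.and_eq_true, Nat.ble_eq] at hcnd
      obtain ⟨⟨⟨c1, c2⟩, c3, c4⟩, ⟨⟨c5, c6⟩, c7, c8⟩, c9, c10, c11⟩ := hcnd
      have hRok : R.ok = true := by
        have h1 : (and R.ok _) = true := hok
        exact (Bool.and_eq_true_iff.1 h1).1
      obtain ⟨hB, hmL⟩ := centre_step (L0 := L0) (L := L) (p0 := p0) (p := p) (m0 := m0)
        (eta0 := eta0) (br0 := br0) (bi0 := bi0) c5 (by rw [← hla]; exact c7)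
        (by rw [← hy]; exact c11) hm0 hm1 he0 h0
      rw [← hla, ← hy, ← htt, ← hbr, ← hbi, ← hd2, ← heta] at hB
      rw [← hla, ← hm] at hmL
      rw [hR] at hRok
      obtain ⟨ih1, ih2⟩ := ih rl' (rh + c.wh) (nyl (ddf c rh) yl) (nwl (ddf c rh) wl)
        L p m eta br bi hmL c9 c10 hB hRok
      rw [← hR] at ih1
      have key : ∀ t, Win e κ c rl rh yl wl t →
          DiscOK e κ (comb c rh rho dL m eta br bi M R) t ∧
          ((comb c rh rho dL m eta br bi M R).ok = true →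
            R.ok = true ∧ (M ≠ 0 → MB e κ ((M : ℝ) / 1024) t)) := by
        intro t ht
        have hw := win_step C ht c1 c2
        rw [← hrl'] at hw
        have hd := ih1 _ hw
        obtain ⟨b1, b2⟩ := disc_b C ht (L := L) (dL := dL) (p := p) (rho := rho) (m := m)
          (eta := eta) (br := br) (bi := bi) (by rw [← hLa, ← hLb]; exact c3)
          (by rw [← hpa, ← hpb]; exact c4) (by rw [hL, hLa, hLb]) (by rw [hdL, hLa, hLb])
          (by rw [hp, hpa, hpb]) (by rw [hrho, hpa, hpb]) c6 hmL hB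
        exact comb_sound C ht.re ht.rh ((vn_nonneg yl).trans ht.yl) ht.yh b1 b2 hd
      refine ⟨fun t ht => (key t ht).1, ?_, ?_, ?_⟩
      · intro hM z hz
        exact ((key z hz).2 hok).2 hM
      · rw [← hrl']
        exact c8
      · rw [← hrl']
        exact ih2

end

end Pool.Agent.helper31.A2
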