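import Pool.Agent.helper31.EQB.Fb

/-!
# A2-7: bounds of `log f` by `w = √(S/e)`
-/

namespace Pool.Agent.helper31.A2

open Complex ComplexConjugate Set Filter Topology
open Pool.Agent.helper31.EQ.Y Pool.Agent.helper31.EQ.R
open Pool.Agent.helper12.EQL Pool.Agent.helper12.RP Pool.Agent.helper12.FF
open Pool.Agent.helper31.EQB

private theorem lfg_log_one {e κ : ℝ} (he : 0 < e) (hκ : 0 < κ) :
    ‖log (fT e κ 1)‖ ≤ 7 / 10 := by
  rw [fT_one he hκ]
  have h1 : 0 < Real.exp (-(e * κ)) := Real.exp_pos _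
  have h2 : Real.exp (-(e * κ)) < 1 := by
    rw [Real.exp_lt_one_iff]
    have := mul_pos he hκ
    linarith
  have h3 : (0:ℝ) < 1 / (1 + Real.exp (-(e * κ))) := by positivity
  rw [← Complex.ofReal_log h3.le, Complex.norm_real, Real.norm_eq_abs, one_div, Real.log_inv, abs_neg]
  have h4 : 0 ≤ Real.log (1 + Real.exp (-(e * κ))) := Real.log_nonneg (by linarith)
  rw [abs_of_nonneg h4]
  refine (Real.log_le_log (by linarith) (by linarith : _ ≤ (2:ℝ))).trans ?_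
  have := Real.log_two_lt_d9
  linarith

private theorem lfg_pi : (Real.pi / 2) ^ 2 ≤ 24675 / 10000 := by
  have h := Real.pi_lt_d4
  have h0 := Real.pi_pos
  nlinarith

/-- `‖log z‖ ≤ B` -/
private theorem lfg_log {z : ℂ} {a B : ℝ} (hz : 1 / 2 < z.re) (h1 : Real.log ‖z‖ ≤ a)
    (h2 : Real.log 2 ≤ a) (hB0 : 0 ≤ B) (hB : a ^ 2 + 24675 / 10000 ≤ B ^ 2) : ‖log z‖ ≤ B := by
  have hlo2 : 1 / 2 < ‖z‖ := hz.trans_le (re_le_norm _)
  have hre : |Real.log ‖z‖| ≤ a := by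
    rw [abs_le]
    constructor
    · have h3 := Real.log_le_log (by norm_num : (0:ℝ) < 1 / 2) hlo2.le
      rw [one_div, Real.log_inv] at h3
      linarith
    · exact h1
  have him : |arg z| ≤ Real.pi / 2 := abs_arg_le_pi_div_two_iff.2 (by linarith)
  have h4 : ‖log z‖ ^ 2 = Real.log ‖z‖ ^ 2 + arg z ^ 2 := by
    rw [← Complex.normSq_eq_norm_sq, Complex.normSq_apply, log_re, log_im]
    ring
  have h5 : Real.log ‖z‖ ^ 2 ≤ a ^ 2 := by
    rw [← sq_abs]
    exact pow_le_pow_left₀ (abs_nonneg _) hre 2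
  have h6 : arg z ^ 2 ≤ (Real.pi / 2) ^ 2 := by
    rw [← sq_abs]
    exact pow_le_pow_left₀ (abs_nonneg _) him 2
  have h7 := lfg_pi
  exact le_of_sq_le_sq (by linarith) hB0

private theorem lfg_e2 : (7389 : ℝ) / 1000 ≤ Real.exp 2 := by
  have h4 := Real.exp_one_gt_d9
  have h5 : Real.exp 2 = Real.exp 1 ^ 2 := by
    rw [← Real.exp_nat_mul]; norm_num
  rw [h5]
  have h6 : (2.7182818283 : ℝ) ^ 2 ≤ Real.exp 1 ^ 2 := pow_le_pow_left₀ (by norm_num) h4.le 2
  refine le_trans ?_ h6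
  norm_num

private theorem lfg_log75 : Real.log (15 / 2) ≤ 2015 / 1000 := by
  rw [Real.log_le_iff_le_exp (by norm_num)]
  have h1 : Real.exp (2015 / 1000) = Real.exp 2 * Real.exp (15 / 1000) := by
    rw [← Real.exp_add]; norm_num
  rw [h1]
  have h2 : (1 : ℝ) + 15 / 1000 + (15 / 1000) ^ 2 / 2 ≤ Real.exp (15 / 1000) :=
    Real.quadratic_le_exp_of_nonneg (by norm_num)
  calc (15 / 2 : ℝ) ≤ 7389 / 1000 * (1 + 15 / 1000 + (15 / 1000) ^ 2 / 2) := by norm_num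
    _ ≤ _ := mul_le_mul lfg_e2 h2 (by norm_num) (Real.exp_pos _).le

private theorem lfg_log_low {V : ℝ} (hV : 4555 / 1000 ≤ V) : 3 / 2 ≤ Real.log V := by
  have hV0 : 0 < V := by linarith
  have h1 : 2 * (3 / 2) ≤ 2 * Real.log V := by
    have h2 : 2 * Real.log V = Real.log (V ^ 2) := by
      rw [Real.log_pow]; norm_num
    rw [h2, Real.le_log_iff_exp_le (by positivity)]
    have h4 := Real.exp_one_lt_d9
    have h5 : Real.exp (2 * (3 / 2)) = Real.exp 1 ^ 3 := by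
      rw [← Real.exp_nat_mul]; norm_num
    rw [h5]
    have h6 : Real.exp 1 ^ 3 ≤ (2.7182818286 : ℝ) ^ 3 := pow_le_pow_left₀ (Real.exp_pos _).le h4.le 3
    have h7 : (4555 / 1000 : ℝ) ^ 2 ≤ V ^ 2 := pow_le_pow_left₀ (by norm_num) hV 2
    refine h6.trans (le_trans ?_ h7)
    norm_num
  linarith

private theorem lfg_log_up {V : ℝ} (h0 : 0 < V) (hV : V ≤ 3579 / 100) :
    Real.log V ≤ 359 / 100 := by
  have hE : (33 : ℝ) ≤ Real.exp (7 / 2) := by
    have h5 : Real.exp (7 / 2) ^ 2 = Real.exp 1 ^ 7 := by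
      rw [← Real.exp_nat_mul, ← Real.exp_nat_mul]; norm_num
    have h4 := Real.exp_one_gt_d9
    have h6 : (2.7182818283 : ℝ) ^ 7 ≤ Real.exp 1 ^ 7 := pow_le_pow_left₀ (by norm_num) h4.le 7
    have h7 : (33 : ℝ) ^ 2 ≤ Real.exp (7 / 2) ^ 2 := by
      rw [h5]
      refine le_trans ?_ h6
      norm_num
    exact le_of_sq_le_sq h7 (Real.exp_pos _).le
  have h1 : 0 < V / Real.exp (7 / 2) := by positivity
  have h2 := Real.log_le_sub_one_of_pos h1
  rw [Real.log_div h0.ne' (Real.exp_pos _).ne', Real.log_exp] at h2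
  have h3 : V / Real.exp (7 / 2) ≤ (3579 / 100) / 33 := by
    gcongr
  have h4 : (3579 / 100 : ℝ) / 33 ≤ 109 / 100 := by norm_num
  linarith

/-- `‖log f(s) - log f(1)‖ ≤ 7/10 + √(a² + (π/2)²)`, `1/2 < Re f`, `|log |f|| ≤ max (log 2, log (1 + 8/(5w))) =: a` (`f_sup`), `a ≥ 3/2` for
`w ≤ 9/20`; `√(a² + (π/2)²) ≤ 918/1000 + 836/1000 a` for `3/2 ≤ a ≤ 359/100` (chord; if `w ≥ 46/1000` then `a ≤ 359/100`),
`log (1 + X) ≤ log (15/2) + (X - 13/2)/(15/2)`, `X = 8/(5w)`, `log (15/2) ≤ 2.0150`. -/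
theorem lf_w {e κ : ℝ} (he : 200 ≤ e) (hκ : 0 < κ) (hK : Real.sinh κ ≤ 1 / 10) {s : ℂ}
    (hs : 0 < s.re) {w : ℝ} (hw : 46 / 1000 ≤ w) (hw1 : w ≤ 9 / 20) (hw2 : w ^ 2 ≤ Sz e κ s / e) :
    ‖log (fT e κ s) - log (fT e κ 1)‖ ≤ 258 / 100 + 1785 / 10000 / w := by
  have he0 : 0 < e := by linarith
  have hw0 : 0 < w := by linarith
  have hSe : 0 < Sz e κ s / e := lt_of_lt_of_le (by positivity) hw2
  have hsq : √(e / Sz e κ s) ≤ 1 / w := by
    rw [Real.sqrt_le_left (by positivity)]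
    have h1 : e / Sz e κ s = 1 / (Sz e κ s / e) := by
      rw [one_div_div]
    rw [h1, div_pow, one_pow]
    exact one_div_le_one_div_of_le (by positivity) hw2
  obtain ⟨V, hV⟩ : ∃ V, V = 1 + 8 / 5 * (1 / w) := ⟨_, rfl⟩
  have hup : ‖fT e κ s‖ ≤ V := by
    rw [hV]
    refine (f_sup (by linarith) hκ hK hs).trans ?_
    linarith
  have hi1 : 20 / 9 ≤ 1 / w := by
    rw [le_div_iff₀ hw0]
    linarith
  have hi2 : 1 / w ≤ 1000 / 46 := by
    rw [div_le_iff₀ hw0]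
    linarith
  have hV1 : 4555 / 1000 ≤ V := by rw [hV]; linarith
  have hV2 : V ≤ 3579 / 100 := by rw [hV]; linarith
  have hV0 : 0 < V := by linarith
  have ha1 := lfg_log_low hV1
  have ha2 := lfg_log_up hV0 hV2
  have ha3 : Real.log V ≤ 2015 / 1000 + (V / (15 / 2) - 1) := by
    have h1 : 0 < V / (15 / 2) := by positivity
    have h2 := Real.log_le_sub_one_of_pos h1
    rw [Real.log_div hV0.ne' (by norm_num)] at h2
    have := lfg_log75
    linarith
  have hlo := half_lt_re_fT he0 hκ hs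
  have hf0 : 0 < ‖fT e κ s‖ := by
    have := hlo.trans_le (re_le_norm (fT e κ s))
    linarith
  have hl2 : Real.log 2 ≤ Real.log V := by
    have := Real.log_two_lt_d9
    linarith
  obtain ⟨a, ha⟩ : ∃ a, a = Real.log V := ⟨_, rfl⟩
  have h3 : ‖log (fT e κ s)‖ ≤ 918 / 1000 + 836 / 1000 * a := by
    rw [← ha] at ha1 ha2 hl2
    refine lfg_log hlo (a := a) (by rw [ha]; exact Real.log_le_log hf0 hup) hl2
      (by linarith) ?_
    nlinarith [mul_nonneg (sub_nonneg.2 ha1) (sub_nonneg.2 ha2)]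
  rw [← ha] at ha3
  refine (norm_sub_le _ _).trans ?_
  have h4 := lfg_log_one (e := e) (κ := κ) he0 hκ
  have h5 : 1785 / 10000 / w = 1785 / 10000 * (1 / w) := by ring
  rw [h5]
  rw [hV] at ha3
  linarith

/-- `|f| ≤ 1` (`f_one`), `√((log 2)² + (π/2)²) ≤ 172/100` -/
theorem lf_y {e κ : ℝ} (he : 200 ≤ e) (hκ : 0 < κ) {s : ℂ}
    (hs : 0 < s.re) (hy : |yz e κ s| ≤ Real.pi / 3) :
    ‖log (fT e κ s) - log (fT e κ 1)‖ ≤ 242 / 100 := by
  have he0 : 0 < e := by linarith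
  have hup := f_one he0 hκ hs hy
  have hlo := half_lt_re_fT he0 hκ hs
  have hl2 := Real.log_two_lt_d9
  have hl0 : 0 < Real.log 2 := Real.log_pos (by norm_num)
  have h3 : ‖log (fT e κ s)‖ ≤ 172 / 100 := by
    refine lfg_log hlo (a := Real.log 2) ?_ le_rfl (by norm_num) (by nlinarith)
    have := Real.log_nonpos (norm_nonneg _) hup
    linarith
  refine (norm_sub_le _ _).trans ?_
  have h4 := lfg_log_one (e := e) (κ := κ) he0 hκ
  linarith

end Pool.Agent.helper31.A2
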