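import Pool.Agent.helper31.EQB.LinkStep
import Pool.Agent.helper31.EQB.MBx2

/-!
# A2-1, part 0: structures and numbers of the rigid link for arbitrary bounds of the logarithmic derivative
-/

namespace Pool.Agent.helper31.A2

open Complex ComplexConjugate Set Filter Topology
open Pool.Agent.helper31.EQ.Y Pool.Agent.helper31.EQ.R
open Pool.Agent.helper12.EQL Pool.Agent.helper12.RP Pool.Agent.helper12.FF
open Pool.Agent.helper63.FF
open Pool.Agent.helper31.EQB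

variable {e κ : ℝ}

/-- A point with its data: position `≥ x`, `|y| ≤ ys`, `wa ≤ S/e ≤ wb`, `r ≤ R`. -/
structure PtG (e κ x ys wa wb R : ℝ) (z : ℂ) : Prop where
  re : 0 < z.re
  om : om κ x z
  y : |yz e κ z| ≤ ys
  lo : wa ≤ Sz e κ z / e
  hi : Sz e κ z / e ≤ wb
  r : rz e κ z ≤ R

theorem Qsq_g (κ : ℝ) (t : ℂ) :
    ‖Qk κ t‖ ^ 2 = (Real.cosh κ + Real.sinh κ * t.re) ^ 2 + (Real.sinh κ * t.im) ^ 2 := by
  rw [Complex.sq_norm, normSq_apply]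
  unfold Qk
  simp only [add_re, add_im, re_ofReal_mul, im_ofReal_mul, ofReal_re, ofReal_im]
  ring

/-- `Sz_shf_ge` with `10 S/e` and `|y| ≤ 10/3`: `2 y² (1 + 2 c 10 + 9/10) ≤ 2·(100/9)·22.3 = 495.6 ≤ 500`
(`c ≤ 1 + K²/2 ≤ 1.0004`) -/
theorem Sz_shf_ge2 (he : 200 ≤ e) (hκ : 0 < κ) (hK : Real.sinh κ ≤ 1 / 40) {t : ℂ}
    (ht : 0 < t.re) (hy : |yz e κ t| ≤ 10 / 3) (hr : rz e κ t ≤ 10 * Sz e κ t / e)
    (hr2 : rz e κ t ^ 2 ≤ 9 / 10 * Sz e κ t) :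
    (1 - 500 / e ^ 2) * Sz e κ t ≤ Sz e κ (shf κ t) ∧
      Sz e κ t ≤ (1 + 560 / e ^ 2) * Sz e κ (shf κ t) := by
  have he0 : 0 < e := by linarith
  have hK0 : 0 < Real.sinh κ := Real.sinh_pos_iff.2 hκ
  have hb := bet_pos he0 hκ
  have hc := Real.one_le_cosh κ
  have hcs := Real.cosh_sq κ
  have hc2 : Real.cosh κ ≤ 10004 / 10000 := by
    by_contra hh
    push Not at hh
    nlinarith
  have hQ1 : 1 ≤ ‖Qk κ t‖ ^ 2 := one_le_pow₀ (one_le_Qk hκ ht)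
  obtain ⟨q, hqd⟩ : ∃ q, q = ‖Qk κ t‖ ^ 2 := ⟨_, rfl⟩
  obtain ⟨S, hS⟩ : ∃ S, S = Sz e κ t := ⟨_, rfl⟩
  obtain ⟨r, hrd⟩ : ∃ r, r = rz e κ t := ⟨_, rfl⟩
  obtain ⟨y, hyd⟩ : ∃ y, y = yz e κ t := ⟨_, rfl⟩
  have hr0 : 0 ≤ r := by rw [hrd]; unfold rz; positivity
  have hS0 : 0 < S := by rw [hS]; unfold Sz; positivity
  have hS' : Sz e κ (shf κ t) = bet e κ ^ 2 + (y / q) ^ 2 := by
    unfold Sz
    rw [yz_shf he0 hκ ht, ← hyd, ← hqd]
  have hSe : S = bet e κ ^ 2 + y ^ 2 := by rw [hS, hyd]; rfl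
  have hQe : e ^ 2 * (q - 1) = S + 2 * Real.cosh κ * r * e + r ^ 2 := by
    rw [hqd, Qsq_g, hSe, hyd, hrd]
    unfold yz rz bet
    linear_combination e ^ 2 * hcs
  rw [← hrd, ← hS] at hr hr2
  rw [← hyd] at hy
  rw [← hqd] at hQ1
  rw [hS', ← hS]
  have hq2 : e ^ 2 * (q - 1) ≤ 2191 / 100 * S := by
    rw [hQe]
    have h1 : r * e ≤ 10 * S := by
      rw [le_div_iff₀ he0] at hr
      exact hr
    have h2 : 2 * Real.cosh κ * r * e ≤ 2 * (10004 / 10000) * (10 * S) := by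
      calc 2 * Real.cosh κ * r * e = 2 * Real.cosh κ * (r * e) := by ring
        _ ≤ 2 * (10004 / 10000) * (10 * S) := by
          apply mul_le_mul _ h1 (by positivity) (by norm_num)
          linarith
    linarith
  have hy2 : y ^ 2 ≤ 100 / 9 := by
    have := sq_le_sq' (by linarith [neg_abs_le y, abs_nonneg y] : -(10 / 3) ≤ y)
      ((le_abs_self y).trans hy)
    norm_num at this ⊢
    linarith
  have hq0 : 0 < q := by linarith
  have h1 : y ^ 2 - (y / q) ^ 2 ≤ 2 * y ^ 2 * (q - 1) := by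
    have h2 : y ^ 2 - (y / q) ^ 2 = y ^ 2 * ((q - 1) * ((q + 1) / q ^ 2)) := by
      field_simp
      ring
    rw [h2]
    have h3 : (q + 1) / q ^ 2 ≤ 2 := by
      rw [div_le_iff₀ (by positivity)]
      nlinarith
    have h4 : 0 ≤ q - 1 := by linarith
    calc y ^ 2 * ((q - 1) * ((q + 1) / q ^ 2)) ≤ y ^ 2 * ((q - 1) * 2) := by gcongr
      _ = _ := by ring
  have h5 : e ^ 2 * (y ^ 2 - (y / q) ^ 2) ≤ 500 * S := by
    have h4 : 0 ≤ q - 1 := by linarith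
    calc e ^ 2 * (y ^ 2 - (y / q) ^ 2) ≤ e ^ 2 * (2 * y ^ 2 * (q - 1)) := by gcongr
      _ = 2 * y ^ 2 * (e ^ 2 * (q - 1)) := by ring
      _ ≤ 2 * (100 / 9) * (2191 / 100 * S) := by
          apply mul_le_mul _ hq2 (by positivity) (by norm_num)
          linarith
      _ ≤ 500 * S := by linarith
  have he2 : 0 < e ^ 2 := by positivity
  have h6 : y ^ 2 - (y / q) ^ 2 ≤ 500 / e ^ 2 * S := by
    rw [div_mul_eq_mul_div, le_div_iff₀ he2]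
    linarith
  have h7 : (1 - 500 / e ^ 2) * S ≤ bet e κ ^ 2 + (y / q) ^ 2 := by
    have : (1 - 500 / e ^ 2) * S = S - 500 / e ^ 2 * S := by ring
    rw [this]
    linarith
  refine ⟨h7, ?_⟩
  obtain ⟨u, hu⟩ : ∃ u, u = 1 / e ^ 2 := ⟨_, rfl⟩
  have hu1 : u ≤ 1 / 40000 := by
    rw [hu]
    apply one_div_le_one_div_of_le (by norm_num)
    nlinarith
  have hu0 : 0 < u := by rw [hu]; positivity
  have e1 : 500 / e ^ 2 = 500 * u := by rw [hu]; ring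
  have e2 : 560 / e ^ 2 = 560 * u := by rw [hu]; ring
  rw [e1] at h7
  rw [e2]
  have h8 := mul_le_mul_of_nonneg_left h7 (by positivity : 0 ≤ 1 + 560 * u)
  have h9 : S ≤ (1 + 560 * u) * ((1 - 500 * u) * S) := by
    have : (1 + 560 * u) * ((1 - 500 * u) * S) = S + u * (60 - 280000 * u) * S := by ring
    rw [this]
    have : 0 ≤ u * (60 - 280000 * u) * S := by
      have : 0 ≤ 60 - 280000 * u := by linarith
      positivity
    linarith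
  linarith

/-- Number hypotheses of the link, first part. -/
structure LG (e K x Λ a lf S rl rh zb Dm2 DP Vs Mo ls u n1 X lsp lfp E RH : ℝ) : Prop where
  K0 : 0 < K
  x0 : 0 ≤ x
  a0 : 0 < a
  S0 : 0 < S
  Λ0 : 0 ≤ Λ
  Λ8 : Λ ≤ 9
  lf0 : 0 ≤ lf
  rl0 : 0 < rl
  hrl : rl ≤ lam K (x + 1) * (S / e)
  hrh : (Λ + 1) * (1 + 560 / e ^ 2) * (S / e) ≤ rh
  zb0 : 0 ≤ zb
  hzb : rh ^ 2 + (S - (e * K) ^ 2) ≤ zb ^ 2
  hDl : S + rl ^ 2 - 2 * (e * K) * rl ≤ Dm2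
  hDh : S + rh ^ 2 - 2 * (e * K) * rh ≤ Dm2
  DP0 : 0 ≤ DP
  hDP : S + rh ^ 2 + 2 * (e * K) * rh ≤ DP ^ 2
  hVs : (S + rh ^ 2) / e ≤ Vs
  Mo0 : 0 ≤ Mo
  hls : Vs * Mo ≤ ls
  u0 : 0 ≤ u
  u1 : u ≤ 1
  hX : a * (4 / (4 + e * K)) * DP ≤ X
  X1 : X < 1
  n10 : 0 ≤ n1
  hlsp : ls + n1 * (X / (1 - X)) ≤ lsp
  hlfp : lf + u * X / (1 - u * X) ≤ lfp
  hE : (1 + zb / (2 * e) + 3 / 200) * (Dm2 * (zb + 41 / 20 * (e * K)) / (2 * e ^ 2) +
    (zb + e * K * K / 2) * lsp / e + (e * K) ^ 2 / e ^ 2 * (17 / 10 * lsp + 11 / 5 * lfp)) ≤ E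
  lsp1 : lsp ≤ e / 100
  lfp1 : lfp ≤ e / 30
  zb1 : zb ≤ e / 50
  E1 : E ≤ e / 200
  Es : E < √S
  hRH : rh + E + (√S + E) ^ 2 / e ≤ RH
  h9 : RH ≤ 10 * (S / e * (1 - 2 * E / √S - 500 / e ^ 2))
  h2 : RH ^ 2 ≤ 9 / 10 * (S * (1 - 2 * E / √S - 500 / e ^ 2))

/-- Number hypotheses of the link, second part (next node). -/
structure LG2 (e K x Λ a S rl rh Vs E d Λ1 a1 M1 u1 η : ℝ) : Prop where
  d0 : 0 ≤ d
  d1 : d ≤ 1
  a10 : 0 ≤ a1
  Er : E < rl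
  hd : e * E * Real.exp (2 * K * (x + 1)) ≤ (1 - K ^ 2 / 6) * d * (√S * (√S - E))
  hΛ : rh + E ≤ Λ1 * (S / e * (1 - 2 * E / √S))
  M10 : 0 ≤ M1
  hη : Real.exp (E * (1 + M1)) ≤ η
  hcl : (η - 1) * (4 + e * K) / (4 * √S) + η * (u1 * a1) * (1 + (Vs + E) / √S) <
    (1 - K / 1024) * a

/-- convexity in `r` -/
theorem LG.hDm {e K x Λ a lf S rl rh zb Dm2 DP Vs Mo ls u n1 X lsp lfp E RH : ℝ}
    (N : LG e K x Λ a lf S rl rh zb Dm2 DP Vs Mo ls u n1 X lsp lfp E RH) {r : ℝ}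
    (h1 : rl ≤ r) (h2 : r ≤ rh) : S + r ^ 2 - 2 * (e * K) * r ≤ Dm2 := by
  have a1 := N.hDl
  have a2 := N.hDh
  rcases le_total (rl + rh) (2 * (e * K)) with h | h
  · nlinarith [mul_nonneg (sub_nonneg.2 h1) (sub_nonneg.2 h2), mul_nonneg (sub_nonneg.2 h) (sub_nonneg.2 h1)]
  · nlinarith [mul_nonneg (sub_nonneg.2 h1) (sub_nonneg.2 h2), mul_nonneg (sub_nonneg.2 h) (sub_nonneg.2 h2)]

theorem exp_sub_one_c {x : ℝ} (h0 : 0 ≤ x) (h1 : x ≤ 87 / 1000) :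
    Real.exp x - 1 ≤ 1046 / 1000 * x := by
  have h2 := Real.exp_bound (x := x) (by rw [abs_of_nonneg h0]; linarith) (n := 3) (by norm_num)
  have h3 := (abs_le.1 h2).2
  rw [abs_of_nonneg h0] at h3
  simp only [Finset.sum_range_succ, Finset.sum_range_zero, Nat.factorial] at h3
  norm_num at h3
  have h4 : x ^ 3 ≤ x * (7569 / 1000000) := by
    have : x ^ 2 ≤ 7569 / 1000000 := by nlinarith
    calc x ^ 3 = x * x ^ 2 := by ring
      _ ≤ _ := mul_le_mul_of_nonneg_left this h0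
  have h5 : x ^ 2 ≤ x * (87 / 1000) := by nlinarith
  linarith

/-- numbers: the bound of `DlB` -/
theorem dlB_numg {e K c qn qm zb Dm2 lsp lfp E A1 A2 A3 : ℝ} (he : 200 ≤ e) (hK0 : 0 ≤ K)
    (hK : K ≤ 1 / 40) (hzb0 : 0 ≤ zb) (hzb1 : zb ≤ e / 50) (hq1 : 1 ≤ qn)
    (hq2 : qn ≤ 1 + K ^ 2 / 2 + zb / e) (hls0 : 0 ≤ lsp) (hls1 : lsp ≤ e / 100) (hlf0 : 0 ≤ lfp)
    (hlf1 : lfp ≤ e / 30) (hDm : 0 ≤ Dm2)
    (hA1 : A1 ≤ Dm2 / e ^ 2 * ((zb + 41 / 20 * (e * K)) / e))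
    (hm0 : 0 ≤ qm)
    (hqm : qm ≤ (K ^ 2 / 2 + zb / e) * (2 + K ^ 2 / 2 + zb / e))
    (hA2 : A2 = (Real.exp (lsp / e) - 1) * (qn * qm)) (hc0 : 0 ≤ c) (hc : c ≤ K)
    (hA3 : A3 = c ^ 2 * qn * (qn * (Real.exp (2 * (lsp / e) + 2 * (lfp / e)) - 1) +
      (Real.exp (lsp / e + 2 * (lfp / e)) - 1)))
    (hE : (1 + zb / (2 * e) + 3 / 200) * (Dm2 * (zb + 41 / 20 * (e * K)) / (2 * e ^ 2) +
      (zb + e * K * K / 2) * lsp / e + (e * K) ^ 2 / e ^ 2 * (17 / 10 * lsp + 11 / 5 * lfp)) ≤ E)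
    (hE1 : E ≤ e / 200) :
    A1 + A2 + A3 ≤ 2 * qn * (E / e * (1 - E / e)) ∧ 0 ≤ E := by
  have he0 : 0 < e := by linarith
  obtain ⟨v, hv⟩ : ∃ v, v = zb / e := ⟨_, rfl⟩
  have hv0 : 0 ≤ v := by rw [hv]; positivity
  have hv1 : v ≤ 1 / 50 := by rw [hv, div_le_iff₀ he0]; linarith
  have hzv : zb = v * e := by rw [hv]; field_simp
  obtain ⟨l, hl⟩ : ∃ l, l = lsp / e := ⟨_, rfl⟩
  have hl0 : 0 ≤ l := by rw [hl]; positivity
  have hl1 : l ≤ 1 / 100 := by rw [hl, div_le_iff₀ he0]; linarith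
  have hlv : lsp = l * e := by rw [hl]; field_simp
  obtain ⟨m, hm⟩ : ∃ m, m = lfp / e := ⟨_, rfl⟩
  have hm0' : 0 ≤ m := by rw [hm]; positivity
  have hm1 : m ≤ 1 / 30 := by rw [hm, div_le_iff₀ he0]; linarith
  have hmv : lfp = m * e := by rw [hm]; field_simp
  obtain ⟨D, hD⟩ : ∃ D, D = Dm2 / e ^ 2 := ⟨_, rfl⟩
  have hD0 : 0 ≤ D := by rw [hD]; positivity
  have hDv : Dm2 = D * e ^ 2 := by rw [hD]; field_simp
  obtain ⟨F, hF⟩ : ∃ F, F = E / e := ⟨_, rfl⟩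
  have hFv : E = F * e := by rw [hF]; field_simp
  have hF1 : F ≤ 1 / 200 := by rw [hF, div_le_iff₀ he0]; linarith
  rw [← hv] at hq2 hqm
  rw [← hl] at hA2
  rw [← hl, ← hm] at hA3
  rw [← hD] at hA1
  have hA1' : A1 ≤ D * (v + 41 / 20 * K) := by
    refine hA1.trans (le_of_eq ?_)
    rw [hzv]
    field_simp
  -- B / e
  have hB : (1 + v / 2 + 3 / 200) * (D * (v + 41 / 20 * K) / 2 + (v + K ^ 2 / 2) * l +
      K ^ 2 * (17 / 10 * l + 11 / 5 * m)) ≤ F := by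
    have h1 : (1 + zb / (2 * e) + 3 / 200) * (Dm2 * (zb + 41 / 20 * (e * K)) / (2 * e ^ 2) +
      (zb + e * K * K / 2) * lsp / e + (e * K) ^ 2 / e ^ 2 * (17 / 10 * lsp + 11 / 5 * lfp)) =
      ((1 + v / 2 + 3 / 200) * (D * (v + 41 / 20 * K) / 2 + (v + K ^ 2 / 2) * l +
      K ^ 2 * (17 / 10 * l + 11 / 5 * m))) * e := by
      rw [hzv, hlv, hmv, hDv]
      field_simp
    rw [h1, hFv] at hE
    exact le_of_mul_le_mul_right hE he0
  obtain ⟨b1, hb1⟩ : ∃ b1, b1 = D * (v + 41 / 20 * K) / 2 := ⟨_, rfl⟩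
  obtain ⟨b2, hb2⟩ : ∃ b2, b2 = (v + K ^ 2 / 2) * l := ⟨_, rfl⟩
  obtain ⟨b3, hb3⟩ : ∃ b3, b3 = K ^ 2 * (17 / 10 * l + 11 / 5 * m) := ⟨_, rfl⟩
  have hb10 : 0 ≤ b1 := by rw [hb1]; positivity
  have hb20 : 0 ≤ b2 := by rw [hb2]; positivity
  have hb30 : 0 ≤ b3 := by rw [hb3]; positivity
  rw [← hb1, ← hb2, ← hb3] at hB
  have hF0 : 0 ≤ F := by
    refine le_trans ?_ hB
    positivity
  -- the three terms
  have t1 : A1 ≤ 2 * qn * b1 := by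
    refine hA1'.trans ?_
    rw [hb1]
    have h1 : 0 ≤ D * (v + 41 / 20 * K) := by positivity
    have h2 := mul_le_mul_of_nonneg_right hq1 h1
    linarith
  have t2 : A2 ≤ 2 * qn * (100503 / 100000 * (1 + K ^ 2 / 4 + v / 2) * b2) := by
    rw [hA2, hb2]
    have h1 := exp_sub_one_a hl0 hl1
    have h2 : (Real.exp l - 1) * (qn * qm) ≤ 100503 / 100000 * l *
        (qn * ((K ^ 2 / 2 + v) * (2 + K ^ 2 / 2 + v))) := by
      apply mul_le_mul h1 _ (by positivity) (by positivity)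
      exact mul_le_mul_of_nonneg_left hqm (by linarith)
    refine h2.trans (le_of_eq ?_)
    ring
  have hK2 : K ^ 2 ≤ 1 / 1600 := by
    calc K ^ 2 ≤ (1 / 40) ^ 2 := pow_le_pow_left₀ hK0 hK 2
      _ = 1 / 1600 := by norm_num
  have hqn : qn ≤ 10204 / 10000 := by linarith
  have t3 : A3 ≤ 2 * qn * b3 := by
    rw [hA3, hb3]
    have h1 := exp_sub_one_c (x := 2 * l + 2 * m) (by positivity) (by linarith)
    have h2 := exp_sub_one_c (x := l + 2 * m) (by positivity) (by linarith)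
    have hc2 : c ^ 2 ≤ K ^ 2 := pow_le_pow_left₀ hc0 hc 2
    have h3 : qn * (Real.exp (2 * l + 2 * m) - 1) + (Real.exp (l + 2 * m) - 1) ≤
        2 * (17 / 10 * l + 11 / 5 * m) := by
      have h4 : qn * (Real.exp (2 * l + 2 * m) - 1) ≤ 10204 / 10000 * (1046 / 1000 * (2 * l + 2 * m)) := by
        apply mul_le_mul hqn h1 _ (by norm_num)
        have := Real.add_one_le_exp (2 * l + 2 * m)
        linarith
      linarith
    have h0 : 0 ≤ qn * (Real.exp (2 * l + 2 * m) - 1) + (Real.exp (l + 2 * m) - 1) := by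
      have h4 := Real.add_one_le_exp (2 * l + 2 * m)
      have h5 := Real.add_one_le_exp (l + 2 * m)
      have h6 : 0 ≤ Real.exp (2 * l + 2 * m) - 1 := by linarith
      have h7 : 0 ≤ Real.exp (l + 2 * m) - 1 := by linarith
      positivity
    calc c ^ 2 * qn * (qn * (Real.exp (2 * l + 2 * m) - 1) + (Real.exp (l + 2 * m) - 1)) ≤
        K ^ 2 * qn * (2 * (17 / 10 * l + 11 / 5 * m)) := by
          apply mul_le_mul _ h3 h0 (by positivity)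
          exact mul_le_mul_of_nonneg_right hc2 (by linarith)
      _ = _ := by ring
  refine ⟨?_, by rw [hFv]; positivity⟩
  rw [← hF]
  have hfac : 100503 / 100000 * (1 + K ^ 2 / 4 + v / 2) ≤ (1 + v / 2 + 3 / 200) * (1 - F) := by
    have h2 : (1 + v / 2 + 3 / 200) * (199 / 200) ≤ (1 + v / 2 + 3 / 200) * (1 - F) := by
      apply mul_le_mul_of_nonneg_left _ (by positivity)
      linarith
    linarith
  have h1 : A1 + A2 + A3 ≤ 2 * qn * (100503 / 100000 * (1 + K ^ 2 / 4 + v / 2) * (b1 + b2 + b3)) := by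
    have g1 : b1 ≤ 100503 / 100000 * (1 + K ^ 2 / 4 + v / 2) * b1 := by
      apply le_mul_of_one_le_left hb10
      linarith [sq_nonneg K]
    have g3 : b3 ≤ 100503 / 100000 * (1 + K ^ 2 / 4 + v / 2) * b3 := by
      apply le_mul_of_one_le_left hb30
      linarith [sq_nonneg K]
    have g1' := mul_le_mul_of_nonneg_left g1 (by linarith : (0:ℝ) ≤ 2 * qn)
    have g3' := mul_le_mul_of_nonneg_left g3 (by linarith : (0:ℝ) ≤ 2 * qn)
    have : 2 * qn * (100503 / 100000 * (1 + K ^ 2 / 4 + v / 2) * (b1 + b2 + b3)) =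
      2 * qn * (100503 / 100000 * (1 + K ^ 2 / 4 + v / 2) * b1) +
      2 * qn * (100503 / 100000 * (1 + K ^ 2 / 4 + v / 2) * b2) +
      2 * qn * (100503 / 100000 * (1 + K ^ 2 / 4 + v / 2) * b3) := by ring
    rw [this]
    linarith
  refine h1.trans ?_
  apply mul_le_mul_of_nonneg_left _ (by linarith)
  have hF1' : 0 ≤ 1 - F := by linarith
  calc 100503 / 100000 * (1 + K ^ 2 / 4 + v / 2) * (b1 + b2 + b3) ≤
      (1 + v / 2 + 3 / 200) * (1 - F) * (b1 + b2 + b3) :=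
        mul_le_mul_of_nonneg_right hfac (by positivity)
    _ = (1 + v / 2 + 3 / 200) * (b1 + b2 + b3) * (1 - F) := by ring
    _ ≤ F * (1 - F) := mul_le_mul_of_nonneg_right hB hF1'

end Pool.Agent.helper31.A2
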