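import Pool.Agent.helper31.A2.LinkG0

/-!
# A2-1, part 1: the radius and the displacement of the rigid link
-/

namespace Pool.Agent.helper31.A2

open Complex ComplexConjugate Set Filter Topology
open Pool.Agent.helper31.EQ.Y Pool.Agent.helper31.EQ.R
open Pool.Agent.helper12.EQL Pool.Agent.helper12.RP Pool.Agent.helper12.FF
open Pool.Agent.helper63.FF
open Pool.Agent.helper31.EQB

variable {e κ : ℝ}

/-- the conditions of a point: `|y| ≤ 10/3`, `r ≤ 10 S/e`, `r² ≤ 9 S/10`, `r ≤ ρ` -/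
structure PtD (e κ ρ : ℝ) (u : ℂ) : Prop where
  re : 0 < u.re
  yY : |yz e κ u| ≤ 10 / 3
  r9 : rz e κ u ≤ 10 * Sz e κ u / e
  r2 : rz e κ u ^ 2 ≤ 9 / 10 * Sz e κ u
  rρ : rz e κ u ≤ ρ

section

variable {x Λ yn a lf S rl rh zb Dm2 DP Vs Mo ls u n1 X lsp lfp E RH : ℝ} {τ χ : ℂ}

/-- facts of the node `s = shf κ τ` -/
theorem g_base (he : 200 ≤ e) (hκ : 0 < κ) (hK : Real.sinh κ ≤ 1 / 40) (hyn : yn ≤ 10 / 3)
    (T : St e κ x Λ yn τ) (hS : S = Sz e κ (shf κ τ))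
    (N : LG e (Real.sinh κ) x Λ a lf S rl rh zb Dm2 DP Vs Mo ls u n1 X lsp lfp E RH) :
    0 < (shf κ τ).re ∧ om κ (x + 1) (shf κ τ) ∧ rl ≤ rz e κ (shf κ τ) ∧
      rz e κ (shf κ τ) ≤ rh ∧ |yz e κ (shf κ τ)| ≤ yn ∧ Sz e κ τ ≤ (1 + 560 / e ^ 2) * S ∧
      0 < S := by
  have he0 : 0 < e := by linarith
  have hK0 := N.K0
  have hs := shf_re hκ T.re.le
  have hom := om_shf hκ T.re T.om
  have hx1 : 0 ≤ x + 1 := by linarith [N.x0]
  have hK1 : Real.sinh κ ≤ 1 := by linarith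
  have h1 := om_rz he0 hκ hK1 hx1 hs hom
  rw [← hS] at h1
  have hrl : rl ≤ rz e κ (shf κ τ) := by
    refine N.hrl.trans ?_
    have : lam (Real.sinh κ) (x + 1) * (S / e) = lam (Real.sinh κ) (x + 1) * S / e := by ring
    rw [this]
    exact h1
  -- the point τ
  have hyτ : |yz e κ τ| ≤ 10 / 3 := T.y.trans hyn
  have hSτ : Sz e κ τ ≤ e ^ 2 / 1000 := by
    have h2 : yz e κ τ ^ 2 ≤ (10 / 3) ^ 2 := by
      rw [← sq_abs]
      exact pow_le_pow_left₀ (abs_nonneg _) hyτ 2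
    have h3 : bet e κ ^ 2 ≤ e ^ 2 / 1600 := by
      unfold bet
      have h4 : Real.sinh κ ^ 2 ≤ (1 / 40) ^ 2 := pow_le_pow_left₀ hK0.le hK 2
      rw [mul_pow]
      nlinarith [sq_nonneg e]
    unfold Sz
    nlinarith
  have hSτ0 : 0 < Sz e κ τ := by
    unfold Sz bet
    have : 0 < (e * Real.sinh κ) ^ 2 := by positivity
    nlinarith [sq_nonneg (yz e κ τ)]
  have hrτ0 : 0 ≤ rz e κ τ := by
    unfold rz bet
    have := T.re
    positivity
  have hrτ : rz e κ τ ≤ 9 * Sz e κ τ / e := by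
    refine T.r.trans ?_
    apply div_le_div_of_nonneg_right _ he0.le
    exact mul_le_mul_of_nonneg_right N.Λ8 hSτ0.le
  have hr9 : rz e κ τ ≤ 10 * Sz e κ τ / e := by
    refine hrτ.trans ?_
    apply div_le_div_of_nonneg_right _ he0.le
    linarith
  have hr2 : rz e κ τ ^ 2 ≤ 9 / 10 * Sz e κ τ := by
    have h2 : rz e κ τ ^ 2 ≤ (9 * Sz e κ τ / e) ^ 2 := pow_le_pow_left₀ hrτ0 hrτ 2
    refine h2.trans ?_
    rw [div_pow, div_le_iff₀ (by positivity)]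
    have h3 : (9 * Sz e κ τ) ^ 2 = 81 * Sz e κ τ * Sz e κ τ := by ring
    have h4 : 81 * Sz e κ τ * Sz e κ τ ≤ 81 * Sz e κ τ * (e ^ 2 / 1000) :=
      mul_le_mul_of_nonneg_left hSτ (by positivity)
    have h5 : 0 ≤ Sz e κ τ * e ^ 2 := by positivity
    nlinarith
  have h3 := (Sz_shf_ge2 he hκ hK T.re hyτ hr9 hr2).2
  rw [← hS] at h3
  have h4 := rz_shf_le (e := e) he0 hκ T.re
  have hrh : rz e κ (shf κ τ) ≤ rh := by
    refine le_trans ?_ N.hrh
    have h5 : rz e κ τ + Sz e κ τ / e ≤ (Λ + 1) * (Sz e κ τ / e) := by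
      have := T.r
      have h6 : (Λ + 1) * (Sz e κ τ / e) = Λ * Sz e κ τ / e + Sz e κ τ / e := by ring
      linarith
    have h7 : (Λ + 1) * (Sz e κ τ / e) ≤ (Λ + 1) * ((1 + 560 / e ^ 2) * S / e) := by
      apply mul_le_mul_of_nonneg_left _ (by linarith [N.Λ0])
      exact div_le_div_of_nonneg_right h3 he0.le
    have h8 : (Λ + 1) * ((1 + 560 / e ^ 2) * S / e) = (Λ + 1) * (1 + 560 / e ^ 2) * (S / e) := by ring
    linarith
  have hy : |yz e κ (shf κ τ)| ≤ yn := (yz_shf_le he0 hκ T.re).trans T.y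
  exact ⟨hs, hom, hrl, hrh, hy, h3, N.S0⟩

theorem g_X (he : 200 ≤ e) (hκ : 0 < κ) (hK : Real.sinh κ ≤ 1 / 40) (hyn : yn ≤ 10 / 3)
    (T : St e κ x Λ yn τ) (hS : S = Sz e κ (shf κ τ))
    (N : LG e (Real.sinh κ) x Λ a lf S rl rh zb Dm2 DP Vs Mo ls u n1 X lsp lfp E RH) :
    Rx e κ a τ ≠ 0 ∧ ‖Rx e κ a τ‖ ≤ X := by
  have he0 : 0 < e := by linarith
  have hb : 0 < bet e κ := mul_pos he0 N.K0
  obtain ⟨hs, hom, hrl, hrh, hy, h3, hS0⟩ := g_base he hκ hK hyn T hS N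
  have hR0 : 0 < a * (4 / (4 + bet e κ)) * bet e κ := by
    have := N.a0
    positivity
  have hs1 : shf κ τ + 1 ≠ 0 := by
    intro h
    have := congrArg Complex.re h
    rw [add_re, one_re, zero_re] at this
    linarith
  refine ⟨mul_ne_zero (by exact_mod_cast hR0.ne') hs1, ?_⟩
  unfold Rx
  rw [norm_mul, Complex.norm_real, Real.norm_of_nonneg hR0.le]
  have h4 := (bs_sq e κ (shf κ τ)).2.1
  have hr0 : 0 ≤ rz e κ (shf κ τ) := N.rl0.le.trans hrl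
  have h5 : bet e κ * ‖shf κ τ + 1‖ ≤ DP := by
    apply le_of_sq_le_sq _ N.DP0
    rw [h4, ← hS]
    refine le_trans ?_ N.hDP
    have h6 : rz e κ (shf κ τ) ^ 2 ≤ rh ^ 2 := pow_le_pow_left₀ hr0 hrh 2
    have h7 : bet e κ * rz e κ (shf κ τ) ≤ bet e κ * rh := mul_le_mul_of_nonneg_left hrh hb.le
    have h8 : bet e κ = e * Real.sinh κ := rfl
    rw [← h8]
    linarith
  refine le_trans ?_ N.hX
  have h9 : bet e κ = e * Real.sinh κ := rfl
  rw [← h9]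
  calc a * (4 / (4 + bet e κ)) * bet e κ * ‖shf κ τ + 1‖ =
      a * (4 / (4 + bet e κ)) * (bet e κ * ‖shf κ τ + 1‖) := by ring
    _ ≤ _ := mul_le_mul_of_nonneg_left h5 (by have := N.a0; positivity)

theorem g_E0 (he : 200 ≤ e) (hκ : 0 < κ) (hK : Real.sinh κ ≤ 1 / 40) (hyn : yn ≤ 10 / 3)
    (T : St e κ x Λ yn τ) (hS : S = Sz e κ (shf κ τ))
    (N : LG e (Real.sinh κ) x Λ a lf S rl rh zb Dm2 DP Vs Mo ls u n1 X lsp lfp E RH) :
    0 ≤ E := by
  have he0 : 0 < e := by linarith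
  have hK0 := N.K0
  have hb : 0 < bet e κ := mul_pos he0 N.K0
  have hbe : bet e κ = e * Real.sinh κ := rfl
  obtain ⟨hs, hom, hrl, hrh, hy, h3, hS0⟩ := g_base he hκ hK hyn T hS N
  have hX0 : 0 ≤ X := (norm_nonneg _).trans (g_X he hκ hK hyn T hS N).2
  have hr0 : 0 ≤ rz e κ (shf κ τ) := N.rl0.le.trans hrl
  have hu0 : 0 ≤ u := N.u0
  have hlf0 : 0 ≤ lf := N.lf0
  have m1 := (bs_sq e κ (shf κ τ)).1
  rw [← hS] at m1
  have hDm : (bet e κ * ‖shf κ τ - 1‖) ^ 2 ≤ Dm2 := by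
    rw [m1]
    have h7 := N.hDm hrl hrh
    rw [← hbe] at h7
    linarith
  have hDm0 : 0 ≤ Dm2 := (sq_nonneg _).trans hDm
  have hVs0 : 0 ≤ Vs := le_trans (by positivity) N.hVs
  have hls0 : 0 ≤ ls := (mul_nonneg hVs0 N.Mo0).trans N.hls
  have hX1 := N.X1
  have hu1 := N.u1
  have hD1 : 0 < 1 - X := by linarith
  have huX : u * X < 1 := by
    have : u * X ≤ 1 * X := mul_le_mul_of_nonneg_right hu1 hX0
    linarith
  have hD2 : 0 < 1 - u * X := by linarith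
  have hlfp0 : 0 ≤ lfp := by
    refine le_trans ?_ N.hlfp
    have : 0 ≤ u * X / (1 - u * X) := by positivity
    linarith
  have hlsp0 : 0 ≤ lsp := by
    refine le_trans ?_ N.hlsp
    have := N.n10
    have : 0 ≤ n1 * (X / (1 - X)) := by positivity
    linarith
  have hzb0 := N.zb0
  refine le_trans ?_ N.hE
  positivity

/-- a point with the conditions -/
theorem g_pt (he : 200 ≤ e)
    (N : LG e (Real.sinh κ) x Λ a lf S rl rh zb Dm2 DP Vs Mo ls u n1 X lsp lfp E RH) {z : ℂ}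
    (hz0 : 0 < z.re) (hzy : |yz e κ z| ≤ 10 / 3) (hzr : rz e κ z ≤ RH)
    (hzS : S * (1 - 2 * E / √S - 500 / e ^ 2) ≤ Sz e κ z) : PtD e κ RH z := by
  have he0 : 0 < e := by linarith
  have hK0 := N.K0
  have hr0z : 0 ≤ rz e κ z := by unfold rz bet; positivity
  refine ⟨hz0, hzy, ?_, ?_, hzr⟩
  · refine hzr.trans (N.h9.trans ?_)
    have g1 : 10 * (S / e * (1 - 2 * E / √S - 500 / e ^ 2)) =
      10 * (S * (1 - 2 * E / √S - 500 / e ^ 2)) / e := by ring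
    rw [g1]
    apply div_le_div_of_nonneg_right _ he0.le
    linarith
  · have g1 : rz e κ z ^ 2 ≤ RH ^ 2 := pow_le_pow_left₀ hr0z hzr 2
    have := N.h2
    linarith

/-- the data of a segment `[s, shf s]` -/
theorem g_segs (he : 200 ≤ e) (hκ : 0 < κ) (hK : Real.sinh κ ≤ 1 / 40) {x : ℝ} (hx : 0 ≤ x)
    {s : ℂ} (hs : 0 < s.re) (hom : om κ x s) (hy : |yz e κ s| ≤ 10 / 3)
    (hr : rz e κ s ≤ 10 * Sz e κ s / e) (hr2 : rz e κ s ^ 2 ≤ 9 / 10 * Sz e κ s) {z : ℂ}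
    (hz : z ∈ segment ℝ s (shf κ s)) :
    PtG e κ x |yz e κ s| (Sz e κ s / e * (1 - 500 / e ^ 2)) (Sz e κ s / e)
      (rz e κ s + Sz e κ s / e) z := by
  have he0 : 0 < e := by linarith
  have hK0 : 0 < Real.sinh κ := Real.sinh_pos_iff.2 hκ
  have hb := bet_pos he0 hκ
  have hs2 : 0 < (shf κ s).re := shf_re hκ hs.le
  have hom2 : om κ x (shf κ s) := om_mono hκ (om_shf hκ hs hom) (by linarith)
  have hSsh : (1 - 500 / e ^ 2) * Sz e κ s ≤ Sz e κ (shf κ s) :=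
    (Sz_shf_ge2 he hκ hK hs hy hr hr2).1
  have hz0 := re_segment hs hs2 hz
  have hzo := om_seg hκ hx hs hs2 hom hom2 hz
  obtain ⟨a', b', ha', hb', hab, rfl⟩ := hz
  have hre : (a' • s + b' • shf κ s).re = a' * s.re + b' * (shf κ s).re := by simp
  have him : (a' • s + b' • shf κ s).im = a' * s.im + b' * (shf κ s).im := by simp
  have hyz' : yz e κ (a' • s + b' • shf κ s) = a' * yz e κ s + b' * yz e κ (shf κ s) := by
    unfold yz; rw [him]; ring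
  have hrz' : rz e κ (a' • s + b' • shf κ s) = a' * rz e κ s + b' * rz e κ (shf κ s) := by
    unfold rz; rw [hre]; ring
  have hQ1 : 1 ≤ ‖Qk κ s‖ ^ 2 := one_le_pow₀ (one_le_Qk hκ hs)
  have hQ0 : 0 < ‖Qk κ s‖ ^ 2 := by linarith
  have hysh := yz_shf (e := e) he0 hκ hs
  obtain ⟨n, hn⟩ : ∃ n : ℝ, n = (‖Qk κ s‖ ^ 2)⁻¹ := ⟨_, rfl⟩
  have hn0 : 0 < n := by rw [hn]; positivity
  have hn1 : n ≤ 1 := by rw [hn]; exact inv_le_one_of_one_le₀ hQ1
  have hysh' : yz e κ (shf κ s) = n * yz e κ s := by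
    rw [hysh, hn]; field_simp
  have hyz2 : yz e κ (a' • s + b' • shf κ s) = (a' + b' * n) * yz e κ s := by
    rw [hyz', hysh']; ring
  have hf1 : a' + b' * n ≤ 1 := by
    have := mul_le_mul_of_nonneg_left hn1 hb'
    linarith
  have hf0 : n ≤ a' + b' * n := by
    have g1 : a' * n ≤ a' := mul_le_of_le_one_right ha' hn1
    have g2 : n = a' * n + b' * n := by rw [← add_mul, hab, one_mul]
    linarith
  have hzy1 : |yz e κ (a' • s + b' • shf κ s)| ≤ |yz e κ s| := by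
    rw [hyz2, abs_mul, abs_of_nonneg (by linarith : 0 ≤ a' + b' * n)]
    exact mul_le_of_le_one_left (abs_nonneg _) hf1
  have hSz : Sz e κ (shf κ s) ≤ Sz e κ (a' • s + b' • shf κ s) := by
    unfold Sz
    rw [hysh', hyz2, mul_pow, mul_pow]
    have g1 : n ^ 2 ≤ (a' + b' * n) ^ 2 := pow_le_pow_left₀ hn0.le hf0 2
    have g2 := mul_le_mul_of_nonneg_right g1 (sq_nonneg (yz e κ s))
    linarith
  have hSzu : Sz e κ (a' • s + b' • shf κ s) ≤ Sz e κ s := by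
    unfold Sz
    have := sq_le_sq.2 hzy1
    linarith
  have hSe : 0 ≤ Sz e κ s / e := by
    unfold Sz; positivity
  refine ⟨hz0, hzo, hzy1, ?_, ?_, ?_⟩
  · have g1 : Sz e κ s / e * (1 - 500 / e ^ 2) = (1 - 500 / e ^ 2) * Sz e κ s / e := by ring
    rw [g1]
    exact div_le_div_of_nonneg_right (hSsh.trans hSz) he0.le
  · exact div_le_div_of_nonneg_right hSzu he0.le
  · have g1 := rz_shf_le (e := e) he0 hκ hs
    rw [hrz']
    have g2 : a' * rz e κ s ≤ a' * (rz e κ s + Sz e κ s / e) :=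
      mul_le_mul_of_nonneg_left (by linarith) ha'
    have g3 : b' * rz e κ (shf κ s) ≤ b' * (rz e κ s + Sz e κ s / e) :=
      mul_le_mul_of_nonneg_left g1 hb'
    have g4 : a' * (rz e κ s + Sz e κ s / e) + b' * (rz e κ s + Sz e κ s / e) =
      rz e κ s + Sz e κ s / e := by rw [← add_mul, hab, one_mul]
    linarith

/-- the point `s` itself -/
theorem g_ps (he : 200 ≤ e) (hκ : 0 < κ) (hK : Real.sinh κ ≤ 1 / 40) (hyn : yn ≤ 10 / 3)
    (T : St e κ x Λ yn τ) (hS : S = Sz e κ (shf κ τ))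
    (N : LG e (Real.sinh κ) x Λ a lf S rl rh zb Dm2 DP Vs Mo ls u n1 X lsp lfp E RH) :
    PtD e κ RH (shf κ τ) := by
  have he0 : 0 < e := by linarith
  obtain ⟨hs, hom, hrl, hrh, hy, h3, hS0⟩ := g_base he hκ hK hyn T hS N
  have hE0 := g_E0 he hκ hK hyn T hS N
  have h450' : 0 ≤ 500 / e ^ 2 := by positivity
  have hsS : 0 < √S := Real.sqrt_pos.2 hS0
  have hES : 0 ≤ 2 * E / √S := by positivity
  refine g_pt he N hs (hy.trans hyn) ?_ ?_
  · refine hrh.trans (le_trans ?_ N.hRH)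
    have g2 : 0 ≤ (√S + E) ^ 2 / e := by positivity
    linarith
  · rw [← hS]
    apply mul_le_of_le_one_right hS0.le
    linarith

/-- the data of the segment `[s, shf s]` (no `M` needed) -/
theorem g_seg1 (he : 200 ≤ e) (hκ : 0 < κ) (hK : Real.sinh κ ≤ 1 / 40) (hyn : yn ≤ 10 / 3)
    (T : St e κ x Λ yn τ) (hS : S = Sz e κ (shf κ τ))
    (N : LG e (Real.sinh κ) x Λ a lf S rl rh zb Dm2 DP Vs Mo ls u n1 X lsp lfp E RH) {z : ℂ}
    (hz : z ∈ segment ℝ (shf κ τ) (shf κ (shf κ τ))) :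
    PtG e κ (x + 1) |yz e κ (shf κ τ)| (S / e * (1 - 500 / e ^ 2)) (S / e) (rh + S / e) z := by
  obtain ⟨hs, hom, hrl, hrh, hy, h3, hS0⟩ := g_base he hκ hK hyn T hS N
  have P := g_ps he hκ hK hyn T hS N
  have hx1 : 0 ≤ x + 1 := by have := N.x0; linarith
  have G := g_segs he hκ hK hx1 hs hom P.yY P.r9 P.r2 hz
  rw [← hS] at G
  exact ⟨G.re, G.om, G.y, G.lo, G.hi, G.r.trans (by linarith)⟩

set_option maxHeartbeats 1000000 in
/-- the radius and the displacement -/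
theorem g_rad (he : 200 ≤ e) (hκ : 0 < κ) (hK : Real.sinh κ ≤ 1 / 40) (hyn : yn ≤ 10 / 3)
    (T : St e κ x Λ yn τ) (hS : S = Sz e κ (shf κ τ))
    (N : LG e (Real.sinh κ) x Λ a lf S rl rh zb Dm2 DP Vs Mo ls u n1 X lsp lfp E RH)
    (hMo : ∀ z ∈ segment ℝ (shf κ τ) (shf κ (shf κ τ)), MB e κ Mo z)
    (hlf : ‖log (fT e κ (shf κ τ)) - log (fT e κ 1)‖ ≤ lf)
    (hu : ‖qq e κ (shf κ τ)‖ ≤ u)
    (hn1 : ‖1 + qq e κ (shf κ τ)‖ ≤ n1)
    (hχ : ‖χ‖ ≤ ‖Rx e κ a τ‖) :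
    (rd e κ τ χ ∈ slitPlane ∧ bet e κ * ‖nxt e κ τ χ - shf κ τ‖ ≤ E) ∧ 0 ≤ E ∧
      Rx e κ a τ ≠ 0 ∧ ‖Rx e κ a τ‖ ≤ X := by
  refine ⟨?_, g_E0 he hκ hK hyn T hS N, g_X he hκ hK hyn T hS N⟩
  have he0 : 0 < e := by linarith
  have hK0 := N.K0
  have hKK : Real.sinh κ ≤ 1 / 10 := by linarith
  have hb : 0 < bet e κ := mul_pos he0 N.K0
  have hbe : bet e κ = e * Real.sinh κ := rfl
  obtain ⟨hs, hom, hrl, hrh, hy, h3, hS0⟩ := g_base he hκ hK hyn T hS N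
  have hXX := (g_X he hκ hK hyn T hS N).2
  have hE0 := g_E0 he hκ hK hyn T hS N
  obtain ⟨s, hsd⟩ : ∃ s, s = shf κ τ := ⟨_, rfl⟩
  rw [← hsd] at hs hom hrl hrh hy hS
  have hr0 : 0 ≤ rz e κ s := N.rl0.le.trans hrl
  have hX0 : 0 ≤ X := (norm_nonneg _).trans (hχ.trans hXX)
  have hu0 : 0 ≤ u := N.u0
  have hlf0 : 0 ≤ lf := N.lf0
  have hyY : |yz e κ s| ≤ 10 / 3 := hy.trans hyn
  -- norms at s
  obtain ⟨m1, m2, m3⟩ := bs_sq e κ s
  rw [← hS] at m1 m2 m3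
  have h6 : rz e κ s ^ 2 ≤ rh ^ 2 := pow_le_pow_left₀ hr0 hrh 2
  have hz : bet e κ * ‖s‖ ≤ zb := by
    apply le_of_sq_le_sq _ N.zb0
    rw [m3, hbe]
    refine le_trans ?_ N.hzb
    linarith
  have hDm : (bet e κ * ‖s - 1‖) ^ 2 ≤ Dm2 := by
    rw [m1]
    have h7 := N.hDm hrl hrh
    rw [← hbe] at h7
    linarith
  have hDm0 : 0 ≤ Dm2 := (sq_nonneg _).trans hDm
  have hVs : bet e κ * ‖shf κ s - s‖ ≤ Vs := by
    refine (shf_sub_le he0 hκ hs).trans (le_trans ?_ N.hVs)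
    rw [← hS]
    apply div_le_div_of_nonneg_right _ he0.le
    linarith
  have hVs0 : 0 ≤ Vs := (by positivity : 0 ≤ bet e κ * ‖shf κ s - s‖).trans hVs
  have hK0' : 0 ≤ Real.sinh κ := hK0.le
  have hMo0 : 0 ≤ Mo := N.Mo0
  have hls0 : 0 ≤ ls := (mul_nonneg hVs0 hMo0).trans N.hls
  have hX1 := N.X1
  have hu1 := N.u1
  have hD1 : 0 < 1 - X := by linarith
  have huX : u * X < 1 := by
    have : u * X ≤ 1 * X := mul_le_mul_of_nonneg_right hu1 hX0
    linarith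
  have hD2 : 0 < 1 - u * X := by linarith
  have hlfp0 : 0 ≤ lfp := by
    refine le_trans ?_ N.hlfp
    have : 0 ≤ u * X / (1 - u * X) := by positivity
    linarith
  have hlsp0 : 0 ≤ lsp := by
    refine le_trans ?_ N.hlsp
    have := N.n10
    have : 0 ≤ n1 * (X / (1 - X)) := by positivity
    linarith
  have hzb0 := N.zb0
  have hnq : ‖qq e κ s‖ ≤ u := by rw [hsd]; exact hu
  have hs2 : 0 < (shf κ s).re := shf_re hκ hs.le
  have hMB : ∀ z ∈ segment ℝ s (shf κ s), MB e κ Mo z := by rw [hsd]; exact hMo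
  have hlsb : ‖log (fT e κ s) - log (fT e κ (shf κ s))‖ ≤ ls := by
    rw [norm_sub_rev]
    refine (lf_sub he0 hκ hs hs2 hMB).trans (le_trans ?_ N.hls)
    calc e * Real.sinh κ * Mo * ‖shf κ s - s‖ = Mo * (bet e κ * ‖shf κ s - s‖) := by
          rw [hbe]; ring
      _ ≤ Mo * Vs := mul_le_mul_of_nonneg_left hVs hMo0
      _ = Vs * Mo := mul_comm _ _
  -- Q
  have hQp : (Qk κ s).re = Real.cosh κ + Real.sinh κ * s.re ∧ (Qk κ s).im = Real.sinh κ * s.im := by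
    unfold Qk
    rw [add_re, add_im, re_ofReal_mul, im_ofReal_mul, ofReal_re, ofReal_im, zero_add]
    exact ⟨rfl, rfl⟩
  have hc1 := Real.one_le_cosh κ
  have hQi : |(Qk κ s).im| ≤ (Qk κ s).re := by
    rw [hQp.1, hQp.2]
    have g1 : Real.sinh κ * s.im = yz e κ s / e := by unfold yz bet; field_simp
    rw [g1, abs_div, abs_of_pos he0]
    have g2 : |yz e κ s| / e ≤ 1 := by
      rw [div_le_one he0]
      linarith
    have g3 : 0 ≤ Real.sinh κ * s.re := by positivity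
    linarith
  have hcs := Real.cosh_sq κ
  have hc2 : Real.cosh κ ≤ 1 + Real.sinh κ ^ 2 / 2 := cosh_le_a κ
  have hKs : Real.sinh κ * ‖s‖ ≤ zb / e := by
    rw [le_div_iff₀ he0]
    rw [hbe] at hz
    linarith
  have hQn : ‖Qk κ s‖ ≤ 1 + Real.sinh κ ^ 2 / 2 + zb / e := by
    unfold Qk
    refine (norm_add_le _ _).trans ?_
    rw [norm_mul, Complex.norm_real, Complex.norm_real, Real.norm_of_nonneg hK0',
      Real.norm_of_nonneg (by linarith)]
    linarith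
  have hek : Real.exp κ = Real.cosh κ + Real.sinh κ := by
    rw [Real.cosh_eq, Real.sinh_eq]; ring
  have hA1a : ‖Qk κ s - (Real.exp κ : ℂ)‖ ^ 2 ≤ Dm2 / e ^ 2 := by
    have g1 : Qk κ s - (Real.exp κ : ℂ) = (Real.sinh κ : ℂ) * (s - 1) := by
      rw [hek]; unfold Qk; push_cast; ring
    rw [g1, norm_mul, Complex.norm_real, Real.norm_of_nonneg hK0', le_div_iff₀ (by positivity)]
    refine le_trans (le_of_eq ?_) hDm
    rw [hbe]; ring
  have hκ1 : κ ≤ 1 := by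
    have := (Real.self_lt_sinh_iff.2 hκ).le
    linarith
  have hekm : Real.exp (-κ) = Real.cosh κ - Real.sinh κ := by
    rw [Real.cosh_eq, Real.sinh_eq]; ring
  have he2 : Real.exp (-(2 * κ)) = (Real.cosh κ - Real.sinh κ) ^ 2 := by
    rw [← hekm, ← Real.exp_nat_mul]; congr 1; push_cast; ring
  have hA1b : ‖Qk κ s - (Real.exp (-(2 * κ)) : ℂ)‖ ≤ (zb + 41 / 20 * (e * Real.sinh κ)) / e := by
    have g1 : Qk κ s - (Real.exp (-(2 * κ)) : ℂ) = (Real.sinh κ : ℂ) * s +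
        ((Real.cosh κ - Real.exp (-(2 * κ)) : ℝ) : ℂ) := by
      unfold Qk; push_cast; ring
    have g2 : 0 ≤ Real.cosh κ - Real.exp (-(2 * κ)) := by
      have : Real.exp (-(2 * κ)) ≤ 1 := by
        rw [Real.exp_le_one_iff]; linarith
      linarith
    have g3 : Real.cosh κ - Real.exp (-(2 * κ)) ≤ 41 / 20 * Real.sinh κ := by
      rw [he2]
      exact cosh_num hK0' hKK hc2 hcs
    rw [g1]
    refine (norm_add_le _ _).trans ?_
    rw [norm_mul, Complex.norm_real, Complex.norm_real, Real.norm_of_nonneg hK0',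
      Real.norm_of_nonneg g2, add_div]
    have g4 : 41 / 20 * (e * Real.sinh κ) / e = 41 / 20 * Real.sinh κ := by field_simp
    rw [g4]
    linarith
  have hqm : ‖1 - (2 * (Real.cosh κ : ℂ) - Qk κ s) ^ 2‖ ≤
      (Real.sinh κ ^ 2 / 2 + zb / e) * (2 + Real.sinh κ ^ 2 / 2 + zb / e) := by
    have g1 : 1 - (2 * (Real.cosh κ : ℂ) - Qk κ s) ^ 2 =
        (((1 - Real.cosh κ : ℝ) : ℂ) + (Real.sinh κ : ℂ) * s) *
          (((1 + Real.cosh κ : ℝ) : ℂ) - (Real.sinh κ : ℂ) * s) := by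
      unfold Qk; push_cast; ring
    rw [g1, norm_mul]
    have g2 : ‖((1 - Real.cosh κ : ℝ) : ℂ) + (Real.sinh κ : ℂ) * s‖ ≤
        Real.sinh κ ^ 2 / 2 + zb / e := by
      refine (norm_add_le _ _).trans ?_
      rw [norm_mul, Complex.norm_real, Complex.norm_real, Real.norm_of_nonneg hK0',
        Real.norm_eq_abs, abs_sub_comm, abs_of_nonneg (by linarith : 0 ≤ Real.cosh κ - 1)]
      linarith
    have g3 : ‖((1 + Real.cosh κ : ℝ) : ℂ) - (Real.sinh κ : ℂ) * s‖ ≤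
        2 + Real.sinh κ ^ 2 / 2 + zb / e := by
      refine (norm_sub_le _ _).trans ?_
      rw [norm_mul, Complex.norm_real, Complex.norm_real, Real.norm_of_nonneg hK0',
        Real.norm_of_nonneg (by linarith : 0 ≤ 1 + Real.cosh κ)]
      linarith
    exact mul_le_mul g2 g3 (norm_nonneg _) (by positivity)
  have hc' : 1 - Real.exp (-κ) ≤ Real.sinh κ := by
    have g1 := Real.add_one_le_exp (-κ)
    have g2 := (Real.self_lt_sinh_iff.2 hκ).le
    linarith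
  have hc0' : 0 ≤ 1 - Real.exp (-κ) := by
    have : Real.exp (-κ) ≤ 1 := by rw [Real.exp_le_one_iff]; linarith
    linarith
  have hQ1 := one_le_Qk hκ hs
  have key := (dlB_numg (A1 := ‖Qk κ s - (Real.exp κ : ℂ)‖ ^ 2 *
      ‖Qk κ s - (Real.exp (-(2 * κ)) : ℂ)‖) he hK0' hK N.zb0 N.zb1 hQ1 hQn hlsp0 N.lsp1
      hlfp0 N.lfp1 hDm0 (mul_le_mul hA1a hA1b (norm_nonneg _) (by positivity)) (norm_nonneg _) hqm
      rfl hc0' hc' rfl N.hE N.E1).1
  have hEe : E / e ≤ 1 / 200 := by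
    rw [div_le_iff₀ he0]
    have := N.E1
    linarith
  have hEe0 : 0 ≤ E / e := by positivity
  have hF := link_key he0 hκ (τ := τ) T.re (by rw [← hsd]; exact hQi) (X := X) (ls := ls) (lf := lf)
    (nq := u) (n1 := n1) (L1 := lsp / e) (L2 := lfp / e) (E0 := E / e * (1 - E / e))
    (η := E / e) hX1 (by rw [← hsd]; exact hlsb) hlf (by rw [← hsd]; exact hnq) huX
    hn1
    (div_le_div_of_nonneg_right N.hlsp he0.le) (div_le_div_of_nonneg_right N.hlfp he0.le)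
    (by rw [← hsd]; exact key)
    (by
      rw [← hsd]
      have : E / e * (1 - E / e) ≤ E / e * 1 := mul_le_mul_of_nonneg_left (by linarith) hEe0
      linarith)
    (by
      rw [← hsd]
      have g0 : 0 ≤ E / e * (1 - E / e) := mul_nonneg hEe0 (by linarith)
      have g1 : E / e * (1 - E / e) / ‖Qk κ s‖ ≤ E / e := by
        refine (div_le_self g0 hQ1).trans ?_
        exact mul_le_of_le_one_right hEe0 (by linarith)
      rw [div_le_iff₀ (by linarith)]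
      apply mul_le_mul_of_nonneg_left _ hEe0
      linarith)
    (hχ.trans hXX)
  refine ⟨hF.1, ?_⟩
  have g1 := mul_le_mul_of_nonneg_left hF.2 he0.le
  rw [mul_div_cancel₀ _ he0.ne'] at g1
  refine le_trans (le_of_eq ?_) g1
  rw [hbe]; ring

end

end Pool.Agent.helper31.A2
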