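import Pool.Agent.helper31.A2.NFg0
import Pool.Agent.helper31.EQB.NT

/-!
# A2-N3: the first node from its program, for given bounds `Ma`, `Mb`, `M1`

As `EQB/NFA.lean`, `NFA2.lean`, `NT.lean`: all hypotheses of `FG`, `FG2` (`first_all_g`) from the values of `PF cF2`; `lal = log 2`, `gl = 8/5 V`,
`S0l = (R sR0)²`, `Sl = R² m2`; `u`, `u1` by `qq_seg`.
-/

namespace Pool.Agent.helper31.A2

open Complex ComplexConjugate Set Filter Topology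
open Pool.Agent.helper31.EQ.Y Pool.Agent.helper31.EQ.R
open Pool.Agent.helper12.EQL Pool.Agent.helper12.RP Pool.Agent.helper12.FF Pool.Agent.helper12.RS
open Pool.Agent.helper63.FF
open Pool.Agent.helper31.EQB

variable {e κ : ℝ}

/-- `M` values of the first node: `Ma` on `[s0, c]` and on `[c, shf c]`, `Mb` at `shf z`, `z ∈ [s0, c]`, `M1` at the next node
(`x1, d, E, Sl, yc, dz, RH`: values of the program) -/
structure MF (e x1 d E Sl yc dz v κ Ma Mb M1 : ℝ) : Prop where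
  Ma0 : 0 ≤ Ma
  Mb0 : 0 ≤ Mb
  M10 : 0 ≤ M1
  ha : ∀ z : ℂ, PtG e κ x1 (max v yc) (Sl / e * (1011 / 1024))
    ((√(bet e κ ^ 2 + (max v yc) ^ 2) + dz) ^ 2 / e) (11 * (Sl / e * (1011 / 1024))) z → MB e κ Ma z
  hb : ∀ z : ℂ, PtG e κ (x1 + 1) (max v yc) (Sl / e * (1011 / 1024))
    ((√(bet e κ ^ 2 + (max v yc) ^ 2) + dz) ^ 2 / e) (11 * (Sl / e * (1011 / 1024))) z → MB e κ Mb z
  h1 : ∀ z : ℂ, PtG e κ (x1 + 1 - d) (yc + E) (Sl / e * (1011 / 1024 - 2 * E / √Sl) * (1011 / 1024))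
    ((√(bet e κ ^ 2 + yc ^ 2) + E) ^ 2 / e)
    (11 * (Sl / e * (1011 / 1024 - 2 * E / √Sl) * (1011 / 1024))) z → MB e κ M1 z

/-- what is known of `Gr` etc.: the bounds `lf0 = lf1 = √e GrS - lau` of `log |f|` at `s0`, `shf s0` -/
structure GF (e κ v : ℝ) (se lau GrS GtS G2S : ℝ) : Prop where
  h0 : Real.log ‖fT e κ (shf κ (t00 e κ v))‖ ≤ GrS / se - lau
  h1 : Real.log ‖fT e κ (shf κ (shf κ (t00 e κ v)))‖ ≤ GrS / se - lau
  gr : 8 / 5 * ((bet e κ ^ 2 + v ^ 2) / e) ≤ GrS / se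
  gt0 : 0 ≤ GtS
  gt : (GrS / se) ^ 2 + v ^ 2 ≤ (GtS / se) ^ 2
  g20 : 0 ≤ G2S
  g2 : (GrS / se) ^ 2 + v ^ 2 / 4 ≤ (G2S / se) ^ 2

/-- `lam K x ≥ (16243/16384) x`, `K ≤ 1/40`, `x ≤ 2` -/
private theorem lam_ge_g {K x : ℝ} (hK0 : 0 ≤ K) (hK : K ≤ 1 / 40) (hx : 0 ≤ x) (hx1 : x ≤ 2) :
    (16243 / 16384) * x ≤ lam K x := by
  have hK2 : K ^ 2 ≤ (1 / 40) ^ 2 := pow_le_pow_left₀ hK0 hK 2
  have h0 : 0 ≤ 1 - K ^ 2 / 6 := by linarith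
  have h1 : 1 - K ^ 2 / 6 ≤ 1 := by nlinarith [sq_nonneg K]
  have h2 : K * (1 - K ^ 2 / 6) ≤ 1 / 40 := by
    calc K * (1 - K ^ 2 / 6) ≤ K * 1 := mul_le_mul_of_nonneg_left h1 hK0
      _ ≤ 1 / 40 := by linarith
  have h3 : 2 * (K * (1 - K ^ 2 / 6)) * x ≤ 2 * (1 / 40) * 2 :=
    mul_le_mul (by linarith) hx1 hx (by norm_num)
  have h4 : 0 ≤ 2 * (K * (1 - K ^ 2 / 6)) * x := by positivity
  have h5 : (2 * (K * (1 - K ^ 2 / 6)) * x) ^ 2 ≤ (2 * (1 / 40) * 2) ^ 2 :=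
    pow_le_pow_left₀ h4 h3 2
  have h6 : (16243 / 16384) * x ≤
      (1 - K ^ 2 / 6) * x / (1 + (2 * (K * (1 - K ^ 2 / 6)) * x) ^ 2 / 3) := by
    rw [le_div_iff₀ (by positivity)]
    calc 16243 / 16384 * x * (1 + (2 * (K * (1 - K ^ 2 / 6)) * x) ^ 2 / 3)
        ≤ 16243 / 16384 * x * (1 + (2 * (1 / 40) * 2) ^ 2 / 3) :=
          mul_le_mul_of_nonneg_left (by linarith) (by positivity)
      _ = (16243 / 16384 * (1 + (2 * (1 / 40) * 2) ^ 2 / 3)) * x := by ring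
      _ ≤ (1 - K ^ 2 / 6) * x := mul_le_mul_of_nonneg_right (by linarith) hx
  have h8 : 0 ≤ (1 - K ^ 2 / 6) * x / (1 + (2 * (K * (1 - K ^ 2 / 6)) * x) ^ 2 / 3) := by
    positivity
  unfold lam
  refine h6.trans ?_
  have h9 : (1 : ℝ) ≤ 1 + thf K x ^ 2 / 4 := by nlinarith [sq_nonneg (thf K x)]
  calc (1 - K ^ 2 / 6) * x / (1 + (2 * (K * (1 - K ^ 2 / 6)) * x) ^ 2 / 3)
      = (1 - K ^ 2 / 6) * x / (1 + (2 * (K * (1 - K ^ 2 / 6)) * x) ^ 2 / 3) * 1 := by ring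
    _ ≤ _ := mul_le_mul_of_nonneg_left h9 h8

/-- `|qq t|` from a lower bound `l` and an upper bound `V` of `r` -/
private theorem u_seg {M ys q0 g l V : ℝ} {t : ℂ} (he : 200 ≤ e) (hκ : 0 < κ)
    (hK : Real.sinh κ ≤ 1 / 40) (ht : 0 < t.re) (hy : |yz e κ t| ≤ ys) (hys : ys ≤ 7 / 2)
    (hr : rz e κ t ≤ V) (hV : V ≤ e / 2) (hM : 0 ≤ M)
    (h : ∀ z ∈ segment ℝ t (shf κ t), MB e κ M z)
    (hq : q0 ≤ 1 - (7 / 6 * Real.sinh κ ^ 2 + 32 / e ^ 2 +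
      2 * (ys + bet e κ ^ 2 / (2 * e)) * M / e))
    (hg : g = (3 + 2 * M) / e) (hl : l ≤ rz e κ t)
    (hp : 0 ≤ q0 - g * l - g * V) :
    ‖qq e κ t‖ ≤ Real.exp (-((q0 - g * l) * l)) := by
  have he0 : 0 < e := by linarith
  have h1 := qq_seg he hκ hK ht hy hys (hr.trans hV) hM h
  rw [← hg] at h1
  obtain ⟨r, hrd⟩ : ∃ r, r = rz e κ t := ⟨_, rfl⟩
  obtain ⟨C, hC⟩ : ∃ C, C = 1 - (7 / 6 * Real.sinh κ ^ 2 + 32 / e ^ 2 +
      2 * (ys + bet e κ ^ 2 / (2 * e)) * M / e) := ⟨_, rfl⟩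
  have hr0 : 0 < r := by rw [hrd]; exact rz_pos he0 hκ ht
  rw [← hC, ← hrd] at h1
  rw [← hC] at hq
  rw [← hrd] at hr hl
  have hg0 : 0 ≤ g := by rw [hg]; positivity
  refine h1.trans (Real.exp_le_exp.2 (neg_le_neg ?_))
  have h2 : 0 ≤ (C - q0) * r := mul_nonneg (by linarith) hr0.le
  have h3 : g * r ≤ g * V := mul_le_mul_of_nonneg_left hr hg0
  have h4 : 0 ≤ (r - l) * (q0 - g * l - g * r) := mul_nonneg (by linarith) (by linarith)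
  have h5 : (C - g * r) * r - (q0 - g * l) * l =
      (C - q0) * r + (r - l) * (q0 - g * l - g * r) := by ring
  linarith

private theorem pt_mono {x y a b r y' a' b' r' : ℝ} {z : ℂ} (h : PtG e κ x y a b r z)
    (hy : y ≤ y') (ha : a' ≤ a) (hb : b ≤ b') (hr : r ≤ r') : PtG e κ x y' a' b' r' z :=
  ⟨h.re, h.om, h.y.trans hy, ha.trans h.lo, h.hi.trans hb, h.r.trans hr⟩

section

variable {v V a lf0 lf1 lau lal gl F Gr G2 gt ft err dz r1 r2 yc x1 S0l Sl Ma Mb X u lx lu ΔG ΔF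
  E RH : ℝ}

/-- sizes at `(s0, 0)` (`fg_FH` of `FirstG.lean`) -/
private theorem gg_FH (he2 : 200 ≤ e) (hκ : 0 < κ) (hK : Real.sinh κ ≤ 1 / 40)
    (N : FG e (Real.sinh κ) v V a lf0 lf1 lau lal gl F Gr G2 gt ft err dz r1 r2 yc x1 S0l Sl
      Ma Mb X u lx lu ΔG ΔF E RH) (hΔG : 0 ≤ ΔG) (hΔF : 0 ≤ ΔF)
    (h0 : Real.log ‖fT e κ (shf κ (t00 e κ v))‖ ≤ lf0)
    (h1 : Real.log ‖fT e κ (shf κ (shf κ (t00 e κ v)))‖ ≤ lf1) :
    FH e κ v a (shf κ (t00 e κ v)) 0 ∧ Vv e κ v = V ∧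
    0 ≤ (EQB.LF e κ (shf κ (t00 e κ v)) 0).re ∧ (EQB.LF e κ (shf κ (t00 e κ v)) 0).re ≤ F ∧
    0 ≤ (EQB.LF e κ (shf κ (t00 e κ v)) 0).im ∧ (EQB.LF e κ (shf κ (t00 e κ v)) 0).im ≤ v ∧
    ‖EQB.LF e κ (shf κ (t00 e κ v)) 0‖ ≤ ft := by
  have he : 0 < e := by linarith
  have hK1 : Real.sinh κ ≤ 1 / 10 := by linarith
  have hK0 := N.K0
  obtain ⟨s1, s2, s3, s4, s5⟩ := s0_pos he hκ N.v0
  have hVV : Vv e κ v = V := by
    rw [N.hV]; rfl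
  have hv0 := N.v0
  obtain ⟨i1, i2, i3, i4⟩ := L_im (κ := κ) he2 hκ N.v0 N.vπ
  obtain ⟨j1, j2, j3, j4⟩ := L_re he2 hκ hK1 N.v0 (by rw [hVV]; exact N.V1) h0 h1
  rw [hVV] at j1
  obtain ⟨k1, k2, k3⟩ := LA_facts (e := e) he hκ hK1
  have hbet : bet e κ = e * Real.sinh κ := rfl
  rw [hbet] at k2 k3
  have hlau : EQB.LA e κ ≤ lau := k3.trans N.hlau
  have hlal : lal ≤ EQB.LA e κ := by
    rcases N.hlal with h | h
    · exact h.trans k1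
    · exact h.trans k2
  have hGr : |(EQB.LG e κ (shf κ (t00 e κ v)) 0).re| ≤ Gr := by
    rw [abs_le]
    have h2 := N.hgl
    have h3 := N.hGr2
    have h4 := N.hGr
    constructor <;> linarith
  have hGi : |(EQB.LG e κ (shf κ (t00 e κ v)) 0).im| ≤ v := by
    rw [abs_le]; constructor <;> linarith
  have hFr2 : (EQB.LF e κ (shf κ (t00 e κ v)) 0).re ≤ F := by linarith [N.hF]
  have hFr : |(EQB.LF e κ (shf κ (t00 e κ v)) 0).re| ≤ F := by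
    rw [abs_le]
    constructor
    · linarith [N.F0]
    · exact hFr2
  have hFi : |(EQB.LF e κ (shf κ (t00 e κ v)) 0).im| ≤ v := by
    rw [abs_le]; constructor <;> linarith
  have hLG : ‖EQB.LG e κ (shf κ (t00 e κ v)) 0‖ ≤ gt * e :=
    fc_norm hGr hGi N.hgt (mul_nonneg N.gt0 he.le)
  have hLF : ‖EQB.LF e κ (shf κ (t00 e κ v)) 0‖ ≤ ft := fc_norm hFr hFi N.hft N.ft0
  have hpi : v ≤ e / 60 := by
    have h2 := Real.pi_lt_d2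
    have h3 := N.vπ
    norm_num at h2
    linarith
  refine ⟨⟨he2, hκ, hK1, N.v0, hpi, by rw [hVV]; exact N.V1, N.a0,
    N.a1, s1, by rw [norm_zero]; norm_num, ?_, ?_⟩, hVV, j3, hFr2, i3, i4, hLF⟩
  · linarith [N.haG]
  · linarith [N.haF]

end

/-- `r ≥ (16243/16384) x W` -/
private theorem l_le {x W : ℝ} {t : ℂ} (he : 200 ≤ e) (hκ : 0 < κ) (hK : Real.sinh κ ≤ 1 / 40)
    (hx : 0 ≤ x) (hx1 : x ≤ 2) (ht : 0 < t.re) (hom : om κ x t) (hW0 : 0 ≤ W)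
    (hW : W ≤ Sz e κ t / e) : (16243 / 16384) * x * W ≤ rz e κ t := by
  have he0 : 0 < e := by linarith
  have hK0 : 0 < Real.sinh κ := Real.sinh_pos_iff.2 hκ
  have h1 := om_rz he0 hκ (by linarith) hx ht hom
  rw [mul_div_assoc] at h1
  have h2 := lam_ge_g hK0.le hK hx hx1
  have h3 := mul_le_mul h2 hW hW0 ((by positivity : 0 ≤ (16243 / 16384) * x).trans h2)
  exact h3.trans h1

/-- `GB` from the geometry -/
private theorem gg_base (he : 200 ≤ e) (hκ : 0 < κ) (hb : bet e κ ≤ 5) {v : ℝ}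
    (hv0 : 0 ≤ v) (hv1 : v ≤ Real.pi) {R kc vs GrS GtS G2S Ma Mb M1 : ℝ}
    (hR : R = √(bet e κ ^ 2 + v ^ 2)) (hk : kc * R = bet e κ) (hv : vs * R = v)
    (P : PF cF2 (√e)⁻¹ (bet e κ) v R kc vs GrS GtS G2S Ma Mb M1)
    (hG : GF e κ v (√e)⁻¹ P.lau GrS GtS G2S)
    (hM : MF e P.x1 P.d P.E (R ^ 2 * P.m2) P.yc P.dz v κ Ma Mb M1) :
    GB e (√e) (√e)⁻¹ (Real.sinh κ) (bet e κ) v R kc vs P ∧ 0 < R := by
  have he0 : 0 < e := by linarith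
  have hs0 : 0 < √e := Real.sqrt_pos.2 he0
  have hss : √e * √e = e := Real.mul_self_sqrt he0.le
  have hK0 : 0 < Real.sinh κ := Real.sinh_pos_iff.2 hκ
  have hβ : 0 < bet e κ := mul_pos he0 hK0
  have hsg := inv_mul_cancel₀ hs0.ne'
  have hA : 0 < bet e κ ^ 2 + v ^ 2 := by positivity
  have hR0 : 0 < R := by rw [hR]; exact Real.sqrt_pos.2 hA
  have hR2 : R ^ 2 = bet e κ ^ 2 + v ^ 2 := by rw [hR]; exact Real.sq_sqrt hA.le
  have hV : P.V = (bet e κ ^ 2 + v ^ 2) / e := by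
    rw [← hR2, P.e_V, P.e_w]
    have : (√e)⁻¹ * R * ((√e)⁻¹ * R) = ((√e)⁻¹ * (√e)⁻¹) * R ^ 2 := by ring
    rw [this, ← mul_inv, hss, inv_mul_eq_div]
  have g1 := hG.gr
  have g2 := hG.gt
  have g3 := hG.g2
  rw [div_inv_eq_mul] at g1 g2 g3
  rw [div_inv_eq_mul] at g2 g3
  rw [← hV] at g1
  exact ⟨gb_base he hs0 hss hsg hK0 rfl hb hv0 hv1 hR0 hR2 hk hv hM.Ma0 hM.Mb0 hM.M10 P
    ⟨g1, hG.gt0, g2, hG.g20, g3⟩, hR0⟩

/-- **All of the first node** -/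
private theorem gg_all (he : 200 ≤ e) (hκ : 0 < κ) {v : ℝ}
    {R kc vs GrS GtS G2S Ma Mb M1 : ℝ}
    (P : PF cF2 (√e)⁻¹ (bet e κ) v R kc vs GrS GtS G2S Ma Mb M1)
    (B : GB e (√e) (√e)⁻¹ (Real.sinh κ) (bet e κ) v R kc vs P)
    (h0 : Real.log ‖fT e κ (shf κ (t00 e κ v))‖ ≤ GrS * √e - P.lau)
    (h1 : Real.log ‖fT e κ (shf κ (shf κ (t00 e κ v)))‖ ≤ GrS * √e - P.lau)
    (hM : MF e P.x1 P.d P.E (R ^ 2 * P.m2) P.yc P.dz v κ Ma Mb M1) {p : ℂ}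
    (hT : tanh (κ * p) = t00 e κ v) :
    0 < (nxc e κ p (shf κ (t00 e κ v)) 0).re ∧
    ∀ χ : ℂ, ‖χ‖ ≤ P.X →
      FH e κ v P.a (nxc e κ p (shf κ (t00 e κ v)) 0) χ ∧
      ‖EQB.LF e κ (nxc e κ p (shf κ (t00 e κ v)) 0) χ - EQB.LF e κ (shf κ (t00 e κ v)) 0‖ ≤ P.DF ∧
      St e κ (P.x1 - P.d) (LamG 0) (ynG 0) (nxc e κ p (nxc e κ p (shf κ (t00 e κ v)) 0) χ) ∧
      ∀ χ' : ℂ, ‖χ'‖ ≤ aG 0 * (4 / (4 + bet e κ)) *
          (bet e κ * ‖shf κ (nxc e κ p (nxc e κ p (shf κ (t00 e κ v)) 0) χ) + 1‖) →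
        ‖1 - (1 - fT e κ (nxc e κ p (nxc e κ p (shf κ (t00 e κ v)) 0) χ)) /
            (1 - fT e κ (nxc e κ p (shf κ (t00 e κ v)) 0)) *
          (1 + qq e κ (shf κ (nxc e κ p (nxc e κ p (shf κ (t00 e κ v)) 0) χ)) * χ')‖ <
          (1 - Real.sinh κ / 1024) * P.X := by
  obtain ⟨N, N2⟩ := gb_main B
  have he0 := B.he0
  have hK : Real.sinh κ ≤ 1 / 40 := B.hK1
  have c2 : cF2.RH = 3175 / 1024 := rfl
  have hbe : bet e κ = e * Real.sinh κ := rfl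
  have hyc : P.ycR * R = P.yc := P.e_yc.symm
  have hE0 := gb_E0 B
  have hy0 := gb_hy0 P
  have hr1 := gb_r1 B
  have hr2 := gb_r2 B
  rw [hyc] at N N2 hy0 hr2
  have c14 : ynG 0 = 3251 / 1024 := rfl
  rw [c14] at hy0
  have hyE : P.yc + P.E ≤ 10 / 3 := by linarith
  have hyc3 : P.yc ≤ 10 / 3 := by linarith
  have hdz0 := B.hdz0
  -- lower ends
  have hm2 := gb_m20 P
  have hc20 := gb_c20 P
  have hV0 := B.hVp
  have hSle := gb_Sle B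
  have hSl0 : 0 < R ^ 2 * P.m2 / e := by rw [hSle]; positivity
  have h500 := gb_500 B
  have hlo1 : R ^ 2 * P.m2 / e * (1011 / 1024) ≤ R ^ 2 * P.m2 / e := by linarith
  have hlo2 : R ^ 2 * P.m2 / e * (1011 / 1024) ≤ R ^ 2 * P.m2 / e * (1 - 500 / e ^ 2) :=
    mul_le_mul_of_nonneg_left (by linarith) hSl0.le
  have hVm : 0 < P.V * P.m2 * P.c2 := by positivity
  have hlo5 := gb_lo2 B
  have hlo3 : R ^ 2 * P.m2 / e * (1011 / 1024 - 2 * P.E / √(R ^ 2 * P.m2)) * (1011 / 1024) ≤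
      R ^ 2 * P.m2 / e * (1 - 2 * P.E / √(R ^ 2 * P.m2) - 500 / e ^ 2) := by
    rw [gb_lo B]
    linarith
  have hlo4 : R ^ 2 * P.m2 / e * (1011 / 1024 - 2 * P.E / √(R ^ 2 * P.m2)) * (1011 / 1024) ≤
      R ^ 2 * P.m2 / e * (1 - 2 * P.E / √(R ^ 2 * P.m2) - 500 / e ^ 2) * (1 - 500 / e ^ 2) := by
    rw [gb_lo B]
    exact mul_le_mul hlo5 (by linarith) (by norm_num) (hVm.le.trans hlo5)
  -- upper ends
  have hmx := le_max_left v P.yc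
  have hmy := le_max_right v P.yc
  have hv0 := B.hv0
  have hyc0 : 0 ≤ P.yc := by
    refine le_trans ?_ N.hyc
    have h2 : 0 ≤ P.V * (8 / 5 * P.V + 5 / 2 * v) / e := by positivity
    positivity
  have hhi1 : (√((e * Real.sinh κ) ^ 2 + v ^ 2) + P.dz) ^ 2 / e ≤
      (√(bet e κ ^ 2 + (max v P.yc) ^ 2) + P.dz) ^ 2 / e := by
    rw [← hbe]
    gcongr
  have hhi2 : ((e * Real.sinh κ) ^ 2 + P.yc ^ 2) / e ≤
      (√(bet e κ ^ 2 + (max v P.yc) ^ 2) + P.dz) ^ 2 / e := by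
    rw [← hbe]
    apply div_le_div_of_nonneg_right _ he0.le
    have h3 : bet e κ ^ 2 + P.yc ^ 2 ≤ bet e κ ^ 2 + (max v P.yc) ^ 2 := by gcongr
    have h4 : 0 ≤ bet e κ ^ 2 + (max v P.yc) ^ 2 := by positivity
    have h5 := Real.sq_sqrt h4
    have h6 : √(bet e κ ^ 2 + (max v P.yc) ^ 2) ^ 2 ≤
        (√(bet e κ ^ 2 + (max v P.yc) ^ 2) + P.dz) ^ 2 :=
      pow_le_pow_left₀ (Real.sqrt_nonneg _) (by linarith) 2
    linarith
  have hsq0 : 0 ≤ (√((e * Real.sinh κ) ^ 2 + P.yc ^ 2) + P.E) ^ 2 / e := by positivity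
  have hr3 : cF2.RH * P.V ≤
      11 * (R ^ 2 * P.m2 / e * (1011 / 1024 - 2 * P.E / √(R ^ 2 * P.m2)) * (1011 / 1024)) := by
    linarith
  -- the segments
  have A := f_segA he hκ hK hyc3 hT N h0 h1
  have C := f_segC he hκ hK hyc3 hT N h0 h1
  have hMa : ∀ z ∈ segment ℝ (shf κ (t00 e κ v)) (nxc e κ p (shf κ (t00 e κ v)) 0),
      MB e κ Ma z := fun z hz => hM.ha z (pt_mono (A z hz).1 le_rfl hlo1 hhi1 hr1)
  have hMb : ∀ z ∈ segment ℝ (shf κ (t00 e κ v)) (nxc e κ p (shf κ (t00 e κ v)) 0),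
      MB e κ Mb (shf κ z) := fun z hz => hM.hb _ (pt_mono (A z hz).2 le_rfl hlo2 hhi1 hr1)
  have hMc : ∀ z ∈ segment ℝ (nxc e κ p (shf κ (t00 e κ v)) 0)
      (shf κ (nxc e κ p (shf κ (t00 e κ v)) 0)), MB e κ Ma z := fun z hz =>
    hM.ha z (pt_mono (C z hz) hmy hlo2 hhi2 hr1)
  -- numbers of `qq`
  have hcK : 7 / 6 * Real.sinh κ ^ 2 + 32 / e ^ 2 ≤ P.cK := by
    rw [P.e_cK, B.hK2]
    have h2 : 32 / e ^ 2 = 32 * (P.ie * P.ie) := by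
      rw [pow_two, ← div_div, B.hdiv, B.hdiv]; ring
    have h3 : 0 ≤ Real.sinh κ ^ 2 := sq_nonneg _
    linarith
  have hyb : ∀ y M : ℝ, 2 * (y + bet e κ ^ 2 / (2 * e)) * M / e = (P.bb + 2 * y) * M * P.ie := by
    intro y M
    have h3 : bet e κ ^ 2 / (2 * e) = P.bb / 2 := by
      rw [P.e_bb, mul_comm (2 : ℝ) e, ← div_div, B.hdiv]; ring
    rw [h3, B.hdiv]; ring
  have hgM : ∀ M : ℝ, 3 * P.ie + 2 * (P.ie * M) = (3 + 2 * M) / e := by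
    intro M
    rw [B.hdiv]; ring
  have hV7 := B.hV7
  have hRV : cF2.RH * P.V ≤ 10 * P.V := by
    rw [c2]
    linarith
  have hRV2 : cF2.RH * P.V ≤ e / 2 := by linarith
  have hie0 := B.hie0
  -- `u`
  have hx10 := gb_x10 B
  have hx11 := gb_x11 P
  have hu : ‖qq e κ (nxc e κ p (shf κ (t00 e κ v)) 0)‖ ≤ P.u := by
    have p1 := C _ (left_mem_segment ℝ _ _)
    have p2 := (A _ (right_mem_segment ℝ _ _)).1.lo
    rw [hSle] at p2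
    have hl := l_le he hκ hK hx10.le (by linarith) p1.re p1.om (by positivity) p2
    have hl2 : P.lv ≤ rz e κ (nxc e κ p (shf κ (t00 e κ v)) 0) := by
      refine le_trans (le_of_eq ?_) hl
      rw [P.e_lv, P.e_L1]; ring
    have hg0 : 0 ≤ 3 * P.ie + 2 * (P.ie * Ma) := by
      have := hM.Ma0
      positivity
    have hp := P.p_qa
    have hqa := P.e_qa
    rw [P.e_u, hqa]
    refine u_seg he hκ hK p1.re p1.y (by linarith) p1.r hRV2 hM.Ma0 hMc ?_ (hgM Ma) hl2 ?_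
    · rw [hyb, P.e_yb]
      linarith
    · have h3 := mul_le_mul_of_nonneg_left hRV hg0
      rw [hqa] at hp
      linarith
  refine (first_all_g he hκ hK hyE hT N N2 h0 h1 hMa hMb hu ?_ ?_).imp id fun h => h.2
  · intro χ hχ z hz
    have D := f_segD he hκ hK hyE hT N N2 h0 h1 hMa hMb hu hχ
    exact hM.h1 _ (pt_mono (D.1 z hz) le_rfl hlo3 le_rfl hr3)
  · intro χ hχ
    have D := f_segD he hκ hK hyE hT N N2 h0 h1 hMa hMb hu hχ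
    have p1 := D.1 _ (right_mem_segment ℝ _ _)
    have hM1 : ∀ z ∈ segment ℝ (shf κ (nxc e κ p (nxc e κ p (shf κ (t00 e κ v)) 0) χ))
        (shf κ (shf κ (nxc e κ p (nxc e κ p (shf κ (t00 e κ v)) 0) χ))), MB e κ M1 z :=
      fun z hz => hM.h1 _ (pt_mono (D.2 z hz) le_rfl hlo4 le_rfl hr2)
    have hx0 := gb_xd P
    have hx2 : P.x1 + 1 - P.d = P.x2 := by rw [P.e_x2]; ring
    have hd0 := N2.d0
    have hl := l_le he hκ hK (by linarith) (by linarith) p1.re p1.om hVm.le (hlo5.trans p1.lo)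
    have hl2 : P.rn ≤ rz e κ (shf κ (nxc e κ p (nxc e κ p (shf κ (t00 e κ v)) 0) χ)) := by
      refine le_trans (le_of_eq ?_) hl
      rw [P.e_rn, P.e_L4, hx2]; ring
    have hg0 : 0 ≤ 3 * P.ie + 2 * (P.ie * M1) := by
      have := hM.M10
      positivity
    have hp := P.p_qb
    have hqb := P.e_qb
    rw [P.e_u1, hqb]
    refine u_seg he hκ hK p1.re p1.y (by linarith) p1.r hRV2 hM.M10 hM1 ?_ (hgM M1) hl2 ?_
    · rw [hyb, P.e_yb]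
      linarith
    · have h3 := mul_le_mul_of_nonneg_left hRV hg0
      have h4 := mul_nonneg hg0 hV0.le
      rw [hqb] at hp
      linarith

/-- `C √(β²+v²)/β = X` -/
private theorem gg_X (hβ : 0 < bet e κ) {v : ℝ} {R kc vs GrS GtS G2S Ma Mb M1 : ℝ}
    (hR : R = √(bet e κ ^ 2 + v ^ 2))
    (P : PF cF2 (√e)⁻¹ (bet e κ) v R kc vs GrS GtS G2S Ma Mb M1) :
    CG e κ * √(bet e κ ^ 2 + v ^ 2) / bet e κ = P.X := by
  rw [← hR, P.e_X, P.e_XS, P.e_i4]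
  unfold CG
  have : 4 + bet e κ ≠ 0 := by positivity
  have : bet e κ + 4 ≠ 0 := by positivity
  have := hβ.ne'
  field_simp
  ring

theorem first_gen (he : 200 ≤ e) (he5 : e ≤ 500) (hκ : 0 < κ) (hb : bet e κ ≤ 5) {v : ℝ}
    (hv0 : 0 ≤ v) (hv1 : v ≤ Real.pi) {se be R kc vs GrS GtS G2S Ma Mb M1 : ℝ}
    (g : GeoF e κ v se be R kc vs) (P : PF cF2 se be v R kc vs GrS GtS G2S Ma Mb M1)
    (hG : GF e κ v se P.lau GrS GtS G2S)
    (hM : MF e P.x1 P.d P.E (R ^ 2 * P.m2) P.yc P.dz v κ Ma Mb M1) :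
    FirstOK e κ (CG e κ) (xG 0) (LamG 0) (ynG 0) (aG 0) v := by
  have _ := he5
  obtain ⟨hse, hbe, hR, hk, hv⟩ := g
  subst hse
  subst hbe
  have he0 : 0 < e := by linarith
  have hβ : 0 < bet e κ := mul_pos he0 (Real.sinh_pos_iff.2 hκ)
  obtain ⟨B, hR0⟩ := gg_base he hκ hb hv0 hv1 hR hk hv P hG hM
  obtain ⟨N, -⟩ := gb_main B
  have h0 := hG.h0
  have h1 := hG.h1
  rw [div_inv_eq_mul] at h0 h1
  have hFH := gg_FH he hκ B.hK1 N (gb_DG0 B) (gb_DF0 B) h0 h1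
  intro p hc hT
  have hA := gg_all he hκ P B h0 h1 hM hT
  rw [gg_X hβ hR P]
  refine ⟨⟨_, hFH.1⟩, hA.1, fun χ hχ => ?_⟩
  obtain ⟨g1, -, g3, g4⟩ := hA.2 χ hχ
  have hx0 : xG 0 ≤ P.x1 - P.d := gb_xd P
  refine ⟨⟨_, g1⟩, ⟨g3.re, om_mono hκ g3.om hx0, g3.y, g3.r⟩, fun χ' hχ' => g4 χ' ?_⟩
  refine hχ'.trans (le_of_eq ?_)
  unfold Rx
  rw [norm_mul, Complex.norm_real, Real.norm_of_nonneg]
  · ring
  · have : (0 : ℝ) ≤ aG 0 := by unfold aG; norm_num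
    positivity

/-- the test (`v = π`), by `test_neg2` -/
theorem test_gen (he : 200 ≤ e) (he5 : e ≤ 500) (hκ : 0 < κ) (hb : bet e κ ≤ 5)
    {se be R kc vs GrS GtS G2S Ma Mb M1 : ℝ}
    (g : GeoF e κ Real.pi se be R kc vs)
    (P : PF cF2 se be Real.pi R kc vs GrS GtS G2S Ma Mb M1)
    (hG : GF e κ Real.pi se P.lau GrS GtS G2S)
    (hM : MF e P.x1 P.d P.E (R ^ 2 * P.m2) P.yc P.dz Real.pi κ Ma Mb M1) (t : PFT P) :
    TestOK e κ (CG e κ) := by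
  have _ := he5
  obtain ⟨hse, hbe, hR, hk, hv⟩ := g
  subst hse
  subst hbe
  have he0 : 0 < e := by linarith
  have hβ : 0 < bet e κ := mul_pos he0 (Real.sinh_pos_iff.2 hκ)
  obtain ⟨B, hR0⟩ := gg_base he hκ hb Real.pi_pos.le le_rfl hR hk hv P hG hM
  obtain ⟨N, -⟩ := gb_main B
  have h0 := hG.h0
  have h1 := hG.h1
  rw [div_inv_eq_mul] at h0 h1
  obtain ⟨hFH, hVV, f0, f1, f2, f3, f4⟩ := gg_FH he hκ B.hK1 N (gb_DG0 B) (gb_DF0 B) h0 h1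
  have hie : P.ie = e⁻¹ := by
    have h2 := B.hdiv 1
    rw [one_div, one_mul] at h2
    exact h2.symm
  have hbb : P.bb = (e * Real.sinh κ) ^ 2 / e := by
    rw [P.e_bb, hie]
    unfold bet
    ring
  have hPK := B.hPK
  have htn := tn_le' (K := Real.sinh κ) (V := P.V) (G := G2S) (DF := P.DF) (a := P.a)
    (sg := (√e)⁻¹) (ie := P.ie) (tn := t.tn) (bb := P.bb) he0 hG.g20 (gb_DF0 B) B.ha0 rfl hie
    B.hVp.le hbb
    (by rw [t.e_tn, P.e_Vie, P.e_K2, hPK])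
  have h9 : P.DF + t.tn ≤ 9 / 10 := by
    have := t.p_t9
    linarith
  intro p hT χ hχ
  rw [gg_X hβ hR P] at hχ
  obtain ⟨g1, g2, -⟩ := (gg_all he hκ P B h0 h1 hM hT).2 χ hχ
  refine test_neg2 g1 hb hT f1 f0 f2 f3 f4 g2
    ⟨mul_nonneg hG.g20 B.hs0.le, ?_, gb_haF B, B.ha1, ?_, h9⟩
  · have := B.HG.g2
    linarith
  · rw [hVV]; exact htn

end Pool.Agent.helper31.A2
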