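import Pool.Agent.helper31.A2.Stm
import Pool.Agent.helper31.EQB.NFA0

/-!
# A2-N3, part 0: numbers of the first node from its program

Copy of `EQB/NFA0.lean`, `NFA.lean` for `PF cF2`: the fields of `FG`, `FG2`.
-/

namespace Pool.Agent.helper31.A2

open Complex ComplexConjugate Set Filter Topology
open Pool.Agent.helper31.EQ.Y Pool.Agent.helper31.EQ.R
open Pool.Agent.helper12.EQL Pool.Agent.helper12.RP Pool.Agent.helper12.FF Pool.Agent.helper12.RS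
open Pool.Agent.helper63.FF
open Pool.Agent.helper31.EQB

/-- the relations of `Gr`, `Gt`, `G2` -/
structure GR (s v V GrS GtS G2S : ℝ) : Prop where
  gr : 8 / 5 * V ≤ GrS * s
  gt0 : 0 ≤ GtS
  gt : (GrS * s) ^ 2 + v ^ 2 ≤ (GtS * s) ^ 2
  g20 : 0 ≤ G2S
  g2 : (GrS * s) ^ 2 + v ^ 2 / 4 ≤ (G2S * s) ^ 2

/-- basic facts of the program of the first node -/
structure GB (e s sg K be v R kc vs : ℝ) {GrS GtS G2S Ma Mb M1 : ℝ}
    (P : PF cF2 sg be v R kc vs GrS GtS G2S Ma Mb M1) : Prop where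
  he5 : 200 ≤ e
  hs0 : 0 < s
  hss : s * s = e
  hsg : sg * s = 1
  hK0 : 0 < K
  hbe : be = e * K
  hb : be ≤ 5
  hv0 : 0 ≤ v
  hvpi : v ≤ Real.pi
  hR : 0 < R
  hR2 : R ^ 2 = be ^ 2 + v ^ 2
  hMa : 0 ≤ Ma
  hMb : 0 ≤ Mb
  hM1 : 0 ≤ M1
  HG : GR s v P.V GrS GtS G2S
  he0 : 0 < e
  hbe0 : 0 < be
  hsg0 : 0 < sg
  hieE : P.ie * e = 1
  hie0 : 0 < P.ie
  hdiv : ∀ x : ℝ, x / e = x * P.ie
  hsie : s * P.ie = sg
  hKie : be * P.ie = K
  hPK : P.K = K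
  hK2 : P.K2 = K ^ 2
  hK2se : P.K2se = K * be * sg
  hV1 : P.V = P.ie * R ^ 2
  hVe : P.V * e = R ^ 2
  hw0 : 0 < P.w
  hVp : 0 < P.V
  hwse1 : P.wse = P.ie * R
  hwse0 : 0 < P.wse
  hRwse : R * P.wse = P.V
  hkR : kc * R = be
  hvR : vs * R = v
  hkv1 : kc ^ 2 + vs ^ 2 = 1
  hkc0 : 0 < kc
  hvs0 : 0 ≤ vs
  hVk : P.V * kc ^ 2 = be ^ 2 / e
  hVv : P.V * vs ^ 2 = v ^ 2 / e
  hv3 : v ≤ 315 / 100
  hR35 : R ^ 2 ≤ 35
  hie5 : P.ie ≤ 1 / 200
  hV7 : P.V ≤ 7 / 40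
  hK1 : K ≤ 1 / 40
  hVie0 : 0 ≤ P.Vie
  ha0 : 0 ≤ P.a
  ha1 : P.a ≤ 1 / 18
  he2a : P.e2a = Real.exp (2 * P.a)
  hea1 : 1 ≤ P.ea
  he1 : 1 ≤ P.e2a
  he2 : P.e2a ≤ 9 / 8
  her1 : (8 / 5 * P.V + 5 / 2 * v) * P.ie ≤ P.er
  her0 : 0 ≤ P.er
  her2 : P.er ≤ 41 / 1000
  herr : P.V * (8 / 5 * P.V + 5 / 2 * v) / e ≤ P.V * P.er
  hdzR : P.dz = P.dzR * R
  hdzR0 : 0 ≤ P.dzR
  hdz0 : 0 ≤ P.dz
  hdzE : P.dz = v * sg * G2S + v * P.ea * (1 / 2 * (GtS ^ 2 * P.ie)) +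
      (149797 / 1048576) * (v * P.ea * K ^ 2) +
      P.V * ((3 / 2) * P.e2a - (3 / 2) + (3 / 4) * K ^ 2 + v * P.ie + P.er) +
      K ^ 2 * v ^ 2 * P.ie / 8

theorem gb_base {e s sg K be : ℝ} (he : 200 ≤ e) (hs0 : 0 < s) (hss : s * s = e)
    (hsg : sg * s = 1) (hK0 : 0 < K) (hbe : be = e * K) (hb : be ≤ 5) {v : ℝ} (hv0 : 0 ≤ v)
    (hv1 : v ≤ Real.pi) {R kc vs : ℝ} (hR : 0 < R) (hR2 : R ^ 2 = be ^ 2 + v ^ 2)
    (hkR : kc * R = be) (hvR : vs * R = v) {GrS GtS G2S Ma Mb M1 : ℝ} (hMa : 0 ≤ Ma)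
    (hMb : 0 ≤ Mb) (hM1 : 0 ≤ M1)
    (P : PF cF2 sg be v R kc vs GrS GtS G2S Ma Mb M1)
    (HG : GR s v P.V GrS GtS G2S) : GB e s sg K be v R kc vs P := by
  have he0 : 0 < e := by linarith
  have hbe0 : 0 < be := by rw [hbe]; positivity
  have hGt0 := HG.gt0
  have hG20 := HG.g20
  have c1 : cF2.cD = 1 := rfl
  -- scaling
  have hsg0 : 0 < sg := by
    rcases lt_or_ge 0 sg with h | h
    · exact h
    · nlinarith
  have hieE : P.ie * e = 1 := by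
    rw [P.e_ie, ← hss]; linear_combination (sg * s + 1) * hsg
  have hie0 : 0 < P.ie := by rw [P.e_ie]; positivity
  have hdiv : ∀ x : ℝ, x / e = x * P.ie := by
    intro x
    rw [div_eq_iff he0.ne']
    linear_combination -x * hieE
  have hsie : s * P.ie = sg := by rw [P.e_ie]; linear_combination sg * hsg
  have hKie : be * P.ie = K := by linear_combination P.ie * hbe + K * hieE
  have hPK : P.K = K := P.e_K.trans hKie
  have hK2 : P.K2 = K ^ 2 := by rw [P.e_K2, hPK]; ring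
  have hK2se : P.K2se = K * be * sg := by rw [P.e_K2se, hPK]
  have hV1 : P.V = P.ie * R ^ 2 := by rw [P.e_V, P.e_w, P.e_ie]; ring
  have hVe : P.V * e = R ^ 2 := by rw [hV1]; linear_combination R ^ 2 * hieE
  have hw0 : 0 < P.w := by rw [P.e_w]; positivity
  have hVp : 0 < P.V := by rw [hV1]; positivity
  have hwse1 : P.wse = P.ie * R := by rw [P.e_wse, P.e_w, P.e_ie]; ring
  have hwse0 : 0 < P.wse := by rw [hwse1]; positivity
  have hRwse : R * P.wse = P.V := by rw [hwse1, hV1]; ring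
  have hkv1 : kc ^ 2 + vs ^ 2 = 1 := by
    have h1 : (kc ^ 2 + vs ^ 2) * R ^ 2 = 1 * R ^ 2 := by
      linear_combination (kc * R + be) * hkR + (vs * R + v) * hvR - hR2
    exact mul_right_cancel₀ (by positivity) h1
  have hkc0 : 0 < kc := by
    rw [← hkR] at hbe0
    exact (pos_iff_pos_of_mul_pos hbe0).2 hR
  have hvs0 : 0 ≤ vs := by
    rw [← hvR] at hv0
    exact nonneg_of_mul_nonneg_left hv0 hR
  have hVk : P.V * kc ^ 2 = be ^ 2 / e := by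
    rw [hdiv, hV1]; linear_combination P.ie * (kc * R + be) * hkR
  have hVv : P.V * vs ^ 2 = v ^ 2 / e := by
    rw [hdiv, hV1]; linear_combination P.ie * (vs * R + v) * hvR
  have hpi := Real.pi_lt_d2
  have hv3 : v ≤ 315 / 100 := by norm_num at hpi ⊢; linarith
  have hR35 : R ^ 2 ≤ 35 := by rw [hR2]; nlinarith
  have hie5 : P.ie ≤ 1 / 200 := by
    have h1 : P.ie * 200 ≤ P.ie * e := mul_le_mul_of_nonneg_left he hie0.le
    linarith
  have hV7 : P.V ≤ 7 / 40 := by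
    rw [hV1]
    calc P.ie * R ^ 2 ≤ (1 / 200) * 35 := mul_le_mul hie5 hR35 (by positivity) (by norm_num)
      _ = 7 / 40 := by norm_num
  have hK1 : K ≤ 1 / 40 := by
    rw [← hKie]
    calc be * P.ie ≤ 5 * (1 / 200) := mul_le_mul hb hie5 hie0.le (by norm_num)
      _ = 1 / 40 := by norm_num
  have hVie : P.Vie = P.V * P.ie := P.e_Vie
  have hVie0 : 0 ≤ P.Vie := by rw [hVie]; positivity
  -- a
  have ha0 : 0 ≤ P.a := by
    rw [P.e_a, c1]
    positivity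
  have ha1 : P.a ≤ 1 / 18 := by
    have h := P.p_a1
    linarith
  have he2a : P.e2a = Real.exp (2 * P.a) := by
    rw [P.e_e2a, P.e_ea, ← Real.exp_add]; congr 1; ring
  have hea1 : 1 ≤ P.ea := by rw [P.e_ea]; exact Real.one_le_exp ha0
  have he1 : 1 ≤ P.e2a := by rw [he2a]; exact Real.one_le_exp (by linarith)
  have he2 : P.e2a ≤ 9 / 8 := by
    have h1 := Real.exp_bound_div_one_sub_of_interval (x := 2 * P.a) (by linarith) (by linarith)
    rw [← he2a] at h1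
    refine h1.trans ?_
    rw [div_le_div_iff₀ (by linarith) (by norm_num)]
    linarith
  -- er
  have her1 : (8 / 5 * P.V + 5 / 2 * v) * P.ie ≤ P.er := by
    rw [P.e_er]
    exact mul_le_mul_of_nonneg_right (by linarith) hie0.le
  have her0 : 0 ≤ P.er := le_trans (by positivity) her1
  have her2 : P.er ≤ 41 / 1000 := by
    rw [P.e_er]
    calc ((838861 / 524288) * P.V + (5 / 2) * v) * P.ie ≤ (82 / 10) * (1 / 200) :=
          mul_le_mul (by linarith) hie5 hie0.le (by norm_num)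
      _ = 41 / 1000 := by norm_num
  have herr : P.V * (8 / 5 * P.V + 5 / 2 * v) / e ≤ P.V * P.er := by
    rw [hdiv, mul_assoc]
    exact mul_le_mul_of_nonneg_left her1 hVp.le
  -- displacement
  have hdzR : P.dz = P.dzR * R := by rw [P.e_dz, P.e_dzR, P.e_w]; ring
  have hvsw : vs * P.w = v * sg := by rw [P.e_w, ← hvR]; ring
  have hdzS0 : 0 ≤ P.dzS := by
    rw [P.e_dzS, hK2se, hK2]
    have h1 : 0 ≤ (3 / 2) * P.e2a - (3 / 2) := by linarith
    positivity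
  have hdzR0 : 0 ≤ P.dzR := by rw [P.e_dzR]; positivity
  have hdz0 : 0 ≤ P.dz := by rw [hdzR]; positivity
  have hdzE : P.dz = v * sg * G2S + v * P.ea * (1 / 2 * (GtS ^ 2 * P.ie)) +
      (149797 / 1048576) * (v * P.ea * K ^ 2) +
      P.V * ((3 / 2) * P.e2a - (3 / 2) + (3 / 4) * K ^ 2 + v * P.ie + P.er) +
      K ^ 2 * v ^ 2 * P.ie / 8 := by
    rw [P.e_dz, P.e_dzS, hK2se, hK2]
    linear_combination (G2S + P.ea * ((1 / 2) * (sg * GtS * GtS) +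
      (149797 / 1048576) * (K * be * sg)) + K * be * sg * ((1 / 8) * (v * P.ie))) * hvsw -
      ((3 / 2) * P.e2a - (3 / 2) + (3 / 4) * K ^ 2 + v * P.ie + P.er) * P.e_V -
      (v * P.ea * (1 / 2) * GtS ^ 2 + (149797 / 1048576) * (v * P.ea * K * be) +
        K * be * v ^ 2 * P.ie / 8) * P.e_ie +
      ((149797 / 1048576) * (v * P.ea * K) + K * v ^ 2 * P.ie / 8) * hKie
  exact ⟨he, hs0, hss, hsg, hK0, hbe, hb, hv0, hv1, hR, hR2, hMa, hMb, hM1, HG, he0, hbe0, hsg0,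
    hieE, hie0, hdiv, hsie, hKie, hPK, hK2, hK2se, hV1, hVe, hw0, hVp, hwse1, hwse0, hRwse, hkR,
    hvR, hkv1, hkc0, hvs0, hVk, hVv, hv3, hR35, hie5, hV7, hK1, hVie0, ha0, ha1, he2a, hea1, he1,
    he2, her1, her0, her2, herr, hdzR, hdzR0, hdz0, hdzE⟩

section

variable {e s sg K be v R kc vs GrS GtS G2S Ma Mb M1 : ℝ}
  {P : PF cF2 sg be v R kc vs GrS GtS G2S Ma Mb M1}

private theorem fa_X0 (B : GB e s sg K be v R kc vs P) : 0 < P.X := by
  have h1 := B.hR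
  have h2 := B.hbe0
  have c12 : cF2.aS = 2147 / 16384 := rfl
  rw [P.e_X, P.e_XS, P.e_i4, c12]
  positivity

private theorem fa_X1 (P : PF cF2 sg be v R kc vs GrS GtS G2S Ma Mb M1) : P.X < 1 :=
  sub_pos.1 P.p_X1

private theorem fa_LX (B : GB e s sg K be v R kc vs P) : -Real.log (1 - P.X) ≤ P.X * P.LX := by
  have h := fa_log (c := 174763 / 524288) (fa_X0 B).le (fa_X1 P) (by norm_num)
  rw [P.e_LX, P.e_iX]
  exact h

private theorem fa_LX0 (B : GB e s sg K be v R kc vs P) : 0 ≤ P.X * P.LX := by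
  refine le_trans ?_ (fa_LX B)
  have h0 := fa_X0 B
  have h1 := fa_X1 P
  rw [neg_nonneg]
  exact Real.log_nonpos (by linarith) (by linarith)

private theorem fa_m2 (P : PF cF2 sg be v R kc vs GrS GtS G2S Ma Mb M1) :
    P.m2 = P.m ^ 2 := by rw [P.e_m2]; ring

theorem gb_m20 (P : PF cF2 sg be v R kc vs GrS GtS G2S Ma Mb M1) :
    0 < P.m2 := by
  have h := P.p_m0
  rw [fa_m2]; positivity

private theorem fa_z0 (B : GB e s sg K be v R kc vs P) : 0 ≤ P.z := by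
  have h1 := B.hvs0
  have h2 := B.hVie0
  rw [P.e_z]
  positivity

private theorem n_z {a b : ℝ} (h1 : a ^ 2 ≤ 1) (h2 : b ≤ 7 / 40 * (1 / 200)) (h3 : 0 ≤ b) :
    2 * (a ^ 2 * b) ≤ 1 / 500 := by
  have h4 : a ^ 2 * b ≤ 1 * b := mul_le_mul_of_nonneg_right h1 h3
  linarith

private theorem fa_vs1 (B : GB e s sg K be v R kc vs P) : vs ^ 2 ≤ 1 := by
  have h1 := B.hkv1
  have h2 := sq_nonneg kc
  linarith

private theorem fa_z1 (B : GB e s sg K be v R kc vs P) : P.z ≤ 1 / 500 := by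
  have h1 : P.z = 2 * (vs ^ 2 * (P.V * P.ie)) := by rw [P.e_z, P.e_Vie]; ring
  have hV := B.hVp
  have hi := B.hie0
  rw [h1]
  exact n_z (fa_vs1 B) (mul_le_mul B.hV7 B.hie5 B.hie0.le (by norm_num)) (by positivity)

private theorem fa_sR0 (B : GB e s sg K be v R kc vs P) : 0 ≤ P.sR0 ∧ P.sR0 ≤ 1 := by
  have h0 := fa_z0 B
  have h1 := fa_z1 B
  rw [P.e_sR0]
  constructor <;> linarith

private theorem fa_sqS (B : GB e s sg K be v R kc vs P) : √(R ^ 2 * P.m2) = R * P.m := by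
  have h := P.p_m0
  have hR := B.hR
  rw [fa_m2, ← mul_pow]
  exact Real.sqrt_sq (by positivity)

private theorem n_ea {a : ℝ} (h0 : 1 ≤ a) (h : a * a ≤ 9 / 8) : a ≤ 107 / 100 := by nlinarith

private theorem fa_ea (B : GB e s sg K be v R kc vs P) : P.ea ≤ 107 / 100 := by
  refine n_ea B.hea1 ?_
  rw [← P.e_e2a]
  exact B.he2

private theorem n_r1 {k w a b h r : ℝ} (hk : k ^ 2 + w ^ 2 = 1) (ha1 : 1 ≤ a) (ha : a ≤ 107 / 100)
    (hb : b ≤ 9 / 8) (hh0 : 99 / 100 ≤ h) (hr : r ≤ 41 / 1000) :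
    0 < h * (3 - (3 / 2) * b) - (1 / 2) * (k * k) - w * w * a - r := by
  have h1 : (99 / 100) * (21 / 16) ≤ h * (3 - (3 / 2) * b) :=
    mul_le_mul hh0 (by linarith) (by norm_num) (by linarith)
  have h2 : 0 ≤ k ^ 2 * (a - 1 / 2) := mul_nonneg (sq_nonneg k) (by linarith)
  have h3 : (1 / 2) * (k * k) + w * w * a = a * (k ^ 2 + w ^ 2) - k ^ 2 * (a - 1 / 2) := by ring
  rw [hk] at h3
  linarith

private theorem n_h4 {K : ℝ} (h0 : 0 < K) (h1 : K ≤ 1 / 40) :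
    99 / 100 ≤ 1 - (1 / 4) * K ^ 2 ∧ 1 - (1 / 4) * K ^ 2 ≤ 1 := by
  constructor <;> nlinarith

private theorem fa_h4 (B : GB e s sg K be v R kc vs P) :
    P.h4 = 1 - (1 / 4) * K ^ 2 := by rw [P.e_h4, B.hK2]

private theorem fa_h4b (B : GB e s sg K be v R kc vs P) :
    99 / 100 ≤ P.h4 ∧ P.h4 ≤ 1 := by
  rw [fa_h4 B]
  exact n_h4 B.hK0 B.hK1

private theorem fa_r1V (B : GB e s sg K be v R kc vs P) : 0 < P.r1V := by
  rw [P.e_r1V]
  exact n_r1 B.hkv1 B.hea1 (fa_ea B) B.he2 (fa_h4b B).1 B.her2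

private theorem fa_kv0 (B : GB e s sg K be v R kc vs P) : 0 < P.kv + P.r1w * P.r1w := by
  have h := B.hkc0
  rw [P.e_kv]
  have h1 := mul_self_nonneg P.ycR
  have h2 := mul_self_nonneg P.r1w
  positivity

theorem gb_x10 (B : GB e s sg K be v R kc vs P) : 0 < P.x1 := by
  have h1 := fa_kv0 B
  have h2 := fa_r1V B
  rw [P.e_x1]
  positivity

theorem gb_x11 (P : PF cF2 sg be v R kc vs GrS GtS G2S Ma Mb M1) :
    P.x1 ≤ 1 := by
  have h := P.p_x11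
  linarith

private theorem fa_u0 (P : PF cF2 sg be v R kc vs GrS GtS G2S Ma Mb M1) :
    0 < P.u := by
  rw [P.e_u]
  exact Real.exp_pos _

theorem gb_lv0 (B : GB e s sg K be v R kc vs P) : 0 ≤ P.lv := by
  have h1 := gb_x10 B
  have h2 := B.hVp
  have h3 := gb_m20 P
  rw [P.e_lv, P.e_L1]
  positivity

/-- the coefficient of `r²` -/
private theorem fa_ga (B : GB e s sg K be v R kc vs P) : 0 ≤ (3 * P.ie + 2 * (P.ie * Ma)) := by
  have h1 := B.hie0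
  have h2 := B.hMa
  positivity

private theorem fa_qa0 (B : GB e s sg K be v R kc vs P) : 0 < P.qa := by
  have h1 := P.p_qa
  have h2 := mul_nonneg (fa_ga B) B.hVp.le
  linarith

private theorem fa_u1 (B : GB e s sg K be v R kc vs P) : P.u ≤ 1 := by
  have h1 := gb_lv0 B
  have h4 := fa_qa0 B
  rw [P.e_u]
  apply Real.exp_le_one_iff.2
  rw [neg_nonpos]
  positivity

private theorem fa_uX0 (B : GB e s sg K be v R kc vs P) : 0 < P.uX := by
  rw [P.e_uX]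
  exact mul_pos (fa_u0 P) (fa_X0 B)

private theorem fa_uX1 (B : GB e s sg K be v R kc vs P) : P.uX < 1 := by
  have h1 := fa_u1 B
  have h2 := fa_X0 B
  have h3 := fa_X1 P
  have h4 := mul_le_mul_of_nonneg_right h1 h2.le
  rw [P.e_uX]
  linarith

private theorem fa_LU (B : GB e s sg K be v R kc vs P) :
    -Real.log (1 - P.u * P.X) ≤ P.uX * P.LU := by
  have h := fa_log (c := 174763 / 524288) (fa_uX0 B).le (fa_uX1 B) (by norm_num)
  rw [P.e_LU, ← P.e_uX]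
  exact h

private theorem fa_LU0 (B : GB e s sg K be v R kc vs P) : 0 ≤ P.uX * P.LU := by
  refine le_trans ?_ (fa_LU B)
  have h0 := fa_uX0 B
  have h1 := fa_uX1 B
  rw [neg_nonneg, ← P.e_uX]
  exact Real.log_nonpos (by linarith) (by linarith)

theorem gb_DG0 (B : GB e s sg K be v R kc vs P) : 0 ≤ P.DG := by
  have h1 := fa_LX0 B
  have h2 := B.hMb
  have h3 := B.hdz0
  rw [P.e_DG]
  positivity

theorem gb_DF0 (B : GB e s sg K be v R kc vs P) : 0 ≤ P.DF := by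
  have h1 := fa_LU0 B
  have h2 := B.hMa
  have h3 := B.hdz0
  rw [P.e_DF]
  positivity

private theorem fa_hvDG (B : GB e s sg K be v R kc vs P) : P.vDG * R ^ 2 = v * P.DG := by
  rw [P.e_vDG, P.e_DG, P.e_X, B.hdzR]
  linear_combination (P.dzR * Mb + P.dzR + P.XS * P.LX) * R * B.hvR

private theorem fa_vDG0 (B : GB e s sg K be v R kc vs P) : 0 ≤ P.vDG := by
  have h1 := gb_DG0 B
  have h2 := fa_hvDG B
  have h3 := B.hv0
  have h4 := B.hR
  have h5 : 0 ≤ P.vDG * R ^ 2 := by rw [h2]; positivity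
  exact nonneg_of_mul_nonneg_left h5 (by positivity)

private theorem fa_EQ0 (B : GB e s sg K be v R kc vs P) : 0 ≤ P.EQ := by
  have h1 := gb_DG0 B
  have h2 := gb_DF0 B
  have h3 := fa_vDG0 B
  have h4 := B.hie0
  have h5 := B.he1
  rw [P.e_EQ]
  positivity

theorem gb_E0 (B : GB e s sg K be v R kc vs P) : 0 ≤ P.E := by
  rw [P.e_E]
  exact mul_nonneg (fa_EQ0 B) B.hVp.le

private theorem fa_ER (B : GB e s sg K be v R kc vs P) : P.E = R * P.ER := by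
  rw [P.e_E, P.e_ER, ← B.hRwse]
  ring

private theorem fa_ER0 (B : GB e s sg K be v R kc vs P) : 0 ≤ P.ER := by
  rw [P.e_ER]
  exact mul_nonneg (fa_EQ0 B) B.hwse0.le

private theorem fa_Qw (B : GB e s sg K be v R kc vs P) : P.E = R * P.m * P.Qw := by
  have h := P.p_m0
  rw [fa_ER B, P.e_Qw, P.e_im]
  field_simp

private theorem fa_Qw0 (B : GB e s sg K be v R kc vs P) : 0 ≤ P.Qw := by
  have h := P.p_m0
  have h1 := fa_ER0 B
  rw [P.e_Qw, P.e_im]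
  positivity

private theorem fa_Qw1 (P : PF cF2 sg be v R kc vs GrS GtS G2S Ma Mb M1) :
    P.Qw < 1 := sub_pos.1 P.p_Es

private theorem fa_Es (B : GB e s sg K be v R kc vs P) : P.E < √(R ^ 2 * P.m2) := by
  have h1 := B.hR
  have h2 := P.p_m0
  have h3 := fa_Qw1 P
  have h4 : 0 < R * P.m := by positivity
  rw [fa_sqS B, fa_Qw B]
  nlinarith

theorem gb_Eq (B : GB e s sg K be v R kc vs P) :
    2 * P.E / √(R ^ 2 * P.m2) = 2 * P.Qw := by
  have h1 := B.hR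
  have h2 := P.p_m0
  have h4 : R * P.m ≠ 0 := by positivity
  rw [fa_sqS B, fa_Qw B, div_eq_iff h4]
  ring

theorem gb_500 (B : GB e s sg K be v R kc vs P) : 500 / e ^ 2 ≤ 13 / 1024 := by
  have h1 := B.he5
  have h2 := B.he0
  rw [div_le_div_iff₀ (by positivity) (by norm_num)]
  nlinarith

theorem gb_c2 (B : GB e s sg K be v R kc vs P) :
    P.c2 ≤ 1 - 2 * P.Qw - 500 / e ^ 2 ∧ P.c2 ≤ 1011 / 1024 := by
  have h1 := gb_500 B
  have h2 := fa_Qw0 B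
  rw [P.e_c2]
  constructor <;> linarith

theorem gb_c20 (P : PF cF2 sg be v R kc vs GrS GtS G2S Ma Mb M1) :
    0 < P.c2 := by
  have h1 := P.p_h9
  have c2 : cF2.RH = 3175 / 1024 := rfl
  rw [c2] at h1
  have h2 : 0 < P.m2 * P.c2 := by linarith
  exact (mul_pos_iff_of_pos_left (gb_m20 P)).1 h2

/-- `m > 56/100`, `dzR ≤ 34/100` -/
private theorem n_md {z d m c : ℝ} (hz0 : 0 ≤ z) (hm0 : 0 < m) (hd0 : 0 ≤ d)
    (hm : m = (1 - z) - d - d * d) (hc : c ≤ 1011 / 1024)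
    (h : 0 < 10 * (m * m * c) - 3175 / 1024) : d ≤ 34 / 100 := by
  have h1 : m * m * c ≤ m * m * (1011 / 1024) :=
    mul_le_mul_of_nonneg_left hc (mul_self_nonneg m)
  have h2 : 56 / 100 < m := by
    by_contra h3
    push Not at h3
    have h4 : m * m ≤ 56 / 100 * (56 / 100) := mul_le_mul h3 h3 hm0.le (by norm_num)
    linarith
  by_contra h3
  push Not at h3
  nlinarith

private theorem fa_d1 (B : GB e s sg K be v R kc vs P) : P.dzR ≤ 34 / 100 := by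
  have h := P.p_h9
  have h2 := P.e_m
  have c2 : cF2.RH = 3175 / 1024 := rfl
  rw [c2, P.e_m2] at h
  rw [P.e_sR0] at h2
  exact n_md (fa_z0 B) P.p_m0 B.hdzR0 h2 (gb_c2 B).2 h

private theorem n_m {z d m : ℝ} (hz0 : 0 ≤ z) (hz1 : z ≤ 1 / 500) (hd0 : 0 ≤ d)
    (hd1 : d ≤ 34 / 100) (hm : m = (1 - z) - d - d * d) :
    m ^ 2 ≤ (1 - z) ^ 2 - 2 * d * (1 - z) ∧ m ≤ 1 := by
  have hdd : d * d ≤ 34 / 100 * (34 / 100) := mul_le_mul hd1 hd1 hd0 (by norm_num)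
  have hdd0 : 0 ≤ d * d := mul_nonneg hd0 hd0
  have h3 : 0 ≤ d * d * (2 * (1 - z - d) - (1 + d * d)) := mul_nonneg hdd0 (by linarith)
  refine ⟨?_, by rw [hm]; linarith⟩
  have h4 : (1 - z) ^ 2 - 2 * d * (1 - z) - m ^ 2 = d * d * (2 * (1 - z - d) - (1 + d * d)) := by
    rw [hm]; ring
  linarith

private theorem fa_mm (B : GB e s sg K be v R kc vs P) :
    P.m ^ 2 ≤ P.sR0 ^ 2 - 2 * P.dzR * P.sR0 ∧ P.m ≤ 1 := by
  have h := P.e_m
  rw [P.e_sR0] at h ⊢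
  exact n_m (fa_z0 B) (fa_z1 B) B.hdzR0 (fa_d1 B) h

theorem gb_Sle (B : GB e s sg K be v R kc vs P) : R ^ 2 * P.m2 / e = P.V * P.m2 := by
  rw [B.hdiv, B.hV1]
  ring

private theorem fa_V1 (B : GB e s sg K be v R kc vs P) : P.V ≤ e / 100 := by
  have h1 := B.hV7
  have h2 := B.he5
  linarith

private theorem fa_hV (B : GB e s sg K be v R kc vs P) :
    P.V = ((e * K) ^ 2 + v ^ 2) / e := by
  rw [B.hdiv, ← B.hbe, ← B.hR2, B.hV1]
  ring

private theorem fa_hlau (B : GB e s sg K be v R kc vs P) :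
    e * K / 2 + Real.log (1 + Real.exp (-(e * K))) = P.lau := by
  rw [P.e_lau, ← B.hbe, add_comm (1 : ℝ)]
  ring

private theorem fa_Gr0 (B : GB e s sg K be v R kc vs P) : 0 ≤ GrS * s := by
  have h1 := B.HG.gr
  have h2 := B.hVp
  linarith

private theorem fa_gte (B : GB e s sg K be v R kc vs P) : GtS * s / e * e = GtS * s :=
  div_mul_cancel₀ _ B.he0.ne'

private theorem fa_gt2 (B : GB e s sg K be v R kc vs P) :
    (GtS * s / e) ^ 2 = GtS ^ 2 * P.ie := by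
  rw [B.hdiv, mul_assoc, B.hsie, P.e_ie]
  ring

private theorem fa_hdz (B : GB e s sg K be v R kc vs P) :
    v / e * (G2S * s) + v * Real.exp P.a * ((GtS * s / e) ^ 2 / 2 + K ^ 2 / 7) +
      K ^ 2 * v ^ 2 / (8 * e) +
      P.V * (3 / 2 * (Real.exp (2 * P.a) - 1) + 3 / 4 * K ^ 2 + v / e) +
      P.V * (8 / 5 * P.V + 5 / 2 * v) / e ≤ P.dz := by
  have h0 := B.herr
  have h1 : v / e * (G2S * s) = v * sg * G2S := by
    rw [B.hdiv]; linear_combination v * G2S * B.hsie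
  have h2 : K ^ 2 * v ^ 2 / (8 * e) = K ^ 2 * v ^ 2 * P.ie / 8 := by
    rw [mul_comm (8 : ℝ) e, ← div_div, B.hdiv]
  have h3 : 0 ≤ v * P.ea * K ^ 2 := by
    have := B.hv0
    have := B.hea1
    positivity
  rw [B.hdzE, h1, h2, fa_gt2 B, ← P.e_ea, ← B.he2a, B.hdiv v]
  nlinarith

private theorem fa_hr1 (B : GB e s sg K be v R kc vs P) :
    P.r1V * P.V ≤ (1 - K ^ 2 / 4) * P.V * (3 - 3 / 2 * Real.exp (2 * P.a)) -
      (e * K) ^ 2 / e / 2 - v ^ 2 / e * Real.exp P.a - P.V * (8 / 5 * P.V + 5 / 2 * v) / e := by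
  have h0 := B.herr
  have h1 := B.hVk
  have h2 := B.hVv
  have h3 : P.r1V * P.V = (1 - K ^ 2 / 4) * P.V * (3 - 3 / 2 * P.e2a) - be ^ 2 / e / 2 -
      v ^ 2 / e * P.ea - P.V * P.er := by
    rw [P.e_r1V, fa_h4 B]
    linear_combination -(1 / 2) * h1 - P.ea * h2
  rw [h3, ← B.he2a, ← P.e_ea, ← B.hbe]
  linarith

private theorem fa_hr2 (B : GB e s sg K be v R kc vs P) :
    P.V * (3 / 2 * Real.exp (2 * P.a)) - (1 - K ^ 2 / 4) * ((e * K) ^ 2 / e) / 2 +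
      P.V * (8 / 5 * P.V + 5 / 2 * v) / e ≤ P.r2V * P.V := by
  have h0 := B.herr
  have h1 := B.hVk
  have h3 : P.r2V * P.V = P.V * (3 / 2 * P.e2a) - (1 - K ^ 2 / 4) * (be ^ 2 / e) / 2 +
      P.V * P.er := by
    rw [P.e_r2V, fa_h4 B]
    linear_combination -(1 / 2) * (1 - K ^ 2 / 4) * h1
  rw [h3, ← B.he2a, ← B.hbe]
  linarith

private theorem n_glf {V ie : ℝ} (hV0 : 0 < V) (hV : V ≤ 7 / 40) (hi0 : 0 < ie)
    (hi : ie ≤ 1 / 200) :
    Real.exp (8 / 5 * V * ie) ≤ 1 + (267387 / 262144) * ((838861 / 524288) * V * ie) := by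
  have h1 : V * ie ≤ 7 / 40 * (1 / 200) := mul_le_mul hV hi hi0.le (by norm_num)
  have h0 : 0 < V * ie := by positivity
  have h2 := fa_exp_lin (y := 8 / 5 * V * ie) (by positivity) (by linarith)
  refine h2.trans ?_
  linarith

private theorem fa_hyc (B : GB e s sg K be v R kc vs P) :
    v * Real.exp (8 / 5 * P.V / e) + 2 * P.V * v * Real.exp (2 * P.a) / e +
      P.V * (8 / 5 * P.V + 5 / 2 * v) / e ≤ P.ycR * R := by
  have h0 := B.herr
  have h1 : P.ycR * R = v * P.glf + 2 * P.V * v * P.e2a * P.ie + P.V * P.er := by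
    rw [P.e_ycR, P.e_Vie]
    linear_combination (P.glf + 2 * (P.V * P.ie * P.e2a)) * B.hvR + P.er * B.hRwse
  have h2 : v * Real.exp (8 / 5 * P.V / e) ≤ v * P.glf := by
    refine mul_le_mul_of_nonneg_left ?_ B.hv0
    rw [P.e_glf, B.hdiv]
    exact n_glf B.hVp B.hV7 B.hie0 B.hie5
  rw [h1, ← B.he2a, B.hdiv (2 * P.V * v * P.e2a)]
  linarith

private theorem fa_r1R (B : GB e s sg K be v R kc vs P) : P.r1V * P.V = R * P.r1w := by
  rw [P.e_r1w, ← B.hRwse]; ring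

private theorem fa_r2R (B : GB e s sg K be v R kc vs P) : P.r2V * P.V = R * P.r2w := by
  rw [P.e_r2w, ← B.hRwse]; ring

private theorem fa_beR (B : GB e s sg K be v R kc vs P) : e * K = kc * R := by
  rw [B.hkR, B.hbe]

private theorem fa_hx1 (B : GB e s sg K be v R kc vs P) :
    P.x1 * ((e * K) ^ 2 + (P.ycR * R) ^ 2 + (P.r1V * P.V) ^ 2) / e ≤ P.r1V * P.V := by
  have h1 := fa_kv0 B
  have h2 : P.x1 * (P.kv + P.r1w * P.r1w) = (1023 / 1024) * P.r1V := by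
    rw [P.e_x1]
    exact inv_mul_cancel_right₀ h1.ne' _
  have h3 : P.x1 * ((e * K) ^ 2 + (P.ycR * R) ^ 2 + (P.r1V * P.V) ^ 2) / e =
      (1023 / 1024) * (P.r1V * P.V) := by
    have e1 : (P.r1V * P.V) ^ 2 = (R * P.r1w) ^ 2 := by rw [fa_r1R B]
    rw [e1, fa_beR B, B.hdiv, B.hV1]
    rw [P.e_kv] at h2
    linear_combination P.ie * R ^ 2 * h2
  rw [h3]
  have h4 := mul_pos (fa_r1V B) B.hVp
  linarith

private theorem n_r2 {a h k r V : ℝ} (ha : a ≤ 9 / 8) (hh : 0 ≤ h) (hr : r ≤ 41 / 1000)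
    (hV0 : 0 < V) (hV : V ≤ 7 / 40) :
    ((3 / 2) * a - h * ((1 / 2) * (k * k)) + r) * V ≤ 1 := by
  have h1 : 0 ≤ h * ((1 / 2) * (k * k)) := by
    have := mul_self_nonneg k
    positivity
  have h2 : ((3 / 2) * a - h * ((1 / 2) * (k * k)) + r) * V ≤ 2 * V :=
    mul_le_mul_of_nonneg_right (by linarith) hV0.le
  linarith

private theorem fa_r2e (B : GB e s sg K be v R kc vs P) : P.r2V * P.V ≤ e / 2 := by
  have h1 : P.r2V * P.V ≤ 1 := by
    rw [P.e_r2V]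
    have := (fa_h4b B).1
    exact n_r2 B.he2 (by linarith) B.her2 B.hVp B.hV7
  have h2 := B.he5
  linarith

private theorem n_S0 {c w y : ℝ} (h1 : c ^ 2 + w ^ 2 = 1) (hy : 0 ≤ y)
    (hz : 2 * (w ^ 2 * y) ≤ 1) :
    (1 - 2 * (w ^ 2 * y)) ^ 2 ≤ c ^ 2 + w ^ 2 * (1 / (1 + y) ^ 2) := by
  have h0 : 0 ≤ w ^ 2 * y := by positivity
  have h2 : 1 - 2 * y ≤ 1 / (1 + y) ^ 2 := by
    rw [le_div_iff₀ (by positivity)]
    nlinarith [mul_nonneg hy (sq_nonneg y), sq_nonneg y]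
  have h3 : w ^ 2 * (1 - 2 * y) ≤ w ^ 2 * (1 / (1 + y) ^ 2) :=
    mul_le_mul_of_nonneg_left h2 (sq_nonneg w)
  have h4 : (1 - 2 * (w ^ 2 * y)) ^ 2 ≤ 1 - 2 * (w ^ 2 * y) := by nlinarith
  nlinarith

private theorem fa_hS0 (B : GB e s sg K be v R kc vs P) :
    (R * P.sR0) ^ 2 ≤ (e * K) ^ 2 + (v / (1 + P.V / e)) ^ 2 := by
  have hz1 := fa_z1 B
  have hV := B.hVp
  have hi := B.hie0
  have hz : P.z = 2 * (vs ^ 2 * (P.V / e)) := by rw [P.e_z, P.e_Vie, B.hdiv]; ring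
  rw [hz] at hz1
  have hy : 0 ≤ P.V / e := by rw [B.hdiv]; positivity
  have h1 := n_S0 B.hkv1 hy (by linarith)
  have h2 := mul_le_mul_of_nonneg_left h1 (sq_nonneg R)
  have h3 : (R * P.sR0) ^ 2 = R ^ 2 * (1 - 2 * (vs ^ 2 * (P.V / e))) ^ 2 := by
    rw [P.e_sR0, hz]; ring
  have h4 : (e * K) ^ 2 + (v / (1 + P.V / e)) ^ 2 =
      R ^ 2 * (kc ^ 2 + vs ^ 2 * (1 / (1 + P.V / e) ^ 2)) := by
    rw [fa_beR B, div_pow, div_eq_mul_one_div (v ^ 2)]
    linear_combination -(v + vs * R) * (1 / (1 + P.V / e) ^ 2) * B.hvR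
  rw [h3, h4]
  exact h2

private theorem fa_sq0 (B : GB e s sg K be v R kc vs P) : √((R * P.sR0) ^ 2) = R * P.sR0 :=
  Real.sqrt_sq (mul_nonneg B.hR.le (fa_sR0 B).1)

private theorem fa_dzS (B : GB e s sg K be v R kc vs P) : P.dz ≤ √((R * P.sR0) ^ 2) := by
  have h1 := P.p_dzS0
  have h2 := mul_le_mul_of_nonneg_left (by linarith : P.dzR ≤ P.sR0) B.hR.le
  rw [fa_sq0 B, B.hdzR]
  linarith

private theorem fa_hSl (B : GB e s sg K be v R kc vs P) :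
    R ^ 2 * P.m2 ≤ (R * P.sR0) ^ 2 * (1 - 2 * P.dz / √((R * P.sR0) ^ 2)) := by
  have h1 := P.p_dzS0
  have h2 := B.hdzR0
  have h3 : 0 < P.sR0 := by linarith
  have hR := B.hR
  have h4 : R * P.sR0 ≠ 0 := by positivity
  have h5 : (R * P.sR0) ^ 2 * (1 - 2 * P.dz / √((R * P.sR0) ^ 2)) =
      R ^ 2 * (P.sR0 ^ 2 - 2 * P.dzR * P.sR0) := by
    rw [fa_sq0 B, B.hdzR]
    field_simp
  rw [h5, fa_m2]
  exact mul_le_mul_of_nonneg_left (fa_mm B).1 (sq_nonneg R)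

private theorem fa_ae (B : GB e s sg K be v R kc vs P) :
    P.a * e = GtS * s + 1 := by
  have c1 : cF2.cD = 1 := rfl
  rw [P.e_a, c1]
  have h1 : sg * e = s := by rw [← B.hss]; linear_combination s * B.hsg
  linear_combination GtS * h1 + B.hieE

private theorem fa_haG (B : GB e s sg K be v R kc vs P) :
    GtS * s / e * e + P.DG ≤ P.a * e := by
  have h := P.p_cG
  have c1 : cF2.cD = 1 := rfl
  rw [c1] at h
  rw [fa_gte B, fa_ae B]
  linarith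

theorem gb_haF (B : GB e s sg K be v R kc vs P) : GtS * s + P.DF ≤ P.a * e := by
  have h := P.p_cF
  have c1 : cF2.cD = 1 := rfl
  rw [c1] at h
  rw [fa_ae B]
  linarith

private theorem fa_hE (B : GB e s sg K be v R kc vs P) :
    53 / 50 * Real.exp (2 * P.a) * (v * P.DG + P.V * (2 * P.DG + P.DF)) / e ≤ P.E := by
  have h1 := gb_DG0 B
  have h2 := gb_DF0 B
  have h3 := B.he1
  have h4 := B.hv0
  have h5 := B.hVp
  have h6 := B.hie0
  have h7 : 0 ≤ P.e2a * ((v * P.DG + P.V * (2 * P.DG + P.DF)) * P.ie) := by positivity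
  have h8 : P.E = (1111491 / 1048576) * (P.e2a * ((v * P.DG + P.V * (2 * P.DG + P.DF)) * P.ie)) := by
    rw [P.e_E, P.e_EQ, B.hV1]
    linear_combination (1111491 / 1048576) * P.e2a * P.ie * fa_hvDG B
  rw [h8, ← B.he2a, B.hdiv]
  nlinarith

private theorem fa_sR (B : GB e s sg K be v R kc vs P) : √((e * K) ^ 2 + v ^ 2) = R := by
  rw [← B.hbe, ← B.hR2]
  exact Real.sqrt_sq B.hR.le

private theorem fa_RR (B : GB e s sg K be v R kc vs P) (x : ℝ) :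
    (R * x) ^ 2 / e = P.V * (x * x) := by
  rw [B.hdiv, B.hV1]; ring

private theorem fa_hRH1 (B : GB e s sg K be v R kc vs P) :
    201 / 200 * P.V + (√((e * K) ^ 2 + v ^ 2) + P.dz) ^ 2 / e ≤ cF2.RH * P.V := by
  have h := P.p_R1
  have c2 : cF2.RH = 3175 / 1024 := rfl
  have c3 : cF2.RH1 = 8583 / 4096 := rfl
  rw [c3] at h
  have e1 : R + P.dz = R * (P.dzR + 1) := by rw [B.hdzR]; ring
  rw [fa_sR B, e1, fa_RR B, c2]
  have h2 : P.V * ((P.dzR + 1) * (P.dzR + 1)) ≤ P.V * (8583 / 4096) :=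
    mul_le_mul_of_nonneg_left (by linarith) B.hVp.le
  have h3 := B.hVp
  linarith

private theorem n_s1 {x : ℝ} (hx : 0 ≤ x) : √x ≤ (1 / 2) * (x - 1) + 1 := by
  have h1 := Real.sq_sqrt hx
  nlinarith [sq_nonneg (√x - 1)]

private theorem fa_kvn (P : PF cF2 sg be v R kc vs GrS GtS G2S Ma Mb M1) : 0 ≤ P.kv := by
  rw [P.e_kv]
  exact add_nonneg (mul_self_nonneg _) (mul_self_nonneg _)

private theorem fa_skv (B : GB e s sg K be v R kc vs P) :
    √((e * K) ^ 2 + (P.ycR * R) ^ 2) = R * √P.kv := by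
  have e1 : (e * K) ^ 2 + (P.ycR * R) ^ 2 = R ^ 2 * P.kv := by
    rw [fa_beR B, P.e_kv]; ring
  rw [e1, Real.sqrt_mul (sq_nonneg R), Real.sqrt_sq B.hR.le]

private theorem fa_s1 (P : PF cF2 sg be v R kc vs GrS GtS G2S Ma Mb M1) : √P.kv ≤ P.s1 := by
  rw [P.e_s1]
  exact n_s1 (fa_kvn P)

private theorem fa_hRH2 (B : GB e s sg K be v R kc vs P) :
    P.r2V * P.V + P.E + (√((e * K) ^ 2 + (P.ycR * R) ^ 2) + P.dz + P.E) ^ 2 / e ≤
      cF2.RH * P.V := by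
  have h := P.p_R2
  have c2 : cF2.RH = 3175 / 1024 := rfl
  rw [c2, P.e_s3] at h
  have h1 := fa_s1 P
  have e2 : √((e * K) ^ 2 + (P.ycR * R) ^ 2) + P.dz + P.E = R * (√P.kv + P.dzR + P.ER) := by
    rw [fa_skv B, B.hdzR, fa_ER B]; ring
  rw [e2, fa_RR B, c2]
  have h2 : 0 ≤ √P.kv + P.dzR + P.ER :=
    add_nonneg (add_nonneg (Real.sqrt_nonneg _) B.hdzR0) (fa_ER0 B)
  have h3 : √P.kv + P.dzR + P.ER ≤ P.s1 + P.dzR + P.ER := by linarith
  have h4 := mul_le_mul h3 h3 h2 (h2.trans h3)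
  have h5 : P.V * ((√P.kv + P.dzR + P.ER) * (√P.kv + P.dzR + P.ER)) ≤
      P.V * (3175 / 1024 - P.r2V - P.EQ) :=
    mul_le_mul_of_nonneg_left (by linarith) B.hVp.le
  have h6 : P.E = P.V * P.EQ := by rw [P.e_E]; ring
  rw [h6]
  linarith

private theorem fa_c2m (B : GB e s sg K be v R kc vs P) :
    P.V * (P.m2 * P.c2) ≤ P.V * P.m2 * (1 - 2 * P.Qw - 500 / e ^ 2) := by
  have h1 := mul_le_mul_of_nonneg_left (gb_c2 B).1 (mul_pos B.hVp (gb_m20 P)).le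
  linarith

private theorem fa_h9 (B : GB e s sg K be v R kc vs P) :
    cF2.RH * P.V ≤ 10 * (R ^ 2 * P.m2 / e *
      (1 - 2 * P.E / √(R ^ 2 * P.m2) - 500 / e ^ 2)) := by
  have h := P.p_h9
  have c2 : cF2.RH = 3175 / 1024 := rfl
  rw [c2] at h
  rw [gb_Sle B, gb_Eq B, c2]
  have h1 := fa_c2m B
  have h3 : P.V * (3175 / 1024) ≤ P.V * (10 * (P.m2 * P.c2)) :=
    mul_le_mul_of_nonneg_left (by linarith) B.hVp.le
  linarith

private theorem fa_h2 (B : GB e s sg K be v R kc vs P) :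
    (cF2.RH * P.V) ^ 2 ≤ 9 / 10 * (R ^ 2 * P.m2 *
      (1 - 2 * P.E / √(R ^ 2 * P.m2) - 500 / e ^ 2)) := by
  have h := P.p_h2
  have c2 : cF2.RH = 3175 / 1024 := rfl
  have c4 : cF2.RHq = 19689 / 2048 := rfl
  rw [c4, P.e_Vie] at h
  rw [gb_Eq B, c2, ← B.hVe]
  have h1 := mul_le_mul_of_nonneg_left (fa_c2m B) B.he0.le
  have h2 : 0 < P.m2 * P.c2 := mul_pos (gb_m20 P) (gb_c20 P)
  have hV := B.hVp
  have hi := B.hie0
  have h5 : 0 ≤ P.V * P.ie := by positivity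
  have h3 : P.V * (e * ((19689 / 2048) * (P.V * P.ie))) ≤ P.V * (e * ((9 / 10) * (P.m2 * P.c2))) :=
    mul_le_mul_of_nonneg_left (mul_le_mul_of_nonneg_left (by linarith) B.he0.le) hV.le
  have h4 : P.V * (e * ((19689 / 2048) * (P.V * P.ie))) = (19689 / 2048) * P.V ^ 2 := by
    linear_combination (19689 / 2048) * P.V ^ 2 * B.hieE
  have h6 : 0 ≤ P.V ^ 2 := sq_nonneg _
  nlinarith

private theorem fa_d0 (B : GB e s sg K be v R kc vs P) : 0 ≤ P.d := by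
  have h1 := fa_EQ0 B
  have h2 := gb_m20 P
  have h3 := fa_Qw1 P
  have c9 : cF2.exK = 8613 / 8192 := rfl
  have h4 : 0 < P.m2 * (1 - P.Qw) := mul_pos h2 (by linarith)
  rw [P.e_d, c9]
  positivity

theorem gb_xd (P : PF cF2 sg be v R kc vs GrS GtS G2S Ma Mb M1) :
    0 ≤ P.x1 - P.d := by
  have h := P.p_x0
  have c6 : cF2.x0 = 0 := rfl
  rw [c6] at h
  linarith

private theorem fa_Er (B : GB e s sg K be v R kc vs P) : P.E < P.r1V * P.V := by
  have h := P.p_Er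
  rw [P.e_E]
  exact mul_lt_mul_of_pos_right (by linarith) B.hVp

private theorem n_exK {K x : ℝ} (hK0 : 0 < K) (hK1 : K ≤ 1 / 40) (hx0 : 0 < x) (hx1 : x ≤ 1) :
    Real.exp (2 * K * x) ≤ (1 - K ^ 2 / 6) * (8613 / 8192) := by
  have h1 : 2 * K * x ≤ 1 / 20 := by
    have := mul_le_mul hK1 hx1 hx0.le (by norm_num)
    linarith
  have h2 := fa_pade (x := 1 / 20) (by norm_num) (by norm_num)
  have h3 : Real.exp (2 * K * x) ≤ Real.exp (1 / 20) := Real.exp_le_exp.2 h1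
  have h4 : K ^ 2 ≤ (1 / 40) ^ 2 := pow_le_pow_left₀ hK0.le hK1 2
  have h5 : ((1 : ℝ) / 2 * (1 / 20) + 1) * (1 - 1 / 2 * (1 / 20))⁻¹ = 41 / 39 := by norm_num
  rw [h5] at h2
  have h6 : (41 : ℝ) / 39 ≤ (1 - (1 / 40) ^ 2 / 6) * (8613 / 8192) := by norm_num
  have h7 : (1 - (1 / 40) ^ 2 / 6) * (8613 / 8192) ≤ (1 - K ^ 2 / 6) * (8613 / 8192) :=
    mul_le_mul_of_nonneg_right (by linarith) (by norm_num)
  exact ((h3.trans h2).trans h6).trans h7

private theorem fa_hd (B : GB e s sg K be v R kc vs P) :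
    e * P.E * Real.exp (2 * K * P.x1) ≤
      (1 - K ^ 2 / 6) * P.d * (√(R ^ 2 * P.m2) * (√(R ^ 2 * P.m2) - P.E)) := by
  have h2 := gb_m20 P
  have h3 := fa_Qw1 P
  have c9 : cF2.exK = 8613 / 8192 := rfl
  have h4 : 0 < P.m2 * (1 - P.Qw) := mul_pos h2 (by linarith)
  have h5 : P.d * (P.m2 * (1 - P.Qw)) = (8613 / 8192) * P.EQ := by
    rw [P.e_d, c9, mul_assoc, mul_assoc, inv_mul_cancel₀ h4.ne', mul_one]
  have h6 : (1 - K ^ 2 / 6) * P.d * (√(R ^ 2 * P.m2) * (√(R ^ 2 * P.m2) - P.E)) =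
      (P.EQ * R ^ 2) * ((1 - K ^ 2 / 6) * (8613 / 8192)) := by
    rw [fa_sqS B, fa_Qw B]
    rw [fa_m2] at h5
    linear_combination (1 - K ^ 2 / 6) * R ^ 2 * h5
  have h7 : e * P.E * Real.exp (2 * K * P.x1) = (P.EQ * R ^ 2) * Real.exp (2 * K * P.x1) := by
    rw [P.e_E, ← B.hVe]; ring
  rw [h6, h7]
  exact mul_le_mul_of_nonneg_left (n_exK B.hK0 B.hK1 (gb_x10 B) (gb_x11 P))
    (mul_nonneg (fa_EQ0 B) (sq_nonneg R))

private theorem fa_hLam (B : GB e s sg K be v R kc vs P) :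
    P.r2V * P.V + P.E ≤
      LamG 0 * (R ^ 2 * P.m2 / e * (1 - 2 * P.E / √(R ^ 2 * P.m2))) := by
  have h := P.p_La
  have c7 : cF2.Lam0 = 2253 / 1024 := rfl
  have c13 : LamG 0 = 2253 / 1024 := rfl
  rw [c7] at h
  rw [gb_Sle B, gb_Eq B, c13, P.e_E]
  have h1 := mul_le_mul_of_nonneg_left
    (by linarith : P.r2V + P.EQ ≤ (2253 / 1024) * (P.m2 * (1 - 2 * P.Qw))) B.hVp.le
  linarith

theorem gb_hy0 (P : PF cF2 sg be v R kc vs GrS GtS G2S Ma Mb M1) :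
    P.ycR * R + P.E ≤ ynG 0 := by
  have h := P.p_y0
  have c8 : cF2.Y0 = 3251 / 1024 := rfl
  have c14 : ynG 0 = 3251 / 1024 := rfl
  rw [c8, P.e_yE, P.e_yc] at h
  rw [c14]
  linarith

private theorem fa_heta (B : GB e s sg K be v R kc vs P) :
    Real.exp (P.E * (1 + M1)) ≤ P.eta := by
  have h := P.p_EM2
  have h1 := gb_E0 B
  have h2 := B.hM1
  have h3 : P.EM = P.E * (1 + M1) := by rw [P.e_EM]; ring
  have h4 : 0 ≤ P.EM := by rw [h3]; positivity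
  rw [← h3, P.e_eta, P.e_i2]
  exact fa_pade h4 (by linarith)

private theorem fa_DPx (B : GB e s sg K be v R kc vs P) :
    P.DPx = P.ycR ^ 2 + (kc + P.r2w) ^ 2 := by
  have _ := B
  rw [P.e_DPx, P.e_kv]; ring

private theorem fa_DP0 (B : GB e s sg K be v R kc vs P) : 0 ≤ R * P.DPR := by
  have h1 := fa_DPx B
  have h2 : 0 ≤ P.DPx := by rw [h1]; positivity
  have h3 := B.hR
  rw [P.e_DPR]
  exact mul_nonneg h3.le (by linarith)

private theorem fa_hDP (B : GB e s sg K be v R kc vs P) :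
    (e * K) ^ 2 + (P.ycR * R) ^ 2 + (P.r2V * P.V) ^ 2 + 2 * (e * K) * (P.r2V * P.V) ≤
      (R * P.DPR) ^ 2 := by
  have h1 : (e * K) ^ 2 + (P.ycR * R) ^ 2 + (P.r2V * P.V) ^ 2 + 2 * (e * K) * (P.r2V * P.V) =
      R ^ 2 * P.DPx := by
    rw [fa_r2R B, fa_beR B, fa_DPx B]; ring
  have h2 : P.DPx ≤ P.DPR ^ 2 := by
    rw [P.e_DPR]
    nlinarith [sq_nonneg (P.DPx - 1)]
  rw [h1, mul_pow]
  exact mul_le_mul_of_nonneg_left h2 (sq_nonneg R)

private theorem fa_hVc (B : GB e s sg K be v R kc vs P) :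
    ((e * K) ^ 2 + (P.ycR * R) ^ 2 + (P.r2V * P.V) ^ 2) / e ≤ R * P.VcR := by
  have h1 : R * P.VcR = P.V * (P.kv + P.r2w * P.r2w) := by
    rw [P.e_VcR, ← B.hRwse]; ring
  have h2 : ((e * K) ^ 2 + (P.ycR * R) ^ 2 + (P.r2V * P.V) ^ 2) / e =
      P.V * (P.kv + P.r2w * P.r2w) := by
    have e1 : (P.r2V * P.V) ^ 2 = (R * P.r2w) ^ 2 := by rw [fa_r2R B]
    rw [e1, fa_beR B, P.e_kv, B.hdiv, B.hV1]; ring
  rw [h1, h2]

private theorem n_tha {K g : ℝ} (hg : 0 < g) (hK : K ≤ 1 / 40) :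
    g * (34351 / 262144) ≤ (1 - K / 1024) * (g * (2147 / 16384)) := by
  have h : (34351 / 262144) ≤ (1 - K / 1024) * (2147 / 16384) := by linarith
  have h1 := mul_le_mul_of_nonneg_left h hg.le
  linarith

private theorem fa_hcl (B : GB e s sg K be v R kc vs P) :
    (P.eta - 1) + P.eta * (P.u1 * (aG 0 * (4 / (4 + e * K)))) * (R * P.DPR + R * P.VcR + P.E) <
      (1 - K / 1024) * P.X := by
  have h := P.p_cl
  have c10 : cF2.a0 = 367 / 4096 := rfl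
  have c11 : cF2.tha = 34351 / 262144 := rfl
  have c12 : cF2.aS = 2147 / 16384 := rfl
  have c15 : aG 0 = 367 / 4096 := rfl
  rw [c10, c11] at h
  have hR := B.hR
  have hb := B.hbe0
  have h4b : 4 + be ≠ 0 := by positivity
  set g := 4 * R / (4 + be) with hg
  have hg0 : 0 < g := by positivity
  have h1 : g * (P.DPR + P.VcR + P.ER) = 4 / (4 + be) * (R * P.DPR + R * P.VcR + P.E) := by
    rw [fa_ER B, hg]; ring
  have h2 : (1 - (1 / 2) * P.EM) * P.i2 = 1 := by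
    rw [P.e_i2]
    exact mul_inv_cancel₀ P.p_EM2.ne'
  have h3 : P.eta - 1 = P.EM * P.i2 := by
    rw [P.e_eta]
    linear_combination h2
  have h5 : g * P.EMr = P.EM := by
    rw [P.e_EMr, P.e_EM, fa_ER B, hg]
    have h7 : 4 * R / (4 + be) * ((P.ER * M1 + P.ER) * ((1 / 4) * be + 1)) =
        (R * P.ER * M1 + R * P.ER) * ((4 + be) / (4 + be)) := by ring
    rw [h7, div_self h4b, mul_one]
  have h8 : P.X = g * (2147 / 16384) := by
    rw [P.e_X, P.e_XS, P.e_i4, c12, hg, add_comm be 4, div_eq_mul_inv (4 * R)]; ring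
  have h9 := mul_lt_mul_of_pos_left h hg0
  rw [mul_zero] at h9
  rw [h3, h8, c15, ← B.hbe]
  refine lt_of_lt_of_le ?_ (n_tha hg0 B.hK1)
  have h10 : P.eta * (P.u1 * (367 / 4096 * (4 / (4 + be)))) * (R * P.DPR + R * P.VcR + P.E) =
      367 / 4096 * (P.eta * P.u1) * (g * (P.DPR + P.VcR + P.ER)) := by
    rw [h1]; ring
  have h11 : g * (-(P.EMr * P.i2 + 367 / 4096 * (P.eta * P.u1) * (P.DPR + P.VcR + P.ER)) +
      34351 / 262144) = g * (34351 / 262144) - (P.EM * P.i2 +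
        367 / 4096 * (P.eta * P.u1) * (g * (P.DPR + P.VcR + P.ER))) := by
    linear_combination -P.i2 * h5
  rw [h11] at h9
  rw [h10]
  linarith

/-- `RH ≤ 11 · S_l/e · 1011/1024` -/
theorem gb_r1 (B : GB e s sg K be v R kc vs P) :
    cF2.RH * P.V ≤ 11 * (R ^ 2 * P.m2 / e * (1011 / 1024)) := by
  have h := P.p_h9
  have c2 : cF2.RH = 3175 / 1024 := rfl
  rw [c2] at h
  rw [gb_Sle B, c2]
  have h1 : P.m2 * P.c2 ≤ P.m2 * (1011 / 1024) :=
    mul_le_mul_of_nonneg_left (gb_c2 B).2 (gb_m20 P).le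
  have h2 := gb_m20 P
  have h3 : P.V * (3175 / 1024) ≤ P.V * (11 * (P.m2 * (1011 / 1024))) :=
    mul_le_mul_of_nonneg_left (by linarith) B.hVp.le
  linarith

/-- `RH + (√(β²+yc²)+E)²/e ≤ 11 · S_l/e · c2 · 1011/1024` -/
theorem gb_r2 (B : GB e s sg K be v R kc vs P) :
    cF2.RH * P.V + (√((e * K) ^ 2 + (P.ycR * R) ^ 2) + P.E) ^ 2 / e ≤
      11 * (R ^ 2 * P.m2 / e * (1011 / 1024 - 2 * P.E / √(R ^ 2 * P.m2)) * (1011 / 1024)) := by
  have h := P.p_rr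
  have c2 : cF2.RH = 3175 / 1024 := rfl
  rw [c2, P.e_s3] at h
  have h1 := fa_s1 P
  have e2 : √((e * K) ^ 2 + (P.ycR * R) ^ 2) + P.E = R * (√P.kv + P.ER) := by
    rw [fa_skv B, fa_ER B]; ring
  have e3 : 1011 / 1024 - 2 * P.Qw = P.c2 := by rw [P.e_c2]; ring
  rw [e2, fa_RR B, gb_Sle B, gb_Eq B, e3, c2]
  have hd := B.hdzR0
  have h2 : 0 ≤ √P.kv + P.ER := add_nonneg (Real.sqrt_nonneg _) (fa_ER0 B)
  have h3 : √P.kv + P.ER ≤ P.s1 + P.dzR + P.ER := by linarith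
  have h4 := mul_le_mul h3 h3 h2 (h2.trans h3)
  have h5 : P.V * (3175 / 1024 + (√P.kv + P.ER) * (√P.kv + P.ER)) ≤
      P.V * ((11121 / 1024) * (P.m2 * P.c2)) :=
    mul_le_mul_of_nonneg_left (by linarith) B.hVp.le
  linarith

/-- the lower bound `S_l/e (1011/1024 - 2E/√S_l)` is positive and `≤ S_l/e (1 - 2E/√S_l - 500/e²)` -/
theorem gb_lo (B : GB e s sg K be v R kc vs P) :
    R ^ 2 * P.m2 / e * (1011 / 1024 - 2 * P.E / √(R ^ 2 * P.m2)) = P.V * P.m2 * P.c2 := by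
  have e3 : 1011 / 1024 - 2 * P.Qw = P.c2 := by rw [P.e_c2]; ring
  rw [gb_Sle B, gb_Eq B, e3]

theorem gb_lo2 (B : GB e s sg K be v R kc vs P) :
    P.V * P.m2 * P.c2 ≤ R ^ 2 * P.m2 / e * (1 - 2 * P.E / √(R ^ 2 * P.m2) - 500 / e ^ 2) := by
  have h := fa_c2m B
  rw [gb_Sle B, gb_Eq B]
  linarith

/-- **FG and FG2** -/
theorem gb_main (B : GB e s sg K be v R kc vs P) :
    FG e K v P.V P.a (GrS * s - P.lau) (GrS * s - P.lau) P.lau
      (Real.log 2) (8 / 5 * P.V) (GrS * s) (GrS * s) (G2S * s) (GtS * s / e) (GtS * s)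
      (P.V * (8 / 5 * P.V + 5 / 2 * v) / e) P.dz (P.r1V * P.V) (P.r2V * P.V) (P.ycR * R) P.x1
      ((R * P.sR0) ^ 2)
      (R ^ 2 * P.m2) Ma Mb P.X P.u (P.X * P.LX) (P.uX * P.LU) P.DG P.DF P.E (cF2.RH * P.V) ∧
    FG2 e K P.V (P.r1V * P.V) (P.r2V * P.V) (P.ycR * R) P.x1
      (R ^ 2 * P.m2) P.X P.E P.d (LamG 0) (ynG 0) M1 P.u1 P.eta (aG 0)
      (R * P.DPR) (R * P.VcR) := by
  have c2 : cF2.RH = 3175 / 1024 := rfl
  have c14 : LamG 0 = 2253 / 1024 := rfl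
  have c15 : aG 0 = 367 / 4096 := rfl
  have hx := gb_xd P
  have hd := fa_d0 B
  have hx1 := gb_x11 P
  have hdx : P.d ≤ P.x1 := by linarith
  have HG := B.HG
  refine ⟨?_, ?_⟩
  · exact {
      K0 := B.hK0
      v0 := B.hv0
      vπ := B.hvpi
      hV := fa_hV B
      V1 := fa_V1 B
      a0 := B.ha0
      a1 := B.ha1
      hlau := (fa_hlau B).le
      hlal := Or.inl le_rfl
      hgl := by linarith
      hF := by linarith
      F0 := fa_Gr0 B
      hGr := by linarith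
      hGr2 := HG.gr
      G20 := mul_nonneg HG.g20 B.hs0.le
      hG2 := HG.g2
      gt0 := by
        have h1 := HG.gt0
        have h2 := B.hs0
        have h3 := B.he0
        positivity
      hgt := by
        rw [fa_gte B]
        exact HG.gt
      ft0 := mul_nonneg HG.gt0 B.hs0.le
      hft := HG.gt
      herr := rfl
      hdz := fa_hdz B
      r10 := mul_pos (fa_r1V B) B.hVp
      hr1 := fa_hr1 B
      hr2 := fa_hr2 B
      hyc := fa_hyc B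
      x10 := (gb_x10 B).le
      x11 := hx1
      hx1 := fa_hx1 B
      r2e := fa_r2e B
      hS0l := fa_hS0 B
      dzS := fa_dzS B
      hSl := fa_hSl B
      Sl0 := mul_pos (pow_pos B.hR 2) (gb_m20 P)
      Ma0 := B.hMa
      Mb0 := B.hMb
      X0 := fa_X0 B
      X1 := fa_X1 P
      u0 := (fa_u0 P).le
      u1 := fa_u1 B
      hlx := fa_LX B
      hlu := fa_LU B
      hΔG := by rw [P.e_DG]; linarith
      hΔF := by rw [P.e_DF]
      haG := fa_haG B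
      haF := gb_haF B
      hE := fa_hE B
      Es := fa_Es B
      hRH1 := fa_hRH1 B
      hRH2 := fa_hRH2 B
      h9 := fa_h9 B
      h2 := fa_h2 B }
  · exact {
      d0 := hd
      d1 := hdx
      a00 := by rw [c15]; norm_num
      Er := fa_Er B
      hd := fa_hd B
      hΛ := fa_hLam B
      Λ00 := by rw [c14]; norm_num
      hy0 := gb_hy0 P
      M10 := B.hM1
      hη := fa_heta B
      DP0 := fa_DP0 B
      hDP := fa_hDP B
      hVc := fa_hVc B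
      hcl := fa_hcl B }

end

end Pool.Agent.helper31.A2
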