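import Pool.Agent.helper31.A2.NFg
import Pool.Agent.helper31.A2.PFc

/-!
# A2-N4, part G: the first node for `v ≥ 33/32`: `Gr` with the bound of `log |f|`
-/

namespace Pool.Agent.helper31.A2

open Complex ComplexConjugate Set Filter Topology
open Pool.Agent.helper31.EQ.Y Pool.Agent.helper31.EQ.R
open Pool.Agent.helper12.EQL Pool.Agent.helper12.RP Pool.Agent.helper12.FF Pool.Agent.helper12.RS
open Pool.Agent.helper63.FF
open Pool.Agent.helper31.EQB

variable {e κ : ℝ}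

private theorem gg_sq {x : ℝ} (hx : 0 < x) : Real.exp ((1 / 2) * Real.log x) ^ 2 = x := by
  rw [← Real.exp_nat_mul]
  have : ((2 : ℕ) : ℝ) * (1 / 2 * Real.log x) = Real.log x := by push_cast; ring
  rw [this, Real.exp_log hx]

private theorem gg_log {x : ℝ} (hx : 0 ≤ x) : Real.log (1 + x) ≤ 1644419 / 1048576 + x / 12 := by
  have h1 : Real.log ((1 + x) / 12) ≤ (1 + x) / 12 - 1 := Real.log_le_sub_one_of_pos (by positivity)
  rw [Real.log_div (by positivity) (by norm_num)] at h1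
  have h2 : Real.log 12 = 2 * Real.log 2 + Real.log 3 := by
    rw [show (12 : ℝ) = 2 ^ 2 * 3 by norm_num, Real.log_mul (by norm_num) (by norm_num),
      Real.log_pow]
    norm_num
  have h3 := Real.log_two_lt_d9
  have h4 := Real.log_three_lt_d9
  rw [h2] at h1
  norm_num at h3 h4
  linarith

/-- `S` at `s0` and `shf s0` -/
private theorem gg_S (he : 200 ≤ e) (hκ : 0 < κ) (hb : bet e κ ≤ 5) {v : ℝ} (hv0 : 0 ≤ v)
    (hv1 : v ≤ Real.pi) :
    984 / 1000 * (bet e κ ^ 2 + v ^ 2) ≤ Sz e κ (shf κ (t00 e κ v)) ∧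
    984 / 1000 * (bet e κ ^ 2 + v ^ 2) ≤ Sz e κ (shf κ (shf κ (t00 e κ v))) := by
  have he0 : 0 < e := by linarith
  have hK0 : 0 < Real.sinh κ := Real.sinh_pos_iff.2 hκ
  have hβ : 0 < bet e κ := mul_pos he0 hK0
  have hK1 : Real.sinh κ ≤ 1 / 10 := by
    have : e * Real.sinh κ ≤ 5 := hb
    nlinarith
  have hπ := Real.pi_lt_d2
  have hv3 : v ≤ 3.15 := hv1.trans hπ.le
  obtain ⟨s1, s2, s3, s4, s5⟩ := s0_pos he0 hκ hv0
  obtain ⟨A, hA⟩ : ∃ A, A = bet e κ ^ 2 + v ^ 2 := ⟨_, rfl⟩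
  have hA0 : 0 < A := by rw [hA]; positivity
  have hA1 : A ≤ 35 := by rw [hA]; nlinarith
  have hVA : Vv e κ v = A / e := by rw [hA]; rfl
  obtain ⟨q, hq⟩ : ∃ q, q = 1 + Vv e κ v / e := ⟨_, rfl⟩
  have hq1 : 1 ≤ q := by
    rw [hq, hVA]
    have : 0 ≤ A / e / e := by positivity
    linarith
  have hq2 : q ≤ 1 + 1 / 1000 := by
    rw [hq, hVA, div_div]
    have : A / (e * e) ≤ 35 / (200 * 200) := by
      apply div_le_div₀ (by norm_num) hA1 (by norm_num)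
      exact mul_le_mul he he (by norm_num) he0.le
    norm_num at this ⊢
    linarith
  rw [← hq] at s3 s4
  have hq0 : 0 < q := by linarith
  have hSs : 998 / 1000 * A ≤ Sz e κ (shf κ (t00 e κ v)) := by
    unfold Sz
    rw [s4, div_pow]
    have h1 : 998 / 1000 * v ^ 2 ≤ v ^ 2 / q ^ 2 := by
      rw [le_div_iff₀ (by positivity)]
      have h2 : q ^ 2 ≤ (1 + 1 / 1000) ^ 2 := pow_le_pow_left₀ hq0.le hq2 2
      have h3 : 0 ≤ v ^ 2 := by positivity
      have h4 : 998 / 1000 * q ^ 2 ≤ 1 := by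
        have : (998 / 1000 : ℝ) * (1 + 1 / 1000) ^ 2 ≤ 1 := by norm_num
        linarith
      nlinarith
    have h4 : 0 ≤ bet e κ ^ 2 := by positivity
    rw [hA]
    linarith
  have hcosh := fc_cosh hκ hK1
  have hcosh0 := Real.cosh_pos κ
  have hr : rz e κ (shf κ (t00 e κ v)) ≤ 201 / 200 * (A / e) := by
    rw [s3, hVA]
    calc Real.cosh κ * (A / e) / q ≤ Real.cosh κ * (A / e) :=
          div_le_self (by positivity) hq1
      _ ≤ _ := mul_le_mul_of_nonneg_right hcosh (by positivity)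
  have hr0 : 0 ≤ rz e κ (shf κ (t00 e κ v)) := by
    rw [s3, hVA]; positivity
  have hy : |yz e κ (shf κ (t00 e κ v))| ≤ 7 / 2 := by
    rw [s4, abs_of_nonneg (by positivity)]
    exact (div_le_self hv0 hq1).trans (by linarith)
  have h9 : rz e κ (shf κ (t00 e κ v)) ≤ 46 / 5 * Sz e κ (shf κ (t00 e κ v)) / e := by
    refine hr.trans ?_
    rw [← mul_div_assoc]
    apply div_le_div_of_nonneg_right _ he0.le
    linarith
  have h2 : rz e κ (shf κ (t00 e κ v)) ^ 2 ≤ 9 / 10 * Sz e κ (shf κ (t00 e κ v)) := by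
    have h3 : rz e κ (shf κ (t00 e κ v)) ^ 2 ≤ (201 / 200 * (A / e)) ^ 2 :=
      pow_le_pow_left₀ hr0 hr 2
    have h4 : A / e ≤ A / 200 := div_le_div_of_nonneg_left hA0.le (by norm_num) he
    have h5 : 0 ≤ A / e := by positivity
    nlinarith
  have hge := (Sz_shf_ge (by linarith) hκ hK1 s1 hy h9 h2).1
  refine ⟨by rw [← hA]; linarith, ?_⟩
  refine le_trans ?_ hge
  have h5 : 500 / e ^ 2 ≤ 1 / 80 := by
    rw [div_le_div_iff₀ (by positivity) (by norm_num)]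
    nlinarith
  rw [← hA]
  nlinarith

private theorem gg_lf1 (he : 200 ≤ e) (hκ : 0 < κ) (hb : bet e κ ≤ 5) {v R : ℝ} (hR : 0 < R)
    (hR2 : R ^ 2 = bet e κ ^ 2 + v ^ 2) {t : ℂ} (ht : 0 < t.re)
    (hS : 984 / 1000 * (bet e κ ^ 2 + v ^ 2) ≤ Sz e κ t) :
    Real.log ‖fT e κ t‖ ≤ 1644419 / 1048576 + 140999 / 1048576 * (√e / R) := by
  have he0 : 0 < e := by linarith
  have hK0 : 0 < Real.sinh κ := Real.sinh_pos_iff.2 hκ
  have hK1 : Real.sinh κ ≤ 1 / 10 := by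
    have : e * Real.sinh κ ≤ 5 := hb
    nlinarith
  have hs : 0 < √e := Real.sqrt_pos.2 he0
  have h1 := f_sup (show (8 : ℝ) ≤ e by linarith) hκ hK1 ht
  have h2 : √(e / Sz e κ t) ≤ 10083 / 10000 * (√e / R) := by
    rw [Real.sqrt_le_left (by positivity)]
    have h3 : (10083 / 10000 * (√e / R)) ^ 2 = (10083 / 10000) ^ 2 * (e / R ^ 2) := by
      rw [mul_pow, div_pow √e R, Real.sq_sqrt he0.le]
    rw [h3]
    have h4 : e / Sz e κ t ≤ e / (984 / 1000 * R ^ 2) := by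
      apply div_le_div_of_nonneg_left he0.le (by positivity)
      rw [hR2]; exact hS
    refine h4.trans ?_
    have h5 : e / (984 / 1000 * R ^ 2) = 1000 / 984 * (e / R ^ 2) := by
      field_simp
    rw [h5]
    have h6 : 0 ≤ e / R ^ 2 := by positivity
    exact mul_le_mul_of_nonneg_right (by norm_num) h6
  have h3 : ‖fT e κ t‖ ≤ 1 + 8 / 5 * (10083 / 10000 * (√e / R)) := by linarith
  have h4 : 0 < ‖fT e κ t‖ := norm_pos_iff.2 (fT_ne he0 hκ ht)
  have h5 := Real.log_le_log h4 h3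
  have h6 := gg_log (x := 8 / 5 * (10083 / 10000 * (√e / R))) (by positivity)
  have h7 : 0 ≤ √e / R := by positivity
  nlinarith

/-- `Gr` with the bound `log |f| ≤ log (1 + 8/(5 w'))` (`f_sup`), tangent at `X = 11`; `w' ≥ w/1.0085` at `s0` and at `shf s0`
(`Sz_shf_ge2`, `sR0`); `1/4 ≤ β² + v²` -/
theorem GF_g (he : 200 ≤ e) (he5 : e ≤ 500) (hκ : 0 < κ) (hb : bet e κ ≤ 5) {v : ℝ}
    (hv0 : 33 / 32 ≤ v) (hv1 : v ≤ Real.pi) {R kc vs iR GrS GtS G2S Ma Mb M1 : ℝ}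
    (V : PFv (bet e κ) v R kc vs iR)
    (P : PF cF2 (√e)⁻¹ (bet e κ) v R kc vs GrS GtS G2S Ma Mb M1) (Q : PFg iR P) :
    GF e κ v (√e)⁻¹ P.lau GrS GtS G2S := by
  have _ := he5
  have he0 : 0 < e := by linarith
  have hv00 : 0 ≤ v := by linarith
  have hK0 : 0 < Real.sinh κ := Real.sinh_pos_iff.2 hκ
  have hβ : 0 < bet e κ := mul_pos he0 hK0
  have hs : 0 < √e := Real.sqrt_pos.2 he0
  obtain ⟨g, hiR, hR⟩ := geoF_v he0 hκ V
  have hR2 : R ^ 2 = bet e κ ^ 2 + v ^ 2 := by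
    rw [g.hR, Real.sq_sqrt (by positivity)]
  have hlau : 0 < P.lau := by
    rw [P.e_lau]
    have : 0 < Real.log (Real.exp (-bet e κ) + 1) :=
      Real.log_pos (by linarith [Real.exp_pos (-bet e κ)])
    linarith
  have hG := Q.e_GrS
  have hG1 := Q.e_GtS
  have hG2 := Q.e_G2S
  have hsv := Q.e_sv
  rw [show cF2.lc0 = 1644419 / 1048576 from rfl, show cF2.lc1 = 140999 / 1048576 from rfl,
    hiR] at hG
  rw [hsv] at hG1 hG2
  clear hsv
  generalize P.lau = lau at *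
  clear Q P V g
  have hG0 : 0 < GrS := by rw [hG]; positivity
  have hsv0 : 0 ≤ (√e)⁻¹ * v * ((√e)⁻¹ * v) := mul_self_nonneg _
  obtain ⟨s1, s2, s3, s4, s5⟩ := s0_pos he0 hκ hv00
  obtain ⟨S1, S2⟩ := gg_S he hκ hb hv00 hv1
  have hGe : GrS / (√e)⁻¹ = lau + (1644419 / 1048576 + 140999 / 1048576 * (√e / R)) := by
    rw [hG]
    field_simp
    ring
  refine ⟨?_, ?_, ?_, ?_, ?_, ?_, ?_⟩
  · have := gg_lf1 he hκ hb hR hR2 s1 S1
    rw [hGe]; linarith
  · have := gg_lf1 he hκ hb hR hR2 (shf_re hκ s1.le) S2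
    rw [hGe]; linarith
  · rw [hGe]
    have h1 : bet e κ ^ 2 ≤ 5 ^ 2 := pow_le_pow_left₀ hβ.le hb 2
    have hπ := Real.pi_lt_d2
    have h2 : v ^ 2 ≤ 3.15 ^ 2 := pow_le_pow_left₀ hv00 (hv1.trans hπ.le) 2
    have h3 : (bet e κ ^ 2 + v ^ 2) / e ≤ 35 / 200 := by
      rw [div_le_div_iff₀ he0 (by norm_num)]
      nlinarith
    have h4 : 0 ≤ √e / R := by positivity
    linarith
  · rw [hG1]; positivity
  · rw [div_pow, div_pow, hG1, gg_sq (by positivity)]
    apply le_of_eq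
    field_simp
  · rw [hG2]; positivity
  · rw [div_pow, div_pow, hG2, gg_sq (by positivity)]
    apply le_of_eq
    field_simp

end Pool.Agent.helper31.A2
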