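import Pool.Agent.helper31.EQB.LinkStep

/-!
# A2-5: the bound of `qq` from a bound `M` on the segment `[t, shf t]`
-/

namespace Pool.Agent.helper31.A2

open Complex ComplexConjugate Set Filter Topology
open Pool.Agent.helper31.EQ.Y Pool.Agent.helper31.EQ.R
open Pool.Agent.helper12.EQL Pool.Agent.helper12.RP Pool.Agent.helper12.FF
open Pool.Agent.helper63.FF
open Pool.Agent.helper31.EQB

variable {e κ : ℝ}

/-- `pick_ge` of `EQB/Msup.lean` without `MC` -/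
private theorem pick_ge (he : 0 < e) (hκ : 0 < κ) {t : ℂ} (ht : 0 < t.re) :
    rz e κ t * (‖Pl e κ t‖ ^ 2 + bet e κ ^ 2 * (1 - Real.sinh κ ^ 2 / 6)) ≤
      (Pl e κ t).re * (Sz e κ t + rz e κ t ^ 2) := by
  have h1 := Pl_pick_one he hκ ht
  obtain ⟨a, ha⟩ : ∃ a, a = e * κ := ⟨_, rfl⟩
  have ha0 : 0 < a := by rw [ha]; positivity
  rw [← ha] at h1
  have h2 : (‖Pl e κ t - (a : ℂ)‖ * ‖t + 1‖) ^ 2 ≤ (‖t - 1‖ * ‖Pl e κ t + (a : ℂ)‖) ^ 2 :=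
    pow_le_pow_left₀ (by positivity) h1 2
  rw [mul_pow, mul_pow] at h2
  have e1 : ‖Pl e κ t - (a : ℂ)‖ ^ 2 = ‖Pl e κ t‖ ^ 2 - 2 * a * (Pl e κ t).re + a ^ 2 := by
    rw [Complex.sq_norm, Complex.sq_norm, Complex.normSq_apply, Complex.normSq_apply]
    simp only [Complex.sub_re, Complex.sub_im, Complex.ofReal_re, Complex.ofReal_im]
    ring
  have e2 : ‖Pl e κ t + (a : ℂ)‖ ^ 2 = ‖Pl e κ t‖ ^ 2 + 2 * a * (Pl e κ t).re + a ^ 2 := by
    rw [Complex.sq_norm, Complex.sq_norm, Complex.normSq_apply, Complex.normSq_apply]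
    simp only [Complex.add_re, Complex.add_im, Complex.ofReal_re, Complex.ofReal_im]
    ring
  have e3 : ‖t + 1‖ ^ 2 = t.re ^ 2 + t.im ^ 2 + 1 + 2 * t.re := by
    rw [Complex.sq_norm, Complex.normSq_apply]
    simp only [Complex.add_re, Complex.add_im, Complex.one_re, Complex.one_im]
    ring
  have e4 : ‖t - 1‖ ^ 2 = t.re ^ 2 + t.im ^ 2 + 1 - 2 * t.re := by
    rw [Complex.sq_norm, Complex.normSq_apply]
    simp only [Complex.sub_re, Complex.sub_im, Complex.one_re, Complex.one_im]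
    ring
  rw [e1, e2, e3, e4] at h2
  have h3 : t.re * (‖Pl e κ t‖ ^ 2 + a ^ 2) ≤ a * (Pl e κ t).re * (t.re ^ 2 + t.im ^ 2 + 1) := by
    nlinarith
  have hb := bet_pos he hκ
  have h4 : rz e κ t * (bet e κ * (‖Pl e κ t‖ ^ 2 + a ^ 2)) ≤
      a * ((Pl e κ t).re * (Sz e κ t + rz e κ t ^ 2)) := by
    have h5 := mul_le_mul_of_nonneg_left h3 (by positivity : 0 ≤ bet e κ ^ 2)
    have e5 : bet e κ ^ 2 * (t.re * (‖Pl e κ t‖ ^ 2 + a ^ 2)) =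
        rz e κ t * (bet e κ * (‖Pl e κ t‖ ^ 2 + a ^ 2)) := by unfold rz; ring
    have e6 : bet e κ ^ 2 * (a * (Pl e κ t).re * (t.re ^ 2 + t.im ^ 2 + 1)) =
        a * ((Pl e κ t).re * (Sz e κ t + rz e κ t ^ 2)) := by unfold Sz rz yz; ring
    rw [e5, e6] at h5
    exact h5
  have hsk : Real.sinh κ - Real.sinh κ ^ 3 / 6 ≤ κ := sinh_cube hκ.le
  have hks : κ ≤ Real.sinh κ := Real.self_le_sinh_iff.2 hκ.le
  have hr0 := rz_pos he hκ ht
  have h6 : a * (‖Pl e κ t‖ ^ 2 + bet e κ ^ 2 * (1 - Real.sinh κ ^ 2 / 6)) ≤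
      bet e κ * (‖Pl e κ t‖ ^ 2 + a ^ 2) := by
    have h7 : a * ‖Pl e κ t‖ ^ 2 ≤ bet e κ * ‖Pl e κ t‖ ^ 2 := by
      apply mul_le_mul_of_nonneg_right _ (by positivity)
      rw [ha]; unfold bet; gcongr
    have h8 : bet e κ * (1 - Real.sinh κ ^ 2 / 6) ≤ a := by
      rw [ha]; unfold bet
      have : e * (Real.sinh κ - Real.sinh κ ^ 3 / 6) ≤ e * κ := mul_le_mul_of_nonneg_left hsk he.le
      linarith
    have h9 : a * bet e κ * (bet e κ * (1 - Real.sinh κ ^ 2 / 6)) ≤ a * bet e κ * a :=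
      mul_le_mul_of_nonneg_left h8 (by positivity)
    nlinarith
  have h10 := mul_le_mul_of_nonneg_left h6 hr0.le
  have h11 : a * (rz e κ t * (‖Pl e κ t‖ ^ 2 + bet e κ ^ 2 * (1 - Real.sinh κ ^ 2 / 6))) ≤
      a * ((Pl e κ t).re * (Sz e κ t + rz e κ t ^ 2)) := by linarith
  exact le_of_mul_le_mul_left h11 ha0

private theorem Q_le (he : 0 < e) (hκ : 0 < κ) {t : ℂ} (ht : 0 < t.re)
    (hy : |yz e κ t| ≤ 7 / 2) :
    ‖Qk κ t‖ ≤ 1 + Real.sinh κ ^ 2 / 2 + rz e κ t / e + 16 / e ^ 2 := by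
  have hc := cosh_le' κ
  have hc1 := Real.one_le_cosh κ
  have hr0 := rz_pos he hκ ht
  have h1 : ‖Qk κ t‖ ^ 2 = (Real.cosh κ + rz e κ t / e) ^ 2 + (yz e κ t / e) ^ 2 := by
    rw [Complex.sq_norm, Complex.normSq_apply, Q_re he, Q_im he]; ring
  have h2 : (yz e κ t / e) ^ 2 ≤ 32 / e ^ 2 := by
    rw [div_pow]
    have : yz e κ t ^ 2 ≤ 32 := by
      nlinarith [sq_abs (yz e κ t), abs_nonneg (yz e κ t)]
    gcongr
  apply le_of_sq_le_sq _ (by positivity)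
  rw [h1]
  obtain ⟨g, hg⟩ : ∃ g, g = Real.cosh κ + rz e κ t / e := ⟨_, rfl⟩
  have hg1 : 1 ≤ g := by rw [hg]; have : 0 < rz e κ t / e := by positivity
                         linarith
  obtain ⟨G, hG⟩ : ∃ G, G = 1 + Real.sinh κ ^ 2 / 2 + rz e κ t / e := ⟨_, rfl⟩
  have hgG : g ≤ G := by rw [hg, hG]; linarith
  rw [← hg, ← hG]
  have h4 : 0 < 16 / e ^ 2 := by positivity
  have h5 : 32 / e ^ 2 = 2 * (16 / e ^ 2) := by ring
  rw [h5] at h2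
  nlinarith

private theorem arg_ge (he : 0 < e) (hκ : 0 < κ) {t : ℂ} (ht : 0 < t.re)
    (hy : |yz e κ t| ≤ 7 / 2) :
    |yz e κ t| * (1 - (Real.sinh κ ^ 2 / 2 + rz e κ t / e + 16 / e ^ 2)) ≤
      |((e : ℂ) * log (Qk κ t)).im| := by
  have hQ0 : 0 < ‖Qk κ t‖ := norm_pos_iff.2 (Qk_ne hκ ht)
  have h1 : |((e : ℂ) * log (Qk κ t)).im| = e * |(Qk κ t).arg| := by
    rw [Complex.im_ofReal_mul, Complex.log_im, abs_mul, abs_of_pos he]
  have h2 := Real.abs_sin_le_abs (x := (Qk κ t).arg)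
  rw [Complex.sin_arg, Q_im he, abs_div, abs_div, abs_of_pos he, abs_of_pos hQ0] at h2
  have h3 := Q_le he hκ ht hy
  have h4 : |yz e κ t| / ‖Qk κ t‖ ≤ e * |(Qk κ t).arg| := by
    calc |yz e κ t| / ‖Qk κ t‖ = e * (|yz e κ t| / e / ‖Qk κ t‖) := by field_simp
      _ ≤ _ := mul_le_mul_of_nonneg_left h2 he.le
  rw [h1]
  refine le_trans ?_ h4
  rw [le_div_iff₀ hQ0]
  have h5 : (1 - (Real.sinh κ ^ 2 / 2 + rz e κ t / e + 16 / e ^ 2)) * ‖Qk κ t‖ ≤ 1 := by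
    obtain ⟨d, hd⟩ : ∃ d, d = Real.sinh κ ^ 2 / 2 + rz e κ t / e + 16 / e ^ 2 := ⟨_, rfl⟩
    have hd0 : 0 ≤ d := by
      rw [hd]
      have := rz_pos he hκ ht
      positivity
    have h6 : ‖Qk κ t‖ ≤ 1 + d := by rw [hd]; linarith
    rw [← hd]
    rcases le_or_gt d 1 with h7 | h7
    · nlinarith
    · nlinarith
  have h6 := mul_le_mul_of_nonneg_left h5 (abs_nonneg (yz e κ t))
  linarith

private theorem L_re_ge (he : 0 < e) (hκ : 0 < κ) {t : ℂ} (ht : 0 < t.re) :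
    rz e κ t - rz e κ t ^ 2 / (2 * e) ≤ ((e : ℂ) * log (Qk κ t)).re := by
  have hr0 := rz_pos he hκ ht
  have hQ0 : 0 < ‖Qk κ t‖ := norm_pos_iff.2 (Qk_ne hκ ht)
  rw [Complex.re_ofReal_mul, Complex.log_re]
  obtain ⟨x, hx⟩ : ∃ x, x = rz e κ t / e := ⟨_, rfl⟩
  have hx0 : 0 < x := by rw [hx]; positivity
  have h1 : 1 + x ≤ ‖Qk κ t‖ := by
    refine le_trans ?_ (Complex.re_le_norm _)
    rw [Q_re he, hx]
    linarith [Real.one_le_cosh κ]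
  have h2 := Real.log_le_log (by linarith) h1
  have h3 := Real.le_log_one_add_of_nonneg hx0.le
  have h4 : x - x ^ 2 / 2 ≤ 2 * x / (x + 2) := by
    rw [le_div_iff₀ (by linarith)]
    nlinarith [pow_pos hx0 3]
  have h5 : rz e κ t - rz e κ t ^ 2 / (2 * e) = e * (x - x ^ 2 / 2) := by
    rw [hx]; field_simp
  rw [h5]
  exact mul_le_mul_of_nonneg_left (by linarith) he.le

private theorem L_norm_le (he : 0 < e) (hκ : 0 < κ) {t : ℂ} (ht : 0 < t.re) :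
    ‖(e : ℂ) * log (Qk κ t)‖ ≤ rz e κ t + |yz e κ t| + e * Real.sinh κ ^ 2 / 2 := by
  have hr0 := rz_pos he hκ ht
  have hc1 := Real.one_le_cosh κ
  have hcx : Convex ℝ {z : ℂ | 1 ≤ z.re} := convex_halfSpace_re_ge 1
  have hQ1 : Qk κ t ∈ {z : ℂ | 1 ≤ z.re} := by
    show 1 ≤ (Qk κ t).re
    rw [Q_re he]
    have : 0 < rz e κ t / e := by positivity
    linarith
  have h11 : (1 : ℂ) ∈ {z : ℂ | 1 ≤ z.re} := by show 1 ≤ (1:ℂ).re; simp
  have hslit : ∀ z ∈ {z : ℂ | 1 ≤ z.re}, z ∈ slitPlane := fun z hz => by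
    rw [mem_slitPlane_iff]; left
    have : (1:ℝ) ≤ z.re := hz
    linarith
  have h1 := Convex.norm_image_sub_le_of_norm_deriv_le (f := log) (C := 1)
    (fun z hz => (differentiableAt_log (hslit z hz)))
    (fun z hz => by
      rw [(hasDerivAt_log (hslit z hz)).deriv, norm_inv]
      apply inv_le_one_of_one_le₀
      exact le_trans (show (1:ℝ) ≤ z.re from hz) (Complex.re_le_norm z)) hcx h11 hQ1
  rw [Complex.log_one, sub_zero, one_mul] at h1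
  rw [norm_mul, Complex.norm_real, Real.norm_of_nonneg he.le]
  have h2 : ‖Qk κ t - 1‖ ≤ Real.sinh κ ^ 2 / 2 + rz e κ t / e + |yz e κ t| / e := by
    refine (Complex.norm_le_abs_re_add_abs_im _).trans ?_
    rw [Complex.sub_re, Complex.sub_im, Complex.one_re, Complex.one_im, sub_zero, Q_re he, Q_im he,
      abs_div, abs_of_pos he]
    have h3 : 0 < rz e κ t / e := by positivity
    rw [abs_of_nonneg (by linarith)]
    have := cosh_le' κ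
    linarith
  calc e * ‖log (Qk κ t)‖ ≤ e * (Real.sinh κ ^ 2 / 2 + rz e κ t / e + |yz e κ t| / e) :=
        mul_le_mul_of_nonneg_left (h1.trans h2) he.le
    _ = _ := by field_simp; ring

/-- As `qq_sup` in `EQB/Msup.lean` with `ls ≤ (T/e) M` (`lf_sub`, `shf_sub_le`), `T = S + r²`: `pick_ge`: `r (|Pl|² + β² (1 - K²/6)) ≤ Re Pl · T`;
`|Pl|² ≥ |L|² - 2 |L| ls`, `L = e log Q`, `|L|² ≥ r² - r³/e + y² (1 - 2δ)`, `δ = K²/2 + r/e + 16/e²` (`L_re_ge`, `arg_ge`),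
`|L| ≤ r + |y| + β²/(2e)` (`L_norm_le`).  So `Re Pl ≥ r (1 - (7/6) K² - 32/e² - 2 (|y| + β²/(2e)) M/e - (3 + 2M) r/e)`.
The lemmas of `Msup.lean` have the hypothesis `MC`; copy them without it. -/
theorem qq_seg {e κ M ys : ℝ} {t : ℂ} (he : 200 ≤ e) (hκ : 0 < κ) (hK : Real.sinh κ ≤ 1 / 40)
    (ht : 0 < t.re) (hy : |yz e κ t| ≤ ys) (hys : ys ≤ 7 / 2) (hr : rz e κ t ≤ e / 2) (hM : 0 ≤ M)
    (h : ∀ z ∈ segment ℝ t (shf κ t), MB e κ M z) :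
    ‖qq e κ t‖ ≤ Real.exp (-((1 - (7 / 6 * Real.sinh κ ^ 2 + 32 / e ^ 2 +
      2 * (ys + bet e κ ^ 2 / (2 * e)) * M / e) - (3 + 2 * M) / e * rz e κ t) * rz e κ t)) := by
  have he0 : 0 < e := by linarith
  have hr0 := rz_pos he0 hκ ht
  have hS0 := Sz_pos he0 hκ t
  have hK0 : 0 < Real.sinh κ := Real.sinh_pos_iff.2 hκ
  have hy7 : |yz e κ t| ≤ 7 / 2 := hy.trans hys
  rw [qq_exp he0 hκ ht, Complex.norm_exp, Complex.neg_re]
  apply Real.exp_le_exp.2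
  rw [neg_le_neg_iff]
  obtain ⟨T, hT⟩ : ∃ T, T = Sz e κ t + rz e κ t ^ 2 := ⟨_, rfl⟩
  have hT0 : 0 < T := by rw [hT]; positivity
  have hST : Sz e κ t ≤ T := by rw [hT]; nlinarith [sq_nonneg (rz e κ t)]
  have hrT : rz e κ t ^ 2 ≤ T := by rw [hT]; linarith
  have hsre := shf_re hκ ht.le
  obtain ⟨ls, hlsd⟩ : ∃ ls, ls = T / e * M := ⟨_, rfl⟩
  have hls' : ‖log (fT e κ t) - log (fT e κ (shf κ t))‖ ≤ ls := by
    have e1 := lf_sub he0 hκ ht hsre h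
    rw [norm_sub_rev] at e1
    refine e1.trans ?_
    have e2 := shf_sub_le he0 hκ ht
    rw [← hT] at e2
    rw [hlsd]
    calc e * Real.sinh κ * M * ‖shf κ t - t‖ = (bet e κ * ‖shf κ t - t‖) * M := by
          unfold bet; ring
      _ ≤ _ := mul_le_mul_of_nonneg_right e2 hM
  have hls0 : 0 ≤ ls := (norm_nonneg _).trans hls'
  have h1 := pick_ge he0 hκ ht
  have h2 := Pl_sub t hls'
  have h3 := arg_ge he0 hκ ht hy7
  have h4 := L_re_ge he0 hκ ht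
  have h5 := L_norm_le he0 hκ ht
  obtain ⟨L, hL⟩ : ∃ L, L = (e : ℂ) * log (Qk κ t) := ⟨_, rfl⟩
  rw [← hL] at h2 h3 h4 h5
  have hre : rz e κ t / e ≤ 1 / 2 := by rw [div_le_iff₀ he0]; linarith
  have hre0 : 0 < rz e κ t / e := by positivity
  obtain ⟨δ, hδ⟩ : ∃ δ, δ = Real.sinh κ ^ 2 / 2 + rz e κ t / e + 16 / e ^ 2 := ⟨_, rfl⟩
  have h16 : 16 / e ^ 2 ≤ 1 / 2500 := by
    rw [div_le_div_iff₀ (by positivity) (by norm_num)]
    nlinarith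
  have hδ1 : δ ≤ 1 := by rw [hδ]; nlinarith
  have hδ0 : 0 ≤ δ := by rw [hδ]; positivity
  rw [← hδ] at h3
  have hL2 : ‖L‖ ^ 2 = L.re ^ 2 + L.im ^ 2 := by
    rw [Complex.sq_norm, Complex.normSq_apply]; ring
  have hLre : rz e κ t ^ 2 - rz e κ t ^ 3 / e ≤ L.re ^ 2 := by
    have e1 : 0 ≤ rz e κ t - rz e κ t ^ 2 / (2 * e) := by
      have : rz e κ t - rz e κ t ^ 2 / (2 * e) = rz e κ t * (1 - rz e κ t / e / 2) := by
        field_simp
      rw [this]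
      exact mul_nonneg hr0.le (by linarith)
    have e2 := pow_le_pow_left₀ e1 h4 2
    have e3 : (rz e κ t - rz e κ t ^ 2 / (2 * e)) ^ 2 =
        rz e κ t ^ 2 - rz e κ t ^ 3 / e + (rz e κ t ^ 2 / (2 * e)) ^ 2 := by field_simp; ring
    rw [e3] at e2
    nlinarith [sq_nonneg (rz e κ t ^ 2 / (2 * e))]
  have hLim : (1 - 2 * δ) * yz e κ t ^ 2 ≤ L.im ^ 2 := by
    have e1 : 0 ≤ |yz e κ t| * (1 - δ) := mul_nonneg (abs_nonneg _) (by linarith)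
    have e2 := pow_le_pow_left₀ e1 h3 2
    rw [sq_abs, mul_pow, sq_abs] at e2
    nlinarith [mul_nonneg (sq_nonneg (yz e κ t)) (sq_nonneg δ)]
  have hPl : ‖L‖ ^ 2 - 2 * ‖L‖ * ls ≤ ‖Pl e κ t‖ ^ 2 := by
    have e1 : ‖L‖ - ls ≤ ‖Pl e κ t‖ := by
      have := norm_sub_norm_le L (Pl e κ t)
      rw [norm_sub_rev] at this
      linarith
    have e2 := norm_nonneg L
    have e3 := norm_nonneg (Pl e κ t)
    rcases le_or_gt ls ‖L‖ with e4 | e4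
    · nlinarith
    · nlinarith
  have hβS : bet e κ ^ 2 ≤ Sz e κ t := by unfold Sz; nlinarith [sq_nonneg (yz e κ t)]
  have hyS : yz e κ t ^ 2 ≤ Sz e κ t := by unfold Sz; nlinarith [sq_nonneg (bet e κ)]
  have t1 : rz e κ t ^ 3 / e ≤ T * (rz e κ t / e) := by
    have e2 : rz e κ t ^ 3 / e = rz e κ t ^ 2 * (rz e κ t / e) := by field_simp
    rw [e2]
    gcongr
  have t2 : 2 * δ * yz e κ t ^ 2 ≤
      T * (Real.sinh κ ^ 2 + 2 * (rz e κ t / e) + 32 / e ^ 2) := by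
    have e1 : 2 * δ = Real.sinh κ ^ 2 + 2 * (rz e κ t / e) + 32 / e ^ 2 := by
      rw [hδ]; ring
    rw [e1, mul_comm T]
    have := hyS.trans hST
    gcongr
  have t3 : bet e κ ^ 2 * (Real.sinh κ ^ 2 / 6) ≤ T * (Real.sinh κ ^ 2 / 6) := by
    have := hβS.trans hST
    gcongr
  have hbe : e * Real.sinh κ ^ 2 / 2 = bet e κ ^ 2 / (2 * e) := by
    unfold bet; field_simp
  rw [hbe] at h5
  have tL : 2 * ‖L‖ * ls ≤ T * (2 * (ys + bet e κ ^ 2 / (2 * e)) * M / e + 2 * M / e * rz e κ t) := by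
    have e1 : ‖L‖ ≤ rz e κ t + ys + bet e κ ^ 2 / (2 * e) := by linarith
    have e2 : 2 * ‖L‖ * ls ≤ 2 * (rz e κ t + ys + bet e κ ^ 2 / (2 * e)) * ls := by
      gcongr
    refine e2.trans (le_of_eq ?_)
    rw [hlsd]
    ring
  have hSd : Sz e κ t = bet e κ ^ 2 + yz e κ t ^ 2 := rfl
  obtain ⟨q2, hq2⟩ : ∃ q2, q2 = 1 - (7 / 6 * Real.sinh κ ^ 2 + 32 / e ^ 2 +
      2 * (ys + bet e κ ^ 2 / (2 * e)) * M / e) - (3 + 2 * M) / e * rz e κ t := ⟨_, rfl⟩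
  rw [← hq2]
  have hmain : q2 * T ≤ ‖Pl e κ t‖ ^ 2 + bet e κ ^ 2 * (1 - Real.sinh κ ^ 2 / 6) := by
    have g5 : q2 * T = T - T * (rz e κ t / e) -
        T * (Real.sinh κ ^ 2 + 2 * (rz e κ t / e) + 32 / e ^ 2) - T * (Real.sinh κ ^ 2 / 6) -
        T * (2 * (ys + bet e κ ^ 2 / (2 * e)) * M / e + 2 * M / e * rz e κ t) := by
      rw [hq2]; ring
    have g6 : T = bet e κ ^ 2 + yz e κ t ^ 2 + rz e κ t ^ 2 := by rw [hT, hSd]
    linarith only [g5, g6, t1, t2, t3, tL, hPl, hL2, hLre, hLim]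
  rw [← hT] at h1
  have h12 : rz e κ t * (q2 * T) ≤ (Pl e κ t).re * T :=
    (mul_le_mul_of_nonneg_left hmain hr0.le).trans h1
  have h14 : q2 * rz e κ t * T ≤ (Pl e κ t).re * T := by linarith only [h12]
  exact le_of_mul_le_mul_right h14 hT0

end Pool.Agent.helper31.A2
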