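import Pool.Agent.helper31.A2.NLg0
import Pool.Agent.helper31.A2.QqSeg

/-!
# A2-N1: the link from its program, for given bounds `Mo`, `M1`

As `EQB/NLA.lean` + `NLA2.lean` (`linkA_fin`): all hypotheses of `LG`, `LG2` (`link_all_g`) from the values of `PL (cG n)`.
New: `‖qq (shf τ)‖ ≤ u`, `‖qq (shf τ')‖ ≤ u1` by `qq_seg` (`p_q20`, `p_q30`: `r ↦ ((1-A) - B r) r` is increasing up to `10 W`, resp. `11 W`);
`‖1 + qq‖ ≤ n1` from `ls` (as `link_ls` of `NLA2.lean`, check that no `MC` is needed); `lf` is given.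
-/

namespace Pool.Agent.helper31.A2

open Complex ComplexConjugate Set Filter Topology
open Pool.Agent.helper31.EQ.Y Pool.Agent.helper31.EQ.R
open Pool.Agent.helper12.EQL Pool.Agent.helper12.RP Pool.Agent.helper12.FF Pool.Agent.helper12.RS
open Pool.Agent.helper63.FF
open Pool.Agent.helper31.EQB

variable {e κ : ℝ}

section

variable {c : CL} {S se be s k y2 wMo Moie yb ielf Mnie EM EMs yb1 : ℝ}
variable {P : PL c se be s k y2 wMo Moie yb ielf Mnie EM EMs yb1}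

/-- `exp t ≤ (1 + t/2)/(1 - t/2)` and its comparison with the program -/
private theorem pade_le {t EM EMs s : ℝ} (h0 : 0 ≤ t) (h1 : t ≤ EM) (h2 : t ≤ EMs * s)
    (hE : 0 < 1 - 1 / 2 * EM) :
    Real.exp t ≤ (1 / 2 * t + 1) * (1 - 1 / 2 * t)⁻¹ ∧
      (1 / 2 * t + 1) * (1 - 1 / 2 * t)⁻¹ ≤ (1 / 2 * EM + 1) * (1 - 1 / 2 * EM)⁻¹ ∧
      (1 / 2 * t + 1) * (1 - 1 / 2 * t)⁻¹ - 1 ≤ EMs * s * (1 - 1 / 2 * EM)⁻¹ := by
  have ht : 0 < 1 - 1 / 2 * t := by linarith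
  have hi : (1 - 1 / 2 * t)⁻¹ ≤ (1 - 1 / 2 * EM)⁻¹ := by
    apply inv_anti₀ hE
    linarith
  have hi0 : 0 < (1 - 1 / 2 * t)⁻¹ := inv_pos.2 ht
  refine ⟨nla_exp_pade h0 ht, ?_, ?_⟩
  · apply mul_le_mul (by linarith) hi hi0.le (by linarith)
  · have h3 : (1 / 2 * t + 1) * (1 - 1 / 2 * t)⁻¹ - 1 = t * (1 - 1 / 2 * t)⁻¹ := by
      have h4 : (1 - 1 / 2 * t) * (1 - 1 / 2 * t)⁻¹ = 1 := mul_inv_cancel₀ ht.ne'
      linear_combination h4
    rw [h3]
    exact mul_le_mul h2 hi hi0.le (h0.trans h2)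

theorem lg2_gen (he : 200 ≤ e) (B : BasG e κ S c P) {x d Λ yn a Λ1 yn1 a1 : ℝ}
    (C : CondG c x d Λ yn a Λ1 yn1 a1) {M1 : ℝ} (hM10 : 0 ≤ M1)
    (h6 : P.E * (1 + M1) ≤ EM) (h7 : P.E * (1 + M1) ≤ EMs * s) (hE0 : 0 ≤ P.E) :
    LG2 e (Real.sinh κ) x Λ a S (c.L1 * P.W) (c.RW * P.W) (P.W * P.V1) P.E d Λ1 a1 M1 P.u1
      ((1 / 2 * (P.E * (1 + M1)) + 1) * (1 - 1 / 2 * (P.E * (1 + M1)))⁻¹) := by
  have A := basG2 B
  have he0 := B.e0
  have hW0 := B.W0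
  have hS0 := B.S0
  have hs0 := B.s0
  have hb0 := B.b0
  have hw0 := B.w0
  have hwse0 := B.wse0
  have hV1 := A.V11
  have hEQ : P.E = P.Qw * s := by rw [P.e_E, P.e_Qw, mul_assoc, B.wseS]
  have hEsq : P.E / √S = P.Qw := by rw [hEQ, B.sS]; field_simp
  have h2E : 2 * P.E / √S = 2 * P.Qw := by rw [← hEsq]; ring
  have hQ0 : 0 ≤ P.Q := by
    have h1 : 0 ≤ P.Q * P.W := by rw [← P.e_E]; exact hE0
    exact nonneg_of_mul_nonneg_left h1 hW0
  have hQw0 : 0 ≤ P.Qw := by rw [P.e_Qw]; positivity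
  have ht0 : 0 ≤ P.E * (1 + M1) := by positivity
  have hi2 : 0 < 1 - 1 / 2 * EM := P.p_EM2
  obtain ⟨p1, p2, p3⟩ := pade_le ht0 h6 h7 hi2
  have hK0 := B.K0
  have hK1 := B.K1
  have hx0 := C.x0
  have hx4 := C.x4
  have hd0 := C.d0
  have hd1 := C.d1
  refine {
    d0 := C.d0
    d1 := C.d1
    a10 := C.a10
    Er := ?_
    hd := ?_
    hΛ := ?_
    M10 := hM10
    hη := p1
    hcl := ?_ }
  · rw [P.e_E]
    have := P.p_Er
    exact mul_lt_mul_of_pos_right (by linarith) hW0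
  · have h1 : e * P.E = P.Q * S := by rw [P.e_E, B.W]; field_simp
    have h2 : √S * (√S - P.E) = S * (1 - P.Qw) := by
      rw [hEQ, B.sS]
      linear_combination (1 - P.Qw) * B.ss
    have h3 : Real.exp (2 * Real.sinh κ * (x + 1)) ≤ c.ex0 := by
      refine le_trans ?_ C.hex0
      apply Real.exp_le_exp.2
      apply mul_le_mul_of_nonneg_right _ (by linarith)
      linarith
    have h4 : P.Q * Real.exp (2 * Real.sinh κ * (x + 1)) ≤ c.dq * (1 - P.Qw) := by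
      have h5 := mul_le_mul_of_nonneg_left h3 hQ0
      have := P.p_dr
      linarith
    have h6 : c.dq ≤ (1 - Real.sinh κ ^ 2 / 6) * d := by
      refine C.hdq.trans ?_
      apply mul_le_mul_of_nonneg_right _ hd0
      have : Real.sinh κ ^ 2 ≤ (1 / 40) ^ 2 := pow_le_pow_left₀ hK0.le hK1 2
      linarith
    have hEs1 : 0 < 1 - P.Qw := P.p_Es
    have h7 := mul_le_mul_of_nonneg_right h6 hEs1.le
    have h8 := mul_le_mul_of_nonneg_right (h4.trans h7) hS0.le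
    rw [h1, h2]
    linarith
  · rw [h2E, ← B.W, ← C.eLa1]
    have := P.p_La
    have h1 : P.E = P.Q * P.W := P.e_E
    rw [h1]
    nlinarith
  · obtain ⟨t, ht⟩ : ∃ t, t = P.E * (1 + M1) := ⟨_, rfl⟩
    rw [← ht] at p1 p2 p3 ⊢
    obtain ⟨η, hη⟩ : ∃ η, η = (1 / 2 * t + 1) * (1 - 1 / 2 * t)⁻¹ := ⟨_, rfl⟩
    rw [← hη] at p1 p2 p3 ⊢
    have hη1 : η ≤ P.eta := by rw [P.e_eta, P.e_i2]; exact p2
    have hη2 : η - 1 ≤ EMs * s * P.i2 := by rw [P.e_i2]; exact p3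
    have hη0 : 0 ≤ η := (Real.exp_pos t).le.trans p1
    have h2 : (η - 1) * (4 + e * Real.sinh κ) / (4 * √S) ≤ P.t1 := by
      rw [B.sS, P.e_t1, ← B.hbe, div_le_iff₀ (by positivity)]
      have h3 : 0 ≤ 4 + be := by linarith
      calc (η - 1) * (4 + be) ≤ EMs * s * P.i2 * (4 + be) := mul_le_mul_of_nonneg_right hη2 h3
        _ = _ := by ring
    have h3 : (P.W * P.V1 + P.E) / √S = P.wse * (P.V1 + P.Q) := by
      rw [B.sS, div_eq_iff hs0.ne', P.e_E]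
      linear_combination -(P.V1 + P.Q) * B.wseS
    have hu10 : 0 ≤ P.u1 := by rw [P.e_u1]; positivity
    rw [h3]
    have h4 := P.p_cl
    rw [C.ea1] at h4
    have h5 := C.htha
    have h6 : (1 - 1 / 40 / 1024) * a ≤ (1 - Real.sinh κ / 1024) * a := by
      apply mul_le_mul_of_nonneg_right _ C.a0.le
      linarith
    have h8 : η * (P.u1 * a1) * (1 + P.wse * (P.V1 + P.Q)) ≤
        P.eta * (a1 * P.u1) * (P.wse * (P.V1 + P.Q) + 1) := by
      have h9 : 0 ≤ (a1 * P.u1) * (P.wse * (P.V1 + P.Q) + 1) := by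
        have := C.a10
        have : 0 ≤ P.V1 + P.Q := by linarith
        positivity
      calc η * (P.u1 * a1) * (1 + P.wse * (P.V1 + P.Q)) =
            η * ((a1 * P.u1) * (P.wse * (P.V1 + P.Q) + 1)) := by ring
        _ ≤ P.eta * ((a1 * P.u1) * (P.wse * (P.V1 + P.Q) + 1)) := mul_le_mul_of_nonneg_right hη1 h9
        _ = _ := by ring
    linarith

end

/-- monotonicity in `r` of the exponent of `qq_seg` -/
private theorem qexp {A A' B B' r r0 R q : ℝ} (hr0 : 0 ≤ r0) (hr : r0 ≤ r) (hR : r ≤ R)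
    (hA : A ≤ A') (hB : B' ≤ B) (hB0 : 0 ≤ B') (hq : q = A - B * r0) (hq0 : B * R ≤ q) :
    q * r0 ≤ (A' - B' * r) * r := by
  have h1 : B' * r ≤ B * R := mul_le_mul hB hR (by linarith) (by linarith)
  have h2 : B' * r0 ≤ B * r0 := mul_le_mul_of_nonneg_right hB hr0
  have h3 : 0 ≤ (r - r0) * (A' - B' * (r + r0)) := by
    apply mul_nonneg (by linarith)
    have : B' * (r + r0) = B' * r + B' * r0 := by ring
    linarith
  have h4 : (A' - B' * r) * r = (r - r0) * (A' - B' * (r + r0)) + (A' - B' * r0) * r0 := by ring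
  have h5 : q * r0 ≤ (A' - B' * r0) * r0 := by
    apply mul_le_mul_of_nonneg_right _ hr0
    linarith
  linarith

/-- the bound of `qq` from the program -/
private theorem qq_prog {M ys yb Mie cK ie r0 R q u : ℝ} {t : ℂ} (he : 200 ≤ e) (hκ : 0 < κ)
    (hK : Real.sinh κ ≤ 1 / 40)
    (ht : 0 < t.re) (hy : |yz e κ t| ≤ ys) (hys : ys ≤ 7 / 2) (hR2 : R ≤ e / 2) (hM : 0 ≤ M)
    (h : ∀ z ∈ segment ℝ t (shf κ t), MB e κ M z)
    (hie : ie = 1 / e) (hcK : 7 / 6 * Real.sinh κ ^ 2 + 32 / e ^ 2 ≤ cK) (hMie : M * ie ≤ Mie)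
    (hyb : bet e κ ^ 2 / e + 2 * ys ≤ yb) (hr0 : 0 ≤ r0) (hr : r0 ≤ rz e κ t)
    (hR : rz e κ t ≤ R)
    (hq : q = 1 - cK - yb * Mie - (3 * ie + 2 * Mie) * r0)
    (hq0 : (3 * ie + 2 * Mie) * R ≤ q) (hu : u = Real.exp (-(q * r0))) :
    ‖qq e κ t‖ ≤ u := by
  have he0 : 0 < e := by linarith
  refine (qq_seg he hκ hK ht hy hys (hR.trans hR2) hM h).trans ?_
  rw [hu]
  apply Real.exp_le_exp.2
  rw [neg_le_neg_iff]
  have hie0 : 0 < ie := by rw [hie]; positivity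
  have hy0 : 0 ≤ bet e κ ^ 2 / e + 2 * ys := by
    have := (abs_nonneg _).trans hy
    positivity
  refine qexp (A := 1 - cK - yb * Mie) (B := 3 * ie + 2 * Mie) hr0 hr hR ?_ ?_ ?_ hq hq0
  · have h1 : 2 * (ys + bet e κ ^ 2 / (2 * e)) * M / e = (bet e κ ^ 2 / e + 2 * ys) * (M * ie) := by
      rw [hie]; field_simp; ring
    have h2 : (bet e κ ^ 2 / e + 2 * ys) * (M * ie) ≤ yb * Mie :=
      mul_le_mul hyb hMie (by positivity) (hy0.trans hyb)
    rw [h1]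
    linarith
  · have h1 : (3 + 2 * M) / e = 3 * ie + 2 * (M * ie) := by
      rw [hie]; field_simp
    rw [h1]
    linarith
  · positivity

theorem link_gen (he : 200 ≤ e) (he5 : e ≤ 500) (hκ : 0 < κ) (hb : bet e κ ≤ 5) {n : ℕ}
    (hn : n < 5) {τ : ℂ} (T : St e κ (xG n) (LamG n) (ynG n) τ)
    {se be s k y2 wMo Moie yb ielf Mnie EM EMs yb1 Mo M1 : ℝ}
    (g : GeoL e κ τ se be s k y2)
    (P : PL (cG n) se be s k y2 wMo Moie yb ielf Mnie EM EMs yb1)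
    (hM : ML e κ (xG n) (xG n + 1 - xG (n + 1)) P.E (Sz e κ (shf κ τ)) Mo M1
      |yz e κ (shf κ τ)|)
    (h1 : P.w * Mo ≤ wMo) (h2 : Mo * P.ie ≤ Moie)
    (h3 : bet e κ ^ 2 / e + 2 * |yz e κ (shf κ τ)| ≤ yb)
    (h4 : ‖log (fT e κ (shf κ τ)) - log (fT e κ 1)‖ * P.ie ≤ ielf)
    (h5 : M1 * P.ie ≤ Mnie) (h6 : P.E * (1 + M1) ≤ EM) (h7 : P.E * (1 + M1) ≤ EMs * s)
    (h8 : bet e κ ^ 2 / e + 2 * (|yz e κ (shf κ τ)| + P.E) ≤ yb1) :
    LinkOK e κ (aG n) (xG (n + 1)) (LamG (n + 1)) (ynG (n + 1)) (aG (n + 1)) τ := by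
  have he0 : 0 < e := by linarith
  obtain ⟨S, hS⟩ : ∃ S, S = Sz e κ (shf κ τ) := ⟨_, rfl⟩
  have hSy : S = bet e κ ^ 2 + yz e κ (shf κ τ) ^ 2 := by rw [hS]; rfl
  have hbS : bet e κ ^ 2 ≤ S := by
    rw [hSy]
    linarith [sq_nonneg (yz e κ (shf κ τ))]
  have B : BasG e κ S (cG n) P :=
    basG he hκ hb hbS g.hse g.hbe (by rw [hS]; exact g.hs) g.hk P
  have A := basG2 B
  have C := condG hn
  have hK := B.K1
  have hK10 : Real.sinh κ ≤ 1 / 10 := by linarith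
  have hie0 : 0 < P.ie := by rw [B.ie]; positivity
  have hyτ : |yz e κ (shf κ τ)| ≤ ynG n := (yz_shf_le he0 hκ T.re).trans T.y
  have hy3 : |yz e κ (shf κ τ)| ≤ 10 / 3 := hyτ.trans C.yn3
  have hMo0 := hM.Mo0
  have hM10 := hM.M10
  have hMoie0 : 0 ≤ Moie := (by positivity : 0 ≤ Mo * P.ie).trans h2
  have hMnie0 : 0 ≤ Mnie := (by positivity : 0 ≤ M1 * P.ie).trans h5
  have hielf0 : 0 ≤ ielf :=
    (mul_nonneg (norm_nonneg _) hie0.le).trans h4
  have N := lg_gen he B C hMo0 h1 hMoie0 hielf0 g.hy2.symm hy3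
  have hE0 : 0 ≤ P.E := g_E0 he hκ hK C.yn3 T hS N
  have N2 := lg2_gen he B C hM10 h6 h7 hE0
  obtain ⟨hs, hom, hrl, hrh, hy, hSτ, hS0⟩ := g_base he hκ hK C.yn3 T hS N
  have hW0 := B.W0
  have hbe : be = bet e κ := g.hbe
  have hSe : S / e = P.W := B.W.symm
  have hEQ : P.E = P.Qw * s := by rw [P.e_E, P.e_Qw, mul_assoc, B.wseS]
  have hEsq : P.E / √S = P.Qw := by
    rw [hEQ, B.sS, mul_div_assoc, div_self B.s0.ne', mul_one]
  have h2E : 2 * P.E / √S = 2 * P.Qw := by rw [← hEsq]; ring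
  have h500 : 500 / e ^ 2 ≤ 1 / 80 := by
    rw [div_le_div_iff₀ (by positivity) (by norm_num)]
    nlinarith
  have h5000 : 0 ≤ 500 / e ^ 2 := by positivity
  have hQ0 : 0 ≤ P.Q := by
    have h1 : 0 ≤ P.Q * P.W := by rw [← P.e_E]; exact hE0
    exact nonneg_of_mul_nonneg_left h1 hW0
  have hwse0 := B.wse0
  have hQw0 : 0 ≤ P.Qw := by rw [P.e_Qw]; positivity
  have hc20 := P.p_c20
  have hc2e : 1011 / 1024 - 2 * P.E / √S = P.c2 := by rw [h2E, P.e_c2]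
  have hc2 : P.c2 ≤ 1 - 2 * P.E / √S - 500 / e ^ 2 := by
    rw [← hc2e]; linarith
  have hs21 : 1 ≤ P.s2 := by rw [P.e_s2]; nlinarith
  have hQ1 : (√S + P.E) ^ 2 / e = P.W * P.s2 := by
    rw [hEQ, B.W, B.sS, P.e_s2]
    have : (s + P.Qw * s) ^ 2 = (s * s) * ((P.Qw + 1) * (P.Qw + 1)) := by ring
    rw [this, B.ss]
    ring
  have hE2 : P.E ≤ (cG n).Yd := by
    have := P.p_y
    linarith
  have hynE : ynG n + P.E ≤ ynG (n + 1) := by
    have := C.hYd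
    linarith
  have hynE3 : ynG n + P.E ≤ 10 / 3 := hynE.trans C.yn13
  -- the segment `[s, shf s]`
  have hRW10 : (cG n).RW + 1 ≤ 10 := by
    have e1 := P.p_RH
    have e2 := P.p_h9
    have e3 : P.c2 ≤ 1 := by rw [P.e_c2]; linarith
    linarith
  have hMoS : ∀ z ∈ segment ℝ (shf κ τ) (shf κ (shf κ τ)), MB e κ Mo z := by
    intro z hz
    have G := g_seg1 he hκ hK C.yn3 T hS N hz
    refine hM.ho z ?_
    rw [← hS]
    refine ⟨G.re, G.om, G.y, G.lo, G.hi, G.r.trans ?_⟩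
    rw [hSe]
    have := mul_le_mul_of_nonneg_right hRW10 hW0.le
    linarith
  -- `lf`
  have hlf : ‖log (fT e κ (shf κ τ)) - log (fT e κ 1)‖ ≤ e * ielf := by
    have e1 := mul_le_mul_of_nonneg_left h4 he0.le
    have e2 : e * (‖log (fT e κ (shf κ τ)) - log (fT e κ 1)‖ * P.ie) =
        ‖log (fT e κ (shf κ τ)) - log (fT e κ 1)‖ := by
      rw [B.ie]; field_simp
    rw [e2] at e1
    exact e1
  -- `u`
  have hWle : P.W ≤ 1 / 5 := B.W1 he (y := yz e κ (shf κ τ)) (by rw [hbe]; exact hSy) hy3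
  have hr0 : 0 ≤ rz e κ (shf κ τ) := N.rl0.le.trans hrl
  have hrh10 : rz e κ (shf κ τ) ≤ 10 * P.W := by
    refine hrh.trans ?_
    apply mul_le_mul_of_nonneg_right _ hW0.le
    linarith
  have hu : ‖qq e κ (shf κ τ)‖ ≤ P.u := by
    refine qq_prog (q := P.q2) (r0 := P.rl) (R := 10 * P.W) he hκ hK hs le_rfl (by linarith)
      (by linarith) hMo0 hMoS B.ie B.cK h2 h3 ?_ ?_ hrh10 P.e_q2 ?_ P.e_u
    · rw [P.e_rl]; exact N.rl0.le
    · rw [P.e_rl]; exact hrl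
    · have := P.p_q20
      linarith
  -- `n1`
  have hls : ‖log (fT e κ (shf κ τ)) - log (fT e κ (shf κ (shf κ τ)))‖ ≤ P.ls := by
    have e6 : rz e κ (shf κ τ) ^ 2 ≤ ((cG n).RW * P.W) ^ 2 := pow_le_pow_left₀ hr0 hrh 2
    have hVs : bet e κ * ‖shf κ (shf κ τ) - shf κ τ‖ ≤ P.W * P.V1 := by
      refine (shf_sub_le he0 hκ hs).trans (le_trans ?_ N.hVs)
      rw [← hS]
      apply div_le_div_of_nonneg_right _ he0.le
      linarith
    have hs2 : 0 < (shf κ (shf κ τ)).re := shf_re hκ hs.le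
    rw [norm_sub_rev]
    refine (lf_sub he0 hκ hs hs2 hMoS).trans (le_trans ?_ N.hls)
    calc e * Real.sinh κ * Mo * ‖shf κ (shf κ τ) - shf κ τ‖ =
          Mo * (bet e κ * ‖shf κ (shf κ τ) - shf κ τ‖) := by
          unfold bet; ring
      _ ≤ Mo * (P.W * P.V1) := mul_le_mul_of_nonneg_left hVs N.Mo0
      _ = P.W * P.V1 * Mo := mul_comm _ _
  have hn1 : ‖1 + qq e κ (shf κ τ)‖ ≤ P.n1 := by
    have hrh0 : 0 ≤ (cG n).RW * P.W := hr0.trans hrh
    have hz : rz e κ (shf κ τ) ^ 2 + yz e κ (shf κ τ) ^ 2 ≤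
        ((cG n).RW * P.W) ^ 2 + yz e κ (shf κ τ) ^ 2 := by
      have := pow_le_pow_left₀ hr0 hrh 2
      linarith
    have hy2 : yz e κ (shf κ τ) ^ 2 ≤ (10 / 3) ^ 2 := by
      rw [← sq_abs]
      exact pow_le_pow_left₀ (abs_nonneg _) hy3 2
    have hrh1 : (cG n).RW * P.W ≤ 9 * (1 / 5) :=
      mul_le_mul (by linarith) hWle hW0.le (by norm_num)
    have hz2 : ((cG n).RW * P.W) ^ 2 + yz e κ (shf κ τ) ^ 2 ≤ (e / 20) ^ 2 := by
      have e4 := pow_le_pow_left₀ hrh0 hrh1 2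
      have e5 : (200 / 20 : ℝ) ^ 2 ≤ (e / 20) ^ 2 := pow_le_pow_left₀ (by norm_num) (by linarith) 2
      linarith
    refine (n1_le he hκ hK10 hs hls hz hz2).trans ?_
    rw [P.e_n1]
    have e6 := nla_G P.e_G g.hy2.symm (by linarith : |yz e κ (shf κ τ)| ≤ 7 / 2)
    have e7 : 3 / 5 * (bet e κ ^ 2 + (((cG n).RW * P.W) ^ 2 + yz e κ (shf κ τ) ^ 2)) / e ≤
        (314573 / 524288) * (P.W * P.V1) := by
      have e8 : 3 / 5 * (bet e κ ^ 2 + (((cG n).RW * P.W) ^ 2 + yz e κ (shf κ τ) ^ 2)) / e =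
          3 / 5 * (P.W * P.V1) := by
        rw [A.Vs, hSy]
        ring
      rw [e8]
      have e9 : 0 ≤ P.W * P.V1 := by
        have := A.V11
        positivity
      linarith
    have e8 : Real.exp (P.ls + 3 / 5 * (bet e κ ^ 2 + (((cG n).RW * P.W) ^ 2 +
        yz e κ (shf κ τ) ^ 2)) / e) ≤ Real.exp (P.ls + (314573 / 524288) * (P.W * P.V1)) := by
      apply Real.exp_le_exp.2
      linarith
    linarith
  have hrr := P.p_rr
  refine ⟨(g_X he hκ hK C.yn3 T hS N).2.trans_lt N.X1, fun χ hχ => ?_⟩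
  have hMn : ∀ z ∈ segment ℝ (shf κ τ) (nxt e κ τ χ), MB e κ M1 (shf κ z) := by
    intro z hz
    have G := g_seg2 he hκ hK hynE3 T hS N N2 hMoS hlf hu hn1 hχ hz
    refine hM.h1 _ ?_
    rw [← hS, hc2e, hSe]
    refine ⟨G.re, G.om, G.y, le_trans ?_ G.lo, G.hi, G.r.trans ?_⟩
    · rw [hSe]
      have e1 := mul_le_mul_of_nonneg_left hc2 hW0.le
      have e2 : 0 ≤ P.W * P.c2 := by positivity
      linarith
    · have e1 : (cG n).RH ≤ 11121 / 1024 * P.c2 := by linarith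
      have e2 := mul_le_mul_of_nonneg_right e1 hW0.le
      linarith
  have hst := g_step he hκ hK C.yn3 T hS N N2 hynE hMoS hlf hu hn1 hχ
  have hxx : xG n + 1 - (xG n + 1 - xG (n + 1)) = xG (n + 1) := by ring
  rw [hxx] at hst
  -- `u1`
  obtain ⟨G, PD⟩ := g_segp he hκ hK hynE3 T hS N N2 hMoS hlf hu hn1 hχ (right_mem_segment ℝ _ _)
  have hSt : Sz e κ (shf κ (nxt e κ τ χ)) / e ≥ P.W * P.c2 := by
    refine le_trans ?_ G.lo
    rw [hSe]
    exact mul_le_mul_of_nonneg_left hc2 hW0.le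
  have hx2 : 0 ≤ xG n + 2 - (xG n + 1 - xG (n + 1)) := by linarith [C.x0, C.d1]
  have hrn : P.rn ≤ rz e κ (shf κ (nxt e κ τ χ)) := by
    have e1 := om_rz he0 hκ (by linarith) hx2 G.re G.om
    refine le_trans ?_ e1
    rw [P.e_rn, mul_div_assoc]
    have e2 : (cG n).Ld ≤ lam (Real.sinh κ) (xG n + 2 - (xG n + 1 - xG (n + 1))) := by
      refine C.hLd.trans ?_
      exact lam_ge_g B.K0.le B.K1 (by linarith [C.x0, C.d1]) (by linarith [C.x4, C.d0])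
    apply mul_le_mul e2 hSt (by positivity) (C.Ld0.trans e2)
  have hR11 : rz e κ (shf κ (nxt e κ τ χ)) ≤ 11 * P.W := by
    refine G.r.trans ?_
    apply mul_le_mul_of_nonneg_right _ hW0.le
    have e1 : P.c2 ≤ 1 := by rw [P.e_c2]; linarith
    linarith
  have hrn0 : 0 ≤ P.rn := by
    rw [P.e_rn]
    have := C.Ld0
    positivity
  have hu1 : ‖qq e κ (shf κ (nxt e κ τ χ))‖ ≤ P.u1 := by
    refine qq_prog (q := P.q3) (r0 := P.rn) (R := 11 * P.W) he hκ hK G.re G.y (by linarith)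
      (by linarith) hM10 ?_ B.ie B.cK h5 h8 hrn0 hrn hR11 P.e_q3 ?_ P.e_u1
    · intro z hz
      have G3 := g_seg3 he hκ hK hynE3 T hS N N2 hMoS hlf hu hn1 hχ hz
      refine hM.h1 z ?_
      rw [← hS, hc2e, hSe]
      refine ⟨G3.re, G3.om, G3.y, le_trans ?_ G3.lo, G3.hi, G3.r.trans ?_⟩
      · rw [hSe]
        have e1 := mul_le_mul_of_nonneg_left hc2 hW0.le
        have e2 : 0 ≤ P.W * P.c2 := by positivity
        have e3 : (1011 / 1024 : ℝ) ≤ 1 - 500 / e ^ 2 := by linarith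
        exact mul_le_mul e1 e3 (by norm_num) (e2.trans e1)
      · rw [hQ1]
        have e1 : (cG n).RH + P.s2 ≤ 11121 / 1024 * P.c2 := by linarith
        have e2 := mul_le_mul_of_nonneg_right e1 hW0.le
        linarith
    · have := P.p_q30
      linarith
  refine ⟨(g_rad he hκ hK C.yn3 T hS N hMoS hlf hu hn1 hχ).1.1, hst, fun χ' hχ' => ?_⟩
  refine g_close he hκ hK C.yn3 T hS N N2 hMoS hlf hu hn1 hχ hMn hu1 (hχ'.trans (le_of_eq ?_))
  have hb0 : 0 < bet e κ := by rw [← hbe]; exact B.b0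
  have ha := C.a10
  unfold Rx
  rw [norm_mul, Complex.norm_real, Real.norm_of_nonneg (by positivity)]
  ring

end Pool.Agent.helper31.A2
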