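import Pool.Agent.helper31.A2.Stm
import Pool.Agent.helper31.A2.LinkG
import Pool.Agent.helper31.EQB.NLA

/-!
# A2-N1, part 0: numbers of the link
-/

namespace Pool.Agent.helper31.A2

open Complex ComplexConjugate Set Filter Topology
open Pool.Agent.helper31.EQ.Y Pool.Agent.helper31.EQ.R
open Pool.Agent.helper12.EQL Pool.Agent.helper12.RP Pool.Agent.helper12.FF Pool.Agent.helper12.RS
open Pool.Agent.helper63.FF
open Pool.Agent.helper31.EQB

variable {e κ : ℝ}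

/-- lower bound of `lam` for `K ≤ 1/40` -/
theorem lam_ge_g {K x : ℝ} (hK0 : 0 ≤ K) (hK : K ≤ 1 / 40) (hx : 0 ≤ x) (hx6 : x ≤ 6) :
    (1 - (1 / 40) ^ 2 / 6) * x * (1 - 1 / 10 * (2 * (1 / 40) * x) ^ 2) ≤ lam K x := by
  have hK2 : K ^ 2 ≤ (1 / 40) ^ 2 := pow_le_pow_left₀ hK0 hK 2
  have h0 : 0 ≤ 1 - K ^ 2 / 6 := by linarith
  have h1 : 1 - K ^ 2 / 6 ≤ 1 := by nlinarith [sq_nonneg K]
  have h2 : K * (1 - K ^ 2 / 6) ≤ 1 / 40 := by
    calc K * (1 - K ^ 2 / 6) ≤ K * 1 := mul_le_mul_of_nonneg_left h1 hK0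
      _ ≤ 1 / 40 := by linarith
  obtain ⟨z, hz⟩ : ∃ z, z = 2 * (K * (1 - K ^ 2 / 6)) * x := ⟨_, rfl⟩
  have h3 : z ≤ 2 * (1 / 40) * x := by
    rw [hz]; exact mul_le_mul_of_nonneg_right (by linarith) hx
  have h4 : 0 ≤ z := by rw [hz]; positivity
  have h5 : z ^ 2 ≤ (2 * (1 / 40) * x) ^ 2 := pow_le_pow_left₀ h4 h3 2
  have h6 : (2 * (1 / 40) * x) ^ 2 ≤ (2 * (1 / 40) * 6) ^ 2 :=
    pow_le_pow_left₀ (by positivity) (by linarith) 2
  obtain ⟨u, hu⟩ : ∃ u, u = z ^ 2 := ⟨_, rfl⟩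
  rw [← hu] at h5
  have hu0 : 0 ≤ u := by rw [hu]; positivity
  have hu1 : u ≤ 9 / 100 := by linarith
  have hth : thf K x = z / (1 + z ^ 2 / 3) := by
    unfold thf
    rw [hz]
  unfold lam
  rw [hth, ← hz, div_pow z, ← hu]
  have hD : 0 < 1 + u / 3 := by positivity
  have key : (1 - 1 / 10 * u) * (1 + u / 3) ≤ 1 + u / (1 + u / 3) ^ 2 / 4 := by
    rw [← sub_nonneg]
    have e1 : 1 + u / (1 + u / 3) ^ 2 / 4 - (1 - 1 / 10 * u) * (1 + u / 3) =
        u / (4 * (1 + u / 3) ^ 2) * (1 - 4 * (1 + u / 3) ^ 2 * (7 / 30 - 1 / 30 * u)) := by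
      field_simp
      ring
    rw [e1]
    apply mul_nonneg (by positivity)
    have h7 : (1 + u / 3) ^ 2 ≤ (103 / 100) ^ 2 :=
      pow_le_pow_left₀ hD.le (by linarith) 2
    have h8 : (1 + u / 3) ^ 2 * (7 / 30 - 1 / 30 * u) ≤ (103 / 100) ^ 2 * (7 / 30) :=
      mul_le_mul h7 (by linarith) (by linarith) (by norm_num)
    linarith
  have h7 : (1 - (1 / 40) ^ 2 / 6) * x ≤ (1 - K ^ 2 / 6) * x :=
    mul_le_mul_of_nonneg_right (by linarith) hx
  have h8 : 1 - 1 / 10 * (2 * (1 / 40) * x) ^ 2 ≤ 1 - 1 / 10 * u := by linarith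
  have h9 : 0 ≤ 1 - 1 / 10 * (2 * (1 / 40) * x) ^ 2 := by linarith
  calc (1 - (1 / 40) ^ 2 / 6) * x * (1 - 1 / 10 * (2 * (1 / 40) * x) ^ 2)
      ≤ (1 - K ^ 2 / 6) * x * (1 - 1 / 10 * u) := mul_le_mul h7 h8 h9 (by positivity)
    _ = (1 - K ^ 2 / 6) * x / (1 + u / 3) * ((1 - 1 / 10 * u) * (1 + u / 3)) := by
        field_simp
    _ ≤ _ := mul_le_mul_of_nonneg_left key (by positivity)

/-- numeral conditions on the constants of a link -/
structure CondG (c : CL) (x d Λ yn a Λ1 yn1 a1 : ℝ) : Prop where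
  x0 : 0 ≤ x
  x4 : x ≤ 4
  a0 : 0 < a
  Λ0 : 0 ≤ Λ
  Λ9 : Λ ≤ 9
  yn3 : yn ≤ 10 / 3
  yn13 : yn1 ≤ 10 / 3
  ea : c.a = a
  ea1 : c.a1 = a1
  eLa1 : c.La1 = Λ1
  L10 : 0 < c.L1
  LR : c.L1 ≤ c.RW
  RW9 : c.RW ≤ 9
  hL1 : c.L1 ≤ (1 - (1 / 40) ^ 2 / 6) * (x + 1) * (1 - 1 / 10 * (2 * (1 / 40) * (x + 1)) ^ 2)
  hRW : (Λ + 1) * (1 + 560 / 200 ^ 2) ≤ c.RW
  RH0 : 0 ≤ c.RH
  hRHq : c.RH ^ 2 ≤ c.RHq
  d0 : 0 ≤ d
  d1 : d ≤ 1
  dq0 : 0 ≤ c.dq
  hdq : c.dq ≤ (1 - (1 / 40) ^ 2 / 6) * d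
  hex0 : Real.exp (2 * (1 / 40) * (x + 1)) ≤ c.ex0
  a10 : 0 ≤ a1
  Ld0 : 0 ≤ c.Ld
  hLd : c.Ld ≤ (1 - (1 / 40) ^ 2 / 6) * (x + 2 - d) *
    (1 - 1 / 10 * (2 * (1 / 40) * (x + 2 - d)) ^ 2)
  htha : c.tha ≤ (1 - 1 / 40 / 1024) * a
  hYd : yn + c.Yd ≤ yn1

private theorem exp_num {x y : ℝ} (h0 : 0 ≤ x) (h1 : x ≤ 1)
    (h : 1 + x + x ^ 2 / 2 + x ^ 3 / 6 + x ^ 4 * 5 / 96 ≤ y) : Real.exp x ≤ y := by
  have h2 := Real.exp_bound' h0 h1 (n := 4) (by norm_num)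
  refine (h2.trans (le_of_eq ?_)).trans h
  simp [Finset.sum_range_succ, Nat.factorial]
  ring

theorem condG {n : ℕ} (hn : n < 5) :
    CondG (cG n) (xG n) (xG n + 1 - xG (n + 1)) (LamG n) (ynG n) (aG n) (LamG (n + 1))
      (ynG (n + 1)) (aG (n + 1)) := by
  interval_cases n
  all_goals
    constructor
    all_goals first
      | (norm_num [cG, xG, LamG, ynG, aG]; done)
      | (apply exp_num <;> norm_num [cG, xG, LamG, ynG, aG])

section

variable {c : CL} {S se be s k y2 wMo Moie yb ielf Mnie EM EMs yb1 : ℝ}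

/-- the scaled values -/
structure BasG (e κ S : ℝ) (c : CL) {se be s k y2 wMo Moie yb ielf Mnie EM EMs yb1 : ℝ}
    (P : PL c se be s k y2 wMo Moie yb ielf Mnie EM EMs yb1) : Prop where
  e0 : 0 < e
  K0 : 0 < Real.sinh κ
  K1 : Real.sinh κ ≤ 1 / 40
  hbe : be = e * Real.sinh κ
  b0 : 0 < be
  b5 : be ≤ 5
  S0 : 0 < S
  s0 : 0 < s
  ss : s * s = S
  sS : √S = s
  se0 : 0 < se
  hbS : be ^ 2 ≤ S
  ie : P.ie = 1 / e
  k0 : 0 < k
  ks : k * s = be
  k2 : P.k2 * S = be ^ 2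
  k21 : P.k2 ≤ 1
  W : P.W = S / e
  W0 : 0 < P.W
  w0 : 0 < P.w
  ww : P.w * P.w = P.W
  wse : P.wse = s / e
  wse0 : 0 < P.wse
  wseS : P.wse * s = P.W
  Wie : P.Wie = S / e ^ 2
  WW : P.W ^ 2 = P.Wie * S
  cK : 7 / 6 * Real.sinh κ ^ 2 + 32 / e ^ 2 ≤ P.cK

theorem basG (he : 200 ≤ e) (hκ : 0 < κ) (hb : bet e κ ≤ 5) (hbS : bet e κ ^ 2 ≤ S)
    (hse : se = (√e)⁻¹) (hbe : be = bet e κ) (hs : s = √S) (hk : k * s = be)
    (P : PL c se be s k y2 wMo Moie yb ielf Mnie EM EMs yb1) : BasG e κ S c P := by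
  have he0 : 0 < e := by linarith
  have hK0 : 0 < Real.sinh κ := Real.sinh_pos_iff.2 hκ
  have hK : Real.sinh κ ≤ 1 / 40 := by
    have h1 : e * Real.sinh κ ≤ 5 := hb
    have h2 : 200 * Real.sinh κ ≤ e * Real.sinh κ := mul_le_mul_of_nonneg_right he hK0.le
    linarith
  have hb0 : 0 < bet e κ := mul_pos he0 hK0
  have hS0 : 0 < S := lt_of_lt_of_le (by positivity) hbS
  have hs0 : 0 < s := by rw [hs]; exact Real.sqrt_pos.2 hS0
  have hss : s * s = S := by rw [hs]; exact Real.mul_self_sqrt hS0.le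
  have hr0 : 0 < √e := Real.sqrt_pos.2 he0
  have hrr : √e * √e = e := Real.mul_self_sqrt he0.le
  have hse0 : 0 < se := by rw [hse]; positivity
  have hie : P.ie = 1 / e := by rw [P.e_ie, hse, ← mul_inv, hrr, one_div]
  have hse2 : se * se = 1 / e := by rw [← P.e_ie, hie]
  have hw0 : 0 < P.w := by rw [P.e_w]; positivity
  have hww : P.w * P.w = P.W := P.e_W.symm
  have hW : P.W = S / e := by
    rw [P.e_W, P.e_w]
    calc se * s * (se * s) = se * se * (s * s) := by ring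
      _ = S / e := by rw [hse2, hss]; ring
  have hwse : P.wse = s / e := by
    rw [P.e_wse, P.e_w]
    calc se * s * se = se * se * s := by ring
      _ = s / e := by rw [hse2]; ring
  have hk0 : 0 < k := by
    have h1 : 0 < k * s := by rw [hk, hbe]; exact hb0
    exact pos_of_mul_pos_left h1 hs0.le
  have hk2 : P.k2 * S = be ^ 2 := by
    rw [P.e_k2, ← hss, ← hk]; ring
  have hWie : P.Wie = S / e ^ 2 := by
    rw [P.e_Wie, hW, hie]; field_simp
  refine ⟨he0, hK0, hK, hbe, by rw [hbe]; exact hb0, by rw [hbe]; exact hb, hS0, hs0, hss, hs.symm,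
    hse0, by rw [hbe]; exact hbS, hie, hk0, hk, hk2, ?_, hW, ?_, hw0, hww, hwse, ?_, ?_, hWie, ?_, ?_⟩
  · have h1 : P.k2 * S ≤ 1 * S := by rw [hk2, hbe, one_mul]; exact hbS
    exact le_of_mul_le_mul_right h1 hS0
  · rw [hW]; positivity
  · rw [hwse]; positivity
  · rw [hwse, hW, ← hss]; ring
  · rw [hWie, hW]; field_simp
  · rw [P.e_cK, P.e_bie, hie, hbe]
    have h1 : bet e κ * (1 / e) = Real.sinh κ := by unfold bet; field_simp
    rw [h1]
    have h2 : (32 : ℝ) / e ^ 2 = 32 * (1 / e * (1 / e)) := by field_simp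
    rw [h2]
    have h3 : 0 ≤ Real.sinh κ * Real.sinh κ := by positivity
    nlinarith

variable {P : PL c se be s k y2 wMo Moie yb ielf Mnie EM EMs yb1}

/-- `V1 ≥ 1`, `D2 ≥ 0`, ... -/
structure BasG2 (e κ S : ℝ) (c : CL) {se be s k y2 wMo Moie yb ielf Mnie EM EMs yb1 : ℝ}
    (P : PL c se be s k y2 wMo Moie yb ielf Mnie EM EMs yb1) : Prop where
  R2 : P.R2 * S = (c.RW * P.W) ^ 2
  R20 : 0 ≤ P.R2
  V1 : P.V1 * S = S + (c.RW * P.W) ^ 2
  V11 : 1 ≤ P.V1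
  Vs : P.W * P.V1 = (S + (c.RW * P.W) ^ 2) / e
  kwS : k * P.wse * S = be * P.W
  D2 : P.D2 * S = S + (c.RW * P.W) ^ 2 - 2 * be * (c.L1 * P.W)
  zb2 : P.zbS ^ 2 = P.R2 - P.k2 + 129 / 128
  zbS0 : 0 < P.zbS
  zb0 : 0 < P.zb

theorem basG2 (B : BasG e κ S c P) : BasG2 e κ S c P := by
  have hR2 : P.R2 * S = (c.RW * P.W) ^ 2 := by
    rw [P.e_R2, mul_pow, B.WW]; ring
  have hR20 : 0 ≤ P.R2 := by
    have h1 : 0 ≤ P.R2 * S := by rw [hR2]; positivity
    exact nonneg_of_mul_nonneg_left h1 B.S0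
  have hV1 : P.V1 * S = S + (c.RW * P.W) ^ 2 := by
    rw [P.e_V1, add_mul, hR2]; ring
  have hpos : 0 < P.R2 - P.k2 + 129 / 128 := by linarith [B.k21]
  have hz : P.zbS ^ 2 = P.R2 - P.k2 + 129 / 128 := by
    rw [P.e_zbS, ← Real.exp_nat_mul]
    have : ((2 : ℕ) : ℝ) * (1 / 2 * Real.log (P.R2 - P.k2 + 129 / 128)) =
      Real.log (P.R2 - P.k2 + 129 / 128) := by push_cast; ring
    rw [this, Real.exp_log hpos]
  have hz0 : 0 < P.zbS := by rw [P.e_zbS]; exact Real.exp_pos _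
  have hkw : k * P.wse * S = be * P.W := by
    calc k * P.wse * S = (k * s) * (P.wse * s) := by rw [← B.ss]; ring
      _ = be * P.W := by rw [B.ks, B.wseS]
  refine ⟨hR2, hR20, hV1, by rw [P.e_V1]; linarith, ?_, hkw, ?_, hz, hz0, ?_⟩
  · have h2 : P.W * P.V1 = (P.V1 * S) / e := by rw [B.W]; ring
    rw [h2, hV1]
  · rw [P.e_D2]
    linear_combination hV1 - 2 * c.L1 * hkw
  · rw [P.e_zb]
    exact mul_pos hz0 B.s0

/-- `W` is small -/
theorem BasG.W1 (he : 200 ≤ e) (B : BasG e κ S c P) {y : ℝ} (hS : S = be ^ 2 + y ^ 2)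
    (hy : |y| ≤ 10 / 3) : P.W ≤ 1 / 5 := by
  rw [B.W, div_le_iff₀ B.e0, hS]
  have h1 : be ^ 2 ≤ 5 ^ 2 := pow_le_pow_left₀ B.b0.le B.b5 2
  have h2 : y ^ 2 ≤ (10 / 3) ^ 2 := by
    rw [← sq_abs]
    exact pow_le_pow_left₀ (abs_nonneg _) hy 2
  linarith

theorem lg_gen (he : 200 ≤ e) (B : BasG e κ S c P) {x d Λ yn a Λ1 yn1 a1 : ℝ}
    (C : CondG c x d Λ yn a Λ1 yn1 a1) {Mo y : ℝ}
    (hMo0 : 0 ≤ Mo) (hwMo : P.w * Mo ≤ wMo) (hMoie : 0 ≤ Moie) (hielf : 0 ≤ ielf)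
    (hyS : y ^ 2 = y2) (hy : |y| ≤ 10 / 3) :
    LG e (Real.sinh κ) x Λ a (e * ielf) S (c.L1 * P.W) (c.RW * P.W) P.zb
      (S * P.D2) (s * P.DP) (P.W * P.V1) Mo P.ls P.u P.n1 P.X P.lsp (e * P.ielfp) P.E
      (c.RH * P.W) := by
  have A := basG2 B
  have he0 := B.e0
  have hW0 := B.W0
  have hS0 := B.S0
  have hs0 := B.s0
  have hb0 := B.b0
  have hw0 := B.w0
  have hwse0 := B.wse0
  have hse0 := B.se0
  have hk0 := B.k0
  have hV1 := A.V11
  have hR0 : 0 < c.RW := lt_of_lt_of_le C.L10 C.LR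
  have hL0 := C.L10
  have hx := C.x0
  have hwMo0 : 0 ≤ wMo := (mul_nonneg hw0.le hMo0).trans hwMo
  have hls0 : 0 ≤ P.ls := by
    rw [P.e_ls]
    positivity
  have hG0 : 0 ≤ P.G := by
    refine le_trans ?_ (nla_G P.e_G hyS (by linarith))
    positivity
  have hn10 : 0 ≤ P.n1 := by
    rw [P.e_n1]
    have h1 : 1 ≤ Real.exp (P.ls + (314573 / 524288) * (P.W * P.V1)) := by
      apply Real.one_le_exp
      positivity
    have h2 : 0 ≤ c.RW * P.W := by positivity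
    linarith
  have hEQ : P.E = P.Qw * s := by rw [P.e_E, P.e_Qw, mul_assoc, B.wseS]
  have hEs : P.E < √S := by
    rw [B.sS]
    have h1 := P.p_Es
    rw [hEQ]
    have := mul_lt_mul_of_pos_right (by linarith : P.Qw < 1) hs0
    linarith
  have hX : P.X = P.XS * s := P.e_X
  have hkw : 0 ≤ c.RW * (k * P.wse) := by positivity
  have hxx : P.R2 + 2 * (c.RW * (k * P.wse)) = ((c.RW * P.W) ^ 2 + 2 * be * (c.RW * P.W)) / S := by
    rw [eq_div_iff hS0.ne', add_mul, A.R2]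
    linear_combination 2 * c.RW * A.kwS
  have hDP0 : 0 < P.DP := by
    rw [P.e_DP]
    have := A.R20
    positivity
  have hDP : S + (c.RW * P.W) ^ 2 + 2 * be * (c.RW * P.W) ≤ (s * P.DP) ^ 2 := by
    have h1 : S + (c.RW * P.W) ^ 2 + 2 * be * (c.RW * P.W) =
        S * (1 + (P.R2 + 2 * (c.RW * (k * P.wse)))) := by
      rw [hxx]; field_simp; ring
    have h2 : (s * P.DP) ^ 2 = S * P.DP ^ 2 := by rw [← B.ss]; ring
    rw [h1, h2, P.e_DP]
    apply mul_le_mul_of_nonneg_left _ hS0.le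
    nlinarith [sq_nonneg (P.R2 + 2 * (c.RW * (k * P.wse)))]
  have h500 : 500 / e ^ 2 ≤ 1 / 80 := by
    rw [div_le_div_iff₀ (by positivity) (by norm_num)]
    nlinarith
  have h560 : 560 / e ^ 2 ≤ 560 / 200 ^ 2 := by
    apply div_le_div_of_nonneg_left (by norm_num) (by norm_num)
    exact pow_le_pow_left₀ (by norm_num) he 2
  have hEsq : P.E / √S = P.Qw := by rw [hEQ, B.sS]; field_simp
  have hc2 : P.c2 ≤ 1 - 2 * P.E / √S - 500 / e ^ 2 := by
    have : 2 * P.E / √S = 2 * P.Qw := by rw [← hEsq]; ring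
    rw [this, P.e_c2]
    linarith
  have hX1 := P.p_X1
  have hrlrh : c.L1 * P.W ≤ c.RW * P.W := mul_le_mul_of_nonneg_right C.LR hW0.le
  have hrl0 : 0 < c.L1 * P.W := by positivity
  have hSD : S * P.D2 = S + (c.RW * P.W) ^ 2 - 2 * be * (c.L1 * P.W) := by
    rw [mul_comm]; exact A.D2
  have hSD0 : 0 ≤ S * P.D2 := by
    rw [hSD]
    have h1 := mul_le_mul_of_nonneg_left hrlrh hb0.le
    nlinarith [sq_nonneg (c.RW * P.W - be), B.hbS]
  have hie0 : 0 < P.ie := by rw [B.ie]; positivity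
  have hq20 : 0 ≤ P.q2 := by
    have h1 := P.p_q20
    have h2 : 0 ≤ 10 * ((3 * P.ie + 2 * Moie) * P.W) := by positivity
    linarith
  have hrl : P.rl = c.L1 * P.W := P.e_rl
  have hu1 : P.u ≤ 1 := by
    rw [P.e_u]
    apply Real.exp_le_one_iff.2
    rw [hrl]
    have : 0 ≤ P.q2 * (c.L1 * P.W) := by positivity
    linarith
  have hu0 : 0 ≤ P.u := by rw [P.e_u]; positivity
  have hXS0 : 0 ≤ P.XS := by
    rw [P.e_XS, C.ea]
    have := C.a0
    positivity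
  have hX0 : 0 ≤ P.X := by rw [hX]; positivity
  have hlsp : P.ls + P.n1 * (P.X / (1 - P.X)) ≤ P.lsp := by
    rw [P.e_lsp, P.e_lspS, P.e_iX, P.e_ls, div_eq_mul_inv P.X]
    apply le_of_eq
    linear_combination (P.V1 * wMo) * P.e_w + P.n1 * (1 - P.X)⁻¹ * P.e_X
  have hlsp0 : 0 ≤ P.lsp := by
    refine le_trans ?_ hlsp
    have : 0 ≤ P.n1 * (P.X / (1 - P.X)) := mul_nonneg hn10 (div_nonneg hX0 hX1.le)
    linarith
  have huX1 : 0 < 1 - P.u * P.X := by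
    have := mul_le_mul_of_nonneg_right hu1 hX0
    linarith
  have hlfp : e * ielf + P.u * P.X / (1 - P.u * P.X) ≤ e * P.ielfp := by
    rw [P.e_ielfp, P.e_uX, B.ie, div_eq_mul_inv (P.u * P.X), mul_add, ← mul_assoc e (1 / e),
      mul_one_div_cancel he0.ne', one_mul]
  have hielfp0 : 0 ≤ P.ielfp := by
    rw [P.e_ielfp, P.e_uX, B.ie]
    have : 0 ≤ P.u * P.X * (1 - P.u * P.X)⁻¹ :=
      mul_nonneg (mul_nonneg hu0 hX0) (inv_nonneg.2 huX1.le)
    positivity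
  have hie1 : ∀ t : ℝ, t = e * (P.ie * t) := fun t => by
    rw [B.ie, ← mul_assoc, mul_one_div_cancel he0.ne', one_mul]
  have hbe : e * Real.sinh κ = be := B.hbe.symm
  have hQ1 : (√S + P.E) ^ 2 / e = P.W * ((P.Qw + 1) * (P.Qw + 1)) := by
    rw [hEQ, B.W, B.sS]
    have : (s + P.Qw * s) ^ 2 = (s * s) * ((P.Qw + 1) * (P.Qw + 1)) := by ring
    rw [this, B.ss]
    ring
  refine {
    K0 := B.K0
    x0 := C.x0
    a0 := C.a0
    S0 := hS0
    Λ0 := C.Λ0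
    Λ8 := C.Λ9
    lf0 := by positivity
    rl0 := hrl0
    hrl := ?_
    hrh := ?_
    zb0 := A.zb0.le
    hzb := ?_
    hDl := ?_
    hDh := ?_
    DP0 := by positivity
    hDP := ?_
    hVs := A.Vs.ge
    Mo0 := hMo0
    hls := ?_
    u0 := hu0
    u1 := hu1
    hX := ?_
    X1 := by linarith
    n10 := hn10
    hlsp := ?_
    hlfp := ?_
    hE := ?_
    lsp1 := ?_
    lfp1 := ?_
    zb1 := ?_
    E1 := ?_
    Es := hEs
    hRH := ?_
    h9 := ?_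
    h2 := ?_ }
  · rw [B.W]
    apply mul_le_mul_of_nonneg_right _ (by positivity)
    refine C.hL1.trans ?_
    have := C.x4
    exact lam_ge_g B.K0.le B.K1 (by linarith) (by linarith)
  · rw [← B.W]
    apply mul_le_mul_of_nonneg_right _ hW0.le
    refine le_trans ?_ C.hRW
    apply mul_le_mul_of_nonneg_left _ (by linarith [C.Λ0])
    linarith
  · rw [hbe, P.e_zb, mul_pow P.zbS, A.zb2]
    have h1 := A.R2
    have h2 := B.k2
    have h3 : s ^ 2 = S := by rw [← B.ss]; ring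
    rw [h3]
    nlinarith
  · rw [hbe, hSD]
    have : (c.L1 * P.W) ^ 2 ≤ (c.RW * P.W) ^ 2 := pow_le_pow_left₀ hrl0.le hrlrh 2
    linarith
  · rw [hbe, hSD]
    have := mul_le_mul_of_nonneg_left hrlrh hb0.le
    linarith
  · rw [hbe]; exact hDP
  · rw [P.e_ls]
    have h1 : P.W * P.V1 * Mo = P.w * P.V1 * (P.w * Mo) := by rw [P.e_W]; ring
    rw [h1]
    exact mul_le_mul_of_nonneg_left hwMo (by positivity)
  · rw [hX, P.e_XS, hbe, C.ea]
    apply le_of_eq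
    field_simp
    ring
  · exact hlsp
  · exact hlfp
  · -- hE
    have hfac : 1 + P.zb / (2 * e) + 3 / 200 ≤ P.fac := by
      rw [P.e_fac, B.ie]
      have : P.zb / (2 * e) = (1 / 2) * (P.zb * (1 / e)) := by field_simp
      linarith
    have hzbs : P.zbS * s = P.zb := P.e_zb.symm
    have T1 : S * P.D2 * (P.zb + 41 / 20 * (e * Real.sinh κ)) / (2 * e ^ 2) ≤
        P.W * ((1 / 2) * P.wse * P.D2 * (P.zbS + (2149581 / 1048576) * k)) := by
      have h1 : P.W * ((1 / 2) * P.wse * P.D2 * (P.zbS + (2149581 / 1048576) * k)) =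
          S * P.D2 * (P.zb + 2149581 / 1048576 * (k * s)) / (2 * e ^ 2) := by
        rw [B.W, B.wse, ← hzbs]
        field_simp
      rw [h1, B.ks, hbe]
      apply div_le_div_of_nonneg_right _ (by positivity)
      apply mul_le_mul_of_nonneg_left _ hSD0
      linarith
    have T2 : (P.zb + e * Real.sinh κ * Real.sinh κ / 2) * P.lsp / e ≤
        P.W * ((P.zbS + (3277 / 262144) * k) * P.lspS) := by
      have h1 : P.W * ((P.zbS + (3277 / 262144) * k) * P.lspS) =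
          (P.zb + 3277 / 262144 * (k * s)) * P.lsp / e := by
        have h2 : P.W = s * s / e := by rw [B.ss]; exact B.W
        rw [h2, ← hzbs, P.e_lsp]
        field_simp
      rw [h1, B.ks, hbe]
      apply div_le_div_of_nonneg_right _ he0.le
      apply mul_le_mul_of_nonneg_right _ hlsp0
      have := mul_le_mul_of_nonneg_left B.K1 hb0.le
      linarith
    have T3 : (e * Real.sinh κ) ^ 2 / e ^ 2 * (17 / 10 * P.lsp + 11 / 5 * (e * P.ielfp)) ≤
        P.W * (P.k2 * ((445645 / 262144) * (P.ie * P.lsp) + (576717 / 262144) * P.ielfp)) := by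
      have h1 : P.W * (P.k2 * ((445645 / 262144) * (P.ie * P.lsp) + (576717 / 262144) * P.ielfp)) =
          be ^ 2 / e ^ 2 * ((445645 / 262144) * P.lsp + (576717 / 262144) * (e * P.ielfp)) := by
        rw [B.W, B.ie, ← B.k2]
        field_simp
      rw [h1, hbe]
      apply mul_le_mul_of_nonneg_left _ (by positivity)
      have : 0 ≤ e * P.ielfp := by positivity
      linarith
    have hEe : P.E = P.fac * (P.W * ((1 / 2) * P.wse * P.D2 * (P.zbS + (2149581 / 1048576) * k)) +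
        P.W * ((P.zbS + (3277 / 262144) * k) * P.lspS) +
        P.W * (P.k2 * ((445645 / 262144) * (P.ie * P.lsp) + (576717 / 262144) * P.ielfp))) := by
      rw [P.e_E, P.e_Q]; ring
    rw [hEe]
    have hb1 : 0 ≤ S * P.D2 * (P.zb + 41 / 20 * (e * Real.sinh κ)) / (2 * e ^ 2) := by
      have := A.zb0
      rw [hbe]
      positivity
    have hb2 : 0 ≤ (P.zb + e * Real.sinh κ * Real.sinh κ / 2) * P.lsp / e := by
      have := A.zb0
      have := B.K0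
      positivity
    have hb3 : 0 ≤ (e * Real.sinh κ) ^ 2 / e ^ 2 * (17 / 10 * P.lsp + 11 / 5 * (e * P.ielfp)) := by
      positivity
    have hf0 : 0 ≤ P.fac := by
      have := A.zb0
      refine le_trans ?_ hfac
      positivity
    apply mul_le_mul hfac (by linarith) (by linarith) hf0
  · have h1 := P.p_l1
    have h2 := hie1 P.lsp
    nlinarith
  · have h1 := P.p_l2
    nlinarith
  · have h1 := P.p_z1
    have h2 := hie1 P.zb
    nlinarith
  · have h1 := P.p_E1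
    have h2 := hie1 P.E
    nlinarith
  · have h1 := P.p_RH
    rw [P.e_s2] at h1
    rw [hQ1, P.e_E]
    have := mul_pos h1 hW0
    nlinarith
  · have h1 := P.p_h9
    have h2 : c.RH ≤ 10 * (1 - 2 * P.E / √S - 500 / e ^ 2) := by
      linarith
    rw [← B.W]
    have := mul_le_mul_of_nonneg_right h2 hW0.le
    linarith
  · have h1 := P.p_h2
    have h2 : c.RHq * P.Wie ≤ 9 / 10 * (1 - 2 * P.E / √S - 500 / e ^ 2) := by
      have := P.p_c20
      linarith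
    have hWie0 : 0 ≤ P.Wie := by rw [B.Wie]; positivity
    have h3 : c.RH ^ 2 * P.Wie ≤ c.RHq * P.Wie := mul_le_mul_of_nonneg_right C.hRHq hWie0
    rw [mul_pow, B.WW]
    have := mul_le_mul_of_nonneg_right (h3.trans h2) hS0.le
    linarith

end

end Pool.Agent.helper31.A2
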