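import Pool.Agent.helper31.A2.T2D

/-!
# A2: the table as a whole and its rows: definitions

`w = √(S/e)`.  Fixed point `2^28` for `y` and `w`, `1/1024` for the bounds `B` of the cells, `1/4096` for `o`, `p` of the rows.
-/

namespace Pool.Agent.helper31.A2

open Complex ComplexConjugate Set Filter Topology
open Pool.Agent.helper31.EQ.Y Pool.Agent.helper31.EQ.R
open Pool.Agent.helper12.EQL Pool.Agent.helper12.RP Pool.Agent.helper12.FF
open Pool.Agent.helper63.FF
open Pool.Agent.helper31.EQB

/-- a cell: upper end `wb`, number of levels `n` (`≥ 11`), the bounds for the positions `≥ 3/10 + j`, `j = 0..4` -/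
structure CellD where
  wb : Nat
  n : Nat
  b0 : Nat
  b1 : Nat
  b2 : Nat
  b3 : Nat
  b4 : Nat

/-- the claims of the levels -/
def CellD.ms (c : CellD) : List Nat :=
  c.b0 :: c.b1 :: c.b2 :: c.b3 :: c.b4 :: c.b4 :: c.b4 :: c.b4 :: c.b4 :: c.b4 :: c.b4 :: List.replicate (c.n - 11) 0

def CellD.bd (c : CellD) : Nat → Nat
  | 0 => c.b0
  | 1 => c.b1
  | 2 => c.b2
  | 3 => c.b3
  | _ => c.b4

/-- a strip `ya ≤ |y| ≤ yb`: cells from `w0` upwards; below `w0` the bounds `px` (`1/1024`; `px = []`: none) -/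
structure StripD where
  ya : Nat
  yb : Nat
  px : List Nat
  w0 : Nat
  cells : List CellD

/-- the cells of a strip -/
def cellsOK (ya yb : Nat) : Nat → List CellD → Bool
  | _, [] => true
  | wa, c :: t =>
    and (and (and (and (Nat.blt 0 c.b4) (Nat.blt 0 (ml wa wa))) (Nat.ble c.b4 c.b3)) (and (Nat.ble c.b3 c.b2)
      (and (Nat.ble c.b2 c.b1) (Nat.ble c.b1 c.b0))))
      (and (cellOK ya yb (ml wa wa) (mu c.wb c.wb) c.ms) (and (Nat.blt wa c.wb) (cellsOK ya yb c.wb t)))

/-- what is decided by the kernel for every strip (in the table modules) -/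
def StripD.ok (s : StripD) : Bool :=
  and (and (Nat.blt 0 s.w0) (Nat.ble s.yb 939524096)) (and (Nat.blt s.ya s.yb) (cellsOK s.ya s.yb s.w0 s.cells))

/-- the upper end of the last cell -/
def lastW : Nat → List CellD → Nat
  | w, [] => w
  | _, c :: t => lastW c.wb t

/-- a group: `lo ≤ w ≤ hi`; the strips cover `0 ≤ |y|` from the bottom to the top -/
structure GrpD where
  lo : Nat
  hi : Nat
  strips : List StripD

/-- the strip covers its part of the domain `y²/500 ≤ w² ≤ (25 + y²)/200`, `lo ≤ w ≤ hi`.  With `px`: `yb ≤ 2` and `px` is one of the rows of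
`pxTab` (see `PXB`).  -/
def covW (lo hi : Nat) (s : StripD) : Bool :=
  and (or (Nat.ble s.w0 lo) (or (Nat.ble (Nat.mul 500 (Nat.mul s.w0 s.w0)) (Nat.mul s.ya s.ya))
    (not s.px.isEmpty)))
    (or (and s.cells.isEmpty (Nat.ble hi s.w0)) (or (Nat.ble hi (lastW s.w0 s.cells))
      (Nat.ble (Nat.add (Nat.mul 25 72057594037927936) (Nat.mul s.yb s.yb))
        (Nat.mul 200 (Nat.mul (lastW s.w0 s.cells) (lastW s.w0 s.cells))))))

/-- the top of the table: `3.3` -/
def yTop : Nat := 885837005

/-- contiguous strips from `y` up to `yTop` or up to `y²/500 ≥ hi²` -/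
def covY (lo hi : Nat) : Nat → List StripD → Bool
  | y, [] => or (Nat.ble yTop y) (Nat.ble (Nat.mul 500 (Nat.mul hi hi)) (Nat.mul y y))
  | y, s :: t => and (Nat.ble s.ya y) (and (covW lo hi s) (covY lo hi s.yb t))

/-- the groups are contiguous in `w` from `0` to `√(1/5)`: `w² ≤ (25 + 3.5²)/200 < 1/5` -/
def covG : Nat → List GrpD → Bool
  | w, [] => Nat.ble 120048002 w
  | w, g :: t => and (Nat.ble g.lo w) (and (covY g.lo g.hi 0 g.strips) (covG g.hi t))

/-- a table of px bounds: `(yb, hi, bounds)`: `|y| ≤ yb`, `S/e ≤ hi²`... see `PXB` -/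
structure PxD where
  yb : Nat
  w : Nat
  m : List Nat

/-- meaning of an entry of the px table: if `|y| ≤ yb` and `√(S/e) ≤ w` then `MB (m_j/1024)` at the positions `≥ 3/10 + j` -/
def PxP (e κ : ℝ) (q : PxD) : Prop :=
  ∀ j : ℕ, j ≤ 4 → ∀ z : ℂ, 0 < z.re → om κ (3 / 10 + j) z → |yz e κ z| ≤ vn q.yb →
    √(Sz e κ z / e) ≤ vn q.w → MB e κ ((q.m.getD j 0 : ℝ) / 1024) z

/-- every strip with `px` is below an entry of the px table with the same bounds -/
def pxUse (T : List PxD) (s : StripD) : Bool :=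
  or s.px.isEmpty (T.any (fun q => and (Nat.ble s.yb q.yb) (and (Nat.ble s.w0 q.w) (q.m == s.px))))

/-- a piece of the table (for one family `j`): `|y| ≥ ya`, `wa ≤ w ≤ wb`: bound `m/1024` -/
structure Pc where
  ya : Nat
  wa : Nat
  wb : Nat
  m : Nat

def pcCells (j ya : Nat) : Nat → List CellD → List Pc
  | _, [] => []
  | wa, c :: t => ⟨ya, wa, c.wb, c.bd j⟩ :: pcCells j ya c.wb t

def pcStrip (j : Nat) (s : StripD) : List Pc :=
  bif s.px.isEmpty then pcCells j s.ya s.w0 s.cells
  else ⟨s.ya, 0, s.w0, s.px.getD j 0⟩ :: pcCells j s.ya s.w0 s.cells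

/-- all the strips, sorted by `ya` (a permutation of the strips of the groups; checked) -/
def pcs (j : Nat) (ss : List StripD) : List Pc := ss.flatMap (pcStrip j)

/-- a row: for `|y| ≤ ys`, `wa < w ≤ wb`: `M ≤ o/w + p` (`o`, `p` in `1/4096`) -/
structure RowD where
  ys : Nat
  wa : Nat
  wb : Nat
  o : Nat
  p : Int

def RowP (e κ : ℝ) (j : ℕ) (r : RowD) : Prop :=
  ∀ z : ℂ, 0 < z.re → om κ (3 / 10 + j) z → |yz e κ z| ≤ vn r.ys → vn r.wa < √(Sz e κ z / e) →
    √(Sz e κ z / e) ≤ vn r.wb → rz e κ z ≤ 11 * (Sz e κ z / e) →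
      MB e κ ((r.o : ℝ) / 4096 / √(Sz e κ z / e) + (r.p : ℝ) / 4096) z

/-- the piece is below the row: `m/1024 ≤ o/4096/w + p/4096` for `w ≤ min q.wb wb` -/
def pcOK (wb o : Nat) (p : Int) (q : Pc) : Bool :=
  let w := bif Nat.ble q.wb wb then q.wb else wb
  decide (Int.mul ((Nat.mul 4 q.m : Nat) : Int) (w : Int) ≤ Int.add ((Nat.mul o 268435456 : Nat) : Int) (Int.mul p (w : Int)))

/-- consume the pieces with `ya < ys` (sorted by `ya`); `none` if one is above the row -/
def eat (wb ys o : Nat) (p : Int) : List Pc → Option (List Pc)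
  | [] => some []
  | q :: t => bif Nat.blt q.ya ys then (bif pcOK wb o p q then eat wb ys o p t else none) else some (q :: t)

/-- a column: rows with the same window `[wa, wb]`, `ys` increasing; `(o, p)` the previous row (dominated at `wa` and at `wb`) -/
def colOK (wa wb : Nat) : List RowD → Nat → Nat → Int → List Pc → Bool
  | [], _, _, _, _ => true
  | r :: t, ys, o, p, l =>
    and (and (Nat.beq r.wa wa) (Nat.beq r.wb wb)) (and (Nat.ble ys r.ys)
      (and (and (decide (Int.add ((Nat.mul o 268435456 : Nat) : Int) (Int.mul p (wa : Int)) ≤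
          Int.add ((Nat.mul r.o 268435456 : Nat) : Int) (Int.mul r.p (wa : Int))))
        (decide (Int.add ((Nat.mul o 268435456 : Nat) : Int) (Int.mul p (wb : Int)) ≤
          Int.add ((Nat.mul r.o 268435456 : Nat) : Int) (Int.mul r.p (wb : Int)))))
      (match eat wb r.ys r.o r.p l with
        | none => false
        | some l' => colOK wa wb t r.ys r.o r.p l')))

/-- the pieces which meet the window -/
def winF (wa wb : Nat) (l : List Pc) : List Pc := l.filter (fun q => and (Nat.blt q.wa wb) (Nat.blt wa q.wb))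

def sortedY : Nat → List Pc → Bool
  | _, [] => true
  | y, q :: t => and (Nat.ble y q.ya) (sortedY q.ya t)

/-- a column of the family `j` over the pieces `l = pcs j ss` -/
def colsOK (l : List Pc) : List (Nat × Nat × List RowD) → Bool
  | [] => true
  | (wa, wb, rs) :: t => and (and (Nat.blt 0 wa) (colOK wa wb rs 0 0 0 (winF wa wb l))) (colsOK l t)

end Pool.Agent.helper31.A2
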