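import Pool.Agent.helper31.EQB.TestS
import Pool.Agent.helper31.EQB.FirstT

/-!
# A2-6: the value `1 - f(t0)` at `β t0 = iπ` for `e ≥ 200`, `β ≤ 5`

`test_re` of `EQB/TestS.lean` without `4900 ≤ e (β² + π²)`; here only `e² W = e (β² + π²) ≥ 200 π² ≥ 1973`, but `W ≤ (25 + π²)/200 ≤ 0.1744`.
(True size of `Σ R_k Δ_k²/2`: `≤ 0.005 P`.)  Two factors gain enough:
* `P ≥ 0.39/√W`: in `ts_P`, `s = √W ≤ 0.418`, so `N = ⌊1/s⌋ ≥ 2`, `⌊x⌋ ≥ (2/3) x` for `x ≥ 2`: `P ≥ 0.59·(2/3)/s`;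
* `Δ_k ≤ π k K²/6 + π k³ W/(3e)` and `K² ≤ 0.72 W/e` (`β² ≤ 25`), so `Δ_k ≤ (πW/(3e)) (k³ + 0.36 k)`, `(k³ + 0.36 k)² ≤ 1.19 k⁶` for `k ≥ 2` and
  `≤ 1.85` for `k = 1` (instead of `2.25 k⁶`; the excess `0.66 R_1 ≤ 0.66` of `k = 1` is negligible against the bound `~ 200/W^(7/2)` of `Σ k⁶ R_k`);
* if needed: `X³ (1+X)^(-11) ≤ 27·8⁸/11¹¹` and `Σ (1 + δ²k²)^(-2) ≤ 4/(3δ)` instead of `X³ (1+X)^(-12)`, `Σ (1+δ²k²)^(-1) ≤ 2/δ`.
-/

namespace Pool.Agent.helper31.A2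

open Complex ComplexConjugate Set Filter Topology
open Pool.Agent.helper31.EQ.Y Pool.Agent.helper31.EQ.R
open Pool.Agent.helper12.EQL Pool.Agent.helper12.RP Pool.Agent.helper12.FF Pool.Agent.helper12.RS
open Pool.Agent.helper31.EQB

variable {e κ : ℝ}

private theorem ts_mono {f f' : ℝ → ℝ} (hf : ∀ x, HasDerivAt f (f' x) x) (h0 : f 0 = 0)
    (hd : ∀ x, 0 ≤ x → 0 ≤ f' x) {x : ℝ} (hx : 0 ≤ x) : 0 ≤ f x := by
  have hm : MonotoneOn f (Set.Ici 0) := by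
    apply monotoneOn_of_deriv_nonneg (convex_Ici 0)
    · exact fun x _ => (hf x).continuousAt.continuousWithinAt
    · exact fun x _ => (hf x).differentiableAt.differentiableWithinAt
    · intro x hx
      rw [interior_Ici] at hx
      rw [(hf x).deriv]
      exact hd x (le_of_lt hx)
  have h1 : f 0 ≤ f x := hm Set.self_mem_Ici hx hx
  linarith

private theorem ts_atan_le {x : ℝ} (hx : 0 ≤ x) : Real.arctan x ≤ x := by
  have h := ts_mono (f := fun x => x - Real.arctan x) (f' := fun x => 1 - 1 / (1 + x ^ 2))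
    (fun x => (hasDerivAt_id x).sub (Real.hasDerivAt_arctan x)) (by simp)
    (fun x _ => by
      have h1 : 1 / (1 + x ^ 2) ≤ 1 := by
        rw [div_le_one (by positivity)]
        nlinarith [sq_nonneg x]
      show 0 ≤ 1 - 1 / (1 + x ^ 2)
      linarith) hx
  linarith

private theorem ts_atan_ge {x : ℝ} (hx : 0 ≤ x) : x - x ^ 3 / 3 ≤ Real.arctan x := by
  have h := ts_mono (f := fun x => Real.arctan x - x + x ^ 3 / 3)
    (f' := fun x => 1 / (1 + x ^ 2) - 1 + x ^ 2)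
    (fun x => by
      have h3 : HasDerivAt (fun x : ℝ => x ^ 3 / 3) (x ^ 2) x := by
        have := (hasDerivAt_pow 3 x).div_const 3
        refine this.congr_deriv ?_
        norm_num
      exact ((Real.hasDerivAt_arctan x).sub (hasDerivAt_id x)).add h3) (by simp)
    (fun x _ => by
      have h1 : 1 - x ^ 2 ≤ 1 / (1 + x ^ 2) := by
        rw [le_div_iff₀ (by positivity)]
        nlinarith [sq_nonneg (x ^ 2)]
      show 0 ≤ 1 / (1 + x ^ 2) - 1 + x ^ 2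
      linarith) hx
  linarith

private theorem ts_tanh_deriv (x : ℝ) : HasDerivAt Real.tanh (1 / Real.cosh x ^ 2) x := by
  have hc := (Real.cosh_pos x).ne'
  have h := (Real.hasDerivAt_sinh x).div (Real.hasDerivAt_cosh x) hc
  have he : (fun x => Real.sinh x / Real.cosh x) = Real.tanh := by
    funext y; rw [Real.tanh_eq_sinh_div_cosh]
  have h' : HasDerivAt (fun x => Real.sinh x / Real.cosh x)
      ((Real.cosh x * Real.cosh x - Real.sinh x * Real.sinh x) / Real.cosh x ^ 2) x := h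
  rw [he] at h'
  refine h'.congr_deriv ?_
  congr 1
  have := Real.cosh_sq x
  nlinarith

private theorem ts_tanh_le {x : ℝ} (hx : 0 ≤ x) : Real.tanh x ≤ x := by
  have h := ts_mono (f := fun x => x - Real.tanh x) (f' := fun x => 1 - 1 / Real.cosh x ^ 2)
    (fun x => (hasDerivAt_id x).sub (ts_tanh_deriv x)) (by simp)
    (fun x _ => by
      have h1 : 1 / Real.cosh x ^ 2 ≤ 1 := by
        rw [div_le_one (by positivity)]
        nlinarith [Real.one_le_cosh x]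
      show 0 ≤ 1 - 1 / Real.cosh x ^ 2
      linarith) hx
  linarith

private theorem ts_tanh_nonneg {x : ℝ} (hx : 0 ≤ x) : 0 ≤ Real.tanh x := by
  rw [Real.tanh_eq_sinh_div_cosh]
  exact div_nonneg (Real.sinh_nonneg_iff.2 hx) (Real.cosh_pos x).le

private theorem ts_tanh_ge {x : ℝ} (hx : 0 ≤ x) : x - x ^ 3 / 3 ≤ Real.tanh x := by
  have h := ts_mono (f := fun x => Real.tanh x - x + x ^ 3 / 3)
    (f' := fun x => 1 / Real.cosh x ^ 2 - 1 + x ^ 2)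
    (fun x => by
      have h3 : HasDerivAt (fun x : ℝ => x ^ 3 / 3) (x ^ 2) x := by
        have := (hasDerivAt_pow 3 x).div_const 3
        refine this.congr_deriv ?_
        norm_num
      exact ((ts_tanh_deriv x).sub (hasDerivAt_id x)).add h3) (by simp)
    (fun x hx => by
      have hc := Real.cosh_pos x
      have h1 : 1 / Real.cosh x ^ 2 = 1 - Real.tanh x ^ 2 := by
        rw [Real.tanh_eq_sinh_div_cosh]
        have := Real.cosh_sq x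
        field_simp
        linarith
      have h2 := ts_tanh_le hx
      have h3 := ts_tanh_nonneg hx
      show 0 ≤ 1 / Real.cosh x ^ 2 - 1 + x ^ 2
      rw [h1]
      nlinarith) hx
  linarith

private theorem ts_sinh {x : ℝ} (hx : 0 ≤ x) : Real.sinh x - Real.sinh x ^ 3 / 6 ≤ x := by
  have h := ts_mono (f := fun x => x - Real.sinh x + Real.sinh x ^ 3 / 6)
    (f' := fun x => 1 - Real.cosh x + Real.sinh x ^ 2 * Real.cosh x / 2)
    (fun x => by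
      have h3 : HasDerivAt (fun x : ℝ => Real.sinh x ^ 3 / 6)
          (Real.sinh x ^ 2 * Real.cosh x / 2) x := by
        have := ((Real.hasDerivAt_sinh x).pow 3).div_const 6
        refine this.congr_deriv ?_
        norm_num
        ring
      exact ((hasDerivAt_id x).sub (Real.hasDerivAt_sinh x)).add h3) (by simp)
    (fun x _ => by
      have h1 := Real.one_le_cosh x
      have h2 := Real.cosh_sq x
      have h3 : Real.sinh x ^ 2 = Real.cosh x ^ 2 - 1 := by linarith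
      show 0 ≤ 1 - Real.cosh x + Real.sinh x ^ 2 * Real.cosh x / 2
      rw [h3]
      have h4 : 1 - Real.cosh x + (Real.cosh x ^ 2 - 1) * Real.cosh x / 2 =
        (Real.cosh x - 1) * ((Real.cosh x + 1) * Real.cosh x / 2 - 1) := by ring
      rw [h4]
      apply mul_nonneg (by linarith)
      nlinarith) hx
  linarith

private theorem ts_term (e κ p : ℝ) (k : ℕ) :
    ‖tsA e κ ((p : ℂ) * I) k‖ = tsR e κ p (k + 1) ∧
      (tsA e κ ((p : ℂ) * I) k).re = -(tsR e κ p (k + 1) * Real.cos (tsD e κ p (k + 1))) := by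
  have hk : ((k + 1 : ℕ) : ℝ) = (k : ℝ) + 1 := by push_cast; rfl
  obtain ⟨c, hc⟩ : ∃ c, c = Real.cosh (κ * ((k : ℝ) + 1)) := ⟨_, rfl⟩
  obtain ⟨s, hs⟩ : ∃ s, s = Real.sinh (κ * ((k : ℝ) + 1)) := ⟨_, rfl⟩
  have hc0 : 0 < c := by rw [hc]; exact Real.cosh_pos _
  have hcs : c ^ 2 = s ^ 2 + 1 := by rw [hc, hs]; exact Real.cosh_sq _
  obtain ⟨z, hz⟩ : ∃ z : ℂ, z = (c : ℂ) + (p : ℂ) * I * (s : ℂ) := ⟨_, rfl⟩
  have hre : z.re = c := by rw [hz]; simp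
  have him : z.im = p * s := by rw [hz]; simp
  have hz0 : z ≠ 0 := by
    intro h
    rw [h, Complex.zero_re] at hre
    linarith
  have hN : ‖z‖ ^ 2 = tsN κ p (k + 1) := by
    rw [Complex.sq_norm, Complex.normSq_apply, hre, him]
    unfold tsN
    rw [← hs]
    nlinarith
  have hN1 := tsN_pos κ p (k + 1)
  have hnz : 0 < ‖z‖ := norm_pos_iff.2 hz0
  have hR : ‖z‖ ^ (-e) = tsR e κ p (k + 1) := by
    unfold tsR
    rw [← hN, ← Real.rpow_natCast, ← Real.rpow_mul (norm_nonneg _)]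
    congr 1
    push_cast
    ring
  have hA : tsA e κ ((p : ℂ) * I) k = (((-1 : ℝ) ^ k : ℝ) : ℂ) * z ^ (((-e : ℝ)) : ℂ) := by
    unfold tsA
    rw [hk, ← hc, ← hs, ← hz]
    push_cast
    rfl
  have harg : Complex.arg z = Real.arctan (p * Real.tanh (κ * ((k : ℝ) + 1))) := by
    have h1 := abs_lt.1 (abs_arg_lt_pi_div_two_iff.2 (Or.inl (by rw [hre]; exact hc0)))
    rw [← Real.arctan_tan h1.1 h1.2, Complex.tan_arg, hre, him, Real.tanh_eq_sinh_div_cosh, ← hc, ← hs]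
    congr 1
    ring
  constructor
  · rw [hA, norm_mul, Complex.norm_real, norm_pow, norm_neg, norm_one, one_pow, one_mul,
      norm_cpow_real, hR]
  · rw [hA, Complex.re_ofReal_mul, cpow_def_of_ne_zero hz0, Complex.exp_re]
    have h1 : (Complex.log z * ((-e : ℝ) : ℂ)).re = Real.log ‖z‖ * -e := by
      rw [Complex.re_mul_ofReal, Complex.log_re]
    have h2 : (Complex.log z * ((-e : ℝ) : ℂ)).im = -(e * Complex.arg z) := by
      rw [Complex.im_mul_ofReal, Complex.log_im]; ring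
    rw [h1, h2, ← Real.rpow_def_of_pos hnz, hR, Real.cos_neg, harg]
    unfold tsD
    rw [Real.cos_sub]
    have h3 : Real.cos (Real.pi * ((k : ℝ) + 1)) = (-1) ^ (k + 1) := by
      have := Real.cos_nat_mul_pi (k + 1)
      rw [← this]
      congr 1
      push_cast
      ring
    have h4 : Real.sin (Real.pi * ((k : ℝ) + 1)) = 0 := by
      have := Real.sin_nat_mul_pi (k + 1)
      rw [← this]
      congr 1
      push_cast
      ring
    rw [h3, h4]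
    ring

private theorem ts_delta (he : 0 < e) (hκ : 0 < κ) (hb : e * Real.sinh κ ≤ 5) {n : ℝ} (hn : 1 ≤ n) :
    0 ≤ tsD e κ (Real.pi / (e * Real.sinh κ)) n ∧
      tsD e κ (Real.pi / (e * Real.sinh κ)) n ≤
        Real.pi * tsW e κ / (3 * e) * (n ^ 3 + 9 / 25 * n) := by
  obtain ⟨K, hK⟩ : ∃ K, K = Real.sinh κ := ⟨_, rfl⟩
  have hK0 : 0 < K := by rw [hK]; exact Real.sinh_pos_iff.2 hκ
  have hκK : κ ≤ K := by rw [hK]; exact Real.self_le_sinh_iff.2 hκ.le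
  have hK6 : K - K ^ 3 / 6 ≤ κ := by rw [hK]; exact ts_sinh hκ.le
  have hpi := Real.pi_pos
  obtain ⟨p, hp⟩ : ∃ p, p = Real.pi / (e * K) := ⟨_, rfl⟩
  have hp0 : 0 < p := by rw [hp]; positivity
  have hpK : e * (p * K) = Real.pi := by rw [hp]; field_simp
  have hW : tsW e κ = e * (K ^ 2 + p ^ 2 * K ^ 2) := by
    unfold tsW
    rw [← hK, hp]
    field_simp
  obtain ⟨y, hy⟩ : ∃ y, y = κ * n := ⟨_, rfl⟩
  have hn0 : 0 < n := by linarith
  have hy0 : 0 < y := by rw [hy]; positivity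
  have hyK : y ≤ K * n := by rw [hy]; exact mul_le_mul_of_nonneg_right hκK hn0.le
  obtain ⟨T, hT⟩ : ∃ T, T = Real.tanh y := ⟨_, rfl⟩
  have hT0 : 0 ≤ T := by rw [hT]; exact ts_tanh_nonneg hy0.le
  have hT1 : T ≤ y := by rw [hT]; exact ts_tanh_le hy0.le
  have hT2 : y - y ^ 3 / 3 ≤ T := by rw [hT]; exact ts_tanh_ge hy0.le
  obtain ⟨θ, hθ⟩ : ∃ θ, θ = Real.arctan (p * T) := ⟨_, rfl⟩
  have hpT : 0 ≤ p * T := by positivity
  have hθ1 : θ ≤ p * T := by rw [hθ]; exact ts_atan_le hpT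
  have hθ2 : p * T - (p * T) ^ 3 / 3 ≤ θ := by rw [hθ]; exact ts_atan_ge hpT
  unfold tsD
  rw [← hK, ← hp, ← hy, ← hT, ← hθ]
  constructor
  · have h1 : θ ≤ p * (K * n) := hθ1.trans (mul_le_mul_of_nonneg_left (hT1.trans hyK) hp0.le)
    have h2 : e * θ ≤ e * (p * (K * n)) := mul_le_mul_of_nonneg_left h1 he.le
    have h3 : e * (p * (K * n)) = Real.pi * n := by
      rw [← hpK]; ring
    linarith
  · have h1 : (p * T) ^ 3 ≤ p ^ 3 * y ^ 3 := by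
      rw [← mul_pow]
      exact pow_le_pow_left₀ hpT (mul_le_mul_of_nonneg_left hT1 hp0.le) 3
    have h2 : p * (y - y ^ 3 / 3) ≤ p * T := mul_le_mul_of_nonneg_left hT2 hp0.le
    have h3 : p * y - (p + p ^ 3) * y ^ 3 / 3 ≤ θ := by
      have : p * y - (p + p ^ 3) * y ^ 3 / 3 = p * (y - y ^ 3 / 3) - p ^ 3 * y ^ 3 / 3 := by ring
      linarith
    have h4 : e * (p * y - (p + p ^ 3) * y ^ 3 / 3) ≤ e * θ := mul_le_mul_of_nonneg_left h3 he.le
    have h5 : y ^ 3 ≤ (K * n) ^ 3 := pow_le_pow_left₀ hy0.le hyK 3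
    have h6 : Real.pi * n - e * p * y ≤ Real.pi * n * K ^ 2 / 6 := by
      have : e * p * y = e * p * n * κ := by rw [hy]; ring
      rw [this, ← hpK]
      have h7 : e * p * n * (K - K ^ 3 / 6) ≤ e * p * n * κ :=
        mul_le_mul_of_nonneg_left hK6 (by positivity)
      have h7' : e * p * n * (K - K ^ 3 / 6) =
        e * (p * K) * n - e * (p * K) * n * K ^ 2 / 6 := by ring
      linarith
    have h8 : e * (p + p ^ 3) / 3 * y ^ 3 ≤ e * (p + p ^ 3) / 3 * (K * n) ^ 3 :=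
      mul_le_mul_of_nonneg_left h5 (by positivity)
    have h9 : e * (p + p ^ 3) / 3 * (K * n) ^ 3 = Real.pi / 3 * n ^ 3 * (K ^ 2 + p ^ 2 * K ^ 2) := by
      rw [← hpK]; ring
    have h10 : Real.pi * tsW e κ / (3 * e) * (n ^ 3 + 9 / 25 * n) =
        Real.pi / 3 * (n ^ 3 + 9 / 25 * n) * (K ^ 2 + p ^ 2 * K ^ 2) := by
      rw [hW]; field_simp
    rw [h10]
    have h11 : K ^ 2 ≤ 18 / 25 * (K ^ 2 + p ^ 2 * K ^ 2) := by
      have hb' : e * K ≤ 5 := by rw [hK]; exact hb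
      have a1 : (e * K) ^ 2 ≤ 25 := by
        have := pow_le_pow_left₀ (by positivity) hb' 2
        linarith
      have a2 : (9.8596 : ℝ) ≤ Real.pi ^ 2 := by
        have := Real.pi_gt_d2
        nlinarith
      have a3 : e ^ 2 * (p ^ 2 * K ^ 2) = Real.pi ^ 2 := by rw [← hpK]; ring
      have a4 : e ^ 2 * K ^ 2 ≤ e ^ 2 * (18 / 25 * (K ^ 2 + p ^ 2 * K ^ 2)) := by
        have : e ^ 2 * (18 / 25 * (K ^ 2 + p ^ 2 * K ^ 2)) =
          18 / 25 * ((e * K) ^ 2 + e ^ 2 * (p ^ 2 * K ^ 2)) := by ring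
        rw [this, a3]
        have b1 : e ^ 2 * K ^ 2 = (e * K) ^ 2 := by ring
        rw [b1]
        linarith
      exact le_of_mul_le_mul_left a4 (by positivity)
    have h12 : Real.pi / 6 * n * K ^ 2 ≤ Real.pi / 6 * n * (18 / 25 * (K ^ 2 + p ^ 2 * K ^ 2)) :=
      mul_le_mul_of_nonneg_left h11 (by positivity)
    have h15 : e * (p * y - (p + p ^ 3) * y ^ 3 / 3) = e * p * y - e * (p + p ^ 3) / 3 * y ^ 3 := by
      ring
    have h17 : Real.pi * n * K ^ 2 / 6 = Real.pi / 6 * n * K ^ 2 := by ring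
    rw [h15] at h4
    rw [h9] at h8
    rw [h17] at h6
    linarith

private theorem ts_six' {n : ℝ} :
    (n ^ 3 + 9 / 25 * n) ^ 2 ≤ 101 / 100 * n ^ 6 + 600 := by
  obtain ⟨x, hx⟩ : ∃ x, x = n ^ 2 := ⟨_, rfl⟩
  have hx0 : 0 ≤ x := by rw [hx]; positivity
  have h1 : (n ^ 3 + 9 / 25 * n) ^ 2 = x ^ 3 + 18 / 25 * x ^ 2 + 81 / 625 * x := by
    rw [hx]; ring
  have h2 : n ^ 6 = x ^ 3 := by rw [hx]; ring
  rw [h1, h2]
  have h3 : 0 ≤ (x - 146 / 3) ^ 2 * (x + 73 / 3) := by positivity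
  nlinarith [sq_nonneg (x - 13 / 2)]

private theorem ts_delta2 (he : 0 < e) (hκ : 0 < κ) (hb : e * Real.sinh κ ≤ 5) {n : ℝ} (hn : 1 ≤ n) :
    tsD e κ (Real.pi / (e * Real.sinh κ)) n ^ 2 / 2 ≤
        Real.pi ^ 2 * tsW e κ ^ 2 / (18 * e ^ 2) * (101 / 100 * n ^ 6 + 600) := by
  obtain ⟨h0, h1⟩ := ts_delta he hκ hb hn
  have h2 := pow_le_pow_left₀ h0 h1 2
  have h3 : (Real.pi * tsW e κ / (3 * e) * (n ^ 3 + 9 / 25 * n)) ^ 2 / 2 =
      Real.pi ^ 2 * tsW e κ ^ 2 / (18 * e ^ 2) * (n ^ 3 + 9 / 25 * n) ^ 2 := by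
    field_simp
    ring
  have h4 : Real.pi ^ 2 * tsW e κ ^ 2 / (18 * e ^ 2) * (n ^ 3 + 9 / 25 * n) ^ 2 ≤
      Real.pi ^ 2 * tsW e κ ^ 2 / (18 * e ^ 2) * (101 / 100 * n ^ 6 + 600) :=
    mul_le_mul_of_nonneg_left ts_six' (by positivity)
  linarith

private theorem ts_N_eq (he : 0 < e) (hκ : 0 < κ) (n : ℝ) :
    tsN κ (Real.pi / (e * Real.sinh κ)) n =
      1 + tsW e κ / e * (Real.sinh (κ * n) / Real.sinh κ) ^ 2 := by
  have hK0 : 0 < Real.sinh κ := Real.sinh_pos_iff.2 hκ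
  unfold tsN tsW
  field_simp

private theorem ts_W_pos (he : 0 < e) : 0 < tsW e κ := by
  have := Real.pi_pos
  unfold tsW
  positivity

private theorem ts_R_up (he : 200 ≤ e) (hκ : 0 < κ) {n : ℝ} (hn : 1 ≤ n) :
    tsR e κ (Real.pi / (e * Real.sinh κ)) n ≤ ((1 + tsd e κ ^ 2 * n ^ 2) ^ 13)⁻¹ := by
  have he0 : 0 < e := by linarith
  have hK0 : 0 < Real.sinh κ := Real.sinh_pos_iff.2 hκ
  have hW := ts_W_pos (κ := κ) he0
  obtain ⟨W, hWd⟩ : ∃ W, W = tsW e κ := ⟨_, rfl⟩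
  rw [← hWd] at hW
  have hd : tsd e κ ^ 2 = 2401 / 62500 * W * (κ / Real.sinh κ) ^ 2 := by
    unfold tsd
    rw [mul_pow, mul_pow, ← hWd, Real.sq_sqrt hW.le]
    ring
  obtain ⟨ρ, hρ⟩ : ∃ ρ, ρ = κ / Real.sinh κ := ⟨_, rfl⟩
  have hρ0 : 0 < ρ := by rw [hρ]; positivity
  rw [← hρ] at hd
  have hn0 : 0 < n := by linarith
  -- N ≥ 1 + W ρ² n² / e
  have h1 : 1 + W * ρ ^ 2 * n ^ 2 / e ≤ tsN κ (Real.pi / (e * Real.sinh κ)) n := by
    rw [ts_N_eq he0 hκ, ← hWd]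
    have h2 : κ * n ≤ Real.sinh (κ * n) := Real.self_le_sinh_iff.2 (by positivity)
    have h3 : ρ * n ≤ Real.sinh (κ * n) / Real.sinh κ := by
      rw [hρ, div_mul_eq_mul_div]
      exact div_le_div_of_nonneg_right h2 hK0.le
    have h4 : (ρ * n) ^ 2 ≤ (Real.sinh (κ * n) / Real.sinh κ) ^ 2 :=
      pow_le_pow_left₀ (by positivity) h3 2
    have h5 := mul_le_mul_of_nonneg_left h4 (by positivity : 0 ≤ W / e)
    have h6 : W / e * (ρ * n) ^ 2 = W * ρ ^ 2 * n ^ 2 / e := by ring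
    linarith
  have hy0 : 0 ≤ W * ρ ^ 2 * n ^ 2 / e := by positivity
  have hb0 : 0 < 1 + W * ρ ^ 2 * n ^ 2 / e := by linarith
  unfold tsR
  calc tsN κ (Real.pi / (e * Real.sinh κ)) n ^ (-(e / 2))
      ≤ (1 + W * ρ ^ 2 * n ^ 2 / e) ^ (-(e / 2)) :=
        Real.rpow_le_rpow_of_nonpos hb0 h1 (by linarith)
    _ = (((1 + W * ρ ^ 2 * n ^ 2 / e) ^ (e / 26)) ^ 13)⁻¹ := by
        rw [Real.rpow_neg hb0.le, ← Real.rpow_mul_natCast hb0.le]
        congr 2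
        push_cast
        ring
    _ ≤ _ := by
        have h7 : 1 + e / 26 * (W * ρ ^ 2 * n ^ 2 / e) ≤ (1 + W * ρ ^ 2 * n ^ 2 / e) ^ (e / 26) :=
          one_add_mul_self_le_rpow_one_add (by linarith) (by linarith)
        have h8 : e / 26 * (W * ρ ^ 2 * n ^ 2 / e) = 1 / 26 * (W * ρ ^ 2 * n ^ 2) := by
          field_simp
        have h9 : 1 + tsd e κ ^ 2 * n ^ 2 ≤ (1 + W * ρ ^ 2 * n ^ 2 / e) ^ (e / 26) := by
          rw [hd]
          rw [h8] at h7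
          have : 0 ≤ W * ρ ^ 2 * n ^ 2 := by positivity
          nlinarith
        apply inv_anti₀ (by positivity)
        exact pow_le_pow_left₀ (by positivity) h9 13

private theorem ts_R_low (he : 200 ≤ e) (hκ : 0 < κ) {n : ℝ} (hn : 1 ≤ n)
    (hWn : tsW e κ * n ^ 2 ≤ 8 / 5) :
    Real.exp (-(1009 / 2000 * (tsW e κ * n ^ 2))) ≤ tsR e κ (Real.pi / (e * Real.sinh κ)) n := by
  have he0 : 0 < e := by linarith
  have hK0 : 0 < Real.sinh κ := Real.sinh_pos_iff.2 hκ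
  have hκK : κ ≤ Real.sinh κ := Real.self_le_sinh_iff.2 hκ.le
  have hW := ts_W_pos (κ := κ) he0
  have hKW : Real.sinh κ ^ 2 ≤ tsW e κ / e := by
    unfold tsW
    rw [div_div, le_div_iff₀ (by positivity)]
    have := Real.pi_pos
    nlinarith [sq_nonneg Real.pi]
  obtain ⟨W, hWd⟩ : ∃ W, W = tsW e κ := ⟨_, rfl⟩
  rw [← hWd] at hW hKW hWn ⊢
  obtain ⟨K, hK⟩ : ∃ K, K = Real.sinh κ := ⟨_, rfl⟩
  rw [← hK] at hK0 hκK hKW
  have hn0 : 0 < n := by linarith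
  have hy : (κ * n) ^ 2 ≤ 1 / 125 := by
    have h1 : (κ * n) ^ 2 ≤ (K * n) ^ 2 :=
      pow_le_pow_left₀ (by positivity) (mul_le_mul_of_nonneg_right hκK hn0.le) 2
    have h2 : (K * n) ^ 2 ≤ W / e * n ^ 2 := by
      rw [mul_pow]; exact mul_le_mul_of_nonneg_right hKW (by positivity)
    have h3 : W / e * n ^ 2 = W * n ^ 2 / e := by ring
    have h4 : W * n ^ 2 / e ≤ 1 / 125 := by
      rw [div_le_iff₀ he0]
      nlinarith
    linarith
  have hs : Real.sinh (κ * n) ^ 2 ≤ (κ * n) ^ 2 * (1009 / 1000) := by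
    have hx0 : 0 ≤ κ * n := by positivity
    have h1 := ts_tanh_le hx0
    rw [Real.tanh_eq_sinh_div_cosh, div_le_iff₀ (Real.cosh_pos _)] at h1
    have h2 : Real.cosh (κ * n) ≤ Real.exp ((κ * n) ^ 2 / 2) := Real.cosh_le_exp_half_sq _
    have h3 : 0 ≤ Real.sinh (κ * n) := Real.sinh_nonneg_iff.2 hx0
    have h4 : Real.sinh (κ * n) ^ 2 ≤ (κ * n * Real.cosh (κ * n)) ^ 2 := pow_le_pow_left₀ h3 h1 2
    have h5 : Real.cosh (κ * n) ^ 2 ≤ Real.exp ((κ * n) ^ 2 / 2) ^ 2 :=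
      pow_le_pow_left₀ (Real.cosh_pos _).le h2 2
    have h6 : Real.exp ((κ * n) ^ 2 / 2) ^ 2 = Real.exp ((κ * n) ^ 2) := by
      rw [← Real.exp_nat_mul]; congr 1; push_cast; ring
    have h7 : Real.exp ((κ * n) ^ 2) ≤ 1009 / 1000 := by
      have h8 : Real.exp ((κ * n) ^ 2) ≤ Real.exp (1 / 125) := Real.exp_le_exp.2 hy
      have h9 : (1 : ℝ) - 1 / 125 ≤ Real.exp (-(1 / 125)) := by
        have := Real.add_one_le_exp (-(1 / 125 : ℝ))
        linarith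
      have h10 : Real.exp (1 / 125) * Real.exp (-(1 / 125)) = 1 := by
        rw [← Real.exp_add]; norm_num
      have h11 := Real.exp_pos (1 / 125 : ℝ)
      nlinarith
    calc Real.sinh (κ * n) ^ 2 ≤ (κ * n) ^ 2 * Real.cosh (κ * n) ^ 2 := by
          rw [← mul_pow]; exact h4
      _ ≤ (κ * n) ^ 2 * (1009 / 1000) := by
          apply mul_le_mul_of_nonneg_left _ (by positivity)
          linarith
  have hN : tsN κ (Real.pi / (e * Real.sinh κ)) n ≤ Real.exp (1009 / 1000 * (W * n ^ 2) / e) := by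
    rw [ts_N_eq he0 hκ, ← hWd, ← hK]
    have h1 : (Real.sinh (κ * n) / K) ^ 2 ≤ n ^ 2 * (1009 / 1000) := by
      rw [div_pow, div_le_iff₀ (by positivity)]
      have h2 : (κ * n) ^ 2 ≤ (K * n) ^ 2 :=
        pow_le_pow_left₀ (by positivity) (mul_le_mul_of_nonneg_right hκK hn0.le) 2
      nlinarith
    have h3 := mul_le_mul_of_nonneg_left h1 (by positivity : 0 ≤ W / e)
    have h4 : W / e * (n ^ 2 * (1009 / 1000)) = 1009 / 1000 * (W * n ^ 2) / e := by ring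
    have h5 := Real.add_one_le_exp (1009 / 1000 * (W * n ^ 2) / e)
    linarith
  unfold tsR
  have hNp := tsN_pos κ (Real.pi / (e * Real.sinh κ)) n
  have h1 : Real.exp (-(1009 / 2000 * (W * n ^ 2))) =
      Real.exp (1009 / 1000 * (W * n ^ 2) / e) ^ (-(e / 2)) := by
    rw [← Real.exp_mul]
    congr 1
    field_simp
    ring
  rw [h1]
  exact Real.rpow_le_rpow_of_nonpos (by linarith) hN (by linarith)

private theorem ts_geo {δ : ℝ} (hδ : 0 < δ) (N : ℕ) :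
    ∑ k ∈ Finset.range N, (1 + δ ^ 2 * ((k : ℝ) + 1) ^ 2)⁻¹ ≤ 2 / δ := by
  have key : ∑ k ∈ Finset.range N, (1 + δ ^ 2 * ((k : ℝ) + 1) ^ 2)⁻¹ ≤
      2 / δ * (1 - (1 + δ * N)⁻¹) := by
    induction N with
    | zero => simp
    | succ N ih =>
      rw [Finset.sum_range_succ]
      have ha : 0 < 1 + δ * (N : ℝ) := by positivity
      have hb : 0 < 1 + δ * ((N : ℝ) + 1) := by positivity
      have h1 : (1 + δ ^ 2 * ((N : ℝ) + 1) ^ 2)⁻¹ ≤
          2 / δ * ((1 + δ * N)⁻¹ - (1 + δ * ((N : ℝ) + 1))⁻¹) := by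
        have h2 : 2 / δ * ((1 + δ * (N : ℝ))⁻¹ - (1 + δ * ((N : ℝ) + 1))⁻¹) =
            2 / ((1 + δ * N) * (1 + δ * ((N : ℝ) + 1))) := by
          field_simp
          ring
        rw [h2, inv_eq_one_div, div_le_div_iff₀ (by positivity) (by positivity)]
        have h3 : (1 + δ * (N : ℝ)) * (1 + δ * ((N : ℝ) + 1)) ≤
            (1 + δ * ((N : ℝ) + 1)) * (1 + δ * ((N : ℝ) + 1)) :=
          mul_le_mul_of_nonneg_right (by nlinarith) hb.le
        nlinarith [sq_nonneg (1 - δ * ((N : ℝ) + 1))]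
      have h4 : 2 / δ * (1 - (1 + δ * ((N + 1 : ℕ) : ℝ))⁻¹) =
          2 / δ * (1 - (1 + δ * N)⁻¹) +
            2 / δ * ((1 + δ * N)⁻¹ - (1 + δ * ((N : ℝ) + 1))⁻¹) := by
        push_cast
        ring
      rw [h4]
      linarith
  refine key.trans ?_
  have h1 : 0 ≤ (1 + δ * (N : ℝ))⁻¹ := by positivity
  have h2 : 0 ≤ 2 / δ := by positivity
  nlinarith

private theorem ts_six {δ n : ℝ} (hδ : 0 < δ) (hn : 0 < n) :
    n ^ 6 * ((1 + δ ^ 2 * n ^ 2) ^ 13)⁻¹ ≤ ((256 / 27) ^ 3 * δ ^ 6)⁻¹ * (1 + δ ^ 2 * n ^ 2)⁻¹ := by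
  obtain ⟨X, hXd⟩ : ∃ X, X = δ ^ 2 * n ^ 2 := ⟨_, rfl⟩
  have hX0 : 0 < X := by rw [hXd]; positivity
  have h1 : 256 / 27 * X ≤ (1 + X) ^ 4 := by
    have h2 : (1 + X) ^ 4 - 256 / 27 * X = (3 * X - 1) ^ 2 * (3 * X ^ 2 + 14 * X + 27) / 27 := by
      ring
    have h3 : 0 ≤ (3 * X - 1) ^ 2 * (3 * X ^ 2 + 14 * X + 27) / 27 := by positivity
    linarith
  have h2 : (256 / 27 * X) ^ 3 ≤ ((1 + X) ^ 4) ^ 3 := pow_le_pow_left₀ (by positivity) h1 3
  rw [← mul_inv, ← div_eq_mul_inv, inv_eq_one_div, ← hXd,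
    div_le_div_iff₀ (by positivity) (by positivity)]
  have h3 : n ^ 6 * ((256 / 27) ^ 3 * δ ^ 6 * (1 + X)) = (256 / 27 * X) ^ 3 * (1 + X) := by
    rw [hXd]; ring
  have h4 : 1 * (1 + X) ^ 13 = ((1 + X) ^ 4) ^ 3 * (1 + X) := by
    ring
  rw [h3, h4]
  exact mul_le_mul_of_nonneg_right h2 (by positivity)

private theorem ts_sum (he : 200 ≤ e) (hκ : 0 < κ) (hb : e * Real.sinh κ ≤ 5) (N : ℕ) :
    ∑ k ∈ Finset.range N, tsR e κ (Real.pi / (e * Real.sinh κ)) (k + 1) *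
      (tsD e κ (Real.pi / (e * Real.sinh κ)) (k + 1) ^ 2 / 2) ≤
      101 / 100 * (Real.pi ^ 2 * tsW e κ ^ 2 / (9 * (256 / 27) ^ 3 * e ^ 2 * tsd e κ ^ 7)) +
        100 * Real.pi ^ 2 * tsW e κ ^ 2 / (3 * e ^ 2) *
          ∑ k ∈ Finset.range N, tsR e κ (Real.pi / (e * Real.sinh κ)) (k + 1) := by
  have he0 : 0 < e := by linarith
  have hK0 : 0 < Real.sinh κ := Real.sinh_pos_iff.2 hκ
  have hW := ts_W_pos (κ := κ) he0
  have hd : 0 < tsd e κ := by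
    unfold tsd
    have := Real.sqrt_pos.2 hW
    positivity
  have hpi := Real.pi_pos
  obtain ⟨c, hc⟩ : ∃ c, c = Real.pi ^ 2 * tsW e κ ^ 2 / (18 * e ^ 2) := ⟨_, rfl⟩
  have hc0 : 0 ≤ c := by rw [hc]; positivity
  obtain ⟨D, hD⟩ : ∃ D, D = ((256 / 27) ^ 3 * tsd e κ ^ 6)⁻¹ := ⟨_, rfl⟩
  have hD0 : 0 ≤ D := by rw [hD]; positivity
  have h1 : ∀ k : ℕ, tsR e κ (Real.pi / (e * Real.sinh κ)) (k + 1) *
      (tsD e κ (Real.pi / (e * Real.sinh κ)) (k + 1) ^ 2 / 2) ≤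
      101 / 100 * (c * D) * (1 + tsd e κ ^ 2 * ((k : ℝ) + 1) ^ 2)⁻¹ +
        600 * c * tsR e κ (Real.pi / (e * Real.sinh κ)) (k + 1) := by
    intro k
    have hn : 1 ≤ (k : ℝ) + 1 := by
      have : (0 : ℝ) ≤ k := Nat.cast_nonneg k
      linarith
    have hD2 := ts_delta2 he0 hκ hb hn
    rw [← hc] at hD2
    have hR := ts_R_up he hκ hn
    have hR0 := tsR_pos e κ (Real.pi / (e * Real.sinh κ)) (k + 1)
    have h3 := ts_six hd (by linarith : 0 < (k : ℝ) + 1)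
    rw [← hD] at h3
    have h4 : tsR e κ (Real.pi / (e * Real.sinh κ)) (k + 1) * ((k : ℝ) + 1) ^ 6 ≤
        D * (1 + tsd e κ ^ 2 * ((k : ℝ) + 1) ^ 2)⁻¹ := by
      refine le_trans ?_ h3
      rw [mul_comm]
      exact mul_le_mul_of_nonneg_left hR (by positivity)
    have h5 := mul_le_mul_of_nonneg_left hD2 hR0.le
    have h6 : tsR e κ (Real.pi / (e * Real.sinh κ)) (k + 1) *
        (c * (101 / 100 * ((k : ℝ) + 1) ^ 6 + 600)) =
        101 / 100 * c * (tsR e κ (Real.pi / (e * Real.sinh κ)) (k + 1) * ((k : ℝ) + 1) ^ 6) +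
        600 * c * tsR e κ (Real.pi / (e * Real.sinh κ)) (k + 1) := by ring
    have h7 := mul_le_mul_of_nonneg_left h4 (by positivity : 0 ≤ 101 / 100 * c)
    have h8 : 101 / 100 * c * (D * (1 + tsd e κ ^ 2 * ((k : ℝ) + 1) ^ 2)⁻¹) =
      101 / 100 * (c * D) * (1 + tsd e κ ^ 2 * ((k : ℝ) + 1) ^ 2)⁻¹ := by ring
    linarith
  refine (Finset.sum_le_sum fun k _ => h1 k).trans ?_
  rw [Finset.sum_add_distrib, ← Finset.mul_sum, ← Finset.mul_sum]
  have h2 : 600 * c = 100 * Real.pi ^ 2 * tsW e κ ^ 2 / (3 * e ^ 2) := by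
    rw [hc]; field_simp; ring
  rw [h2]
  have h3 := mul_le_mul_of_nonneg_left (ts_geo hd N) (by positivity : 0 ≤ 101 / 100 * (c * D))
  have h4 : 101 / 100 * (c * D) * (2 / tsd e κ) =
      101 / 100 * (Real.pi ^ 2 * tsW e κ ^ 2 / (9 * (256 / 27) ^ 3 * e ^ 2 * tsd e κ ^ 7)) := by
    rw [hc, hD]
    field_simp
    ring
  linarith

private theorem ts_W_le (he : 200 ≤ e) (hκ : 0 < κ) (hb : e * Real.sinh κ ≤ 5) :
    tsW e κ ≤ 7 / 40 := by
  have hK0 : 0 < Real.sinh κ := Real.sinh_pos_iff.2 hκ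
  have he0 : 0 < e := by linarith
  unfold tsW
  rw [div_le_iff₀ he0]
  have h1 : (e * Real.sinh κ) ^ 2 ≤ 5 ^ 2 := pow_le_pow_left₀ (by positivity) hb 2
  have h2 := Real.pi_lt_d4
  have h3 := Real.pi_pos
  nlinarith

private theorem ts_num (he : 200 ≤ e) (hκ : 0 < κ) (hb : e * Real.sinh κ ≤ 5) :
    101 / 100 * (Real.pi ^ 2 * tsW e κ ^ 2 / (9 * (256 / 27) ^ 3 * e ^ 2 * tsd e κ ^ 7)) ≤
      77 / 1000 / √(tsW e κ) := by
  have he0 : 0 < e := by linarith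
  have hK0 : 0 < Real.sinh κ := Real.sinh_pos_iff.2 hκ
  have hW := ts_W_pos (κ := κ) he0
  have h9 : 1970 ≤ e ^ 2 * tsW e κ := by
    have : e ^ 2 * tsW e κ = e * ((e * Real.sinh κ) ^ 2 + Real.pi ^ 2) := by
      unfold tsW
      field_simp
    rw [this]
    have a2 : (9.8596 : ℝ) ≤ Real.pi ^ 2 := by
      have := Real.pi_gt_d2
      nlinarith
    have a3 : 0 ≤ (e * Real.sinh κ) ^ 2 := by positivity
    nlinarith
  have hρ1 : 998 / 1000 ≤ κ / Real.sinh κ := by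
    rw [le_div_iff₀ hK0]
    have h1 := ts_sinh hκ.le
    have h2 : Real.sinh κ ≤ 1 / 40 := by
      by_contra hc
      push Not at hc
      nlinarith
    have h3 : Real.sinh κ ^ 3 ≤ 1 / 1600 * Real.sinh κ := by
      have : Real.sinh κ ^ 3 = Real.sinh κ ^ 2 * Real.sinh κ := by ring
      rw [this]
      exact mul_le_mul_of_nonneg_right (by nlinarith) hK0.le
    linarith
  have hδ : tsd e κ = 49 / 250 * √(tsW e κ) * (κ / Real.sinh κ) := rfl
  obtain ⟨ρ, hρ⟩ : ∃ ρ, ρ = κ / Real.sinh κ := ⟨_, rfl⟩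
  obtain ⟨s, hs⟩ : ∃ s, s = √(tsW e κ) := ⟨_, rfl⟩
  have hs0 : 0 < s := by rw [hs]; exact Real.sqrt_pos.2 hW
  have hs2 : tsW e κ = s ^ 2 := by rw [hs, Real.sq_sqrt hW.le]
  rw [← hρ] at hρ1 hδ
  rw [← hs] at hδ
  rw [← hs, hδ, hs2]
  rw [hs2] at h9
  have hρ7 : (998 / 1000 : ℝ) ^ 7 ≤ ρ ^ 7 := pow_le_pow_left₀ (by norm_num) hρ1 7
  have hρ0 : 0 < ρ := by linarith
  have hpi : Real.pi ^ 2 ≤ 9.87 := by
    have h1 := Real.pi_lt_d4
    have h2 := Real.pi_pos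
    nlinarith
  rw [← mul_div_assoc, div_div, div_le_div_iff₀ (by positivity) (by positivity)]
  have h1 : 77 * (9 * (256 / 27) ^ 3 * e ^ 2 * (49 / 250 * s * ρ) ^ 7) =
      77 * (9 * (256 / 27) ^ 3) * (49 / 250) ^ 7 * (e ^ 2 * s ^ 2 * ρ ^ 7) * s ^ 5 := by ring
  have h2 : 101 / 100 * (Real.pi ^ 2 * (s ^ 2) ^ 2) * (1000 * s) =
    1010 * Real.pi ^ 2 * s ^ 5 := by ring
  rw [h1, h2]
  apply mul_le_mul_of_nonneg_right _ (by positivity)
  have h3 : (1970 : ℝ) * (998 / 1000) ^ 7 ≤ e ^ 2 * s ^ 2 * ρ ^ 7 :=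
    mul_le_mul h9 hρ7 (by positivity) (by positivity)
  have h4 : 1010 * Real.pi ^ 2 ≤ 1010 * 9.87 := by linarith
  have h6 : (77 * (9 * (256 / 27) ^ 3) * (49 / 250) ^ 7 : ℝ) * (1970 * (998 / 1000) ^ 7) ≤
      77 * (9 * (256 / 27) ^ 3) * (49 / 250) ^ 7 * (e ^ 2 * s ^ 2 * ρ ^ 7) :=
    mul_le_mul_of_nonneg_left h3 (by norm_num)
  refine le_trans (h4.trans ?_) h6
  norm_num

private theorem ts_exp1 : (59 / 100 : ℝ) ≤ Real.exp (-(1009 / 2000)) := by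
  have h1 : (93693 / 100000 : ℝ) ≤ Real.exp (-(1009 / 16000)) := by
    have := Real.add_one_le_exp (-(1009 / 16000 : ℝ))
    linarith
  have h2 : Real.exp (-(1009 / 2000)) = Real.exp (-(1009 / 16000)) ^ 8 := by
    rw [← Real.exp_nat_mul]; norm_num
  rw [h2]
  calc (59 / 100 : ℝ) ≤ (93693 / 100000) ^ 8 := by norm_num
    _ ≤ _ := pow_le_pow_left₀ (by norm_num) h1 8

private theorem ts_P (he : 200 ≤ e) (hκ : 0 < κ) (hb : e * Real.sinh κ ≤ 5) :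
    ∃ N : ℕ, 39 / 100 / √(tsW e κ) ≤
      ∑ k ∈ Finset.range N, tsR e κ (Real.pi / (e * Real.sinh κ)) (k + 1) := by
  have he0 : 0 < e := by linarith
  have hW := ts_W_pos (κ := κ) he0
  have hW1 := ts_W_le he hκ hb
  have hs0 : 0 < √(tsW e κ) := Real.sqrt_pos.2 hW
  have hs2 : √(tsW e κ) ^ 2 = tsW e κ := Real.sq_sqrt hW.le
  obtain ⟨s, hs⟩ : ∃ s, s = √(tsW e κ) := ⟨_, rfl⟩
  rw [← hs] at hs0 hs2 ⊢
  have hs1 : s ≤ 1 / 2 := by nlinarith
  refine ⟨⌊1 / s⌋₊, ?_⟩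
  have hN1 : (⌊1 / s⌋₊ : ℝ) ≤ 1 / s := Nat.floor_le (by positivity)
  have hN2 : 1 / s < ⌊1 / s⌋₊ + 1 := Nat.lt_floor_add_one _
  have hN3 : 2 ≤ ⌊1 / s⌋₊ := by
    apply Nat.le_floor
    rw [le_div_iff₀ hs0]
    push_cast
    linarith
  have hN4 : (2 : ℝ) ≤ ⌊1 / s⌋₊ := by exact_mod_cast hN3
  have hterm : ∀ k ∈ Finset.range ⌊1 / s⌋₊, (59 / 100 : ℝ) ≤
      tsR e κ (Real.pi / (e * Real.sinh κ)) (k + 1) := by
    intro k hk
    rw [Finset.mem_range] at hk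
    have hk1 : (k : ℝ) + 1 ≤ ⌊1 / s⌋₊ := by exact_mod_cast hk
    have hk0 : (0 : ℝ) ≤ k := Nat.cast_nonneg k
    have hk2 : s * ((k : ℝ) + 1) ≤ 1 := by
      have := hk1.trans hN1
      rw [le_div_iff₀ hs0] at this
      linarith
    have hk3 : tsW e κ * ((k : ℝ) + 1) ^ 2 ≤ 1 := by
      rw [← hs2, ← mul_pow]
      exact pow_le_one₀ (by positivity) hk2
    have h1 := ts_R_low he hκ (by linarith : 1 ≤ (k : ℝ) + 1) (by linarith)
    have h2 : Real.exp (-(1009 / 2000)) ≤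
        Real.exp (-(1009 / 2000 * (tsW e κ * ((k : ℝ) + 1) ^ 2))) :=
      Real.exp_le_exp.2 (by linarith)
    linarith [ts_exp1]
  have h3 := Finset.card_nsmul_le_sum _ _ _ hterm
  rw [Finset.card_range, nsmul_eq_mul] at h3
  refine le_trans ?_ h3
  rw [div_le_iff₀ hs0]
  rw [div_lt_iff₀ hs0] at hN2
  have h4 : 2 / 3 ≤ (⌊1 / s⌋₊ : ℝ) * s := by
    by_contra hc
    push Not at hc
    nlinarith
  nlinarith

private theorem ts_mul_cpow {x y : ℂ} (hx : 0 < x.re) (hy : 0 < y.re) (c : ℂ) :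
    (x * y) ^ c = x ^ c * y ^ c := by
  have hx0 : x ≠ 0 := by
    intro h
    rw [h, zero_re] at hx
    exact lt_irrefl _ hx
  have hy0 : y ≠ 0 := by
    intro h
    rw [h, zero_re] at hy
    exact lt_irrefl _ hy
  have a1 := abs_lt.1 (abs_arg_lt_pi_div_two_iff.2 (Or.inl hx))
  have a2 := abs_lt.1 (abs_arg_lt_pi_div_two_iff.2 (Or.inl hy))
  have hl := Complex.log_mul hx0 hy0 ⟨by linarith [a1.1, a2.1], by linarith [a1.2, a2.2]⟩
  rw [cpow_def_of_ne_zero (mul_ne_zero hx0 hy0), cpow_def_of_ne_zero hx0,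
    cpow_def_of_ne_zero hy0, hl, add_mul, exp_add]

private theorem ts_base_succ {κ : ℝ} (hκ : 0 < κ) {τ : ℂ} (h : 0 ≤ τ.re) (k : ℕ) :
    (Real.cosh (κ * (k + 1 : ℕ)) : ℂ) + τ * (Real.sinh (κ * (k + 1 : ℕ)) : ℂ) =
      Qk κ τ * ((Real.cosh (κ * k) : ℂ) + shf κ τ * (Real.sinh (κ * k) : ℂ)) := by
  have hd := shf_den hκ h
  have hc : (Real.cosh κ : ℂ) ≠ 0 := ofReal_ne_zero.2 (Real.cosh_pos κ).ne'
  have hQ : Qk κ τ = (Real.cosh κ : ℂ) * (1 + (Real.tanh κ : ℂ) * τ) := by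
    unfold Qk
    rw [Real.tanh_eq_sinh_div_cosh]
    push_cast at hc ⊢
    field_simp
  have hQs : Qk κ τ * shf κ τ = (Real.cosh κ : ℂ) * τ + (Real.sinh κ : ℂ) := by
    rw [hQ]
    unfold shf
    rw [mul_assoc, mul_div_cancel₀ _ hd, Real.tanh_eq_sinh_div_cosh]
    push_cast at hc ⊢
    field_simp
  have e1 : κ * ((k + 1 : ℕ) : ℝ) = κ * k + κ := by
    push_cast
    ring
  rw [mul_add, ← mul_assoc, hQs, e1, Real.cosh_add, Real.sinh_add]
  unfold Qk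
  push_cast
  ring

private theorem ts_series (he : 0 < e) (hκ : 0 < κ) {t : ℂ} (h : 0 ≤ t.re) :
    Summable (fun k => ‖tsA e κ t k‖) ∧
      exp (-(e * log (Qk κ t))) * fT e κ (shf κ t) = ∑' k, tsA e κ t k := by
  have hQ : 0 < (Qk κ t).re := lt_of_lt_of_le (Real.cosh_pos _) (Qk_re hκ h)
  have hQ0 : Qk κ t ≠ 0 := by
    intro h0
    rw [h0, zero_re] at hQ
    exact lt_irrefl _ hQ
  have hs := shf_re hκ h
  constructor
  · have h1 : Summable (fun k : ℕ => ‖(-1 : ℂ) ^ k *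
        ((Real.cosh (κ * k) : ℂ) + t * (Real.sinh (κ * k) : ℂ)) ^ (-(e : ℂ))‖) :=
      Summable.of_nonneg_of_le (fun _ => norm_nonneg _) (fun k => norm_term_le he hκ h k)
        (summable_bound he hκ)
    have h2 := (summable_nat_add_iff 1).2 h1
    refine h2.congr (fun k => ?_)
    unfold tsA
    rw [norm_mul, norm_mul, norm_pow, norm_pow, norm_neg, norm_one, one_pow, one_pow]
  · have h1 : exp (-(e * log (Qk κ t))) = Qk κ t ^ (-(e : ℂ)) := by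
      rw [cpow_def_of_ne_zero hQ0]
      congr 1
      ring
    rw [h1]
    unfold fT
    rw [← tsum_mul_left]
    apply tsum_congr
    intro k
    unfold tsA
    have hb : 0 < ((Real.cosh (κ * k) : ℂ) + shf κ t * (Real.sinh (κ * k) : ℂ)).re :=
      lt_of_lt_of_le (Real.cosh_pos _) (re_base hκ hs.le k)
    rw [ts_base_succ hκ h k, ts_mul_cpow hQ hb]
    ring

theorem test_re2 (he : 200 ≤ e) (hκ : 0 < κ) (hb : bet e κ ≤ 5) {t0 : ℂ}
    (ht0 : t0 = ((Real.pi / (e * Real.sinh κ) : ℝ) : ℂ) * I) :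
    (exp (-(e * log (Qk κ t0))) * fT e κ (shf κ t0)).re ≤
      -(4 / 5) * ‖exp (-(e * log (Qk κ t0))) * fT e κ (shf κ t0)‖ := by
  have he0 : 0 < e := by linarith
  have hre : t0.re = 0 := by rw [ht0, re_ofReal_mul, I_re, mul_zero]
  have hb' : e * Real.sinh κ ≤ 5 := hb
  obtain ⟨hS, hH⟩ := ts_series he0 hκ (t := t0) (by rw [hre])
  rw [hH]
  obtain ⟨p, hp⟩ : ∃ p : ℝ, p = Real.pi / (e * Real.sinh κ) := ⟨_, rfl⟩
  have hn : ∀ k, ‖tsA e κ t0 k‖ = tsR e κ p (k + 1) := by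
    intro k
    rw [ht0, ← hp]
    exact (ts_term e κ p k).1
  have hr : ∀ k, (tsA e κ t0 k).re = -(tsR e κ p (k + 1) * Real.cos (tsD e κ p (k + 1))) := by
    intro k
    rw [ht0, ← hp]
    exact (ts_term e κ p k).2
  have hS' : Summable (fun k : ℕ => tsR e κ p (k + 1)) := hS.congr (fun k => hn k)
  have hnorm : ‖∑' k, tsA e κ t0 k‖ ≤ ∑' k : ℕ, tsR e κ p (k + 1) := by
    refine (norm_tsum_le_tsum_norm hS).trans ?_
    rw [tsum_congr hn]
  have hSA : Summable (tsA e κ t0) := hS.of_norm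
  have hHre : HasSum (fun k => (tsA e κ t0 k).re) (∑' k, tsA e κ t0 k).re :=
    Complex.hasSum_re hSA.hasSum
  have hlim1 := hHre.tendsto_sum_nat
  have hlim2 := hS'.hasSum.tendsto_sum_nat
  have hs0 : 0 < √(tsW e κ) := Real.sqrt_pos.2 (ts_W_pos he0)
  have hK0 : 0 < Real.sinh κ := Real.sinh_pos_iff.2 hκ
  have hc1 : 100 * Real.pi ^ 2 * tsW e κ ^ 2 / (3 * e ^ 2) ≤ 1 / 1000 := by
    have hW := ts_W_pos (κ := κ) he0
    have hW1 := ts_W_le he hκ hb'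
    rw [div_le_iff₀ (by positivity)]
    have a1 : tsW e κ ^ 2 ≤ (7 / 40) ^ 2 := pow_le_pow_left₀ hW.le hW1 2
    have a2 : Real.pi ^ 2 ≤ 9.87 := by
      have h1 := Real.pi_lt_d4
      have h2 := Real.pi_pos
      nlinarith
    have a3 : (200 : ℝ) ^ 2 ≤ e ^ 2 := pow_le_pow_left₀ (by norm_num) he 2
    have a4 : Real.pi ^ 2 * tsW e κ ^ 2 ≤ 9.87 * (7 / 40) ^ 2 :=
      mul_le_mul a2 a1 (by positivity) (by norm_num)
    norm_num at a3 a4
    linarith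
  have hfin : ∀ N : ℕ, ∑ k ∈ Finset.range N, (tsA e κ t0 k).re +
      999 / 1000 * ∑ k ∈ Finset.range N, tsR e κ p (k + 1) ≤ 77 / 1000 / √(tsW e κ) := by
    intro N
    have h1 := ts_sum he hκ hb' N
    have h0 := ts_num he hκ hb'
    rw [← hp] at h1
    have h2 : ∑ k ∈ Finset.range N, ((tsA e κ t0 k).re + tsR e κ p (k + 1)) ≤
        ∑ k ∈ Finset.range N, tsR e κ p (k + 1) * (tsD e κ p (k + 1) ^ 2 / 2) := by
      refine Finset.sum_le_sum fun k _ => ?_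
      rw [hr k]
      have h2 := Real.one_sub_sq_div_two_le_cos (x := tsD e κ p (k + 1))
      have h3 := tsR_pos e κ p (k + 1)
      nlinarith
    rw [Finset.sum_add_distrib] at h2
    have h3 : 0 ≤ ∑ k ∈ Finset.range N, tsR e κ p (k + 1) :=
      Finset.sum_nonneg fun k _ => (tsR_pos e κ p (k + 1)).le
    have h4 := mul_le_mul_of_nonneg_right hc1 h3
    linarith
  have hlim : (∑' k, tsA e κ t0 k).re + 999 / 1000 * ∑' k : ℕ, tsR e κ p (k + 1) ≤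
      77 / 1000 / √(tsW e κ) :=
    le_of_tendsto' (hlim1.add (hlim2.const_mul _)) hfin
  obtain ⟨N, hN⟩ := ts_P he hκ hb'
  rw [← hp] at hN
  have hP : ∑ k ∈ Finset.range N, tsR e κ p (k + 1) ≤ ∑' k : ℕ, tsR e κ p (k + 1) :=
    hS'.sum_le_tsum _ (fun k _ => (tsR_pos e κ p (k + 1)).le)
  have h5 : 77 / 1000 / √(tsW e κ) = (39 / 100 / √(tsW e κ)) * (77 / 390) := by ring
  rw [h5] at hlim
  have h6 : 0 ≤ 39 / 100 / √(tsW e κ) := by positivity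
  linarith

private theorem exp_two {u : ℝ} (h0 : 0 ≤ u) (h1 : u ≤ 1 / 18) :
    Real.exp u - 1 - u ≤ 53 / 100 * u ^ 2 := by
  have h := Real.exp_bound' h0 (by linarith) (n := 3) (by norm_num)
  simp only [Finset.sum_range_succ, Finset.sum_range_zero, Nat.factorial] at h
  norm_num at h
  have h2 : u ^ 3 ≤ 1 / 18 * u ^ 2 := by
    have : u ^ 3 = u * u ^ 2 := by ring
    rw [this]
    exact mul_le_mul_of_nonneg_right h1 (by positivity)
  nlinarith [sq_nonneg u]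

private theorem exp_lin {x : ℂ} {f : ℝ} (hx : ‖x‖ ≤ f) (hf : f ≤ 1 / 18) :
    ‖1 - exp (-x) - x‖ ≤ 53 / 100 * f ^ 2 := by
  have h := norm_exp_sub_sum_le_exp_norm_sub_sum (-x) 2
  simp only [Finset.sum_range_succ, Finset.sum_range_zero, Nat.factorial] at h
  norm_num at h
  have h1 : 1 - exp (-x) - x = -(exp (-x) - (1 + -x)) := by ring
  have h2 := exp_two (norm_nonneg x) (hx.trans hf)
  have h3 : ‖x‖ ^ 2 ≤ f ^ 2 := pow_le_pow_left₀ (norm_nonneg x) hx 2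
  rw [h1, norm_neg]
  have h4 : exp (-x) - (1 + -x) = cexp (-x) - (1 + -x) := rfl
  linarith

private theorem five (a b c d f : ℂ) : ‖a + b + c + d - f‖ ≤ ‖a‖ + ‖b‖ + ‖c‖ + ‖d‖ + ‖f‖ := by
  have h1 := norm_sub_le (a + b + c + d) f
  have h2 := norm_add_le (a + b + c) d
  have h3 := norm_add_le (a + b) c
  have h4 := norm_add_le a b
  linarith

private theorem ft_core {e K C h q ν v V f F2 ΔF : ℝ} {x γ D G L0 δ : ℂ} (he : 0 < e)
    (hν : v = e * ν) (hv : 0 ≤ v) (hV : V = e * (K ^ 2 + ν ^ 2)) (hVe : K ^ 2 + ν ^ 2 ≤ 1 / 100)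
    (hC1 : 1 ≤ C) (hhK : C - 1 = h * K ^ 2 / 2) (hh : h = 2 / (C + 1)) (hq0 : 0 < q)
    (hq : q ^ 2 = h) (hx : ‖x‖ ≤ f) (hf1 : f ≤ 1 / 18) (hγ : γ = exp (-x))
    (hG : G = ((h * (K ^ 2 + ν ^ 2) : ℝ) : ℂ) * γ ^ 2) (hD : D ^ 2 = 1 - G) (hDre : 0 ≤ D.re)
    (hxL : (e : ℂ) * x = L0 + δ) (hL0 : ‖(v : ℂ) / 2 + I * L0‖ ≤ F2) (hδ : ‖δ‖ ≤ ΔF) :
    e * ‖(D - (q : ℂ) * γ * ((ν : ℂ) * I)) * ((C : ℂ) + (ν : ℂ) * I) - 1‖ ≤
      v / e * (F2 + ΔF) + v * (562 / 1000 * V / e + 53 / 100 * f ^ 2 + 43 / 100 * K ^ 2) +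
      16 / 100 * V ^ 2 / e + (e * K) ^ 2 / e * (106 / 100 * f + 28 / 100 * K ^ 2) +
      v ^ 2 / e * (56 / 100 * f ^ 2 + 3 / 10 * K ^ 2) := by
  have hf0 : 0 ≤ f := (norm_nonneg _).trans hx
  obtain ⟨g, hg⟩ : ∃ g, g = K ^ 2 + ν ^ 2 := ⟨_, rfl⟩
  rw [← hg] at hV hVe hG
  have hg0 : 0 ≤ g := by rw [hg]; positivity
  have hK2 : K ^ 2 ≤ g := by rw [hg]; nlinarith [sq_nonneg ν]
  have hh0 : 0 < h := by rw [hh]; positivity
  have hh1 : h ≤ 1 := by rw [hh, div_le_one (by linarith)]; linarith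
  have hC2 : C ≤ 201 / 200 := by nlinarith
  have hCK : C - 1 ≤ K ^ 2 / 2 := by nlinarith [sq_nonneg K]
  have hq1 : q ≤ 1 := by
    by_contra hc
    push Not at hc
    nlinarith
  -- the numbers
  have h1h : 1 - h ≤ K ^ 2 / 4 := by
    have : 1 - h = (C - 1) / (C + 1) := by rw [hh]; field_simp; ring
    rw [this, div_le_iff₀ (by linarith)]
    nlinarith [sq_nonneg K]
  have hqn : |q - 1| ≤ 1 / 7 * K ^ 2 := by
    have h7 : (99 / 100 : ℝ) ≤ q := by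
      by_contra hc
      push Not at hc
      nlinarith
    rw [abs_of_nonpos (by linarith)]
    have h8 : (1 - q) * (1 + q) = 1 - h := by rw [← hq]; ring
    have h9 : 0 ≤ 1 - q := by linarith
    nlinarith
  have hqC : |1 - q * C| ≤ 4 / 10 * K ^ 2 := by
    have h7 : 1 ≤ q * C := by
      have h8 : 1 ≤ (q * C) ^ 2 := by
        rw [mul_pow, hq, hh, div_mul_eq_mul_div, le_div_iff₀ (by linarith)]
        nlinarith
      by_contra hc
      push Not at hc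
      have : 0 ≤ q * C := by positivity
      nlinarith
    rw [abs_of_nonpos (by linarith)]
    have h9 : q * C ≤ C := mul_le_of_le_one_left (by linarith) hq1
    have h10 : (q * C - 1) * (q * C + 1) = (2 * C + 1) * (C - 1) / (C + 1) := by
      have : (q * C - 1) * (q * C + 1) = q ^ 2 * C ^ 2 - 1 := by ring
      rw [this, hq, hh]
      field_simp
      ring
    have h11 : (2 * C + 1) * (C - 1) / (C + 1) ≤ 3 / 2 * (1001 / 1000) * (C - 1) := by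
      rw [div_le_iff₀ (by linarith)]
      have : 0 ≤ C - 1 := by linarith
      nlinarith
    have h12 : 0 ≤ q * C - 1 := by linarith
    nlinarith
  have hhC : |h * C - 1| ≤ 1 / 4 * K ^ 2 := by
    have h8 : h * C - 1 = (C - 1) / (C + 1) := by rw [hh]; field_simp; ring
    rw [h8, abs_of_nonneg (div_nonneg (by linarith) (by linarith)), div_le_iff₀ (by linarith)]
    nlinarith [sq_nonneg K]
  -- γ
  have hγn : ‖γ‖ ≤ 1.0572 := by
    rw [hγ, Complex.norm_exp]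
    refine (Real.exp_le_exp.2 ?_).trans (fh_exp hf1)
    refine (Complex.re_le_norm _).trans ?_
    rwa [norm_neg]
  have hγ2 : ‖γ ^ 2‖ ≤ 1.1177 := by
    rw [norm_pow]
    have : ‖γ‖ ^ 2 ≤ 1.0572 ^ 2 := pow_le_pow_left₀ (norm_nonneg _) hγn 2
    norm_num at this ⊢
    linarith
  have hγx : ‖1 - γ - x‖ ≤ 53 / 100 * f ^ 2 := by rw [hγ]; exact exp_lin hx hf1
  have hf2 : f ^ 2 ≤ 1 / 18 * f := by rw [sq]; exact mul_le_mul_of_nonneg_right hf1 hf0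
  have hγ1 : ‖1 - γ‖ ≤ 10295 / 10000 * f := by
    have : 1 - γ = (1 - γ - x) + x := by ring
    rw [this]
    refine (norm_add_le _ _).trans ?_
    linarith
  have hγp : ‖1 + γ‖ ≤ 20572 / 10000 := by
    have : 1 + γ = 2 - (1 - γ) := by ring
    rw [this]
    refine (norm_sub_le _ _).trans ?_
    rw [Complex.norm_ofNat]
    linarith
  have hγγ : ‖1 - γ ^ 2‖ ≤ 2118 / 1000 * f := by
    have : 1 - γ ^ 2 = (1 - γ) * (1 + γ) := by ring
    rw [this, norm_mul]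
    calc ‖1 - γ‖ * ‖1 + γ‖ ≤ (10295 / 10000 * f) * (20572 / 10000) :=
          mul_le_mul hγ1 hγp (norm_nonneg _) (by positivity)
      _ ≤ _ := by linarith
  -- G, D
  have hGn : ‖G‖ ≤ 1.1177 * g := by
    rw [hG, norm_mul, Complex.norm_real, Real.norm_of_nonneg (by positivity)]
    calc h * g * ‖γ ^ 2‖ ≤ 1 * g * 1.1177 := by gcongr
      _ = _ := by ring
  have hDn := (fh_D hD hDre hGn (by norm_num; linarith)).2
  have hD1 : 1.9943 ≤ ‖D + 1‖ := by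
    have : (2 : ℂ) = (D + 1) - (D - 1) := by ring
    have h6 : ‖(2 : ℂ)‖ ≤ ‖D + 1‖ + ‖D - 1‖ := by
      rw [this]; exact norm_sub_le _ _
    rw [Complex.norm_ofNat] at h6
    norm_num at hDn ⊢
    linarith
  have hDD : (D - 1) * (D + 1) = -G := by linear_combination hD
  have hDne : D + 1 ≠ 0 := by
    intro h0
    rw [h0, norm_zero] at hD1
    norm_num at hD1
  have hD2 : ‖D - 1‖ ≤ 5605 / 10000 * g := by
    have h7 : ‖D - 1‖ * ‖D + 1‖ = ‖G‖ := by rw [← norm_mul, hDD, norm_neg]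
    have h8 : ‖D - 1‖ * 1.9943 ≤ 1.1177 * g := by
      rw [← h7] at hGn
      refine le_trans ?_ hGn
      exact mul_le_mul_of_nonneg_left hD1 (norm_nonneg _)
    norm_num at h8
    linarith
  obtain ⟨δ1, hδ1⟩ : ∃ δ1, δ1 = 1 - G / 2 - D := ⟨_, rfl⟩
  have hδn : ‖δ1‖ ≤ 1571 / 10000 * g ^ 2 := by
    have h7 : δ1 * (2 * (D + 1) ^ 2) = G ^ 2 := by
      have : G = -((D - 1) * (D + 1)) := by rw [hDD, neg_neg]
      rw [hδ1, this]
      ring
    have h8 : ‖δ1‖ * (2 * ‖D + 1‖ ^ 2) = ‖G‖ ^ 2 := by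
      rw [← norm_pow G, ← h7, norm_mul, norm_mul, norm_pow, Complex.norm_ofNat]
    have h9 : ‖δ1‖ * (2 * 1.9943 ^ 2) ≤ (1.1177 * g) ^ 2 := by
      calc ‖δ1‖ * (2 * 1.9943 ^ 2) ≤ ‖δ1‖ * (2 * ‖D + 1‖ ^ 2) := by gcongr
        _ = ‖G‖ ^ 2 := h8
        _ ≤ _ := pow_le_pow_left₀ (norm_nonneg _) hGn 2
    norm_num [mul_pow] at h9
    linarith [sq_nonneg g]
  -- the decomposition
  have heC : (e : ℂ) ≠ 0 := by exact_mod_cast he.ne'
  have key : (e : ℂ) * ((D - (q : ℂ) * γ * ((ν : ℂ) * I)) * ((C : ℂ) + (ν : ℂ) * I) - 1) =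
      ((v / e : ℝ) : ℂ) * (((v : ℂ) / 2 + I * L0) + I * δ) +
      (v : ℂ) * (I * ((D - 1) + (1 - γ - x) + ((1 - q * C : ℝ) : ℂ) * γ)) +
      ((e * K ^ 2 : ℝ) : ℂ) * (((h / 2 : ℝ) : ℂ) * ((1 - γ ^ 2) - ((C - 1 : ℝ) : ℂ) * γ ^ 2)) +
      ((v ^ 2 / e : ℝ) : ℂ) * (-((1 - γ) ^ 2 / 2) + ((q - 1 : ℝ) : ℂ) * γ -
        ((h * C - 1 : ℝ) : ℂ) * γ ^ 2 / 2) - (e : ℂ) * ((C : ℂ) * δ1) := by
    have hν' : (v : ℂ) = e * ν := by rw [hν]; push_cast; ring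
    have h7 : ((v / e : ℝ) : ℂ) = (ν : ℂ) := by rw [hν]; push_cast; field_simp
    have h8 : ((v ^ 2 / e : ℝ) : ℂ) = (e : ℂ) * (ν : ℂ) ^ 2 := by
      rw [hν]; push_cast; field_simp
    have hhKc : (C : ℂ) - 1 = h * K ^ 2 / 2 := by
      have := congrArg (fun z : ℝ => (z : ℂ)) hhK
      push_cast at this
      exact this
    have hGc : G = (h : ℂ) * ((K : ℂ) ^ 2 + (ν : ℂ) ^ 2) * γ ^ 2 := by
      rw [hG, hg]; push_cast; ring
    rw [h7, h8, hν', hδ1, hGc]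
    push_cast
    linear_combination (-(e : ℂ) * q * γ * ν ^ 2) * I_sq + (ν : ℂ) * I * hxL + (e : ℂ) * hhKc
  have hn : e * ‖(D - (q : ℂ) * γ * ((ν : ℂ) * I)) * ((C : ℂ) + (ν : ℂ) * I) - 1‖ =
      ‖(e : ℂ) * ((D - (q : ℂ) * γ * ((ν : ℂ) * I)) * ((C : ℂ) + (ν : ℂ) * I) - 1)‖ := by
    rw [norm_mul (e : ℂ), Complex.norm_real, Real.norm_of_nonneg he.le]
  rw [hn, key]
  have t1 : ‖((v / e : ℝ) : ℂ) * (((v : ℂ) / 2 + I * L0) + I * δ)‖ ≤ v / e * (F2 + ΔF) := by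
    rw [norm_mul, Complex.norm_real, Real.norm_of_nonneg (by positivity)]
    apply mul_le_mul_of_nonneg_left _ (by positivity)
    refine (norm_add_le _ _).trans ?_
    rw [norm_mul I δ, Complex.norm_I, one_mul]
    linarith
  have t2 : ‖(v : ℂ) * (I * ((D - 1) + (1 - γ - x) + ((1 - q * C : ℝ) : ℂ) * γ))‖ ≤
      v * (562 / 1000 * V / e + 53 / 100 * f ^ 2 + 43 / 100 * K ^ 2) := by
    rw [norm_mul, norm_mul, Complex.norm_I, one_mul, Complex.norm_real, Real.norm_of_nonneg hv]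
    apply mul_le_mul_of_nonneg_left _ hv
    refine (norm_add₃_le).trans ?_
    have h7 : ‖((1 - q * C : ℝ) : ℂ) * γ‖ ≤ 43 / 100 * K ^ 2 := by
      rw [norm_mul, Complex.norm_real, Real.norm_eq_abs]
      calc |1 - q * C| * ‖γ‖ ≤ (4 / 10 * K ^ 2) * 1.0572 :=
            mul_le_mul hqC hγn (norm_nonneg _) (by positivity)
        _ ≤ _ := by linarith [sq_nonneg K]
    have h8 : 562 / 1000 * V / e = 562 / 1000 * g := by rw [hV]; field_simp
    rw [h8]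
    linarith
  have t3 : ‖((e * K ^ 2 : ℝ) : ℂ) * (((h / 2 : ℝ) : ℂ) * ((1 - γ ^ 2) -
      ((C - 1 : ℝ) : ℂ) * γ ^ 2))‖ ≤ (e * K) ^ 2 / e * (106 / 100 * f + 28 / 100 * K ^ 2) := by
    rw [norm_mul, norm_mul, Complex.norm_real, Complex.norm_real,
      Real.norm_of_nonneg (by positivity), Real.norm_of_nonneg (by positivity)]
    have h7 : (e * K) ^ 2 / e = e * K ^ 2 := by field_simp
    rw [h7]
    apply mul_le_mul_of_nonneg_left _ (by positivity)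
    have h8 : ‖(1 - γ ^ 2) - ((C - 1 : ℝ) : ℂ) * γ ^ 2‖ ≤
        2118 / 1000 * f + K ^ 2 / 2 * 1.1177 := by
      refine (norm_sub_le _ _).trans ?_
      rw [norm_mul, Complex.norm_real, Real.norm_of_nonneg (by linarith)]
      have : (C - 1) * ‖γ ^ 2‖ ≤ K ^ 2 / 2 * 1.1177 :=
        mul_le_mul hCK hγ2 (norm_nonneg _) (by positivity)
      linarith
    calc h / 2 * ‖(1 - γ ^ 2) - ((C - 1 : ℝ) : ℂ) * γ ^ 2‖ ≤
          1 / 2 * (2118 / 1000 * f + K ^ 2 / 2 * 1.1177) := by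
          apply mul_le_mul (by linarith) h8 (norm_nonneg _) (by norm_num)
      _ ≤ _ := by linarith [sq_nonneg K]
  have t4 : ‖((v ^ 2 / e : ℝ) : ℂ) * (-((1 - γ) ^ 2 / 2) + ((q - 1 : ℝ) : ℂ) * γ -
        ((h * C - 1 : ℝ) : ℂ) * γ ^ 2 / 2)‖ ≤
      v ^ 2 / e * (56 / 100 * f ^ 2 + 3 / 10 * K ^ 2) := by
    rw [norm_mul, Complex.norm_real, Real.norm_of_nonneg (by positivity)]
    apply mul_le_mul_of_nonneg_left _ (by positivity)
    refine (norm_sub_le _ _).trans ?_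
    have h7 := norm_add_le (-((1 - γ) ^ 2 / 2)) (((q - 1 : ℝ) : ℂ) * γ)
    have h8 : ‖-((1 - γ) ^ 2 / 2)‖ ≤ 53 / 100 * f ^ 2 := by
      rw [norm_neg, norm_div, norm_pow, Complex.norm_ofNat]
      have h9 : ‖1 - γ‖ ^ 2 ≤ (10295 / 10000 * f) ^ 2 := pow_le_pow_left₀ (norm_nonneg _) hγ1 2
      have h10 := sq_nonneg f
      rw [mul_pow] at h9
      norm_num at h9 ⊢
      linarith
    have h9 : ‖((q - 1 : ℝ) : ℂ) * γ‖ ≤ 1 / 7 * K ^ 2 * 1.0572 := by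
      rw [norm_mul, Complex.norm_real, Real.norm_eq_abs]
      exact mul_le_mul hqn hγn (norm_nonneg _) (by positivity)
    have h10 : ‖((h * C - 1 : ℝ) : ℂ) * γ ^ 2 / 2‖ ≤ 1 / 4 * K ^ 2 * 1.1177 / 2 := by
      rw [norm_div, norm_mul, Complex.norm_real, Real.norm_eq_abs, Complex.norm_ofNat]
      apply div_le_div_of_nonneg_right _ (by norm_num)
      exact mul_le_mul hhC hγ2 (norm_nonneg _) (by positivity)
    linarith [sq_nonneg K, sq_nonneg f]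
  have t5 : ‖(e : ℂ) * ((C : ℂ) * δ1)‖ ≤ 16 / 100 * V ^ 2 / e := by
    rw [norm_mul, norm_mul, Complex.norm_real, Complex.norm_real, Real.norm_of_nonneg he.le,
      Real.norm_of_nonneg (by linarith)]
    have h7 : 16 / 100 * V ^ 2 / e = e * (16 / 100 * g ^ 2) := by rw [hV]; field_simp
    rw [h7]
    apply mul_le_mul_of_nonneg_left _ he.le
    have h9 := sq_nonneg g
    calc C * ‖δ1‖ ≤ 201 / 200 * (1571 / 10000 * g ^ 2) :=
          mul_le_mul hC2 hδn (norm_nonneg _) (by norm_num)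
      _ ≤ _ := by linarith
  refine (five _ _ _ _ _).trans ?_
  linarith

private theorem log_small {ξ : ℂ} (h : ‖ξ‖ ≤ 1 / 100) : ‖log (1 + ξ)‖ ≤ 101 / 100 * ‖ξ‖ := by
  have h0 := norm_nonneg ξ
  have h1 := Complex.norm_log_one_add_le (z := ξ) (by linarith)
  have h2 : (1 - ‖ξ‖)⁻¹ ≤ 100 / 99 := by
    rw [inv_le_comm₀ (by linarith) (by norm_num)]
    norm_num
    linarith
  have h3 : ‖ξ‖ ^ 2 * (1 - ‖ξ‖)⁻¹ / 2 ≤ 1 / 100 * ‖ξ‖ := by
    have h4 : ‖ξ‖ ^ 2 ≤ 1 / 100 * ‖ξ‖ := by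
      rw [sq]; exact mul_le_mul_of_nonneg_right h h0
    have h5 : ‖ξ‖ ^ 2 * (1 - ‖ξ‖)⁻¹ ≤ (1 / 100 * ‖ξ‖) * (100 / 99) :=
      mul_le_mul h4 h2 (inv_nonneg.2 (by linarith)) (by positivity)
    linarith
  linarith

/-- `test_neg` of `EQB/FirstT.lean` with `test_re2` -/
theorem test_neg2 {p c χ : ℂ} {a F F2 ft ΔF f tn : ℝ} (H : FH e κ Real.pi a c χ)
    (hb : bet e κ ≤ 5)
    (hT : tanh (κ * p) = t00 e κ Real.pi)
    (h0 : (EQB.LF e κ (shf κ (t00 e κ Real.pi)) 0).re ≤ F)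
    (h1 : 0 ≤ (EQB.LF e κ (shf κ (t00 e κ Real.pi)) 0).re)
    (h2 : 0 ≤ (EQB.LF e κ (shf κ (t00 e κ Real.pi)) 0).im)
    (h3 : (EQB.LF e κ (shf κ (t00 e κ Real.pi)) 0).im ≤ Real.pi)
    (h4 : ‖EQB.LF e κ (shf κ (t00 e κ Real.pi)) 0‖ ≤ ft)
    (h5 : ‖EQB.LF e κ c χ - EQB.LF e κ (shf κ (t00 e κ Real.pi)) 0‖ ≤ ΔF)
    (N : EQB.TN e (Real.sinh κ) (Vv e κ Real.pi) F F2 ft ΔF f tn) :
    (H0 e κ p (Fc e κ c χ)).re < 0 := by
  have he := H.he
  have he0 : 0 < e := by linarith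
  have hκ := H.hκ
  have hπ := Real.pi_pos
  have hK0 : 0 < Real.sinh κ := Real.sinh_pos_iff.2 hκ
  have hβ : 0 < bet e κ := mul_pos he0 hK0
  have heC : (e : ℂ) ≠ 0 := by exact_mod_cast he0.ne'
  obtain ⟨-, hh0, hh1, -, -, -, hcK⟩ := hh_facts hκ
  obtain ⟨g1, -⟩ := s0_pos (v := Real.pi) he0 hκ hπ.le
  obtain ⟨t, ht⟩ : ∃ t, t = t00 e κ Real.pi := ⟨_, rfl⟩
  obtain ⟨s, hs⟩ : ∃ s, s = shf κ (t00 e κ Real.pi) := ⟨_, rfl⟩
  rw [← hs] at g1 h0 h1 h2 h3 h4 h5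
  have hft0 : 0 ≤ ft := (norm_nonneg _).trans h4
  have hΔ0 : 0 ≤ ΔF := (norm_nonneg _).trans h5
  -- V
  have hVe : Vv e κ Real.pi / e = Real.sinh κ ^ 2 + (Real.pi / e) ^ 2 := by
    unfold Vv bet
    field_simp
  have hV : Vv e κ Real.pi = e * (Real.sinh κ ^ 2 + (Real.pi / e) ^ 2) := by
    rw [← hVe]; field_simp
  have hV1 : Real.sinh κ ^ 2 + (Real.pi / e) ^ 2 ≤ 1 / 100 := by
    rw [← hVe, div_le_iff₀ he0]
    linarith [H.V1]
  have hγn : ‖ga e κ c χ‖ ≤ 1.0572 := fh_norm he0 H.hF H.a1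
  have hGn : ‖GG e κ Real.pi c χ‖ ≤ 0.0112 := by
    unfold GG
    rw [norm_mul, norm_pow, Complex.norm_real, Real.norm_of_nonneg (by rw [hVe]; positivity), hVe]
    have h6 : ‖ga e κ c χ‖ ^ 2 ≤ 1.0572 ^ 2 := pow_le_pow_left₀ (norm_nonneg _) hγn 2
    calc hh κ * (Real.sinh κ ^ 2 + (Real.pi / e) ^ 2) * ‖ga e κ c χ‖ ^ 2 ≤
          1 * (1 / 100) * 1.0572 ^ 2 := by gcongr
      _ ≤ _ := by norm_num
  have hG1 : ‖GG e κ Real.pi c χ‖ < 1 := by
    refine lt_of_le_of_lt hGn (by norm_num)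
  have hT' : tanh (κ * p) = ((Real.pi / bet e κ : ℝ) : ℂ) * I := hT
  obtain ⟨-, -, hrad, -⟩ := first_alg he0 hκ H.hs H.hχ hT' hG1
  have hGne : 1 - GG e κ Real.pi c χ ≠ 0 := by
    intro h6
    have h7 : GG e κ Real.pi c χ = 1 := by linear_combination -h6
    rw [h7, norm_one] at hG1
    exact lt_irrefl _ hG1
  have hD : DD e κ Real.pi c χ ^ 2 = 1 - GG e κ Real.pi c χ := fh_sq hGne
  have hDre : 0 ≤ (DD e κ Real.pi c χ).re := fh_re hGne
  have hD1 := (fh_D hD hDre hGn le_rfl).2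
  -- N
  obtain ⟨n, hn⟩ : ∃ n, n = DD e κ Real.pi c χ -
      ((√(hh κ) : ℝ) : ℂ) * ga e κ c χ * (((Real.pi / e : ℝ) : ℂ) * I) := ⟨_, rfl⟩
  rw [← hn] at hrad
  have hq1 : √(hh κ) ≤ 1 := Real.sqrt_le_one.2 hh1
  have hnre : 0 < n.re := by
    have h6 : ‖((√(hh κ) : ℝ) : ℂ) * ga e κ c χ * (((Real.pi / e : ℝ) : ℂ) * I)‖ ≤
        1 * 1.0572 * (1 / 60) := by
      rw [norm_mul, norm_mul, norm_mul, Complex.norm_I, mul_one, Complex.norm_real,
        Complex.norm_real, Real.norm_of_nonneg (Real.sqrt_nonneg _),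
        Real.norm_of_nonneg (by positivity)]
      have h7 : Real.pi / e ≤ 1 / 60 := by
        rw [div_le_iff₀ he0]
        linarith [H.v1]
      gcongr
    have h7 : n = 1 + (DD e κ Real.pi c χ - 1) -
      ((√(hh κ) : ℝ) : ℂ) * ga e κ c χ * (((Real.pi / e : ℝ) : ℂ) * I) := by rw [hn]; ring
    have h8 := (abs_le.1 (Complex.abs_re_le_norm (DD e κ Real.pi c χ - 1))).1
    have h10 := (abs_le.1 (Complex.abs_re_le_norm
      (((√(hh κ) : ℝ) : ℂ) * ga e κ c χ * (((Real.pi / e : ℝ) : ℂ) * I)))).2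
    rw [h7, sub_re, add_re, one_re]
    have h11 := h6.trans (by norm_num : (1 : ℝ) * 1.0572 * (1 / 60) ≤ 1 / 50)
    have h12 := hD1.trans (by norm_num : (0.0057 : ℝ) ≤ 1 / 100)
    linarith
  -- Q0
  have hQ0 : Qk κ t = (Real.cosh κ : ℂ) + ((Real.pi / e : ℝ) : ℂ) * I := by
    unfold Qk
    rw [ht]
    unfold t00
    have h6 : (Real.sinh κ : ℂ) * (((Real.pi / bet e κ : ℝ) : ℂ) * I) =
        ((Real.sinh κ * (Real.pi / bet e κ) : ℝ) : ℂ) * I := by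
      rw [ofReal_mul]; ring
    have h7 : Real.sinh κ * (Real.pi / bet e κ) = Real.pi / e := by
      unfold bet; field_simp
    rw [h6, h7]
  have hQre : 0 < (Qk κ t).re := by
    rw [hQ0, add_re, ofReal_re, re_ofReal_mul, I_re, mul_zero, add_zero]
    exact Real.cosh_pos κ
  have hlog : log (n * Qk κ t) = log n + log (Qk κ t) := log_mul_re hnre hQre
  have hn0 : n ≠ 0 := by intro h6; rw [h6] at hnre; simp at hnre
  -- values
  have hf0 : fT e κ s ≠ 0 := fT_ne he0 hκ g1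
  have hL0 : exp (EQB.LF e κ s 0 - (EQB.LA e κ : ℂ)) = fT e κ s := by
    unfold EQB.LF
    rw [mul_zero, add_zero, log_one, add_zero, add_sub_cancel_left, exp_log hf0]
  have hLc : exp (EQB.LF e κ c χ - (EQB.LA e κ : ℂ)) = Fc e κ c χ := by
    have h6 := node_F he0 hκ H.hs H.hχ
    have h7 : 1 + qq e κ c * χ ≠ 0 := by
      intro h8
      rw [h8] at h6
      simp at h6
    unfold EQB.LF Fc
    rw [add_sub_cancel_left, exp_add, exp_log (fT_ne he0 hκ H.hs), exp_log h7]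
  have hpow : radH e κ p (Fc e κ c χ) ^ ((e / 2 : ℝ) : ℂ) = exp (e * log n) := by
    rw [hrad, cpow_def_of_ne_zero (pow_ne_zero 2 hn0), sq, log_mul_re hnre hnre]
    congr 1
    push_cast
    ring
  obtain ⟨w, hw⟩ : ∃ w, w = exp (-(e * log (Qk κ t))) * fT e κ s := ⟨_, rfl⟩
  have hw0 : w ≠ 0 := by rw [hw]; exact mul_ne_zero (exp_ne_zero _) hf0
  obtain ⟨δ, hδ⟩ : ∃ δ, δ = EQB.LF e κ c χ - EQB.LF e κ s 0 := ⟨_, rfl⟩
  have hH : H0 e κ p (Fc e κ c χ) = w * exp (δ + e * log (n * Qk κ t)) := by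
    unfold H0
    rw [hpow, ← hLc, hw, ← hL0, hδ, hlog, ← exp_add, ← exp_add, ← exp_add]
    congr 1
    ring
  have htest := test_re2 he hκ hb (t0 := t) (by rw [ht]; rfl)
  have hst : shf κ t = s := by rw [hs, ht]
  rw [hst, ← hw] at htest
  rw [hH]
  refine rot_neg hw0 htest ?_
  -- the bound
  obtain ⟨ξ, hξ⟩ : ∃ ξ, ξ = n * Qk κ t - 1 := ⟨_, rfl⟩
  have hF2 : ‖(Real.pi : ℂ) / 2 + I * EQB.LF e κ s 0‖ ≤ F2 := by
    rw [← sq_le_sq₀ (norm_nonneg _) N.F20, ← Complex.normSq_eq_norm_sq, Complex.normSq_apply]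
    have r1 : ((Real.pi : ℂ) / 2 + I * EQB.LF e κ s 0).re = Real.pi / 2 - (EQB.LF e κ s 0).im := by
      rw [add_re, I_mul_re, Complex.div_ofNat_re, ofReal_re]
      ring
    have r2 : ((Real.pi : ℂ) / 2 + I * EQB.LF e κ s 0).im = (EQB.LF e κ s 0).re := by
      rw [add_im, I_mul_im, Complex.div_ofNat_im, ofReal_im]
      ring
    rw [r1, r2]
    have h6 := N.hF2
    have h7 : (EQB.LF e κ s 0).re * (EQB.LF e κ s 0).re ≤ F ^ 2 := by
      rw [← sq]; exact pow_le_pow_left₀ h1 h0 2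
    nlinarith [mul_nonneg h2 (sub_nonneg.2 h3)]
  have hx : ‖EQB.LF e κ c χ / e‖ ≤ f := by
    rw [norm_div, Complex.norm_real, Real.norm_of_nonneg he0.le, div_le_iff₀ he0]
    refine le_trans ?_ N.hf
    have : EQB.LF e κ c χ = EQB.LF e κ s 0 + (EQB.LF e κ c χ - EQB.LF e κ s 0) := by ring
    rw [this]
    exact (norm_add_le _ _).trans (add_le_add h4 h5)
  have hcore := ft_core (e := e) (K := Real.sinh κ) (C := Real.cosh κ) (h := hh κ)
    (q := √(hh κ)) (ν := Real.pi / e) (v := Real.pi) (V := Vv e κ Real.pi) (f := f) (F2 := F2)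
    (ΔF := ΔF) (x := EQB.LF e κ c χ / e) (γ := ga e κ c χ) (D := DD e κ Real.pi c χ)
    (G := GG e κ Real.pi c χ) (L0 := EQB.LF e κ s 0) (δ := δ) he0 (by field_simp) hπ.le hV hV1
    (Real.one_le_cosh κ) hcK rfl (Real.sqrt_pos.2 hh0) (Real.sq_sqrt hh0.le) hx N.f1 rfl
    (by unfold GG; rw [hVe]) hD hDre (by rw [hδ, mul_div_cancel₀ _ heC]; ring) hF2
    (by rw [hδ]; exact h5)
  rw [← hn, ← hQ0, ← hξ] at hcore
  have htn := N.htn
  have h99 := N.h9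
  have hξe : e * ‖ξ‖ ≤ 100 / 101 * tn := by linarith
  have hξ1 : ‖ξ‖ ≤ 1 / 100 := by
    have h6 : 200 * ‖ξ‖ ≤ e * ‖ξ‖ := mul_le_mul_of_nonneg_right he (norm_nonneg _)
    linarith
  have hl := log_small hξ1
  have hnQ : n * Qk κ t = 1 + ξ := by rw [hξ]; ring
  rw [hnQ]
  refine (norm_add_le _ _).trans ?_
  rw [norm_mul, Complex.norm_real, Real.norm_of_nonneg he0.le]
  have h6 : e * ‖log (1 + ξ)‖ ≤ e * (101 / 100 * ‖ξ‖) := mul_le_mul_of_nonneg_left hl he0.le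
  have h7 : ‖δ‖ ≤ ΔF := by rw [hδ]; exact h5
  linarith

end Pool.Agent.helper31.A2
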