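import Pool.Agent.helper31.A2.FirstG
import Pool.Agent.helper31.A2.QqSeg
import Pool.Agent.helper31.A2.LfG
import Pool.Agent.helper31.A2.PXr
import Pool.Agent.helper31.A2.RowD
import Pool.Agent.helper31.A2.TestS2

/-!
# A2 programs: named values

Generated. Every structure lists the named values of a straight line number program, their defining equations `e_x` and
the assertions `p_x`; the numeric constants are fields of the bundles `c` (node), `r` (row of the table), `m` (constants for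
`|y| ≤ 33/32`).  Meaning (`K = sinh κ`, `β = e K`, `200 ≤ e ≤ 500`, `β ≤ 5`): `se = 1/√e`, `ie = 1/e`.
* link: `S = β² + y²` at `shf τ`, `s = √S`, `k = β/s`, `y2 = y²`; `X = XS s`, `lsp = lspS s`, `zb = zbS s`, `E = Q W`,
  `Qw = E/s`, `W = S/e`, `w = √W`; `RH` of `LG` is `c.RH W`, `rh = c.RW W`, `rl = c.L1 W`, `Dm2 = D2 S`, `Vs = W V1`,
  `Moie = Mo/e`, `wMo = w Mo`, `Mnie = M1/e`, `EM = E (1 + M1)`, `EMs = EM/s`, `yb = β²/e + 2 |y|`, `yb1 = β²/e + 2 (|y| + E)`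
  (upper bounds), `c2 = 79/80 - 2 E/s` (lower factor of `S/e` at the next node), `rn` the lower bound of `r` at `shf τ'`.
* first node: `R = √(β²+v²)`, `kc = β/R`, `vs = v/R`, `V = w²`, `GrS = se Gr`, `GtS = se √(Gr²+v²)`, `G2S = se √(Gr²+v²/4)`,
  `err = V er`, `dz = dzS w = dzR R`, `r1 = r1V V`, `r2 = r2V V`, `yc = ycR R`, `S0l = (R sR0)²`, `Sl = R² m2`, `√Sl = R m`,
  `E = EQ V`, `E/√Sl = Qw`, `E/R = ER`, `RH` of `FG` is `c.RH V`, `vDG = v ΔG/R²`, `lv`, `rn` lower bounds of `r`.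
-/

namespace Pool.Agent.helper31.A2

/-- constants of a link -/
structure CL where
  (RW L1 Ld ex0 RH RHq a La1 dq a1 tha Yd : ℝ)

/-- a row: for `|y| ≤ ys`, `wa < w ≤ wb`: `M ≤ o/w + p0` (`o √(80/79) ≤ o0`), `M ≤ o1/w + p1` (next family) -/
structure CR where
  (ys wa wb o0 p0 o1 p1 : ℝ)

/-- constants of the links for `|y| ≤ 33/32` -/
structure CM where
  (Mo M1 ys2 yE1 yE2 Yc : ℝ)

/-- constants of the first node -/
structure CF where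
  (cD RH RH1 RHq x0 xa xb Lam0 Y0 exK a0 tha aS lc0 lc1 : ℝ)

/-- constants of the first node for `v ≤ 33/32` -/
structure CN where
  (Ma Mb M1 ys : ℝ)

/-- link -/
structure PL (c : CL) (se be s k y2 wMo Moie yb ielf Mnie EM EMs yb1 : ℝ) where
  (ie k2 w W wse Wie bie cK R2 V1 rl q2 u ls D2 DP : ℝ)
  (XS X iX G n1 lspS lsp uX ielfp zbS zb fac Q E Qw c2 : ℝ)
  (s2 rn q3 u1 i2 eta t1 : ℝ)
  e_ie : ie = se * se
  e_k2 : k2 = k * k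
  e_w : w = se * s
  e_W : W = w * w
  e_wse : wse = w * se
  e_Wie : Wie = W * ie
  e_bie : bie = be * ie
  e_cK : cK = (1223339 / 1048576) * (bie * bie) + 32 * (ie * ie)
  e_R2 : R2 = c.RW * (c.RW * Wie)
  e_V1 : V1 = R2 + 1
  e_rl : rl = c.L1 * W
  e_q2 : q2 = 1 - cK - yb * Moie - (3 * ie + 2 * Moie) * rl
  e_u : u = Real.exp (-(q2 * rl))
  e_ls : ls = w * V1 * wMo
  e_D2 : D2 = V1 - 2 * (c.L1 * (k * wse))
  e_DP : DP = 1 + (1 / 2) * (R2 + 2 * (c.RW * (k * wse)))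
  e_XS : XS = 4 * (c.a * (DP * (be + 4)⁻¹))
  e_X : X = XS * s
  e_iX : iX = (1 - X)⁻¹
  e_G : G = 2 - (1 / 4) * y2 + (2731 / 524288) * (y2 * y2) + (859 / 1048576) * ((1 / 4) * y2 * ((1 / 4) * y2) * ((1 / 4) * y2) * ((1 / 4) * y2 * ((1 / 4) * y2) * ((1 / 4) * y2)))
  e_n1 : n1 = G + c.RW * W + Real.exp (ls + (314573 / 524288) * (W * V1)) - 1
  e_lspS : lspS = se * V1 * wMo + n1 * (XS * iX)
  e_lsp : lsp = lspS * s
  e_uX : uX = u * X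
  e_ielfp : ielfp = ielf + ie * (uX * (1 - uX)⁻¹)
  e_zbS : zbS = Real.exp ((1 / 2) * Real.log (R2 - k2 + (129 / 128)))
  e_zb : zb = zbS * s
  e_fac : fac = (1 / 2) * (zb * ie) + (1064305 / 1048576)
  e_Q : Q = fac * ((1 / 2) * wse * D2 * (zbS + (2149581 / 1048576) * k) + (zbS + (3277 / 262144) * k) * lspS + k2 * ((445645 / 262144) * (ie * lsp) + (576717 / 262144) * ielfp))
  e_E : E = Q * W
  e_Qw : Qw = Q * wse
  e_c2 : c2 = (1011 / 1024) - 2 * Qw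
  e_s2 : s2 = (Qw + 1) * (Qw + 1)
  e_rn : rn = c.Ld * (W * c2)
  e_q3 : q3 = 1 - cK - yb1 * Mnie - (3 * ie + 2 * Mnie) * rn
  e_u1 : u1 = Real.exp (-(q3 * rn))
  e_i2 : i2 = (1 - (1 / 2) * EM)⁻¹
  e_eta : eta = ((1 / 2) * EM + 1) * i2
  e_t1 : t1 = EMs * i2 * ((1 / 4) * be + 1)
  p_q20 : 0 < q2 - 10 * ((3 * ie + 2 * Moie) * W)
  p_X1 : 0 < 1 - X
  p_Es : 0 < 1 - Qw
  p_c20 : 0 < c2
  p_RH : 0 < c.RH - c.RW - Q - s2
  p_h9 : 0 < 10 * c2 - c.RH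
  p_h2 : 0 < (471859 / 524288) * c2 - c.RHq * Wie
  p_rr : 0 < (11121 / 1024) * c2 - c.RH - s2
  p_Er : 0 < c.L1 - Q
  p_dr : 0 < c.dq * (1 - Qw) - c.ex0 * Q
  p_La : 0 < c.La1 * (1 - 2 * Qw) - c.RW - Q
  p_l1 : 0 < (-(ie * lsp)) + (10485 / 1048576)
  p_l2 : 0 < (-ielfp) + (4369 / 131072)
  p_z1 : 0 < (-(zb * ie)) + (20971 / 1048576)
  p_E1 : 0 < (-(E * ie)) + (2621 / 524288)
  p_y : 0 < (-E) + c.Yd
  p_q30 : 0 < q3 - 11 * ((3 * ie + 2 * Mnie) * W)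
  p_EM2 : 0 < 1 - (1 / 2) * EM
  p_cl : 0 < (-(t1 + eta * (c.a1 * u1) * (wse * (V1 + Q) + 1))) + c.tha

/-- link: `s`, `k` from `be`, `y`; `js = 1/s` -/
structure PLv (be y s k y2 js : ℝ) where
  (L : ℝ)
  e_y2 : y2 = y * y
  e_L : L = (1 / 2) * Real.log (be * be + y2)
  e_s : s = Real.exp L
  e_js : js = Real.exp (-L)
  e_k : k = be * js

/-- link: variables `s`, `k` -/
structure PLt (be s k y2 : ℝ) where
  e_be : be = k * s
  e_y2 : y2 = s * s * ((-(k * k)) + 1)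

/-- link: the bounds of `M` from a row `r` (`|y| ≥ 33/32`) -/
structure PLr {c : CL} {se be s k y2 wMo Moie yb ielf Mnie EM EMs yb1 : ℝ} (r : CR) (y js : ℝ)
    (P : PL c se be s k y2 wMo Moie yb ielf Mnie EM EMs yb1) where
  (cc r5 m1 : ℝ)
  e_cc : cc = (1011 / 1024) * P.c2
  e_r5 : r5 = (1 / 2) * cc⁻¹ + (1 / 2)
  e_m1 : m1 = r.o1 * r5 + r.p1 * P.w
  e_wMo : wMo = (65957 / 65536) * r.o0 + r.p0 * P.w
  e_Moie : Moie = wMo * se * js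
  e_yb : yb = be * P.bie + 2 * y
  e_ielf : ielf = (2705327 / 1048576) * P.ie + (187171 / 1048576) * (se * js)
  e_Mnie : Mnie = m1 * se * js
  e_EM : EM = P.Q * (P.W + P.w * m1)
  e_EMs : EMs = P.Q * (P.wse + se * m1)
  e_yb1 : yb1 = yb + 2 * P.E
  p_ya0 : 0 < r.ys - y
  p_wa0 : 0 < P.w - r.wa
  p_wb0 : 0 < r.wb - P.w
  p_Mo0 : 0 < wMo
  p_wa : 0 < P.W * cc - r.wa * r.wa
  p_wb : 0 < r.wb - P.w * (P.Qw + 1)
  p_ys : 0 < r.ys - y - P.E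
  p_m10 : 0 < m1

/-- link: constant bounds of `M` (`|y| ≤ 33/32`) -/
structure PLc {c : CL} {se be s k y2 wMo Moie yb ielf Mnie EM EMs yb1 : ℝ} (m : CM)
    (P : PL c se be s k y2 wMo Moie yb ielf Mnie EM EMs yb1) where
  e_wMo : wMo = m.Mo * P.w
  e_Moie : Moie = m.Mo * P.ie
  e_yb : yb = be * P.bie + m.ys2
  e_ielf : ielf = (1268777 / 524288) * P.ie
  e_Mnie : Mnie = m.M1 * P.ie
  e_EM : EM = m.M1 * P.E + P.E
  e_EMs : EMs = m.M1 * P.Qw + P.Qw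
  p_Ec : 0 < m.Yc - P.E

/-- `y` is small, variables `s`, `k` -/
def PLy2 (m : CM) (y2 : ℝ) : Prop := 0 < m.yE2 - y2

/-- `y` is small, variables `be`, `y` -/
def PLy1 (m : CM) (y : ℝ) : Prop := 0 < m.yE1 - y

/-- first node -/
structure PF (c : CF) (se be v R kc vs GrS GtS G2S Ma Mb M1 : ℝ) where
  (ie w V wse K K2 K2se lau i4 XS X Vie a ea e2a er : ℝ)
  (h4 dzS dzR r1V r2V glf ycR r1w kv x1 z sR0 m m2 im bb : ℝ)
  (yc cK L1 lv yb qa u iX LX uX LU dz DG DF vDG EQ : ℝ)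
  (ER Qw c2 s1 s3 d E yE x2 L4 rn qb u1 EM EMr i2 : ℝ)
  (eta r2w DPx VcR DPR : ℝ)
  e_ie : ie = se * se
  e_w : w = se * R
  e_V : V = w * w
  e_wse : wse = w * se
  e_K : K = be * ie
  e_K2 : K2 = K * K
  e_K2se : K2se = K * be * se
  e_lau : lau = (1 / 2) * be + Real.log (Real.exp (-be) + 1)
  e_i4 : i4 = (be + 4)⁻¹
  e_XS : XS = 4 * (c.aS * i4)
  e_X : X = R * XS
  e_Vie : Vie = V * ie
  e_a : a = se * GtS + c.cD * ie
  e_ea : ea = Real.exp a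
  e_e2a : e2a = ea * ea
  e_er : er = ((838861 / 524288) * V + (5 / 2) * v) * ie
  e_h4 : h4 = 1 - (1 / 4) * K2
  e_dzS : dzS = vs * (G2S + ea * ((1 / 2) * (se * GtS * GtS) + (149797 / 1048576) * K2se)) + w * ((3 / 2) * e2a - (3 / 2) + (3 / 4) * K2 + v * ie + er) + K2se * ((1 / 8) * (v * vs * ie))
  e_dzR : dzR = dzS * se
  e_r1V : r1V = h4 * (3 - (3 / 2) * e2a) - (1 / 2) * (kc * kc) - vs * vs * ea - er
  e_r2V : r2V = (3 / 2) * e2a - h4 * ((1 / 2) * (kc * kc)) + er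
  e_glf : glf = 1 + (267387 / 262144) * ((838861 / 524288) * V * ie)
  e_ycR : ycR = vs * (glf + 2 * (Vie * e2a)) + wse * er
  e_r1w : r1w = r1V * wse
  e_kv : kv = kc * kc + ycR * ycR
  e_x1 : x1 = (1023 / 1024) * r1V * (kv + r1w * r1w)⁻¹
  e_z : z = 2 * (vs * vs * Vie)
  e_sR0 : sR0 = 1 - z
  e_m : m = sR0 - dzR - dzR * dzR
  e_m2 : m2 = m * m
  e_im : im = m⁻¹
  e_bb : bb = be * be * ie
  e_yc : yc = ycR * R
  e_cK : cK = (1223339 / 1048576) * K2 + 32 * (ie * ie)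
  e_L1 : L1 = (16243 / 16384) * x1
  e_lv : lv = L1 * V * m2
  e_yb : yb = bb + 2 * yc
  e_qa : qa = 1 - cK - yb * Ma * ie - (3 * ie + 2 * (ie * Ma)) * lv
  e_u : u = Real.exp (-(qa * lv))
  e_iX : iX = (1 - X)⁻¹
  e_LX : LX = 1 + (1 / 2) * X + (174763 / 524288) * (X * X * iX)
  e_uX : uX = u * X
  e_LU : LU = 1 + (1 / 2) * uX + (174763 / 524288) * (uX * uX * (1 - uX)⁻¹)
  e_dz : dz = dzS * w
  e_DG : DG = dz + dz * Mb + X * LX
  e_DF : DF = dz * Ma + uX * LU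
  e_vDG : vDG = vs * (dzR * Mb + dzR + XS * LX)
  e_EQ : EQ = (1111491 / 1048576) * e2a * (vDG + ie * (2 * DG + DF))
  e_ER : ER = EQ * wse
  e_Qw : Qw = ER * im
  e_c2 : c2 = (-(2 * Qw)) + (1011 / 1024)
  e_s1 : s1 = (1 / 2) * (kv - 1) + 1
  e_s3 : s3 = (s1 + dzR + ER) * (s1 + dzR + ER)
  e_d : d = c.exK * (EQ * (m2 * (1 - Qw))⁻¹)
  e_E : E = EQ * V
  e_yE : yE = yc + E
  e_x2 : x2 = x1 - d + 1
  e_L4 : L4 = (16243 / 16384) * x2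
  e_rn : rn = L4 * V * m2 * c2
  e_qb : qb = 1 - cK - (yb + 2 * E) * M1 * ie - (3 * ie + 2 * (ie * M1)) * rn
  e_u1 : u1 = Real.exp (-(qb * rn))
  e_EM : EM = E * M1 + E
  e_EMr : EMr = (ER * M1 + ER) * ((1 / 4) * be + 1)
  e_i2 : i2 = (1 - (1 / 2) * EM)⁻¹
  e_eta : eta = ((1 / 2) * EM + 1) * i2
  e_r2w : r2w = r2V * wse
  e_DPx : DPx = kv + r2w * (r2w + 2 * kc)
  e_VcR : VcR = wse * (kv + r2w * r2w)
  e_DPR : DPR = (1 / 2) * (DPx - 1) + 1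
  p_a1 : 0 < (-a) + (29127 / 524288)
  p_x11 : 0 < (-x1) + 1
  p_m0 : 0 < m
  p_qa : 0 < qa - 10 * ((3 * ie + 2 * (ie * Ma)) * V)
  p_X1 : 0 < 1 - X
  p_cG : 0 < (-DG) + c.cD
  p_cF : 0 < (-DF) + c.cD
  p_Es : 0 < 1 - Qw
  p_R1 : 0 < c.RH1 - (dzR + 1) * (dzR + 1)
  p_R2 : 0 < c.RH - r2V - EQ - s3
  p_h9 : 0 < 10 * (m2 * c2) - c.RH
  p_h2 : 0 < (471859 / 524288) * (m2 * c2) - c.RHq * Vie
  p_rr : 0 < (11121 / 1024) * (m2 * c2) - c.RH - s3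
  p_dzS0 : 0 < sR0 - dzR
  p_x0 : 0 < x1 - d - c.x0
  p_xa : 0 < x1 - c.xa
  p_xb : 0 < x1 - d - c.xb
  p_Er : 0 < r1V - EQ
  p_La : 0 < c.Lam0 * (m2 * (1 - 2 * Qw)) - r2V - EQ
  p_y0 : 0 < (-yE) + c.Y0
  p_qb : 0 < qb - 11 * ((3 * ie + 2 * (ie * M1)) * V)
  p_EM2 : 0 < 1 - (1 / 2) * EM
  p_cl : 0 < (-(EMr * i2 + c.a0 * (eta * u1) * (DPR + VcR + ER))) + c.tha

/-- first node: variables `be`, `v`; `iR = 1/R` -/
structure PFv (be v R kc vs iR : ℝ) where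
  (L : ℝ)
  e_L : L = (1 / 2) * Real.log (be * be + v * v)
  e_R : R = Real.exp L
  e_iR : iR = Real.exp (-L)
  e_kc : kc = be * iR
  e_vs : vs = v * iR

/-- first node: variables `R`, `t` -/
structure PFt (R t be v kc vs : ℝ) where
  (t2 it : ℝ)
  e_t2 : t2 = t * t
  e_it : it = (t2 + 1)⁻¹
  e_kc : kc = (1 - t2) * it
  e_vs : vs = 2 * (t * it)
  e_be : be = R * kc
  e_v : v = R * vs

/-- `Gr` with the bound of `log |f|` -/
structure PFg {c : CF} {se be v R kc vs GrS GtS G2S Ma Mb M1 : ℝ} (iR : ℝ)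
    (P : PF c se be v R kc vs GrS GtS G2S Ma Mb M1) where
  (sv : ℝ)
  e_sv : sv = se * v
  e_GrS : GrS = se * (P.lau + c.lc0) + c.lc1 * iR
  e_GtS : GtS = Real.exp ((1 / 2) * Real.log (GrS * GrS + sv * sv))
  e_G2S : G2S = Real.exp ((1 / 2) * Real.log (GrS * GrS + (1 / 4) * (sv * sv)))

/-- `Gr = lau` (`v ≤ 33/32`) -/
structure PFh {c : CF} {se be v R kc vs GrS GtS G2S Ma Mb M1 : ℝ}
    (P : PF c se be v R kc vs GrS GtS G2S Ma Mb M1) where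
  e_GrS : GrS = se * P.lau
  e_GtS : GtS = se * Real.exp ((1 / 2) * Real.log (P.lau * P.lau + v * v))
  e_G2S : G2S = se * Real.exp ((1 / 2) * Real.log (P.lau * P.lau + (1 / 4) * (v * v)))

/-- first node: the bounds of `M` from a row `r` (families 0 and 1) -/
structure PFr {c : CF} {se be v R kc vs GrS GtS G2S Ma Mb M1 : ℝ} (r : CR)
    (P : PF c se be v R kc vs GrS GtS G2S Ma Mb M1) where
  (iw cc r5 : ℝ)
  e_iw : iw = P.w⁻¹ * P.im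
  e_cc : cc = (1011 / 1024) * P.c2
  e_r5 : r5 = (1 / 2) * cc⁻¹ + (1 / 2)
  e_Ma : Ma = (65957 / 65536) * (r.o0 * iw) + r.p0
  e_Mb : Mb = (65957 / 65536) * (r.o1 * iw) + r.p1
  e_M1 : M1 = r.o0 * iw * r5 + r.p0
  p_ya0 : 0 < r.ys - v
  p_wa0 : 0 < P.w - r.wa
  p_wb0 : 0 < r.wb - P.w
  p_Ma0 : 0 < Ma
  p_Mb0 : 0 < Mb
  p_wa : 0 < P.V * P.m2 * cc - r.wa * r.wa
  p_wb : 0 < r.wb - P.w * (P.s1 + P.dzR + P.ER)
  p_wb1 : 0 < r.wb - P.w * (P.dzR + 1)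
  p_ys : 0 < r.ys - P.yE
  p_M10 : 0 < M1

/-- first node, `v ≤ 33/32`: constant bounds -/
structure PFc (m : CN) {c : CF} {se be v R kc vs GrS GtS G2S Ma Mb M1 : ℝ}
    (P : PF c se be v R kc vs GrS GtS G2S Ma Mb M1) : Prop where
  e_Ma : Ma = m.Ma
  e_Mb : Mb = m.Mb
  e_M1 : M1 = m.M1
  p_ys : 0 < m.ys - P.yE
  p_ya0 : 0 < m.ys - v

/-- test -/
structure PFT {c : CF} {se be v R kc vs GrS GtS G2S Ma Mb M1 : ℝ}
    (P : PF c se be v R kc vs GrS GtS G2S Ma Mb M1) where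
  (tn : ℝ)
  e_tn : tn = (529531 / 524288) * ((3294199 / 1048576) * P.ie * P.DF + (3294199 / 1048576) * se * G2S + (3294199 / 1048576) * ((147325 / 262144) * P.Vie + (277873 / 524288) * (P.a * P.a) + (56361 / 131072) * P.K2) + (167773 / 1048576) * (P.V * P.Vie) + P.bb * ((1111491 / 1048576) * P.a + (146801 / 524288) * P.K2) + (10349031 / 1048576) * P.ie * ((587203 / 1048576) * (P.a * P.a) + (314573 / 1048576) * P.K2))
  p_t9 : 0 < (-(P.DF + tn)) + (471859 / 524288)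

end Pool.Agent.helper31.A2
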