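import Pool.Agent.helper31.A2.CstG

/-!
# A2: what has to be proved from the programs: common definitions
-/

namespace Pool.Agent.helper31.A2

open Complex ComplexConjugate Set Filter Topology
open Pool.Agent.helper31.EQ.Y Pool.Agent.helper31.EQ.R
open Pool.Agent.helper12.EQL Pool.Agent.helper12.RP Pool.Agent.helper12.FF Pool.Agent.helper12.RS
open Pool.Agent.helper63.FF
open Pool.Agent.helper31.EQB

/-- real form of `RowP` (family `j`) -/
structure RowR (e κ : ℝ) (j : ℕ) (ys wa wb o p : ℝ) : Prop where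
  o0 : 0 ≤ o
  wa0 : 0 < wa
  ys1 : ys ≤ 10 / 3
  h : ∀ z : ℂ, 0 < z.re → om κ (3 / 10 + j) z → |yz e κ z| ≤ ys → wa < √(Sz e κ z / e) →
    √(Sz e κ z / e) ≤ wb → rz e κ z ≤ 11 * (Sz e κ z / e) →
      MB e κ (o / √(Sz e κ z / e) + p) z

/-- the geometry of a link point `s = shf τ`: `β`, `s = √S`, `k = β/s`, `y2 = y²` -/
structure GeoL (e κ : ℝ) (τ : ℂ) (se be s k y2 : ℝ) : Prop where
  hse : se = (√e)⁻¹
  hbe : be = bet e κ
  hs : s = √(Sz e κ (shf κ τ))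
  hk : k * s = be
  hy2 : y2 = yz e κ (shf κ τ) ^ 2

/-- the geometry of the first node at `v`: `R = √(β²+v²)` -/
structure GeoF (e κ v : ℝ) (se be R kc vs : ℝ) : Prop where
  hse : se = (√e)⁻¹
  hbe : be = bet e κ
  hR : R = √(bet e κ ^ 2 + v ^ 2)
  hk : kc * R = be
  hv : vs * R = v

/-- the radius of the first node: `C √(β²+v²)/β = aS 4/(4+β) √(β²+v²)` -/
noncomputable def CG (e κ : ℝ) : ℝ := cF2.aS * 4 * bet e κ / (4 + bet e κ)

/-- `M` values of a link: `Mo` on `[shf τ, shf² τ]`; `M1` at the next node -/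
structure ML (e κ x d E S Mo M1 : ℝ) (y : ℝ) : Prop where
  Mo0 : 0 ≤ Mo
  M10 : 0 ≤ M1
  ho : ∀ z : ℂ, PtG e κ (x + 1) y (S / e * (1 - 500 / e ^ 2)) (S / e) (10 * (S / e)) z →
    MB e κ Mo z
  h1 : ∀ z : ℂ, PtG e κ (x + 2 - d) (y + E) (S / e * (1011 / 1024 - 2 * E / √S) * (1011 / 1024))
    ((√S + E) ^ 2 / e) (11 * (S / e * (1011 / 1024 - 2 * E / √S) * (1011 / 1024))) z → MB e κ M1 z

end Pool.Agent.helper31.A2
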