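import Mathlib

/-!
# A2-2: the table of the bounds `M`: the check function

Fixed point numbers, scale `2^28`; `Nat.add` etc. are written out for the speed of the kernel.  `Cc`: the constants of a cell.
A window is given by `rl ≤ r ≤ rh`, `yl ≤ y ≤ c.yh`, `wl ≤ S/e ≤ c.wh`.  Meaning: `T2S.lean`.
-/

namespace Pool.Agent.helper31.A2

/-- product rounded up -/
def mu (a b : Nat) : Nat := Nat.succ (Nat.shiftRight (Nat.mul a b) 28)
/-- product rounded down -/
def ml (a b : Nat) : Nat := Nat.shiftRight (Nat.mul a b) 28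
/-- integer product -/
def mi (a b : Int) : Int := Int.shiftRight (Int.mul a b) 28

/-- upper bound of `√(a² + b²)` -/
def nrm (a b : Nat) : Nat :=
  let g := Nat.succ (Nat.shiftRight (bif Nat.ble a b then Nat.add (Nat.mul 123 b) (Nat.mul 51 a)
    else Nat.add (Nat.mul 123 a) (Nat.mul 51 b)) 7)
  Nat.succ (Nat.shiftRight (Nat.add g (Nat.div (Nat.add (Nat.mul a a) (Nat.mul b b)) g)) 1)

/-- constants of a cell: `1/e ≤ E`, `E' ≤ 1/e`, `K² ≤ k2`, `k2/2 ≤ kh`, `kk = 1 + kh`, `yh`, `yh² ≤ y2`, `yh² E² ≤ yy`,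
`yh³ E²/3 ≤ y3`, `wh` -/
structure Cc where
  E : Nat
  E' : Nat
  k2 : Nat
  kk : Nat
  kh : Nat
  yh : Nat
  y2 : Nat
  yy : Nat
  y3 : Nat
  wh : Nat

/-- the result of a level: centres and radii of `f` and `H`, bounds of `|f|`, `|H|` -/
structure Rs where
  ok : Bool
  fr : Int
  fi : Int
  P : Nat
  hr : Int
  hi : Int
  T : Nat
  Fu : Nat
  Hu : Nat

/-- combination at one level; `Mj/1024` is the claimed bound (`0`: no claim); `m`, `br + i bi`, `eta`, `rho`, `dL`: the disc of `b` -/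
def comb (c : Cc) (rh rho dL m eta : Nat) (br bi : Int) (Mj : Nat) (R : Rs) : Rs :=
  let Rb := Nat.add (mu m (mu rho (Nat.add 268435458 (Nat.add (Nat.shiftRight dL 1)
    (Nat.shiftRight (mu dL dL) 2))))) eta
  let mm := Nat.add m eta
  let kap := Nat.add c.kh (mu c.E (nrm c.yh rh))
  let ur := Int.sub (mi br R.fr) (mi bi R.fi)
  let ui := Int.add (mi br R.fi) (mi bi R.fr)
  let vr := Int.sub (mi br R.hr) (mi bi R.hi)
  let vi := Int.add (mi br R.hi) (mi bi R.hr)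
  let P := Nat.add (Nat.add (mu mm R.P) (mu Rb R.Fu)) 4
  let T := Nat.add (Nat.add (Nat.add P (mu mm R.T)) (mu Rb R.Hu))
    (Nat.add (mu (mu (Nat.add mm Rb) kap) (Nat.add R.Fu (Nat.mul 2 R.Hu))) 4)
  let fr := Int.add 268435456 ur
  let hr := Int.add ur vr
  let hi := Int.add ui vi
  let fa := fr.natAbs
  let fb := ui.natAbs
  let fn := nrm fa fb
  let Hu := Nat.add (nrm hr.natAbs hi.natAbs) T
  let flo := Nat.div (Nat.add (Nat.mul fa fa) (Nat.mul fb fb)) fn
  ⟨and R.ok (or (Nat.beq Mj 0) (and (Nat.ble P flo)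
    (Nat.ble (Nat.mul 1024 Hu) (Nat.mul Mj (Nat.sub flo P))))), fr, ui, P, hr, hi, T, Nat.add fn P, Hu⟩

/-- the terminal level: `f ∈ Disc (1, u/(1-u))`, `u = 1/(1 + x + x²/2)`, `x = 4/5 r` -/
def term (c : Cc) (rl rh wl : Nat) : Rs :=
  let x := Nat.div (Nat.mul rl 4) 5
  let den := Nat.add (Nat.add 268435456 x) (Nat.shiftRight (ml x x) 1)
  let u := Nat.succ (Nat.div 72057594037927936 den)
  let P := Nat.succ (Nat.div (Nat.mul 268435456 u) (Nat.sub 268435456 u))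
  let Fu := Nat.add 268435456 P
  let Hu := Nat.succ (Nat.div (Nat.mul 268435456 Fu) rl)
  let r2 := mu (mu rl rl) c.E
  ⟨and (and (Nat.ble u 268435455) (Nat.ble rh 805306368)) (and (Nat.ble (Nat.mul 2 (mu (mu rh rh) c.E)) wl)
    (Nat.ble (Nat.add (Nat.add r2 c.wh) (mu r2 rl)) (ml rl (Nat.div rl 5)))),
    268435456, 0, P, 0, 0, Hu, Fu, Hu⟩

/-! the next window -/

/-- `|Q|² ≤ dd` -/
def ddf (c : Cc) (rh : Nat) : Nat :=
  Nat.add 268435456 (Nat.add (Nat.add c.k2 (Nat.mul 2 (mu (mu rh c.E) c.kk)))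
    (mu (mu (Nat.add (mu rh rh) c.y2) c.E) c.E))

def nyl (dd yl : Nat) : Nat := Nat.div (Nat.mul yl 268435456) dd

def nwl (dd wl : Nat) : Nat := Nat.div (Nat.mul (Nat.div (Nat.mul wl 268435456) dd) 268435456) dd

/-- `r² E` -/
def r2f (c : Cc) (rl : Nat) : Nat := mu (mu rl rl) c.E

def fcf (c : Cc) (rl : Nat) : Nat := Nat.add (Nat.add c.kh (mu rl c.E)) c.yy

def nrl (c : Cc) (rl wl r2 fac : Nat) : Nat :=
  Nat.sub (Nat.add rl (ml (Nat.sub wl r2) (Nat.sub 268435456 fac))) (Nat.mul 2 (mu rl c.yy))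

/-! bounds of `L = e log |Q|` and `ψ = e arg Q` -/

def Llo (c : Cc) (rl wl r2 : Nat) : Nat :=
  let A := Nat.add rl (Nat.shiftRight wl 1)
  let A0 := Nat.add A (Nat.succ (Nat.shiftRight r2 1))
  Nat.sub A (mu c.E (Nat.sub (mu A0 A0) (Nat.shiftRight (ml rl rl) 1)))

def Lhi (c : Cc) (rh : Nat) : Nat :=
  let rh2 := mu rh rh
  let h0 := Nat.add (mu rh c.kk) (Nat.succ (Nat.shiftRight c.wh 1))
  let l := Nat.add h0 (Nat.succ (Nat.shiftRight (mu rh2 c.E) 1))
  Nat.sub (Nat.add h0 (mu (mu (Nat.succ (Nat.div (Nat.mul 4 (mu (mu l l) l)) 3)) c.E) c.E))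
    (Nat.shiftRight (ml (ml rh rh) c.E') 1)

def p2f (c : Cc) (rl : Nat) : Nat :=
  Nat.succ (Nat.div (Nat.mul c.yh 268435456) (Nat.add 268435456 (ml rl c.E')))

def p1f (c : Cc) (rh yl : Nat) : Nat :=
  Nat.sub (Nat.div (Nat.mul yl 268435456) (Nat.add c.kk (mu rh c.E))) c.y3

/-- `(x + iy)`-step of the centre: real and imaginary part of `1 + Δ (1 + Δ/2 (1 + Δ/3))` -/
def tay (x y : Int) : Int × Int :=
  let a1 := Int.add 268435456 (Int.ediv x 3)
  let b1 := Int.ediv y 3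
  let a2 := Int.add 268435456 (Int.shiftRight (Int.sub (mi a1 x) (mi b1 y)) 1)
  let b2 := Int.shiftRight (Int.add (mi a1 y) (mi b1 x)) 1
  (Int.add 268435456 (Int.sub (mi a2 x) (mi b2 y)), Int.add (mi a2 y) (mi b2 x))

/-- the levels; `ms` the claimed bounds -/
def lev (c : Cc) : List Nat → (rl rh yl wl L0 p0 m eta : Nat) → (br bi : Int) → Rs
  | [], rl, rh, _, wl, _, _, _, _, _, _ => term c rl rh wl
  | M :: t, rl, rh, yl, wl, L0, p0, m0, eta0, br0, bi0 =>
    let r2 := r2f c rl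
    let fac := fcf c rl
    let dd := ddf c rh
    let rl' := nrl c rl wl r2 fac
    let La := Llo c rl wl r2
    let Lb := Lhi c rh
    let pa := p1f c rh yl
    let pb := p2f c rl
    let L := Nat.shiftRight (Nat.add La Lb) 1
    let dL := Nat.succ (Nat.shiftRight (Nat.sub Lb La) 1)
    let p := Nat.shiftRight (Nat.add pa pb) 1
    let rho := nrm dL (Nat.succ (Nat.succ (Nat.shiftRight (Nat.sub pb pa) 1)))
    let la := Nat.sub L L0
    let y : Int := Int.sub (p0 : Int) (p : Int)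
    let tt := tay (Int.neg (la : Int)) y
    let br := Int.sub (mi br0 tt.1) (mi bi0 tt.2)
    let bi := Int.add (mi br0 tt.2) (mi bi0 tt.1)
    let d2 := Nat.add (mu la la) (mu y.natAbs y.natAbs)
    let eta := Nat.add (Nat.add eta0 (mu (Nat.add m0 eta0) (Nat.succ (Nat.div (mu d2 d2) 19)))) 12
    let m := mu m0 (Nat.succ (Nat.add (Nat.sub 268435456 la) (Nat.shiftRight (mu la la) 1)))
    bif and (and (and (Nat.ble r2 wl) (Nat.ble fac 268435456)) (and (Nat.ble La Lb) (Nat.ble pa pb)))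
      (and (and (and (Nat.ble L0 L) (Nat.ble rho 134217728)) (and (Nat.ble la 134217728) (Nat.ble rl' rh)))
        (and (Nat.ble m 268500000) (and (Nat.ble eta 26843546) (Nat.ble y.natAbs 134217728))))
    then comb c rh rho dL m eta br bi M (lev c t rl' (Nat.add rh c.wh) (nyl dd yl) (nwl dd wl) L p m eta br bi)
    else ⟨false, 0, 0, 0, 0, 0, 0, 0, 0⟩

/-- `e^(i (π - p))` for `0 ≤ p ≤ 4`; Taylor at `(π - p)/8`, three squarings -/
def start (p : Nat) : Int × Int :=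
  let x : Int := Int.ediv (Int.sub 843314857 (p : Int)) 8
  let x2 := mi x x
  let s := mi x (Int.sub 268435456 (Int.ediv (mi x2 (Int.sub 268435456 (Int.ediv x2 20))) 6))
  let c := Int.sub 268435456 (Int.ediv (mi x2 (Int.sub 268435456 (Int.ediv (mi x2
    (Int.sub 268435456 (Int.ediv x2 30))) 12))) 2)
  let c1 := Int.sub (mi c c) (mi s s)
  let s1 := Int.mul 2 (mi c s)
  let c2 := Int.sub (mi c1 c1) (mi s1 s1)
  let s2 := Int.mul 2 (mi c1 s1)
  (Int.sub (mi c2 c2) (mi s2 s2), Int.mul 2 (mi c2 s2))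

/-- constants of a cell `ya ≤ y ≤ yb`, `Wa ≤ S/e ≤ Wb` for `200 ≤ e ≤ 500`, `β ≤ 5` -/
def mkC (ya yb Wa Wb : Nat) : Cc :=
  let E := min 1342178 (Nat.succ (Nat.div (Nat.mul Wb 268435456) (max 1 (ml ya ya))))
  let E' := max 536870 (Nat.div (Nat.mul Wa 268435456) (Nat.add 6710886400 (mu yb yb)))
  let k2 := min (Nat.mul 25 (mu E E)) (mu Wb E)
  let kh := Nat.succ (Nat.shiftRight k2 1)
  let y2 := mu yb yb
  let yy := mu (mu y2 E) E
  ⟨E, E', k2, Nat.add 268435456 kh, kh, yb, y2, yy, Nat.succ (Nat.div (mu yb yy) 3), Wb⟩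

/-- lower bound of `lam K X` -/
def lamN (c : Cc) (X : Nat) : Nat :=
  Nat.sub X (mu X (mu c.k2 (Nat.add 44739243 (Nat.succ (Nat.div (Nat.mul 4 (mu X X)) 3)))))

/-- the points of position `X = 3/10 + j` are in the window `j` (as far as the lower bound of `r` is concerned) -/
def posOK (c : Cc) (Wa : Nat) : Nat → (X rl rh yl wl : Nat) → Bool
  | 0, _, _, _, _, _ => true
  | n + 1, X, rl, rh, yl, wl =>
    let dd := ddf c rh
    and (Nat.ble rl (ml (lamN c X) Wa)) (posOK c Wa n (Nat.add X 268435456)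
      (nrl c rl wl (r2f c rl) (fcf c rl)) (Nat.add rh c.wh) (nyl dd yl) (nwl dd wl))

def cellOK (ya yb Wa Wb : Nat) (ms : List Nat) : Bool :=
  let p := Nat.shiftRight (Nat.add ya yb) 1
  let s := start p
  let c := mkC ya yb Wa Wb
  let r0 := Nat.div (Nat.mul 28 Wa) 100
  let r1 := Nat.succ (Nat.div (Nat.mul 13 Wb) 10)
  and (lev c ms r0 r1 ya Wa 0 p 268435456 2000 s.1 s.2).ok (posOK c Wa 5 80530636 r0 r1 ya Wa)

/-- a strip of cells: the lower end `Wa` of the first cell, then pairs (upper end, claims) -/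
def stripOK (ya yb : Nat) : Nat → List (Nat × List Nat) → Bool
  | _, [] => true
  | Wa, (Wb, ms) :: t => and (cellOK ya yb Wa Wb ms) (stripOK ya yb Wb t)

end Pool.Agent.helper31.A2
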