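import Pool.Agent.helper31.A2.T2
import Pool.Agent.helper31.EQB.MBx2

/-!
# A2-3: soundness of the table: definitions
-/

namespace Pool.Agent.helper31.A2

open Complex ComplexConjugate Set Filter Topology
open Pool.Agent.helper31.EQ.Y Pool.Agent.helper31.EQ.R
open Pool.Agent.helper12.EQL Pool.Agent.helper12.RP Pool.Agent.helper12.FF
open Pool.Agent.helper63.FF
open Pool.Agent.helper31.EQB

/-- value of a fixed point number -/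
noncomputable def vn (n : ℕ) : ℝ := (n : ℝ) / 2 ^ 28

noncomputable def vi (n : ℤ) : ℝ := (n : ℝ) / 2 ^ 28

noncomputable def vc (a b : ℤ) : ℂ := (vi a : ℂ) + (vi b : ℂ) * I

/-- the constants of a cell are right for `e`, `κ` -/
structure CcOK (e κ : ℝ) (c : Cc) : Prop where
  e200 : 200 ≤ e
  κ0 : 0 < κ
  K1 : Real.sinh κ ≤ 1 / 40
  E : 1 / e ≤ vn c.E
  E1 : vn c.E ≤ 1 / 199
  E' : vn c.E' ≤ 1 / e
  k2 : Real.sinh κ ^ 2 ≤ vn c.k2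
  kh : vn c.k2 / 2 ≤ vn c.kh
  kh1 : vn c.kh ≤ 1 / 1000
  kk : vn c.kk = 1 + vn c.kh
  yh : vn c.yh ≤ 7 / 2
  y2 : vn c.yh ^ 2 ≤ vn c.y2
  yy : vn c.yh ^ 2 * vn c.E ^ 2 ≤ vn c.yy
  y3 : vn c.yh ^ 3 * vn c.E ^ 2 / 3 ≤ vn c.y3

/-- the window -/
structure Win (e κ : ℝ) (c : Cc) (rl rh yl wl : ℕ) (t : ℂ) : Prop where
  re : 0 < t.re
  rl : vn rl ≤ rz e κ t
  rh : rz e κ t ≤ vn rh
  yl : vn yl ≤ yz e κ t
  yh : yz e κ t ≤ vn c.yh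
  wl : vn wl ≤ Sz e κ t / e
  wh : Sz e κ t / e ≤ vn c.wh

/-- `-f'/(e K)` -/
noncomputable def Hh (e κ : ℝ) (t : ℂ) : ℂ := -deriv (fT e κ) t / ((e * Real.sinh κ : ℝ) : ℂ)

structure DiscOK (e κ : ℝ) (R : Rs) (t : ℂ) : Prop where
  f : ‖fT e κ t - vc R.fr R.fi‖ ≤ vn R.P
  H : ‖Hh e κ t - vc R.hr R.hi‖ ≤ vn R.T
  Fu : ‖fT e κ t‖ ≤ vn R.Fu
  Hu : ‖Hh e κ t‖ ≤ vn R.Hu

/-- the claims along the windows -/
def LS (e κ : ℝ) (c : Cc) : List ℕ → ℕ → ℕ → ℕ → ℕ → Prop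
  | [], _, _, _, _ => True
  | M :: t, rl, rh, yl, wl =>
    (M ≠ 0 → ∀ z, Win e κ c rl rh yl wl z → MB e κ ((M : ℝ) / 1024) z) ∧
    nrl c rl wl (r2f c rl) (fcf c rl) ≤ rh ∧
    LS e κ c t (nrl c rl wl (r2f c rl) (fcf c rl)) (rh + c.wh) (nyl (ddf c rh) yl) (nwl (ddf c rh) wl)

/-- the statement of a cell: `B/1024` for the points of position `≥ 3/10 + j` if `B` bounds the claims `j, ..., 10` -/
def CellP (e κ : ℝ) (ya yb Wa Wb : ℕ) (ms : List ℕ) : Prop :=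
  ∀ j B : ℕ, j ≤ 4 → (∀ i, j ≤ i → i ≤ 10 → ms.getD i 0 ≠ 0 ∧ ms.getD i 0 ≤ B) →
    ∀ z : ℂ, 0 < z.re → om κ (3 / 10 + j) z → vn ya ≤ |yz e κ z| → |yz e κ z| ≤ vn yb →
      vn Wa ≤ Sz e κ z / e → Sz e κ z / e ≤ vn Wb → rz e κ z ≤ 11 * (Sz e κ z / e) →
        MB e κ ((B : ℝ) / 1024) z

end Pool.Agent.helper31.A2
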