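import Pool.Agent.helper31.A2.T2D
import Pool.Agent.helper31.A2.Fix

/-!
# A2: dynamics of the window
-/

namespace Pool.Agent.helper31.A2

open Complex ComplexConjugate Set Filter Topology
open Pool.Agent.helper31.EQ.Y Pool.Agent.helper31.EQ.R
open Pool.Agent.helper12.EQL Pool.Agent.helper12.RP Pool.Agent.helper12.FF
open Pool.Agent.helper63.FF
open Pool.Agent.helper31.EQB

section

variable {e κ : ℝ} {c : Cc} {rl rh yl wl : ℕ} {t : ℂ}

private theorem vnn (n : ℕ) : 0 ≤ vn n := by unfold vn; positivity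

private theorem vn_add (a b : ℕ) : vn (Nat.add a b) = vn a + vn b := by
  unfold vn
  rw [Nat.add_eq, Nat.cast_add, add_div]

private theorem vn_add' (a b : ℕ) : vn (a + b) = vn a + vn b := vn_add a b

private theorem vn_sub {a b : ℕ} (h : b ≤ a) : vn (Nat.sub a b) = vn a - vn b := by
  unfold vn
  rw [Nat.sub_eq, Nat.cast_sub h, sub_div]

private theorem vn_one : vn 268435456 = 1 := by
  unfold vn
  norm_num

private theorem vn_two_mul (a : ℕ) : vn (Nat.mul 2 a) = 2 * vn a := by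
  unfold vn
  rw [Nat.mul_eq, Nat.cast_mul]
  push_cast
  ring

private theorem vn_div {a d : ℕ} {D : ℝ} (hD : 0 < D) (h : D ≤ vn d) :
    vn (Nat.div (Nat.mul a 268435456) d) ≤ vn a / D := by
  have hd : 0 < vn d := lt_of_lt_of_le hD h
  have h1 : ((a * 268435456 / d : ℕ) : ℝ) ≤ ((a * 268435456 : ℕ) : ℝ) / (d : ℝ) := Nat.cast_div_le
  have h2 : vn (Nat.div (Nat.mul a 268435456) d) = ((a * 268435456 / d : ℕ) : ℝ) / 2 ^ 28 := rfl
  have h3 : vn (Nat.div (Nat.mul a 268435456) d) ≤ vn a / vn d := by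
    rw [h2]
    have hd' : (0 : ℝ) < (d : ℝ) := by
      unfold vn at hd
      by_contra hh
      push Not at hh
      have : (d : ℝ) / 2 ^ 28 ≤ 0 := by
        apply div_nonpos_of_nonpos_of_nonneg hh
        positivity
      linarith
    calc ((a * 268435456 / d : ℕ) : ℝ) / 2 ^ 28 ≤ (((a * 268435456 : ℕ) : ℝ) / (d : ℝ)) / 2 ^ 28 := by
          gcongr
      _ = vn a / vn d := by
          unfold vn
          push_cast
          field_simp
          norm_num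
  exact h3.trans (div_le_div_of_nonneg_left (vnn a) hD h)

/-- `u / (u² + η²) ≥ 2 - u - η²` -/
private theorem frac_ge {u q : ℝ} (hu : 1 ≤ u) (hq : 0 ≤ q) : 2 - u - q ≤ u / (u ^ 2 + q) := by
  have hu0 : 0 < u := by linarith
  rw [le_div_iff₀ (by positivity)]
  nlinarith [mul_nonneg hq (sub_nonneg.2 hu), mul_nonneg hq (sq_nonneg u),
    mul_nonneg (sub_nonneg.2 hu) (mul_nonneg (sub_nonneg.2 hu) (by linarith : (0:ℝ) ≤ u)),
    mul_nonneg hq (mul_nonneg (sub_nonneg.2 hu) (by linarith : (0:ℝ) ≤ u)), mul_nonneg hq hq]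

/-- monotony -/
private theorem frac_mono {u v q : ℝ} (hu : 1 ≤ u) (huv : u ≤ v) (hq : 0 ≤ q) (hq1 : q ≤ 1) :
    v / (v ^ 2 + q) ≤ u / (u ^ 2 + q) := by
  have hu0 : 0 < u := by linarith
  have hv0 : 0 < v := by linarith
  rw [div_le_div_iff₀ (by positivity) (by positivity)]
  have h1 : 1 ≤ u * v := by nlinarith
  nlinarith [mul_nonneg (sub_nonneg.2 huv) (by linarith : 0 ≤ u * v - q)]

private theorem step_r {e K C r x y S : ℝ} (he : 200 ≤ e) (hC1 : 1 ≤ C) (hC2 : C ^ 2 = K ^ 2 + 1)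
    (hr : 0 ≤ r) (hrx : r ≤ x) (hy : y ^ 2 / e ^ 2 ≤ 1) (hS : S = e ^ 2 * K ^ 2 + y ^ 2) :
    r + ((S - r ^ 2) / e * ((C + r / e) / ((C + r / e) ^ 2 + y ^ 2 / e ^ 2)) -
      2 * r * (y ^ 2 / e ^ 2) / ((C + r / e) ^ 2 + y ^ 2 / e ^ 2)) ≤
    e * (C - (C + x / e) / ((C + x / e) ^ 2 + y ^ 2 / e ^ 2)) := by
  have he0 : 0 < e := by linarith
  have h1 : r / e ≤ x / e := by gcongr
  have h0 : 0 ≤ r / e := by positivity
  have h2 := frac_mono (u := C + r / e) (v := C + x / e) (q := y ^ 2 / e ^ 2) (by linarith)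
    (by linarith) (by positivity) hy
  have h3 : e * (C - (C + r / e) / ((C + r / e) ^ 2 + y ^ 2 / e ^ 2)) ≤
      e * (C - (C + x / e) / ((C + x / e) ^ 2 + y ^ 2 / e ^ 2)) := by
    apply mul_le_mul_of_nonneg_left _ he0.le
    linarith
  refine le_trans (le_of_eq ?_) h3
  have hQ : 0 < (C + r / e) ^ 2 + y ^ 2 / e ^ 2 := by positivity
  have hQ' : (C * e + r) ^ 2 + y ^ 2 ≠ 0 := by
    have : 0 < (C * e + r) ^ 2 := by positivity
    positivity
  have hK : K ^ 2 = C ^ 2 - 1 := by linarith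
  rw [hS, hK]
  have e1 : (C + r / e) ^ 2 + y ^ 2 / e ^ 2 = ((C * e + r) ^ 2 + y ^ 2) / e ^ 2 := by
    field_simp
  rw [e1]
  field_simp
  ring

private theorem Sz_eq (e κ : ℝ) (t : ℂ) :
    Sz e κ t = e ^ 2 * Real.sinh κ ^ 2 + yz e κ t ^ 2 := by
  unfold Sz bet
  ring

/-- `|Q|² = 1 + K² + 2 c r/e + (r² + y²)/e² ≤ dd` (`Q_sq`); `y' = y/|Q|²` (`yz_shf`); `S' = β² + y²/|Q|⁴ ≥ S/|Q|⁴`;
`r' ≤ r + S/e` (`rz_shf_le`); lower bound of `r'`: with `x = r/e`, `η = y/e`, `c = cosh κ`: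
`r' = e (c - 1/((c + x) + η²/(c + x)))` is increasing in `r` for fixed `η` (`c + x ≥ 1 > η`), so take `r = rl`; there
`r' - r = ((c + x)(S/e - r²/e) - 2 r η²)/|Q|²`, `(c + x)/|Q|² ≥ 1 - K²/2 - x - η²`, `η² ≤ yh² E²`. -/
theorem win_step (C : CcOK e κ c) (h : Win e κ c rl rh yl wl t) (h1 : r2f c rl ≤ wl)
    (h2 : fcf c rl ≤ 268435456) :
    Win e κ c (nrl c rl wl (r2f c rl) (fcf c rl)) (rh + c.wh) (nyl (ddf c rh) yl)
      (nwl (ddf c rh) wl) (shf κ t) := by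
  have he200 := C.e200
  have he : 0 < e := by linarith
  have hκ := C.κ0
  have hre := h.re
  have hK0 : 0 < Real.sinh κ := Real.sinh_pos_iff.2 hκ
  have hc1 := Real.one_le_cosh κ
  have hc2 := cosh_le' κ
  have hcs := Real.cosh_sq κ
  have hrpos := rz_pos he hκ hre
  have hQ1 : 1 ≤ ‖Qk κ t‖ ^ 2 := one_le_pow₀ (one_le_Qk hκ hre)
  have hQ0 : 0 < ‖Qk κ t‖ ^ 2 := by linarith
  have hyl0 : 0 ≤ vn yl := vnn yl
  have hy0 : 0 ≤ yz e κ t := hyl0.trans h.yl
  have hyh0 : 0 ≤ vn c.yh := vnn _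
  have hE0 : 0 ≤ vn c.E := vnn _
  have hinv : 0 < 1 / e := by positivity
  -- `y² / e² ≤ yy`
  have hyy : yz e κ t ^ 2 / e ^ 2 ≤ vn c.yh ^ 2 * vn c.E ^ 2 := by
    have h3 : yz e κ t ^ 2 / e ^ 2 = yz e κ t ^ 2 * (1 / e) ^ 2 := by field_simp
    rw [h3]
    have h4 := h.yh
    have h5 := C.E
    gcongr
  have hyy2 : yz e κ t ^ 2 / e ^ 2 ≤ vn c.yy := hyy.trans C.yy
  -- `|Q|² ≤ dd`
  have hQd : ‖Qk κ t‖ ^ 2 ≤ vn (ddf c rh) := by
    have h3 : ‖Qk κ t‖ ^ 2 = 1 + (Real.sinh κ ^ 2 + 2 * (rz e κ t * (1 / e) * Real.cosh κ)) +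
        (rz e κ t * rz e κ t + yz e κ t ^ 2) * (1 / e) * (1 / e) := by
      rw [Q_sq he, Sz_eq]
      field_simp
      ring
    have h4 : vn (ddf c rh) = 1 + (vn c.k2 + 2 * vn (mu (mu rh c.E) c.kk)) +
        vn (mu (mu (Nat.add (mu rh rh) c.y2) c.E) c.E) := by
      unfold ddf
      rw [vn_add, vn_add, vn_add, vn_two_mul, vn_one]
      ring
    rw [h3, h4]
    have hrh := h.rh
    have hrh0 : 0 ≤ vn rh := vnn rh
    have hE := C.E
    have hkk : Real.cosh κ ≤ vn c.kk := by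
      rw [C.kk]
      have := C.k2
      have := C.kh
      linarith
    have a1 : rz e κ t * (1 / e) * Real.cosh κ ≤ vn (mu (mu rh c.E) c.kk) := by
      calc rz e κ t * (1 / e) * Real.cosh κ ≤ vn rh * vn c.E * vn c.kk := by gcongr
        _ ≤ vn (mu rh c.E) * vn c.kk := mul_le_mul_of_nonneg_right (vn_mu _ _) (vnn _)
        _ ≤ _ := vn_mu _ _
    have a2 : (rz e κ t * rz e κ t + yz e κ t ^ 2) * (1 / e) * (1 / e) ≤
        vn (mu (mu (Nat.add (mu rh rh) c.y2) c.E) c.E) := by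
      have b1 : rz e κ t * rz e κ t ≤ vn rh * vn rh := by gcongr
      have b2 : yz e κ t ^ 2 ≤ vn c.yh ^ 2 := by
        have := h.yh
        gcongr
      have b3 : rz e κ t * rz e κ t + yz e κ t ^ 2 ≤ vn (Nat.add (mu rh rh) c.y2) := by
        rw [vn_add]
        have := vn_mu rh rh
        have := C.y2
        linarith
      have b4 : 0 ≤ rz e κ t * rz e κ t + yz e κ t ^ 2 := by positivity
      have b5 : 0 ≤ vn (Nat.add (mu rh rh) c.y2) := vnn _
      calc (rz e κ t * rz e κ t + yz e κ t ^ 2) * (1 / e) * (1 / e) ≤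
            vn (Nat.add (mu rh rh) c.y2) * vn c.E * vn c.E := by
            apply mul_le_mul (mul_le_mul b3 hE hinv.le b5) hE hinv.le (mul_nonneg b5 hE0)
        _ ≤ vn (mu (Nat.add (mu rh rh) c.y2) c.E) * vn c.E :=
            mul_le_mul_of_nonneg_right (vn_mu _ _) (vnn _)
        _ ≤ _ := vn_mu _ _
    have := C.k2
    linarith
  have hdd0 : 0 < vn (ddf c rh) := by linarith
  refine ⟨?_, ?_, ?_, ?_, ?_, ?_, ?_⟩
  · exact shf_re hκ hre.le
  · -- lower bound of `r'`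
    have hr0 : 0 ≤ vn rl := vnn rl
    have hS0 := Sz_pos he hκ t
    have hq1 : yz e κ t ^ 2 / e ^ 2 ≤ 1 := by
      have a1 := C.yh
      have a2 := C.E1
      have a3 : vn c.yh ^ 2 * vn c.E ^ 2 ≤ (7 / 2) ^ 2 * (1 / 199) ^ 2 := by gcongr
      have a4 : ((7 : ℝ) / 2) ^ 2 * (1 / 199) ^ 2 ≤ 1 := by norm_num
      linarith
    have hst := step_r (e := e) (K := Real.sinh κ) (C := Real.cosh κ) (r := vn rl)
      (x := rz e κ t) (y := yz e κ t) (S := Sz e κ t) he200 hc1 hcs hr0 h.rl hq1 (Sz_eq e κ t)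
    have hQ2 : ‖Qk κ t‖ ^ 2 = (Real.cosh κ + rz e κ t / e) ^ 2 + yz e κ t ^ 2 / e ^ 2 := by
      rw [Complex.sq_norm, Complex.normSq_apply, Q_re he, Q_im he]
      ring
    have hrz : rz e κ (shf κ t) = e * (Real.cosh κ - (Real.cosh κ + rz e κ t / e) /
        ((Real.cosh κ + rz e κ t / e) ^ 2 + yz e κ t ^ 2 / e ^ 2)) := by
      rw [rz_shf he hκ hre, Q_re he, hQ2]
    rw [← hrz] at hst
    have hpos : 0 ≤ rz e κ (shf κ t) := (rz_pos he hκ (shf_re hκ hre.le)).le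
    obtain ⟨q, hq⟩ : ∃ q, q = yz e κ t ^ 2 / e ^ 2 := ⟨_, rfl⟩
    obtain ⟨u, hu⟩ : ∃ u, u = Real.cosh κ + vn rl / e := ⟨_, rfl⟩
    rw [← hq, ← hu] at hst
    have hq0 : 0 ≤ q := by rw [hq]; positivity
    have hu1 : 1 ≤ u := by
      rw [hu]
      have : 0 ≤ vn rl / e := by positivity
      linarith
    have hden : 1 ≤ u ^ 2 + q := by nlinarith
    have hf := frac_ge hu1 hq0
    -- the value of `fac`
    have hfac : 1 - vn (fcf c rl) ≤ u / (u ^ 2 + q) := by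
      refine le_trans ?_ hf
      have b1 : vn (fcf c rl) = vn c.kh + vn (mu rl c.E) + vn c.yy := by
        unfold fcf
        rw [vn_add, vn_add]
      have b2 : vn rl / e ≤ vn (mu rl c.E) := by
        refine le_trans ?_ (vn_mu _ _)
        have := C.E
        calc vn rl / e = vn rl * (1 / e) := by ring
          _ ≤ _ := by gcongr
      have b3 := C.k2
      have b4 := C.kh
      rw [b1, hu]
      rw [← hq] at hyy2
      linarith
    have hfac0 : 0 ≤ 1 - vn (fcf c rl) := by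
      have : vn (fcf c rl) ≤ vn 268435456 := by
        unfold vn
        gcongr
      rw [vn_one] at this
      linarith
    have hr2 : vn rl ^ 2 / e ≤ vn (r2f c rl) := by
      unfold r2f
      calc vn rl ^ 2 / e = vn rl * vn rl * (1 / e) := by ring
        _ ≤ vn rl * vn rl * vn c.E := by
            have := C.E
            gcongr
        _ ≤ vn (mu rl rl) * vn c.E := mul_le_mul_of_nonneg_right (vn_mu _ _) (vnn _)
        _ ≤ _ := vn_mu _ _
    have hwr : 0 ≤ vn wl - vn (r2f c rl) := by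
      have : vn (r2f c rl) ≤ vn wl := by
        unfold vn
        gcongr
      linarith
    have hSe : vn wl - vn (r2f c rl) ≤ (Sz e κ t - vn rl ^ 2) / e := by
      rw [sub_div]
      have := h.wl
      linarith
    have hmain : (vn wl - vn (r2f c rl)) * (1 - vn (fcf c rl)) ≤
        (Sz e κ t - vn rl ^ 2) / e * (u / (u ^ 2 + q)) :=
      mul_le_mul hSe hfac hfac0 (hwr.trans hSe)
    have hsub : 2 * vn rl * q / (u ^ 2 + q) ≤ 2 * vn (mu rl c.yy) := by
      have b1 : 2 * vn rl * q / (u ^ 2 + q) ≤ 2 * vn rl * q :=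
        div_le_self (by positivity) hden
      have b2 : vn rl * q ≤ vn rl * vn c.yy := by
        rw [← hq] at hyy2
        gcongr
      have b3 := vn_mu rl c.yy
      linarith
    have hml : vn (ml (Nat.sub wl (r2f c rl)) (Nat.sub 268435456 (fcf c rl))) ≤
        (vn wl - vn (r2f c rl)) * (1 - vn (fcf c rl)) := by
      refine (vn_ml _ _).trans (le_of_eq ?_)
      rw [vn_sub h1, vn_sub h2, vn_one]
    unfold nrl
    rcases Nat.lt_or_ge (Nat.add rl (ml (Nat.sub wl (r2f c rl)) (Nat.sub 268435456 (fcf c rl))))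
      (Nat.mul 2 (mu rl c.yy)) with hlt | hge
    · have : Nat.sub (Nat.add rl (ml (Nat.sub wl (r2f c rl)) (Nat.sub 268435456 (fcf c rl))))
          (Nat.mul 2 (mu rl c.yy)) = 0 := Nat.sub_eq_zero_of_le hlt.le
      rw [this]
      have h0 : vn 0 = 0 := by unfold vn; simp
      rw [h0]
      exact hpos
    · rw [vn_sub hge, vn_add, vn_two_mul]
      linarith
  · rw [vn_add']
    have := rz_shf_le he hκ hre
    have := h.rh
    have := h.wh
    linarith
  · rw [Pool.Agent.helper31.EQB.yz_shf he hκ hre]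
    unfold nyl
    calc vn (Nat.div (Nat.mul yl 268435456) (ddf c rh)) ≤ vn yl / ‖Qk κ t‖ ^ 2 := vn_div hQ0 hQd
      _ ≤ _ := by
          have := h.yl
          gcongr
  · rw [Pool.Agent.helper31.EQB.yz_shf he hκ hre]
    exact (div_le_self hy0 hQ1).trans h.yh
  · unfold nwl
    have b1 : vn (Nat.div (Nat.mul (Nat.div (Nat.mul wl 268435456) (ddf c rh)) 268435456)
        (ddf c rh)) ≤ vn wl / ‖Qk κ t‖ ^ 2 / ‖Qk κ t‖ ^ 2 := by
      refine (vn_div hQ0 hQd).trans ?_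
      have := vn_div (a := wl) hQ0 hQd
      gcongr
    refine b1.trans ?_
    have b2 : Sz e κ (shf κ t) = e ^ 2 * Real.sinh κ ^ 2 +
        yz e κ t ^ 2 / ‖Qk κ t‖ ^ 2 / ‖Qk κ t‖ ^ 2 := by
      rw [Sz_eq, Pool.Agent.helper31.EQB.yz_shf he hκ hre]
      field_simp
    have b3 : e ^ 2 * Real.sinh κ ^ 2 / ‖Qk κ t‖ ^ 2 / ‖Qk κ t‖ ^ 2 ≤ e ^ 2 * Real.sinh κ ^ 2 := by
      rw [div_div]
      exact div_le_self (by positivity) (one_le_mul_of_one_le_of_one_le hQ1 hQ1)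
    have b4 : Sz e κ t / ‖Qk κ t‖ ^ 2 / ‖Qk κ t‖ ^ 2 ≤ Sz e κ (shf κ t) := by
      rw [b2, Sz_eq, add_div, add_div]
      linarith
    calc vn wl / ‖Qk κ t‖ ^ 2 / ‖Qk κ t‖ ^ 2 ≤ Sz e κ t / e / ‖Qk κ t‖ ^ 2 / ‖Qk κ t‖ ^ 2 := by
          have := h.wl
          gcongr
      _ = Sz e κ t / ‖Qk κ t‖ ^ 2 / ‖Qk κ t‖ ^ 2 / e := by
          field_simp
      _ ≤ _ := by gcongr
  · refine le_trans ?_ h.wh
    have := Sz_shf_le he hκ hre
    gcongr

end

end Pool.Agent.helper31.A2
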